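import Mathlib

section
/-!
# Complex hyperplane sections of complex `ℓ_p` balls: auxiliary functions

Throughout `p = 2 α` with `α > 1`.
-/

open Real MeasureTheory Set

namespace LpSec

/-- The kernels `K ν u = ∑ (-u)^m / (m! (m+ν)!)`. One has `K 0 u = J₀(2 √u)`. -/
noncomputable def K (ν : ℕ) (u : ℝ) : ℝ :=
  ∑' m : ℕ, (-u) ^ m / ((m.factorial : ℝ) * ((m + ν).factorial : ℝ))

/-- The mean of the density proportional to `exp (-ρ ^ α)` on `(0, ∞)`. -/
noncomputable def mu (α : ℝ) : ℝ := Gamma (1 + 2 / α) / (2 * Gamma (1 + 1 / α))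

/-- The sharp constant `2 Γ(1 + 1/α)² / Γ(1 + 2/α)`. -/
noncomputable def DD (α : ℝ) : ℝ := 2 * Gamma (1 + 1 / α) ^ 2 / Gamma (1 + 2 / α)

/-- `AA α = 2 ∫ (F α)² = 2 ∫ (Phi α)²`. -/
noncomputable def AA (α : ℝ) : ℝ := 2 ^ (1 - 1 / α) / DD α

/-- The density proportional to `exp (-(c ρ) ^ α)` on `(0, ∞)` with mean one. -/
noncomputable def F (α ρ : ℝ) : ℝ := (DD α)⁻¹ * exp (-(mu α * ρ) ^ α)

/-- `G α t = - t F'(t)`, a probability density on `(0, ∞)` with mean two. -/
noncomputable def G (α t : ℝ) : ℝ :=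
  (DD α)⁻¹ * (α * (mu α * t) ^ α * exp (-(mu α * t) ^ α))

/-- The (rescaled) characteristic function. -/
noncomputable def Phi (α s : ℝ) : ℝ := ∫ ρ in Ioi (0 : ℝ), F α ρ * K 0 (s * ρ)

/-- The complex hyperplane orthogonal to `a`, as a real subspace. -/
noncomputable def hyp {n : ℕ} (a : EuclideanSpace ℂ (Fin n)) :
    Submodule ℝ (EuclideanSpace ℂ (Fin n)) :=
  ((ℂ ∙ a)ᗮ).restrictScalars ℝ

/-- The integral of `exp (-∑ |z_i|^(2α))` over the hyperplane orthogonal to `a`. -/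
noncomputable def sec (α : ℝ) {n : ℕ} (a : EuclideanSpace ℂ (Fin n)) : ENNReal :=
  ∫⁻ z : hyp a, ENNReal.ofReal (exp (-∑ i, ‖(z : EuclideanSpace ℂ (Fin n)) i‖ ^ (2 * α)))

/-- The constant `(π Γ(1 + 1/α))^m`, the value of `sec` on coordinate hyperplanes in dimension
`m + 1`. -/
noncomputable def cst (α : ℝ) (m : ℕ) : ℝ := (π * Gamma (1 + 1 / α)) ^ m

/-- The `q`-th moment of `Phi α`. -/
noncomputable def Mom (α q : ℝ) : ENNReal :=
  ∫⁻ s in Ioi (0 : ℝ), ENNReal.ofReal (|Phi α s| ^ q)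

end LpSec

end

section
/-!
# T01 Kernel: basic facts on `K ν u = ∑ (-u)^m / (m! (m+ν)!)`

* termwise differentiation: `K ν' = - K (ν+1)`;
* recursion (compare coefficients): `u K (ν+2) u = (ν+1) K (ν+1) u - K ν u`;
* energy: `E = K ν ^2 + u K (ν+1)^2` has derivative `-(2ν+1) K (ν+1)^2 ≤ 0` (use the recursion),
  hence `|K ν u| ≤ K ν 0 = 1/ν!`;
* alternating tail: for `0 ≤ u ≤ (M+1)(M+1+ν)` the terms of index `≥ M+1` decrease in absolute value,
  so the tail is bounded by its first term;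
* `K_circle`: expand `cos (r cos θ)` and use `∫_0^{2π} cos^{2m} = 2π (2m)!/(4^m m!^2)`.
-/

open Real MeasureTheory Set

namespace LpSec

theorem K_summable (ν : ℕ) (u : ℝ) :
    Summable (fun m : ℕ => (-u) ^ m / ((m.factorial : ℝ) * ((m + ν).factorial : ℝ))) := by
  refine Summable.of_norm_bounded (g := fun m : ℕ => |u| ^ m / (m.factorial : ℝ))
    (Real.summable_pow_div_factorial |u|) fun m => ?_
  have h1 : (1 : ℝ) ≤ ((m + ν).factorial : ℝ) := by exact_mod_cast Nat.succ_le_of_lt (Nat.factorial_pos _)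
  have h2 : (0 : ℝ) < (m.factorial : ℝ) := by exact_mod_cast Nat.factorial_pos _
  have h3 : (0 : ℝ) < (m.factorial : ℝ) * ((m + ν).factorial : ℝ) := by positivity
  rw [norm_div, norm_pow, norm_neg, Real.norm_eq_abs, Real.norm_of_nonneg h3.le]
  refine div_le_div_of_nonneg_left (by positivity) h2 ?_
  nlinarith

theorem K_hasSum (ν : ℕ) (u : ℝ) :
    HasSum (fun m : ℕ => (-u) ^ m / ((m.factorial : ℝ) * ((m + ν).factorial : ℝ))) (K ν u) :=
  (K_summable ν u).hasSum

theorem K_zero (ν : ℕ) : K ν 0 = 1 / (ν.factorial : ℝ) := by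
  unfold K
  rw [tsum_eq_single 0]
  · simp
  · intro m hm
    rw [neg_zero, zero_pow hm, zero_div]

theorem K_hasDerivAt (ν : ℕ) (u : ℝ) : HasDerivAt (K ν) (-(K (ν + 1) u)) u := by
  set R : ℝ := |u| + 1 with hR
  have hR0 : 0 ≤ R := by positivity
  have hsum : Summable (fun m : ℕ => (m : ℝ) * R ^ (m - 1) / (m.factorial : ℝ)) := by
    rw [← summable_nat_add_iff 1]
    have h1 := Real.summable_pow_div_factorial R
    refine h1.congr fun m => ?_
    rw [Nat.factorial_succ, Nat.add_sub_cancel]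
    have h2 : (m.factorial : ℝ) ≠ 0 := by exact_mod_cast Nat.factorial_ne_zero _
    have h3 : ((m : ℝ) + 1) ≠ 0 := by positivity
    push_cast
    field_simp
  have key := hasDerivAt_tsum_of_isPreconnected (u := fun m : ℕ => (m : ℝ) * R ^ (m - 1) / (m.factorial : ℝ))
    (g := fun (m : ℕ) (y : ℝ) => (-y) ^ m / ((m.factorial : ℝ) * ((m + ν).factorial : ℝ)))
    (g' := fun (m : ℕ) (y : ℝ) => -((m : ℝ) * (-y) ^ (m - 1) / ((m.factorial : ℝ) * ((m + ν).factorial : ℝ))))
    (t := Metric.ball (0 : ℝ) R) (y₀ := u) (y := u) hsum Metric.isOpen_ball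
    (convex_ball (0 : ℝ) R).isPreconnected ?_ ?_ ?_ (K_summable ν u) ?_
  · have e : (∑' m : ℕ, -((m : ℝ) * (-u) ^ (m - 1) / ((m.factorial : ℝ) * ((m + ν).factorial : ℝ)))) =
        -(K (ν + 1) u) := by
      rw [tsum_neg]
      congr 1
      have hs : Summable (fun m : ℕ => (m : ℝ) * (-u) ^ (m - 1) /
          ((m.factorial : ℝ) * ((m + ν).factorial : ℝ))) := by
        refine Summable.of_norm_bounded hsum fun m => ?_
        rw [norm_div, norm_mul, norm_pow, norm_neg]
        have h1 : (1 : ℝ) ≤ ((m + ν).factorial : ℝ) := by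
          exact_mod_cast Nat.succ_le_of_lt (Nat.factorial_pos _)
        have h2 : (0 : ℝ) < (m.factorial : ℝ) := by exact_mod_cast Nat.factorial_pos _
        rw [Real.norm_eq_abs, Real.norm_eq_abs, Real.norm_eq_abs, Nat.abs_cast,
          abs_of_pos (by positivity : (0 : ℝ) < (m.factorial : ℝ) * ((m + ν).factorial : ℝ))]
        refine div_le_div₀ (by positivity) ?_ h2 (by nlinarith)
        refine mul_le_mul_of_nonneg_left ?_ (Nat.cast_nonneg _)
        exact pow_le_pow_left₀ (abs_nonneg _) (by rw [hR]; linarith) _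
      rw [hs.tsum_eq_zero_add]
      simp only [Nat.cast_zero, zero_mul, zero_div, zero_add]
      unfold K
      refine tsum_congr fun m => ?_
      rw [Nat.factorial_succ, Nat.add_sub_cancel, show m + 1 + ν = m + (ν + 1) by ring]
      have h2 : (m.factorial : ℝ) ≠ 0 := by exact_mod_cast Nat.factorial_ne_zero _
      have h3 : ((m : ℝ) + 1) ≠ 0 := by positivity
      have h4 : ((m + (ν + 1)).factorial : ℝ) ≠ 0 := by exact_mod_cast Nat.factorial_ne_zero _
      push_cast
      field_simp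
    rw [e] at key
    exact key
  · intro m y _
    have h1 : HasDerivAt (fun y : ℝ => (-y) ^ m) ((m : ℝ) * (-y) ^ (m - 1) * (-1)) y :=
      (hasDerivAt_id y).neg.pow m
    have h2 := h1.div_const ((m.factorial : ℝ) * ((m + ν).factorial : ℝ))
    refine h2.congr_deriv ?_
    rw [mul_neg_one, neg_div]
  · intro m y hy
    rw [Metric.mem_ball, dist_zero_right, Real.norm_eq_abs] at hy
    rw [norm_neg, norm_div, norm_mul, norm_pow, norm_neg]
    have h1 : (1 : ℝ) ≤ ((m + ν).factorial : ℝ) := by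
      exact_mod_cast Nat.succ_le_of_lt (Nat.factorial_pos _)
    have h2 : (0 : ℝ) < (m.factorial : ℝ) := by exact_mod_cast Nat.factorial_pos _
    rw [Real.norm_eq_abs, Real.norm_eq_abs, Real.norm_eq_abs, Nat.abs_cast,
      abs_of_pos (by positivity : (0 : ℝ) < (m.factorial : ℝ) * ((m + ν).factorial : ℝ))]
    refine div_le_div₀ (by positivity) ?_ h2 (by nlinarith)
    refine mul_le_mul_of_nonneg_left ?_ (Nat.cast_nonneg _)
    exact pow_le_pow_left₀ (abs_nonneg _) hy.le _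
  · rw [Metric.mem_ball, dist_zero_right, Real.norm_eq_abs, hR]
    linarith
  · rw [Metric.mem_ball, dist_zero_right, Real.norm_eq_abs, hR]
    linarith

theorem K_continuous (ν : ℕ) : Continuous (K ν) :=
  continuous_iff_continuousAt.2 fun u => (K_hasDerivAt ν u).continuousAt

theorem K_rec (ν : ℕ) (u : ℝ) : u * K (ν + 2) u = (ν + 1) * K (ν + 1) u - K ν u := by
  have h1 := ((K_hasSum (ν + 1) u).mul_left ((ν : ℝ) + 1)).sub (K_hasSum ν u)
  have h2 := (hasSum_nat_add_iff' 1).2 h1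
  rw [Finset.sum_range_one] at h2
  have h0 : ((ν : ℝ) + 1) * ((-u) ^ 0 / (((0 : ℕ).factorial : ℝ) * ((0 + (ν + 1)).factorial : ℝ))) -
      (-u) ^ 0 / (((0 : ℕ).factorial : ℝ) * ((0 + ν).factorial : ℝ)) = 0 := by
    rw [zero_add, zero_add, Nat.factorial_succ]
    have h4 : (ν.factorial : ℝ) ≠ 0 := by exact_mod_cast Nat.factorial_ne_zero _
    have h3 : ((ν : ℝ) + 1) ≠ 0 := by positivity
    push_cast
    rw [Nat.factorial_zero]
    field_simp
    simp
  rw [h0, sub_zero] at h2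
  have h3 := (K_hasSum (ν + 2) u).mul_left u
  have e : ∀ m : ℕ, u * ((-u) ^ m / ((m.factorial : ℝ) * ((m + (ν + 2)).factorial : ℝ))) =
      ((ν : ℝ) + 1) * ((-u) ^ (m + 1) / (((m + 1).factorial : ℝ) *
        ((m + 1 + (ν + 1)).factorial : ℝ))) -
      (-u) ^ (m + 1) / (((m + 1).factorial : ℝ) * ((m + 1 + ν).factorial : ℝ)) := by
    intro m
    have e1 : m + 1 + (ν + 1) = m + (ν + 2) := by ring
    have e2 : (m + (ν + 2)).factorial = (m + ν + 2) * (m + 1 + ν).factorial := by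
      rw [show m + (ν + 2) = (m + 1 + ν) + 1 by ring, Nat.factorial_succ]
      congr 1
    rw [e1, e2, Nat.factorial_succ, pow_succ]
    have h4 : (m.factorial : ℝ) ≠ 0 := by exact_mod_cast Nat.factorial_ne_zero _
    have h5 : ((m + 1 + ν).factorial : ℝ) ≠ 0 := by exact_mod_cast Nat.factorial_ne_zero _
    have h6 : ((m : ℝ) + 1) ≠ 0 := by positivity
    have h7 : ((m : ℝ) + ν + 2) ≠ 0 := by positivity
    push_cast
    field_simp
    ring
  simp only [e] at h3
  exact h3.unique h2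

/-- `(u K 1 u)' = K 0 u`. -/
theorem K_mul_hasDerivAt (u : ℝ) : HasDerivAt (fun u => u * K 1 u) (K 0 u) u := by
  have h1 := (hasDerivAt_id' u).fun_mul (K_hasDerivAt 1 u)
  have h2 := K_rec 0 u
  refine h1.congr_deriv ?_
  simp only [one_mul, Nat.cast_zero, zero_add] at h2 ⊢
  show K 1 u + u * -K 2 u = K 0 u
  linarith

theorem K_energy (ν : ℕ) {u v : ℝ} (_hu : 0 ≤ u) (huv : u ≤ v) :
    K ν v ^ 2 + v * K (ν + 1) v ^ 2 ≤ K ν u ^ 2 + u * K (ν + 1) u ^ 2 := by
  have hd : ∀ x : ℝ, HasDerivAt (fun x => K ν x ^ 2 + x * K (ν + 1) x ^ 2)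
      (-((2 * ν + 1) * K (ν + 1) x ^ 2)) x := by
    intro x
    have h1 := (K_hasDerivAt ν x).fun_pow 2
    have h2 := (hasDerivAt_id' x).fun_mul ((K_hasDerivAt (ν + 1) x).fun_pow 2)
    have h3 := h1.fun_add h2
    have hr := K_rec ν x
    refine h3.congr_deriv ?_
    simp only [one_mul, Nat.cast_ofNat, Nat.add_one_sub_one, pow_one]
    show 2 * K ν x * -K (ν + 1) x + (K (ν + 1) x ^ 2 + x * (2 * K (ν + 1) x * -K (ν + 2) x)) = _
    have : x * (2 * K (ν + 1) x * -K (ν + 2) x) = -(2 * K (ν + 1) x) * (x * K (ν + 2) x) := by ring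
    rw [this, hr]
    ring
  have hanti : Antitone (fun x => K ν x ^ 2 + x * K (ν + 1) x ^ 2) := by
    refine antitone_of_deriv_nonpos (fun x => (hd x).differentiableAt) fun x => ?_
    rw [(hd x).deriv]
    have : 0 ≤ (2 * (ν : ℝ) + 1) * K (ν + 1) x ^ 2 := by positivity
    linarith
  exact hanti huv

theorem K_abs_le (ν : ℕ) {u : ℝ} (hu : 0 ≤ u) : |K ν u| ≤ 1 / (ν.factorial : ℝ) := by
  have h1 := K_energy ν (le_refl 0) hu
  rw [K_zero, zero_mul, add_zero] at h1
  have h2 : K ν u ^ 2 ≤ (1 / (ν.factorial : ℝ)) ^ 2 := by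
    have : 0 ≤ u * K (ν + 1) u ^ 2 := by positivity
    linarith
  exact abs_le_of_sq_le_sq h2 (by positivity)

theorem K1_sq_le {u : ℝ} (hu : 0 ≤ u) : u * K 1 u ^ 2 ≤ 1 := by
  have h1 := K_energy 0 (le_refl 0) hu
  rw [K_zero, zero_mul, add_zero] at h1
  have h2 : 0 ≤ K 0 u ^ 2 := by positivity
  norm_num at h1
  linarith

theorem K_trunc (ν M : ℕ) {u : ℝ} (hu : 0 ≤ u) (h : u ≤ ((M : ℝ) + 1) * (M + 1 + ν)) :
    |K ν u - ∑ m ∈ Finset.range (M + 1),
        (-u) ^ m / ((m.factorial : ℝ) * ((m + ν).factorial : ℝ))| ≤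
      u ^ (M + 1) / (((M + 1).factorial : ℝ) * ((M + 1 + ν).factorial : ℝ)) := by
  set c : ℕ → ℝ := fun k => u ^ (k + (M + 1)) /
    (((k + (M + 1)).factorial : ℝ) * ((k + (M + 1) + ν).factorial : ℝ)) with hc
  have hanti : Antitone c := by
    refine antitone_nat_of_succ_le fun k => ?_
    simp only [hc]
    rw [show k + 1 + (M + 1) = (k + (M + 1)) + 1 by ring,
      show k + (M + 1) + 1 + ν = (k + (M + 1) + ν) + 1 by ring, Nat.factorial_succ (k + (M + 1)),
      Nat.factorial_succ (k + (M + 1) + ν), pow_succ]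
    have h1 : (0 : ℝ) < ((k + (M + 1)).factorial : ℝ) := by exact_mod_cast Nat.factorial_pos _
    have h2 : (0 : ℝ) < ((k + (M + 1) + ν).factorial : ℝ) := by exact_mod_cast Nat.factorial_pos _
    rw [div_le_div_iff₀ (by positivity) (by positivity)]
    have h3 : u ≤ ((k : ℝ) + (M + 1) + 1) * (k + (M + 1) + ν + 1) := by
      refine h.trans ?_
      have hk : (0 : ℝ) ≤ k := Nat.cast_nonneg k
      have hM : (0 : ℝ) ≤ M := Nat.cast_nonneg M
      have hν : (0 : ℝ) ≤ ν := Nat.cast_nonneg ν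
      refine mul_le_mul (by linarith) (by linarith) (by positivity) (by positivity)
    have h4 : 0 ≤ u ^ (k + (M + 1)) * (((k + (M + 1)).factorial : ℝ) *
        ((k + (M + 1) + ν).factorial : ℝ)) := by positivity
    push_cast
    nlinarith
  have hs := (hasSum_nat_add_iff' (M + 1)).2 (K_hasSum ν u)
  set T := K ν u - ∑ m ∈ Finset.range (M + 1),
        (-u) ^ m / ((m.factorial : ℝ) * ((m + ν).factorial : ℝ)) with hT
  have hs2 : HasSum (fun k : ℕ => (-1 : ℝ) ^ k * c k) ((-1) ^ (M + 1) * T) := by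
    have h0 := hs.mul_left ((-1 : ℝ) ^ (M + 1))
    have e : ∀ k : ℕ, (-1 : ℝ) ^ (M + 1) * ((-u) ^ (k + (M + 1)) /
        (((k + (M + 1)).factorial : ℝ) * ((k + (M + 1) + ν).factorial : ℝ))) =
        (-1 : ℝ) ^ k * c k := by
      intro k
      simp only [hc]
      rw [show (-u) ^ (k + (M + 1)) = (-1) ^ (k + (M + 1)) * u ^ (k + (M + 1)) by
        rw [← mul_pow, neg_one_mul]]
      have h1 : ((-1 : ℝ)) ^ (M + 1) * (-1) ^ (M + 1) = 1 := by
        rw [← mul_pow]; norm_num
      rw [pow_add (-1 : ℝ) k (M + 1)]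
      calc (-1 : ℝ) ^ (M + 1) * ((-1) ^ k * (-1) ^ (M + 1) * u ^ (k + (M + 1)) /
            (((k + (M + 1)).factorial : ℝ) * ((k + (M + 1) + ν).factorial : ℝ)))
          = ((-1 : ℝ) ^ (M + 1) * (-1) ^ (M + 1)) * ((-1 : ℝ) ^ k * (u ^ (k + (M + 1)) /
            (((k + (M + 1)).factorial : ℝ) * ((k + (M + 1) + ν).factorial : ℝ)))) := by ring
        _ = _ := by rw [h1, one_mul]
    simp only [e] at h0
    exact h0
  have hlim := hs2.tendsto_sum_nat
  have hlo := hanti.alternating_series_le_tendsto hlim 0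
  have hup := hanti.tendsto_le_alternating_series hlim 0
  simp only [mul_zero, Finset.range_zero, Finset.sum_empty, zero_add, Finset.sum_range_one,
    pow_zero, one_mul] at hlo hup
  have habs : |T| = |(-1 : ℝ) ^ (M + 1) * T| := by
    rw [abs_mul, abs_pow, abs_neg, abs_one, one_pow, one_mul]
  rw [habs, abs_of_nonneg hlo]
  refine hup.trans (le_of_eq ?_)
  simp only [hc, zero_add]

theorem integral_cos_even (m : ℕ) :
    ∫ θ in (0 : ℝ)..(2 * π), cos θ ^ (2 * m) =
      2 * π * (((2 * m).factorial : ℝ) / (4 ^ m * (m.factorial : ℝ) ^ 2)) := by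
  induction m with
  | zero => simp
  | succ m ih =>
    rw [show 2 * (m + 1) = 2 * m + 2 by ring, integral_cos_pow, ih, sin_two_pi, sin_zero,
      Nat.factorial_succ (2 * m + 1), Nat.factorial_succ (2 * m), Nat.factorial_succ m]
    have h1 : (m.factorial : ℝ) ≠ 0 := by exact_mod_cast Nat.factorial_ne_zero _
    have h2 : ((m : ℝ) + 1) ≠ 0 := by positivity
    push_cast
    field_simp
    ring

theorem K_circle (r : ℝ) :
    ∫ θ in (0 : ℝ)..(2 * π), cos (r * cos θ) = 2 * π * K 0 (r ^ 2 / 4) := by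
  have key := intervalIntegral.hasSum_intervalIntegral_of_summable_norm (a := (0 : ℝ)) (b := 2 * π)
    (f := fun m : ℕ => (⟨fun θ : ℝ => (-1 : ℝ) ^ m * (r * cos θ) ^ (2 * m) / ((2 * m).factorial : ℝ),
      by fun_prop⟩ : C(ℝ, ℝ))) ?_
  · have e1 : (∫ θ in (0 : ℝ)..(2 * π), ∑' m : ℕ, (-1 : ℝ) ^ m * (r * cos θ) ^ (2 * m) /
        ((2 * m).factorial : ℝ)) = ∫ θ in (0 : ℝ)..(2 * π), cos (r * cos θ) := by
      refine intervalIntegral.integral_congr fun θ _ => ?_
      exact (Real.hasSum_cos (r * cos θ)).tsum_eq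
    simp only [ContinuousMap.coe_mk] at key
    rw [e1] at key
    have h2 := (K_hasSum 0 (r ^ 2 / 4)).mul_left (2 * π)
    have e3 : ∀ m : ℕ, (∫ θ in (0 : ℝ)..(2 * π), (-1 : ℝ) ^ m * (r * cos θ) ^ (2 * m) /
        ((2 * m).factorial : ℝ)) = 2 * π * ((-(r ^ 2 / 4)) ^ m /
          ((m.factorial : ℝ) * ((m + 0).factorial : ℝ))) := by
      intro m
      have e2 : ∀ θ : ℝ, (-1 : ℝ) ^ m * (r * cos θ) ^ (2 * m) / ((2 * m).factorial : ℝ) =
          ((-1 : ℝ) ^ m * r ^ (2 * m) / ((2 * m).factorial : ℝ)) * cos θ ^ (2 * m) := by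
        intro θ
        rw [mul_pow]
        ring
      simp only [e2]
      rw [intervalIntegral.integral_const_mul, integral_cos_even]
      have h3 : ((2 * m).factorial : ℝ) ≠ 0 := by exact_mod_cast Nat.factorial_ne_zero _
      have h4 : (m.factorial : ℝ) ≠ 0 := by exact_mod_cast Nat.factorial_ne_zero _
      have h5 : (-(r ^ 2 / 4)) ^ m = (-1) ^ m * r ^ (2 * m) / 4 ^ m := by
        rw [show -(r ^ 2 / 4) = (-1) * r ^ 2 / 4 by ring, div_pow, mul_pow, ← pow_mul]
      rw [h5, add_zero]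
      field_simp
    simp only [e3] at key
    exact key.unique h2
  · refine Summable.of_nonneg_of_le (fun _ => norm_nonneg _) (fun m => ?_)
      (Real.summable_pow_div_factorial |r| |>.comp_injective
        (i := fun m : ℕ => 2 * m) (fun a b h => by simpa using h))
    refine (ContinuousMap.norm_le _ (div_nonneg (pow_nonneg (abs_nonneg r) _)
      (Nat.cast_nonneg _))).2 fun θ => ?_
    simp only [ContinuousMap.restrict_apply, ContinuousMap.coe_mk]
    rw [norm_div, norm_mul, norm_pow, norm_pow, norm_mul, norm_neg, norm_one, one_pow, one_mul,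
      Real.norm_eq_abs, Real.norm_eq_abs, Real.norm_eq_abs, Nat.abs_cast]
    refine div_le_div_of_nonneg_right ?_ (Nat.cast_nonneg _)
    refine pow_le_pow_left₀ (by positivity) ?_ _
    have := abs_cos_le_one (θ : ℝ)
    nlinarith [abs_nonneg r]

end LpSec

end

section
/-!
# T02 KernelNum: numerical facts on the kernels

All evaluations at rational points through `K_trunc` (take `M = 18` or so) and `norm_num`
(`Finset.sum_range_succ`, `Nat.factorial`). True values:
K0(1.55) = -0.04339, K0(3.6) = -0.40248, K0(5.5025) = -0.27170, K0(6.5) = -0.144665,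
K1(6.5) = -0.132190, K2(6.5) = 0.001919, K3(6.5) = 0.020928, K4(6.5) = 0.009364,
K0(7.5) = -0.014634, K1(7.5) = -0.125105, K1(3.6) = 0.007885,
K1(10.1) = -0.060865, K2(10.1) = -0.029301, K3(10.1) = 0.000224,
K1(14.4) = 0.041314, K2(14.4) = -0.014719, K3(14.4) = -0.004913, K4(14.4) = -0.0000015,
K1(16) = 0.058659, K2(16) = -0.007062,
K1(0.8) = 0.649917, K1(1.6) = 0.387048, K1(2.4) = 0.194649, K1(3.16) = 0.064240.

* Signs on `[0, 13/2]`: `K 6 > 0` on `[0,7]` by pairing terms (`u ≤ 7 = 1*(1+6)`: each pair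
  `u^(2k)/(..) - u^(2k+1)/(..) ≥ 0`), or by `K_trunc` with `M = 0`
  (`|K 6 u - 1/720| ≤ u/5040`, so `K 6 u ≥ 1/720 - 6.5/5040 > 0`). Then `K 5' = -K 6 ≤ 0`, so
  `K 5` decreases and `K 5 (6.5) > 0`; same for `K 4`, `K 3`, `K 2`. `K 1` decreases on `[0,13/2]`
  and `K 1 (18/5) > 0`. `K 0` is convex there (`K 0'' = K 2`).
* `K0_far`: energy at 6.5: sqrt(K0² + 6.5 K1²) = 0.366757. `K0_far'`: at 7.5: 0.342925.
* `K0_mid`: `K 0 v ≥ K 0 6.5 - 0.1324 (v - 6.5)`, since `|K 1| ≤ 0.1324` beyond 6.5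
  (energy: sqrt(K1(6.5)² + 6.5 K2(6.5)²) = 0.132281).
* `K1_far`: on [6.5, 10.1]: `K 1 v ≤ K 1 6.5 + 0.0535 (v - 6.5) ≤ 0.0605` (`|K 2| ≤ 0.05339` by the
  energy of `K 2` at 6.5: sqrt(K2² + 6.5 K3²)); on [10.1, 14.4]: `K 1 v ≤ K 1 10.1 + 0.02932 (v - 10.1)
  ≤ 0.0655`: take the energy of `K 2` at 10.1, 0.029310, giving `-0.06086 + 0.02932*4.3 = 0.0652`; if
  too tight insert the node 12 (`K1(12) = -0.0076086`, `K2(12) = -0.0255479`, `K3(12) = -0.0036239`,
  energy of `K 2` at 12: 0.028466, so `K 1 v ≤ -0.0076 + 0.0285*2.4 = 0.0608` on [12, 14.4], and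
  `-0.06086 + 0.0294*1.9 < 0` on [10.1, 12]); on [14.4, 16]: `K 2 v ≤ K 2 14.4 + 0.005 * 1.6 < 0`
  (energy of `K 3` at 14.4: 0.004913), so `K 1` increases and `K 1 v ≤ K 1 16 = 0.05866`; on [16, ∞):
  energy of `K 1` at 16: 0.065106.
-/

open Real MeasureTheory Set

namespace LpSec

theorem kn_K_bounds (ν M : ℕ) {u lo hi : ℝ} (hu : 0 ≤ u) (h : u ≤ ((M : ℝ) + 1) * (M + 1 + ν))
    (hlo : lo + u ^ (M + 1) / (((M + 1).factorial : ℝ) * ((M + 1 + ν).factorial : ℝ)) ≤
      ∑ m ∈ Finset.range (M + 1), (-u) ^ m / ((m.factorial : ℝ) * ((m + ν).factorial : ℝ)))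
    (hhi : ∑ m ∈ Finset.range (M + 1), (-u) ^ m / ((m.factorial : ℝ) * ((m + ν).factorial : ℝ)) +
      u ^ (M + 1) / (((M + 1).factorial : ℝ) * ((M + 1 + ν).factorial : ℝ)) ≤ hi) :
    lo ≤ K ν u ∧ K ν u ≤ hi := by
  have h1 := abs_le.mp (K_trunc ν M hu h)
  constructor <;> linarith [h1.1, h1.2]

theorem kn_K_deriv (ν : ℕ) : deriv (K ν) = fun u => -K (ν + 1) u :=
  funext fun u => (K_hasDerivAt ν u).deriv

theorem kn_K_deriv2 (ν : ℕ) : deriv^[2] (K ν) = fun u => K (ν + 2) u := by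
  have h : deriv (deriv (K ν)) = fun u => K (ν + 2) u := by
    rw [kn_K_deriv]
    funext u
    have := ((K_hasDerivAt (ν + 1) u).neg).deriv
    rw [neg_neg] at this
    exact this
  exact h

theorem kn_K_differentiable (ν : ℕ) : Differentiable ℝ (K ν) :=
  fun u => (K_hasDerivAt ν u).differentiableAt

theorem kn_K_antitoneOn {ν : ℕ} {a b : ℝ} (h : ∀ u ∈ Icc a b, 0 ≤ K (ν + 1) u) :
    AntitoneOn (K ν) (Icc a b) := by
  refine antitoneOn_of_deriv_nonpos (convex_Icc a b) (K_continuous ν).continuousOn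
    (kn_K_differentiable ν).differentiableOn ?_
  intro u hu
  rw [kn_K_deriv]
  have := h u (interior_subset hu)
  simpa using this

theorem kn_K_nonneg_step {ν : ℕ} (h : ∀ u ∈ Icc (0 : ℝ) (13 / 2), 0 ≤ K (ν + 1) u)
    (h1 : 0 ≤ K ν (13 / 2)) : ∀ u ∈ Icc (0 : ℝ) (13 / 2), 0 ≤ K ν u := by
  intro u hu
  exact h1.trans (kn_K_antitoneOn h hu (right_mem_Icc.mpr (by norm_num)) hu.2)

theorem kn_K6_nonneg : ∀ u ∈ Icc (0 : ℝ) (13 / 2), 0 ≤ K 6 u := by
  intro u hu
  have h1 := abs_le.mp (K_trunc 6 0 hu.1 (by push_cast; linarith [hu.2]))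
  norm_num [Finset.sum_range_succ, Nat.factorial] at h1
  linarith [h1.1, hu.2]

theorem kn_K5_nonneg : ∀ u ∈ Icc (0 : ℝ) (13 / 2), 0 ≤ K 5 u :=
  kn_K_nonneg_step kn_K6_nonneg (kn_K_bounds 5 10 (lo := 0) (hi := 1) (by norm_num) (by norm_num)
    (by norm_num [Finset.sum_range_succ, Nat.factorial])
    (by norm_num [Finset.sum_range_succ, Nat.factorial])).1

theorem kn_K4_nonneg : ∀ u ∈ Icc (0 : ℝ) (13 / 2), 0 ≤ K 4 u :=
  kn_K_nonneg_step kn_K5_nonneg (kn_K_bounds 4 10 (lo := 0) (hi := 1) (by norm_num) (by norm_num)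
    (by norm_num [Finset.sum_range_succ, Nat.factorial])
    (by norm_num [Finset.sum_range_succ, Nat.factorial])).1

theorem kn_K3_65 : 0.02092 ≤ K 3 (13 / 2) ∧ K 3 (13 / 2) ≤ 0.02093 := by
  apply kn_K_bounds 3 12 <;> norm_num [Finset.sum_range_succ, Nat.factorial]

theorem kn_K3_nonneg' : ∀ u ∈ Icc (0 : ℝ) (13 / 2), 0 ≤ K 3 u :=
  kn_K_nonneg_step kn_K4_nonneg (le_trans (by norm_num) kn_K3_65.1)

theorem kn_K2_65 : 0.0019 ≤ K 2 (13 / 2) ∧ K 2 (13 / 2) ≤ 0.00192 := by
  apply kn_K_bounds 2 12 <;> norm_num [Finset.sum_range_succ, Nat.factorial]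

theorem kn_K2_nonneg' : ∀ u ∈ Icc (0 : ℝ) (13 / 2), 0 ≤ K 2 u :=
  kn_K_nonneg_step kn_K3_nonneg' (le_trans (by norm_num) kn_K2_65.1)

theorem K3_nonneg {u : ℝ} (h0 : 0 ≤ u) (h : u ≤ 13 / 2) : 0 ≤ K 3 u :=
  kn_K3_nonneg' u ⟨h0, h⟩

theorem K2_nonneg {u : ℝ} (h0 : 0 ≤ u) (h : u ≤ 13 / 2) : 0 ≤ K 2 u :=
  kn_K2_nonneg' u ⟨h0, h⟩

theorem K1_antitone : AntitoneOn (K 1) (Icc 0 (13 / 2)) :=
  kn_K_antitoneOn kn_K2_nonneg'

theorem kn_K1_36 : 0.0078 ≤ K 1 (18 / 5) ∧ K 1 (18 / 5) ≤ 0.0079 := by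
  apply kn_K_bounds 1 12 <;> norm_num [Finset.sum_range_succ, Nat.factorial]

theorem K1_pos {u : ℝ} (h0 : 0 ≤ u) (h : u ≤ 18 / 5) : 0 < K 1 u := by
  have h1 := K1_antitone (a := u) (b := 18 / 5) ⟨h0, by linarith⟩ ⟨by norm_num, by norm_num⟩ h
  linarith [kn_K1_36.1]

theorem K0_convex : ConvexOn ℝ (Icc 0 (13 / 2)) (K 0) := by
  refine convexOn_of_deriv2_nonneg (convex_Icc _ _) (K_continuous 0).continuousOn
    (kn_K_differentiable 0).differentiableOn ?_ ?_
  · rw [kn_K_deriv]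
    exact ((kn_K_differentiable 1).neg).differentiableOn
  · intro u hu
    rw [kn_K_deriv2]
    exact kn_K2_nonneg' u (interior_subset hu)

theorem K1_convex : ConvexOn ℝ (Icc 0 (13 / 2)) (K 1) := by
  refine convexOn_of_deriv2_nonneg (convex_Icc _ _) (K_continuous 1).continuousOn
    (kn_K_differentiable 1).differentiableOn ?_ ?_
  · rw [kn_K_deriv]
    exact ((kn_K_differentiable 2).neg).differentiableOn
  · intro u hu
    rw [kn_K_deriv2]
    exact kn_K3_nonneg' u (interior_subset hu)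

theorem K0_at_a : -0.044 ≤ K 0 1.55 :=
  (kn_K_bounds 0 8 (lo := -0.044) (hi := 0) (by norm_num) (by norm_num)
    (by norm_num [Finset.sum_range_succ, Nat.factorial])
    (by norm_num [Finset.sum_range_succ, Nat.factorial])).1

theorem K0_at_b : K 0 (18 / 5) ≤ -0.402 :=
  (kn_K_bounds 0 12 (lo := -1) (hi := -0.402) (by norm_num) (by norm_num)
    (by norm_num [Finset.sum_range_succ, Nat.factorial])
    (by norm_num [Finset.sum_range_succ, Nat.factorial])).2

theorem K0_at_c : K 0 5.5025 ≤ -0.27 :=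
  (kn_K_bounds 0 12 (lo := -1) (hi := -0.27) (by norm_num) (by norm_num)
    (by norm_num [Finset.sum_range_succ, Nat.factorial])
    (by norm_num [Finset.sum_range_succ, Nat.factorial])).2

/-- Bound from the energy. -/
theorem kn_K_abs_of_energy (ν : ℕ) {u v B : ℝ} (hu : 0 ≤ u) (huv : u ≤ v) (hB : 0 ≤ B)
    (h : K ν u ^ 2 + u * K (ν + 1) u ^ 2 ≤ B ^ 2) : |K ν v| ≤ B := by
  have h1 := K_energy ν hu huv
  have h2 : 0 ≤ v * K (ν + 1) v ^ 2 := mul_nonneg (hu.trans huv) (sq_nonneg _)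
  exact abs_le_of_sq_le_sq (by linarith) hB

theorem kn_sq_le_of_bounds {x lo hi B : ℝ} (h1 : lo ≤ x) (h2 : x ≤ hi) (hlo : lo ^ 2 ≤ B)
    (hhi : hi ^ 2 ≤ B) : x ^ 2 ≤ B := by
  nlinarith [mul_nonneg (sub_nonneg.mpr h1) (sub_nonneg.mpr h2), sq_nonneg (lo + hi),
    sq_nonneg (x - lo), sq_nonneg (x - hi)]

theorem kn_K0_65 : -0.14467 ≤ K 0 (13 / 2) ∧ K 0 (13 / 2) ≤ -0.14466 := by
  apply kn_K_bounds 0 14 <;> norm_num [Finset.sum_range_succ, Nat.factorial]

theorem kn_K1_65 : -0.1322 ≤ K 1 (13 / 2) ∧ K 1 (13 / 2) ≤ -0.13218 := by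
  apply kn_K_bounds 1 14 <;> norm_num [Finset.sum_range_succ, Nat.factorial]

theorem kn_K0_75 : -0.01464 ≤ K 0 (15 / 2) ∧ K 0 (15 / 2) ≤ -0.01463 := by
  apply kn_K_bounds 0 14 <;> norm_num [Finset.sum_range_succ, Nat.factorial]

theorem kn_K1_75 : -0.12511 ≤ K 1 (15 / 2) ∧ K 1 (15 / 2) ≤ -0.1251 := by
  apply kn_K_bounds 1 14 <;> norm_num [Finset.sum_range_succ, Nat.factorial]

/-- squares of small numbers -/
theorem kn_sq_bd {x lo hi : ℝ} (h1 : lo ≤ x) (h2 : x ≤ hi) (h3 : hi ≤ 0) : x ^ 2 ≤ lo ^ 2 := by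
  nlinarith

theorem kn_sq_bd' {x lo hi : ℝ} (h1 : lo ≤ x) (h2 : x ≤ hi) (h3 : 0 ≤ lo) : x ^ 2 ≤ hi ^ 2 := by
  nlinarith

theorem K0_far {v : ℝ} (h : 13 / 2 ≤ v) : -0.367 ≤ K 0 v := by
  have h1 := kn_K_abs_of_energy 0 (u := 13 / 2) (v := v) (B := 0.367) (by norm_num) h (by norm_num)
    (by
      have := kn_sq_bd kn_K0_65.1 kn_K0_65.2 (by norm_num)
      have := kn_sq_bd kn_K1_65.1 kn_K1_65.2 (by norm_num)
      norm_num at *
      linarith)
  exact (abs_le.mp h1).1

theorem kn_K1_abs_65 {v : ℝ} (h : 13 / 2 ≤ v) : |K 1 v| ≤ 0.1324 :=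
  kn_K_abs_of_energy 1 (u := 13 / 2) (v := v) (B := 0.1324) (by norm_num) h (by norm_num)
    (by
      have := kn_sq_bd kn_K1_65.1 kn_K1_65.2 (by norm_num)
      have := kn_sq_bd' kn_K2_65.1 kn_K2_65.2 (by norm_num)
      norm_num at *
      linarith)

/-- One-sided mean value bound. -/
theorem kn_K_lower_of (ν : ℕ) {u v B : ℝ} (huv : u ≤ v) (h : ∀ w, u ≤ w → w ≤ v → K (ν + 1) w ≤ B) :
    K ν u - B * (v - u) ≤ K ν v := by
  have h1 := (convex_Icc u v).mul_sub_le_image_sub_of_le_deriv (f := K ν)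
    (K_continuous ν).continuousOn (kn_K_differentiable ν).differentiableOn (C := -B) ?_ u
    (left_mem_Icc.mpr huv) v (right_mem_Icc.mpr huv) huv
  · linarith
  · intro w hw
    have hw' := interior_subset hw
    rw [kn_K_deriv]
    have := h w hw'.1 hw'.2
    linarith

theorem kn_K_upper_of (ν : ℕ) {u v B : ℝ} (huv : u ≤ v) (h : ∀ w, u ≤ w → w ≤ v → -B ≤ K (ν + 1) w) :
    K ν v ≤ K ν u + B * (v - u) := by
  have h1 := (convex_Icc u v).image_sub_le_mul_sub_of_deriv_le (f := K ν)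
    (K_continuous ν).continuousOn (kn_K_differentiable ν).differentiableOn (C := B) ?_ u
    (left_mem_Icc.mpr huv) v (right_mem_Icc.mpr huv) huv
  · linarith
  · intro w hw
    have hw' := interior_subset hw
    rw [kn_K_deriv]
    have := h w hw'.1 hw'.2
    linarith

theorem K0_mid {v : ℝ} (h : 13 / 2 ≤ v) (h' : v ≤ 15 / 2) : -0.278 ≤ K 0 v := by
  have h1 := kn_K_lower_of 0 (B := 0.1324) h (fun w hw _ => (abs_le.mp (kn_K1_abs_65 hw)).2)
  have h2 := kn_K0_65.1
  norm_num at *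
  linarith

theorem K0_far' {v : ℝ} (h : 15 / 2 ≤ v) : -0.344 ≤ K 0 v := by
  have h1 := kn_K_abs_of_energy 0 (u := 15 / 2) (v := v) (B := 0.344) (by norm_num) h (by norm_num)
    (by
      have := kn_sq_bd kn_K0_75.1 kn_K0_75.2 (by norm_num)
      have := kn_sq_bd kn_K1_75.1 kn_K1_75.2 (by norm_num)
      norm_num at *
      linarith)
  exact (abs_le.mp h1).1

theorem K1_lower {u : ℝ} (h : 0 ≤ u) : -0.1324 ≤ K 1 u := by
  rcases le_total u (13 / 2) with h1 | h1
  · have h2 := K1_antitone (a := u) (b := 13 / 2) ⟨h, h1⟩ ⟨by norm_num, le_refl _⟩ h1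
    have h3 := kn_K1_65.1
    norm_num at *
    linarith
  · exact (abs_le.mp (kn_K1_abs_65 h1)).1

theorem kn_K1_101 : -0.06087 ≤ K 1 (101 / 10) ∧ K 1 (101 / 10) ≤ -0.06086 := by
  apply kn_K_bounds 1 16 <;> norm_num [Finset.sum_range_succ, Nat.factorial]

theorem kn_K2_101 : -0.02931 ≤ K 2 (101 / 10) ∧ K 2 (101 / 10) ≤ -0.0293 := by
  apply kn_K_bounds 2 16 <;> norm_num [Finset.sum_range_succ, Nat.factorial]

theorem kn_K3_101 : 0.00022 ≤ K 3 (101 / 10) ∧ K 3 (101 / 10) ≤ 0.00023 := by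
  apply kn_K_bounds 3 16 <;> norm_num [Finset.sum_range_succ, Nat.factorial]

theorem kn_K2_144 : -0.01473 ≤ K 2 (72 / 5) ∧ K 2 (72 / 5) ≤ -0.01471 := by
  apply kn_K_bounds 2 18 <;> norm_num [Finset.sum_range_succ, Nat.factorial]

theorem kn_K3_144 : -0.00492 ≤ K 3 (72 / 5) ∧ K 3 (72 / 5) ≤ -0.00491 := by
  apply kn_K_bounds 3 18 <;> norm_num [Finset.sum_range_succ, Nat.factorial]

theorem kn_K4_144 : -0.00001 ≤ K 4 (72 / 5) ∧ K 4 (72 / 5) ≤ 0.00001 := by
  apply kn_K_bounds 4 18 <;> norm_num [Finset.sum_range_succ, Nat.factorial]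

theorem kn_K1_16' : 0.05865 ≤ K 1 16 ∧ K 1 16 ≤ 0.05867 := by
  apply kn_K_bounds 1 18 <;> norm_num [Finset.sum_range_succ, Nat.factorial]

theorem kn_K2_16 : -0.00707 ≤ K 2 16 ∧ K 2 16 ≤ -0.00705 := by
  apply kn_K_bounds 2 18 <;> norm_num [Finset.sum_range_succ, Nat.factorial]

theorem kn_K2_abs_65 {v : ℝ} (h : 13 / 2 ≤ v) : |K 2 v| ≤ 0.05345 :=
  kn_K_abs_of_energy 2 (u := 13 / 2) (v := v) (B := 0.05345) (by norm_num) h (by norm_num)
    (by
      have := kn_sq_bd' kn_K2_65.1 kn_K2_65.2 (by norm_num)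
      have := kn_sq_bd' kn_K3_65.1 kn_K3_65.2 (by norm_num)
      norm_num at *
      linarith)

theorem kn_K2_abs_101 {v : ℝ} (h : 101 / 10 ≤ v) : |K 2 v| ≤ 0.02933 :=
  kn_K_abs_of_energy 2 (u := 101 / 10) (v := v) (B := 0.02933) (by norm_num) h (by norm_num)
    (by
      have := kn_sq_bd kn_K2_101.1 kn_K2_101.2 (by norm_num)
      have := kn_sq_bd' kn_K3_101.1 kn_K3_101.2 (by norm_num)
      norm_num at *
      linarith)

theorem kn_K3_abs_144 {v : ℝ} (h : 72 / 5 ≤ v) : |K 3 v| ≤ 0.005 :=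
  kn_K_abs_of_energy 3 (u := 72 / 5) (v := v) (B := 0.005) (by norm_num) h (by norm_num)
    (by
      have := kn_sq_bd kn_K3_144.1 kn_K3_144.2 (by norm_num)
      have : K 4 (72 / 5) ^ 2 ≤ 0.00001 ^ 2 := by
        nlinarith [kn_K4_144.1, kn_K4_144.2]
      norm_num at *
      linarith)

theorem K1_far {v : ℝ} (h : 13 / 2 ≤ v) : K 1 v ≤ 0.0655 := by
  rcases le_total v (101 / 10) with h1 | h1
  · have h2 := kn_K_upper_of 1 (B := 0.05345) h (fun w hw _ => (abs_le.mp (kn_K2_abs_65 hw)).1)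
    have h3 := kn_K1_65.2
    norm_num at *
    linarith
  rcases le_total v (72 / 5) with h2 | h2
  · have h3 := kn_K_upper_of 1 (B := 0.02933) h1 (fun w hw _ => (abs_le.mp (kn_K2_abs_101 hw)).1)
    have h4 := kn_K1_101.2
    norm_num at *
    linarith
  rcases le_total v 16 with h3 | h3
  · have h4 : ∀ w, 72 / 5 ≤ w → w ≤ 16 → K 2 w ≤ 0 := by
      intro w hw hw'
      have h5 := kn_K_upper_of 2 (B := 0.005) hw (fun z hz _ => (abs_le.mp (kn_K3_abs_144 hz)).1)
      have h6 := kn_K2_144.2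
      norm_num at *
      linarith
    have h5 := kn_K_lower_of 1 (B := 0) h3 (fun w hw hw' => h4 w (h2.trans hw) hw')
    have h6 := kn_K1_16'.2
    norm_num at *
    linarith
  · have h4 := kn_K_abs_of_energy 1 (u := 16) (v := v) (B := 0.0653) (by norm_num) h3 (by norm_num)
      (by
        have := kn_sq_bd' kn_K1_16'.1 kn_K1_16'.2 (by norm_num)
        have := kn_sq_bd kn_K2_16.1 kn_K2_16.2 (by norm_num)
        norm_num at *
        linarith)
    have h5 := (abs_le.mp h4).2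
    norm_num at *
    linarith

theorem K1_at_08 : K 1 0.8 ≤ 0.65 :=
  (kn_K_bounds 1 6 (lo := -1) (hi := 0.65) (by norm_num) (by norm_num)
    (by norm_num [Finset.sum_range_succ, Nat.factorial])
    (by norm_num [Finset.sum_range_succ, Nat.factorial])).2

theorem K1_at_16 : K 1 1.6 ≤ 0.3871 :=
  (kn_K_bounds 1 8 (lo := -1) (hi := 0.3871) (by norm_num) (by norm_num)
    (by norm_num [Finset.sum_range_succ, Nat.factorial])
    (by norm_num [Finset.sum_range_succ, Nat.factorial])).2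

theorem K1_at_24 : K 1 2.4 ≤ 0.1947 :=
  (kn_K_bounds 1 8 (lo := -1) (hi := 0.1947) (by norm_num) (by norm_num)
    (by norm_num [Finset.sum_range_succ, Nat.factorial])
    (by norm_num [Finset.sum_range_succ, Nat.factorial])).2

theorem K1_at_316 : K 1 3.16 ≤ 0.0655 :=
  (kn_K_bounds 1 10 (lo := -1) (hi := 0.0655) (by norm_num) (by norm_num)
    (by norm_num [Finset.sum_range_succ, Nat.factorial])
    (by norm_num [Finset.sum_range_succ, Nat.factorial])).2

end LpSec

end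

section
/-!
# T04 Profile: the densities `F`, `G` and the function `Phi`

Here `α > 1`, `x = 1/α`. Mathlib: `integral_exp_neg_mul_rpow`, `integral_rpow_mul_exp_neg_mul_rpow`
(`∫_0^∞ t^q exp(-b t^p) = b^(-(q+1)/p) (1/p) Γ((q+1)/p)`), with `b = mu^α`.

* `DD α = Γ(1+x) / mu α` is immediate from the definitions.
* `∫ F = 1`, `∫ ρ F = 1`, `∫ G = 1`, `∫ t G = 2`, `∫ G/t = 1/D`.
* `Phi_eq_G`: integration by parts on `(0,∞)`: `(t K 1 (s t))' = K 0 (s t)` (`K_mul_hasDerivAt`,
  chain rule) and `t F'(t) = - G t`; boundary terms vanish (`|K| ≤ 1`).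
* `|Phi| ≤ 1` from `|K 0| ≤ 1`; continuity by dominated convergence (`F` integrable).
* `Phi_abs_le_sqrt`: `|K 1 u| ≤ 1/√u` (`K1_sq_le`), so
  `|Phi s| ≤ ∫ G (s t)^(-1/2) ≤ s^(-1/2) (∫ G)^(1/2) (∫ G/t)^(1/2) ≤ s^(-1/2)` as `D ≥ 1`; or use
  `t^(-1/2) ≤ (1 + 1/t)/2`, giving `(1 + 1/D)/2 ≤ 1`.
* `one_lt_DD`: (`D > 1`) e.g. from strict Jensen, or: `F` is a density with mean one, `F ≤ 1/D`
  everywhere; if `D ≤ 1`... Suggested: `Gamma (1+2x) < 2 Gamma (1+x)^2` for `0 < x < 1`:
  log-convexity of `Gamma` between `1` and ... ; simplest: `log F` is concave, strictly; let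
  `E = exp (-ρ)`. If `1/D ≥ 1`, then `log F - log E` is concave, `≥ 0` at `0`, so there is `c` with
  `F ≥ E` on `[0,c]` and `F ≤ E` on `[c,∞)`, so `∫ (ρ - c) (F - E) < 0`, contradicting equal mass
  and equal mean.
* `log_DD_add`: integrate `F log (E/F) ≤ E - F` (`log t ≤ t - 1`), `E = exp (-ρ)`:
  `∫ F (-ρ + log D + (mu ρ)^α) ≤ 0`, and `∫ F (mu ρ)^α = 1/α`, `∫ ρ F = 1`.
* `mu_rpow_lt`: tangent line of the strictly convex `r ↦ r^α` at `1`:
  `(mu ρ)^α ≥ mu^α (1 + α (ρ - 1))`, strict for `ρ ≠ 1`; integrate against `F`.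
-/

open Real MeasureTheory Set

namespace LpSec

variable {α : ℝ}

theorem mu_pos (hα : 0 < α) : 0 < mu α := by
  have h1 : 0 < Gamma (1 + 2 / α) := Gamma_pos_of_pos (by positivity)
  have h2 : 0 < Gamma (1 + 1 / α) := Gamma_pos_of_pos (by positivity)
  unfold mu
  positivity

theorem DD_pos (hα : 0 < α) : 0 < DD α := by
  have h1 : 0 < Gamma (1 + 2 / α) := Gamma_pos_of_pos (by positivity)
  have h2 : 0 < Gamma (1 + 1 / α) := Gamma_pos_of_pos (by positivity)
  unfold DD
  positivity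

theorem DD_eq (hα : 0 < α) : DD α = Gamma (1 + 1 / α) / mu α := by
  have h1 : 0 < Gamma (1 + 2 / α) := Gamma_pos_of_pos (by positivity)
  have h2 : 0 < Gamma (1 + 1 / α) := Gamma_pos_of_pos (by positivity)
  unfold DD mu
  field_simp

theorem F_pos (hα : 0 < α) (ρ : ℝ) : 0 < F α ρ := by
  have h1 := DD_pos hα
  unfold F
  positivity

theorem F_continuousOn (hα : 0 < α) : ContinuousOn (F α) (Ici 0) := by
  unfold F
  refine continuousOn_const.mul (ContinuousOn.rexp (ContinuousOn.neg ?_))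
  exact ((continuous_const.mul continuous_id).continuousOn).rpow_const (fun x _ => Or.inr hα.le)

/-- moments of `exp (-(mu t)^α)`. -/
theorem aux_mom (hα : 0 < α) {q : ℝ} (hq : -1 < q) :
    IntegrableOn (fun t => t ^ q * exp (-(mu α * t) ^ α)) (Ioi 0) ∧
    ∫ t in Ioi (0 : ℝ), t ^ q * exp (-(mu α * t) ^ α) =
      mu α ^ (-(q + 1)) * (1 / α) * Gamma ((q + 1) / α) := by
  have hmu := mu_pos hα
  have hb : 0 < mu α ^ α := rpow_pos_of_pos hmu _
  have hcongr : ∀ t ∈ Ioi (0 : ℝ), t ^ q * exp (-(mu α * t) ^ α) =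
      t ^ q * exp (-(mu α ^ α) * t ^ α) := by
    intro t ht
    rw [mul_rpow hmu.le (le_of_lt ht), neg_mul]
  constructor
  · refine (integrableOn_rpow_mul_exp_neg_mul_rpow hq hα hb).congr_fun
      (fun t ht => (hcongr t ht).symm) measurableSet_Ioi
  · rw [setIntegral_congr_fun measurableSet_Ioi hcongr,
      integral_rpow_mul_exp_neg_mul_rpow hα hq hb, ← rpow_mul hmu.le]
    congr 3
    field_simp

theorem aux_mom0 (hα : 0 < α) :
    IntegrableOn (fun t => exp (-(mu α * t) ^ α)) (Ioi 0) ∧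
    ∫ t in Ioi (0 : ℝ), exp (-(mu α * t) ^ α) = Gamma (1 + 1 / α) / mu α := by
  have hmu := mu_pos hα
  have h := aux_mom hα (q := 0) (by norm_num)
  simp only [rpow_zero, one_mul] at h
  refine ⟨h.1, ?_⟩
  rw [h.2, zero_add, rpow_neg_one, add_comm 1 (1 / α), Gamma_add_one (by positivity)]
  ring

theorem aux_mom1 (hα : 0 < α) :
    IntegrableOn (fun t => t * exp (-(mu α * t) ^ α)) (Ioi 0) ∧
    ∫ t in Ioi (0 : ℝ), t * exp (-(mu α * t) ^ α) = Gamma (1 + 2 / α) / (2 * mu α ^ 2) := by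
  have hmu := mu_pos hα
  have h := aux_mom hα (q := 1) (by norm_num)
  simp only [rpow_one] at h
  refine ⟨h.1, ?_⟩
  rw [h.2, show (-((1 : ℝ) + 1)) = -(2 : ℝ) by norm_num, rpow_neg hmu.le,
    show ((1 : ℝ) + 1) = 2 by norm_num, rpow_two, add_comm 1 (2 / α),
    Gamma_add_one (by positivity)]
  field_simp

theorem F_integrable (hα : 1 < α) : IntegrableOn (F α) (Ioi 0) := by
  have hα0 : 0 < α := by linarith
  exact (aux_mom0 hα0).1.const_mul _

theorem F_integral (hα : 1 < α) : ∫ ρ in Ioi (0 : ℝ), F α ρ = 1 := by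
  have hα0 : 0 < α := by linarith
  unfold F
  rw [integral_const_mul, (aux_mom0 hα0).2, ← DD_eq hα0]
  exact inv_mul_cancel₀ (DD_pos hα0).ne'

theorem F_mul_integrable (hα : 1 < α) : IntegrableOn (fun ρ => ρ * F α ρ) (Ioi 0) := by
  have hα0 : 0 < α := by linarith
  have e : (fun ρ => ρ * F α ρ) = (fun ρ => (DD α)⁻¹ * (ρ * exp (-(mu α * ρ) ^ α))) := by
    funext t
    simp only [F]
    ring
  rw [e]
  exact (aux_mom1 hα0).1.const_mul (DD α)⁻¹

theorem F_mean (hα : 1 < α) : ∫ ρ in Ioi (0 : ℝ), ρ * F α ρ = 1 := by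
  have hα0 : 0 < α := by linarith
  have h1 : 0 < Gamma (1 + 2 / α) := Gamma_pos_of_pos (by positivity)
  have h2 : 0 < Gamma (1 + 1 / α) := Gamma_pos_of_pos (by positivity)
  have hmu := mu_pos hα0
  have e : ∀ ρ : ℝ, ρ * F α ρ = (DD α)⁻¹ * (ρ * exp (-(mu α * ρ) ^ α)) := by
    intro ρ; simp only [F]; ring
  simp_rw [e]
  rw [integral_const_mul, (aux_mom1 hα0).2, DD_eq hα0]
  have h3 : 2 * Gamma (1 + 1 / α) * mu α = Gamma (1 + 2 / α) := by
    unfold mu; field_simp
  rw [← h3]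
  field_simp

theorem F_sq_mul_integrable (hα : 1 < α) : IntegrableOn (fun ρ => ρ ^ 2 * F α ρ) (Ioi 0) := by
  have hα0 : 0 < α := by linarith
  have e : (fun ρ => ρ ^ 2 * F α ρ) =
      (fun ρ => (DD α)⁻¹ * (ρ ^ (2 : ℝ) * exp (-(mu α * ρ) ^ α))) := by
    funext t
    simp only [F, rpow_two]
    ring
  rw [e]
  exact (aux_mom hα0 (q := 2) (by norm_num)).1.const_mul (DD α)⁻¹

theorem G_nonneg (hα : 0 < α) {t : ℝ} (ht : 0 < t) : 0 ≤ G α t := by
  have h1 := DD_pos hα
  have h2 := mu_pos hα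
  unfold G
  positivity

theorem aux_G (hα : 0 < α) (q : ℝ) {t : ℝ} (ht : 0 < t) :
    t ^ q * G α t = ((DD α)⁻¹ * α * mu α ^ α) * (t ^ (q + α) * exp (-(mu α * t) ^ α)) := by
  have h2 := mu_pos hα
  unfold G
  rw [mul_rpow h2.le ht.le, rpow_add ht]
  ring

theorem aux_Gmom (hα : 0 < α) {q : ℝ} (hq : -1 < q + α) :
    IntegrableOn (fun t => t ^ q * G α t) (Ioi 0) ∧
    ∫ t in Ioi (0 : ℝ), t ^ q * G α t =
      (DD α)⁻¹ * mu α ^ (-(q + 1)) * Gamma ((q + α + 1) / α) := by
  have hmu := mu_pos hα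
  have hm := aux_mom hα hq
  constructor
  · exact IntegrableOn.congr_fun (hm.1.const_mul ((DD α)⁻¹ * α * mu α ^ α))
      (fun t ht => (aux_G hα q ht).symm) measurableSet_Ioi
  · rw [setIntegral_congr_fun measurableSet_Ioi (fun t ht => aux_G hα q ht),
      integral_const_mul, hm.2]
    have : mu α ^ (-(q + 1)) = mu α ^ α * mu α ^ (-(q + α + 1)) := by
      rw [← rpow_add hmu]; ring_nf
    rw [this]
    field_simp

theorem G_integrable (hα : 1 < α) : IntegrableOn (G α) (Ioi 0) := by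
  have hα0 : 0 < α := by linarith
  have h := aux_Gmom hα0 (q := 0) (by linarith)
  simpa only [rpow_zero, one_mul] using h.1

theorem G_integral (hα : 1 < α) : ∫ t in Ioi (0 : ℝ), G α t = 1 := by
  have hα0 : 0 < α := by linarith
  have hmu := mu_pos hα0
  have h2 : 0 < Gamma (1 + 1 / α) := Gamma_pos_of_pos (by positivity)
  have h := (aux_Gmom hα0 (q := 0) (by linarith)).2
  simp only [rpow_zero, one_mul] at h
  rw [h, zero_add, rpow_neg_one, zero_add, add_div, div_self hα0.ne', DD_eq hα0]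
  field_simp

theorem G_mul_integrable (hα : 1 < α) : IntegrableOn (fun t => t * G α t) (Ioi 0) := by
  have hα0 : 0 < α := by linarith
  have h := aux_Gmom hα0 (q := 1) (by linarith)
  simpa only [rpow_one] using h.1

theorem G_mean (hα : 1 < α) : ∫ t in Ioi (0 : ℝ), t * G α t = 2 := by
  have hα0 : 0 < α := by linarith
  have hmu := mu_pos hα0
  have h1 : 0 < Gamma (1 + 2 / α) := Gamma_pos_of_pos (by positivity)
  have h2 : 0 < Gamma (1 + 1 / α) := Gamma_pos_of_pos (by positivity)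
  have h := (aux_Gmom hα0 (q := 1) (by linarith)).2
  simp only [rpow_one] at h
  have h3 : 2 * Gamma (1 + 1 / α) * mu α = Gamma (1 + 2 / α) := by
    unfold mu; field_simp
  rw [h, show (-((1 : ℝ) + 1)) = -(2 : ℝ) by norm_num, rpow_neg hmu.le, rpow_two,
    show (1 + α + 1) / α = 1 + 2 / α by field_simp; ring, DD_eq hα0, ← h3]
  field_simp

theorem G_div_integrable (hα : 1 < α) : IntegrableOn (fun t => G α t / t) (Ioi 0) := by
  have hα0 : 0 < α := by linarith
  have h := aux_Gmom hα0 (q := -1) (by linarith)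
  refine h.1.congr_fun (fun t _ => ?_) measurableSet_Ioi
  simp only [rpow_neg_one]
  ring

theorem G_inv (hα : 1 < α) : ∫ t in Ioi (0 : ℝ), G α t / t = (DD α)⁻¹ := by
  have hα0 : 0 < α := by linarith
  have h := (aux_Gmom hα0 (q := -1) (by linarith)).2
  have e : ∀ t : ℝ, G α t / t = t ^ (-1 : ℝ) * G α t := by
    intro t; rw [rpow_neg_one]; ring
  simp_rw [e]
  rw [h, show (-((-1 : ℝ) + 1)) = 0 by norm_num, rpow_zero,
    show (-1 + α + 1) / α = 1 by field_simp; ring, Gamma_one]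
  ring

theorem G_mul_K_integrable (hα : 1 < α) {s : ℝ} (hs : 0 ≤ s) :
    IntegrableOn (fun t => G α t * K 1 (s * t)) (Ioi 0) := by
  refine Integrable.mono (G_integrable hα)
    ((G_integrable hα).aestronglyMeasurable.mul
      ((K_continuous 1).comp (continuous_const.mul continuous_id)).aestronglyMeasurable) ?_
  refine (ae_restrict_mem measurableSet_Ioi).mono (fun t ht => ?_)
  rw [norm_mul]
  have h := K_abs_le 1 (mul_nonneg hs (le_of_lt ht))
  simp only [Nat.factorial_one, Nat.cast_one, div_one] at h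
  calc ‖G α t‖ * ‖K 1 (s * t)‖ ≤ ‖G α t‖ * 1 := by gcongr; exact h
    _ = ‖G α t‖ := mul_one _

theorem F_mul_K_integrable (hα : 1 < α) {s : ℝ} (hs : 0 ≤ s) :
    IntegrableOn (fun ρ => F α ρ * K 0 (s * ρ)) (Ioi 0) := by
  refine Integrable.mono (F_integrable hα)
    ((F_integrable hα).aestronglyMeasurable.mul
      ((K_continuous 0).comp (continuous_const.mul continuous_id)).aestronglyMeasurable) ?_
  refine (ae_restrict_mem measurableSet_Ioi).mono (fun t ht => ?_)
  rw [norm_mul]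
  have h := K_abs_le 0 (mul_nonneg hs (le_of_lt ht))
  simp only [Nat.factorial_zero, Nat.cast_one, div_one] at h
  calc ‖F α t‖ * ‖K 0 (s * t)‖ ≤ ‖F α t‖ * 1 := by gcongr; exact h
    _ = ‖F α t‖ := mul_one _

theorem aux_F_deriv (hα : 0 < α) {t : ℝ} (ht : 0 < t) :
    HasDerivAt (F α) (-(G α t) / t) t := by
  have hmu := mu_pos hα
  have hmt : 0 < mu α * t := by positivity
  have h1 : HasDerivAt (fun t => mu α * t) (mu α) t := by
    simpa using (hasDerivAt_id t).const_mul (mu α)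
  have h2 : HasDerivAt (fun t => (mu α * t) ^ α) (mu α * α * (mu α * t) ^ (α - 1)) t :=
    h1.rpow_const (Or.inl hmt.ne')
  have h3 := (h2.neg.exp).const_mul (DD α)⁻¹
  refine h3.congr_deriv ?_
  unfold G
  simp only [Pi.neg_apply]
  rw [rpow_sub_one hmt.ne']
  field_simp

theorem Phi_eq_G (hα : 1 < α) {s : ℝ} (hs : 0 ≤ s) :
    Phi α s = ∫ t in Ioi (0 : ℝ), G α t * K 1 (s * t) := by
  have hα0 : 0 < α := by linarith
  have hF := F_mul_K_integrable hα hs
  have hG := G_mul_K_integrable hα hs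
  -- the primitive
  have hder : ∀ t ∈ Ioi (0 : ℝ), HasDerivAt (fun t => F α t * (t * K 1 (s * t)))
      (F α t * K 0 (s * t) - G α t * K 1 (s * t)) t := by
    intro t ht
    have ht0 : (0 : ℝ) < t := ht
    have h1 : HasDerivAt (fun t => s * t) s t := by
      simpa using (hasDerivAt_id t).const_mul s
    have h2 : HasDerivAt (fun t => K 1 (s * t)) (-(K 2 (s * t)) * s) t :=
      (K_hasDerivAt 1 (s * t)).comp t h1
    have h3 := (aux_F_deriv hα0 ht0).mul ((hasDerivAt_id t).mul h2)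
    refine h3.congr_deriv ?_
    have h4 := K_rec 0 (s * t)
    simp only [Nat.cast_zero, zero_add, one_mul] at h4
    have h5 : K 0 (s * t) = K 1 (s * t) - s * t * K 2 (s * t) := by linarith
    rw [h5]
    simp only [id, Pi.mul_apply]
    field_simp
    ring
  have hcont : ContinuousWithinAt (fun t => F α t * (t * K 1 (s * t))) (Ici 0) 0 := by
    have h1 : ContinuousWithinAt (F α) (Ici 0) 0 := F_continuousOn hα0 0 self_mem_Ici
    have h2 : Continuous (fun t => t * K 1 (s * t)) :=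
      continuous_id.mul ((K_continuous 1).comp (continuous_const.mul continuous_id))
    exact h1.mul h2.continuousWithinAt
  have hint : IntegrableOn (fun t => F α t * (t * K 1 (s * t))) (Ioi 0) := by
    refine Integrable.mono (F_mul_integrable hα)
      ((F_integrable hα).aestronglyMeasurable.mul
        (continuous_id.mul
          ((K_continuous 1).comp (continuous_const.mul continuous_id))).aestronglyMeasurable) ?_
    refine (ae_restrict_mem measurableSet_Ioi).mono (fun t ht => ?_)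
    have h := K_abs_le 1 (mul_nonneg hs (le_of_lt ht))
    simp only [Nat.factorial_one, Nat.cast_one, div_one] at h
    simp only [norm_mul]
    calc ‖F α t‖ * (‖t‖ * ‖K 1 (s * t)‖) ≤ ‖F α t‖ * (‖t‖ * 1) := by gcongr; exact h
      _ = ‖t‖ * ‖F α t‖ := by ring
  have hlim := tendsto_zero_of_hasDerivAt_of_integrableOn_Ioi hder (hF.sub hG) hint
  have key := integral_Ioi_of_hasDerivAt_of_tendsto hcont hder (hF.sub hG) hlim
  rw [integral_sub hF hG] at key
  simp only [zero_mul, mul_zero, sub_zero] at key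
  unfold Phi
  linarith

theorem Phi_zero (hα : 1 < α) : Phi α 0 = 1 := by
  unfold Phi
  simp only [zero_mul, K_zero, Nat.factorial_zero, Nat.cast_one, div_one, mul_one]
  exact F_integral hα

theorem Phi_abs_le_one (hα : 1 < α) {s : ℝ} (hs : 0 ≤ s) : |Phi α s| ≤ 1 := by
  have hα0 : 0 < α := by linarith
  unfold Phi
  rw [← F_integral hα]
  refine (abs_integral_le_integral_abs).trans ?_
  refine setIntegral_mono_on (F_mul_K_integrable hα hs).abs (F_integrable hα)
    measurableSet_Ioi (fun t ht => ?_)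
  have h := K_abs_le 0 (mul_nonneg hs (le_of_lt ht))
  simp only [Nat.factorial_zero, Nat.cast_one, div_one] at h
  rw [abs_mul, abs_of_pos (F_pos hα0 t)]
  exact mul_le_of_le_one_right (F_pos hα0 t).le h

theorem Phi_continuousOn (hα : 1 < α) : ContinuousOn (Phi α) (Ici 0) := by
  have hα0 : 0 < α := by linarith
  unfold Phi
  refine continuousOn_of_dominated (bound := F α) ?_ ?_ (F_integrable hα) ?_
  · intro s hs
    exact (F_mul_K_integrable hα hs).aestronglyMeasurable
  · intro s hs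
    refine (ae_restrict_mem measurableSet_Ioi).mono (fun t ht => ?_)
    have h := K_abs_le 0 (mul_nonneg (mem_Ici.1 hs) (le_of_lt ht))
    simp only [Nat.factorial_zero, Nat.cast_one, div_one] at h
    rw [norm_mul, norm_of_nonneg (F_pos hα0 t).le]
    exact mul_le_of_le_one_right (F_pos hα0 t).le h
  · refine Filter.Eventually.of_forall (fun t => ?_)
    exact (continuous_const.mul
      ((K_continuous 0).comp (continuous_id.mul continuous_const))).continuousOn

theorem one_lt_DD (hα : 1 < α) : 1 < DD α := by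
  have hα0 : 0 < α := by linarith
  set x : ℝ := 1 / α with hx
  have hx0 : 0 < x := by positivity
  have hx1 : x < 1 := by rw [hx, div_lt_one hα0]; exact hα
  have hB := ProbabilityTheory.beta_pos hx0 hx0
  have hGx : 0 < Gamma x := Gamma_pos_of_pos hx0
  have hG2x : 0 < Gamma (2 * x) := Gamma_pos_of_pos (by positivity)
  have hD : DD α = x * ProbabilityTheory.beta x x := by
    unfold DD ProbabilityTheory.beta
    rw [show 2 / α = 2 * x by rw [hx]; ring, ← hx, add_comm 1 x, add_comm 1 (2 * x),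
      Gamma_add_one hx0.ne', Gamma_add_one (by positivity), ← two_mul]
    field_simp
  rw [hD]
  -- lower bound of the integral
  have h1 := ProbabilityTheory.lintegral_betaPDF_eq_one hx0 hx0
  rw [ProbabilityTheory.lintegral_betaPDF] at h1
  set B := ProbabilityTheory.beta x x with hBdef
  have hI1 : IntegrableOn (fun t : ℝ => t ^ (x - 1)) (Ioo 0 1) :=
    (intervalIntegral.integrableOn_Ioo_rpow_iff zero_lt_one).2 (by linarith)
  have hI2 : IntegrableOn (fun t : ℝ => t ^ x) (Ioo 0 1) :=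
    (intervalIntegral.integrableOn_Ioo_rpow_iff zero_lt_one).2 (by linarith)
  have v1 : ∫ t in Ioo (0 : ℝ) 1, t ^ (x - 1) = 1 / x := by
    rw [← integral_Ioc_eq_integral_Ioo, ← intervalIntegral.integral_of_le zero_le_one,
      integral_rpow (Or.inl (by linarith))]
    simp [hx0.ne']
  have v2 : ∫ t in Ioo (0 : ℝ) 1, t ^ x = 1 / (x + 1) := by
    rw [← integral_Ioc_eq_integral_Ioo, ← intervalIntegral.integral_of_le zero_le_one,
      integral_rpow (Or.inl (by linarith))]
    rw [one_rpow, zero_rpow (by linarith), sub_zero]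
  have h2 : ENNReal.ofReal (∫ t in Ioo (0 : ℝ) 1,
      (1 / B * (t ^ (x - 1) + (1 - x) * t ^ x))) ≤ 1 := by
    rw [ofReal_integral_eq_lintegral_ofReal]
    · rw [← h1]
      refine setLIntegral_mono' measurableSet_Ioo (fun t ht => ENNReal.ofReal_le_ofReal ?_)
      have ht0 : 0 < t := ht.1
      have ht1 : 0 < 1 - t := by linarith [ht.2]
      have e1 : 1 + (1 - x) * t ≤ (1 - t) ^ (x - 1) := by
        rw [rpow_def_of_pos ht1]
        have e2 : log (1 - t) ≤ -t := by
          have := log_le_sub_one_of_pos ht1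
          linarith
        have e3 := add_one_le_exp (log (1 - t) * (x - 1))
        nlinarith
      have e4 : t ^ x = t ^ (x - 1) * t := by
        rw [← rpow_add_one ht0.ne']; ring_nf
      have e5 : 0 < t ^ (x - 1) := rpow_pos_of_pos ht0 _
      rw [e4, mul_assoc]
      refine mul_le_mul_of_nonneg_left ?_ (by positivity)
      nlinarith
    · exact (hI1.add (hI2.const_mul _)).const_mul _
    · refine (ae_restrict_mem measurableSet_Ioo).mono (fun t ht => ?_)
      have ht0 : 0 < t := ht.1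
      have : 0 < 1 - x := by linarith
      simp only [Pi.zero_apply]
      positivity
  rw [integral_const_mul, integral_add hI1 (hI2.const_mul _), integral_const_mul, v1, v2,
    ENNReal.ofReal_le_one] at h2
  have h3 : 1 / x + (1 - x) * (1 / (x + 1)) ≤ B := by
    have := mul_le_mul_of_nonneg_left h2 hB.le
    rw [← mul_assoc, mul_one_div_cancel hB.ne', one_mul, mul_one] at this
    exact this
  have h4 : x * (1 / x + (1 - x) * (1 / (x + 1))) ≤ x * B := mul_le_mul_of_nonneg_left h3 hx0.le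
  have h5 : x * (1 / x + (1 - x) * (1 / (x + 1))) = 1 + x * (1 - x) / (x + 1) := by
    field_simp
  have h6 : 0 < x * (1 - x) / (x + 1) := by
    have : 0 < 1 - x := by linarith
    positivity
  linarith

theorem Phi_abs_le_sqrt (hα : 1 < α) {s : ℝ} (hs : 0 < s) : |Phi α s| ≤ 1 / √s := by
  have hα0 : 0 < α := by linarith
  rw [Phi_eq_G hα hs.le]
  refine (abs_integral_le_integral_abs).trans ?_
  have hI : IntegrableOn (fun t => (1 / √s) * ((G α t + G α t / t) / 2)) (Ioi 0) :=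
    (((G_integrable hα).add (G_div_integrable hα)).div_const 2).const_mul _
  have hle : ∫ t in Ioi (0 : ℝ), |G α t * K 1 (s * t)| ≤
      ∫ t in Ioi (0 : ℝ), (1 / √s) * ((G α t + G α t / t) / 2) := by
    refine setIntegral_mono_on (G_mul_K_integrable hα hs.le).abs hI
      measurableSet_Ioi (fun t ht => ?_)
    have ht0 : (0 : ℝ) < t := ht
    have hg := G_nonneg hα0 ht0
    have hk := K1_sq_le (u := s * t) (by positivity)
    have hst : 0 < s * t := by positivity
    have h1 : |K 1 (s * t)| ≤ 1 / (√s * √t) := by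
      have h0 : |K 1 (s * t)| * √(s * t) ≤ 1 := by
        rw [← sqrt_sq_eq_abs, ← sqrt_mul (sq_nonneg _), ← sqrt_one]
        refine sqrt_le_sqrt ?_
        linarith
      rw [← sqrt_mul hs.le, le_div_iff₀ (sqrt_pos.2 hst)]
      exact h0
    have h2 : 1 / √t ≤ (1 + 1 / t) / 2 := by
      have h3 : 0 < √t := sqrt_pos.2 ht0
      have h4 : (1 / √t) ^ 2 = 1 / t := by
        rw [div_pow, sq_sqrt ht0.le, one_pow]
      nlinarith [sq_nonneg (1 / √t - 1)]
    rw [abs_mul, abs_of_nonneg hg]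
    calc G α t * |K 1 (s * t)| ≤ G α t * (1 / (√s * √t)) := by gcongr
      _ = G α t * ((1 / √s) * (1 / √t)) := by rw [one_div_mul_one_div]
      _ ≤ G α t * ((1 / √s) * ((1 + 1 / t) / 2)) := by gcongr
      _ = (1 / √s) * ((G α t + G α t / t) / 2) := by ring
  refine hle.trans ?_
  rw [integral_const_mul, integral_div, integral_add (G_integrable hα) (G_div_integrable hα),
    G_integral hα, G_inv hα]
  have h5 : (DD α)⁻¹ ≤ 1 := inv_le_one_of_one_le₀ (one_lt_DD hα).le
  have h6 : 0 ≤ 1 / √s := by positivity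
  nlinarith

theorem aux_alpha_mom (hα : 0 < α) :
    IntegrableOn (fun ρ => F α ρ * (mu α * ρ) ^ α) (Ioi 0) ∧
    ∫ ρ in Ioi (0 : ℝ), F α ρ * (mu α * ρ) ^ α = (1 / α) * ∫ t in Ioi (0 : ℝ), G α t := by
  have h := aux_Gmom hα (q := 0) (by linarith)
  simp only [rpow_zero, one_mul] at h
  have e : ∀ t : ℝ, F α t * (mu α * t) ^ α = (1 / α) * G α t := by
    intro t
    unfold F G
    field_simp
  simp_rw [e]
  exact ⟨h.1.const_mul _, integral_const_mul _ _⟩

theorem log_DD_add (hα : 1 < α) : log (DD α) + 1 / α ≤ 1 := by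
  have hα0 : 0 < α := by linarith
  have hD := DD_pos hα0
  have hA := aux_alpha_mom hα0
  rw [G_integral hα, mul_one] at hA
  have hE : IntegrableOn (fun ρ : ℝ => exp (-ρ)) (Ioi 0) := by
    simpa using integrableOn_exp_neg_Ioi 0
  have hEv : ∫ ρ in Ioi (0 : ℝ), exp (-ρ) = 1 := by
    rw [integral_exp_neg_Ioi, neg_zero, exp_zero]
  have hI1 := F_mul_integrable hα
  have hI2 := F_integrable hα
  have hle : ∫ ρ in Ioi (0 : ℝ), (-(ρ * F α ρ) + log (DD α) * F α ρ + F α ρ * (mu α * ρ) ^ α) ≤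
      ∫ ρ in Ioi (0 : ℝ), (exp (-ρ) - F α ρ) := by
    refine setIntegral_mono_on ((hI1.neg.add (hI2.const_mul _)).add hA.1) (hE.sub hI2)
      measurableSet_Ioi (fun ρ _ => ?_)
    have hF := F_pos hα0 ρ
    have h1 := log_le_sub_one_of_pos (div_pos (exp_pos (-ρ)) hF)
    rw [log_div (exp_pos _).ne' hF.ne', log_exp] at h1
    have h2 : log (F α ρ) = -log (DD α) - (mu α * ρ) ^ α := by
      unfold F
      rw [log_mul (inv_ne_zero hD.ne') (exp_pos _).ne', log_inv, log_exp]
      ring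
    rw [h2] at h1
    have h3 := mul_le_mul_of_nonneg_left h1 hF.le
    rw [mul_sub (F α ρ) (exp (-ρ) / F α ρ) 1, mul_div_cancel₀ _ hF.ne'] at h3
    linarith
  have hI1' : IntegrableOn (fun ρ => -(ρ * F α ρ)) (Ioi 0) := hI1.neg
  have hI2' : IntegrableOn (fun ρ => log (DD α) * F α ρ) (Ioi 0) := hI2.const_mul _
  have hI3' : IntegrableOn (fun ρ => -(ρ * F α ρ) + log (DD α) * F α ρ) (Ioi 0) := hI1'.add hI2'
  rw [integral_add hI3' hA.1, integral_add hI1' hI2',
    integral_neg, integral_const_mul, F_mean hα, F_integral hα, hA.2,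
    integral_sub hE hI2, hEv, F_integral hα] at hle
  linarith

theorem mu_rpow_lt (hα : 1 < α) : mu α ^ α < 1 / α := by
  have hα0 : 0 < α := by linarith
  have hmu := mu_pos hα0
  have hA := aux_alpha_mom hα0
  rw [G_integral hα, mul_one] at hA
  have hI1 := F_mul_integrable hα
  have hI2 := F_integrable hα
  set c := mu α ^ α with hc
  have hc0 : 0 < c := rpow_pos_of_pos hmu _
  -- the nonnegative integrand
  have hI : IntegrableOn (fun ρ => F α ρ * (mu α * ρ) ^ α -
      (c * (1 - α) * F α ρ + c * α * (ρ * F α ρ))) (Ioi 0) :=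
    hA.1.sub ((hI2.const_mul _).add (hI1.const_mul _))
  have hval : ∫ ρ in Ioi (0 : ℝ), (F α ρ * (mu α * ρ) ^ α -
      (c * (1 - α) * F α ρ + c * α * (ρ * F α ρ))) = 1 / α - c := by
    have hI2' : IntegrableOn (fun ρ => c * (1 - α) * F α ρ) (Ioi 0) := hI2.const_mul _
    have hI1' : IntegrableOn (fun ρ => c * α * (ρ * F α ρ)) (Ioi 0) := hI1.const_mul _
    have hI3' : IntegrableOn (fun ρ => c * (1 - α) * F α ρ + c * α * (ρ * F α ρ)) (Ioi 0) :=
      hI2'.add hI1'
    rw [integral_sub hA.1 hI3', integral_add hI2' hI1', integral_const_mul, integral_const_mul,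
      F_mean hα, F_integral hα, hA.2]
    ring
  have hfac : ∀ ρ ∈ Ioi (0 : ℝ), F α ρ * (mu α * ρ) ^ α -
      (c * (1 - α) * F α ρ + c * α * (ρ * F α ρ)) =
      F α ρ * c * (ρ ^ α - (1 + α * (ρ - 1))) := by
    intro ρ hρ
    rw [mul_rpow hmu.le (le_of_lt hρ), ← hc]
    ring
  have hpos : 0 < ∫ ρ in Ioi (0 : ℝ), (F α ρ * (mu α * ρ) ^ α -
      (c * (1 - α) * F α ρ + c * α * (ρ * F α ρ))) := by
    rw [setIntegral_pos_iff_support_of_nonneg_ae _ hI]
    · have hsub : Ioo (1 : ℝ) 2 ⊆ Function.support (fun ρ => F α ρ * (mu α * ρ) ^ α -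
          (c * (1 - α) * F α ρ + c * α * (ρ * F α ρ))) ∩ Ioi 0 := by
        intro ρ hρ
        have hρ0 : 0 < ρ := by linarith [hρ.1]
        refine ⟨?_, hρ0⟩
        rw [Function.mem_support, hfac ρ hρ0]
        have h1 := one_add_mul_self_lt_rpow_one_add (s := ρ - 1) (by linarith)
          (by linarith [hρ.1]) hα
        rw [add_sub_cancel] at h1
        have h2 : 0 < ρ ^ α - (1 + α * (ρ - 1)) := by linarith
        have := F_pos hα0 ρ
        positivity
      refine lt_of_lt_of_le ?_ (measure_mono hsub)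
      simp
    · refine (ae_restrict_mem measurableSet_Ioi).mono (fun ρ hρ => ?_)
      simp only [Pi.zero_apply]
      rw [hfac ρ hρ]
      have hρ0 : (0 : ℝ) < ρ := hρ
      have h1 := one_add_mul_self_le_rpow_one_add (s := ρ - 1) (by linarith) hα.le
      rw [add_sub_cancel] at h1
      have h2 : 0 ≤ ρ ^ α - (1 + α * (ρ - 1)) := by linarith
      have := F_pos hα0 ρ
      positivity
  rw [hval] at hpos
  linarith

end LpSec

end

section
/-!
# T03 TestFn: majorants of `K 1`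

`kap` is the piecewise linear function through (0,1), (0.8,0.65), (1.6,0.3871), (2.4,0.1947),
(3.16,0.0655), constant 0.0655 afterwards. It is convex and antitone.

* `K1_le_kap`: for `v ≥ u ≥ 0` one has `K 1 v ≤ kap u`: if `v ≤ 13/2` then `K 1 v ≤ K 1 u` (if
  `u ≤ 13/2`; `K1_antitone`) and `K 1 u ≤ kap u` by convexity of `K 1` between the nodes
  (`K1_convex`, node values `K1_at_*`, `K 1 0 = 1`), or `≤ K 1 3.16 ≤ 0.0655 ≤ kap u` when
  `u ≥ 3.16`; if `v ≥ 13/2` use `K1_far` and `0.0655 ≤ kap u`. Take `u = 1.55 t`, `v = s t`.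
* `kap_int`: `∫_0^∞ t e^{-t} (c - s t)_+ dt = s ((a - 2) + (a + 2) e^{-a})`, `a = c / s`, `s = 1.55`.
  The value is 0.265691, and `exp (-1.31) = 0.269820`.
* `test2`: `-0.32 + 0.056 t + 0.7/t ≥ kap (1.55 t)` for all `t > 0` (min difference 0.0038 near
  `t = 1.28`): on each linear piece this is a quadratic inequality after multiplying by `t`
  (`nlinarith`). `test8`: same with `-1.14 + 0.23 t + 1.6/t ≥ kap (1.45 t)` (min 0.0036 near
  `t = 1.83`).
-/

open Real MeasureTheory Set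

namespace LpSec

/-- A convex piecewise linear majorant of `sup_{v ≥ u} K 1 v`. -/
noncomputable def kap (u : ℝ) : ℝ :=
  0.0655 + 0.17 * max (3.16 - u) 0 + 0.0705 * max (2.4 - u) 0 + 0.088125 * max (1.6 - u) 0 +
    0.108875 * max (0.8 - u) 0

theorem testfn_cx (a c : ℝ) (hc : 0 ≤ c) : ConvexOn ℝ univ (fun u : ℝ => c * max (a - u) 0) := by
  refine ⟨convex_univ, fun x _ y _ p q hp hq hpq => ?_⟩
  simp only [smul_eq_mul]
  have h1 : max (a - (p * x + q * y)) 0 ≤ p * max (a - x) 0 + q * max (a - y) 0 := by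
    have hx := mul_le_mul_of_nonneg_left (le_max_left (a - x) 0) hp
    have hy := mul_le_mul_of_nonneg_left (le_max_left (a - y) 0) hq
    have hx0 := mul_nonneg hp (le_max_right (a - x) 0)
    have hy0 := mul_nonneg hq (le_max_right (a - y) 0)
    refine max_le ?_ (add_nonneg hx0 hy0)
    have h2 : a - (p * x + q * y) = p * (a - x) + q * (a - y) := by
      have : a = (p + q) * a := by rw [hpq, one_mul]
      linear_combination this
    linarith
  calc c * max (a - (p * x + q * y)) 0 ≤ c * (p * max (a - x) 0 + q * max (a - y) 0) :=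
        mul_le_mul_of_nonneg_left h1 hc
    _ = p * (c * max (a - x) 0) + q * (c * max (a - y) 0) := by ring

theorem kap_convex : ConvexOn ℝ univ kap := by
  have h := ((((convexOn_const (0.0655 : ℝ) convex_univ).add (testfn_cx 3.16 0.17 (by norm_num))).add
    (testfn_cx 2.4 0.0705 (by norm_num))).add (testfn_cx 1.6 0.088125 (by norm_num))).add
    (testfn_cx 0.8 0.108875 (by norm_num))
  exact h

theorem kap_ge (u : ℝ) : 0.0655 ≤ kap u := by
  unfold kap
  have h1 := le_max_right (3.16 - u) 0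
  have h2 := le_max_right (2.4 - u) 0
  have h3 := le_max_right (1.6 - u) 0
  have h4 := le_max_right (0.8 - u) 0
  linarith

theorem testfn_interp {a b A B u : ℝ} (ha : 0 ≤ a) (hb : b ≤ 13 / 2) (hab : a < b)
    (hA : K 1 a ≤ A) (hB : K 1 b ≤ B) (h1 : a ≤ u) (h2 : u ≤ b) :
    (b - a) * K 1 u ≤ (b - u) * A + (u - a) * B := by
  have hba : 0 < b - a := sub_pos.2 hab
  have h := K1_convex.2 (show a ∈ Icc (0 : ℝ) (13 / 2) from ⟨ha, by linarith⟩)
    (show b ∈ Icc (0 : ℝ) (13 / 2) from ⟨by linarith, hb⟩)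
    (show 0 ≤ (b - u) / (b - a) from div_nonneg (by linarith) hba.le)
    (show 0 ≤ (u - a) / (b - a) from div_nonneg (by linarith) hba.le)
    (by rw [← add_div, show b - u + (u - a) = b - a by ring, div_self hba.ne'])
  have hu : ((b - u) / (b - a)) • a + ((u - a) / (b - a)) • b = u := by
    simp only [smul_eq_mul]
    field_simp
    ring
  rw [hu] at h
  simp only [smul_eq_mul] at h
  have h3 := mul_le_mul_of_nonneg_left h hba.le
  have h4 : (b - a) * ((b - u) / (b - a) * K 1 a + (u - a) / (b - a) * K 1 b) =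
      (b - u) * K 1 a + (u - a) * K 1 b := by
    field_simp
  rw [h4] at h3
  have h5 := mul_le_mul_of_nonneg_left hA (sub_nonneg.2 h2)
  have h6 := mul_le_mul_of_nonneg_left hB (sub_nonneg.2 h1)
  linarith

theorem testfn_near {u : ℝ} (h0 : 0 ≤ u) (h : u ≤ 13 / 2) : K 1 u ≤ kap u := by
  have hk0 : K 1 0 ≤ 1 := by rw [K_zero]; norm_num
  rcases le_total 3.16 u with h1 | h1
  · have h2 : K 1 u ≤ K 1 3.16 := K1_antitone ⟨by norm_num, by norm_num⟩ ⟨h0, h⟩ h1
    exact h2.trans (K1_at_316.trans (kap_ge u))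
  · rcases le_total 2.4 u with h2 | h2
    · have h3 := testfn_interp (a := 2.4) (b := 3.16) (by norm_num) (by norm_num) (by norm_num)
        K1_at_24 K1_at_316 h2 h1
      unfold kap
      rw [max_eq_left (a := 3.16 - u) (by linarith), max_eq_right (a := 2.4 - u) (by linarith),
        max_eq_right (a := 1.6 - u) (by linarith), max_eq_right (a := 0.8 - u) (by linarith)]
      norm_num at h3 ⊢
      linarith
    · rcases le_total 1.6 u with h3 | h3
      · have h4 := testfn_interp (a := 1.6) (b := 2.4) (by norm_num) (by norm_num) (by norm_num)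
          K1_at_16 K1_at_24 h3 h2
        unfold kap
        rw [max_eq_left (a := 3.16 - u) (by linarith), max_eq_left (a := 2.4 - u) (by linarith),
          max_eq_right (a := 1.6 - u) (by linarith), max_eq_right (a := 0.8 - u) (by linarith)]
        norm_num at h4 ⊢
        linarith
      · rcases le_total 0.8 u with h4 | h4
        · have h5 := testfn_interp (a := 0.8) (b := 1.6) (by norm_num) (by norm_num) (by norm_num)
            K1_at_08 K1_at_16 h4 h3
          unfold kap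
          rw [max_eq_left (a := 3.16 - u) (by linarith), max_eq_left (a := 2.4 - u) (by linarith),
            max_eq_left (a := 1.6 - u) (by linarith), max_eq_right (a := 0.8 - u) (by linarith)]
          norm_num at h5 ⊢
          linarith
        · have h5 := testfn_interp (a := 0) (b := 0.8) (by norm_num) (by norm_num) (by norm_num)
            hk0 K1_at_08 h0 h4
          unfold kap
          rw [max_eq_left (a := 3.16 - u) (by linarith), max_eq_left (a := 2.4 - u) (by linarith),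
            max_eq_left (a := 1.6 - u) (by linarith), max_eq_left (a := 0.8 - u) (by linarith)]
          norm_num at h5 ⊢
          linarith

theorem K1_le_kap {u v : ℝ} (hu : 0 ≤ u) (huv : u ≤ v) : K 1 v ≤ kap u := by
  rcases le_total v (13 / 2) with h | h
  · have h1 : K 1 v ≤ K 1 u := K1_antitone ⟨hu, huv.trans h⟩ ⟨hu.trans huv, h⟩ huv
    exact h1.trans (testfn_near hu (huv.trans h))
  · exact (K1_far h).trans (kap_ge u)

theorem testfn_base : IntegrableOn (fun t : ℝ => t * exp (-t)) (Ioi 0) ∧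
    ∫ t in Ioi (0 : ℝ), t * exp (-t) = 1 := by
  have hfun : ∀ t ∈ Ioi (0 : ℝ), exp (-t) * t ^ ((2 : ℝ) - 1) = t * exp (-t) := by
    intro t _
    have : (2 : ℝ) - 1 = 1 := by norm_num
    rw [this, rpow_one, mul_comm]
  constructor
  · have h := Real.GammaIntegral_convergent (s := 2) (by norm_num)
    exact h.congr_fun hfun measurableSet_Ioi
  · have h := Real.Gamma_eq_integral (s := 2) (by norm_num)
    rw [setIntegral_congr_fun measurableSet_Ioi hfun, Real.Gamma_two] at h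
    exact h.symm

theorem testfn_int (c s : ℝ) (hs : 0 < s) (hc : 0 ≤ c) :
    IntegrableOn (fun t : ℝ => t * exp (-t) * max (c - s * t) 0) (Ioi 0) ∧
    ∫ t in Ioi (0 : ℝ), t * exp (-t) * max (c - s * t) 0 =
      s * ((c / s - 2) + (c / s + 2) * exp (-(c / s))) := by
  have ha : 0 ≤ c / s := div_nonneg hc hs.le
  have hcont : Continuous (fun t : ℝ => t * exp (-t) * max (c - s * t) 0) := by fun_prop
  have hz : ∀ t, c / s ≤ t → t * exp (-t) * max (c - s * t) 0 = 0 := by
    intro t ht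
    have h1 : c - s * t ≤ 0 := by
      rw [div_le_iff₀ hs] at ht
      linarith
    rw [max_eq_right h1, mul_zero]
  have hIoc : IntegrableOn (fun t : ℝ => t * exp (-t) * max (c - s * t) 0) (Ioc 0 (c / s)) :=
    (hcont.integrableOn_Icc (a := 0) (b := c / s)).mono_set Ioc_subset_Icc_self
  have hIoi : IntegrableOn (fun t : ℝ => t * exp (-t) * max (c - s * t) 0) (Ioi (c / s)) :=
    integrableOn_zero.congr_fun (fun t ht => (hz t (le_of_lt ht)).symm) measurableSet_Ioi
  have hun : Ioc 0 (c / s) ∪ Ioi (c / s) = Ioi 0 := Ioc_union_Ioi_eq_Ioi ha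
  refine ⟨by rw [← hun]; exact hIoc.union hIoi, ?_⟩
  rw [← hun, setIntegral_union (Ioc_disjoint_Ioi le_rfl) measurableSet_Ioi hIoc hIoi,
    setIntegral_congr_fun (g := fun _ => (0 : ℝ)) measurableSet_Ioi
      (fun t ht => hz t (le_of_lt ht)), integral_zero, add_zero,
    ← intervalIntegral.integral_of_le ha]
  have hcongr : ∫ t in (0 : ℝ)..(c / s), t * exp (-t) * max (c - s * t) 0 =
      ∫ t in (0 : ℝ)..(c / s), exp (-t) * (c * t - s * t ^ 2) := by
    refine intervalIntegral.integral_congr fun t ht => ?_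
    rw [uIcc_of_le ha] at ht
    have h1 : 0 ≤ c - s * t := by
      have := ht.2
      rw [le_div_iff₀ hs] at this
      linarith
    rw [max_eq_left h1]
    ring
  rw [hcongr]
  have hder : ∀ t ∈ uIcc 0 (c / s), HasDerivAt
      (fun t : ℝ => exp (-t) * (s * t ^ 2 + (2 * s - c) * t + (2 * s - c)))
      (exp (-t) * (c * t - s * t ^ 2)) t := by
    intro t _
    have h1 : HasDerivAt (fun t : ℝ => exp (-t)) (exp (-t) * (-1)) t :=
      (hasDerivAt_neg t).exp
    have h2 : HasDerivAt (fun t : ℝ => s * t ^ 2 + (2 * s - c) * t + (2 * s - c))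
        (s * (2 * t) + (2 * s - c) * 1) t := by
      have h3 : HasDerivAt (fun t : ℝ => t ^ 2) (2 * t) t := by
        simpa using hasDerivAt_pow 2 t
      exact ((h3.const_mul s).add ((hasDerivAt_id t).const_mul (2 * s - c))).add_const _
    have h4 := h1.mul h2
    refine h4.congr_deriv ?_
    ring
  rw [intervalIntegral.integral_eq_sub_of_hasDerivAt hder
    ((by fun_prop : Continuous fun t : ℝ => exp (-t) * (c * t - s * t ^ 2)).intervalIntegrable _ _)]
  simp only [neg_zero, exp_zero]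
  field_simp
  ring

theorem testfn_split : (fun t : ℝ => t * exp (-t) * kap (1.55 * t)) = fun t =>
    0.0655 * (t * exp (-t)) + 0.17 * (t * exp (-t) * max (3.16 - 1.55 * t) 0) +
      0.0705 * (t * exp (-t) * max (2.4 - 1.55 * t) 0) +
      0.088125 * (t * exp (-t) * max (1.6 - 1.55 * t) 0) +
      0.108875 * (t * exp (-t) * max (0.8 - 1.55 * t) 0) := by
  funext t
  unfold kap
  ring

theorem kap_integrable : IntegrableOn (fun t => t * exp (-t) * kap (1.55 * t)) (Ioi 0) := by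
  rw [testfn_split]
  exact ((((testfn_base.1.const_mul _).add
    ((testfn_int 3.16 1.55 (by norm_num) (by norm_num)).1.const_mul _)).add
    ((testfn_int 2.4 1.55 (by norm_num) (by norm_num)).1.const_mul _)).add
    ((testfn_int 1.6 1.55 (by norm_num) (by norm_num)).1.const_mul _)).add
    ((testfn_int 0.8 1.55 (by norm_num) (by norm_num)).1.const_mul _)

/-- upper bound of `exp (-a)` by the reciprocal of a partial sum -/
theorem testfn_exp_neg_le (a B : ℝ) (ha : 0 ≤ a) (hB : 0 < B)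
    (h : B⁻¹ ≤ ∑ i ∈ Finset.range 12, a ^ i / (i.factorial : ℝ)) : exp (-a) ≤ B := by
  have h1 : B⁻¹ ≤ exp a := h.trans (Real.sum_le_exp_of_nonneg ha 12)
  rw [exp_neg]
  exact inv_le_of_inv_le₀ hB h1

theorem testfn_exp_131 : 0.2695 ≤ exp (-1.31) := by
  have h1 : exp 0.655 ≤ 1.926 := by
    refine (Real.exp_bound' (x := 0.655) (by norm_num) (by norm_num) (n := 8) (by norm_num)).trans ?_
    simp only [Finset.sum_range_succ, Finset.sum_range_zero, Nat.factorial]
    norm_num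
  have h2 : exp (-1.31) = (exp 0.655 * exp 0.655)⁻¹ := by
    rw [← exp_add, ← exp_neg]
    norm_num
  rw [h2]
  have h3 : exp 0.655 * exp 0.655 ≤ 1.926 * 1.926 :=
    mul_le_mul h1 h1 (exp_pos _).le (by norm_num)
  have h4 : (0 : ℝ) < exp 0.655 * exp 0.655 := by positivity
  calc (0.2695 : ℝ) ≤ (1.926 * 1.926)⁻¹ := by norm_num
    _ ≤ _ := inv_anti₀ h4 h3

theorem testfn_lin (c0 c1 c2 c3 c4 : ℝ) (f0 f1 f2 f3 f4 : ℝ → ℝ)
    (h0 : IntegrableOn f0 (Ioi 0)) (h1 : IntegrableOn f1 (Ioi 0)) (h2 : IntegrableOn f2 (Ioi 0))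
    (h3 : IntegrableOn f3 (Ioi 0)) (h4 : IntegrableOn f4 (Ioi 0)) :
    ∫ t in Ioi (0 : ℝ), (c0 * f0 t + c1 * f1 t + c2 * f2 t + c3 * f3 t + c4 * f4 t) =
      c0 * (∫ t in Ioi (0 : ℝ), f0 t) + c1 * (∫ t in Ioi (0 : ℝ), f1 t) +
      c2 * (∫ t in Ioi (0 : ℝ), f2 t) + c3 * (∫ t in Ioi (0 : ℝ), f3 t) +
      c4 * (∫ t in Ioi (0 : ℝ), f4 t) := by
  have j0 : Integrable (fun t => c0 * f0 t) (volume.restrict (Ioi 0)) := h0.const_mul c0
  have j1 : Integrable (fun t => c1 * f1 t) (volume.restrict (Ioi 0)) := h1.const_mul c1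
  have j2 : Integrable (fun t => c2 * f2 t) (volume.restrict (Ioi 0)) := h2.const_mul c2
  have j3 : Integrable (fun t => c3 * f3 t) (volume.restrict (Ioi 0)) := h3.const_mul c3
  have j4 : Integrable (fun t => c4 * f4 t) (volume.restrict (Ioi 0)) := h4.const_mul c4
  have k1 : Integrable (fun t => c0 * f0 t + c1 * f1 t) (volume.restrict (Ioi 0)) := j0.add j1
  have k2 : Integrable (fun t => c0 * f0 t + c1 * f1 t + c2 * f2 t) (volume.restrict (Ioi 0)) :=
    k1.add j2
  have k3 : Integrable (fun t => c0 * f0 t + c1 * f1 t + c2 * f2 t + c3 * f3 t)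
    (volume.restrict (Ioi 0)) := k2.add j3
  rw [integral_add k3 j4, integral_add k2 j3, integral_add k1 j2, integral_add j0 j1,
    integral_const_mul, integral_const_mul, integral_const_mul, integral_const_mul,
    integral_const_mul]

theorem kap_int : ∫ t in Ioi (0 : ℝ), t * exp (-t) * kap (1.55 * t) ≤ exp (-1.31) := by
  have i0 := testfn_base
  have i1 := testfn_int 3.16 1.55 (by norm_num) (by norm_num)
  have i2 := testfn_int 2.4 1.55 (by norm_num) (by norm_num)
  have i3 := testfn_int 1.6 1.55 (by norm_num) (by norm_num)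
  have i4 := testfn_int 0.8 1.55 (by norm_num) (by norm_num)
  have e1 : exp (-(3.16 / 1.55)) ≤ 0.1303 := by
    refine testfn_exp_neg_le _ _ (by norm_num) (by norm_num) ?_
    simp only [Finset.sum_range_succ, Finset.sum_range_zero, Nat.factorial]
    norm_num
  have e2 : exp (-(2.4 / 1.55)) ≤ 0.2127 := by
    refine testfn_exp_neg_le _ _ (by norm_num) (by norm_num) ?_
    simp only [Finset.sum_range_succ, Finset.sum_range_zero, Nat.factorial]
    norm_num
  have e3 : exp (-(1.6 / 1.55)) ≤ 0.3563 := by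
    refine testfn_exp_neg_le _ _ (by norm_num) (by norm_num) ?_
    simp only [Finset.sum_range_succ, Finset.sum_range_zero, Nat.factorial]
    norm_num
  have e4 : exp (-(0.8 / 1.55)) ≤ 0.5969 := by
    refine testfn_exp_neg_le _ _ (by norm_num) (by norm_num) ?_
    simp only [Finset.sum_range_succ, Finset.sum_range_zero, Nat.factorial]
    norm_num
  have hval : ∫ t in Ioi (0 : ℝ), t * exp (-t) * kap (1.55 * t) =
      0.0655 * 1 + 0.17 * (1.55 * ((3.16 / 1.55 - 2) + (3.16 / 1.55 + 2) * exp (-(3.16 / 1.55)))) +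
      0.0705 * (1.55 * ((2.4 / 1.55 - 2) + (2.4 / 1.55 + 2) * exp (-(2.4 / 1.55)))) +
      0.088125 * (1.55 * ((1.6 / 1.55 - 2) + (1.6 / 1.55 + 2) * exp (-(1.6 / 1.55)))) +
      0.108875 * (1.55 * ((0.8 / 1.55 - 2) + (0.8 / 1.55 + 2) * exp (-(0.8 / 1.55)))) := by
    rw [testfn_split, ← i0.2, ← i1.2, ← i2.2, ← i3.2, ← i4.2]
    exact testfn_lin _ _ _ _ _ _ _ _ _ _ i0.1 i1.1 i2.1 i3.1 i4.1
  rw [hval]
  refine le_trans ?_ testfn_exp_131
  have f1 : (3.16 / 1.55 + 2) * exp (-(3.16 / 1.55)) ≤ (3.16 / 1.55 + 2) * 0.1303 :=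
    mul_le_mul_of_nonneg_left e1 (by norm_num)
  have f2 : (2.4 / 1.55 + 2) * exp (-(2.4 / 1.55)) ≤ (2.4 / 1.55 + 2) * 0.2127 :=
    mul_le_mul_of_nonneg_left e2 (by norm_num)
  have f3 : (1.6 / 1.55 + 2) * exp (-(1.6 / 1.55)) ≤ (1.6 / 1.55 + 2) * 0.3563 :=
    mul_le_mul_of_nonneg_left e3 (by norm_num)
  have f4 : (0.8 / 1.55 + 2) * exp (-(0.8 / 1.55)) ≤ (0.8 / 1.55 + 2) * 0.5969 :=
    mul_le_mul_of_nonneg_left e4 (by norm_num)
  generalize (3.16 / 1.55 + 2) * exp (-(3.16 / 1.55)) = g1 at *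
  generalize (2.4 / 1.55 + 2) * exp (-(2.4 / 1.55)) = g2 at *
  generalize (1.6 / 1.55 + 2) * exp (-(1.6 / 1.55)) = g3 at *
  generalize (0.8 / 1.55 + 2) * exp (-(0.8 / 1.55)) = g4 at *
  norm_num at f1 f2 f3 f4 ⊢
  linarith

theorem testfn_cases {u R : ℝ} (h1 : 1 - 0.4375 * u ≤ R) (h2 : 0.9129 - 0.328625 * u ≤ R)
    (h3 : 0.7719 - 0.2405 * u ≤ R) (h4 : 0.6027 - 0.17 * u ≤ R) (h5 : 0.0655 ≤ R) :
    kap u ≤ R := by
  unfold kap
  rcases le_total (3.16 - u) 0 with a1 | a1
  · rw [max_eq_right a1, max_eq_right (a := 2.4 - u) (by linarith),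
      max_eq_right (a := 1.6 - u) (by linarith), max_eq_right (a := 0.8 - u) (by linarith)]
    linarith
  · rcases le_total (2.4 - u) 0 with a2 | a2
    · rw [max_eq_left a1, max_eq_right a2,
        max_eq_right (a := 1.6 - u) (by linarith), max_eq_right (a := 0.8 - u) (by linarith)]
      linarith
    · rcases le_total (1.6 - u) 0 with a3 | a3
      · rw [max_eq_left a1, max_eq_left a2, max_eq_right a3,
          max_eq_right (a := 0.8 - u) (by linarith)]
        linarith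
      · rcases le_total (0.8 - u) 0 with a4 | a4
        · rw [max_eq_left a1, max_eq_left a2, max_eq_left a3, max_eq_right a4]
          linarith
        · rw [max_eq_left a1, max_eq_left a2, max_eq_left a3, max_eq_left a4]
          linarith

/-- `A ≤ B + C / t` follows from `0 ≤ C + (B - A) t` -/
theorem testfn_div {A B C t : ℝ} (ht : 0 < t) (h : 0 ≤ C + (B - A) * t) : A ≤ B + C / t := by
  have h1 : B + C / t - A = (C + (B - A) * t) / t := by
    field_simp
    ring
  have h2 : 0 ≤ B + C / t - A := by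
    rw [h1]
    exact div_nonneg h ht.le
  linarith

theorem test2 {s t : ℝ} (hs : 1.55 ≤ s) (ht : 0 < t) :
    K 1 (s * t) ≤ -0.32 + 0.056 * t + 0.7 / t := by
  refine (K1_le_kap (u := 1.55 * t) (by positivity)
    (mul_le_mul_of_nonneg_right hs ht.le)).trans ?_
  refine testfn_cases ?_ ?_ ?_ ?_ ?_
  · refine testfn_div ht ?_
    nlinarith [sq_nonneg (t - 0.899)]
  · refine testfn_div ht ?_
    nlinarith [sq_nonneg (t - 1.0903)]
  · refine testfn_div ht ?_
    nlinarith [sq_nonneg (t - 1.27328)]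
  · refine testfn_div ht ?_
    nlinarith [sq_nonneg (t - 1.444)]
  · refine testfn_div ht ?_
    nlinarith [sq_nonneg (t - 3.442)]

theorem test8 {s t : ℝ} (hs : 1.45 ≤ s) (ht : 0 < t) :
    K 1 (s * t) ≤ -1.14 + 0.23 * t + 1.6 / t := by
  refine (K1_le_kap (u := 1.45 * t) (by positivity)
    (mul_le_mul_of_nonneg_right hs ht.le)).trans ?_
  refine testfn_cases ?_ ?_ ?_ ?_ ?_
  · refine testfn_div ht ?_
    nlinarith [sq_nonneg (t - 1.2379)]
  · refine testfn_div ht ?_
    nlinarith [sq_nonneg (t - 1.45285)]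
  · refine testfn_div ht ?_
    nlinarith [sq_nonneg (t - 1.65182)]
  · refine testfn_div ht ?_
    nlinarith [sq_nonneg (t - 1.82865)]
  · refine testfn_div ht ?_
    nlinarith [sq_nonneg (t - 2.62065)]

end LpSec

end
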