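import Mathlib
import Pool.Agent.Lib.MP_1dbab3_gt.Base

section
/-!
# T07 GammaProd: lower bounds for `DD` from Euler's product

* `Gamma_ratio_ge`: `Real.GammaSeq s n = n^s n! / ∏_{j=0}^n (s+j) → Γ(s)`; the powers of `n` and
  the factorials cancel in `GammaSeq (y-ε)² / (GammaSeq y * GammaSeq (y-2ε))`, which is
  `∏_{j=0}^n (1 - ε²/(j+y-ε)²) ≥ 1 - ε² ∑_{j=0}^n 1/(j+y-ε)²` (all factors in `[0,1]`).
* partial sums: `1/c² ≤ 1/(c-1/2) - 1/(c+1/2)`, telescoping:
  `∑_{j ≥ J} 1/(j+z)² ≤ 1/(J+z-1/2)`.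
-/

open Real MeasureTheory Set

namespace LpSec

/-- Weierstrass' product inequality. -/
theorem prod_one_sub_ge_aux (a : ℕ → ℝ) (h0 : ∀ j, 0 ≤ a j) (h1 : ∀ j, a j ≤ 1) (n : ℕ) :
    1 - ∑ j ∈ Finset.range n, a j ≤ ∏ j ∈ Finset.range n, (1 - a j) ∧
      0 ≤ ∏ j ∈ Finset.range n, (1 - a j) ∧ ∏ j ∈ Finset.range n, (1 - a j) ≤ 1 := by
  induction n with
  | zero => simp
  | succ n ih =>
    rw [Finset.sum_range_succ, Finset.prod_range_succ]
    obtain ⟨h2, h3, h4⟩ := ih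
    have h5 := h0 n
    have h6 := h1 n
    refine ⟨?_, ?_, ?_⟩
    · nlinarith
    · exact mul_nonneg h3 (by linarith)
    · nlinarith

theorem Gamma_ratio_ge {y ε S : ℝ} (hε : 0 ≤ ε) (hy : 0 < y - 2 * ε)
    (hS : ∀ n : ℕ, ∑ j ∈ Finset.range n, 1 / ((j : ℝ) + y - ε) ^ 2 ≤ S) :
    1 - ε ^ 2 * S ≤ Gamma (y - ε) ^ 2 / (Gamma y * Gamma (y - 2 * ε)) := by
  have hy1 : 0 < y - ε := by linarith
  have hy0 : 0 < y := by linarith
  have hlim : Filter.Tendsto (fun n : ℕ => GammaSeq (y - ε) n ^ 2 /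
      (GammaSeq y n * GammaSeq (y - 2 * ε) n)) Filter.atTop
      (nhds (Gamma (y - ε) ^ 2 / (Gamma y * Gamma (y - 2 * ε)))) := by
    refine Filter.Tendsto.div ((GammaSeq_tendsto_Gamma _).pow 2)
      ((GammaSeq_tendsto_Gamma _).mul (GammaSeq_tendsto_Gamma _)) ?_
    exact (mul_pos (Gamma_pos_of_pos hy0) (Gamma_pos_of_pos hy)).ne'
  refine ge_of_tendsto hlim ?_
  filter_upwards [Filter.eventually_gt_atTop 0] with n hn
  have hn' : (0 : ℝ) < n := by exact_mod_cast hn
  have hpos : ∀ s : ℝ, 0 < s → 0 < ∏ j ∈ Finset.range (n + 1), (s + (j : ℝ)) := fun s hs =>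
    Finset.prod_pos fun j _ => by positivity
  have hp1 := hpos _ hy1
  have hp0 := hpos _ hy0
  have hp2 := hpos _ hy
  have hfac : (0 : ℝ) < (n.factorial : ℝ) := by exact_mod_cast n.factorial_pos
  have heq : GammaSeq (y - ε) n ^ 2 / (GammaSeq y n * GammaSeq (y - 2 * ε) n) =
      ∏ j ∈ Finset.range (n + 1), (1 - ε ^ 2 * (1 / ((j : ℝ) + y - ε) ^ 2)) := by
    unfold GammaSeq
    have hpow : ((n : ℝ) ^ (y - ε)) ^ 2 = (n : ℝ) ^ y * (n : ℝ) ^ (y - 2 * ε) := by
      rw [← Real.rpow_add hn', ← Real.rpow_natCast, ← Real.rpow_mul hn'.le]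
      congr 1
      push_cast
      ring
    have hprod : ∏ j ∈ Finset.range (n + 1), (1 - ε ^ 2 * (1 / ((j : ℝ) + y - ε) ^ 2)) =
        ((∏ j ∈ Finset.range (n + 1), (y + (j : ℝ))) *
          ∏ j ∈ Finset.range (n + 1), (y - 2 * ε + (j : ℝ))) /
          (∏ j ∈ Finset.range (n + 1), (y - ε + (j : ℝ))) ^ 2 := by
      rw [← Finset.prod_mul_distrib, ← Finset.prod_pow, ← Finset.prod_div_distrib]
      refine Finset.prod_congr rfl fun j _ => ?_
      have hj : (0 : ℝ) < y - ε + j := by positivity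
      have hj' : (j : ℝ) + y - ε ≠ 0 := by
        have : (j : ℝ) + y - ε = y - ε + j := by ring
        rw [this]; exact hj.ne'
      rw [show y - ε + (j : ℝ) = (j : ℝ) + y - ε by ring]
      field_simp
      ring
    rw [hprod, div_pow, mul_pow, hpow]
    have h1 : (0 : ℝ) < (n : ℝ) ^ y := Real.rpow_pos_of_pos hn' _
    have h2 : (0 : ℝ) < (n : ℝ) ^ (y - 2 * ε) := Real.rpow_pos_of_pos hn' _
    field_simp
  rw [heq]
  have hfac0 : ∀ j : ℕ, 0 ≤ ε ^ 2 * (1 / ((j : ℝ) + y - ε) ^ 2) := fun j => by positivity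
  have hfac1 : ∀ j : ℕ, ε ^ 2 * (1 / ((j : ℝ) + y - ε) ^ 2) ≤ 1 := fun j => by
    have hj0 : (0 : ℝ) ≤ j := Nat.cast_nonneg j
    have hj : ε ≤ (j : ℝ) + y - ε := by linarith
    have hjpos : 0 < (j : ℝ) + y - ε := by linarith
    rw [mul_one_div, div_le_one (by positivity)]
    exact pow_le_pow_left₀ hε hj 2
  refine le_trans ?_ (prod_one_sub_ge_aux _ hfac0 hfac1 (n + 1)).1
  rw [← Finset.mul_sum]
  have h3 := mul_le_mul_of_nonneg_left (hS (n + 1)) (sq_nonneg ε)
  linarith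

/-- Telescoping bound. -/
theorem sum_sq_le_aux (z : ℝ) (hz : 1 / 2 < z) (n : ℕ) :
    ∑ j ∈ Finset.range n, 1 / ((j : ℝ) + z) ^ 2 ≤ 1 / (z - 1 / 2) - 1 / (n + z - 1 / 2) := by
  induction n with
  | zero => simp
  | succ n ih =>
    rw [Finset.sum_range_succ]
    have hn : (0 : ℝ) ≤ n := Nat.cast_nonneg n
    have h1 : 0 < (n : ℝ) + z - 1 / 2 := by linarith
    have h2 : 0 < (n : ℝ) + z + 1 / 2 := by linarith
    have h3 : 0 < (n : ℝ) + z := by linarith
    have h4 : 1 / ((n : ℝ) + z) ^ 2 ≤ 1 / (n + z - 1 / 2) - 1 / (n + z + 1 / 2) := by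
      rw [div_sub_div _ _ h1.ne' h2.ne', div_le_div_iff₀ (by positivity) (by positivity)]
      nlinarith
    have h5 : ((n + 1 : ℕ) : ℝ) + z - 1 / 2 = n + z + 1 / 2 := by push_cast; ring
    rw [h5]
    linarith

theorem DD_ge_big {α : ℝ} (hα : 8 ≤ α) : 1.956 ≤ DD α := by
  have hα0 : 0 < α := by linarith
  set x : ℝ := 1 / α with hx
  have hx0 : 0 < x := by positivity
  have hx8 : x ≤ 1 / 8 := one_div_le_one_div_of_le (by norm_num) hα
  have h2x : 2 / α = 2 * x := by rw [hx]; ring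
  have hS : ∀ n : ℕ, ∑ j ∈ Finset.range n, 1 / ((j : ℝ) + (1 + 2 * x) - x) ^ 2 ≤
      1 / (1 + x) ^ 2 + 1 / (3 / 2 + x) := by
    intro n
    have h0 : ∀ n : ℕ, ∑ j ∈ Finset.range n, 1 / ((j : ℝ) + (1 + 2 * x) - x) ^ 2 ≤
        ∑ j ∈ Finset.range (n + 1), 1 / ((j : ℝ) + (1 + 2 * x) - x) ^ 2 := by
      intro n
      rw [Finset.sum_range_succ]
      have : 0 ≤ 1 / ((n : ℝ) + (1 + 2 * x) - x) ^ 2 := by positivity
      linarith
    refine (h0 n).trans ?_
    rw [Finset.sum_range_succ']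
    have h1 := sum_sq_le_aux (2 + x) (by linarith) n
    have h2 : ∑ j ∈ Finset.range n, 1 / (((j + 1 : ℕ) : ℝ) + (1 + 2 * x) - x) ^ 2 =
        ∑ j ∈ Finset.range n, 1 / ((j : ℝ) + (2 + x)) ^ 2 := by
      refine Finset.sum_congr rfl fun j _ => ?_
      congr 2
      push_cast
      ring
    rw [h2]
    have h3 : 0 ≤ 1 / ((n : ℝ) + (2 + x) - 1 / 2) := by
      have hn : (0 : ℝ) ≤ n := Nat.cast_nonneg n
      have : 0 < (n : ℝ) + (2 + x) - 1 / 2 := by linarith
      positivity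
    have h4 : (2 + x) - 1 / 2 = 3 / 2 + x := by ring
    rw [h4] at h1
    have h5 : (((0 : ℕ) : ℝ) + (1 + 2 * x) - x) = 1 + x := by push_cast; ring
    rw [h5]
    linarith
  have hratio := Gamma_ratio_ge (y := 1 + 2 * x) (ε := x) hx0.le (by linarith) hS
  rw [show 1 + 2 * x - x = 1 + x by ring, show 1 + 2 * x - 2 * x = 1 by ring, Gamma_one,
    mul_one] at hratio
  have hbound : x ^ 2 * (1 / (1 + x) ^ 2 + 1 / (3 / 2 + x)) ≤ 0.022 := by
    have h1 : x ^ 2 * (1 / (1 + x) ^ 2) ≤ 1 / 81 := by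
      rw [mul_one_div, ← div_pow]
      have : x / (1 + x) ≤ 1 / 9 := by
        rw [div_le_div_iff₀ (by linarith) (by norm_num)]
        linarith
      have h2 : 0 ≤ x / (1 + x) := by positivity
      calc (x / (1 + x)) ^ 2 ≤ (1 / 9) ^ 2 := pow_le_pow_left₀ h2 this 2
        _ = 1 / 81 := by norm_num
    have h3 : x ^ 2 * (1 / (3 / 2 + x)) ≤ 1 / 104 := by
      rw [mul_one_div, div_le_div_iff₀ (by linarith) (by norm_num)]
      nlinarith
    rw [mul_add]
    norm_num at h1 h3 ⊢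
    linarith
  unfold DD
  rw [h2x, ← hx, mul_div_assoc]
  linarith

theorem log_DD_key {ε α : ℝ} (hα : 1 < α) (he : ε = 1 - 1 / α) (h : ε ≤ 0.185) :
    ε + ε ^ 2 / 2 + ε ^ 3 / 3 + ε ^ 4 / 4 - 0.7491 * ε ^ 2 ≤ log (DD α) := by
  have hα0 : 0 < α := by linarith
  have hε0 : 0 < ε := by
    rw [he, sub_pos, div_lt_one hα0]; exact hα
  have h' : ε ≤ 37 / 200 := by norm_num at h ⊢; linarith
  have hx : 1 / α = 1 - ε := by rw [he]; ring
  have h2x : 2 / α = 2 - 2 * ε := by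
    have : 2 / α = 2 * (1 / α) := by ring
    rw [this, hx]; ring
  have hS : ∀ n : ℕ, ∑ j ∈ Finset.range n, 1 / ((j : ℝ) + 2 - ε) ^ 2 ≤ 0.7303 := by
    intro n
    have h0 : ∀ n : ℕ, ∑ j ∈ Finset.range n, 1 / ((j : ℝ) + 2 - ε) ^ 2 ≤
        ∑ j ∈ Finset.range (n + 1), 1 / ((j : ℝ) + 2 - ε) ^ 2 := by
      intro n
      rw [Finset.sum_range_succ]
      have : 0 ≤ 1 / ((n : ℝ) + 2 - ε) ^ 2 := by positivity
      linarith
    refine (((h0 n).trans (h0 (n + 1))).trans (h0 (n + 2))).trans ?_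
    rw [Finset.sum_range_succ', Finset.sum_range_succ', Finset.sum_range_succ']
    have h1 := sum_sq_le_aux (5 - ε) (by linarith) n
    have h2 : ∑ j ∈ Finset.range n, 1 / ((((j + 1 + 1 + 1 : ℕ)) : ℝ) + 2 - ε) ^ 2 =
        ∑ j ∈ Finset.range n, 1 / ((j : ℝ) + (5 - ε)) ^ 2 := by
      refine Finset.sum_congr rfl fun j _ => ?_
      congr 2
      push_cast
      ring
    rw [h2]
    have h3 : 0 ≤ 1 / ((n : ℝ) + (5 - ε) - 1 / 2) := by
      have hn : (0 : ℝ) ≤ n := Nat.cast_nonneg n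
      have : 0 < (n : ℝ) + (5 - ε) - 1 / 2 := by linarith
      positivity
    have h4 : 1 / ((5 - ε) - 1 / 2) ≤ 200 / 863 := by
      rw [div_le_div_iff₀ (by linarith) (by norm_num)]
      linarith
    have h5 : 1 / (((0 : ℕ) : ℝ) + 2 - ε) ^ 2 ≤ (200 / 363) ^ 2 := by
      rw [← one_div_pow]
      refine pow_le_pow_left₀ ?_ ?_ 2
      · have : 0 < ((0 : ℕ) : ℝ) + 2 - ε := by push_cast; linarith
        positivity
      · push_cast
        rw [div_le_div_iff₀ (by linarith) (by norm_num)]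
        linarith
    have h6 : 1 / (((0 + 1 : ℕ) : ℝ) + 2 - ε) ^ 2 ≤ (200 / 563) ^ 2 := by
      rw [← one_div_pow]
      refine pow_le_pow_left₀ ?_ ?_ 2
      · have : 0 < ((0 + 1 : ℕ) : ℝ) + 2 - ε := by push_cast; linarith
        positivity
      · push_cast
        rw [div_le_div_iff₀ (by linarith) (by norm_num)]
        linarith
    have h7 : 1 / (((0 + 1 + 1 : ℕ) : ℝ) + 2 - ε) ^ 2 ≤ (200 / 763) ^ 2 := by
      rw [← one_div_pow]
      refine pow_le_pow_left₀ ?_ ?_ 2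
      · have : 0 < ((0 + 1 + 1 : ℕ) : ℝ) + 2 - ε := by push_cast; linarith
        positivity
      · push_cast
        rw [div_le_div_iff₀ (by linarith) (by norm_num)]
        linarith
    linarith
  have hratio := Gamma_ratio_ge (y := 2) (ε := ε) hε0.le (by linarith) hS
  rw [Gamma_two, one_mul] at hratio
  have hG : Gamma (3 - 2 * ε) = (2 - 2 * ε) * Gamma (2 - 2 * ε) := by
    have := Gamma_add_one (s := 2 - 2 * ε) (by linarith)
    rw [← this]
    congr 1
    ring
  have hGpos : 0 < Gamma (2 - 2 * ε) := Gamma_pos_of_pos (by linarith)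
  have hDD : DD α = (1 - ε)⁻¹ * (Gamma (2 - ε) ^ 2 / Gamma (2 - 2 * ε)) := by
    unfold DD
    rw [hx, h2x, show 1 + (1 - ε) = 2 - ε by ring, show 1 + (2 - 2 * ε) = 3 - 2 * ε by ring, hG]
    have h1 : (1 - ε) ≠ 0 := by linarith
    have h2 : (2 - 2 * ε) ≠ 0 := by linarith
    field_simp
  have hε1 : 0 < 1 - ε := by linarith
  have hy1 : ε ^ 2 * 0.7303 ≤ 0.025 := by norm_num; nlinarith
  have hpos : 0 < 1 - ε ^ 2 * 0.7303 := by norm_num at hy1 ⊢; linarith
  have hle : (1 - ε)⁻¹ * (1 - ε ^ 2 * 0.7303) ≤ DD α := by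
    rw [hDD]
    exact mul_le_mul_of_nonneg_left hratio (by positivity)
  have hlog : log ((1 - ε)⁻¹ * (1 - ε ^ 2 * 0.7303)) ≤ log (DD α) :=
    log_le_log (by positivity) hle
  rw [log_mul (by positivity) hpos.ne', log_inv] at hlog
  have hser : ε + ε ^ 2 / 2 + ε ^ 3 / 3 + ε ^ 4 / 4 ≤ -log (1 - ε) := by
    have hs := hasSum_pow_div_log_of_abs_lt_one (x := ε) (by rw [abs_of_pos hε0]; linarith)
    have h1 := sum_le_hasSum (Finset.range 4) (fun n _ => by positivity) hs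
    simp only [Finset.sum_range_succ, Finset.sum_range_zero, Nat.cast_zero, Nat.cast_one,
      Nat.cast_ofNat, zero_add, pow_one, div_one] at h1
    norm_num at h1 ⊢
    linarith
  have hlog2 : -(0.7491 * ε ^ 2) ≤ log (1 - ε ^ 2 * 0.7303) := by
    have h1 := one_sub_inv_le_log_of_pos hpos
    refine le_trans ?_ h1
    have h2 : (1 - ε ^ 2 * 0.7303)⁻¹ ≤ 1 + 0.7491 * ε ^ 2 := by
      rw [inv_eq_one_div, div_le_iff₀ hpos]
      have h3 : 0 ≤ ε ^ 2 := sq_nonneg ε
      have h4 : ε ^ 2 ≤ 0.0343 := by norm_num at hy1 ⊢; linarith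
      nlinarith [mul_nonneg h3 (sub_nonneg.2 h4)]
    linarith
  linarith

theorem log_DD_near_one {α : ℝ} (h1 : 1 < α) (h : 1 - 1 / α ≤ 0.185) :
    (1 - 1 / α) - 0.25 * (1 - 1 / α) ^ 2 ≤ log (DD α) := by
  have h2 := log_DD_key h1 rfl h
  have hε0 : 0 < 1 - 1 / α := by
    rw [sub_pos, div_lt_one (by linarith)]; exact h1
  set ε := 1 - 1 / α with hε
  refine le_trans ?_ h2
  have h3 : 0 ≤ ε ^ 3 := by positivity
  have h4 : 0 ≤ ε ^ 4 := by positivity
  have h5 : 0 ≤ ε ^ 2 := by positivity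
  norm_num
  linarith

theorem log_DD_near_one' {α : ℝ} (h1 : 1 < α) (h : 1 - 1 / α ≤ 0.185) :
    0.9658 * (1 - 1 / α) < log (DD α) := by
  have h2 := log_DD_key h1 rfl h
  have hε0 : 0 < 1 - 1 / α := by
    rw [sub_pos, div_lt_one (by linarith)]; exact h1
  set ε := 1 - 1 / α with hε
  refine lt_of_lt_of_le ?_ h2
  have h' : ε ≤ 37 / 200 := by norm_num at h ⊢; linarith
  have key : 0 < 0.0342 - 0.2491 * ε + ε ^ 2 / 3 + ε ^ 3 / 4 := by
    norm_num
    nlinarith [mul_nonneg hε0.le (sq_nonneg (ε - 37 / 200)), sq_nonneg (ε - 37 / 200),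
      mul_nonneg hε0.le (sub_nonneg.2 h')]
  have h3 := mul_pos hε0 key
  norm_num at h3 ⊢
  nlinarith

end LpSec

end

section
/-!
# T06 GammaConv: convexity of `x ↦ AA (1/x)` and chord bounds

`x = 1/α`. By the duplication formula `AA = 2^x Γ(x+1/2) / (√π Γ(1+x)) =: gcA x`, and by the Beta
integral `gcA x = π⁻¹ ∫_0^1 (2t)^x t^(-1/2) (1-t)^(-1/2) dt`, which is a convex function of `x`.
-/

open Real MeasureTheory Set

namespace LpSec

/-- the real Beta integral -/
theorem gc_beta_int {a b : ℝ} (ha : 0 < a) (hb : 0 < b) :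
    IntegrableOn (fun t : ℝ => t ^ (a - 1) * (1 - t) ^ (b - 1)) (Ioo 0 1) ∧
      ∫ t in Ioo (0 : ℝ) 1, t ^ (a - 1) * (1 - t) ^ (b - 1) = Gamma a * Gamma b / Gamma (a + b) := by
  have hB := ProbabilityTheory.beta_pos ha hb
  have h := ProbabilityTheory.lintegral_betaPDF_eq_one ha hb
  rw [ProbabilityTheory.lintegral_betaPDF] at h
  set f : ℝ → ℝ := fun t => 1 / ProbabilityTheory.beta a b * t ^ (a - 1) * (1 - t) ^ (b - 1) with hf
  have hfm : Measurable f := by
    simp only [hf]; fun_prop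
  have hfn : 0 ≤ᵐ[volume.restrict (Ioo (0 : ℝ) 1)] f := by
    refine ae_restrict_of_forall_mem measurableSet_Ioo fun t ht => ?_
    have h1 : 0 < 1 - t := by linarith [ht.2]
    have h2 : 0 < t := ht.1
    simp only [hf, Pi.zero_apply]
    positivity
  have hint : Integrable f (volume.restrict (Ioo (0 : ℝ) 1)) := by
    refine (lintegral_ofReal_ne_top_iff_integrable hfm.aestronglyMeasurable hfn).1 ?_
    rw [h]; exact ENNReal.one_ne_top
  have hval : ∫ t in Ioo (0 : ℝ) 1, f t = 1 := by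
    rw [integral_eq_lintegral_of_nonneg_ae hfn hfm.aestronglyMeasurable, h, ENNReal.toReal_one]
  have hfe : f = fun t => 1 / ProbabilityTheory.beta a b * (t ^ (a - 1) * (1 - t) ^ (b - 1)) := by
    funext t; simp only [hf]; ring
  refine ⟨?_, ?_⟩
  · have h1 := hint.const_mul (ProbabilityTheory.beta a b)
    refine h1.congr (Filter.Eventually.of_forall fun t => ?_)
    rw [hfe]
    field_simp
  · rw [hfe, integral_const_mul] at hval
    have : ProbabilityTheory.beta a b = Gamma a * Gamma b / Gamma (a + b) := rfl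
    rw [← this]
    field_simp at hval
    exact hval

/-- `AA` as a function of `x = 1/α` -/
noncomputable def gcA (x : ℝ) : ℝ := 2 ^ x * Gamma (x + 1 / 2) / (√π * Gamma (1 + x))

theorem AA_eq {α : ℝ} (hα : 0 < α) :
    AA α = 2 ^ (1 / α) * Gamma (1 / α + 1 / 2) / (√π * Gamma (1 + 1 / α)) := by
  have hx : 0 < 1 / α := by positivity
  unfold AA DD
  rw [show 2 / α = 2 * (1 / α) by ring]
  set x : ℝ := 1 / α
  have h := Real.Gamma_mul_Gamma_add_half (x + 1 / 2)
  rw [show x + 1 / 2 + 1 / 2 = 1 + x by ring, show 2 * (x + 1 / 2) = 1 + 2 * x by ring,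
    show 1 - (1 + 2 * x) = -(2 * x) by ring] at h
  have h1 : 0 < Gamma (1 + x) := Gamma_pos_of_pos (by linarith)
  have h2 : 0 < Gamma (1 + 2 * x) := Gamma_pos_of_pos (by linarith)
  have hπ : 0 < √π := Real.sqrt_pos.2 Real.pi_pos
  have h3 : (2 : ℝ) ^ (1 - x) = 2 * 2 ^ x * 2 ^ (-(2 * x)) := by
    rw [show (2 : ℝ) * 2 ^ x * 2 ^ (-(2 * x)) = 2 ^ (1 : ℝ) * 2 ^ x * 2 ^ (-(2 * x)) by
      rw [Real.rpow_one], ← Real.rpow_add (by norm_num), ← Real.rpow_add (by norm_num)]
    congr 1; ring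
  rw [div_div_eq_mul_div, div_eq_div_iff (by positivity) (by positivity), h3]
  calc 2 * 2 ^ x * 2 ^ (-(2 * x)) * Gamma (1 + 2 * x) * (√π * Gamma (1 + x))
      = 2 * 2 ^ x * Gamma (1 + x) * (Gamma (1 + 2 * x) * 2 ^ (-(2 * x)) * √π) := by ring
    _ = 2 * 2 ^ x * Gamma (1 + x) * (Gamma (x + 1 / 2) * Gamma (1 + x)) := by rw [h]
    _ = _ := by ring

theorem gc_AA_eq {α : ℝ} (hα : 0 < α) : AA α = gcA (1 / α) := AA_eq hα

theorem gc_int {x : ℝ} (hx : 0 ≤ x) :
    IntegrableOn (fun t : ℝ => (2 * t) ^ x * (t ^ (-(1 / 2) : ℝ) * (1 - t) ^ (-(1 / 2) : ℝ)))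
      (Ioo 0 1) ∧
    gcA x = π⁻¹ * ∫ t in Ioo (0 : ℝ) 1,
      (2 * t) ^ x * (t ^ (-(1 / 2) : ℝ) * (1 - t) ^ (-(1 / 2) : ℝ)) := by
  obtain ⟨h1, h2⟩ := gc_beta_int (a := x + 1 / 2) (b := 1 / 2) (by linarith) (by norm_num)
  rw [show x + 1 / 2 - 1 = x + -(1 / 2) by ring, show (1 / 2 : ℝ) - 1 = -(1 / 2) by norm_num] at h1 h2
  have he : ∀ t ∈ Ioo (0 : ℝ) 1, (2 * t) ^ x * (t ^ (-(1 / 2) : ℝ) * (1 - t) ^ (-(1 / 2) : ℝ)) =
      2 ^ x * (t ^ (x + -(1 / 2)) * (1 - t) ^ (-(1 / 2) : ℝ)) := by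
    intro t ht
    rw [Real.mul_rpow (by norm_num) ht.1.le, Real.rpow_add ht.1]
    ring
  refine ⟨?_, ?_⟩
  · refine (IntegrableOn.congr_fun (h1.const_mul (2 ^ x)) (fun t ht => (he t ht).symm)
      measurableSet_Ioo)
  · rw [setIntegral_congr_fun measurableSet_Ioo he, integral_const_mul, h2,
      Real.Gamma_one_half_eq, show x + 1 / 2 + 1 / 2 = 1 + x by ring]
    unfold gcA
    have hg : 0 < Gamma (1 + x) := Gamma_pos_of_pos (by linarith)
    have hπ : 0 < √π := Real.sqrt_pos.2 Real.pi_pos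
    have hs : √π * √π = π := Real.mul_self_sqrt Real.pi_pos.le
    have key : π⁻¹ = (√π)⁻¹ * (√π)⁻¹ := by rw [← mul_inv, hs]
    rw [key]
    field_simp

theorem gcA_convex : ConvexOn ℝ (Ici 0) gcA := by
  refine ⟨convex_Ici 0, ?_⟩
  intro x hx y hy a b ha hb hab
  have hx0 : 0 ≤ x := hx
  have hy0 : 0 ≤ y := hy
  have hz0 : 0 ≤ a • x + b • y := by
    simp only [smul_eq_mul]; positivity
  obtain ⟨hxi, hxe⟩ := gc_int hx0
  obtain ⟨hyi, hye⟩ := gc_int hy0
  obtain ⟨hzi, hze⟩ := gc_int hz0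
  rw [hxe, hye, hze]
  simp only [smul_eq_mul] at hzi ⊢
  have h1 : ∫ t in Ioo (0 : ℝ) 1, (2 * t) ^ (a * x + b * y) *
        (t ^ (-(1 / 2) : ℝ) * (1 - t) ^ (-(1 / 2) : ℝ)) ≤
      ∫ t in Ioo (0 : ℝ) 1, (a * ((2 * t) ^ x * (t ^ (-(1 / 2) : ℝ) * (1 - t) ^ (-(1 / 2) : ℝ))) +
        b * ((2 * t) ^ y * (t ^ (-(1 / 2) : ℝ) * (1 - t) ^ (-(1 / 2) : ℝ)))) := by
    refine setIntegral_mono_on hzi ((hxi.const_mul a).add (hyi.const_mul b)) measurableSet_Ioo
      fun t ht => ?_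
    have h2t : 0 < 2 * t := by linarith [ht.1]
    have hc := (convexOn_rpow_left h2t).2 (mem_univ x) (mem_univ y) ha hb hab
    simp only [smul_eq_mul] at hc
    have h1t : 0 < 1 - t := by linarith [ht.2]
    have hw : 0 ≤ t ^ (-(1 / 2) : ℝ) * (1 - t) ^ (-(1 / 2) : ℝ) := by
      have := ht.1
      positivity
    calc (2 * t) ^ (a * x + b * y) * (t ^ (-(1 / 2) : ℝ) * (1 - t) ^ (-(1 / 2) : ℝ))
        ≤ (a * (2 * t) ^ x + b * (2 * t) ^ y) * (t ^ (-(1 / 2) : ℝ) * (1 - t) ^ (-(1 / 2) : ℝ)) :=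
          mul_le_mul_of_nonneg_right hc hw
      _ = _ := by ring
  rw [integral_add (hxi.const_mul a) (hyi.const_mul b), integral_const_mul,
    integral_const_mul] at h1
  have hπ : 0 ≤ π⁻¹ := by positivity
  have h2 := mul_le_mul_of_nonneg_left h1 hπ
  refine h2.trans (le_of_eq ?_)
  ring

theorem gcA_zero : gcA 0 = 1 := by
  unfold gcA
  rw [zero_add, add_zero, Real.Gamma_one, Real.Gamma_one_half_eq, Real.rpow_zero]
  have hπ : 0 < √π := Real.sqrt_pos.2 Real.pi_pos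
  field_simp

theorem gcA_one : gcA 1 = 1 := by
  unfold gcA
  rw [show (1 : ℝ) + 1 / 2 = 1 / 2 + 1 by ring, Real.Gamma_add_one (by norm_num),
    Real.Gamma_one_half_eq, show (1 : ℝ) + 1 = 2 by norm_num, Real.Gamma_two, Real.rpow_one]
  have hπ : 0 < √π := Real.sqrt_pos.2 Real.pi_pos
  field_simp

theorem gcA_half : gcA (1 / 2) = 2 * √2 / π := by
  unfold gcA
  rw [show (1 : ℝ) / 2 + 1 / 2 = 1 by norm_num, Real.Gamma_one, show (1 : ℝ) + 1 / 2 = 1 / 2 + 1 by ring,
    Real.Gamma_add_one (by norm_num), Real.Gamma_one_half_eq, ← Real.sqrt_eq_rpow]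
  have hπ : 0 < √π := Real.sqrt_pos.2 Real.pi_pos
  have hs : √π * √π = π := Real.mul_self_sqrt Real.pi_pos.le
  rw [show √π * (1 / 2 * √π) = π / 2 by rw [mul_left_comm, hs]; ring]
  field_simp

theorem gcA_half_le : gcA (1 / 2) ≤ 0.90034 := by
  rw [gcA_half, div_le_iff₀ Real.pi_pos]
  have h1 : √2 ≤ 1.414214 := by
    rw [Real.sqrt_le_left (by norm_num)]; norm_num
  have h2 := Real.pi_gt_d6
  nlinarith

theorem gc_left {x : ℝ} (h0 : 0 ≤ x) (h1 : x ≤ 1 / 2) : gcA x ≤ 1 - 0.1993 * x := by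
  have h := gcA_convex.2 (show (0 : ℝ) ∈ Ici 0 by simp) (show (1 / 2 : ℝ) ∈ Ici 0 by simp)
    (show 0 ≤ 1 - 2 * x by linarith) (show 0 ≤ 2 * x by linarith) (by ring)
  simp only [smul_eq_mul] at h
  rw [show (1 - 2 * x) * 0 + 2 * x * (1 / 2) = x by ring, gcA_zero] at h
  nlinarith [gcA_half_le, mul_le_mul_of_nonneg_left gcA_half_le h0]

theorem gc_right {x : ℝ} (h0 : 1 / 2 ≤ x) (h1 : x ≤ 1) : gcA x ≤ 1 - 0.1993 * (1 - x) := by
  have h := gcA_convex.2 (show (1 / 2 : ℝ) ∈ Ici 0 by simp) (show (1 : ℝ) ∈ Ici 0 by simp)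
    (show 0 ≤ 2 - 2 * x by linarith) (show 0 ≤ 2 * x - 1 by linarith) (by ring)
  simp only [smul_eq_mul] at h
  rw [show (2 - 2 * x) * (1 / 2) + (2 * x - 1) * 1 = x by ring, gcA_one] at h
  nlinarith [gcA_half_le, mul_le_mul_of_nonneg_left gcA_half_le (show 0 ≤ 1 - x by linarith)]

theorem gc_inv {α : ℝ} (hα : 2 ≤ α) : 0 < 1 / α ∧ 1 / α ≤ 1 / 2 :=
  ⟨by positivity, one_div_le_one_div_of_le (by norm_num) hα⟩

theorem AA_le_left {α : ℝ} (hα : 2 ≤ α) : AA α ≤ 1 - 0.1993 * (1 / α) := by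
  rw [gc_AA_eq (by linarith)]
  exact gc_left (gc_inv hα).1.le (gc_inv hα).2

theorem AA_le_right {α : ℝ} (h1 : 1 < α) (h2 : α ≤ 2) : AA α ≤ 1 - 0.1993 * (1 - 1 / α) := by
  rw [gc_AA_eq (by linarith)]
  refine gc_right (one_div_le_one_div_of_le (by linarith) h2) ?_
  rw [div_le_one (by linarith)]; exact h1.le

theorem AA_lt_one {α : ℝ} (h1 : 1 < α) : AA α < 1 := by
  rcases le_total α 2 with h2 | h2
  · have h3 := AA_le_right h1 h2
    have h4 : 1 / α < 1 := by rw [div_lt_one (by linarith)]; exact h1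
    linarith
  · have h3 := AA_le_left h2
    have h4 := (gc_inv h2).1
    linarith

theorem gc_exp_bound : exp (-2.8) ≤ 0.0623 := by
  have h1 : (2.002 : ℝ) ≤ exp 0.7 := by
    refine le_trans ?_ (Real.sum_le_exp_of_nonneg (by norm_num : (0 : ℝ) ≤ 0.7) 5)
    norm_num [Finset.sum_range_succ, Nat.factorial]
  have h2 : exp 2.8 = exp 0.7 ^ 4 := by
    rw [← Real.exp_nat_mul]; norm_num
  have h3 : (16.06 : ℝ) ≤ exp 2.8 := by
    rw [h2]
    calc (16.06 : ℝ) ≤ 2.002 ^ 4 := by norm_num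
      _ ≤ _ := pow_le_pow_left₀ (by norm_num) h1 4
  rw [Real.exp_neg]
  calc (exp 2.8)⁻¹ ≤ (16.06 : ℝ)⁻¹ := inv_anti₀ (by norm_num) h3
    _ ≤ 0.0623 := by norm_num

theorem gcA_eighth : gcA (1 / 8) ≤ 0.9377 := by
  rw [← gc_AA_eq (by norm_num)]
  unfold AA
  have h1 := DD_ge_big (α := 8) le_rfl
  have h2 : (2 : ℝ) ^ (1 - 1 / 8 : ℝ) ≤ 1.8341 := by
    rw [show (1 - 1 / 8 : ℝ) = 7 * (8 : ℝ)⁻¹ by norm_num, Real.rpow_mul (by norm_num)]
    calc ((2 : ℝ) ^ (7 : ℝ)) ^ (8 : ℝ)⁻¹ ≤ ((1.8341 : ℝ) ^ (8 : ℝ)) ^ (8 : ℝ)⁻¹ := by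
          refine Real.rpow_le_rpow (by positivity) ?_ (by norm_num)
          norm_num
      _ = 1.8341 := by
          rw [← Real.rpow_mul (by norm_num)]; norm_num
  rw [div_le_iff₀ (by linarith)]
  nlinarith

theorem AA_le_mid {α : ℝ} (h2 : 2 ≤ α) (h8 : α ≤ 8) : AA α ≤ 1 - exp (-2.8) := by
  rw [gc_AA_eq (by linarith)]
  have h1 := (gc_inv h2).2
  have h3 : 1 / 8 ≤ 1 / α := one_div_le_one_div_of_le (by linarith) h8
  have h4 := gcA_convex.le_max_of_mem_Icc (x := 1 / 8) (y := 1 / 2) (z := 1 / α) (by simp) (by simp)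
    ⟨h3, h1⟩
  have h5 : gcA (1 / α) ≤ 0.9377 := h4.trans (max_le gcA_eighth (gcA_half_le.trans (by norm_num)))
  linarith [gc_exp_bound]

theorem gc_log_two_bounds : 0.6931 ≤ log 2 ∧ log 2 ≤ 0.6932 :=
  ⟨by linarith [Real.log_two_gt_d9], by linarith [Real.log_two_lt_d9]⟩

theorem gc_DD_pos {α : ℝ} (hα : 0 < α) : 0 < DD α := by
  have h1 : 0 < Gamma (1 + 1 / α) := Gamma_pos_of_pos (by positivity)
  have h2 : 0 < Gamma (1 + 2 / α) := Gamma_pos_of_pos (by positivity)
  unfold DD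
  positivity

theorem DD_ge_left {α : ℝ} (hα : 2 ≤ α) : (DD α)⁻¹ ≤ 0.6367 := by
  have hα0 : 0 < α := by linarith
  obtain ⟨hx0, hx1⟩ := gc_inv hα
  have hA := AA_le_left hα
  have hD : (DD α)⁻¹ = AA α * (2 ^ (1 - 1 / α))⁻¹ := by
    unfold AA
    have := gc_DD_pos hα0
    field_simp
  rw [hD]
  set x : ℝ := 1 / α with hx
  -- bound on `2^(x-1)`
  have h1 : ((2 : ℝ) ^ (1 - x))⁻¹ = (√2)⁻¹ * (2 ^ (1 / 2 - x))⁻¹ := by
    rw [← mul_inv]
    congr 1
    rw [Real.sqrt_eq_rpow, ← Real.rpow_add (by norm_num)]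
    congr 1; ring
  have h2 : 1 + (1 / 2 - x) * 0.6931 ≤ (2 : ℝ) ^ (1 / 2 - x) := by
    rw [Real.rpow_def_of_pos (by norm_num)]
    have := Real.add_one_le_exp (log 2 * (1 / 2 - x))
    have h3 := gc_log_two_bounds.1
    nlinarith
  have h3 : 0 < 1 + (1 / 2 - x) * 0.6931 := by nlinarith
  have h4 : ((2 : ℝ) ^ (1 / 2 - x))⁻¹ ≤ (1 + (1 / 2 - x) * 0.6931)⁻¹ := inv_anti₀ h3 h2
  have h5 : (√2)⁻¹ ≤ 0.707107 := by
    rw [inv_le_comm₀ (by positivity) (by norm_num)]
    refine Real.le_sqrt_of_sq_le ?_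
    norm_num
  have h6 : 0 ≤ AA α := by
    unfold AA
    have := gc_DD_pos hα0
    positivity
  rw [h1]
  have h7 : 0 ≤ 1 - 0.1993 * x := by nlinarith
  calc AA α * ((√2)⁻¹ * (2 ^ (1 / 2 - x))⁻¹)
      ≤ (1 - 0.1993 * x) * (0.707107 * (1 + (1 / 2 - x) * 0.6931)⁻¹) := by
        refine mul_le_mul hA ?_ (by positivity) h7
        exact mul_le_mul h5 h4 (by positivity) (by norm_num)
    _ ≤ 0.6367 := by
        rw [← mul_assoc, ← div_eq_mul_inv, div_le_iff₀ h3]
        nlinarith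

theorem beta_ineq {α : ℝ} (hα : 2 ≤ α) : AA α < 1 - (1 - 2 ^ (-(1 / α))) ^ 2 := by
  obtain ⟨hx0, hx1⟩ := gc_inv hα
  have hA := AA_le_left hα
  set x : ℝ := 1 / α with hx
  obtain ⟨hl1, hl2⟩ := gc_log_two_bounds
  set u : ℝ := log 2 * x with hu
  have hu0 : 0 < u := by positivity
  have hu1 : u ≤ 0.3466 := by nlinarith
  have h1 : (1 - u / 3) ^ 3 ≤ (2 : ℝ) ^ (-x) := by
    have h2 : (2 : ℝ) ^ (-x) = exp (-(u / 3)) ^ 3 := by
      rw [Real.rpow_def_of_pos (by norm_num), ← Real.exp_nat_mul]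
      congr 1
      rw [hu]; push_cast; ring
    rw [h2]
    refine pow_le_pow_left₀ (by linarith) ?_ 3
    have := Real.add_one_le_exp (-(u / 3))
    linarith
  have h2 : (2 : ℝ) ^ (-x) ≤ 1 := Real.rpow_le_one_of_one_le_of_nonpos (by norm_num) (by linarith)
  have h3 : 1 - (2 : ℝ) ^ (-x) ≤ u * (1 - 0.3204 * u) := by
    have : 1 - (1 - u / 3) ^ 3 ≤ u * (1 - 0.3204 * u) := by
      nlinarith [mul_pos hu0 hu0, mul_nonneg (mul_pos hu0 hu0).le (sub_nonneg.2 hu1)]
    linarith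
  have h4 : (1 - (2 : ℝ) ^ (-x)) ^ 2 ≤ (u * (1 - 0.3204 * u)) ^ 2 :=
    pow_le_pow_left₀ (by linarith) h3 2
  have h5 : (u * (1 - 0.3204 * u)) ^ 2 = (log 2) ^ 2 * x * (x * (1 - 0.3204 * u) ^ 2) := by
    rw [hu]; ring
  have h6 : x * (1 - 0.3204 * u) ^ 2 ≤ x * (1 - 0.222 * x) ^ 2 := by
    refine mul_le_mul_of_nonneg_left ?_ hx0.le
    refine pow_le_pow_left₀ (by linarith) ?_ 2
    rw [hu]
    nlinarith
  have h7 : x * (1 - 0.222 * x) ^ 2 ≤ 0.3954 := by
    nlinarith [mul_nonneg hx0.le (sub_nonneg.2 hx1), mul_nonneg (mul_nonneg hx0.le hx0.le) (sub_nonneg.2 hx1)]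
  have h8 : (log 2) ^ 2 ≤ 0.4806 := by nlinarith
  have h9 : (u * (1 - 0.3204 * u)) ^ 2 ≤ 0.4806 * x * 0.3954 := by
    rw [h5]
    have h10 : 0 ≤ x * (1 - 0.3204 * u) ^ 2 := by positivity
    exact mul_le_mul (mul_le_mul_of_nonneg_right h8 hx0.le) (h6.trans h7) h10 (by positivity)
  nlinarith

/-- `log D = (1 - 1/α) log 2 - log A ≥ (log 2 + 0.1993) (1 - 1/α)`. -/
theorem log_DD_ge_right {α : ℝ} (h1 : 1 < α) (h2 : α ≤ 2) :
    (log 2 + 0.1993) * (1 - 1 / α) ≤ log (DD α) := by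
  have hα0 : 0 < α := by linarith
  have hA := AA_le_right h1 h2
  have hD := gc_DD_pos hα0
  have hAp : 0 < AA α := by unfold AA; positivity
  have h3 : DD α = 2 ^ (1 - 1 / α) / AA α := by
    unfold AA
    field_simp
  rw [h3, Real.log_div (by positivity) hAp.ne', Real.log_rpow (by norm_num)]
  have h4 := Real.log_le_sub_one_of_pos hAp
  nlinarith

end LpSec

end

section
/-!
# T08 GammaMu: the crossing point bound `ρ₂ < 3.55`

`x = 1/α ∈ (0,1)`, `ε = 1 - x`, `γ` = Euler's constant. By duplication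
`mu = 2^(2x-1) Γ(x+1/2)/√π`, so `log mu` is a convex function of `x` (`Real.convexOn_log_Gamma`).
Tangents (derivatives of `Γ` at `1/2`, `1`: `Real.hasDerivAt_Gamma_one_half`,
`Real.hasDerivAt_Gamma_one`, functional equation for `3/2`; `ψ(3/2) = 2 - γ - 2 log 2`, `ψ(1) = -γ`):

* at `x = 1` (value `mu = 1`): `log mu ≥ -(2-γ) ε`;
* at `x = 1/2` (value `mu = 1/√π`): `log mu ≥ -(log π)/2 + (2 log 2 - γ)(x - 1/2)`.

`rho2`: `3.55 < (3.55 mu)^(1/x) + log D` in three cases. With `A = log 3.55 - (log π)/2 ≥ log 2`: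
* `α ≥ 2`: `log (3.55 mu) α ≥ 2 A ≥ 2 log 2`;
* `10/7 ≤ α ≤ 2`: `log (3.55 mu) α ≥ 0.7196 + 0.3333 α ≥ 1.195`, `exp 1.195 ≥ 3.3`, `log D ≥ 0.267`;
* `α ≤ 10/7`: `(3.55 mu)^α ≥ 3.55 (1 - 0.1715 (α - 1))`, `log D ≥ 0.6246 (α - 1)`.
-/

open Real MeasureTheory Set

namespace LpSec

theorem gamma_lower : 0.569 ≤ eulerMascheroniConstant := by
  have h1 := eulerMascheroniSeq_lt_eulerMascheroniConstant 63
  have h2 : (4.7282 : ℚ) ≤ harmonic 63 := by
    norm_num [harmonic, Finset.sum_range_succ]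
  have h3 : (4.7282 : ℝ) ≤ (harmonic 63 : ℝ) := by
    have : ((4.7282 : ℚ) : ℝ) ≤ ((harmonic 63 : ℚ) : ℝ) := by exact_mod_cast h2
    norm_num at this ⊢
  have h4 : log (((63 : ℕ) : ℝ) + 1) = 6 * log 2 := by
    rw [show (((63 : ℕ) : ℝ) + 1) = 2 ^ (6 : ℕ) by norm_num, log_pow]
    norm_num
  have h5 := log_two_lt_d9
  unfold eulerMascheroniSeq at h1
  rw [h4] at h1
  norm_num at h3 h5 h1 ⊢
  linarith

/-- Tangents of `log Γ`. -/
theorem log_Gamma_tangent {s₀ s g : ℝ} (h0 : 0 < s₀) (hs : 0 < s) (hd : HasDerivAt Gamma g s₀) :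
    log (Gamma s₀) + g / Gamma s₀ * (s - s₀) ≤ log (Gamma s) := by
  have hconv := convexOn_log_Gamma
  have hd' : HasDerivAt (log ∘ Gamma) (g / Gamma s₀) s₀ := by
    have := hd.log (Gamma_pos_of_pos h0).ne'
    exact this
  rcases lt_trichotomy s s₀ with h | h | h
  · have h1 := hconv.slope_le_of_hasDerivAt (mem_Ioi.2 hs) (mem_Ioi.2 h0) h hd'
    rw [slope_def_field, div_le_iff₀ (by linarith)] at h1
    simp only [Function.comp_apply] at h1
    linarith
  · rw [h]; simp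
  · have h1 := hconv.le_slope_of_hasDerivAt (mem_Ioi.2 h0) (mem_Ioi.2 hs) h hd'
    rw [slope_def_field, le_div_iff₀ (by linarith)] at h1
    simp only [Function.comp_apply] at h1
    linarith

theorem mu_pos_gm {α : ℝ} (hα : 0 < α) : 0 < mu α := by
  unfold mu
  have h1 : 0 < Gamma (1 + 2 / α) := Gamma_pos_of_pos (by positivity)
  have h2 : 0 < Gamma (1 + 1 / α) := Gamma_pos_of_pos (by positivity)
  positivity

theorem log_mu_eq {α : ℝ} (hα : 0 < α) :
    log (mu α) = (2 * (1 / α) - 1) * log 2 + log (Gamma (1 / α + 1 / 2)) - log π / 2 := by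
  set x : ℝ := 1 / α with hx
  have hx0 : 0 < x := by positivity
  have h2x : 2 / α = 2 * x := by rw [hx]; ring
  have h1 : 0 < Gamma (1 + 2 * x) := Gamma_pos_of_pos (by positivity)
  have h2 : 0 < Gamma (1 + x) := Gamma_pos_of_pos (by positivity)
  have h3 : 0 < Gamma (x + 1 / 2) := Gamma_pos_of_pos (by positivity)
  have hdup := Gamma_mul_Gamma_add_half (x + 1 / 2)
  rw [show x + 1 / 2 + 1 / 2 = 1 + x by ring, show 2 * (x + 1 / 2) = 1 + 2 * x by ring] at hdup
  have hlog := congrArg log hdup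
  rw [log_mul h3.ne' h2.ne', log_mul (by positivity) (by positivity),
    log_mul h1.ne' (by positivity), log_rpow (by norm_num), log_sqrt pi_pos.le] at hlog
  unfold mu
  rw [h2x, ← hx, log_div h1.ne' (by positivity), log_mul (by norm_num) h2.ne']
  linarith

theorem log_mu_ge_one {α : ℝ} (hα : 0 < α) :
    -((2 - eulerMascheroniConstant) * (1 - 1 / α)) ≤ log (mu α) := by
  have hd : HasDerivAt Gamma (√π - √π * (eulerMascheroniConstant + 2 * log 2) / 2) (3 / 2) := by
    have h1 : HasDerivAt (fun s : ℝ => s - 1) 1 (3 / 2) := (hasDerivAt_id _).sub_const 1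
    have h2 : HasDerivAt (fun s : ℝ => Gamma (s - 1))
        (-√π * (eulerMascheroniConstant + 2 * log 2)) (3 / 2) := by
      apply HasDerivAt.comp_sub_const
      rw [show (3 / 2 : ℝ) - 1 = 1 / 2 by norm_num]
      exact hasDerivAt_Gamma_one_half
    have h3 := h1.mul h2
    have h4 : (fun s : ℝ => s - 1) * (fun s : ℝ => Gamma (s - 1)) =ᶠ[nhds (3 / 2)] Gamma := by
      filter_upwards [Ioi_mem_nhds (show (1 : ℝ) < 3 / 2 by norm_num)] with s hs
      have hs' : s - 1 ≠ 0 := by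
        have : (1 : ℝ) < s := hs
        linarith
      have := Gamma_add_one hs'
      simp only [Pi.mul_apply]
      rw [← this]
      congr 1
      ring
    refine (h3.congr_of_eventuallyEq h4.symm).congr_deriv ?_
    rw [show (3 / 2 : ℝ) - 1 = 1 / 2 by norm_num, Gamma_one_half_eq]
    ring
  have hG : Gamma (3 / 2) = √π / 2 := by
    have := Gamma_add_one (s := 1 / 2) (by norm_num)
    rw [show (1 / 2 : ℝ) + 1 = 3 / 2 by norm_num, Gamma_one_half_eq] at this
    rw [this]; ring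
  have hx0 : 0 < 1 / α := by positivity
  have ht := log_Gamma_tangent (s := 1 / α + 1 / 2) (by norm_num) (by positivity) hd
  rw [hG] at ht
  have hsq : 0 < √π := sqrt_pos.2 pi_pos
  have h1 : (√π - √π * (eulerMascheroniConstant + 2 * log 2) / 2) / (√π / 2) =
      2 - eulerMascheroniConstant - 2 * log 2 := by
    field_simp
    ring
  rw [h1, log_div hsq.ne' (by norm_num), log_sqrt pi_pos.le] at ht
  rw [log_mu_eq hα]
  linarith

theorem log_mu_ge_half {α : ℝ} (hα : 0 < α) :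
    -(log π / 2) + (2 * log 2 - eulerMascheroniConstant) * (1 / α - 1 / 2) ≤ log (mu α) := by
  have ht := log_Gamma_tangent (s := 1 / α + 1 / 2) (by norm_num) (by positivity)
    hasDerivAt_Gamma_one
  rw [Gamma_one, log_one, div_one] at ht
  rw [log_mu_eq hα]
  linarith

theorem rho2 {α : ℝ} (hα : 1 < α) : 3.55 < (3.55 * mu α) ^ α + log (DD α) := by
  have hα0 : 0 < α := by linarith
  have hmu := mu_pos_gm hα0
  have hγ1 := gamma_lower
  have hγ2 := eulerMascheroniConstant_lt_two_thirds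
  have hl1 := log_two_gt_d9
  have hl2 := log_two_lt_d9
  have hxα : α * (1 / α) = 1 := by field_simp
  have hpos : 0 < 3.55 * mu α := by positivity
  have hpow : (3.55 * mu α) ^ α = exp (log (3.55 * mu α) * α) := rpow_def_of_pos hpos α
  have hlm : log (3.55 * mu α) = log 3.55 + log (mu α) := log_mul (by norm_num) hmu.ne'
  have hA : log 2 ≤ log 3.55 - log π / 2 := by
    have h1 : log (4 * π) ≤ log (3.55 ^ 2) := by
      apply log_le_log (by positivity)
      have := pi_lt_d4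
      norm_num at this ⊢
      linarith
    rw [log_mul (by norm_num) pi_pos.ne', log_pow, show (4 : ℝ) = 2 ^ 2 by norm_num, log_pow] at h1
    push_cast at h1
    linarith
  set γ := eulerMascheroniConstant with hγ
  rw [hpow, hlm]
  rcases le_total 2 α with h2 | h2
  · -- `α ≥ 2`
    have hb := log_mu_ge_half hα0
    rw [← hγ] at hb
    have h1 : 2 * log 2 ≤ (log 3.55 + log (mu α)) * α := by
      have h3 : (log 3.55 - log π / 2 + (2 * log 2 - γ) * (1 / α - 1 / 2)) * α ≤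
          (log 3.55 + log (mu α)) * α := by
        apply mul_le_mul_of_nonneg_right _ hα0.le
        linarith
      have h4 : (log 3.55 - log π / 2 + (2 * log 2 - γ) * (1 / α - 1 / 2)) * α =
          (log 3.55 - log π / 2) * α + (2 * log 2 - γ) * (α * (1 / α)) -
            (2 * log 2 - γ) * α / 2 := by ring
      rw [h4, hxα] at h3
      nlinarith
    have h5 : (4 : ℝ) ≤ exp ((log 3.55 + log (mu α)) * α) := by
      have h6 : exp (2 * log 2) = 4 := by
        rw [two_mul, exp_add, exp_log (by norm_num)]; norm_num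
      rw [← h6]
      exact exp_le_exp.2 h1
    have h7 : 0 ≤ log (DD α) := by
      apply log_nonneg
      have h8 := AA_lt_one hα
      unfold AA at h8
      have hDpos : 0 < DD α := by
        unfold DD
        have h1 : 0 < Gamma (1 + 2 / α) := Gamma_pos_of_pos (by positivity)
        have h2 : 0 < Gamma (1 + 1 / α) := Gamma_pos_of_pos (by positivity)
        positivity
      rw [div_lt_one hDpos] at h8
      have h9 : (1 : ℝ) ≤ 2 ^ (1 - 1 / α) := by
        apply one_le_rpow (by norm_num)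
        rw [sub_nonneg, div_le_one hα0]
        exact hα.le
      linarith
    have h10 : (3.55 : ℝ) < 4 := by norm_num
    linarith
  · have hD := log_DD_ge_right hα h2
    have hx1 : 0 ≤ 1 - 1 / α := by
      rw [sub_nonneg, div_le_one hα0]; exact hα.le
    rcases le_total (10 / 7) α with h7 | h7
    · -- `10/7 ≤ α ≤ 2`
      have hb := log_mu_ge_half hα0
      rw [← hγ] at hb
      have h1 : 1.195 ≤ (log 3.55 + log (mu α)) * α := by
        have h3 : (log 3.55 - log π / 2 + (2 * log 2 - γ) * (1 / α - 1 / 2)) * α ≤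
            (log 3.55 + log (mu α)) * α := by
          apply mul_le_mul_of_nonneg_right _ hα0.le
          linarith
        have h4 : (log 3.55 - log π / 2 + (2 * log 2 - γ) * (1 / α - 1 / 2)) * α =
            (log 3.55 - log π / 2) * α + (2 * log 2 - γ) * (α * (1 / α)) -
              (2 * log 2 - γ) * α / 2 := by ring
        rw [h4, hxα] at h3
        have h5 : 0.6931 * α ≤ (log 3.55 - log π / 2) * α := by
          apply mul_le_mul_of_nonneg_right _ hα0.le
          norm_num at hl1 ⊢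
          linarith
        have h6 : 0.7196 * (1 - α / 2) ≤ (2 * log 2 - γ) * (1 - α / 2) := by
          apply mul_le_mul_of_nonneg_right _ (by linarith)
          norm_num at hl1 ⊢
          linarith
        norm_num at h5 h6 ⊢
        nlinarith
      have h8 : (3.299 : ℝ) ≤ exp ((log 3.55 + log (mu α)) * α) := by
        refine le_trans ?_ (exp_le_exp.2 h1)
        have h9 : exp (1.195 : ℝ) = exp 1 * exp 0.195 := by
          rw [← exp_add]; norm_num
        rw [h9]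
        have h10 := quadratic_le_exp_of_nonneg (x := 0.195) (by norm_num)
        have h11 := exp_one_gt_d9
        have h12 : (1.214 : ℝ) ≤ exp 0.195 := by
          refine le_trans ?_ h10
          norm_num
        calc (3.299 : ℝ) ≤ 2.7182818283 * 1.214 := by norm_num
          _ ≤ exp 1 * exp 0.195 := by
            apply mul_le_mul h11.le h12 (by norm_num) (exp_pos _).le
      have h13 : (0.26 : ℝ) ≤ log (DD α) := by
        refine le_trans ?_ hD
        have h14 : (3 / 10 : ℝ) ≤ 1 - 1 / α := by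
          rw [le_sub_iff_add_le, ← le_sub_iff_add_le', div_le_iff₀ hα0]
          linarith
        have h15 : (0.892 : ℝ) ≤ log 2 + 0.1993 := by
          norm_num at hl1 ⊢
          linarith
        calc (0.26 : ℝ) ≤ 0.892 * (3 / 10) := by norm_num
          _ ≤ (log 2 + 0.1993) * (1 - 1 / α) := by
            apply mul_le_mul h15 h14 (by norm_num)
            exact le_trans (by norm_num) h15
      have h16 : (3.55 : ℝ) < 3.299 + 0.26 := by norm_num
      linarith
    · -- `α ≤ 10/7`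
      have hb := log_mu_ge_one hα0
      rw [← hγ] at hb
      have hlog355 : (1.2595 : ℝ) ≤ log 3.55 := by
        have h1 : log 3.55 = 2 * log 2 + log (3.55 / 4) := by
          rw [log_div (by norm_num) (by norm_num), show (4 : ℝ) = 2 ^ 2 by norm_num, log_pow]
          push_cast
          ring
        have h2 := one_sub_inv_le_log_of_pos (x := 3.55 / 4) (by norm_num)
        have h3 : (-0.12677 : ℝ) ≤ 1 - (3.55 / 4 : ℝ)⁻¹ := by norm_num
        rw [h1]
        norm_num at hl1 h2 h3 ⊢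
        linarith
      have h1 : log 3.55 - 0.1715 * (α - 1) ≤ (log 3.55 + log (mu α)) * α := by
        have h3 : (log 3.55 - (2 - γ) * (1 - 1 / α)) * α ≤ (log 3.55 + log (mu α)) * α := by
          apply mul_le_mul_of_nonneg_right _ hα0.le
          linarith
        have h4 : (log 3.55 - (2 - γ) * (1 - 1 / α)) * α =
            log 3.55 * α - (2 - γ) * (α - α * (1 / α)) := by ring
        rw [h4, hxα] at h3
        have h5 : (-0.1715 : ℝ) ≤ log 3.55 - (2 - γ) := by
          norm_num at hlog355 hγ1 ⊢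
          linarith
        have h6 := mul_le_mul_of_nonneg_right h5 (show 0 ≤ α - 1 by linarith)
        norm_num at h6 ⊢
        nlinarith
      have h8 : 3.55 * (1 - 0.1715 * (α - 1)) ≤ exp ((log 3.55 + log (mu α)) * α) := by
        refine le_trans ?_ (exp_le_exp.2 h1)
        rw [show log 3.55 - 0.1715 * (α - 1) = log 3.55 + -(0.1715 * (α - 1)) by ring, exp_add,
          exp_log (by norm_num)]
        apply mul_le_mul_of_nonneg_left _ (by norm_num)
        have := add_one_le_exp (-(0.1715 * (α - 1)))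
        linarith
      have h9 : 0.62 * (α - 1) ≤ log (DD α) := by
        refine le_trans ?_ hD
        have h15 : (0.892 : ℝ) ≤ log 2 + 0.1993 := by
          norm_num at hl1 ⊢
          linarith
        have h16 : 0.7 * (α - 1) ≤ 1 - 1 / α := by
          have h17 : 1 - 1 / α = (α - 1) / α := by field_simp
          rw [h17, le_div_iff₀ hα0]
          nlinarith
        calc 0.62 * (α - 1) ≤ 0.892 * (0.7 * (α - 1)) := by
              norm_num; nlinarith
          _ ≤ (log 2 + 0.1993) * (1 - 1 / α) := by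
            apply mul_le_mul h15 h16
            · have : 0 ≤ α - 1 := by linarith
              positivity
            · exact le_trans (by norm_num) h15
      norm_num at h8 h9 ⊢
      linarith

end LpSec

end

section
/-!
# T09 Cross: crossing arguments

`E ρ = exp (-ρ)`. `log (F/E) = ρ - (mu ρ)^α - log D =: ψ ρ` is strictly concave on `[0,∞)`,
`ψ 0 = -log D < 0`, `ψ 1 = 1 - mu^α - log D > 1 - 1/α - log D ≥ 0` (`mu_rpow_lt`, `log_DD_add`),
`ψ 3.55 < 0` (`rho2`). So there are `0 < a < 1 < b < 3.55` with `ψ a = ψ b = 0`, `ψ ≥ 0` on `[a,b]`,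
`ψ ≤ 0` outside.
-/

open Real MeasureTheory Set

namespace LpSec

variable {α : ℝ}

theorem cross_le {f g h : ℝ → ℝ} {a b c d : ℝ} (hf : IntegrableOn f (Ioi 0))
    (hg : IntegrableOn g (Ioi 0)) (hf1 : IntegrableOn (fun t => t * f t) (Ioi 0))
    (hg1 : IntegrableOn (fun t => t * g t) (Ioi 0))
    (hfh : IntegrableOn (fun t => f t * h t) (Ioi 0))
    (hgh : IntegrableOn (fun t => g t * h t) (Ioi 0))
    (h0 : ∫ t in Ioi (0 : ℝ), f t = ∫ t in Ioi (0 : ℝ), g t)
    (h1 : ∫ t in Ioi (0 : ℝ), t * f t = ∫ t in Ioi (0 : ℝ), t * g t)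
    (hin : ∀ t, 0 < t → t ∈ Icc a b → g t ≤ f t ∧ h t ≤ c + d * t)
    (hout : ∀ t, 0 < t → t ∉ Icc a b → f t ≤ g t ∧ c + d * t ≤ h t) :
    ∫ t in Ioi (0 : ℝ), f t * h t ≤ ∫ t in Ioi (0 : ℝ), g t * h t := by
  have key : ∫ t in Ioi (0 : ℝ), ((f t * h t - g t * h t)
      - (c * (f t - g t) + d * (t * f t - t * g t))) ≤ 0 := by
    apply setIntegral_nonpos measurableSet_Ioi
    intro t ht
    have e : f t * h t - g t * h t - (c * (f t - g t) + d * (t * f t - t * g t))
        = (f t - g t) * (h t - (c + d * t)) := by ring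
    rw [e]
    by_cases hab : t ∈ Icc a b
    · obtain ⟨h2, h3⟩ := hin t ht hab
      exact mul_nonpos_of_nonneg_of_nonpos (by linarith) (by linarith)
    · obtain ⟨h2, h3⟩ := hout t ht hab
      exact mul_nonpos_of_nonpos_of_nonneg (by linarith) (by linarith)
  have i1 : IntegrableOn (fun t => f t * h t - g t * h t) (Ioi 0) := hfh.sub hgh
  have i2 : IntegrableOn (fun t => f t - g t) (Ioi 0) := hf.sub hg
  have i3 : IntegrableOn (fun t => t * f t - t * g t) (Ioi 0) := hf1.sub hg1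
  have i4 : IntegrableOn (fun t => c * (f t - g t)) (Ioi 0) := i2.const_mul c
  have i5 : IntegrableOn (fun t => d * (t * f t - t * g t)) (Ioi 0) := i3.const_mul d
  have i6 : IntegrableOn (fun t => c * (f t - g t) + d * (t * f t - t * g t)) (Ioi 0) := i4.add i5
  rw [integral_sub i1 i6, integral_sub hfh hgh, integral_add i4 i5,
    integral_const_mul, integral_const_mul, integral_sub hf hg, integral_sub hf1 hg1, h0, h1] at key
  linarith

/-- the sign pattern of a concave function -/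
theorem cross_of_concave {S : Set ℝ} {ψ : ℝ → ℝ} (hψ : ConcaveOn ℝ S ψ) (hc : ContinuousOn ψ S)
    {x1 x0 x2 : ℝ} (h1 : x1 ∈ S) (h2 : x2 ∈ S) (h10 : x1 < x0) (h02 : x0 < x2)
    (n1 : ψ x1 < 0) (n0 : 0 < ψ x0) (n2 : ψ x2 < 0) :
    ∃ a b : ℝ, x1 < a ∧ a < x0 ∧ x0 < b ∧ b < x2 ∧ (∀ ρ ∈ Icc a b, 0 ≤ ψ ρ) ∧
      (∀ ρ ∈ S, ρ ∉ Icc a b → ψ ρ ≤ 0) := by
  have hS : OrdConnected S := hψ.1.ordConnected
  have hsub : Icc x1 x2 ⊆ S := hS.out h1 h2
  have hs1 : Icc x1 x0 ⊆ S := fun t ht => hsub ⟨ht.1, ht.2.trans h02.le⟩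
  have hs2 : Icc x0 x2 ⊆ S := fun t ht => hsub ⟨h10.le.trans ht.1, ht.2⟩
  have hx0 : x0 ∈ S := hs1 ⟨h10.le, le_rfl⟩
  obtain ⟨a, ha, hψa⟩ : (0 : ℝ) ∈ ψ '' Icc x1 x0 :=
    intermediate_value_Icc h10.le (hc.mono hs1) ⟨n1.le, n0.le⟩
  obtain ⟨b, hb, hψb⟩ : (0 : ℝ) ∈ ψ '' Icc x0 x2 :=
    intermediate_value_Icc' h02.le (hc.mono hs2) ⟨n2.le, n0.le⟩
  have ha1 : x1 < a := lt_of_le_of_ne ha.1 (fun h => by rw [h] at n1; linarith)
  have ha2 : a < x0 := lt_of_le_of_ne ha.2 (fun h => by rw [h] at hψa; linarith)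
  have hb1 : x0 < b := lt_of_le_of_ne hb.1 (fun h => by rw [h] at n0; linarith)
  have hb2 : b < x2 := lt_of_le_of_ne hb.2 (fun h => by rw [h] at hψb; linarith)
  have haS : a ∈ S := hs1 ha
  have hbS : b ∈ S := hs2 hb
  refine ⟨a, b, ha1, ha2, hb1, hb2, ?_, ?_⟩
  · intro ρ hρ
    have := hψ.min_le_of_mem_Icc haS hbS hρ
    rw [hψa, hψb, min_self] at this
    exact this
  · intro ρ hρS hρ
    by_contra hpos
    push Not at hpos
    rcases lt_or_ge ρ a with h | h
    · have := hψ.min_le_of_mem_Icc hρS hx0 (show a ∈ Icc ρ x0 from ⟨h.le, ha2.le⟩)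
      rw [hψa] at this
      have h5 := lt_min hpos n0
      linarith
    · have hb' : b < ρ := by
        by_contra h6
        exact hρ ⟨h, not_lt.1 h6⟩
      have := hψ.min_le_of_mem_Icc hx0 hρS (show b ∈ Icc x0 ρ from ⟨hb1.le, hb'.le⟩)
      rw [hψb] at this
      have h5 := lt_min n0 hpos
      linarith

theorem int_pos {d : ℝ → ℝ} (hd : ContinuousOn d (Ioi 0)) (hi : IntegrableOn d (Ioi 0))
    (h0 : ∀ t, 0 < t → 0 ≤ d t) {x : ℝ} (hx : 0 < x) (hdx : 0 < d x) :
    0 < ∫ t in Ioi (0 : ℝ), d t := by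
  have h1 : 0 < ∫ t in x..(x + 1), d t := by
    apply intervalIntegral.integral_pos (by linarith)
    · exact hd.mono (fun t ht => lt_of_lt_of_le hx ht.1)
    · intro t ht
      exact h0 t (hx.trans ht.1)
    · exact ⟨x, ⟨le_rfl, by linarith⟩, hdx⟩
  rw [intervalIntegral.integral_of_le (by linarith)] at h1
  refine h1.trans_le ?_
  apply setIntegral_mono_set hi
  · filter_upwards [self_mem_ae_restrict measurableSet_Ioi] with t ht
    exact h0 t ht
  · have hsub : Ioc x (x + 1) ⊆ Ioi 0 := fun t ht => hx.trans ht.1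
    exact hsub.eventuallyLE

theorem concave_psi (hα : 1 < α) {m : ℝ} (hm : 0 ≤ m) (c : ℝ) :
    ConcaveOn ℝ (Ici 0) (fun ρ : ℝ => ρ - (m * ρ) ^ α - c) := by
  have h1 : ConvexOn ℝ (Ici 0) (fun ρ : ℝ => (m * ρ) ^ α) := by
    have h2 : ConvexOn ℝ (Ici 0) (fun ρ : ℝ => m ^ α * ρ ^ α) :=
      (convexOn_rpow hα.le).smul (rpow_nonneg hm α)
    refine ⟨convex_Ici 0, ?_⟩
    intro x hx y hy s t hs ht hst
    have h3 := h2.2 hx hy hs ht hst
    have e : ∀ z ∈ Ici (0 : ℝ), (m * z) ^ α = m ^ α * z ^ α := fun z hz =>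
      mul_rpow hm hz
    have hz : s • x + t • y ∈ Ici (0 : ℝ) := (convex_Ici 0) hx hy hs ht hst
    simp only at h3 ⊢
    rw [e _ hz, e _ hx, e _ hy]
    exact h3
  exact ((concaveOn_id (convex_Ici 0)).sub h1).sub (convexOn_const c (convex_Ici 0))

theorem cont_psi (hα : 1 < α) (m c : ℝ) : Continuous (fun ρ : ℝ => ρ - (m * ρ) ^ α - c) := by
  have : Continuous (fun ρ : ℝ => (m * ρ) ^ α) :=
    (continuous_const.mul continuous_id).rpow_const (fun x => Or.inr (by linarith))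
  exact (continuous_id.sub this).sub continuous_const

theorem F_eq_exp (hα : 1 < α) (ρ : ℝ) :
    F α ρ = exp (-ρ) * exp (ρ - (mu α * ρ) ^ α - log (DD α)) := by
  have hD := DD_pos (by linarith : 0 < α)
  rw [← exp_add]
  unfold F
  have : (DD α)⁻¹ = exp (-log (DD α)) := by
    rw [exp_neg, exp_log hD]
  rw [this, ← exp_add]
  congr 1
  ring

theorem exists_cross (hα : 1 < α) : ∃ a b : ℝ, 0 < a ∧ a < 1 ∧ 1 < b ∧ b < 3.55 ∧
    (∀ ρ ∈ Icc a b, exp (-ρ) ≤ F α ρ) ∧
    (∀ ρ, 0 < ρ → ρ ∉ Icc a b → F α ρ ≤ exp (-ρ)) := by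
  have hmu := mu_pos (by linarith : 0 < α)
  have hD := one_lt_DD hα
  have hlogD : 0 < log (DD α) := log_pos hD
  have n1 : (fun ρ : ℝ => ρ - (mu α * ρ) ^ α - log (DD α)) 0 < 0 := by
    simp only [mul_zero]
    rw [zero_rpow (by linarith)]
    linarith
  have n0 : 0 < (fun ρ : ℝ => ρ - (mu α * ρ) ^ α - log (DD α)) 1 := by
    simp only [mul_one]
    have h1 := mu_rpow_lt hα
    have h2 := log_DD_add hα
    linarith
  have n2 : (fun ρ : ℝ => ρ - (mu α * ρ) ^ α - log (DD α)) 3.55 < 0 := by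
    have h1 := rho2 hα
    simp only
    rw [mul_comm (mu α) 3.55]
    linarith
  obtain ⟨a, b, h1, h2, h3, h4, h5, h6⟩ := cross_of_concave (concave_psi hα hmu.le (log (DD α)))
    (cont_psi hα (mu α) (log (DD α))).continuousOn (x1 := 0) (x0 := 1) (x2 := 3.55)
    (by simp) (by simp; norm_num) (by norm_num) (by norm_num) n1 n0 n2
  refine ⟨a, b, h1, h2, h3, h4, ?_, ?_⟩
  · intro ρ hρ
    rw [F_eq_exp hα]
    have := one_le_exp (h5 ρ hρ)
    exact le_mul_of_one_le_right (exp_pos _).le this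
  · intro ρ hρ hab
    rw [F_eq_exp hα]
    have := exp_le_one_iff.2 (h6 ρ (mem_Ici.2 hρ.le) hab)
    exact mul_le_of_le_one_right (exp_pos _).le this

theorem int_pow_exp (n : ℕ) : IntegrableOn (fun t : ℝ => t ^ n * exp (-t)) (Ioi 0) ∧
    ∫ t in Ioi (0 : ℝ), t ^ n * exp (-t) = n.factorial := by
  have h1 := Real.GammaIntegral_convergent (s := (n : ℝ) + 1) (by positivity)
  have h2 := Real.Gamma_eq_integral (s := (n : ℝ) + 1) (by positivity)
  rw [Real.Gamma_nat_eq_factorial] at h2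
  have e : ∀ t ∈ Ioi (0 : ℝ), exp (-t) * t ^ ((n : ℝ) + 1 - 1) = t ^ n * exp (-t) := by
    intro t ht
    rw [add_sub_cancel_right, rpow_natCast]
    ring
  constructor
  · exact h1.congr_fun e measurableSet_Ioi
  · rw [h2]
    exact (setIntegral_congr_fun measurableSet_Ioi e).symm

theorem int_exp : IntegrableOn (fun t : ℝ => exp (-t)) (Ioi 0) ∧
    ∫ t in Ioi (0 : ℝ), exp (-t) = 1 := by
  have := int_pow_exp 0
  simpa using this

theorem int_mul_exp : IntegrableOn (fun t : ℝ => t * exp (-t)) (Ioi 0) ∧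
    ∫ t in Ioi (0 : ℝ), t * exp (-t) = 1 := by
  have := int_pow_exp 1
  simpa using this

theorem int_sq_exp : IntegrableOn (fun t : ℝ => t ^ 2 * exp (-t)) (Ioi 0) ∧
    ∫ t in Ioi (0 : ℝ), t ^ 2 * exp (-t) = 2 := by
  have := int_pow_exp 2
  simpa using this

theorem F_mom2_lt (hα : 1 < α) : ∫ ρ in Ioi (0 : ℝ), ρ ^ 2 * F α ρ < 2 := by
  obtain ⟨a, b, ha, ha1, hb1, hb, hin, hout⟩ := exists_cross hα
  have hmu := mu_pos (by linarith : 0 < α)
  -- a point where `F < E`
  obtain ⟨x, hx0, hxa, hx⟩ : ∃ x, 0 < x ∧ x < a ∧ F α x < exp (-x) := by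
    have hD := one_lt_DD hα
    have hlogD : 0 < log (DD α) := log_pos hD
    have hc := (cont_psi hα (mu α) (log (DD α))).tendsto 0
    have h0 : (0 : ℝ) - (mu α * 0) ^ α - log (DD α) < 0 := by
      rw [mul_zero, zero_rpow (by linarith)]
      linarith
    have hev := hc.eventually_lt_const h0
    have hev2 : ∀ᶠ t in nhds (0 : ℝ), t < a := eventually_lt_nhds ha
    obtain ⟨x, hx1, hx2⟩ := ((hev.and hev2).filter_mono nhdsWithin_le_nhds |>.and
      (self_mem_nhdsWithin : Ioi (0 : ℝ) ∈ nhdsWithin 0 (Ioi 0))).exists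
    refine ⟨x, hx2, hx1.2, ?_⟩
    rw [F_eq_exp hα]
    exact mul_lt_of_lt_one_right (exp_pos _) (exp_lt_one_iff.2 hx1.1)
  have iF := F_integrable hα
  have iF1 := F_mul_integrable hα
  have iF2 := F_sq_mul_integrable hα
  obtain ⟨iE, vE⟩ := int_exp
  obtain ⟨iE1, vE1⟩ := int_mul_exp
  obtain ⟨iE2, vE2⟩ := int_sq_exp
  have hint : IntegrableOn (fun t => (t ^ 2 * exp (-t) - t ^ 2 * F α t)
      - (a + b) * (t * exp (-t) - t * F α t) + a * b * (exp (-t) - F α t)) (Ioi 0) :=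
    ((iE2.sub iF2).sub ((iE1.sub iF1).const_mul (a + b))).add ((iE.sub iF).const_mul (a * b))
  have heq : ∀ t, (t ^ 2 * exp (-t) - t ^ 2 * F α t)
      - (a + b) * (t * exp (-t) - t * F α t) + a * b * (exp (-t) - F α t)
      = (exp (-t) - F α t) * ((t - a) * (t - b)) := by
    intro t
    ring
  have hpos := int_pos (d := fun t => (t ^ 2 * exp (-t) - t ^ 2 * F α t)
      - (a + b) * (t * exp (-t) - t * F α t) + a * b * (exp (-t) - F α t)) (by
        have hF : ContinuousOn (F α) (Ioi 0) :=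
          (F_continuousOn (by linarith : 0 < α)).mono Ioi_subset_Ici_self
        have hE : ContinuousOn (fun t : ℝ => exp (-t)) (Ioi 0) :=
          (continuous_exp.comp continuous_neg).continuousOn
        have hid : ContinuousOn (fun t : ℝ => t) (Ioi 0) := continuousOn_id
        exact ((((hid.pow 2).mul hE).sub ((hid.pow 2).mul hF)).sub
          (continuousOn_const.mul ((hid.mul hE).sub (hid.mul hF)))).add
            (continuousOn_const.mul (hE.sub hF))) hint (by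
        intro t ht
        rw [heq]
        by_cases hab : t ∈ Icc a b
        · apply mul_nonneg_of_nonpos_of_nonpos
          · linarith [hin t hab]
          · exact mul_nonpos_of_nonneg_of_nonpos (by linarith [hab.1]) (by linarith [hab.2])
        · apply mul_nonneg
          · linarith [hout t ht hab]
          · rcases lt_or_ge t a with h | h
            · exact mul_nonneg_of_nonpos_of_nonpos (by linarith) (by linarith)
            · have : b < t := by
                by_contra h6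
                exact hab ⟨h, not_lt.1 h6⟩
              exact mul_nonneg (by linarith) (by linarith)) hx0 (by
        rw [heq]
        apply mul_pos (by linarith)
        exact mul_pos_of_neg_of_neg (by linarith) (by linarith))
  have i1 : IntegrableOn (fun t => t ^ 2 * exp (-t) - t ^ 2 * F α t) (Ioi 0) := iE2.sub iF2
  have i2 : IntegrableOn (fun t => t * exp (-t) - t * F α t) (Ioi 0) := iE1.sub iF1
  have i3 : IntegrableOn (fun t => exp (-t) - F α t) (Ioi 0) := iE.sub iF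
  have i4 : IntegrableOn (fun t => (a + b) * (t * exp (-t) - t * F α t)) (Ioi 0) :=
    i2.const_mul (a + b)
  have i5 : IntegrableOn (fun t => a * b * (exp (-t) - F α t)) (Ioi 0) := i3.const_mul (a * b)
  have i6 : IntegrableOn (fun t => t ^ 2 * exp (-t) - t ^ 2 * F α t
      - (a + b) * (t * exp (-t) - t * F α t)) (Ioi 0) := i1.sub i4
  rw [integral_add i6 i5, integral_sub i1 i4,
    integral_const_mul, integral_const_mul, integral_sub iE2 iF2, integral_sub iE1 iF1,
    integral_sub iE iF, vE, vE1, vE2, F_integral hα, F_mean hα] at hpos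
  linarith

/-- the function `log (G t / (t exp (-t)))` -/
noncomputable def chi (α t : ℝ) : ℝ :=
  log (α * mu α ^ α / DD α) + (α - 1) * log t - (mu α * t) ^ α + t

theorem G_eq_exp (hα : 1 < α) {t : ℝ} (ht : 0 < t) :
    G α t = t * exp (-t) * exp (chi α t) := by
  have hD := DD_pos (by linarith : 0 < α)
  have hmu := mu_pos (by linarith : 0 < α)
  have hm : 0 < mu α ^ α := rpow_pos_of_pos hmu α
  have h1 : exp (chi α t) = α * mu α ^ α / DD α * t ^ (α - 1) * exp (-(mu α * t) ^ α) * exp t := by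
    unfold chi
    rw [show log (α * mu α ^ α / DD α) + (α - 1) * log t - (mu α * t) ^ α + t
      = log (α * mu α ^ α / DD α) + log t * (α - 1) + -(mu α * t) ^ α + t by ring,
      exp_add, exp_add, exp_add, exp_log (by positivity), ← rpow_def_of_pos ht]
  have h2 : t * t ^ (α - 1) = t ^ α := by
    rw [← rpow_one_add' ht.le (by linarith)]
    congr 1
    ring
  have h3 : exp (-t) * exp t = 1 := by
    rw [← exp_add]
    simp
  rw [h1]
  unfold G
  rw [mul_rpow hmu.le ht.le, ← h2]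
  calc (DD α)⁻¹ * (α * (mu α ^ α * (t * t ^ (α - 1))) * exp (-(mu α ^ α * (t * t ^ (α - 1)))))
      = (exp (-t) * exp t) * ((DD α)⁻¹ * (α * (mu α ^ α * (t * t ^ (α - 1)))
        * exp (-(mu α ^ α * (t * t ^ (α - 1)))))) := by rw [h3, one_mul]
    _ = _ := by
      field_simp

theorem concave_chi (hα : 1 < α) : ConcaveOn ℝ (Ioi 0) (chi α) := by
  have hmu := mu_pos (by linarith : 0 < α)
  have h1 : ConcaveOn ℝ (Ioi 0) (fun t : ℝ => t - (mu α * t) ^ α
      - (-log (α * mu α ^ α / DD α))) :=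
    (concave_psi hα hmu.le _).subset Ioi_subset_Ici_self (convex_Ioi 0)
  have h2 : ConcaveOn ℝ (Ioi 0) (fun t : ℝ => (α - 1) * log t) := by
    have := (strictConcaveOn_log_Ioi.concaveOn).smul (c := α - 1) (by linarith)
    exact this
  have := h1.add h2
  refine this.congr ?_
  intro t _
  simp only [Pi.add_apply]
  unfold chi
  ring

theorem cont_chi (hα : 1 < α) : ContinuousOn (chi α) (Ioi 0) := by
  have h1 : ContinuousOn (fun t : ℝ => (mu α * t) ^ α) (Ioi 0) :=
    ((continuous_const.mul continuous_id).rpow_const (fun x => Or.inr (by linarith))).continuousOn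
  have h2 : ContinuousOn (fun t : ℝ => (α - 1) * log t) (Ioi 0) :=
    continuousOn_const.mul (continuousOn_log.mono (fun t ht => ne_of_gt ht))
  exact ((continuousOn_const.add h2).sub h1).add continuousOn_id

theorem chi_neg_small (hα : 1 < α) : ∃ x, 0 < x ∧ ∀ t, 0 < t → t ≤ x → chi α t < 0 := by
  set c := log (α * mu α ^ α / DD α) with hc
  have hmu := mu_pos (by linarith : 0 < α)
  refine ⟨exp (-((|c| + 2) / (α - 1))), exp_pos _, ?_⟩
  intro t ht htx
  have h1 : log t ≤ -((|c| + 2) / (α - 1)) := by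
    rw [← log_exp (-((|c| + 2) / (α - 1)))]
    exact log_le_log ht htx
  have h2 : (α - 1) * log t ≤ -(|c| + 2) := by
    have := mul_le_mul_of_nonneg_left h1 (by linarith : 0 ≤ α - 1)
    have h3 : (α - 1) * -((|c| + 2) / (α - 1)) = -(|c| + 2) := by
      have : α - 1 ≠ 0 := by linarith
      field_simp
    linarith
  have h3 : t ≤ 1 := by
    refine htx.trans ?_
    rw [exp_le_one_iff]
    have : 0 ≤ (|c| + 2) / (α - 1) := div_nonneg (by positivity) (by linarith)
    linarith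
  have h4 : 0 ≤ (mu α * t) ^ α := by positivity
  unfold chi
  rw [← hc]
  linarith [le_abs_self c]

theorem chi_neg_large (hα : 1 < α) (y : ℝ) : ∃ x, y < x ∧ 0 < x ∧ chi α x < 0 := by
  set c := log (α * mu α ^ α / DD α) with hc
  have hmu := mu_pos (by linarith : 0 < α)
  have hm : 0 < mu α ^ α := rpow_pos_of_pos hmu α
  have h1 : Filter.Tendsto (fun t : ℝ => mu α ^ α * t ^ (α - 1)) Filter.atTop Filter.atTop :=
    (tendsto_rpow_atTop (by linarith : 0 < α - 1)).const_mul_atTop hm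
  obtain ⟨x, hx1, hx2⟩ := ((h1.eventually_ge_atTop (α + 1)).and
    (Filter.eventually_gt_atTop (max y (|c| + 1)))).exists
  have hy : y < x := (le_max_left _ _).trans_lt hx2
  have hcx : |c| + 1 < x := (le_max_right _ _).trans_lt hx2
  have hx0 : 0 < x := by linarith [abs_nonneg c]
  refine ⟨x, hy, hx0, ?_⟩
  have h2 : (mu α * x) ^ α = mu α ^ α * x ^ (α - 1) * x := by
    rw [mul_rpow hmu.le hx0.le, mul_assoc, mul_comm (x ^ (α - 1)) x,
      ← rpow_one_add' hx0.le (by linarith)]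
    congr 2
    ring
  have h3 : (α + 1) * x ≤ (mu α * x) ^ α := by
    rw [h2]
    exact mul_le_mul_of_nonneg_right hx1 hx0.le
  have h4 : (α - 1) * log x ≤ (α - 1) * x := by
    apply mul_le_mul_of_nonneg_left _ (by linarith)
    have := log_le_sub_one_of_pos hx0
    linarith
  unfold chi
  rw [← hc]
  linarith [le_abs_self c]

theorem G_convex_le (hα : 1 < α) {h : ℝ → ℝ} (hh : ConvexOn ℝ univ h)
    (h1 : IntegrableOn (fun t => G α t * h t) (Ioi 0))
    (h2 : IntegrableOn (fun t => t * exp (-t) * h t) (Ioi 0)) :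
    ∫ t in Ioi (0 : ℝ), G α t * h t ≤ ∫ t in Ioi (0 : ℝ), t * exp (-t) * h t := by
  obtain ⟨x1, hx1, hs⟩ := chi_neg_small hα
  obtain ⟨iE, vE⟩ := int_mul_exp
  obtain ⟨iE2, vE2⟩ := int_sq_exp
  have iG := G_integrable hα
  have iG1 := G_mul_integrable hα
  have hlt : ∀ t, 0 < t → chi α t < 0 → G α t < t * exp (-t) := by
    intro t ht hc
    rw [G_eq_exp hα ht]
    exact mul_lt_of_lt_one_right (by positivity) (exp_lt_one_iff.2 hc)
  have hle : ∀ t, 0 < t → chi α t ≤ 0 → G α t ≤ t * exp (-t) := by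
    intro t ht hc
    rw [G_eq_exp hα ht]
    exact mul_le_of_le_one_right (by positivity) (exp_le_one_iff.2 hc)
  have hge : ∀ t, 0 < t → 0 ≤ chi α t → t * exp (-t) ≤ G α t := by
    intro t ht hc
    rw [G_eq_exp hα ht]
    exact le_mul_of_one_le_right (by positivity) (one_le_exp hc)
  -- a point where `chi` is positive
  obtain ⟨x0, hx0, n0⟩ : ∃ t, 0 < t ∧ 0 < chi α t := by
    by_contra hno
    push Not at hno
    have iD : IntegrableOn (fun t => t * exp (-t) - G α t) (Ioi 0) := iE.sub iG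
    have hGc : ContinuousOn (G α) (Ioi 0) := by
      have h5 : ContinuousOn (fun t : ℝ => (mu α * t) ^ α) (Ioi 0) :=
        ((continuous_const.mul continuous_id).rpow_const (fun x => Or.inr (by linarith))).continuousOn
      unfold G
      exact continuousOn_const.mul ((continuousOn_const.mul h5).mul (h5.neg.rexp))
    have := int_pos (d := fun t => t * exp (-t) - G α t)
      ((continuousOn_id.mul (continuous_exp.comp continuous_neg).continuousOn).sub hGc) iD
      (fun t ht => sub_nonneg.2 (hle t ht (hno t ht))) hx1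
      (sub_pos.2 (hlt x1 hx1 (hs x1 hx1 le_rfl)))
    rw [integral_sub iE iG, vE, G_integral hα] at this
    linarith
  have hx10 : x1 < x0 := by
    by_contra hcon
    have := hs x0 hx0 (not_lt.1 hcon)
    linarith
  obtain ⟨x2, hx02, hx2, n2⟩ := chi_neg_large hα x0
  obtain ⟨a, b, ha, ha0, hb0, hb, hin, hout⟩ := cross_of_concave (concave_chi hα) (cont_chi hα)
    (x1 := x1) (x0 := x0) (x2 := x2) hx1 hx2 hx10 hx02 (hs x1 hx1 le_rfl) n0 n2
  have hab : a < b := ha0.trans hb0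
  -- the secant
  set d : ℝ := (h b - h a) / (b - a) with hd
  have hsec : ∀ t, h a + d * (t - a) = (h a - d * a) + d * t := fun t => by ring
  refine cross_le (a := a) (b := b) (c := h a - d * a) (d := d) iG iE iG1 ?_ h1 h2 ?_ ?_ ?_ ?_
  · refine iE2.congr_fun (fun t _ => ?_) measurableSet_Ioi
    simp only
    ring
  · rw [G_integral hα, vE]
  · rw [G_mean hα, ← vE2]
    refine setIntegral_congr_fun measurableSet_Ioi (fun t _ => ?_)
    ring
  · intro t ht htab
    refine ⟨hge t ht (hin t htab), ?_⟩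
    rw [← hsec]
    rcases eq_or_lt_of_le htab.1 with h3 | h3
    · rw [← h3]
      simp
    · have := hh.secant_mono (mem_univ a) (mem_univ t) (mem_univ b) h3.ne' hab.ne' htab.2
      rw [div_le_iff₀ (by linarith), ← hd] at this
      linarith
  · intro t ht htab
    refine ⟨hle t ht (hout t ht htab), ?_⟩
    rw [← hsec]
    rcases lt_or_ge t a with h3 | h3
    · have := hh.secant_mono (mem_univ a) (mem_univ t) (mem_univ b) h3.ne hab.ne' (by linarith)
      rw [← hd, div_le_iff_of_neg (by linarith)] at this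
      linarith
    · have h4 : b < t := by
        by_contra h6
        exact htab ⟨h3, not_lt.1 h6⟩
      have := hh.secant_mono (mem_univ a) (mem_univ b) (mem_univ t) hab.ne' (by linarith) h4.le
      rw [← hd, le_div_iff₀ (by linarith)] at this
      linarith

end LpSec

end

section
/-!
# T05 PhiC2: smoothness of `Phi` and strong log-concavity near `0`

Differentiate under the integral (`hasDerivAt_integral_of_dominated_loc_of_deriv_le`, dominating
functions `ρ F`, `ρ² F`, `ρ³ F`... only `|K ν| ≤ 1/ν!` is needed): for `s > 0`,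
`Phi' = -∫ ρ F K 1 (s ρ) = -Phi1`, `Phi1' = -∫ ρ² F K 2 (s ρ) = -Phi2`. Both integrals are
continuous on `[0,∞)`, `Phi1 0 = 1`, `Phi2 0 = (1/2) ∫ ρ² F < 1` (`F_mom2_lt`), `|Phi1| ≤ 1`,
`|Phi2| ≤ 1`. `Phi_strong`: `(log Phi)'' = Phi2/Phi - (Phi1/Phi)²` tends to `Phi2 0 - 1 < 0` as
`s → 0+`; take `κ = (1 - Phi2 0)/4` and `s1` small; `concaveOn_of_deriv2_nonpos` on `Icc 0 s1`.
-/

open Real MeasureTheory Set Filter Topology

namespace LpSec

variable {α : ℝ}

noncomputable def Phi1 (α s : ℝ) : ℝ := ∫ ρ in Ioi (0 : ℝ), ρ * F α ρ * K 1 (s * ρ)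

noncomputable def Phi2 (α s : ℝ) : ℝ := ∫ ρ in Ioi (0 : ℝ), ρ ^ 2 * F α ρ * K 2 (s * ρ)

theorem phic2_K_le_one (ν : ℕ) {u : ℝ} (hu : 0 ≤ u) : |K ν u| ≤ 1 := by
  refine le_trans (K_abs_le ν hu) ?_
  rw [div_le_one (by positivity)]
  exact_mod_cast Nat.succ_le_of_lt (Nat.factorial_pos ν)

theorem phic2_meas {w : ℝ → ℝ} (hw : IntegrableOn w (Ioi 0)) (ν : ℕ) (s : ℝ) :
    AEStronglyMeasurable (fun ρ => w ρ * K ν (s * ρ)) (volume.restrict (Ioi (0 : ℝ))) := by
  apply hw.aestronglyMeasurable.mul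
  exact ((K_continuous ν).comp (continuous_const.mul continuous_id)).aestronglyMeasurable

theorem phic2_int {w : ℝ → ℝ} (hw : IntegrableOn w (Ioi 0)) (ν : ℕ) {s : ℝ} (hs : 0 ≤ s) :
    IntegrableOn (fun ρ => w ρ * K ν (s * ρ)) (Ioi 0) := by
  refine Integrable.mono' hw.norm (phic2_meas hw ν s) ?_
  refine (ae_restrict_iff' measurableSet_Ioi).2 (Eventually.of_forall ?_)
  intro ρ hρ
  have hρ' : (0 : ℝ) < ρ := hρ
  rw [norm_mul]
  have := phic2_K_le_one ν (mul_nonneg hs hρ'.le)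
  rw [Real.norm_eq_abs (K ν _)]
  exact mul_le_of_le_one_right (norm_nonneg _) this

theorem phic2_cont {w : ℝ → ℝ} (hw : IntegrableOn w (Ioi 0)) (ν : ℕ) :
    ContinuousOn (fun s => ∫ ρ in Ioi (0 : ℝ), w ρ * K ν (s * ρ)) (Ici 0) := by
  apply continuousOn_of_dominated (bound := fun ρ => ‖w ρ‖)
  · intro s _
    exact phic2_meas hw ν s
  · intro s hs
    refine (ae_restrict_iff' measurableSet_Ioi).2 (Eventually.of_forall ?_)
    intro ρ hρ
    have hρ' : (0 : ℝ) < ρ := hρ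
    have hs' : (0 : ℝ) ≤ s := hs
    rw [norm_mul]
    have := phic2_K_le_one ν (mul_nonneg hs' hρ'.le)
    rw [Real.norm_eq_abs (K ν _)]
    exact mul_le_of_le_one_right (norm_nonneg _) this
  · exact hw.norm
  · refine Eventually.of_forall ?_
    intro ρ
    exact (continuous_const.mul ((K_continuous ν).comp
      (continuous_id.mul continuous_const))).continuousOn

theorem phic2_deriv {w : ℝ → ℝ} (hw : IntegrableOn w (Ioi 0))
    (hw1 : IntegrableOn (fun ρ => ρ * w ρ) (Ioi 0)) (ν : ℕ) {s : ℝ} (hs : 0 < s) :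
    HasDerivAt (fun s => ∫ ρ in Ioi (0 : ℝ), w ρ * K ν (s * ρ))
      (-∫ ρ in Ioi (0 : ℝ), ρ * w ρ * K (ν + 1) (s * ρ)) s := by
  have h := hasDerivAt_integral_of_dominated_loc_of_deriv_le
    (μ := volume.restrict (Ioi (0 : ℝ))) (F := fun s ρ => w ρ * K ν (s * ρ))
    (F' := fun s ρ => -(ρ * w ρ * K (ν + 1) (s * ρ))) (x₀ := s) (s := Ioi 0)
    (bound := fun ρ => ‖ρ * w ρ‖) (Ioi_mem_nhds hs)
    (Eventually.of_forall fun x => phic2_meas hw ν x) (phic2_int hw ν hs.le)
    ((phic2_meas hw1 (ν + 1) s).neg)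
    (by
      refine (ae_restrict_iff' measurableSet_Ioi).2 (Eventually.of_forall ?_)
      intro ρ hρ x hx
      have hρ' : (0 : ℝ) < ρ := hρ
      have hx' : (0 : ℝ) < x := hx
      rw [norm_neg, norm_mul]
      have := phic2_K_le_one (ν + 1) (mul_nonneg hx'.le hρ'.le)
      rw [Real.norm_eq_abs (K (ν + 1) _)]
      exact mul_le_of_le_one_right (norm_nonneg _) this)
    hw1.norm
    (by
      refine Eventually.of_forall ?_
      intro ρ x _
      have h1 : HasDerivAt (fun y : ℝ => y * ρ) ρ x := by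
        simpa using (hasDerivAt_id x).mul_const ρ
      have h2 := (K_hasDerivAt ν (x * ρ)).comp x h1
      have h3 := h2.const_mul (w ρ)
      refine h3.congr_deriv ?_
      ring)
  have h2 := h.2
  rw [integral_neg] at h2
  exact h2

theorem phic2_w1 (hα : 1 < α) : IntegrableOn (fun ρ => ρ * (ρ * F α ρ)) (Ioi 0) := by
  have h := F_sq_mul_integrable hα
  refine h.congr_fun ?_ measurableSet_Ioi
  intro ρ _
  simp only
  ring

theorem Phi_hasDerivAt (hα : 1 < α) {s : ℝ} (hs : 0 < s) :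
    HasDerivAt (Phi α) (-(Phi1 α s)) s :=
  phic2_deriv (F_integrable hα) (F_mul_integrable hα) 0 hs

theorem Phi1_hasDerivAt (hα : 1 < α) {s : ℝ} (hs : 0 < s) :
    HasDerivAt (Phi1 α) (-(Phi2 α s)) s := by
  have h := phic2_deriv (F_mul_integrable hα) (phic2_w1 hα) 1 hs
  refine h.congr_deriv ?_
  congr 1
  unfold Phi2
  apply setIntegral_congr_fun measurableSet_Ioi
  intro ρ _
  simp only
  ring

theorem Phi1_continuousOn (hα : 1 < α) : ContinuousOn (Phi1 α) (Ici 0) :=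
  phic2_cont (F_mul_integrable hα) 1

theorem Phi2_continuousOn (hα : 1 < α) : ContinuousOn (Phi2 α) (Ici 0) :=
  phic2_cont (F_sq_mul_integrable hα) 2

theorem Phi1_zero (hα : 1 < α) : Phi1 α 0 = 1 := by
  unfold Phi1
  rw [← F_mean hα]
  apply setIntegral_congr_fun measurableSet_Ioi
  intro ρ _
  simp only [zero_mul, K_zero]
  simp

theorem phic2_zero (α : ℝ) :
    Phi2 α 0 = (∫ ρ in Ioi (0 : ℝ), ρ ^ 2 * F α ρ) * (1 / 2) := by
  unfold Phi2
  rw [← integral_mul_const]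
  apply setIntegral_congr_fun measurableSet_Ioi
  intro ρ _
  simp only [zero_mul, K_zero]
  norm_num [Nat.factorial]

theorem Phi2_zero_lt (hα : 1 < α) : Phi2 α 0 < 1 := by
  rw [phic2_zero]
  have := F_mom2_lt hα
  linarith

theorem Phi1_abs_le (hα : 1 < α) {s : ℝ} (hs : 0 ≤ s) : |Phi1 α s| ≤ 1 := by
  unfold Phi1
  rw [← F_mean hα, ← Real.norm_eq_abs]
  apply norm_integral_le_of_norm_le (F_mul_integrable hα)
  refine (ae_restrict_iff' measurableSet_Ioi).2 (Eventually.of_forall ?_)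
  intro ρ hρ
  have hρ' : (0 : ℝ) < ρ := hρ
  have hF := F_pos (α := α) (by linarith) ρ
  rw [norm_mul, Real.norm_eq_abs, Real.norm_eq_abs, abs_of_nonneg (by positivity)]
  exact mul_le_of_le_one_right (by positivity) (phic2_K_le_one 1 (mul_nonneg hs hρ'.le))

theorem Phi2_abs_le (hα : 1 < α) {s : ℝ} (hs : 0 ≤ s) : |Phi2 α s| ≤ 1 := by
  have h1 : |Phi2 α s| ≤ (∫ ρ in Ioi (0 : ℝ), ρ ^ 2 * F α ρ) * (1 / 2) := by
    unfold Phi2
    rw [← integral_mul_const, ← Real.norm_eq_abs]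
    apply norm_integral_le_of_norm_le ((F_sq_mul_integrable hα).mul_const _)
    refine (ae_restrict_iff' measurableSet_Ioi).2 (Eventually.of_forall ?_)
    intro ρ hρ
    have hρ' : (0 : ℝ) < ρ := hρ
    have hF := F_pos (α := α) (by linarith) ρ
    rw [norm_mul, Real.norm_eq_abs, Real.norm_eq_abs, abs_of_nonneg (by positivity)]
    apply mul_le_mul_of_nonneg_left _ (by positivity)
    refine le_trans (K_abs_le 2 (mul_nonneg hs hρ'.le)) ?_
    norm_num [Nat.factorial]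
  have := F_mom2_lt hα
  linarith

theorem Phi_strong (hα : 1 < α) : ∃ s1 > 0, ∃ κ > 0, s1 ≤ 1 ∧
    (∀ s ∈ Icc 0 s1, 0 < Phi α s) ∧
    ConcaveOn ℝ (Icc 0 s1) (fun s => log (Phi α s) + κ * s ^ 2) := by
  have hlt := Phi2_zero_lt hα
  obtain ⟨κ, hκ⟩ : ∃ κ, κ = (1 - Phi2 α 0) / 4 := ⟨_, rfl⟩
  have hκ0 : 0 < κ := by rw [hκ]; linarith
  have hc0 : ContinuousWithinAt (Phi α) (Ici 0) 0 := Phi_continuousOn hα 0 self_mem_Ici
  have hc1 : ContinuousWithinAt (Phi1 α) (Ici 0) 0 := Phi1_continuousOn hα 0 self_mem_Ici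
  have hc2 : ContinuousWithinAt (Phi2 α) (Ici 0) 0 := Phi2_continuousOn hα 0 self_mem_Ici
  have hP0 := Phi_zero hα
  have hP1 := Phi1_zero hα
  have hne : Phi α 0 ≠ 0 := by rw [hP0]; norm_num
  have hq : ContinuousWithinAt
      (fun s => Phi2 α s / Phi α s - (Phi1 α s / Phi α s) ^ 2 + 2 * κ) (Ici 0) 0 :=
    ((hc2.div hc0 hne).sub ((hc1.div hc0 hne).pow 2)).add continuousWithinAt_const
  have hq0 : Phi2 α 0 / Phi α 0 - (Phi1 α 0 / Phi α 0) ^ 2 + 2 * κ < 0 := by
    rw [hP0, hP1, hκ]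
    linarith
  have hev : ∀ᶠ s in 𝓝[Ici 0] (0 : ℝ), 0 < Phi α s ∧
      Phi2 α s / Phi α s - (Phi1 α s / Phi α s) ^ 2 + 2 * κ < 0 := by
    apply Filter.Eventually.and
    · exact hc0.eventually (lt_mem_nhds (by rw [hP0]; norm_num))
    · exact hq.eventually (gt_mem_nhds hq0)
  rw [Filter.Eventually, mem_nhdsWithin_iff_exists_mem_nhds_inter] at hev
  obtain ⟨V, hV, hVs⟩ := hev
  rw [Metric.mem_nhds_iff] at hV
  obtain ⟨ε, hε, hball⟩ := hV
  have hs1 : ∀ s ∈ Icc (0 : ℝ) (min (ε / 2) 1), 0 < Phi α s ∧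
      Phi2 α s / Phi α s - (Phi1 α s / Phi α s) ^ 2 + 2 * κ < 0 := by
    intro s hs
    apply hVs
    refine ⟨hball ?_, hs.1⟩
    rw [Metric.mem_ball, Real.dist_eq, sub_zero, abs_of_nonneg hs.1]
    have := le_trans hs.2 (min_le_left _ _)
    linarith
  refine ⟨min (ε / 2) 1, lt_min (by linarith) one_pos, κ, hκ0, min_le_right _ _,
    fun s hs => (hs1 s hs).1, ?_⟩
  have hsub : Icc (0 : ℝ) (min (ε / 2) 1) ⊆ Ici 0 := fun s hs => hs.1
  apply concaveOn_of_hasDerivWithinAt2_nonpos (convex_Icc _ _)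
    (f' := fun s => -(Phi1 α s) / Phi α s + κ * (2 * s))
    (f'' := fun s => Phi2 α s / Phi α s - (Phi1 α s / Phi α s) ^ 2 + 2 * κ)
  · apply ContinuousOn.add
    · apply ContinuousOn.log ((Phi_continuousOn hα).mono hsub)
      intro s hs
      exact (hs1 s hs).1.ne'
    · exact (continuous_const.mul (continuous_id.pow 2)).continuousOn
  · intro s hs
    rw [interior_Icc] at hs
    have hpos := (hs1 s ⟨hs.1.le, hs.2.le⟩).1
    have h1 := (Phi_hasDerivAt hα hs.1).log hpos.ne'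
    have h2 : HasDerivAt (fun s : ℝ => κ * s ^ 2) (κ * (2 * s)) s := by
      have := (hasDerivAt_pow 2 s).const_mul κ
      simpa using this
    exact (h1.add h2).hasDerivWithinAt
  · intro s hs
    rw [interior_Icc] at hs
    have hpos := (hs1 s ⟨hs.1.le, hs.2.le⟩).1
    have h1 := ((Phi1_hasDerivAt hα hs.1).neg).div (Phi_hasDerivAt hα hs.1) hpos.ne'
    have h2 : HasDerivAt (fun s : ℝ => κ * (2 * s)) (κ * (2 * 1)) s :=
      ((hasDerivAt_id s).const_mul 2).const_mul κ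
    have h3 := (h1.add h2).hasDerivWithinAt (s := interior (Icc (0 : ℝ) (min (ε / 2) 1)))
    rw [interior_Icc] at h3
    rw [interior_Icc]
    refine h3.congr_deriv ?_
    simp only [Pi.neg_apply]
    field_simp
  · intro s hs
    rw [interior_Icc] at hs
    exact (hs1 s ⟨hs.1.le, hs.2.le⟩).2.le

end LpSec

end

section
/-!
# T10 MainLobe: `|Phi α s| ≤ exp (-s)` for `0 ≤ s ≤ 1.55`

Let `0 < s ≤ 1.55` (`s = 0` trivial), `a, b` from `exists_cross`, `u₁ = s a ≤ 1.55`,
`u₂ = s b ≤ 5.5025`, and let `ℓ` be the secant of `K 0` through `u₁ < u₂`, slope `m`. Apply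
`cross_le` with `f = F`, `g = exp (-ρ)`, `h ρ = K 0 (s ρ)`; `∫ e^{-ρ} K 0 (s ρ) dρ = e^{-s}` (sum the
series: `∫ e^{-ρ} ρ^m = m!`; this is `exp_K`).
`K 0 ≤ ℓ` on `[u₁,u₂]` and `K 0 ≥ ℓ` on `[0,u₁] ∪ [u₂,6.5]` by convexity (`K0_convex`). On `[6.5,∞)`:
* if `u₂ ≤ 3.6`: `K 0` decreases on `[0,3.6]` (`K1_pos`) so `m < 0`, `ℓ(3.6) ≤ K 0 3.6 ≤ -0.402`, and
  `ℓ ≤ -0.402 ≤ -0.367 ≤ K 0` on `[6.5,∞)`;
* if `3.6 < u₂ ≤ 5.5025`: by convexity `K 0 u₂ ≤ max (K 0 3.6) (K 0 5.5025) ≤ -0.27`;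
  `K 0 u₁ ≥ K 0 1.55 ≥ -0.044` (decreasing on `[0,1.55]`); so
  `m ≤ (-0.27+0.044)/5.5025 ≤ -0.041`; for `v ∈ [6.5,7.5]`:
  `ℓ v ≤ -0.27 - 0.041*0.9975 ≤ -0.31 ≤ -0.278 ≤ K 0 v`; for `v ≥ 7.5`:
  `ℓ v ≤ -0.27 - 0.041*1.9975 ≤ -0.351 ≤ -0.344 ≤ K 0 v`.
Lower bound: `Phi α s = ∫ G K 1 ≥ -0.1324 ≥ -exp (-1.55)` (`K1_lower`).
-/

open Real MeasureTheory Set

namespace LpSec

variable {α : ℝ}

theorem exp_pow_integrable (m : ℕ) :
    IntegrableOn (fun ρ : ℝ => exp (-ρ) * ρ ^ m) (Ioi 0) := by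
  have h := Real.GammaIntegral_convergent (s := (m : ℝ) + 1) (by positivity)
  refine h.congr_fun (fun x hx => ?_) measurableSet_Ioi
  simp

theorem exp_pow_integral (m : ℕ) :
    ∫ ρ in Ioi (0 : ℝ), exp (-ρ) * ρ ^ m = (m.factorial : ℝ) := by
  have h := Real.Gamma_eq_integral (s := (m : ℝ) + 1) (by positivity)
  rw [Real.Gamma_nat_eq_factorial] at h
  rw [h]
  refine setIntegral_congr_fun measurableSet_Ioi (fun x hx => ?_)
  simp

theorem exp_K_aux {s : ℝ} (hs : 0 ≤ s) :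
    HasSum (fun m : ℕ => (-s) ^ m / (m.factorial : ℝ))
      (∫ ρ in Ioi (0 : ℝ), exp (-ρ) * K 0 (s * ρ)) := by
  have key : ∀ (m : ℕ) (ρ : ℝ),
      exp (-ρ) * ((-(s * ρ)) ^ m / ((m.factorial : ℝ) * ((m + 0).factorial : ℝ))) =
        ((-s) ^ m / ((m.factorial : ℝ) * (m.factorial : ℝ))) * (exp (-ρ) * ρ ^ m) := by
    intro m ρ
    rw [show -(s * ρ) = (-s) * ρ by ring, mul_pow, Nat.add_zero]
    ring
  have hint : ∀ m : ℕ, Integrable
      (fun ρ : ℝ => exp (-ρ) * ((-(s * ρ)) ^ m / ((m.factorial : ℝ) * ((m + 0).factorial : ℝ))))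
      (volume.restrict (Ioi 0)) := by
    intro m
    have h : Integrable (fun ρ : ℝ =>
        ((-s) ^ m / ((m.factorial : ℝ) * (m.factorial : ℝ))) * (exp (-ρ) * ρ ^ m))
        (volume.restrict (Ioi 0)) := (exp_pow_integrable m).const_mul _
    exact h.congr (Filter.Eventually.of_forall fun ρ => (key m ρ).symm)
  have hval : ∀ m : ℕ, (∫ ρ in Ioi (0 : ℝ),
      exp (-ρ) * ((-(s * ρ)) ^ m / ((m.factorial : ℝ) * ((m + 0).factorial : ℝ)))) =
        (-s) ^ m / (m.factorial : ℝ) := by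
    intro m
    simp_rw [key m]
    rw [integral_const_mul, exp_pow_integral]
    have : (m.factorial : ℝ) ≠ 0 := by positivity
    field_simp
  have hnorm : ∀ m : ℕ, (∫ ρ in Ioi (0 : ℝ),
      ‖exp (-ρ) * ((-(s * ρ)) ^ m / ((m.factorial : ℝ) * ((m + 0).factorial : ℝ)))‖) =
        s ^ m / (m.factorial : ℝ) := by
    intro m
    have : ∀ ρ ∈ Ioi (0 : ℝ),
        ‖exp (-ρ) * ((-(s * ρ)) ^ m / ((m.factorial : ℝ) * ((m + 0).factorial : ℝ)))‖ =
        (s ^ m / ((m.factorial : ℝ) * (m.factorial : ℝ))) * (exp (-ρ) * ρ ^ m) := by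
      intro ρ hρ
      have hρ' : (0 : ℝ) < ρ := hρ
      rw [key m, norm_mul, norm_mul, norm_div, norm_pow, norm_pow, norm_mul, norm_neg]
      simp only [Real.norm_eq_abs, Nat.abs_cast, abs_of_nonneg hs, abs_of_pos hρ', abs_exp]
    rw [setIntegral_congr_fun measurableSet_Ioi this, integral_const_mul, exp_pow_integral]
    have : (m.factorial : ℝ) ≠ 0 := by positivity
    field_simp
  have hsum : Summable fun m : ℕ => ∫ ρ in Ioi (0 : ℝ),
      ‖exp (-ρ) * ((-(s * ρ)) ^ m / ((m.factorial : ℝ) * ((m + 0).factorial : ℝ)))‖ := by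
    simp_rw [hnorm]
    exact Real.summable_pow_div_factorial s
  have h := hasSum_integral_of_summable_integral_norm hint hsum
  simp_rw [hval] at h
  have e : (∫ ρ in Ioi (0 : ℝ), ∑' m : ℕ,
      exp (-ρ) * ((-(s * ρ)) ^ m / ((m.factorial : ℝ) * ((m + 0).factorial : ℝ)))) =
      ∫ ρ in Ioi (0 : ℝ), exp (-ρ) * K 0 (s * ρ) := by
    congr 1
    ext ρ
    rw [tsum_mul_left]
    rfl
  rw [e] at h
  exact h

theorem exp_K {s : ℝ} (hs : 0 ≤ s) : ∫ ρ in Ioi (0 : ℝ), exp (-ρ) * K 0 (s * ρ) = exp (-s) := by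
  refine (exp_K_aux hs).unique ?_
  have h := NormedSpace.expSeries_div_hasSum_exp (𝔸 := ℝ) (-s)
  rw [Real.exp_eq_exp_ℝ]
  exact h

theorem Phi_lower (hα : 1 < α) {s : ℝ} (hs : 0 ≤ s) : -0.1324 ≤ Phi α s := by
  have h0 : (0 : ℝ) < α := by linarith
  rw [Phi_eq_G hα hs]
  have h1 : ∫ t in Ioi (0 : ℝ), G α t * (-0.1324) = -0.1324 := by
    rw [integral_mul_const, G_integral hα]
    norm_num
  rw [← h1]
  refine setIntegral_mono_on ((G_integrable hα).mul_const _) (G_mul_K_integrable hα hs)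
    measurableSet_Ioi (fun t ht => ?_)
  have ht' : (0 : ℝ) < t := ht
  exact mul_le_mul_of_nonneg_left (K1_lower (by positivity)) (G_nonneg h0 ht')

theorem secant_in {f : ℝ → ℝ} {S : Set ℝ} (hf : ConvexOn ℝ S f) {x y v : ℝ} (hx : x ∈ S)
    (hy : y ∈ S) (hxy : x < y) (h1 : x ≤ v) (h2 : v ≤ y) :
    f v ≤ f x + (f y - f x) / (y - x) * (v - x) := by
  have hd : 0 < y - x := by linarith
  rcases eq_or_lt_of_le h1 with rfl | h1
  · simp
  rcases eq_or_lt_of_le h2 with rfl | h2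
  · rw [div_mul_cancel₀ _ hd.ne']; linarith
  have h := hf.secant_mono_aux1 hx hy h1 h2
  have e : f x + (f y - f x) / (y - x) * (v - x) =
      ((y - v) * f x + (v - x) * f y) / (y - x) := by
    field_simp; ring
  rw [e, le_div_iff₀ hd]
  linarith

theorem secant_left {f : ℝ → ℝ} {S : Set ℝ} (hf : ConvexOn ℝ S f) {x y v : ℝ} (hv : v ∈ S)
    (hy : y ∈ S) (hxy : x < y) (h1 : v ≤ x) :
    f x + (f y - f x) / (y - x) * (v - x) ≤ f v := by
  have hd : 0 < y - x := by linarith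
  rcases eq_or_lt_of_le h1 with rfl | h1
  · simp
  have h := hf.secant_mono_aux1 hv hy h1 hxy
  have e : f x + (f y - f x) / (y - x) * (v - x) =
      ((y - v) * f x + (v - x) * f y) / (y - x) := by
    field_simp; ring
  rw [e, div_le_iff₀ hd]
  linarith

theorem secant_right {f : ℝ → ℝ} {S : Set ℝ} (hf : ConvexOn ℝ S f) {x y v : ℝ} (hx : x ∈ S)
    (hv : v ∈ S) (hxy : x < y) (h1 : y ≤ v) :
    f x + (f y - f x) / (y - x) * (v - x) ≤ f v := by
  have hd : 0 < y - x := by linarith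
  rcases eq_or_lt_of_le h1 with rfl | h1
  · rw [div_mul_cancel₀ _ hd.ne']; linarith
  have h := hf.secant_mono_aux1 hx hv hxy h1
  have e : f x + (f y - f x) / (y - x) * (v - x) =
      ((y - v) * f x + (v - x) * f y) / (y - x) := by
    field_simp; ring
  rw [e, div_le_iff₀ hd]
  linarith

theorem K0_antitone : AntitoneOn (K 0) (Icc 0 (18 / 5)) := by
  refine antitoneOn_of_deriv_nonpos (convex_Icc _ _) (K_continuous 0).continuousOn
    (fun x _ => (K_hasDerivAt 0 x).differentiableAt.differentiableWithinAt) ?_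
  intro x hx
  rw [interior_Icc] at hx
  rw [(K_hasDerivAt 0 x).deriv]
  have := K1_pos hx.1.le hx.2.le
  simp only [zero_add, Left.neg_nonpos_iff]
  exact this.le

/-- The secant of `K 0` through `x < y` lies below `K 0` far away. -/
theorem secant_far {x y v : ℝ} (hx0 : 0 ≤ x) (hx : x ≤ 1.55) (hxy : x < y) (hy : y ≤ 5.5025)
    (hv : 13 / 2 ≤ v) :
    K 0 x + (K 0 y - K 0 x) / (y - x) * (v - x) ≤ K 0 v := by
  have hd : 0 < y - x := by linarith
  rcases le_or_gt y (18 / 5) with h36 | h36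
  · have hyx : K 0 y ≤ K 0 x :=
      K0_antitone ⟨hx0, by linarith⟩ ⟨by linarith, h36⟩ hxy.le
    have hm : (K 0 y - K 0 x) / (y - x) ≤ 0 :=
      div_nonpos_of_nonpos_of_nonneg (by linarith) hd.le
    have h1 := secant_right K0_convex (x := x) (y := y) (v := 18 / 5)
      ⟨hx0, by linarith⟩ ⟨by norm_num, by norm_num⟩ hxy h36
    have h2 := K0_at_b
    have h3 := K0_far hv
    have h4 : (K 0 y - K 0 x) / (y - x) * (v - x) ≤
        (K 0 y - K 0 x) / (y - x) * (18 / 5 - x) :=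
      mul_le_mul_of_nonpos_left (by linarith) hm
    linarith
  · have hy2 : K 0 y ≤ -0.27 := by
      have h := K0_convex.le_max_of_mem_Icc (x := 18 / 5) (y := 5.5025) (z := y)
        ⟨by norm_num, by norm_num⟩ ⟨by norm_num, by norm_num⟩ ⟨h36.le, hy⟩
      have h2 := K0_at_b
      have h3 := K0_at_c
      refine h.trans (max_le ?_ h3)
      linarith
    have hx2 : -0.044 ≤ K 0 x :=
      K0_at_a.trans (K0_antitone ⟨hx0, by linarith⟩ ⟨by norm_num, by norm_num⟩ hx)
    have hm : (K 0 y - K 0 x) / (y - x) ≤ -0.041 := by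
      rw [div_le_iff₀ hd]
      linarith
    have e : K 0 x + (K 0 y - K 0 x) / (y - x) * (v - x) =
        K 0 y + (K 0 y - K 0 x) / (y - x) * (v - y) := by
      field_simp; ring
    rw [e]
    have h4 : (K 0 y - K 0 x) / (y - x) * (v - y) ≤ -0.041 * (v - y) :=
      mul_le_mul_of_nonneg_right hm (by linarith)
    rcases le_or_gt v (15 / 2) with hv2 | hv2
    · have h5 := K0_mid hv hv2
      linarith
    · have h5 := K0_far' hv2.le
      linarith

theorem exp_K_integrable {s : ℝ} (hs : 0 ≤ s) :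
    IntegrableOn (fun ρ : ℝ => exp (-ρ) * K 0 (s * ρ)) (Ioi 0) := by
  have h0 : IntegrableOn (fun ρ : ℝ => exp (-ρ)) (Ioi 0) := by
    simpa using exp_pow_integrable 0
  refine h0.mono' ?_ ?_
  · refine Continuous.aestronglyMeasurable ?_
    exact (by fun_prop : Continuous fun ρ : ℝ => exp (-ρ)).mul
      ((K_continuous 0).comp (by fun_prop))
  · refine (ae_restrict_iff' measurableSet_Ioi).2 (Filter.Eventually.of_forall fun ρ hρ => ?_)
    have hρ' : (0 : ℝ) < ρ := hρ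
    rw [norm_mul, Real.norm_eq_abs, abs_exp, Real.norm_eq_abs]
    have h1 : |K 0 (s * ρ)| ≤ 1 := by
      have := K_abs_le 0 (u := s * ρ) (by positivity)
      simpa using this
    calc exp (-ρ) * |K 0 (s * ρ)| ≤ exp (-ρ) * 1 :=
          mul_le_mul_of_nonneg_left h1 (exp_pos _).le
      _ = exp (-ρ) := mul_one _

theorem main_lobe (hα : 1 < α) {s : ℝ} (h0 : 0 ≤ s) (h1 : s ≤ 1.55) : |Phi α s| ≤ exp (-s) := by
  rcases eq_or_lt_of_le h0 with rfl | hs
  · rw [Phi_zero hα]; simp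
  rw [abs_le]
  constructor
  · have h2 := Phi_lower hα h0
    have h3 : exp (-1.55) ≤ exp (-s) := exp_le_exp.2 (by linarith)
    have h4 : (0.1324 : ℝ) ≤ exp (-1.55) := by
      have h5 : exp 1.55 ≤ exp 2 := exp_le_exp.2 (by norm_num)
      have h6 : exp 2 ≤ 7.3891 := by
        have h7 := Real.exp_one_lt_d9
        have h8 : exp 2 = exp 1 ^ 2 := by rw [← Real.exp_nat_mul]; norm_num
        rw [h8]
        have h9 : (0 : ℝ) < exp 1 := exp_pos 1
        nlinarith
      rw [Real.exp_neg, le_inv_comm₀ (by norm_num) (exp_pos _)]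
      refine (h5.trans h6).trans (by norm_num)
    linarith
  · obtain ⟨a, b, ha0, ha1, hb1, hb2, hin, hout⟩ := exists_cross hα
    set x := s * a with hx
    set y := s * b with hy
    have hx0 : 0 < x := by positivity
    have hxa : x ≤ 1.55 := by
      have : s * a ≤ s * 1 := mul_le_mul_of_nonneg_left ha1.le h0
      linarith
    have hxy : x < y := mul_lt_mul_of_pos_left (by linarith) hs
    have hyb : y ≤ 5.5025 := by
      have : s * b ≤ 1.55 * 3.55 := by
        apply mul_le_mul h1 hb2.le (by linarith) (by norm_num)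
      norm_num at this ⊢
      linarith
    have hxS : x ∈ Icc (0 : ℝ) (13 / 2) := ⟨hx0.le, by linarith⟩
    have hyS : y ∈ Icc (0 : ℝ) (13 / 2) := ⟨by linarith, by linarith⟩
    set m := (K 0 y - K 0 x) / (y - x) with hm
    have hE0 : IntegrableOn (fun ρ : ℝ => exp (-ρ)) (Ioi 0) := by
      simpa using exp_pow_integrable 0
    have hE1 : IntegrableOn (fun ρ : ℝ => ρ * exp (-ρ)) (Ioi 0) := by
      refine (exp_pow_integrable 1).congr_fun (fun ρ _ => ?_) measurableSet_Ioi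
      simp [mul_comm]
    have hI0 : ∫ ρ in Ioi (0 : ℝ), exp (-ρ) = 1 := by
      have := exp_pow_integral 0
      simpa using this
    have hI1 : ∫ ρ in Ioi (0 : ℝ), ρ * exp (-ρ) = 1 := by
      have := exp_pow_integral 1
      simp only [pow_one, Nat.factorial_one, Nat.cast_one] at this
      rw [← this]
      congr 1
      ext ρ
      ring
    have hc := cross_le (f := F α) (g := fun ρ => exp (-ρ)) (h := fun ρ => K 0 (s * ρ))
      (a := a) (b := b) (c := K 0 x - m * x) (d := m * s)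
      (F_integrable hα) hE0 (F_mul_integrable hα) hE1 (F_mul_K_integrable hα h0)
      (exp_K_integrable h0) (by rw [F_integral hα, hI0]) (by rw [F_mean hα, hI1]) ?_ ?_
    · rw [exp_K h0] at hc
      exact hc
    · intro t ht hab
      refine ⟨hin t hab, ?_⟩
      have h2 := secant_in K0_convex hxS hyS hxy (v := s * t)
        (mul_le_mul_of_nonneg_left hab.1 h0) (mul_le_mul_of_nonneg_left hab.2 h0)
      calc K 0 (s * t) ≤ K 0 x + m * (s * t - x) := h2
        _ = K 0 x - m * x + m * s * t := by ring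
    · intro t ht hab
      refine ⟨hout t ht hab, ?_⟩
      have h2 : K 0 x + m * (s * t - x) ≤ K 0 (s * t) := by
        have hst : 0 < s * t := by positivity
        rcases le_or_gt (s * t) (13 / 2) with hv | hv
        · rw [mem_Icc, not_and_or] at hab
          rcases hab with hab | hab
          · push Not at hab
            exact secant_left K0_convex ⟨hst.le, hv⟩ hyS hxy
              (mul_le_mul_of_nonneg_left hab.le h0)
          · push Not at hab
            exact secant_right K0_convex hxS ⟨hst.le, hv⟩ hxy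
              (mul_le_mul_of_nonneg_left hab.le h0)
        · exact secant_far hx0.le hxa hxy hyb hv.le
      calc K 0 x - m * x + m * s * t = K 0 x + m * (s * t - x) := by ring
        _ ≤ K 0 (s * t) := h2

end LpSec

end

section
/-!
# T11 Tail: bounds of `|Phi|` beyond the main lobe

Lower bound in all cases: `Phi ≥ -0.1324` (`Phi_lower`), `0.1324 ≤ exp (-1.95) = 0.14227`.
* `tail_any`: for `1.31 ≤ s ≤ 1.55` use `main_lobe`; for `s ≥ 1.55`:
  `Phi s = ∫ G K 1 (s t) ≤ ∫ G kap (1.55 t) ≤ ∫ t e^{-t} kap (1.55 t) ≤ exp (-1.31)` (`K1_le_kap`,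
  `G_convex_le`, `kap_int`).
* `tail_mid` (`α ≥ 2`): for `1.4 ≤ s ≤ 1.55` `main_lobe`; for `s ≥ 1.55` integrate `test2` against `G`:
  `≤ -0.32 + 2*0.056 + 0.7/D ≤ -0.208 + 0.7*0.6367 = 0.2377 ≤ exp (-1.4) = 0.2466` (`DD_ge_left`).
* `tail_big` (`α ≥ 8`): for `s ≥ 1.45` integrate `test8`:
  `≤ -1.14 + 0.46 + 1.6/1.956 = 0.13800 ≤ exp (-1.95) = 0.14227` (`DD_ge_big`).
-/

open Real MeasureTheory Set

namespace LpSec

variable {α : ℝ}

lemma T11_exp_195 : (0.142 : ℝ) ≤ exp (-1.95) := by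
  have h1 : exp (-1.95 : ℝ) = exp (-1) * exp (-1) * exp 0.05 := by
    rw [← Real.exp_add, ← Real.exp_add]; norm_num
  have h2 : (0.36787944 : ℝ) < exp (-1) := by
    have := Real.exp_neg_one_gt_d9
    linarith
  have h3 : (1.05 : ℝ) ≤ exp 0.05 := by
    have := Real.add_one_le_exp (0.05 : ℝ)
    linarith
  rw [h1]
  have h4 : (0.1353 : ℝ) ≤ exp (-1) * exp (-1) := by nlinarith
  nlinarith

lemma T11_exp_14 : (0.2413 : ℝ) ≤ exp (-1.4) := by
  have h1 : exp (-1.4 : ℝ) = exp (-1) * exp (-0.1) ^ 4 := by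
    rw [← Real.exp_nat_mul, ← Real.exp_add]; norm_num
  have h2 : (0.36787944 : ℝ) < exp (-1) := by
    have := Real.exp_neg_one_gt_d9
    linarith
  have h3 : (0.9 : ℝ) ≤ exp (-0.1) := by
    have := Real.add_one_le_exp (-0.1 : ℝ)
    linarith
  have h4 : (0.9 : ℝ) ^ 4 ≤ exp (-0.1) ^ 4 := pow_le_pow_left₀ (by norm_num) h3 4
  rw [h1]
  have h5 : (0.9 : ℝ) ^ 4 = 0.6561 := by norm_num
  rw [h5] at h4
  nlinarith

lemma T11_kap_nonneg (u : ℝ) : 0 ≤ kap u := by
  unfold kap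
  have h1 := le_max_right (3.16 - u) 0
  have h2 := le_max_right (2.4 - u) 0
  have h3 := le_max_right (1.6 - u) 0
  have h4 := le_max_right (0.8 - u) 0
  linarith

lemma T11_kap_le {u : ℝ} (hu : 0 ≤ u) : kap u ≤ 1 := by
  unfold kap
  have h1 : max (3.16 - u) 0 ≤ 3.16 := max_le (by linarith) (by norm_num)
  have h2 : max (2.4 - u) 0 ≤ 2.4 := max_le (by linarith) (by norm_num)
  have h3 : max (1.6 - u) 0 ≤ 1.6 := max_le (by linarith) (by norm_num)
  have h4 : max (0.8 - u) 0 ≤ 0.8 := max_le (by linarith) (by norm_num)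
  linarith

lemma T11_kap_continuous : Continuous kap := by
  unfold kap
  fun_prop

lemma T11_G_kap (hα : 1 < α) : IntegrableOn (fun t => G α t * kap (1.55 * t)) (Ioi 0) := by
  have h1 : IntegrableOn (fun t => kap (1.55 * t) * G α t) (Ioi 0) := by
    refine Integrable.bdd_mul (c := 1) (G_integrable hα) ?_ ?_
    · exact (T11_kap_continuous.comp (continuous_const.mul continuous_id)).aestronglyMeasurable
    · rw [ae_restrict_iff' measurableSet_Ioi]
      refine Filter.Eventually.of_forall fun t ht => ?_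
      have ht' : (0 : ℝ) < t := ht
      rw [Real.norm_eq_abs, abs_of_nonneg (T11_kap_nonneg _)]
      exact T11_kap_le (by positivity)
  exact h1.congr (Filter.Eventually.of_forall fun t => mul_comm _ _)

lemma T11_comp (h : ConvexOn ℝ univ kap) : ConvexOn ℝ univ (fun t : ℝ => kap (1.55 * t)) := by
  refine ⟨convex_univ, fun x _ y _ a b ha hb hab => ?_⟩
  have := h.2 (mem_univ (1.55 * x)) (mem_univ (1.55 * y)) ha hb hab
  have e : 1.55 * (a • x + b • y) = a • (1.55 * x) + b • (1.55 * y) := by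
    simp only [smul_eq_mul]; ring
  change kap (1.55 * (a • x + b • y)) ≤ a • kap (1.55 * x) + b • kap (1.55 * y)
  rw [e]
  exact this

/-- comparison of `Phi` with the integral of a linear test function `c + d t + e / t` -/
lemma T11_test (hα : 1 < α) {s c d e : ℝ} (hs : 0 ≤ s)
    (h : ∀ t, 0 < t → K 1 (s * t) ≤ c + d * t + e / t) :
    Phi α s ≤ c + d * 2 + e * (DD α)⁻¹ := by
  rw [Phi_eq_G hα hs]
  have hi1 := G_integrable hα
  have hi2 := G_mul_integrable hα
  have hi3 := G_div_integrable hα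
  have hi : IntegrableOn (fun t => c * G α t + d * (t * G α t) + e * (G α t / t)) (Ioi 0) :=
    ((hi1.const_mul c).add (hi2.const_mul d)).add (hi3.const_mul e)
  have h12 : IntegrableOn (fun t => c * G α t + d * (t * G α t)) (Ioi 0) :=
    (hi1.const_mul c).add (hi2.const_mul d)
  calc ∫ t in Ioi (0 : ℝ), G α t * K 1 (s * t)
      ≤ ∫ t in Ioi (0 : ℝ), (c * G α t + d * (t * G α t) + e * (G α t / t)) := by
        refine setIntegral_mono_on (G_mul_K_integrable hα hs) hi measurableSet_Ioi ?_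
        intro t ht
        have ht' : (0 : ℝ) < t := ht
        have hG := G_nonneg (lt_trans one_pos hα) ht'
        calc G α t * K 1 (s * t) ≤ G α t * (c + d * t + e / t) :=
              mul_le_mul_of_nonneg_left (h t ht') hG
          _ = _ := by ring
    _ = c * (∫ t in Ioi (0 : ℝ), G α t) + d * (∫ t in Ioi (0 : ℝ), t * G α t)
          + e * (∫ t in Ioi (0 : ℝ), G α t / t) := by
        rw [integral_add h12 (hi3.const_mul e), integral_add (hi1.const_mul c) (hi2.const_mul d),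
          integral_const_mul, integral_const_mul, integral_const_mul]
    _ = c + d * 2 + e * (DD α)⁻¹ := by
        rw [G_integral hα, G_mean hα, G_inv hα]; ring

theorem tail_any (hα : 1 < α) {s : ℝ} (hs : 1.31 ≤ s) : |Phi α s| ≤ exp (-1.31) := by
  have hs0 : 0 ≤ s := by linarith
  rcases le_total s 1.55 with h | h
  · refine (main_lobe hα hs0 h).trans ?_
    exact Real.exp_le_exp.2 (by linarith)
  · rw [abs_le]
    constructor
    · have h1 := Phi_lower hα hs0
      have h2 := T11_exp_195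
      have h3 : exp (-1.95 : ℝ) ≤ exp (-1.31) := Real.exp_le_exp.2 (by norm_num)
      linarith
    · rw [Phi_eq_G hα hs0]
      calc ∫ t in Ioi (0 : ℝ), G α t * K 1 (s * t)
          ≤ ∫ t in Ioi (0 : ℝ), G α t * kap (1.55 * t) := by
            refine setIntegral_mono_on (G_mul_K_integrable hα hs0) (T11_G_kap hα)
              measurableSet_Ioi ?_
            intro t ht
            have ht' : (0 : ℝ) < t := ht
            refine mul_le_mul_of_nonneg_left ?_ (G_nonneg (lt_trans one_pos hα) ht')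
            exact K1_le_kap (by positivity) (mul_le_mul_of_nonneg_right h ht'.le)
        _ ≤ ∫ t in Ioi (0 : ℝ), t * exp (-t) * kap (1.55 * t) :=
            G_convex_le hα (h := fun t => kap (1.55 * t)) (T11_comp kap_convex) (T11_G_kap hα)
              kap_integrable
        _ ≤ exp (-1.31) := kap_int

theorem tail_mid (hα : 2 ≤ α) {s : ℝ} (hs : 1.4 ≤ s) : |Phi α s| ≤ exp (-1.4) := by
  have hα1 : 1 < α := by linarith
  have hs0 : 0 ≤ s := by linarith
  rcases le_total s 1.55 with h | h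
  · refine (main_lobe hα1 hs0 h).trans ?_
    exact Real.exp_le_exp.2 (by linarith)
  · rw [abs_le]
    constructor
    · have h1 := Phi_lower hα1 hs0
      have h2 := T11_exp_14
      linarith
    · have h1 := T11_test hα1 hs0 (c := -0.32) (d := 0.056) (e := 0.7) (fun t ht => test2 h ht)
      have h2 := DD_ge_left hα
      have h3 := T11_exp_14
      linarith

theorem tail_big (hα : 8 ≤ α) {s : ℝ} (hs : 1.45 ≤ s) : |Phi α s| ≤ exp (-1.95) := by
  have hα1 : 1 < α := by linarith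
  have hs0 : 0 ≤ s := by linarith
  rw [abs_le]
  constructor
  · have h1 := Phi_lower hα1 hs0
    have h2 := T11_exp_195
    linarith
  · have h1 := T11_test hα1 hs0 (c := -1.14) (d := 0.23) (e := 1.6) (fun t ht => test8 hs ht)
    have h2 := DD_ge_big hα
    have h4 : (DD α)⁻¹ ≤ 0.51125 := by
      rw [inv_le_comm₀ (by linarith) (by norm_num)]
      refine le_trans ?_ h2
      norm_num
    have h3 := T11_exp_195
    linarith

end LpSec

end
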