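import Mathlib
import Pool.Agent.Lib.MP_1dbab3_gt.GamX

section
/-!
# C01 Lim: the limit `α → ∞` of the profile

`mu α = Γ(1+2/α)/(2 Γ(1+1/α)) → 1/2`, `DD α → 2`, `AA α = 2^(1-1/α)/DD → 1` (continuity of `Gamma`
at `1`, `tendsto_inv_atTop_zero`).
`F_L1`: dominated convergence: `t^α ≥ t - 1` for `t ≥ 0`, `α ≥ 1`, so
`F α ρ = (DD α)⁻¹ exp (-(mu α ρ)^α) ≤ exp (1 - mu α ρ) ≤ exp (1 - ρ/4)` once `DD ≥ 1`, `mu ≥ 1/4`;
pointwise: `ρ < 2`: `mu α ρ` is eventually `≤ t' < 1`, `(mu α ρ)^α ≤ t'^α → 0`, `F → 1/2`;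
`ρ > 2`: `mu α ρ ≥ t' > 1` eventually, `(mu α ρ)^α ≥ t'^α → ∞`, `F → 0`; `{2}` is a null set.
`F_mom3`: `∫ ρ³ F = Γ(1+4/α)/(4 mu⁴ DD)` (`aux_mom`) `→ 2`, so eventually `≤ 3`.
`Phi2_zero_tendsto`: `Phi2 α 0 = (∫ ρ² F)/2` (`phic2_zero`), `∫ ρ² F = Γ(1+3/α)/(3 mu³ DD) → 4/3`.
`Phi_near`: `K 1 (2 s) = ∫_0^2 (1/2) K 0 (s ρ) dρ` (`K_mul_hasDerivAt`: `(u K 1 u)' = K 0 u`) and
`|K 0| ≤ 1` (`K_abs_le`), so `|Phi α s - K 1 (2 s)| ≤ ∫ |F α ρ - Fl ρ|`.
-/

open Real MeasureTheory Set Filter Topology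

namespace LpSec

variable {α : ℝ}

/-- the limiting density on `(0, ∞)` -/
noncomputable def Fl (ρ : ℝ) : ℝ := if ρ < 2 then 1 / 2 else 0


private lemma c01_gam (c : ℝ) : Tendsto (fun α : ℝ => Gamma (1 + c / α)) atTop (𝓝 1) := by
  have h1 : Tendsto (fun α : ℝ => 1 + c / α) atTop (𝓝 (1 + 0)) :=
    tendsto_const_nhds.add (tendsto_const_nhds.div_atTop tendsto_id)
  rw [add_zero] at h1
  have h2 : ContinuousAt Gamma 1 := by
    refine (differentiableAt_Gamma fun m => ?_).continuousAt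
    have : (0 : ℝ) ≤ m := Nat.cast_nonneg m
    intro h
    linarith
  have h3 := h2.tendsto.comp h1
  rwa [Gamma_one] at h3

theorem mu_tendsto : Tendsto mu atTop (𝓝 (1 / 2)) := by
  have h := (c01_gam 2).div ((c01_gam 1).const_mul 2) (by norm_num)
  simp only [mul_one] at h
  exact h

theorem DD_tendsto : Tendsto DD atTop (𝓝 2) := by
  have h := (((c01_gam 1).pow 2).const_mul 2).div (c01_gam 2) (by norm_num)
  simp only [one_pow, mul_one, div_one] at h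
  exact h

theorem AA_tendsto : Tendsto AA atTop (𝓝 1) := by
  have h1 : Tendsto (fun α : ℝ => 1 - 1 / α) atTop (𝓝 (1 - 0)) :=
    tendsto_const_nhds.sub (tendsto_const_nhds.div_atTop tendsto_id)
  rw [sub_zero] at h1
  have h2 : Tendsto (fun α : ℝ => (2 : ℝ) ^ (1 - 1 / α)) atTop (𝓝 (2 ^ (1 : ℝ))) :=
    (Real.continuous_const_rpow (by norm_num : (2 : ℝ) ≠ 0)).continuousAt.tendsto.comp h1
  rw [rpow_one] at h2
  have h := h2.div DD_tendsto (by norm_num)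
  rw [div_self (by norm_num : (2 : ℝ) ≠ 0)] at h
  exact h

theorem Fl_measurable : Measurable Fl :=
  Measurable.ite measurableSet_Iio measurable_const measurable_const

theorem Fl_integrable : IntegrableOn Fl (Ioi 0) := by
  have e : Fl = (Iio (2 : ℝ)).indicator (fun _ => 1 / 2) := by
    funext ρ
    unfold Fl
    by_cases h : ρ < 2
    · rw [if_pos h, indicator_of_mem (show ρ ∈ Iio (2 : ℝ) from h)]
    · rw [if_neg h, indicator_of_notMem (show ρ ∉ Iio (2 : ℝ) from h)]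
  rw [e, IntegrableOn, integrable_indicator_iff measurableSet_Iio, IntegrableOn,
    Measure.restrict_restrict measurableSet_Iio]
  have hs : Iio (2 : ℝ) ∩ Ioi 0 = Ioo 0 2 := by
    ext x
    simp only [mem_inter_iff, mem_Iio, mem_Ioi, mem_Ioo]
    tauto
  rw [hs]
  exact integrableOn_const (by simp)

private lemma c01_pow {t α : ℝ} (ht : 0 ≤ t) (hα : 1 ≤ α) : t - 1 ≤ t ^ α := by
  rcases le_total t 1 with h | h
  · have := rpow_nonneg ht α
    linarith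
  · have := rpow_le_rpow_of_exponent_le h hα
    rw [rpow_one] at this
    linarith

private lemma c01_ev : ∀ᶠ α : ℝ in atTop, 1 < α ∧ 1 / 4 ≤ mu α ∧ 1 ≤ DD α := by
  have h1 := mu_tendsto.eventually (eventually_ge_nhds (by norm_num : (1 / 4 : ℝ) < 1 / 2))
  have h2 := DD_tendsto.eventually (eventually_ge_nhds (by norm_num : (1 : ℝ) < 2))
  filter_upwards [h1, h2, eventually_gt_atTop 1] with α h1 h2 h3
  exact ⟨h3, h1, h2⟩

private lemma c01_F_le {α : ℝ} (hα : 1 < α) (hmu : 1 / 4 ≤ mu α) (hD : 1 ≤ DD α) {ρ : ℝ}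
    (hρ : 0 < ρ) : F α ρ ≤ exp (1 - ρ / 4) := by
  unfold F
  have h0 : 0 < mu α := by linarith
  have h1 : (DD α)⁻¹ ≤ 1 := inv_le_one_of_one_le₀ hD
  have h2 : exp (-(mu α * ρ) ^ α) ≤ exp (1 - ρ / 4) := by
    apply exp_le_exp.2
    have h3 := c01_pow (mul_nonneg h0.le hρ.le) hα.le
    have h4 : ρ / 4 ≤ mu α * ρ := by nlinarith
    linarith
  calc (DD α)⁻¹ * exp (-(mu α * ρ) ^ α) ≤ 1 * exp (1 - ρ / 4) := by
        apply mul_le_mul h1 h2 (exp_pos _).le (by norm_num)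
    _ = _ := one_mul _

private lemma c01_pt {ρ : ℝ} (hρ : 0 < ρ) (hne : ρ ≠ 2) :
    Tendsto (fun α => F α ρ) atTop (𝓝 (Fl ρ)) := by
  have hm : Tendsto (fun α => mu α * ρ) atTop (𝓝 (1 / 2 * ρ)) := mu_tendsto.mul_const ρ
  have hDi : Tendsto (fun α => (DD α)⁻¹) atTop (𝓝 (2⁻¹)) := DD_tendsto.inv₀ (by norm_num)
  rcases lt_or_gt_of_ne hne with h | h
  · have hF : Fl ρ = 2⁻¹ * exp (-0) := by
      unfold Fl
      rw [if_pos h]
      norm_num
    rw [hF]
    refine hDi.mul ((continuous_exp.tendsto _).comp (Tendsto.neg ?_))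
    have hlt : 1 / 2 * ρ < (1 / 2 * ρ + 1) / 2 := by linarith
    have hev := hm.eventually (eventually_le_nhds hlt)
    have ht := tendsto_rpow_atTop_of_base_lt_one ((1 / 2 * ρ + 1) / 2) (by linarith) (by linarith)
    refine tendsto_of_tendsto_of_tendsto_of_le_of_le' tendsto_const_nhds ht ?_ ?_
    · filter_upwards [c01_ev] with α hα
      exact rpow_nonneg (mul_nonneg (by linarith [hα.2.1]) hρ.le) _
    · filter_upwards [c01_ev, hev] with α hα h1
      exact rpow_le_rpow (mul_nonneg (by linarith [hα.2.1]) hρ.le) h1 (by linarith [hα.1])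
  · have hF : Fl ρ = 2⁻¹ * 0 := by
      unfold Fl
      rw [if_neg (not_lt.2 h.le)]
      norm_num
    rw [hF]
    refine hDi.mul (tendsto_exp_neg_atTop_nhds_zero.comp ?_)
    have hlt : (1 / 2 * ρ + 1) / 2 < 1 / 2 * ρ := by linarith
    have hev := hm.eventually (eventually_ge_nhds hlt)
    have ht := tendsto_rpow_atTop_of_base_gt_one ((1 / 2 * ρ + 1) / 2) (by linarith)
    refine tendsto_atTop_mono' _ ?_ ht
    filter_upwards [hev, eventually_gt_atTop 1] with α h1 h2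
    exact rpow_le_rpow (by linarith) h1 (by linarith)

theorem F_L1 : Tendsto (fun α => ∫ ρ in Ioi (0 : ℝ), |F α ρ - Fl ρ|) atTop (𝓝 0) := by
  suffices key : Tendsto (fun α => ∫ ρ in Ioi (0 : ℝ), |F α ρ - Fl ρ|) atTop
      (𝓝 (∫ _ρ in Ioi (0 : ℝ), (0 : ℝ))) by
    simpa using key
  refine tendsto_integral_filter_of_dominated_convergence (l := (atTop : Filter ℝ))
    (F := fun (α : ℝ) (ρ : ℝ) => |F α ρ - Fl ρ|) (f := fun _ => (0 : ℝ))
    (μ := volume.restrict (Ioi (0 : ℝ)))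
    (fun ρ => exp (1 - ρ / 4) + Fl ρ) ?_ ?_ ?_ ?_
  · filter_upwards [eventually_gt_atTop 1] with α hα
    have h1 : AEStronglyMeasurable (F α) (volume.restrict (Ioi 0)) :=
      (F_integrable hα).aestronglyMeasurable
    have h2 := (h1.sub Fl_integrable.aestronglyMeasurable).norm
    exact h2
  · filter_upwards [c01_ev] with α hα
    refine (ae_restrict_iff' measurableSet_Ioi).2 (Eventually.of_forall fun ρ hρ => ?_)
    have hρ' : 0 < ρ := hρ
    have h1 := c01_F_le hα.1 hα.2.1 hα.2.2 hρ'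
    have h2 := (F_pos (α := α) (by linarith [hα.1]) ρ).le
    have h3 : 0 ≤ Fl ρ := by
      unfold Fl
      split_ifs <;> norm_num
    rw [norm_of_nonneg (abs_nonneg _)]
    refine (abs_sub _ _).trans ?_
    rw [abs_of_nonneg h2, abs_of_nonneg h3]
    linarith
  · refine Integrable.add ?_ Fl_integrable
    have h1 : IntegrableOn (fun ρ : ℝ => exp 1 * exp (-(1 / 4) * ρ)) (Ioi 0) :=
      (exp_neg_integrableOn_Ioi 0 (by norm_num)).const_mul _
    refine h1.congr_fun (fun ρ _ => ?_) measurableSet_Ioi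
    simp only
    rw [← exp_add]
    congr 1
    ring
  · have hae : ∀ᵐ ρ : ℝ ∂(volume.restrict (Ioi 0)), ρ ≠ 2 := by
      refine ae_restrict_of_ae ?_
      exact (measure_eq_zero_iff_ae_notMem.1 (measure_singleton (2 : ℝ))).mono fun x hx => hx
    filter_upwards [hae, ae_restrict_mem measurableSet_Ioi] with ρ hne hρ
    have h1 := (c01_pt hρ hne).sub_const (Fl ρ)
    rw [sub_self] at h1
    have h2 := h1.abs
    rwa [abs_zero] at h2

private lemma c01_moment {α : ℝ} (hα : 0 < α) (k : ℕ) :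
    IntegrableOn (fun ρ => ρ ^ k * F α ρ) (Ioi 0) ∧
    ∫ ρ in Ioi (0 : ℝ), ρ ^ k * F α ρ =
      (DD α)⁻¹ * ((mu α ^ (k + 1))⁻¹ * (Gamma (1 + ((k : ℝ) + 1) / α) / ((k : ℝ) + 1))) := by
  have hmu := mu_pos hα
  have hk : (0 : ℝ) < (k : ℝ) + 1 := by positivity
  have h := aux_mom hα (q := (k : ℝ)) (by linarith)
  have e : ∀ ρ : ℝ, ρ ^ k * F α ρ = (DD α)⁻¹ * (ρ ^ (k : ℝ) * exp (-(mu α * ρ) ^ α)) := by
    intro ρ
    unfold F
    rw [rpow_natCast]
    ring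
  simp only [e]
  refine ⟨h.1.const_mul _, ?_⟩
  rw [integral_const_mul, h.2]
  congr 1
  rw [add_comm 1 (((k : ℝ) + 1) / α), Gamma_add_one (by positivity), rpow_neg hmu.le]
  have e2 : mu α ^ ((k : ℝ) + 1) = mu α ^ (k + 1) := by
    rw [← rpow_natCast]
    norm_num
  rw [e2]
  field_simp

private lemma c01_moment_tendsto (k : ℕ) :
    Tendsto (fun α => ∫ ρ in Ioi (0 : ℝ), ρ ^ k * F α ρ) atTop
      (𝓝 (2⁻¹ * ((((1 : ℝ) / 2) ^ (k + 1))⁻¹ * (1 / ((k : ℝ) + 1))))) := by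
  have h1 : Tendsto (fun α => (DD α)⁻¹ * ((mu α ^ (k + 1))⁻¹ *
      (Gamma (1 + ((k : ℝ) + 1) / α) / ((k : ℝ) + 1)))) atTop
      (𝓝 (2⁻¹ * ((((1 : ℝ) / 2) ^ (k + 1))⁻¹ * (1 / ((k : ℝ) + 1))))) :=
    (DD_tendsto.inv₀ (by norm_num)).mul (((mu_tendsto.pow (k + 1)).inv₀ (by positivity)).mul
      ((c01_gam ((k : ℝ) + 1)).div_const _))
  refine h1.congr' ?_
  filter_upwards [eventually_gt_atTop 0] with α hα
  exact (c01_moment hα k).2.symm

theorem F_mom3 : ∀ᶠ α : ℝ in atTop, IntegrableOn (fun ρ => ρ ^ 3 * F α ρ) (Ioi 0) ∧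
    ∫ ρ in Ioi (0 : ℝ), ρ ^ 3 * F α ρ ≤ 3 := by
  have h := (c01_moment_tendsto 3).eventually (eventually_le_nhds (show
    2⁻¹ * ((((1 : ℝ) / 2) ^ (3 + 1))⁻¹ * (1 / (((3 : ℕ) : ℝ) + 1))) < (3 : ℝ) by norm_num))
  filter_upwards [h, eventually_gt_atTop 0] with α h1 hα
  exact ⟨(c01_moment hα 3).1, h1⟩

theorem Phi2_zero_tendsto : Tendsto (fun α => Phi2 α 0) atTop (𝓝 (2 / 3)) := by
  have h := (c01_moment_tendsto 2).mul_const (1 / 2)
  have e : 2⁻¹ * ((((1 : ℝ) / 2) ^ (2 + 1))⁻¹ * (1 / (((2 : ℕ) : ℝ) + 1))) * (1 / 2) =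
      (2 / 3 : ℝ) := by norm_num
  rw [e] at h
  refine h.congr fun α => ?_
  rw [phic2_zero]

private lemma c01_K1 (s : ℝ) : ∫ ρ in Ioi (0 : ℝ), Fl ρ * K 0 (s * ρ) = K 1 (2 * s) := by
  have h1 : ∫ ρ in Ioi (0 : ℝ), Fl ρ * K 0 (s * ρ) = ∫ ρ in Ioc (0 : ℝ) 2, 1 / 2 * K 0 (s * ρ) := by
    have e : ∀ ρ, ρ ∈ Ioi (0 : ℝ) → Fl ρ * K 0 (s * ρ) =
        (Iio (2 : ℝ)).indicator (fun ρ => 1 / 2 * K 0 (s * ρ)) ρ := by
      intro ρ _
      unfold Fl
      by_cases h : ρ < 2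
      · rw [if_pos h, indicator_of_mem (show ρ ∈ Iio (2 : ℝ) from h)]
      · rw [if_neg h, indicator_of_notMem (show ρ ∉ Iio (2 : ℝ) from h), zero_mul]
    rw [setIntegral_congr_fun measurableSet_Ioi e, integral_indicator measurableSet_Iio,
      Measure.restrict_restrict measurableSet_Iio]
    have hs : Iio (2 : ℝ) ∩ Ioi 0 = Ioo 0 2 := by
      ext x
      simp only [mem_inter_iff, mem_Iio, mem_Ioi, mem_Ioo]
      tauto
    rw [hs, integral_Ioc_eq_integral_Ioo]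
  rw [h1, ← intervalIntegral.integral_of_le (by norm_num : (0 : ℝ) ≤ 2)]
  have hd : ∀ ρ : ℝ, HasDerivAt (fun ρ => 1 / 2 * (ρ * K 1 (s * ρ))) (1 / 2 * K 0 (s * ρ)) ρ := by
    intro ρ
    have h2 : HasDerivAt (fun ρ : ℝ => s * ρ) s ρ := by
      simpa using (hasDerivAt_id ρ).const_mul s
    have h3 := ((hasDerivAt_id ρ).mul ((K_hasDerivAt 1 (s * ρ)).comp ρ h2)).const_mul (1 / 2)
    refine h3.congr_deriv ?_
    have h4 := K_rec 0 (s * ρ)
    simp only [Nat.cast_zero, zero_add, one_mul] at h4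
    simp only [id, Function.comp, one_mul]
    norm_num
    linarith
  rw [intervalIntegral.integral_eq_sub_of_hasDerivAt (fun ρ _ => hd ρ)
    ((continuous_const.mul ((K_continuous 0).comp (continuous_const.mul continuous_id))).intervalIntegrable
      _ _)]
  rw [zero_mul, mul_zero, sub_zero, mul_comm s 2]
  ring

theorem Phi_near {ε : ℝ} (hε : 0 < ε) : ∀ᶠ α : ℝ in atTop, ∀ s : ℝ, 0 ≤ s →
    |Phi α s - K 1 (2 * s)| ≤ ε := by
  filter_upwards [F_L1.eventually (eventually_le_nhds hε), eventually_gt_atTop 1] with α h1 hα s hs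
  refine le_trans ?_ h1
  rw [← c01_K1 s]
  unfold Phi
  have hK : ∀ ρ : ℝ, 0 < ρ → |K 0 (s * ρ)| ≤ 1 := by
    intro ρ hρ
    have := K_abs_le 0 (mul_nonneg hs hρ.le)
    simpa using this
  have hKm : AEStronglyMeasurable (fun ρ => K 0 (s * ρ)) (volume.restrict (Ioi (0 : ℝ))) :=
    ((K_continuous 0).comp (continuous_const.mul continuous_id)).aestronglyMeasurable
  have hi2 : IntegrableOn (fun ρ => Fl ρ * K 0 (s * ρ)) (Ioi 0) := by
    refine Integrable.mono' Fl_integrable.norm (Fl_integrable.aestronglyMeasurable.mul hKm) ?_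
    refine (ae_restrict_iff' measurableSet_Ioi).2 (Eventually.of_forall fun ρ hρ => ?_)
    rw [norm_mul]
    exact mul_le_of_le_one_right (norm_nonneg _) (hK ρ hρ)
  rw [← integral_sub (F_mul_K_integrable hα hs) hi2, ← Real.norm_eq_abs]
  refine norm_integral_le_of_norm_le ?_ ?_
  · exact ((F_integrable hα).sub Fl_integrable).norm
  · refine (ae_restrict_iff' measurableSet_Ioi).2 (Eventually.of_forall fun ρ hρ => ?_)
    rw [← sub_mul, norm_mul]
    exact mul_le_of_le_one_right (norm_nonneg _) (hK ρ hρ)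

end LpSec

end
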