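import Mathlib
import Pool.Agent.Lib.MP_1dbab3_gt.Base

section
/-!
The volume of `EuclideanSpace ℂ (Fin n)` is the product volume.
-/

open Real MeasureTheory Set

namespace LpSec

theorem integral_cexp_gauss : ∫ z : ℂ, exp (-‖z‖ ^ 2) = π := by
  have h := GaussianFourier.integral_rexp_neg_mul_sq_norm (V := ℂ) (b := 1) one_pos
  rw [Complex.finrank_real_complex] at h
  norm_num at h
  exact h

/-- The volume of `EuclideanSpace ℂ (Fin n)` is the product volume. -/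
theorem volume_preserving_ofLp_complex (n : ℕ) :
    MeasurePreserving (WithLp.ofLp : EuclideanSpace ℂ (Fin n) → (Fin n → ℂ)) volume volume := by
  let L : EuclideanSpace ℂ (Fin n) ≃L[ℝ] (Fin n → ℂ) :=
    PiLp.continuousLinearEquiv 2 ℝ (fun _ : Fin n => ℂ)
  have hL : (L : EuclideanSpace ℂ (Fin n) → (Fin n → ℂ)) = WithLp.ofLp := rfl
  have hm : Measurable (WithLp.ofLp : EuclideanSpace ℂ (Fin n) → (Fin n → ℂ)) := by
    rw [← hL]; exact L.continuous.measurable
  refine ⟨hm, ?_⟩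
  rw [← hL]
  have : (Measure.map L (volume : Measure (EuclideanSpace ℂ (Fin n)))).IsAddHaarMeasure :=
    L.isAddHaarMeasure_map volume
  have hsmul := Measure.isAddLeftInvariant_eq_smul
    (Measure.map L (volume : Measure (EuclideanSpace ℂ (Fin n))))
    (volume : Measure (Fin n → ℂ))
  set c := Measure.addHaarScalarFactor
    (Measure.map L (volume : Measure (EuclideanSpace ℂ (Fin n))))
    (volume : Measure (Fin n → ℂ)) with hc
  have h1 : ∫ w : Fin n → ℂ, exp (-∑ i, ‖w i‖ ^ 2)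
      ∂(Measure.map L (volume : Measure (EuclideanSpace ℂ (Fin n)))) = π ^ n := by
    rw [integral_map L.continuous.measurable.aemeasurable
      (by
        refine Continuous.aestronglyMeasurable ?_
        fun_prop)]
    have h := GaussianFourier.integral_rexp_neg_mul_sq_norm (V := EuclideanSpace ℂ (Fin n))
      (b := 1) one_pos
    have hfr : Module.finrank ℝ (EuclideanSpace ℂ (Fin n)) = n * 2 := by
      rw [← Module.finrank_mul_finrank ℝ ℂ (EuclideanSpace ℂ (Fin n)), Complex.finrank_real_complex,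
        finrank_euclideanSpace_fin, mul_comm]
    rw [hfr, div_one] at h
    push_cast at h
    rw [mul_div_assoc, div_self two_ne_zero, mul_one, rpow_natCast] at h
    rw [← h]
    refine integral_congr_ae (Filter.Eventually.of_forall fun z => ?_)
    show exp (-∑ i, ‖z i‖ ^ 2) = exp (-1 * ‖z‖ ^ 2)
    rw [EuclideanSpace.norm_sq_eq, neg_one_mul]
  have h2 : ∫ w : Fin n → ℂ, exp (-∑ i, ‖w i‖ ^ 2) = π ^ n := by
    have h := integral_fintype_prod_volume_eq_prod (𝕜 := ℝ) (ι := Fin n)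
      (fun _ (z : ℂ) => exp (-‖z‖ ^ 2))
    simp only [integral_cexp_gauss, Finset.prod_const, Finset.card_univ, Fintype.card_fin] at h
    rw [← h]
    refine integral_congr_ae (Filter.Eventually.of_forall fun z => ?_)
    simp only
    rw [← exp_sum, Finset.sum_neg_distrib]
  rw [hsmul, integral_smul_nnreal_measure, h2] at h1
  have h3 : (c : ℝ) = 1 := by
    have h4 : (π : ℝ) ^ n ≠ 0 := by positivity
    rw [NNReal.smul_def, smul_eq_mul] at h1
    exact (mul_eq_right₀ h4).mp h1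
  have h5 : c = 1 := by exact_mod_cast h3
  rw [hsmul, h5, one_smul]

end LpSec

end

section
/-!
# T16 Geo1: regularisation of the section integral

`Ieta α η a = ∫_{ℂ^{m+1}} exp (-∑ ‖z i‖^{2α}) (π η)⁻¹ exp (-|⟪a,z⟫|²/η)`. Orthogonal decomposition
`z = v + w a` with `v ∈ hyp a`, `w ∈ ℂ` (`(hyp a).measurableEquivProd`/`orthogonalDecomposition`,
`WithLp.volume_preserving_ofLp`; `(hyp a)ᗮ = ℂ a` is isometric to `ℂ` by `w ↦ w a`), `⟪a,z⟫ = w`:
`Ieta = ∫_ℂ (π η)⁻¹ exp (-|w|²/η) g(w) dw`, `g w = ∫_{hyp a} exp (-∑ |v i + w a i|^{2α}) dv`, `g` is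
bounded and continuous at `0` (dominated convergence: `|v+b|^{2α} ≥ 2^{1-2α}|v|^{2α} - |b|^{2α}` and
`|v_i|^{2α} ≥ |v_i|² - 1`), `g 0 = sec`. Substituting `w = √η w'`: `Ieta = ∫ π⁻¹ exp (-|w'|²)
g(√η w') dw' → g 0`.
`Ieta_le`: integrate first over `z i` (`a i ≠ 0`) bounding `exp (-‖z i‖^{2α}) ≤ 1`:
`∫_ℂ (π η)⁻¹ exp (-|conj (a i) z_i + w|²/η) dz_i = 1/‖a i‖²`, the rest gives `(π Γ(1+1/α))^m`
(`Complex.integral_exp_neg_rpow`).
-/

open Real MeasureTheory Set Filter Topology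

namespace LpSec

variable {α : ℝ} {m n : ℕ}

noncomputable def Ieta (α η : ℝ) {n : ℕ} (a : EuclideanSpace ℂ (Fin n)) : ℝ :=
  ∫ z : EuclideanSpace ℂ (Fin n),
    exp (-∑ i, ‖z i‖ ^ (2 * α)) * ((π * η)⁻¹ * exp (-(‖inner ℂ a z‖ ^ 2 / η)))

/-- The volume on `ℂ^ι` is the product volume. -/
theorem mp_toLp (ι : Type*) [Fintype ι] :
    MeasurePreserving (WithLp.toLp 2 : (ι → ℂ) → EuclideanSpace ℂ ι) := by
  have hmeas : Measurable (WithLp.toLp 2 : (ι → ℂ) → EuclideanSpace ℂ ι) :=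
    (MeasurableEquiv.toLp 2 (ι → ℂ)).measurable
  refine ⟨hmeas, ?_⟩
  set μ : Measure (EuclideanSpace ℂ ι) := Measure.map (WithLp.toLp 2) (volume : Measure (ι → ℂ)) with hμ
  have : μ.IsAddHaarMeasure :=
    ContinuousLinearEquiv.isAddHaarMeasure_map
      (PiLp.continuousLinearEquiv 2 ℝ (fun _ : ι => ℂ)).symm (volume : Measure (ι → ℂ))
  have h1 := Measure.isAddLeftInvariant_eq_smul μ (volume : Measure (EuclideanSpace ℂ ι))
  set c := μ.addHaarScalarFactor (volume : Measure (EuclideanSpace ℂ ι)) with hc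
  have h2 : ∫ z, exp (-1 * ‖z‖ ^ 2) ∂μ = ∏ _i : ι, π := by
    have h0 : ∫ z, exp (-1 * ‖z‖ ^ 2) ∂μ = ∫ x : ι → ℂ, exp (-1 * ‖(WithLp.toLp 2 x : EuclideanSpace ℂ ι)‖ ^ 2) :=
      (MeasurableEquiv.toLp 2 (ι → ℂ)).measurableEmbedding.integral_map _
    rw [h0]
    have : ∀ x : ι → ℂ, exp (-1 * ‖(WithLp.toLp 2 x : EuclideanSpace ℂ ι)‖ ^ 2) = ∏ i, exp (-1 * ‖x i‖ ^ 2) := by
      intro x
      rw [← Real.exp_sum]
      congr 1
      rw [← Finset.mul_sum]
      simp [EuclideanSpace.norm_sq_eq]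
    simp_rw [this]
    rw [integral_fintype_prod_volume_eq_prod (fun (i : ι) (x : ℂ) => exp (-1 * ‖x‖ ^ 2))]
    rw [GaussianFourier.integral_rexp_neg_mul_sq_norm one_pos]
    simp
  have h3 : ∫ z : EuclideanSpace ℂ ι, exp (-1 * ‖z‖ ^ 2) = ∏ _i : ι, π := by
    rw [GaussianFourier.integral_rexp_neg_mul_sq_norm one_pos]
    have : Module.finrank ℝ (EuclideanSpace ℂ ι) = 2 * Fintype.card ι := by
      have := finrank_real_of_complex (EuclideanSpace ℂ ι)
      rw [finrank_euclideanSpace] at this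
      exact this
    rw [this]
    simp
  rw [h1, integral_smul_nnreal_measure, h3] at h2
  have h4 : c = 1 := by
    have hp : (0 : ℝ) < ∏ _i : ι, π := Finset.prod_pos (fun _ _ => pi_pos)
    rw [NNReal.smul_def, smul_eq_mul] at h2
    have := mul_right_cancel₀ hp.ne' (h2.trans (one_mul _).symm)
    exact_mod_cast this
  rw [h1, h4, one_smul]

theorem mem_hyp {a z : EuclideanSpace ℂ (Fin n)} : z ∈ hyp a ↔ inner ℂ a z = 0 := by
  rw [hyp, Submodule.restrictScalars_mem, Submodule.mem_orthogonal_singleton_iff_inner_right]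

theorem norm_dec {a : EuclideanSpace ℂ (Fin n)} (ha : ‖a‖ = 1) (v : hyp a) (w : ℂ) :
    ‖(v : EuclideanSpace ℂ (Fin n)) + w • a‖ ^ 2 = ‖(v : EuclideanSpace ℂ (Fin n))‖ ^ 2 + ‖w‖ ^ 2 := by
  have hv : inner ℂ (v : EuclideanSpace ℂ (Fin n)) a = 0 := by
    have := mem_hyp.1 v.2
    rw [← inner_conj_symm, this, map_zero]
  rw [sq, sq, norm_add_sq_eq_norm_sq_add_norm_sq_of_inner_eq_zero (𝕜 := ℂ), norm_smul, ha, mul_one, sq]
  rw [inner_smul_right, hv, mul_zero]

/-- `(v, w) ↦ v + w a`. -/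
noncomputable def decL (a : EuclideanSpace ℂ (Fin n)) (ha : ‖a‖ = 1) :
    WithLp 2 (hyp a × ℂ) →ₗᵢ[ℝ] EuclideanSpace ℂ (Fin n) where
  toFun p := (p.fst : EuclideanSpace ℂ (Fin n)) + p.snd • a
  map_add' p q := by
    simp [add_smul]; abel
  map_smul' c p := by
    simp only [WithLp.smul_fst, WithLp.smul_snd, Submodule.coe_smul, RingHom.id_apply, smul_add]
    congr 1
    rw [smul_assoc]
  norm_map' p := by
    have h1 := norm_dec ha p.fst p.snd
    have h2 := WithLp.prod_norm_sq_eq_of_L2 p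
    simp only [LinearMap.coe_mk, AddHom.coe_mk]
    have h3 : ‖(p.fst : EuclideanSpace ℂ (Fin n)) + p.snd • a‖ ^ 2 = ‖p‖ ^ 2 := by
      rw [h1, h2]; rfl
    exact (pow_left_inj₀ (norm_nonneg _) (norm_nonneg _) two_ne_zero).1 h3

theorem inner_dec {a : EuclideanSpace ℂ (Fin n)} (ha : ‖a‖ = 1) (v : hyp a) (w : ℂ) :
    inner ℂ a ((v : EuclideanSpace ℂ (Fin n)) + w • a) = w := by
  rw [inner_add_right, mem_hyp.1 v.2, zero_add, inner_smul_right, inner_self_eq_norm_sq_to_K, ha]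
  simp

theorem decL_surj (a : EuclideanSpace ℂ (Fin n)) (ha : ‖a‖ = 1) : Function.Surjective (decL a ha) := by
  intro z
  refine ⟨WithLp.toLp 2 (⟨z - (inner ℂ a z) • a, ?_⟩, inner ℂ a z), ?_⟩
  · rw [mem_hyp, inner_sub_right, inner_smul_right, inner_self_eq_norm_sq_to_K, ha]
    simp
  · show (z - (inner ℂ a z) • a) + (inner ℂ a z) • a = z
    abel

theorem mp_dec (a : EuclideanSpace ℂ (Fin n)) (ha : ‖a‖ = 1) :
    MeasurePreserving (fun p : hyp a × ℂ => (p.1 : EuclideanSpace ℂ (Fin n)) + p.2 • a)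
      volume volume := by
  have h1 := LinearIsometryEquiv.measurePreserving (E := WithLp 2 (hyp a × ℂ)) (F := EuclideanSpace ℂ (Fin n))
    (LinearIsometryEquiv.ofSurjective (decL a ha) (decL_surj a ha))
  have h2 := WithLp.volume_preserving_toLp (hyp a) ℂ
  exact h1.comp h2

theorem me_dec (a : EuclideanSpace ℂ (Fin n)) (ha : ‖a‖ = 1) :
    MeasurableEmbedding (fun p : hyp a × ℂ => (p.1 : EuclideanSpace ℂ (Fin n)) + p.2 • a) := by
  have h1 := (LinearIsometryEquiv.toMeasurableEquiv (E := WithLp 2 (hyp a × ℂ)) (F := EuclideanSpace ℂ (Fin n))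
    (LinearIsometryEquiv.ofSurjective (decL a ha) (decL_surj a ha))).measurableEmbedding
  have h2 := (MeasurableEquiv.toLp 2 (hyp a × ℂ)).measurableEmbedding
  exact h1.comp h2

theorem pow_bound (hα : 1 < α) {x : ℝ} (hx : 0 ≤ x) : x ^ 2 - 1 ≤ x ^ (2 * α) := by
  rcases le_total x 1 with h | h
  · have h1 : x ^ 2 ≤ 1 := by nlinarith
    have h2 : 0 ≤ x ^ (2 * α) := rpow_nonneg hx _
    linarith
  · have h1 : x ^ (2 : ℝ) ≤ x ^ (2 * α) := rpow_le_rpow_of_exponent_le h (by linarith)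
    rw [rpow_two] at h1
    linarith

theorem exp_bound (hα : 1 < α) (z : EuclideanSpace ℂ (Fin n)) :
    exp (-∑ i, ‖z i‖ ^ (2 * α)) ≤ exp n * exp (-1 * ‖z‖ ^ 2) := by
  rw [← exp_add, exp_le_exp, EuclideanSpace.norm_sq_eq]
  have h : ∑ i, (‖z i‖ ^ 2 - 1) ≤ ∑ i, ‖z i‖ ^ (2 * α) :=
    Finset.sum_le_sum fun i _ => pow_bound hα (norm_nonneg _)
  rw [Finset.sum_sub_distrib] at h
  simp at h
  linarith

theorem int_gauss (V : Type*) [NormedAddCommGroup V] [InnerProductSpace ℝ V] [FiniteDimensional ℝ V]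
    [MeasurableSpace V] [BorelSpace V] {b : ℝ} (hb : 0 < b) :
    Integrable (fun v : V => exp (-b * ‖v‖ ^ 2)) := by
  have h := GaussianFourier.integrable_cexp_neg_mul_sq_norm_add (b := (b : ℂ)) (V := V) (by simpa using hb) 0 0
  have h2 := h.re
  refine h2.congr (Eventually.of_forall fun v => ?_)
  simp only [zero_mul, add_zero]
  have : (-(b : ℂ) * (‖v‖ : ℂ) ^ 2) = ((-b * ‖v‖ ^ 2 : ℝ) : ℂ) := by push_cast; ring
  rw [this]
  exact Complex.exp_ofReal_re _

theorem continuous_E (hα : 1 < α) : Continuous (fun z : EuclideanSpace ℂ (Fin n) => exp (-∑ i, ‖z i‖ ^ (2 * α))) := by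
  refine continuous_exp.comp (continuous_neg.comp (continuous_finsetSum _ fun i _ => ?_))
  refine Continuous.rpow_const (by fun_prop) fun _ => Or.inr (by linarith)

theorem integrable_E_hyp (hα : 1 < α) (a : EuclideanSpace ℂ (Fin n)) :
    Integrable (fun z : hyp a => exp (-∑ i, ‖(z : EuclideanSpace ℂ (Fin n)) i‖ ^ (2 * α))) := by
  refine Integrable.mono' ((int_gauss (hyp a) one_pos).const_mul (exp n)) ?_ ?_
  · exact ((continuous_E hα).comp continuous_subtype_val).aestronglyMeasurable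
  · refine Eventually.of_forall fun v => ?_
    rw [norm_of_nonneg (exp_pos _).le]
    exact exp_bound hα _

theorem sec_ne_top (hα : 1 < α) (a : EuclideanSpace ℂ (Fin (m + 1))) : sec α a ≠ ⊤ := by
  exact ((integrable_E_hyp hα a).lintegral_lt_top).ne

theorem sec_toReal (hα : 1 < α) (a : EuclideanSpace ℂ (Fin n)) :
    (sec α a).toReal = ∫ z : hyp a, exp (-∑ i, ‖(z : EuclideanSpace ℂ (Fin n)) i‖ ^ (2 * α)) := by
  rw [integral_eq_lintegral_of_nonneg_ae (Eventually.of_forall fun _ => (exp_pos _).le)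
    (integrable_E_hyp hα a).aestronglyMeasurable]
  rfl

/-- the integrand after the orthogonal decomposition -/
theorem integrable_h (hα : 1 < α) (a : EuclideanSpace ℂ (Fin n)) (ha : ‖a‖ = 1) (t c b : ℝ) (hb : 0 < b) (hc : 0 ≤ c) :
    Integrable (fun p : hyp a × ℂ => exp (-∑ i, ‖((p.1 : EuclideanSpace ℂ (Fin n)) + ((t : ℂ) * p.2) • a) i‖ ^ (2 * α)) *
      (c * exp (-b * ‖p.2‖ ^ 2))) := by
  have h1 := (((int_gauss (hyp a) one_pos).const_mul (exp n)).mul_prod ((int_gauss ℂ hb).const_mul c))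
  refine Integrable.mono' h1 ?_ ?_
  · refine Continuous.aestronglyMeasurable ?_
    refine Continuous.mul ((continuous_E hα).comp ?_) (by fun_prop)
    fun_prop
  · refine Eventually.of_forall fun p => ?_
    rw [norm_of_nonneg (by positivity)]
    have h2 := exp_bound hα ((p.1 : EuclideanSpace ℂ (Fin n)) + ((t : ℂ) * p.2) • a)
    have h3 : exp (-1 * ‖(p.1 : EuclideanSpace ℂ (Fin n)) + ((t : ℂ) * p.2) • a‖ ^ 2) ≤ exp (-1 * ‖p.1‖ ^ 2) := by
      rw [exp_le_exp, norm_dec ha]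
      have : 0 ≤ ‖(t : ℂ) * p.2‖ ^ 2 := by positivity
      have h4 : ‖(p.1 : EuclideanSpace ℂ (Fin n))‖ = ‖p.1‖ := rfl
      rw [h4]; linarith
    have h5 : 0 ≤ c * exp (-b * ‖p.2‖ ^ 2) := by positivity
    refine mul_le_mul_of_nonneg_right (h2.trans ?_) h5
    exact mul_le_mul_of_nonneg_left h3 (exp_pos _).le

theorem Ieta_step1 (a : EuclideanSpace ℂ (Fin n)) (ha : ‖a‖ = 1) {η : ℝ} (hη : 0 < η) :
    Ieta α η a = ∫ p : hyp a × ℂ, exp (-∑ i, ‖((p.1 : EuclideanSpace ℂ (Fin n)) + (((1 : ℝ) : ℂ) * p.2) • a) i‖ ^ (2 * α)) *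
      ((π * η)⁻¹ * exp (-η⁻¹ * ‖p.2‖ ^ 2)) := by
  rw [Ieta, ← (mp_dec a ha).integral_comp (me_dec a ha)]
  refine integral_congr_ae (Eventually.of_forall fun p => ?_)
  simp only [inner_dec ha]
  simp only [Complex.ofReal_one, one_mul]
  congr 3
  field_simp

theorem Ieta_step2 (hα : 1 < α) (a : EuclideanSpace ℂ (Fin n)) (ha : ‖a‖ = 1) {η : ℝ} (hη : 0 < η) :
    Ieta α η a = ∫ p : hyp a × ℂ, exp (-∑ i, ‖((p.1 : EuclideanSpace ℂ (Fin n)) + ((√η : ℂ) * p.2) • a) i‖ ^ (2 * α)) *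
      (π⁻¹ * exp (-1 * ‖p.2‖ ^ 2)) := by
  rw [Ieta_step1 a ha hη]
  rw [Measure.volume_eq_prod, integral_prod _ (integrable_h hα a ha 1 _ _ (by positivity) (by positivity)),
    integral_prod _ (integrable_h hα a ha (√η) _ _ (by positivity) (by positivity))]
  refine integral_congr_ae (Eventually.of_forall fun v => ?_)
  have h := Measure.integral_comp_smul (volume : Measure ℂ) (fun w : ℂ => exp (-∑ i, ‖((v : EuclideanSpace ℂ (Fin n)) + (((1 : ℝ) : ℂ) * w) • a) i‖ ^ (2 * α)) *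
      ((π * η)⁻¹ * exp (-η⁻¹ * ‖w‖ ^ 2))) (√η)
  rw [Complex.finrank_real_complex, sq_sqrt hη.le, abs_of_pos (inv_pos.2 hη), smul_eq_mul, ← div_eq_inv_mul,
    eq_div_iff hη.ne'] at h
  simp only
  rw [← h, ← integral_mul_const]
  refine integral_congr_ae (Eventually.of_forall fun w => ?_)
  simp only [Complex.ofReal_one, one_mul, Complex.real_smul, norm_mul, Complex.norm_real, mul_pow,
    norm_of_nonneg (sqrt_nonneg η), sq_sqrt hη.le]
  rw [mul_assoc]
  congr 1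
  have : -η⁻¹ * (η * ‖w‖ ^ 2) = -1 * ‖w‖ ^ 2 := by field_simp
  rw [this]
  field_simp

theorem Ieta_tendsto (hα : 1 < α) (a : EuclideanSpace ℂ (Fin (m + 1))) (ha : ‖a‖ = 1) :
    Tendsto (fun η => Ieta α η a) (𝓝[>] 0) (𝓝 (sec α a).toReal) := by
  have hlim : ∫ p : hyp a × ℂ, exp (-∑ i, ‖(p.1 : EuclideanSpace ℂ (Fin (m + 1))) i‖ ^ (2 * α)) *
      (π⁻¹ * exp (-1 * ‖p.2‖ ^ 2)) = (sec α a).toReal := by
    rw [Measure.volume_eq_prod, integral_prod_mul (fun v : hyp a => exp (-∑ i, ‖(v : EuclideanSpace ℂ (Fin (m + 1))) i‖ ^ (2 * α)))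
      (fun w : ℂ => (π⁻¹ * exp (-1 * ‖w‖ ^ 2))), sec_toReal hα, integral_const_mul,
      GaussianFourier.integral_rexp_neg_mul_sq_norm one_pos, Complex.finrank_real_complex]
    simp [pi_ne_zero]
  rw [← hlim]
  have heq : ∀ᶠ η in 𝓝[>] (0 : ℝ), ∫ p : hyp a × ℂ, exp (-∑ i, ‖((p.1 : EuclideanSpace ℂ (Fin (m+1))) + ((√η : ℂ) * p.2) • a) i‖ ^ (2 * α)) *
      (π⁻¹ * exp (-1 * ‖p.2‖ ^ 2)) = Ieta α η a := by
    filter_upwards [self_mem_nhdsWithin] with η hη
    exact (Ieta_step2 hα a ha hη).symm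
  refine Tendsto.congr' heq ?_
  have hbd := ((int_gauss (hyp a) one_pos).const_mul (exp ((m + 1 : ℕ) : ℝ))).mul_prod ((int_gauss ℂ one_pos).const_mul π⁻¹)
  refine tendsto_integral_filter_of_dominated_convergence _ ?_ ?_ hbd ?_
  · refine Eventually.of_forall fun η => ?_
    exact (integrable_h hα a ha (√η) _ _ (by positivity) (by positivity)).aestronglyMeasurable
  · refine Eventually.of_forall fun η => Eventually.of_forall fun p => ?_
    rw [norm_of_nonneg (by positivity)]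
    have h2 := exp_bound hα ((p.1 : EuclideanSpace ℂ (Fin (m+1))) + ((√η : ℂ) * p.2) • a)
    have h3 : exp (-1 * ‖(p.1 : EuclideanSpace ℂ (Fin (m+1))) + ((√η : ℂ) * p.2) • a‖ ^ 2) ≤ exp (-1 * ‖p.1‖ ^ 2) := by
      rw [exp_le_exp, norm_dec ha]
      have : 0 ≤ ‖(√η : ℂ) * p.2‖ ^ 2 := by positivity
      have h4 : ‖(p.1 : EuclideanSpace ℂ (Fin (m+1)))‖ = ‖p.1‖ := rfl
      rw [h4]; linarith
    have h5 : 0 ≤ π⁻¹ * exp (-1 * ‖p.2‖ ^ 2) := by positivity
    refine mul_le_mul_of_nonneg_right (h2.trans ?_) h5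
    exact mul_le_mul_of_nonneg_left h3 (exp_pos _).le
  · refine Eventually.of_forall fun p => ?_
    have hc : Continuous (fun η : ℝ => exp (-∑ i, ‖((p.1 : EuclideanSpace ℂ (Fin (m+1))) + ((√η : ℂ) * p.2) • a) i‖ ^ (2 * α)) *
      (π⁻¹ * exp (-1 * ‖p.2‖ ^ 2))) := by
      refine Continuous.mul ((continuous_E hα).comp ?_) continuous_const
      exact Continuous.add continuous_const
        (((Complex.continuous_ofReal.comp continuous_sqrt).mul continuous_const).smul continuous_const)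
    have h := hc.tendsto 0
    simp only [sqrt_zero, Complex.ofReal_zero, zero_mul, zero_smul, add_zero] at h
    exact h.mono_left nhdsWithin_le_nhds

theorem int_shift {b : ℝ} (d : ℂ) :
    ∫ w : ℂ, exp (-b * ‖w + d‖ ^ 2) = ∫ w : ℂ, exp (-b * ‖w‖ ^ 2) :=
  integral_add_right_eq_self (fun w : ℂ => exp (-b * ‖w‖ ^ 2)) d

theorem inner_lint {η : ℝ} (hη : 0 < η) (c d : ℂ) (hc : c ≠ 0) :
    ∫⁻ w : ℂ, ENNReal.ofReal ((π * η)⁻¹ * exp (-(‖c * w + d‖ ^ 2 / η))) = ENNReal.ofReal (1 / ‖c‖ ^ 2) := by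
  have hc' : 0 < ‖c‖ := norm_pos_iff.2 hc
  have hb : 0 < ‖c‖ ^ 2 / η := by positivity
  have he : ∀ w : ℂ, (π * η)⁻¹ * exp (-(‖c * w + d‖ ^ 2 / η)) = (π * η)⁻¹ * exp (-(‖c‖ ^ 2 / η) * ‖w + d / c‖ ^ 2) := by
    intro w
    have : c * w + d = c * (w + d / c) := by field_simp
    rw [this, norm_mul, mul_pow]
    congr 2
    ring
  have hi : Integrable (fun w : ℂ => (π * η)⁻¹ * exp (-(‖c * w + d‖ ^ 2 / η))) := by
    simp_rw [he]
    exact ((int_gauss ℂ hb).comp_add_right (d / c)).const_mul _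
  rw [← ofReal_integral_eq_lintegral_ofReal hi (Eventually.of_forall fun w => by positivity)]
  congr 1
  simp_rw [he]
  rw [integral_const_mul, int_shift, GaussianFourier.integral_rexp_neg_mul_sq_norm hb, Complex.finrank_real_complex]
  simp
  field_simp

theorem lint_prod (hα : 1 < α) (k : ℕ) :
    ∫⁻ y : Fin k → ℂ, ENNReal.ofReal (exp (-∑ i, ‖y i‖ ^ (2 * α))) = ENNReal.ofReal (cst α k) := by
  have he : ∀ y : Fin k → ℂ, exp (-∑ i, ‖y i‖ ^ (2 * α)) = ∏ i, exp (-‖y i‖ ^ (2 * α)) := by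
    intro y
    rw [← Real.exp_sum, Finset.sum_neg_distrib]
  have h1 : ∫ x : ℂ, exp (-‖x‖ ^ (2 * α)) = π * Gamma (1 + 1 / α) := by
    rw [Complex.integral_exp_neg_rpow (by linarith)]
    congr 2
    field_simp
    ring
  have hpos : 0 < π * Gamma (1 + 1 / α) := mul_pos pi_pos (Gamma_pos_of_pos (by positivity))
  have h2 : Integrable (fun x : ℂ => exp (-‖x‖ ^ (2 * α))) := by
    by_contra h
    rw [integral_undef h] at h1
    exact hpos.ne h1
  have hi : Integrable (fun y : Fin k → ℂ => ∏ i, exp (-‖y i‖ ^ (2 * α))) := by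
    exact Integrable.fintype_prod (fun _ => h2)
  simp_rw [he]
  rw [← ofReal_integral_eq_lintegral_ofReal hi (Eventually.of_forall fun w => by positivity)]
  congr 1
  rw [integral_fintype_prod_volume_eq_prod (fun (i : Fin k) (x : ℂ) => exp (-‖x‖ ^ (2 * α))), h1, cst]
  simp

theorem Ieta_le (hα : 1 < α) (a : EuclideanSpace ℂ (Fin (m + 1))) {η : ℝ} (hη : 0 < η)
    (i : Fin (m + 1)) (hi : a i ≠ 0) : Ieta α η a ≤ cst α m / ‖a i‖ ^ 2 := by
  have hcst : 0 ≤ cst α m := by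
    have : 0 < Gamma (1 + 1 / α) := Gamma_pos_of_pos (by positivity)
    unfold cst; positivity
  have hmeas : Measurable (fun z : EuclideanSpace ℂ (Fin (m + 1)) =>
      exp (-∑ i, ‖z i‖ ^ (2 * α)) * ((π * η)⁻¹ * exp (-(‖inner ℂ a z‖ ^ 2 / η)))) := by
    refine Continuous.measurable ((continuous_E hα).mul ?_)
    fun_prop
  rw [Ieta, integral_eq_lintegral_of_nonneg_ae (Eventually.of_forall fun _ => by positivity)
    hmeas.aestronglyMeasurable]
  refine ENNReal.toReal_le_of_le_ofReal (by positivity) ?_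
  rw [← (mp_toLp (Fin (m + 1))).lintegral_comp_emb (MeasurableEquiv.toLp 2 (Fin (m + 1) → ℂ)).measurableEmbedding]
  have hp := (volume_preserving_piFinSuccAbove (fun _ : Fin (m + 1) => ℂ) i).symm
  rw [← hp.lintegral_comp_emb (MeasurableEquiv.measurableEmbedding _)]
  set b : (Fin m → ℂ) → ℂ := fun y => ∑ j, starRingEnd ℂ (a (i.succAbove j)) * y j with hb
  have hbm : Continuous b := by fun_prop
  have hbound : ∀ p : ℂ × (Fin m → ℂ),
      ENNReal.ofReal (exp (-∑ j, ‖(WithLp.toLp 2 ((MeasurableEquiv.piFinSuccAbove (fun _ : Fin (m + 1) => ℂ) i).symm p) : EuclideanSpace ℂ (Fin (m+1))) j‖ ^ (2 * α)) *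
        ((π * η)⁻¹ * exp (-(‖inner ℂ a (WithLp.toLp 2 ((MeasurableEquiv.piFinSuccAbove (fun _ : Fin (m + 1) => ℂ) i).symm p) : EuclideanSpace ℂ (Fin (m+1)))‖ ^ 2 / η)))) ≤
      ENNReal.ofReal (exp (-∑ j, ‖p.2 j‖ ^ (2 * α))) *
        ENNReal.ofReal ((π * η)⁻¹ * exp (-(‖starRingEnd ℂ (a i) * p.1 + b p.2‖ ^ 2 / η))) := by
    intro p
    rw [← ENNReal.ofReal_mul (exp_pos _).le]
    refine ENNReal.ofReal_le_ofReal ?_
    have hs : (MeasurableEquiv.piFinSuccAbove (fun _ : Fin (m + 1) => ℂ) i).symm p =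
      Fin.insertNth (α := fun _ => ℂ) i p.1 p.2 := rfl
    rw [hs]
    have h1 : inner ℂ a (WithLp.toLp 2 (Fin.insertNth (α := fun _ => ℂ) i p.1 p.2) : EuclideanSpace ℂ (Fin (m+1)))
        = starRingEnd ℂ (a i) * p.1 + b p.2 := by
      rw [PiLp.inner_apply, Fin.sum_univ_succAbove _ i]
      simp [hb, mul_comm]
    rw [h1, Fin.sum_univ_succAbove _ i]
    refine mul_le_mul_of_nonneg_right ?_ (by positivity)
    rw [exp_le_exp]
    simp only [Fin.insertNth_apply_same, Fin.insertNth_apply_succAbove]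
    have : 0 ≤ ‖p.1‖ ^ (2 * α) := by positivity
    linarith
  refine (lintegral_mono hbound).trans ?_
  rw [Measure.volume_eq_prod, lintegral_prod_symm]
  · simp_rw [lintegral_const_mul' _ _ ENNReal.ofReal_ne_top]
    have hc : starRingEnd ℂ (a i) ≠ 0 := by simpa using hi
    simp_rw [inner_lint hη _ _ hc]
    rw [lintegral_mul_const' _ _ ENNReal.ofReal_ne_top, lint_prod hα, ← ENNReal.ofReal_mul hcst]
    refine ENNReal.ofReal_le_ofReal ?_
    simp
    rfl
  · have m1 : Measurable (fun p : ℂ × (Fin m → ℂ) => ENNReal.ofReal (exp (-∑ j, ‖p.2 j‖ ^ (2 * α)))) := by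
      refine Measurable.ennreal_ofReal (Continuous.measurable ?_)
      refine continuous_exp.comp (continuous_neg.comp (continuous_finsetSum _ fun i _ => ?_))
      exact Continuous.rpow_const (by fun_prop) fun _ => Or.inr (by linarith)
    have m2 : Measurable (fun p : ℂ × (Fin m → ℂ) =>
        ENNReal.ofReal ((π * η)⁻¹ * exp (-(‖starRingEnd ℂ (a i) * p.1 + b p.2‖ ^ 2 / η)))) := by
      refine Measurable.ennreal_ofReal (Continuous.measurable ?_)
      fun_prop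
    exact (m1.mul m2).aemeasurable

end LpSec

end

section
/-!
# T17 Geo2: Fourier formula

* `fourier_one`: polar coordinates, `K_circle`, `ρ = r²`, then `ρ = mu ρ'`:
  `∫_ℂ exp (-‖z‖^{2α}) exp (i Re (z conj t)) dz = π Γ(1+1/α) Phi (mu ‖t‖²/4)`
  (`mu * DD = Γ(1+1/α)`; the sine part vanishes by symmetry).
* `(π η)⁻¹ exp (-|w|²/η) = (4 π²)⁻¹ ∫_ℂ exp (-η |t|²/4) exp (i Re (w conj t)) dt`
  (Gaussian Fourier integral).
* Fubini, `Re (⟪a,z⟫ conj t) = ∑ Re (z i conj (a i t))`, product structure of the integral over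
  `ℂ^{m+1}` (`integral_fintype_prod_eq_prod`), polar coordinates in `t` with `s = mu |t|²/4`:
  `Ieta = (πΓ)^{m+1}/(4π²) * π * (4/mu) ∫ exp (-η s/mu) ∏ Phi (‖a i‖² s) ds`.
-/

open Real MeasureTheory Set Filter Topology

namespace LpSec

variable {α : ℝ} {m : ℕ}

/-- The substitution `s = c r²`. -/
theorem radial_sub {E : Type*} [NormedAddCommGroup E] [NormedSpace ℝ E] (g : ℝ → E) {c : ℝ}
    (hc : 0 < c) :
    ∫ r in Ioi (0 : ℝ), r • g (c * r ^ 2) = (2 * c)⁻¹ • ∫ s in Ioi (0 : ℝ), g s := by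
  have h1 := integral_comp_rpow_Ioi (fun s => g (c * s)) (p := 2) two_ne_zero
  have h2 := integral_comp_mul_left_Ioi g 0 hc
  rw [mul_zero] at h2
  rw [h2] at h1
  have h3 : ∫ r in Ioi (0 : ℝ), (|(2 : ℝ)| * r ^ ((2 : ℝ) - 1)) • g (c * r ^ (2 : ℝ)) =
      (2 : ℝ) • ∫ r in Ioi (0 : ℝ), r • g (c * r ^ 2) := by
    rw [← integral_smul]
    refine setIntegral_congr_fun measurableSet_Ioi fun r hr => ?_
    rw [abs_of_pos (two_pos : (0 : ℝ) < 2), show (2 : ℝ) - 1 = 1 by norm_num, rpow_one, mul_smul,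
      rpow_two]
  rw [h3] at h1
  rw [mul_inv, mul_smul, ← h1, smul_smul, inv_mul_cancel₀ (two_ne_zero : (2 : ℝ) ≠ 0), one_smul]

/-- The circle average of the phase. -/
theorem circle_phase (R φ : ℝ) :
    ∫ θ in Ioo (-π) π, Complex.exp (Complex.I * ((R * cos (θ - φ) : ℝ) : ℂ)) =
      ((2 * π * K 0 (R ^ 2 / 4) : ℝ) : ℂ) := by
  rw [← integral_Ioc_eq_integral_Ioo, ← intervalIntegral.integral_of_le (by linarith [pi_pos])]
  rw [intervalIntegral.integral_comp_sub_right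
    (fun θ => Complex.exp (Complex.I * ((R * cos θ : ℝ) : ℂ)))]
  have hper : Function.Periodic (fun θ : ℝ => Complex.exp (Complex.I * ((R * cos θ : ℝ) : ℂ)))
      (2 * π) := by
    intro θ
    simp only [cos_add_two_pi]
  have h1 := hper.intervalIntegral_add_eq (-π - φ) 0
  rw [show -π - φ + 2 * π = π - φ by ring, zero_add] at h1
  rw [h1]
  have h2 : ∀ θ : ℝ, Complex.exp (Complex.I * ((R * cos θ : ℝ) : ℂ)) =
      ((cos (R * cos θ) : ℝ) : ℂ) + ((sin (R * cos θ) : ℝ) : ℂ) * Complex.I := by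
    intro θ
    rw [mul_comm, Complex.exp_mul_I, ← Complex.ofReal_cos, ← Complex.ofReal_sin]
  simp only [h2]
  rw [intervalIntegral.integral_add, intervalIntegral.integral_mul_const,
    intervalIntegral.integral_ofReal, intervalIntegral.integral_ofReal, K_circle]
  · have hper2 : Function.Periodic (fun θ : ℝ => sin (R * cos θ)) (2 * π) := by
      intro θ
      simp only [cos_add_two_pi]
    have h3 := hper2.intervalIntegral_add_eq 0 π
    rw [zero_add] at h3
    have h4 : ∫ θ in π..π + 2 * π, sin (R * cos θ) =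
        ∫ θ in (0:ℝ)..(2 * π), sin (R * cos (θ + π)) := by
      rw [intervalIntegral.integral_comp_add_right (fun θ => sin (R * cos θ))]
      rw [zero_add, add_comm (2 * π) π]
    have h5 : ∫ θ in (0:ℝ)..(2 * π), sin (R * cos (θ + π)) =
        -∫ θ in (0:ℝ)..(2 * π), sin (R * cos θ) := by
      rw [← intervalIntegral.integral_neg]
      refine intervalIntegral.integral_congr fun θ _ => ?_
      rw [cos_add_pi, mul_neg, sin_neg]
    have h6 : ∫ θ in (0:ℝ)..(2 * π), sin (R * cos θ) = 0 := by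
      rw [h4, h5] at h3
      linarith
    rw [h6]
    simp
  · exact (by fun_prop : Continuous fun θ : ℝ => ((cos (R * cos θ) : ℝ) : ℂ)).intervalIntegrable _ _
  · exact (by fun_prop : Continuous fun θ : ℝ =>
      ((sin (R * cos θ) : ℝ) : ℂ) * Complex.I).intervalIntegrable _ _

theorem expC_integrable (hα : 1 < α) :
    Integrable (fun z : ℂ => exp (-‖z‖ ^ (2 * α))) := by
  by_contra hcon
  have h1 := Complex.integral_exp_neg_rpow (p := 2 * α) (by linarith)
  rw [integral_undef hcon] at h1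
  have h2 : 0 < Gamma (2 / (2 * α) + 1) := Gamma_pos_of_pos (by positivity)
  have : 0 < π * Gamma (2 / (2 * α) + 1) := mul_pos pi_pos h2
  linarith

theorem exp_rad_integrable (hα : 1 < α) :
    IntegrableOn (fun r : ℝ => r * exp (-r ^ (2 * α))) (Ioi 0) := by
  have h1 := integrableOn_rpow_mul_exp_neg_rpow (p := 2 * α) (s := 1) (by norm_num)
    (by linarith)
  simpa using h1

theorem fourier_one (hα : 1 < α) (t : ℂ) :
    ∫ z : ℂ, (exp (-‖z‖ ^ (2 * α)) : ℂ) * Complex.exp (Complex.I * (z * starRingEnd ℂ t).re) =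
      ((π * Gamma (1 + 1 / α) * Phi α (mu α * ‖t‖ ^ 2 / 4) : ℝ) : ℂ) := by
  have hα0 : 0 < α := by linarith
  rw [← Complex.integral_comp_polarCoord_symm, polarCoord_target]
  have h1 : ∀ p ∈ Ioi (0 : ℝ) ×ˢ Ioo (-π) π,
      p.1 • ((exp (-‖Complex.polarCoord.symm p‖ ^ (2 * α)) : ℂ) *
        Complex.exp (Complex.I * (Complex.polarCoord.symm p * starRingEnd ℂ t).re)) =
      ((p.1 * exp (-p.1 ^ (2 * α)) : ℝ) : ℂ) *
        Complex.exp (Complex.I * (((p.1 * ‖t‖) * cos (p.2 - Complex.arg t) : ℝ) : ℂ)) := by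
    rintro ⟨r, θ⟩ ⟨hr, hθ⟩
    have hr' : (0 : ℝ) < r := hr
    have e1 : ‖Complex.polarCoord.symm (r, θ)‖ = r := by
      rw [Complex.norm_polarCoord_symm, abs_of_pos hr']
    have e2 : (Complex.polarCoord.symm (r, θ) * starRingEnd ℂ t).re =
        (r * ‖t‖) * cos (θ - Complex.arg t) := by
      rw [Complex.polarCoord_symm_apply, cos_sub]
      simp only [Complex.mul_re, Complex.conj_re, Complex.conj_im, Complex.mul_im,
        Complex.ofReal_re, Complex.ofReal_im, Complex.add_re, Complex.add_im, Complex.I_re,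
        Complex.I_im]
      rw [← Complex.norm_mul_cos_arg t, ← Complex.norm_mul_sin_arg t]
      ring
    rw [e1, e2, Complex.real_smul]
    push_cast
    ring
  rw [setIntegral_congr_fun (measurableSet_Ioi.prod measurableSet_Ioo) h1, Measure.volume_eq_prod,
    setIntegral_prod]
  · have h2 : ∀ r ∈ Ioi (0 : ℝ), ∫ θ in Ioo (-π) π, ((r * exp (-r ^ (2 * α)) : ℝ) : ℂ) *
        Complex.exp (Complex.I * (((r * ‖t‖) * cos (θ - Complex.arg t) : ℝ) : ℂ)) =
        ((r * (2 * π * (exp (-(mu α * ((mu α)⁻¹ * r ^ 2)) ^ α) *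
          K 0 ((mu α * ‖t‖ ^ 2 / 4) * ((mu α)⁻¹ * r ^ 2)))) : ℝ) : ℂ) := by
      intro r hr
      have hr' : (0 : ℝ) < r := hr
      rw [integral_const_mul, circle_phase, ← Complex.ofReal_mul]
      congr 1
      have hμ := (mu_pos hα0).ne'
      rw [mul_inv_cancel_left₀ hμ, ← rpow_natCast_mul hr'.le]
      have : mu α * ‖t‖ ^ 2 / 4 * ((mu α)⁻¹ * r ^ 2) = (r * ‖t‖) ^ 2 / 4 := by
        field_simp
      rw [this]
      push_cast
      ring
    rw [setIntegral_congr_fun measurableSet_Ioi h2, integral_complex_ofReal]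
    congr 1
    have h3 := radial_sub (fun ρ => 2 * π * (exp (-(mu α * ρ) ^ α) *
      K 0 ((mu α * ‖t‖ ^ 2 / 4) * ρ))) (inv_pos.mpr (mu_pos hα0))
    simp only [smul_eq_mul] at h3
    rw [h3, integral_const_mul]
    have h4 : Phi α (mu α * ‖t‖ ^ 2 / 4) = (DD α)⁻¹ * ∫ ρ in Ioi (0 : ℝ),
        exp (-(mu α * ρ) ^ α) * K 0 ((mu α * ‖t‖ ^ 2 / 4) * ρ) := by
      rw [← integral_const_mul]
      unfold Phi F
      refine setIntegral_congr_fun measurableSet_Ioi fun ρ _ => ?_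
      ring
    rw [h4, DD_eq hα0]
    generalize (∫ ρ in Ioi (0 : ℝ), exp (-(mu α * ρ) ^ α) *
      K 0 ((mu α * ‖t‖ ^ 2 / 4) * ρ)) = J
    have hμ := (mu_pos hα0).ne'
    have hG : Gamma (1 + 1 / α) ≠ 0 := (Gamma_pos_of_pos (by positivity)).ne'
    field_simp
  · have hi : Integrable (fun p : ℝ × ℝ => ((p.1 * exp (-p.1 ^ (2 * α)) : ℝ) : ℂ) * (1 : ℂ))
        ((volume.restrict (Ioi (0 : ℝ))).prod (volume.restrict (Ioo (-π) π))) := by
      refine Integrable.mul_prod (f := fun r : ℝ => ((r * exp (-r ^ (2 * α)) : ℝ) : ℂ))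
        (g := fun _ : ℝ => (1 : ℂ)) (exp_rad_integrable hα).ofReal ?_
      exact integrable_const _
    rw [IntegrableOn, ← Measure.prod_restrict]
    refine hi.mono ?_ ?_
    · refine Measurable.aestronglyMeasurable ?_
      fun_prop
    · refine Filter.Eventually.of_forall fun p => ?_
      rw [norm_mul, norm_mul, mul_comm Complex.I, Complex.norm_exp_ofReal_mul_I, norm_one]

/-- The Gaussian as a Fourier integral. -/
theorem gauss_fourier {η : ℝ} (hη : 0 < η) (w : ℂ) :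
    (((π * η)⁻¹ * exp (-(‖w‖ ^ 2 / η)) : ℝ) : ℂ) = ((4 * π ^ 2)⁻¹ : ℝ) *
      ∫ t : ℂ, (exp (-(η * ‖t‖ ^ 2 / 4)) : ℂ) *
        Complex.exp (Complex.I * (w * starRingEnd ℂ t).re) := by
  have h := GaussianFourier.integral_cexp_neg_mul_sq_norm_add (V := ℂ) (b := ((η / 4 : ℝ) : ℂ))
    (by rw [Complex.ofReal_re]; positivity) Complex.I w
  rw [Complex.finrank_real_complex] at h
  have h1 : ∀ t : ℂ, (exp (-(η * ‖t‖ ^ 2 / 4)) : ℂ) *
      Complex.exp (Complex.I * (w * starRingEnd ℂ t).re) =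
      Complex.exp (-((η / 4 : ℝ) : ℂ) * ‖t‖ ^ 2 + Complex.I * (inner ℝ w t : ℝ)) := by
    intro t
    rw [Complex.exp_add, Complex.ofReal_exp]
    congr 2
    · push_cast; ring
    · rw [Complex.inner]
      congr 2
      simp only [Complex.mul_re, Complex.conj_re, Complex.conj_im]
      ring
  simp only [h1]
  rw [h]
  have hη' : (η : ℂ) ≠ 0 := by exact_mod_cast hη.ne'
  have hπ : (π : ℂ) ≠ 0 := by exact_mod_cast pi_ne_zero
  push_cast
  rw [div_self (two_ne_zero : (2 : ℂ) ≠ 0), Complex.cpow_one, Complex.I_sq]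
  have e1 : (-1 : ℂ) * (‖w‖ : ℂ) ^ 2 / (4 * ((η : ℂ) / 4)) = -((‖w‖ : ℂ) ^ 2 / η) := by
    field_simp
  rw [e1, ← mul_assoc]
  congr 1
  field_simp

theorem E_integrable (hα : 1 < α) (n : ℕ) :
    Integrable (fun z : EuclideanSpace ℂ (Fin n) => exp (-∑ i, ‖z i‖ ^ (2 * α))) := by
  have h1 : Integrable (fun z : Fin n → ℂ => ∏ i, exp (-‖z i‖ ^ (2 * α))) :=
    Integrable.fintype_prod (f := fun _ (z : ℂ) => exp (-‖z‖ ^ (2 * α)))
      (fun _ => expC_integrable hα)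
  have h2 := (volume_preserving_ofLp_complex n).integrable_comp_of_integrable h1
  refine h2.congr (Filter.Eventually.of_forall fun z => ?_)
  show ∏ i, exp (-‖z i‖ ^ (2 * α)) = exp (-∑ i, ‖z i‖ ^ (2 * α))
  rw [← exp_sum, Finset.sum_neg_distrib]

theorem E_fourier (hα : 1 < α) {n : ℕ} (a : EuclideanSpace ℂ (Fin n)) (t : ℂ) :
    ∫ z : EuclideanSpace ℂ (Fin n), (exp (-∑ i, ‖z i‖ ^ (2 * α)) : ℂ) *
      Complex.exp (Complex.I * (inner ℂ a z * starRingEnd ℂ t).re) =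
      ∏ i, ((π * Gamma (1 + 1 / α) * Phi α (mu α * ‖a i * t‖ ^ 2 / 4) : ℝ) : ℂ) := by
  have h1 := integral_fintype_prod_volume_eq_prod (𝕜 := ℂ) (ι := Fin n)
    (fun i (z : ℂ) => (exp (-‖z‖ ^ (2 * α)) : ℂ) *
      Complex.exp (Complex.I * (z * starRingEnd ℂ (a i * t)).re))
  simp only [fourier_one hα] at h1
  rw [← h1]
  let e : EuclideanSpace ℂ (Fin n) ≃ᵐ (Fin n → ℂ) := (MeasurableEquiv.toLp 2 (Fin n → ℂ)).symm
  have h2 := (volume_preserving_ofLp_complex n).integral_comp (e.measurableEmbedding)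
    (fun w : Fin n → ℂ => ∏ i, ((exp (-‖w i‖ ^ (2 * α)) : ℂ) *
      Complex.exp (Complex.I * (w i * starRingEnd ℂ (a i * t)).re)))
  rw [← h2]
  refine integral_congr_ae (Filter.Eventually.of_forall fun z => ?_)
  simp only
  rw [Finset.prod_mul_distrib, ← Complex.exp_sum, ← Complex.ofReal_prod, ← exp_sum,
    Finset.sum_neg_distrib, ← Finset.mul_sum]
  congr 3
  rw [← Complex.ofReal_sum]
  congr 1
  rw [PiLp.inner_apply, Finset.sum_mul, Complex.re_sum]
  refine Finset.sum_congr rfl fun i _ => ?_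
  rw [RCLike.inner_apply, map_mul]
  ring_nf

theorem Ieta_eq (hα : 1 < α) (a : EuclideanSpace ℂ (Fin (m + 1))) (ha : ‖a‖ = 1) {η : ℝ}
    (hη : 0 < η) :
    Ieta α η a = cst α m * DD α *
      ∫ s in Ioi (0 : ℝ), exp (-(η * s / mu α)) * ∏ i, Phi α (‖a i‖ ^ 2 * s) := by
  have hα0 : 0 < α := by linarith
  have hcast : ((Ieta α η a : ℝ) : ℂ) = ((cst α m * DD α *
      ∫ s in Ioi (0 : ℝ), exp (-(η * s / mu α)) * ∏ i, Phi α (‖a i‖ ^ 2 * s) : ℝ) : ℂ) := by
    unfold Ieta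
    rw [← integral_complex_ofReal]
    -- the integrand as an integral over `t`
    have h1 : ∀ z : EuclideanSpace ℂ (Fin (m + 1)),
        ((exp (-∑ i, ‖z i‖ ^ (2 * α)) * ((π * η)⁻¹ * exp (-(‖inner ℂ a z‖ ^ 2 / η))) : ℝ) : ℂ) =
        ((4 * π ^ 2)⁻¹ : ℝ) * ∫ t : ℂ, (exp (-∑ i, ‖z i‖ ^ (2 * α)) : ℂ) *
          (exp (-(η * ‖t‖ ^ 2 / 4)) : ℂ) *
            Complex.exp (Complex.I * (inner ℂ a z * starRingEnd ℂ t).re) := by
      intro z
      rw [Complex.ofReal_mul, gauss_fourier hη]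
      simp only [mul_assoc]
      rw [integral_const_mul]
      ring
    rw [integral_congr_ae (Filter.Eventually.of_forall h1), integral_const_mul,
      integral_integral_swap]
    · have h2 : ∀ t : ℂ, ∫ z : EuclideanSpace ℂ (Fin (m + 1)),
          (exp (-∑ i, ‖z i‖ ^ (2 * α)) : ℂ) * (exp (-(η * ‖t‖ ^ 2 / 4)) : ℂ) *
            Complex.exp (Complex.I * (inner ℂ a z * starRingEnd ℂ t).re) =
          ((exp (-(η * ‖t‖ ^ 2 / 4)) * ∏ i, (π * Gamma (1 + 1 / α) *
            Phi α (mu α * (‖a i‖ * ‖t‖) ^ 2 / 4)) : ℝ) : ℂ) := by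
        intro t
        have h3 : ∀ z : EuclideanSpace ℂ (Fin (m + 1)),
            (exp (-∑ i, ‖z i‖ ^ (2 * α)) : ℂ) * (exp (-(η * ‖t‖ ^ 2 / 4)) : ℂ) *
            Complex.exp (Complex.I * (inner ℂ a z * starRingEnd ℂ t).re) =
            (exp (-(η * ‖t‖ ^ 2 / 4)) : ℂ) * ((exp (-∑ i, ‖z i‖ ^ (2 * α)) : ℂ) *
            Complex.exp (Complex.I * (inner ℂ a z * starRingEnd ℂ t).re)) := by
          intro z; ring
        simp only [h3]
        rw [integral_const_mul, E_fourier hα]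
        simp only [norm_mul]
        push_cast
        rfl
      simp only [h2]
      rw [integral_complex_ofReal, ← Complex.ofReal_mul]
      congr 1
      have h4 := integral_fun_norm_addHaar (volume : Measure ℂ)
        (fun r => exp (-(η * r ^ 2 / 4)) * ∏ i, (π * Gamma (1 + 1 / α) *
            Phi α (mu α * (‖a i‖ * r) ^ 2 / 4)))
      rw [h4, Complex.finrank_real_complex]
      have h5 : (volume : Measure ℂ).real (Metric.ball 0 1) = π := by
        rw [Measure.real, Complex.volume_ball]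
        simp
      rw [h5]
      have h6 : ∀ r : ℝ, r ^ (2 - 1) • (exp (-(η * r ^ 2 / 4)) * ∏ i, (π * Gamma (1 + 1 / α) *
            Phi α (mu α * (‖a i‖ * r) ^ 2 / 4))) =
          r • ((fun s => exp (-(η * s / mu α)) * ∏ i, (π * Gamma (1 + 1 / α) *
            Phi α (‖a i‖ ^ 2 * s))) ((mu α / 4) * r ^ 2)) := by
        intro r
        have hμ := (mu_pos hα0).ne'
        simp only [Nat.add_one_sub_one, pow_one]
        have e1 : η * (mu α / 4 * r ^ 2) / mu α = η * r ^ 2 / 4 := by field_simp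
        have e2 : ∀ i, ‖a i‖ ^ 2 * (mu α / 4 * r ^ 2) = mu α * (‖a i‖ * r) ^ 2 / 4 := by
          intro i; ring
        simp only [e1, e2]
      simp only [h6]
      rw [radial_sub (fun s => exp (-(η * s / mu α)) * ∏ i, (π * Gamma (1 + 1 / α) *
            Phi α (‖a i‖ ^ 2 * s))) (by have := mu_pos hα0; positivity)]
      have h7 : ∀ s, exp (-(η * s / mu α)) * ∏ i, (π * Gamma (1 + 1 / α) *
            Phi α (‖a i‖ ^ 2 * s)) = (π * Gamma (1 + 1 / α)) ^ (m + 1) *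
            (exp (-(η * s / mu α)) * ∏ i, Phi α (‖a i‖ ^ 2 * s)) := by
        intro s
        rw [Finset.prod_mul_distrib, Finset.prod_const, Finset.card_univ, Fintype.card_fin]
        ring
      simp only [h7]
      rw [integral_const_mul]
      unfold cst
      rw [DD_eq hα0]
      have hμ := (mu_pos hα0).ne'
      have hπ := pi_ne_zero
      simp only [nsmul_eq_mul, smul_eq_mul]
      push_cast
      field_simp
      ring
    · -- integrability on the product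
      have hE : Integrable (fun z : EuclideanSpace ℂ (Fin (m + 1)) =>
          (exp (-∑ i, ‖z i‖ ^ (2 * α)) : ℂ)) := (E_integrable hα (m + 1)).ofReal
      have hg : Integrable (fun t : ℂ => (exp (-(η * ‖t‖ ^ 2 / 4)) : ℂ)) := by
        have h3 : Integrable (fun t : ℂ => exp (-(η * ‖t‖ ^ 2 / 4))) := by
          by_contra hcon
          have h := GaussianFourier.integral_rexp_neg_mul_sq_norm (V := ℂ) (b := η / 4)
            (by positivity)
          have h4 : (fun t : ℂ => exp (-(η * ‖t‖ ^ 2 / 4))) =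
              fun t : ℂ => exp (-(η / 4) * ‖t‖ ^ 2) := by
            funext t; congr 1; ring
          rw [h4] at hcon
          rw [integral_undef hcon] at h
          have : 0 < (π / (η / 4)) ^ ((Module.finrank ℝ ℂ : ℝ) / 2) := by positivity
          linarith
        exact h3.ofReal
      have h4 := hE.mul_prod hg
      refine h4.mono ?_ ?_
      · refine Continuous.aestronglyMeasurable ?_
        have hα2 : 0 ≤ 2 * α := by linarith
        have hc1 : Continuous fun p : EuclideanSpace ℂ (Fin (m + 1)) × ℂ =>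
            (exp (-∑ i, ‖p.1 i‖ ^ (2 * α)) : ℝ) := by
          refine continuous_exp.comp (Continuous.neg ?_)
          refine continuous_finsetSum _ fun i _ => ?_
          exact (Continuous.norm (by fun_prop)).rpow_const fun _ => Or.inr hα2
        have hc2 : Continuous fun p : EuclideanSpace ℂ (Fin (m + 1)) × ℂ =>
            (inner ℂ a p.1 * starRingEnd ℂ p.2).re := by
          refine Complex.continuous_re.comp ?_
          exact (continuous_const.inner continuous_fst).mul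
            (Complex.continuous_conj.comp continuous_snd)
        show Continuous fun p : EuclideanSpace ℂ (Fin (m + 1)) × ℂ =>
          (exp (-∑ i, ‖p.1 i‖ ^ (2 * α)) : ℂ) * (exp (-(η * ‖p.2‖ ^ 2 / 4)) : ℂ) *
            Complex.exp (Complex.I * (inner ℂ a p.1 * starRingEnd ℂ p.2).re)
        refine ((Complex.continuous_ofReal.comp hc1).mul ?_).mul ?_
        · exact Complex.continuous_ofReal.comp (by fun_prop)
        · exact Complex.continuous_exp.comp (continuous_const.mul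
            (Complex.continuous_ofReal.comp hc2))
      · refine Filter.Eventually.of_forall fun p => ?_
        simp only [Function.uncurry]
        rw [norm_mul, mul_comm Complex.I, Complex.norm_exp_ofReal_mul_I, mul_one]
  exact_mod_cast hcast

end LpSec

end

section
/-!
# T18 Geo3: consequences of the regularised Fourier formula

Let `η → 0+` in `Ieta_eq`, `Ieta_tendsto`:
* `sec_le_coord` from `Ieta_le`;
* `sec_le_fourier`: `Ieta ≤ cst D ∫ ∏ |Phi|` (lintegral, may be `⊤`);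
* `sec_eq`: dominated convergence;
* `sec_eq_nonneg`: monotone convergence along `η = 1/k` (no integrability needed: the integrals
  `∫ exp (-η s/mu) ∏ Phi` are bounded by `Ieta_le` since some `a i ≠ 0`).
-/

open Real MeasureTheory Set Filter Topology

namespace LpSec

variable {α : ℝ} {m : ℕ}

theorem geo3_cst_nonneg (hα : 1 < α) (m : ℕ) : 0 ≤ cst α m := by
  unfold cst
  have h1 : 0 < Gamma (1 + 1 / α) := by
    apply Gamma_pos_of_pos
    have : 0 < 1 / α := by positivity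
    linarith
  positivity

theorem geo3_cD_nonneg (hα : 1 < α) (m : ℕ) : 0 ≤ cst α m * DD α :=
  mul_nonneg (geo3_cst_nonneg hα m) (DD_pos (by linarith)).le

theorem geo3_tendsto (hα : 1 < α) (a : EuclideanSpace ℂ (Fin (m + 1))) (ha : ‖a‖ = 1) :
    Tendsto (fun η => ENNReal.ofReal (Ieta α η a)) (𝓝[>] 0) (𝓝 (sec α a)) := by
  have h1 := ENNReal.tendsto_ofReal (Ieta_tendsto hα a ha)
  rwa [ENNReal.ofReal_toReal (sec_ne_top hα a)] at h1

theorem geo3_contOn (hα : 1 < α) (a : EuclideanSpace ℂ (Fin (m + 1))) :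
    ContinuousOn (fun s => ∏ i, Phi α (‖a i‖ ^ 2 * s)) (Ici 0) := by
  refine continuousOn_finsetProd _ fun i _ => ?_
  refine (Phi_continuousOn hα).comp (by fun_prop) fun s hs => ?_
  exact mul_nonneg (by positivity : (0 : ℝ) ≤ ‖a i‖ ^ 2) (mem_Ici.1 hs)

theorem geo3_abs_le (hα : 1 < α) (a : EuclideanSpace ℂ (Fin (m + 1))) {s : ℝ} (hs : 0 ≤ s) :
    |∏ i, Phi α (‖a i‖ ^ 2 * s)| ≤ 1 := by
  rw [Finset.abs_prod]
  exact Finset.prod_le_one (fun i _ => abs_nonneg _) fun i _ =>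
    Phi_abs_le_one hα (mul_nonneg (by positivity) hs)

theorem geo3_exp_le (hα : 1 < α) {η s : ℝ} (hη : 0 < η) (hs : 0 ≤ s) :
    exp (-(η * s / mu α)) ≤ 1 := by
  have hmu := mu_pos (α := α) (by linarith)
  rw [exp_le_one_iff]
  have : 0 ≤ η * s / mu α := by positivity
  linarith

theorem geo3_integrable (hα : 1 < α) (a : EuclideanSpace ℂ (Fin (m + 1))) {η : ℝ} (hη : 0 < η) :
    IntegrableOn (fun s => exp (-(η * s / mu α)) * ∏ i, Phi α (‖a i‖ ^ 2 * s)) (Ioi 0) := by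
  have hmu := mu_pos (α := α) (by linarith)
  have h1 : IntegrableOn (fun s => exp (-(η / mu α) * s)) (Ioi 0) :=
    exp_neg_integrableOn_Ioi 0 (by positivity)
  refine Integrable.mono' h1 ?_ ?_
  · refine ContinuousOn.aestronglyMeasurable ?_ measurableSet_Ioi
    exact (Continuous.continuousOn (by fun_prop)).mul ((geo3_contOn hα a).mono Ioi_subset_Ici_self)
  · refine (ae_restrict_iff' measurableSet_Ioi).2 (Eventually.of_forall fun s hs => ?_)
    rw [norm_mul, Real.norm_eq_abs, Real.norm_eq_abs, abs_of_pos (exp_pos _)]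
    have h2 := geo3_abs_le hα a (le_of_lt hs)
    calc exp (-(η * s / mu α)) * |∏ i, Phi α (‖a i‖ ^ 2 * s)| ≤ exp (-(η * s / mu α)) * 1 :=
          mul_le_mul_of_nonneg_left h2 (exp_pos _).le
      _ = exp (-(η / mu α) * s) := by
          rw [mul_one]
          congr 1
          ring

theorem sec_le_coord (hα : 1 < α) (a : EuclideanSpace ℂ (Fin (m + 1))) (ha : ‖a‖ = 1)
    (i : Fin (m + 1)) (hi : a i ≠ 0) :
    sec α a ≤ ENNReal.ofReal (cst α m / ‖a i‖ ^ 2) := by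
  refine le_of_tendsto (geo3_tendsto hα a ha) ?_
  filter_upwards [self_mem_nhdsWithin] with η hη
  exact ENNReal.ofReal_le_ofReal (Ieta_le hα a hη i hi)

theorem sec_le_fourier (hα : 1 < α) (a : EuclideanSpace ℂ (Fin (m + 1))) (ha : ‖a‖ = 1) :
    sec α a ≤ ENNReal.ofReal (cst α m * DD α) *
      ∫⁻ s in Ioi (0 : ℝ), ∏ i, ENNReal.ofReal |Phi α (‖a i‖ ^ 2 * s)| := by
  refine le_of_tendsto (geo3_tendsto hα a ha) ?_
  filter_upwards [self_mem_nhdsWithin] with η hη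
  have hη' : 0 < η := hη
  rw [Ieta_eq hα a ha hη', ENNReal.ofReal_mul (geo3_cD_nonneg hα m)]
  refine mul_le_mul_right ?_ _
  have h1 : ENNReal.ofReal (∫ s in Ioi (0 : ℝ), exp (-(η * s / mu α)) *
      ∏ i, Phi α (‖a i‖ ^ 2 * s)) ≤ ‖∫ s in Ioi (0 : ℝ), exp (-(η * s / mu α)) *
      ∏ i, Phi α (‖a i‖ ^ 2 * s)‖ₑ := by
    rw [Real.enorm_eq_ofReal_abs]
    exact ENNReal.ofReal_le_ofReal (le_abs_self _)
  refine h1.trans ((enorm_integral_le_lintegral_enorm _).trans ?_)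
  refine setLIntegral_mono' measurableSet_Ioi fun s hs => ?_
  have hs' : 0 < s := hs
  rw [Real.enorm_eq_ofReal_abs, ← ENNReal.ofReal_prod_of_nonneg (fun i _ => abs_nonneg _),
    ← Finset.abs_prod, abs_mul, abs_of_pos (exp_pos _)]
  exact ENNReal.ofReal_le_ofReal
    (mul_le_of_le_one_left (abs_nonneg _) (geo3_exp_le hα hη' hs'.le))

theorem sec_eq (hα : 1 < α) (a : EuclideanSpace ℂ (Fin (m + 1))) (ha : ‖a‖ = 1)
    (h : IntegrableOn (fun s => ∏ i, Phi α (‖a i‖ ^ 2 * s)) (Ioi 0)) :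
    (sec α a).toReal = cst α m * DD α *
      ∫ s in Ioi (0 : ℝ), ∏ i, Phi α (‖a i‖ ^ 2 * s) := by
  refine tendsto_nhds_unique (Ieta_tendsto hα a ha) ?_
  have h1 : Tendsto (fun η : ℝ => ∫ s in Ioi (0 : ℝ), exp (-(η * s / mu α)) *
      ∏ i, Phi α (‖a i‖ ^ 2 * s)) (𝓝[>] 0)
      (𝓝 (∫ s in Ioi (0 : ℝ), ∏ i, Phi α (‖a i‖ ^ 2 * s))) := by
    refine tendsto_integral_filter_of_dominated_convergence
      (fun s => ‖∏ i, Phi α (‖a i‖ ^ 2 * s)‖) ?_ ?_ h.norm ?_
    · filter_upwards [self_mem_nhdsWithin] with η hη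
      exact (geo3_integrable hα a hη).aestronglyMeasurable
    · filter_upwards [self_mem_nhdsWithin] with η hη
      refine (ae_restrict_iff' measurableSet_Ioi).2 (Eventually.of_forall fun s hs => ?_)
      rw [norm_mul, Real.norm_eq_abs (exp _), abs_of_pos (exp_pos _)]
      exact mul_le_of_le_one_left (norm_nonneg _) (geo3_exp_le hα hη (le_of_lt hs))
    · refine Eventually.of_forall fun s => ?_
      have h2 : Continuous fun η : ℝ => exp (-(η * s / mu α)) * ∏ i, Phi α (‖a i‖ ^ 2 * s) := by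
        fun_prop
      have h3 := h2.tendsto 0
      simp only [zero_mul, zero_div, neg_zero, exp_zero, one_mul] at h3
      exact h3.mono_left nhdsWithin_le_nhds
  have h2 := h1.const_mul (cst α m * DD α)
  refine h2.congr' ?_
  filter_upwards [self_mem_nhdsWithin] with η hη
  rw [Ieta_eq hα a ha hη]

theorem sec_eq_nonneg (hα : 1 < α) (a : EuclideanSpace ℂ (Fin (m + 1))) (ha : ‖a‖ = 1)
    (h : ∀ s, 0 < s → 0 ≤ ∏ i, Phi α (‖a i‖ ^ 2 * s)) :
    sec α a = ENNReal.ofReal (cst α m * DD α) *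
      ∫⁻ s in Ioi (0 : ℝ), ENNReal.ofReal (∏ i, Phi α (‖a i‖ ^ 2 * s)) := by
  have hmu := mu_pos (α := α) (by linarith)
  have hη : Tendsto (fun k : ℕ => 1 / ((k : ℝ) + 1)) atTop (𝓝[>] 0) := by
    refine tendsto_nhdsWithin_iff.2 ⟨tendsto_one_div_add_atTop_nhds_zero_nat,
      Eventually.of_forall fun k => ?_⟩
    change 0 < 1 / ((k : ℝ) + 1)
    positivity
  have h1 := (geo3_tendsto hα a ha).comp hη
  refine tendsto_nhds_unique h1 ?_
  have h2 : Tendsto (fun k : ℕ => ∫⁻ s in Ioi (0 : ℝ),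
      ENNReal.ofReal (exp (-(1 / ((k : ℝ) + 1) * s / mu α)) * ∏ i, Phi α (‖a i‖ ^ 2 * s))) atTop
      (𝓝 (∫⁻ s in Ioi (0 : ℝ), ENNReal.ofReal (∏ i, Phi α (‖a i‖ ^ 2 * s)))) := by
    refine lintegral_tendsto_of_tendsto_of_monotone (fun k => ?_) ?_ ?_
    · exact (geo3_integrable hα a (by positivity)).aestronglyMeasurable.aemeasurable.ennreal_ofReal
    · refine (ae_restrict_iff' measurableSet_Ioi).2 (Eventually.of_forall fun s hs => ?_)
      intro k l hkl
      have hs' : 0 < s := hs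
      refine ENNReal.ofReal_le_ofReal (mul_le_mul_of_nonneg_right ?_ (h s hs'))
      rw [exp_le_exp]
      have h3 : 1 / ((l : ℝ) + 1) ≤ 1 / ((k : ℝ) + 1) := by
        refine one_div_le_one_div_of_le (by positivity) ?_
        have : (k : ℝ) ≤ l := by exact_mod_cast hkl
        linarith
      have h4 : 1 / ((l : ℝ) + 1) * s / mu α ≤ 1 / ((k : ℝ) + 1) * s / mu α := by gcongr
      linarith
    · refine Eventually.of_forall fun s => ?_
      have h5 : Continuous fun η : ℝ => ENNReal.ofReal (exp (-(η * s / mu α)) *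
          ∏ i, Phi α (‖a i‖ ^ 2 * s)) := ENNReal.continuous_ofReal.comp (by fun_prop)
      have h6 := h5.tendsto 0
      simp only [zero_mul, zero_div, neg_zero, exp_zero, one_mul] at h6
      exact h6.comp tendsto_one_div_add_atTop_nhds_zero_nat
  have h3 := ENNReal.Tendsto.const_mul (a := ENNReal.ofReal (cst α m * DD α)) h2
    (Or.inr ENNReal.ofReal_ne_top)
  refine h3.congr fun k => ?_
  have hk : 0 < 1 / ((k : ℝ) + 1) := by positivity
  rw [Function.comp_apply, Ieta_eq hα a ha hk, ENNReal.ofReal_mul (geo3_cD_nonneg hα m),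
    ofReal_integral_eq_lintegral_ofReal (geo3_integrable hα a hk)]
  refine (ae_restrict_iff' measurableSet_Ioi).2 (Eventually.of_forall fun s hs => ?_)
  exact mul_nonneg (exp_pos _).le (h s hs)

end LpSec

end

section
/-!
# T26 Vol: volumes from `sec`

`vol_gen`: the volume of `{∑ ‖L z i‖^p ≤ 1}` as a lower integral divided by a Gamma value.
`vol_map`: the map `ofLp` from `EuclideanSpace ℂ (Fin m)` to `Fin m → ℂ` preserves volume.
-/

open Real MeasureTheory Set Filter Topology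

namespace LpSec

variable {α : ℝ}

theorem vol_gen {E : Type*} [NormedAddCommGroup E] [InnerProductSpace ℝ E] [FiniteDimensional ℝ E]
    [MeasurableSpace E] [BorelSpace E] [Nontrivial E] (μ : Measure E) [μ.IsAddHaarMeasure]
    {n : ℕ} (L : E →ₗ[ℝ] (Fin n → ℂ)) (hL : Function.Injective L) {p : ℝ} (hp : 1 ≤ p) :
    μ {z : E | ∑ i, ‖L z i‖ ^ p ≤ 1} =
      (∫⁻ z, ENNReal.ofReal (exp (-∑ i, ‖L z i‖ ^ p)) ∂μ) /
        ENNReal.ofReal (Gamma (1 + Module.finrank ℝ E / p)) := by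
  have h₁ : 0 < p := by linarith
  have : (ENNReal.ofReal p).toReal = p := ENNReal.toReal_ofReal (le_of_lt h₁)
  have h₂ : ∀ x : Fin n → ℂ, 0 ≤ ∑ i, ‖x i‖ ^ p := by
    refine fun _ => Finset.sum_nonneg' ?_
    exact fun i => (fun _ => rpow_nonneg (norm_nonneg _) _) _
  have eq_norm (x : Fin n → ℂ) : ‖WithLp.toLp (.ofReal p) x‖ = (∑ i, ‖x i‖ ^ p) ^ (1 / p) := by
    simp [PiLp.norm_eq_sum (f := WithLp.toLp (.ofReal p) x) (this.symm ▸ h₁), this]
  have : Fact (1 ≤ ENNReal.ofReal p) :=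
    fact_iff.mpr (ENNReal.ofReal_one ▸ (ENNReal.ofReal_le_ofReal hp))
  have nm_zero : ‖WithLp.toLp (.ofReal p) (0 : Fin n → ℂ)‖ = 0 := norm_zero
  have eq_zero (x : Fin n → ℂ) : ‖WithLp.toLp (.ofReal p) x‖ = 0 ↔ x = 0 :=
    norm_eq_zero.trans (WithLp.toLp_eq_zero _)
  have nm_neg := fun x : Fin n → ℂ => norm_neg (WithLp.toLp (.ofReal p) x)
  have nm_add := fun x y : Fin n → ℂ =>
    norm_add_le (WithLp.toLp (.ofReal p) x) (WithLp.toLp (.ofReal p) y)
  have nm_smul := fun (r : ℝ) (x : Fin n → ℂ) =>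
    norm_smul_le (β := PiLp (.ofReal p) (fun _ : Fin n => ℂ)) r (WithLp.toLp (.ofReal p) x)
  simp_rw [← WithLp.toLp_neg, ← WithLp.toLp_add, ← WithLp.toLp_smul, eq_norm]
    at eq_zero nm_zero nm_neg nm_add nm_smul
  set g : E → ℝ := fun z => (∑ i, ‖L z i‖ ^ p) ^ (1 / p) with hg
  have g0 : g 0 = 0 := by simpa only [hg, map_zero] using nm_zero
  have gneg : ∀ x, g (-x) = g x := fun x => by simpa only [hg, map_neg] using nm_neg (L x)
  have gadd : ∀ x y, g (x + y) ≤ g x + g y := fun x y => by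
    simpa only [hg, map_add] using nm_add (L x) (L y)
  have geq : ∀ {x}, g x = 0 → x = 0 := fun {x} h => by
    have := (eq_zero (L x)).1 h
    exact hL (by rw [this, map_zero])
  have gsmul : ∀ (r : ℝ) x, g (r • x) ≤ |r| * g x := fun r x => by
    simpa only [hg, map_smul, Real.norm_eq_abs] using nm_smul r (L x)
  have hLc : Continuous L := L.continuous_of_finiteDimensional
  have gpow : ∀ z, (g z) ^ p = ∑ i, ‖L z i‖ ^ p := fun z => by
    simp only [hg]
    rw [← rpow_mul (h₂ _), div_mul_cancel₀ _ (ne_of_gt h₁), Real.rpow_one]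
  have hset1 : {z : E | ∑ i, ‖L z i‖ ^ p ≤ 1} = {z : E | g z ≤ 1} := by
    ext z
    simp only [Set.mem_ofPred_eq, hg]
    constructor
    · intro h
      exact Real.rpow_le_one (h₂ _) h (one_div_pos.mpr h₁).le
    · intro h
      by_contra hcon
      push Not at hcon
      exact absurd h (not_le.2 (Real.one_lt_rpow hcon (one_div_pos.mpr h₁)))
  have hset2 : {z : E | ∑ i, ‖L z i‖ ^ p < 1} = {z : E | g z < 1} := by
    ext z
    simp only [Set.mem_ofPred_eq, hg]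
    rw [rpow_lt_one_iff' (h₂ _) (one_div_pos.mpr h₁)]
  have hcont : Continuous fun z : E => ∑ i, ‖L z i‖ ^ p := by
    refine continuous_finsetSum _ fun i _ => ?_
    exact ((continuous_apply i).comp hLc).norm.rpow_const fun _ => Or.inr h₁.le
  have key := measure_lt_one_eq_integral_div_gamma μ g0 gneg gadd geq gsmul h₁
  simp_rw [gpow] at key
  have hGpos : 0 < Gamma (Module.finrank ℝ E / p + 1) := Gamma_pos_of_pos (by positivity)
  have hint : Integrable (fun z : E => exp (-∑ i, ‖L z i‖ ^ p)) μ := by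
    by_contra hcon
    rw [integral_undef hcon, zero_div, ENNReal.ofReal_zero, ← hset2] at key
    have hopen : IsOpen {z : E | ∑ i, ‖L z i‖ ^ p < 1} := isOpen_lt hcont continuous_const
    have hne : ({z : E | ∑ i, ‖L z i‖ ^ p < 1}).Nonempty := by
      refine ⟨0, ?_⟩
      simp only [Set.mem_ofPred_eq, map_zero, Pi.zero_apply, norm_zero]
      rw [Real.zero_rpow h₁.ne']
      simp
    exact (hopen.measure_pos μ hne).ne' key
  rw [hset1, measure_le_eq_lt μ g0 gneg gadd geq gsmul, key, ENNReal.ofReal_div_of_pos hGpos,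
    ofReal_integral_eq_lintegral_ofReal hint (ae_of_all _ fun z => (exp_pos _).le), add_comm]

theorem vol_map (m : ℕ) (hm : 1 ≤ m) :
    Measure.map (WithLp.ofLp : EuclideanSpace ℂ (Fin m) → (Fin m → ℂ)) volume = volume := by
  have : Nonempty (Fin m) := ⟨⟨0, hm⟩⟩
  have h1 : (Measure.map (PiLp.continuousLinearEquiv 2 ℝ (fun _ : Fin m => ℂ))
      (volume : Measure (EuclideanSpace ℂ (Fin m)))).IsAddHaarMeasure :=
    ContinuousLinearEquiv.isAddHaarMeasure_map _ _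
  have h2 : (PiLp.continuousLinearEquiv 2 ℝ (fun _ : Fin m => ℂ) :
    EuclideanSpace ℂ (Fin m) → (Fin m → ℂ)) = WithLp.ofLp := rfl
  have hmeas : Measurable (WithLp.ofLp : EuclideanSpace ℂ (Fin m) → (Fin m → ℂ)) := by
    rw [← h2]
    exact (PiLp.continuousLinearEquiv 2 ℝ (fun _ : Fin m => ℂ)).continuous.measurable
  rw [h2] at h1
  have hpre : (WithLp.ofLp : EuclideanSpace ℂ (Fin m) → (Fin m → ℂ)) ⁻¹'
      {x | ∑ i, ‖x i‖ ^ (2 : ℝ) < 1} = Metric.ball 0 1 := by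
    ext z
    simp only [Set.mem_preimage, Set.mem_ofPred_eq, mem_ball_zero_iff]
    rw [EuclideanSpace.norm_eq, Real.sqrt_lt' one_pos]
    simp
  have hopen : IsOpen {x : Fin m → ℂ | ∑ i, ‖x i‖ ^ (2 : ℝ) < 1} := by
    refine isOpen_lt ?_ continuous_const
    refine continuous_finsetSum _ fun i _ => ?_
    exact (continuous_apply i).norm.rpow_const fun _ => Or.inr zero_le_two
  have hfr : Module.finrank ℝ (EuclideanSpace ℂ (Fin m)) = 2 * m := by
    refine (finrank_real_of_complex (EuclideanSpace ℂ (Fin m))).trans ?_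
    rw [finrank_euclideanSpace, Fintype.card_fin]
  have hnt : Nontrivial (EuclideanSpace ℂ (Fin m)) := by
    apply Module.nontrivial_of_finrank_pos (R := ℝ)
    omega
  have hE : volume (Metric.ball (0 : EuclideanSpace ℂ (Fin m)) 1) =
      ENNReal.ofReal (π ^ m / Gamma (m + 1)) := by
    rw [InnerProductSpace.volume_ball, hfr]
    simp [pow_mul, Real.sq_sqrt pi_pos.le]
  have hF : volume {x : Fin m → ℂ | ∑ i, ‖x i‖ ^ (2 : ℝ) < 1} =
      ENNReal.ofReal (π ^ m / Gamma (m + 1)) := by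
    rw [Complex.volume_sum_rpow_lt_one _ one_le_two]
    have : Real.Gamma ((2 : ℝ) / 2 + 1) = 1 := by
      rw [div_self two_ne_zero, Real.Gamma_add_one one_ne_zero, Real.Gamma_one, one_mul]
    rw [this]
    simp
  set ν := Measure.map (WithLp.ofLp : EuclideanSpace ℂ (Fin m) → (Fin m → ℂ)) volume with hν
  have h3 := Measure.isAddLeftInvariant_eq_smul ν (volume : Measure (Fin m → ℂ))
  set c := ν.addHaarScalarFactor (volume : Measure (Fin m → ℂ)) with hc
  have h4 : ν {x | ∑ i, ‖x i‖ ^ (2 : ℝ) < 1} =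
      c • (volume : Measure (Fin m → ℂ)) {x | ∑ i, ‖x i‖ ^ (2 : ℝ) < 1} := by
    conv_lhs => rw [h3]
    rfl
  have h5 : ν {x | ∑ i, ‖x i‖ ^ (2 : ℝ) < 1} =
      (volume : Measure (Fin m → ℂ)) {x | ∑ i, ‖x i‖ ^ (2 : ℝ) < 1} := by
    rw [hν, Measure.map_apply hmeas hopen.measurableSet, hpre, hE, hF]
  have hpos : 0 < π ^ m / Gamma ((m : ℝ) + 1) :=
    div_pos (pow_pos pi_pos _) (Gamma_pos_of_pos (by positivity))
  have h6 : (c : ENNReal) * ENNReal.ofReal (π ^ m / Gamma (m + 1)) =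
      1 * ENNReal.ofReal (π ^ m / Gamma (m + 1)) := by
    rw [h5, hF] at h4
    rw [one_mul]
    exact h4.symm
  rw [ENNReal.mul_left_inj (by simpa using hpos) ENNReal.ofReal_ne_top, ENNReal.coe_eq_one] at h6
  rw [h3, h6, one_smul]

theorem vol_sec (hα : 1 < α) {m : ℕ} (hm : 1 ≤ m) (a : EuclideanSpace ℂ (Fin (m + 1)))
    (ha : ‖a‖ = 1) :
    volume {z : hyp a | ∑ i, ‖(z : EuclideanSpace ℂ (Fin (m + 1))) i‖ ^ (2 * α) ≤ 1} =
      sec α a / ENNReal.ofReal (Gamma (1 + m / α)) := by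
  have ha0 : a ≠ 0 := by
    intro h
    rw [h, norm_zero] at ha
    exact zero_ne_one ha
  have hfr : Module.finrank ℝ (hyp a) = 2 * m := by
    have h1 : Module.finrank ℂ ((ℂ ∙ a)ᗮ : Submodule ℂ (EuclideanSpace ℂ (Fin (m + 1)))) = m := by
      have := Submodule.finrank_add_finrank_orthogonal (ℂ ∙ a)
      rw [finrank_span_singleton ha0, finrank_euclideanSpace, Fintype.card_fin] at this
      omega
    have h2 := finrank_real_of_complex ((ℂ ∙ a)ᗮ : Submodule ℂ (EuclideanSpace ℂ (Fin (m + 1))))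
    rw [h1] at h2
    exact h2
  have hnt : Nontrivial (hyp a) := by
    apply Module.nontrivial_of_finrank_pos (R := ℝ)
    omega
  have hinj : Function.Injective
      ((WithLp.linearEquiv 2 ℝ (Fin (m + 1) → ℂ)).toLinearMap.comp (hyp a).subtype) :=
    (WithLp.linearEquiv 2 ℝ (Fin (m + 1) → ℂ)).injective.comp (hyp a).injective_subtype
  have key := vol_gen (E := hyp a) volume
    ((WithLp.linearEquiv 2 ℝ (Fin (m + 1) → ℂ)).toLinearMap.comp (hyp a).subtype)
    hinj (p := 2 * α) (by linarith)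
  have hα0 : α ≠ 0 := by linarith
  have hG : (1 : ℝ) + ((2 * m : ℕ) : ℝ) / (2 * α) = 1 + m / α := by
    push_cast
    field_simp
  rw [hfr, hG] at key
  exact key

theorem vol_ball (hα : 1 < α) {m : ℕ} (hm : 1 ≤ m) :
    volume {z : EuclideanSpace ℂ (Fin m) | ∑ i, ‖z i‖ ^ (2 * α) ≤ 1} =
      ENNReal.ofReal (cst α m / Gamma (1 + m / α)) := by
  have : Nonempty (Fin m) := ⟨⟨0, hm⟩⟩
  have h2 : (PiLp.continuousLinearEquiv 2 ℝ (fun _ : Fin m => ℂ) :
    EuclideanSpace ℂ (Fin m) → (Fin m → ℂ)) = WithLp.ofLp := rfl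
  have hmeas : Measurable (WithLp.ofLp : EuclideanSpace ℂ (Fin m) → (Fin m → ℂ)) := by
    rw [← h2]
    exact (PiLp.continuousLinearEquiv 2 ℝ (fun _ : Fin m => ℂ)).continuous.measurable
  have hp : 1 ≤ 2 * α := by linarith
  have hp0 : 0 < 2 * α := by linarith
  have hset : {x : Fin m → ℂ | ∑ i, ‖x i‖ ^ (2 * α) ≤ 1} =
      {x : Fin m → ℂ | (∑ i, ‖x i‖ ^ (2 * α)) ^ (1 / (2 * α)) ≤ 1} := by
    ext x
    have h0 : 0 ≤ ∑ i, ‖x i‖ ^ (2 * α) := by positivity
    simp only [Set.mem_ofPred_eq]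
    constructor
    · intro h
      exact Real.rpow_le_one h0 h (one_div_pos.mpr hp0).le
    · intro h
      by_contra hcon
      push Not at hcon
      exact absurd h (not_le.2 (Real.one_lt_rpow hcon (one_div_pos.mpr hp0)))
  have hclosed : IsClosed {x : Fin m → ℂ | ∑ i, ‖x i‖ ^ (2 * α) ≤ 1} := by
    refine isClosed_le ?_ continuous_const
    refine continuous_finsetSum _ fun i _ => ?_
    exact (continuous_apply i).norm.rpow_const fun _ => Or.inr hp0.le
  have h1 := Complex.volume_sum_rpow_le (Fin m) hp 1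
  rw [← hset, ← vol_map m hm, Measure.map_apply hmeas hclosed.measurableSet] at h1
  have hα0 : α ≠ 0 := by linarith
  have e1 : (2 : ℝ) / (2 * α) + 1 = 1 + 1 / α := by
    field_simp
    ring
  have e2 : 2 * ((Fintype.card (Fin m) : ℕ) : ℝ) / (2 * α) + 1 = 1 + m / α := by
    rw [Fintype.card_fin]
    field_simp
    ring
  rw [e2, e1, Fintype.card_fin, ENNReal.ofReal_one, one_pow, one_mul] at h1
  exact h1

end LpSec

end

section
/-!
# T13 DetIneq: a determinant inequality (Berezin/Jensen)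

`T` is symmetric and positive definite. Let `(e_k)` be an orthonormal eigenbasis of `V`
(`LinearMap.IsSymmetric.eigenvectorBasis`), eigenvalues `m_k = ⟪T e_k, e_k⟫ = ∑ i, lam i ⟪v i, e_k⟫²`
with `∑ i ⟪v i, e_k⟫² = 1`. By concavity of `log` (weighted AM-GM):
`∏ i, lam i ^ (⟪v i, e_k⟫²) ≤ m_k`. Multiply over `k`: `∏ i, lam i ^ (∑ k ⟪v i, e_k⟫²) ≤ det T`, and
`∑ k ⟪v i, e_k⟫² = ‖proj_V (v i)‖²`.
-/

open Real MeasureTheory Set
open scoped RealInnerProductSpace

namespace LpSec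

theorem det_ineq {E : Type*} [NormedAddCommGroup E] [InnerProductSpace ℝ E]
    [FiniteDimensional ℝ E] (V : Submodule ℝ E) {ι : Type*} [Fintype ι]
    (v : OrthonormalBasis ι ℝ E) (lam : ι → ℝ) (hl : ∀ i, 0 < lam i) (T : V →ₗ[ℝ] V)
    (hT : ∀ x y : V, ⟪T x, y⟫ = ∑ i, lam i * ⟪v i, (x : E)⟫ * ⟪v i, (y : E)⟫) :
    ∏ i, lam i ^ (‖V.orthogonalProjectionOnto (v i)‖ ^ 2) ≤ LinearMap.det T := by
  have hsym : T.IsSymmetric := by
    intro x y
    rw [hT x y, real_inner_comm, hT y x]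
    exact Finset.sum_congr rfl fun i _ => by ring
  set n := Module.finrank ℝ V with hn
  set e := hsym.eigenvectorBasis (n := n) rfl with he
  set m := hsym.eigenvalues (n := n) rfl with hm
  have hmk : ∀ k, m k = ∑ i, ⟪v i, ((e k : V) : E)⟫ ^ 2 * lam i := by
    intro k
    have h1 : ⟪T (e k), e k⟫ = m k := by
      rw [he, hsym.apply_eigenvectorBasis, real_inner_smul_left, real_inner_self_eq_norm_sq,
        OrthonormalBasis.norm_eq_one]
      simp [hm]
    rw [← h1, hT]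
    exact Finset.sum_congr rfl fun i _ => by ring
  have hsum1 : ∀ k, ∑ i, ⟪v i, ((e k : V) : E)⟫ ^ 2 = 1 := by
    intro k
    have h1 := v.sum_sq_norm_inner_right ((e k : V) : E)
    have h2 : ‖((e k : V) : E)‖ = 1 := by
      rw [Submodule.norm_coe, OrthonormalBasis.norm_eq_one]
    rw [h2] at h1
    simpa using h1
  have hamgm : ∀ k, ∏ i, lam i ^ (⟪v i, ((e k : V) : E)⟫ ^ 2) ≤ m k := by
    intro k
    rw [hmk k]
    exact Real.geom_mean_le_arith_mean_weighted Finset.univ _ _ (fun i _ => sq_nonneg _)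
      (hsum1 k) (fun i _ => (hl i).le)
  have hdet : LinearMap.det T = ∏ k, m k := by
    have := hsym.det_eq_prod_eigenvalues (n := n) rfl
    simpa [hm] using this
  have hproj : ∀ i, ‖V.orthogonalProjectionOnto (v i)‖ ^ 2 = ∑ k, ⟪v i, ((e k : V) : E)⟫ ^ 2 := by
    intro i
    have h1 := e.sum_sq_norm_inner_right (V.orthogonalProjectionOnto (v i))
    rw [← h1]
    refine Finset.sum_congr rfl fun k _ => ?_
    rw [real_inner_comm, Submodule.inner_orthogonalProjectionOnto_eq_of_mem_right]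
    simp
  rw [hdet]
  calc ∏ i, lam i ^ (‖V.orthogonalProjectionOnto (v i)‖ ^ 2)
      = ∏ i, ∏ k, lam i ^ (⟪v i, ((e k : V) : E)⟫ ^ 2) := by
        refine Finset.prod_congr rfl fun i _ => ?_
        rw [hproj i, Real.rpow_sum_of_pos (hl i)]
    _ = ∏ k, ∏ i, lam i ^ (⟪v i, ((e k : V) : E)⟫ ^ 2) := Finset.prod_comm
    _ ≤ ∏ k, m k := by
        refine Finset.prod_le_prod (fun k _ => ?_) (fun k _ => hamgm k)
        exact Finset.prod_nonneg fun i _ => Real.rpow_nonneg (hl i).le _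

end LpSec

end

section
/-!
# T14 Transport: the radial map pushing `exp (-|z|^(2α))` to a Gaussian

`W α ρ = ∫_0^ρ exp (-t^α) dt / Γ(1+1/α) ∈ (0,1)` for `ρ > 0` (`integral_exp_neg_rpow`),
`eta = - log (1 - W)`, `etaD = W'/(1-W)`, `gg ρ = √(eta ρ / ρ)`, `Tm w = gg(|w|²) w`.
* `exp_eq`: `exp (-ρ^α) = Γ(1+1/α) exp (-eta ρ) etaD ρ` (as `exp (-eta) = 1 - W`).
* `gg`: `ρ gg² = eta`, differentiate: `gg² + 2 ρ gg gg' = etaD`; in particular `gg + 2 ρ gg' > 0`.
* `Tm_mono`: with `r = |w|`, `φ(r) = √(eta (r²)) = r gg(r²)` strictly increasing: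
  `⟪Tm w - Tm w', w - w'⟫ = φ(r) r + φ(r') r' - (φ(r)/r + φ(r')/r') ⟪w,w'⟫ ≥ (φ(r)-φ(r'))(r-r')`, with
  equality only if `⟪w,w'⟫ = r r'`.
-/

open Real MeasureTheory Set
open scoped RealInnerProductSpace

namespace LpSec

variable {α : ℝ}

noncomputable def W (α ρ : ℝ) : ℝ := (∫ t in (0 : ℝ)..ρ, exp (-t ^ α)) / Gamma (1 + 1 / α)

noncomputable def eta (α ρ : ℝ) : ℝ := -log (1 - W α ρ)

noncomputable def etaD (α ρ : ℝ) : ℝ := exp (-ρ ^ α) / (Gamma (1 + 1 / α) * (1 - W α ρ))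

noncomputable def gg (α ρ : ℝ) : ℝ := √(eta α ρ / ρ)

/-- derivative of `gg` -/
noncomputable def ggD (α ρ : ℝ) : ℝ := (etaD α ρ - gg α ρ ^ 2) / (2 * ρ * gg α ρ)

noncomputable def Tm (α : ℝ) (w : ℂ) : ℂ := (gg α (‖w‖ ^ 2) : ℂ) * w

theorem Gamma_pos_aux (hα : 1 < α) : 0 < Gamma (1 + 1 / α) := by
  have : 0 < 1 / α := by positivity
  exact Gamma_pos_of_pos (by linarith)

theorem continuous_exp_neg_rpow (hα : 1 < α) : Continuous (fun t : ℝ => exp (-t ^ α)) := by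
  have h1 : Continuous (fun t : ℝ => t ^ α) := continuous_id.rpow_const (fun x => Or.inr (by linarith))
  fun_prop

theorem integrableOn_exp_neg_rpow_aux (hα : 1 < α) :
    IntegrableOn (fun t : ℝ => exp (-t ^ α)) (Ioi 0) := by
  have h := integrableOn_rpow_mul_exp_neg_rpow (s := 0) (p := α) (by norm_num) (by linarith)
  refine h.congr_fun ?_ measurableSet_Ioi
  intro x hx
  simp

theorem W_lt_one (hα : 1 < α) (ρ : ℝ) (h : 0 < ρ) : W α ρ < 1 := by
  have hG := Gamma_pos_aux hα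
  have hint := integrableOn_exp_neg_rpow_aux hα
  have hE : ∫ t in Ioi (0 : ℝ), exp (-t ^ α) = Gamma (1 + 1 / α) := by
    rw [integral_exp_neg_rpow (by linarith), add_comm]
  have hsplit : (∫ t in (0 : ℝ)..ρ, exp (-t ^ α)) + ∫ t in Ioi ρ, exp (-t ^ α)
      = ∫ t in Ioi (0 : ℝ), exp (-t ^ α) := by
    rw [intervalIntegral.integral_of_le h.le, ← setIntegral_union Ioc_disjoint_Ioi_same
      measurableSet_Ioi (hint.mono_set Ioc_subset_Ioi_self)
      (hint.mono_set (Ioi_subset_Ioi h.le)), Ioc_union_Ioi_eq_Ioi h.le]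
  have hpos : 0 < ∫ t in Ioi ρ, exp (-t ^ α) := by
    rw [setIntegral_pos_iff_support_of_nonneg_ae]
    · have : Function.support (fun t : ℝ => exp (-t ^ α)) = univ := by
        ext x
        simp [exp_ne_zero]
      rw [this, univ_inter]
      simp
    · exact Filter.Eventually.of_forall (fun x => (exp_pos _).le)
    · exact hint.mono_set (Ioi_subset_Ioi h.le)
  unfold W
  rw [div_lt_one hG]
  linarith

theorem W_pos (hα : 1 < α) {ρ : ℝ} (h : 0 < ρ) : 0 < W α ρ := by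
  have hG := Gamma_pos_aux hα
  unfold W
  refine div_pos ?_ hG
  exact intervalIntegral.intervalIntegral_pos_of_pos
    ((continuous_exp_neg_rpow hα).intervalIntegrable _ _) (fun x => exp_pos _) h

theorem eta_pos (hα : 1 < α) {ρ : ℝ} (h : 0 < ρ) : 0 < eta α ρ := by
  have h1 := W_lt_one hα ρ h
  have h2 := W_pos hα h
  unfold eta
  have := log_neg (x := 1 - W α ρ) (by linarith) (by linarith)
  linarith

theorem etaD_pos (hα : 1 < α) {ρ : ℝ} (h : 0 < ρ) : 0 < etaD α ρ := by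
  have h1 := W_lt_one hα ρ h
  have hG := Gamma_pos_aux hα
  unfold etaD
  have : 0 < 1 - W α ρ := by linarith
  positivity

theorem exp_eq (hα : 1 < α) {ρ : ℝ} (h : 0 < ρ) :
    exp (-ρ ^ α) = Gamma (1 + 1 / α) * exp (-eta α ρ) * etaD α ρ := by
  have h1 := W_lt_one hα ρ h
  have hG := Gamma_pos_aux hα
  have h2 : 0 < 1 - W α ρ := by linarith
  unfold eta etaD
  rw [neg_neg, exp_log h2]
  field_simp

theorem W_hasDerivAt (hα : 1 < α) (ρ : ℝ) :
    HasDerivAt (W α) (exp (-ρ ^ α) / Gamma (1 + 1 / α)) ρ := by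
  unfold W
  apply HasDerivAt.div_const
  exact intervalIntegral.integral_hasDerivAt_right
    ((continuous_exp_neg_rpow hα).intervalIntegrable _ _)
    ((continuous_exp_neg_rpow hα).stronglyMeasurableAtFilter _ _)
    (continuous_exp_neg_rpow hα).continuousAt

theorem eta_hasDerivAt (hα : 1 < α) {ρ : ℝ} (h : 0 < ρ) :
    HasDerivAt (eta α) (etaD α ρ) ρ := by
  have h1 := W_lt_one hα ρ h
  have hG := Gamma_pos_aux hα
  have h2 : 0 < 1 - W α ρ := by linarith
  have h3 := ((W_hasDerivAt hα ρ).const_sub 1).log h2.ne'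
  have h4 := h3.neg
  have e : etaD α ρ = -(-(exp (-ρ ^ α) / Gamma (1 + 1 / α)) / (1 - W α ρ)) := by
    unfold etaD
    field_simp
  rw [e]
  exact h4

theorem gg_pos (hα : 1 < α) {ρ : ℝ} (h : 0 < ρ) : 0 < gg α ρ := by
  have := eta_pos hα h
  unfold gg
  positivity

theorem gg_sq' (hα : 1 < α) {ρ : ℝ} (h : 0 < ρ) : gg α ρ ^ 2 = eta α ρ / ρ := by
  have := eta_pos hα h
  unfold gg
  rw [sq_sqrt (by positivity)]

theorem gg_sq (hα : 1 < α) {ρ : ℝ} (h : 0 < ρ) : ρ * gg α ρ ^ 2 = eta α ρ := by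
  rw [gg_sq' hα h]
  field_simp

theorem gg_hasDerivAt (hα : 1 < α) {ρ : ℝ} (h : 0 < ρ) : HasDerivAt (gg α) (ggD α ρ) ρ := by
  have he := eta_pos hα h
  have hq : 0 < eta α ρ / ρ := by positivity
  have h1 := ((eta_hasDerivAt hα h).div (hasDerivAt_id ρ) h.ne').sqrt hq.ne'
  have hg := gg_pos hα h
  have e : ggD α ρ = (etaD α ρ * id ρ - eta α ρ * 1) / id ρ ^ 2 / (2 * √(eta α ρ / id ρ)) := by
    unfold ggD
    rw [gg_sq' hα h]
    have : √(eta α ρ / id ρ) = gg α ρ := rfl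
    rw [this]
    simp only [id]
    field_simp
  rw [e]
  exact h1

theorem gg_mul (hα : 1 < α) {ρ : ℝ} (h : 0 < ρ) :
    gg α ρ * (gg α ρ + 2 * ρ * ggD α ρ) = etaD α ρ := by
  have hg := gg_pos hα h
  unfold ggD
  field_simp
  ring

theorem gg_add_pos (hα : 1 < α) {ρ : ℝ} (h : 0 < ρ) : 0 < gg α ρ + 2 * ρ * ggD α ρ := by
  have h1 := gg_mul hα h
  have h2 := gg_pos hα h
  have h3 := etaD_pos hα h
  rw [← h1] at h3
  exact pos_of_mul_pos_right h3 h2.le

theorem eta_strictMonoOn (hα : 1 < α) : StrictMonoOn (eta α) (Ioi 0) := by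
  apply strictMonoOn_of_deriv_pos (convex_Ioi 0)
  · intro x hx
    exact (eta_hasDerivAt hα hx).continuousAt.continuousWithinAt
  · intro x hx
    rw [interior_Ioi] at hx
    rw [(eta_hasDerivAt hα hx).deriv]
    exact etaD_pos hα hx

theorem gg_lt (hα : 1 < α) {r s : ℝ} (hr : 0 < r) (h : r < s) :
    gg α (r ^ 2) * r < gg α (s ^ 2) * s := by
  have hs : 0 < s := hr.trans h
  have h1 : eta α (r ^ 2) < eta α (s ^ 2) :=
    eta_strictMonoOn hα (mem_Ioi.2 (by positivity)) (mem_Ioi.2 (by positivity)) (by nlinarith)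
  rw [← gg_sq hα (by positivity : 0 < r ^ 2), ← gg_sq hα (by positivity : 0 < s ^ 2)] at h1
  have h2 := gg_pos hα (by positivity : 0 < r ^ 2)
  have h3 := gg_pos hα (by positivity : 0 < s ^ 2)
  nlinarith [mul_pos h2 hr, mul_pos h3 hs]

theorem Tm_mono (hα : 1 < α) {w w' : ℂ} (hw : w ≠ 0) (hw' : w' ≠ 0) (h : w ≠ w') :
    0 < ⟪Tm α w - Tm α w', w - w'⟫ := by
  have hr : 0 < ‖w‖ := norm_pos_iff.2 hw
  have hr' : 0 < ‖w'‖ := norm_pos_iff.2 hw'
  have hg := gg_pos hα (by positivity : 0 < ‖w‖ ^ 2)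
  have hg' := gg_pos hα (by positivity : 0 < ‖w'‖ ^ 2)
  have hT : ∀ z : ℂ, Tm α z = gg α (‖z‖ ^ 2) • z := by
    intro z
    unfold Tm
    rw [Complex.real_smul]
  have hin : ⟪Tm α w - Tm α w', w - w'⟫ = gg α (‖w‖ ^ 2) * ‖w‖ ^ 2 + gg α (‖w'‖ ^ 2) * ‖w'‖ ^ 2
      - (gg α (‖w‖ ^ 2) + gg α (‖w'‖ ^ 2)) * ⟪w, w'⟫ := by
    rw [hT, hT, inner_sub_left, inner_sub_right, inner_sub_right, real_inner_smul_left,
      real_inner_smul_left, real_inner_smul_left, real_inner_smul_left,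
      real_inner_self_eq_norm_sq, real_inner_self_eq_norm_sq, real_inner_comm w w']
    ring
  have hCS : ⟪w, w'⟫ ≤ ‖w‖ * ‖w'‖ := real_inner_le_norm w w'
  rw [hin]
  rcases lt_trichotomy ‖w‖ ‖w'‖ with hlt | heq | hgt
  · have h1 := gg_lt hα hr hlt
    nlinarith [mul_pos (sub_pos.2 h1) (sub_pos.2 hlt), mul_le_mul_of_nonneg_left hCS (add_pos hg hg').le]
  · have h2 : 0 < ‖w - w'‖ ^ 2 := by
      have : 0 < ‖w - w'‖ := norm_pos_iff.2 (sub_ne_zero.2 h)
      positivity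
    rw [norm_sub_sq_real] at h2
    rw [← heq] at h2 ⊢
    have h3 : ⟪w, w'⟫ < ‖w‖ ^ 2 := by linarith
    nlinarith [mul_pos hg (sub_pos.2 h3)]
  · have h1 := gg_lt hα hr' hgt
    nlinarith [mul_pos (sub_pos.2 h1) (sub_pos.2 hgt), mul_le_mul_of_nonneg_left hCS (add_pos hg hg').le]

end LpSec

end

section
/-!
# T15 BL: the Brascamp–Lieb bound for `sec` (Barthe's transport proof)

`V = hyp a` (real dimension `2m`), `c i = 1 - ‖a i‖² ∈ (0,1]`, `∑ c i = m`, `x = 1/α`, `P` the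
orthogonal projection of `ℂ^{m+1}` onto `V` (`P w = w - ⟪a,w⟫ a`), so `‖P (ζ e_i)‖² = c i` for
`|ζ| = 1`. On `V' = {z ∈ V | ∀ i, z i ≠ 0}` (complement null: each `z ↦ z i` is a nonzero linear map
on `V`, kernel = proper subspace, `Measure.addHaar_submodule`) put `ρ i = c i ^ (-x) ‖z i‖²` and
`Θ z = P (i ↦ c i ^ ((1-x)/2) gg(ρ i) z i)`.
* `‖Θ z‖² ≤ ∑ c i ^ (1-x) gg(ρ i)² ‖z i‖² = ∑ c i eta (ρ i)`.
* `Θ` is injective on `V'`: `⟪Θ z - Θ z', z - z'⟫ = ∑ c_i^{(1-x)/2} ⟪gg(ρ i) z i - gg(ρ' i) z' i,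
  z i - z' i⟫ > 0` unless `z = z'` (`Tm_mono` applied to `c_i^{-x/2} z i`).
* `D Θ(z) v = P (i ↦ c i ^ ((1-x)/2) (gg v i + 2 ggD c_i^{-x} ⟪z i, v i⟫ z i))`; the inner operator is
  diagonal in the orthonormal basis `ẑ_i e_i`, `I ẑ_i e_i` (`ẑ_i = z i/|z i|`) with eigenvalues
  `c_i^{(1-x)/2} (gg + 2 ρ ggD)` and `c_i^{(1-x)/2} gg`, product `c_i^{1-x} etaD (ρ i)` (`gg_mul`). By
  `det_ineq`: `det DΘ ≥ ∏ (c_i^{1-x} etaD (ρ i))^{c i} > 0`.
* integrand: `exp (-∑ ‖z i‖^{2α}) = ∏ (exp (-(ρ i)^α))^{c i}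
  = Γ^m exp (-∑ c i eta(ρ i)) ∏ etaD (ρ i)^{c i}
  ≤ Γ^m (∏ c_i^{-(1-x) c_i}) exp (-‖Θ z‖²) det DΘ`.
* change of variables: `lintegral_image_eq_lintegral_abs_det_fderiv_mul` and
  `∫_V exp (-‖y‖²) = π^m` (`GaussianFourier.integral_rexp_neg_mul_sq_norm`).
-/

open Real MeasureTheory Set
open scoped RealInnerProductSpace

namespace LpSec

variable {α : ℝ}

/-! ### planar lemmas -/

/-- derivative of `Tm` -/
private noncomputable def DTm (α : ℝ) (w : ℂ) : ℂ →L[ℝ] ℂ :=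
  gg α (‖w‖ ^ 2) • ContinuousLinearMap.id ℝ ℂ +
    ((2 * ggD α (‖w‖ ^ 2)) • (innerSL ℝ w)).smulRight w

private lemma DTm_apply (w v : ℂ) : DTm α w v =
    gg α (‖w‖ ^ 2) • v + (2 * ggD α (‖w‖ ^ 2) * ⟪w, v⟫) • w := by
  simp [DTm]

private lemma Tm_eq (w : ℂ) : Tm α w = gg α (‖w‖ ^ 2) • w := by
  simp [Tm]

private lemma hasFDerivAt_Tm (hα : 1 < α) {w : ℂ} (hw : w ≠ 0) :
    HasFDerivAt (Tm α) (DTm α w) w := by
  have hpos : 0 < ‖w‖ ^ 2 := by positivity
  have h1 : HasFDerivAt (fun w : ℂ => ‖w‖ ^ 2) (2 • (innerSL ℝ w)) w :=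
    (hasStrictFDerivAt_norm_sq w).hasFDerivAt
  have h2 := (gg_hasDerivAt hα hpos).comp_hasFDerivAt w h1
  have h3 := h2.smul (hasFDerivAt_id w)
  have h4 : Tm α = (gg α ∘ fun w : ℂ => ‖w‖ ^ 2) • (id : ℂ → ℂ) := by
    funext w
    rw [Tm_eq]
    rfl
  rw [h4]
  refine h3.congr_fderiv ?_
  ext v
  rw [DTm_apply]
  simp only [Function.comp_apply, add_apply, smul_apply,
    ContinuousLinearMap.smulRight_apply, innerSL_apply_apply, id_eq, smul_eq_mul, nsmul_eq_mul,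
    ContinuousLinearMap.id_apply]
  congr 2
  push_cast
  ring

private lemma frame (e u w : ℂ) (he : ‖e‖ = 1) :
    ⟪u, w⟫ = ⟪e, u⟫ * ⟪e, w⟫ + ⟪Complex.I * e, u⟫ * ⟪Complex.I * e, w⟫ := by
  have h : e.re ^ 2 + e.im ^ 2 = 1 := by
    have := Complex.sq_norm e
    rw [he, Complex.normSq_apply] at this
    nlinarith
  simp only [Complex.inner, Complex.mul_re, Complex.mul_im, Complex.conj_re, Complex.conj_im,
    Complex.I_re, Complex.I_im]
  linear_combination (-(u.re * w.re + u.im * w.im)) * h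

private lemma inner_I (e : ℂ) : ⟪e, Complex.I * e⟫ = 0 := by
  simp only [Complex.inner, Complex.mul_re, Complex.mul_im, Complex.conj_re, Complex.conj_im,
    Complex.I_re, Complex.I_im]
  ring

/-! ### maps on the Euclidean space -/

private noncomputable def prj {n : ℕ} (i : Fin n) : EuclideanSpace ℂ (Fin n) →L[ℝ] ℂ :=
  PiLp.proj 2 (fun _ => ℂ) i

private lemma prj_apply {n : ℕ} (i : Fin n) (z : EuclideanSpace ℂ (Fin n)) : prj i z = z i := rfl

private noncomputable def diagL {n : ℕ} (A : Fin n → ℂ →L[ℝ] ℂ) :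
    EuclideanSpace ℂ (Fin n) →L[ℝ] EuclideanSpace ℂ (Fin n) :=
  (PiLp.continuousLinearEquiv 2 ℝ (fun _ : Fin n => ℂ)).symm.toContinuousLinearMap ∘L
    (ContinuousLinearMap.pi fun i => A i ∘L prj i)

private lemma diagL_apply {n : ℕ} (A : Fin n → ℂ →L[ℝ] ℂ) (v : EuclideanSpace ℂ (Fin n))
    (i : Fin n) : diagL A v i = A i (v i) := rfl

private lemma inner_eq {n : ℕ} (z w : EuclideanSpace ℂ (Fin n)) :
    ⟪z, w⟫ = ∑ i, ⟪z i, w i⟫ := PiLp.inner_apply z w

private lemma inner_re {n : ℕ} (z w : EuclideanSpace ℂ (Fin n)) :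
    ⟪z, w⟫ = (inner ℂ z w).re := by
  rw [inner_eq, PiLp.inner_apply, Complex.re_sum]
  refine Finset.sum_congr rfl fun i _ => ?_
  rfl

private lemma mem_hyp_bl {n : ℕ} {a z : EuclideanSpace ℂ (Fin n)} :
    z ∈ hyp a ↔ inner ℂ a z = 0 := by
  unfold hyp
  rw [Submodule.restrictScalars_mem, Submodule.mem_orthogonal_singleton_iff_inner_right]

private lemma single_inner {n : ℕ} (i j : Fin n) (u w : ℂ) :
    ⟪(EuclideanSpace.single i u : EuclideanSpace ℂ (Fin n)), EuclideanSpace.single j w⟫ =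
      if i = j then ⟪u, w⟫ else 0 := by
  rw [inner_eq]
  by_cases h : i = j
  · subst h
    rw [if_pos rfl, Finset.sum_eq_single i]
    · simp
    · intro k _ hk
      simp [hk]
    · simp
  · rw [if_neg h]
    refine Finset.sum_eq_zero fun k _ => ?_
    by_cases hk : k = i
    · subst hk
      simp [h]
    · simp [hk]

private lemma inner_single {n : ℕ} (i : Fin n) (u : ℂ) (z : EuclideanSpace ℂ (Fin n)) :
    ⟪(EuclideanSpace.single i u : EuclideanSpace ℂ (Fin n)), z⟫ = ⟪u, z i⟫ := by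
  rw [inner_eq, Finset.sum_eq_single i]
  · simp
  · intro k _ hk
    simp [hk]
  · simp

/-- the projection of a unit coordinate vector -/
private lemma proj_single {n : ℕ} (a : EuclideanSpace ℂ (Fin n)) (ha : ‖a‖ = 1) (i : Fin n)
    (ζ : ℂ) (hζ : ‖ζ‖ = 1) :
    ‖(hyp a).orthogonalProjectionOnto (EuclideanSpace.single i ζ)‖ ^ 2 = 1 - ‖a i‖ ^ 2 := by
  set v : EuclideanSpace ℂ (Fin n) := EuclideanSpace.single i ζ with hv
  set t : ℂ := inner ℂ a v with ht
  have ht' : t = (starRingEnd ℂ) (a i) * ζ := by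
    rw [ht, hv, EuclideanSpace.inner_single_right]
    ring
  have htn : ‖t‖ = ‖a i‖ := by
    rw [ht', norm_mul, hζ, mul_one, RCLike.norm_conj]
  set u : EuclideanSpace ℂ (Fin n) := v - t • a with hu
  have hum : u ∈ hyp a := by
    rw [mem_hyp_bl, hu, inner_sub_right, inner_smul_right, inner_self_eq_norm_sq_to_K, ha, ← ht]
    simp
  have horth : ∀ w ∈ hyp a, ⟪v - u, w⟫ = 0 := by
    intro w hw
    rw [mem_hyp_bl] at hw
    have : v - u = t • a := by rw [hu]; abel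
    rw [this, inner_re, inner_smul_left, hw, mul_zero, Complex.zero_re]
  have hP : (hyp a).starProjection v = u :=
    Submodule.eq_starProjection_of_mem_of_inner_eq_zero hum horth
  have hn : ‖(hyp a).orthogonalProjectionOnto v‖ = ‖u‖ := by
    rw [← hP]; rfl
  rw [hn]
  have h1 : ⟪v - u, u⟫ = 0 := horth u hum
  have h2 : ‖v‖ ^ 2 = ‖v - u‖ ^ 2 + ‖u‖ ^ 2 := by
    have h3 := norm_add_sq_real (v - u) u
    rw [h1, sub_add_cancel] at h3
    linarith
  have h3 : ‖v‖ = 1 := by rw [hv]; simp [hζ]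
  have h4 : ‖v - u‖ = ‖a i‖ := by
    have : v - u = t • a := by rw [hu]; abel
    rw [this, norm_smul, ha, mul_one, htn]
  rw [h3, h4] at h2
  linarith

private lemma finrank_hyp {m : ℕ} (a : EuclideanSpace ℂ (Fin (m + 1))) (ha : ‖a‖ = 1) :
    Module.finrank ℝ (hyp a) = 2 * m := by
  have h0 : a ≠ 0 := by
    intro h; rw [h, norm_zero] at ha; exact zero_ne_one ha
  have : Fact (Module.finrank ℂ (EuclideanSpace ℂ (Fin (m + 1))) = m + 1) :=
    ⟨by rw [finrank_euclideanSpace_fin]⟩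
  have h1 : Module.finrank ℂ ((ℂ ∙ a)ᗮ : Submodule ℂ (EuclideanSpace ℂ (Fin (m + 1)))) = m :=
    Submodule.finrank_orthogonal_span_singleton h0
  have h2 := finrank_real_of_complex ((ℂ ∙ a)ᗮ : Submodule ℂ (EuclideanSpace ℂ (Fin (m + 1))))
  rw [h1] at h2
  rw [← h2]
  rfl

/-- orthonormal basis adapted to unit numbers -/
private lemma exists_basis {n : ℕ} [NeZero n] (e : Fin n → ℂ) (he : ∀ i, ‖e i‖ = 1) :
    ∃ v : OrthonormalBasis (Fin n × Bool) ℝ (EuclideanSpace ℂ (Fin n)),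
      (∀ i, v (i, false) = EuclideanSpace.single i (e i)) ∧
      ∀ i, v (i, true) = EuclideanSpace.single i (Complex.I * e i) := by
  let f : Fin n × Bool → EuclideanSpace ℂ (Fin n) := fun q =>
    EuclideanSpace.single q.1 (if q.2 then Complex.I * e q.1 else e q.1)
  have hf : Orthonormal ℝ f := by
    rw [orthonormal_iff_ite]
    rintro ⟨i, s⟩ ⟨j, s'⟩
    simp only [f]
    rw [single_inner]
    by_cases h : i = j
    · subst h
      have h1 : ⟪e i, e i⟫ = 1 := by rw [real_inner_self_eq_norm_sq, he]; norm_num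
      have h2 : ⟪Complex.I * e i, Complex.I * e i⟫ = 1 := by
        rw [real_inner_self_eq_norm_sq, norm_mul, he, Complex.norm_I]; norm_num
      have h3 := inner_I (e i)
      have h4 : ⟪Complex.I * e i, e i⟫ = 0 := by rw [real_inner_comm]; exact h3
      cases s <;> cases s' <;> simp [h3, h4, he]
    · simp [h]
  have hcard : Fintype.card (Fin n × Bool) = Module.finrank ℝ (EuclideanSpace ℂ (Fin n)) := by
    rw [finrank_real_of_complex, finrank_euclideanSpace_fin]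
    simp [mul_comm]
  have hspan : ⊤ ≤ Submodule.span ℝ (Set.range f) := by
    have := hf.linearIndependent.span_eq_top_of_card_eq_finrank' hcard
    rw [this]
  refine ⟨OrthonormalBasis.mk hf hspan, fun i => ?_, fun i => ?_⟩
  · rw [OrthonormalBasis.coe_mk]; simp [f]
  · rw [OrthonormalBasis.coe_mk]; simp [f]

private abbrev EE (m : ℕ) := EuclideanSpace ℂ (Fin (m + 1))

/-! ### the transport map -/

section transport

/-- the map in one coordinate -/
private noncomputable def hc (α c : ℝ) (u : ℂ) : ℂ := √c • Tm α (c ^ (-(1 / α) / 2) • u)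

private noncomputable def hcD (α c : ℝ) (u : ℂ) : ℂ →L[ℝ] ℂ :=
  (√c * c ^ (-(1 / α) / 2)) • DTm α (c ^ (-(1 / α) / 2) • u)

private lemma hasFDerivAt_hc (hα : 1 < α) {c : ℝ} (hc0 : 0 < c) {u : ℂ} (hu : u ≠ 0) :
    HasFDerivAt (hc α c) (hcD α c u) u := by
  have hb : (0 : ℝ) < c ^ (-(1 / α) / 2) := rpow_pos_of_pos hc0 _
  have h1 : HasFDerivAt (fun u : ℂ => c ^ (-(1 / α) / 2) • u)
      (c ^ (-(1 / α) / 2) • ContinuousLinearMap.id ℝ ℂ) u :=
    (hasFDerivAt_id u).const_smul (c ^ (-(1 / α) / 2))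
  have h2 : HasFDerivAt (Tm α) (DTm α (c ^ (-(1 / α) / 2) • u)) (c ^ (-(1 / α) / 2) • u) :=
    hasFDerivAt_Tm hα (smul_ne_zero hb.ne' hu)
  have h3 := (h2.comp u h1).const_smul (√c)
  refine h3.congr_fderiv ?_
  ext v
  simp only [hcD, smul_apply, ContinuousLinearMap.comp_apply, ContinuousLinearMap.id_apply,
    map_smul, smul_smul]

private lemma hc_mono (hα : 1 < α) {c : ℝ} (hc0 : 0 < c) {u u' : ℂ} (hu : u ≠ 0) (hu' : u' ≠ 0)
    (h : u ≠ u') : 0 < ⟪hc α c u - hc α c u', u - u'⟫ := by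
  have hb : (0 : ℝ) < c ^ (-(1 / α) / 2) := rpow_pos_of_pos hc0 _
  have hs : (0 : ℝ) < √c := sqrt_pos.2 hc0
  set b := c ^ (-(1 / α) / 2)
  have h1 := Tm_mono hα (w := b • u) (w' := b • u') (smul_ne_zero hb.ne' hu)
    (smul_ne_zero hb.ne' hu') (fun h' => h (smul_right_injective ℂ hb.ne' h'))
  rw [← smul_sub, real_inner_smul_right] at h1
  have h2 : hc α c u - hc α c u' = √c • (Tm α (b • u) - Tm α (b • u')) := by
    rw [smul_sub]; rfl
  rw [h2, real_inner_smul_left]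
  have h3 : 0 < ⟪Tm α (b • u) - Tm α (b • u'), u - u'⟫ := by
    by_contra hcon
    push Not at hcon
    nlinarith
  positivity

private lemma norm_arg {c : ℝ} (hc0 : 0 < c) (u : ℂ) :
    ‖c ^ (-(1 / α) / 2) • u‖ ^ 2 = c ^ (-(1 / α)) * ‖u‖ ^ 2 := by
  rw [norm_smul, mul_pow, Real.norm_of_nonneg (rpow_nonneg hc0.le _), ← rpow_natCast,
    ← rpow_mul hc0.le]
  norm_num

private lemma hc_norm (hα : 1 < α) {c : ℝ} (hc0 : 0 < c) {u : ℂ} (hu : u ≠ 0) :
    ‖hc α c u‖ ^ 2 = c * eta α (c ^ (-(1 / α)) * ‖u‖ ^ 2) := by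
  have hρ : 0 < c ^ (-(1 / α)) * ‖u‖ ^ 2 := by positivity
  unfold hc
  rw [Tm_eq, norm_smul, norm_smul, mul_pow, mul_pow, norm_arg hc0, ← gg_sq hα hρ,
    Real.norm_of_nonneg (sqrt_nonneg _), sq_sqrt hc0.le, Real.norm_eq_abs, sq_abs]
  ring

/-- the one dimensional computation behind the change of variables -/
private lemma one_factor (hα : 1 < α) {c r : ℝ} (hc0 : 0 < c) (hr : 0 < r) :
    exp (-(r ^ (2 * α))) = Gamma (1 + 1 / α) ^ c * exp (-(c * eta α (c ^ (-(1 / α)) * r ^ 2))) *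
      (c ^ (1 - 1 / α) * etaD α (c ^ (-(1 / α)) * r ^ 2)) ^ c *
        exp ((1 - 1 / α) * negMulLog c) := by
  have hα0 : 0 < α := by linarith
  set ρ := c ^ (-(1 / α)) * r ^ 2 with hρ
  have hρ0 : 0 < ρ := by positivity
  have hΓ : 0 < Gamma (1 + 1 / α) := Gamma_pos_of_pos (by positivity)
  have hD := etaD_pos hα hρ0
  have h1 : ρ ^ α = c⁻¹ * r ^ (2 * α) := by
    rw [hρ, mul_rpow (by positivity) (by positivity), ← rpow_mul hc0.le, ← rpow_natCast,
      ← rpow_mul hr.le]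
    have : -(1 / α) * α = -1 := by field_simp
    rw [this, rpow_neg_one]
    norm_num
  have h2 : exp (-(r ^ (2 * α))) = (exp (-ρ ^ α)) ^ c := by
    rw [← exp_mul, h1]
    congr 1
    field_simp
  rw [h2, exp_eq hα hρ0, mul_rpow (by positivity) hD.le, mul_rpow hΓ.le (exp_pos _).le,
    mul_rpow (by positivity) hD.le, ← exp_mul]
  have h3 : (c ^ (1 - 1 / α)) ^ c * exp ((1 - 1 / α) * negMulLog c) = 1 := by
    rw [← rpow_mul hc0.le, rpow_def_of_pos hc0, ← exp_add, negMulLog]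
    rw [show log c * ((1 - 1 / α) * c) + (1 - 1 / α) * (-c * log c) = 0 by ring, exp_zero]
  have h4 : -eta α ρ * c = -(c * eta α ρ) := by ring
  rw [h4]
  linear_combination (-(Gamma (1 + 1 / α) ^ c * exp (-(c * eta α ρ)) * etaD α ρ ^ c)) * h3

end transport

section main

variable {m : ℕ} {a : EuclideanSpace ℂ (Fin (m + 1))}

/-- the vector before the projection -/
private noncomputable def Psi (α : ℝ) (a z : EuclideanSpace ℂ (Fin (m + 1))) :
    EuclideanSpace ℂ (Fin (m + 1)) :=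
  WithLp.toLp 2 fun i => hc α (1 - ‖a i‖ ^ 2) (z i)

private noncomputable def Th (α : ℝ) (a : EuclideanSpace ℂ (Fin (m + 1))) (z : hyp a) : hyp a :=
  (hyp a).orthogonalProjectionOnto (Psi α a z)

private noncomputable def ThD (α : ℝ) (a : EuclideanSpace ℂ (Fin (m + 1))) (z : hyp a) :
    hyp a →L[ℝ] hyp a :=
  (hyp a).orthogonalProjectionOnto ∘L
    (diagL (fun i => hcD α (1 - ‖a i‖ ^ 2) ((z : EuclideanSpace ℂ (Fin (m + 1))) i)) ∘L
      (hyp a).subtypeL)

private lemma c_pos (hlt : ∀ i, ‖a i‖ < 1) (i : Fin (m + 1)) : 0 < 1 - ‖a i‖ ^ 2 := by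
  have h1 := hlt i
  have h2 := norm_nonneg (a i)
  nlinarith

private lemma Th_hasFDeriv (hα : 1 < α) (hlt : ∀ i, ‖a i‖ < 1) (s : Set (hyp a)) (z : hyp a)
    (hz : ∀ i, (z : EuclideanSpace ℂ (Fin (m + 1))) i ≠ 0) :
    HasFDerivWithinAt (Th α a) (ThD α a z) s z := by
  have h1 : HasFDerivWithinAt (fun z : hyp a => Psi α a (z : EuclideanSpace ℂ (Fin (m + 1))))
      (diagL (fun i => hcD α (1 - ‖a i‖ ^ 2) ((z : EuclideanSpace ℂ (Fin (m + 1))) i)) ∘L
        (hyp a).subtypeL) s z := by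
    rw [hasFDerivWithinAt_piLp]
    intro i
    have h2 : HasFDerivAt (fun z : hyp a => (z : EuclideanSpace ℂ (Fin (m + 1))) i)
        (prj i ∘L (hyp a).subtypeL) z := (prj i ∘L (hyp a).subtypeL).hasFDerivAt
    have h3 := (hasFDerivAt_hc hα (c_pos hlt i) (hz i)).comp z h2
    exact h3.hasFDerivWithinAt
  exact ((hyp a).orthogonalProjectionOnto.hasFDerivAt).comp_hasFDerivWithinAt z h1

private lemma Th_inj (hα : 1 < α) (hlt : ∀ i, ‖a i‖ < 1) {z z' : hyp a}
    (hz : ∀ i, (z : EuclideanSpace ℂ (Fin (m + 1))) i ≠ 0)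
    (hz' : ∀ i, (z' : EuclideanSpace ℂ (Fin (m + 1))) i ≠ 0) (h : Th α a z = Th α a z') :
    z = z' := by
  by_contra hne
  have h1 : ⟪Th α a z - Th α a z', z - z'⟫ = 0 := by rw [h, sub_self, inner_zero_left]
  have h2 : ⟪Th α a z - Th α a z', z - z'⟫ =
      ∑ i, ⟪hc α (1 - ‖a i‖ ^ 2) ((z : EuclideanSpace ℂ (Fin (m + 1))) i) -
        hc α (1 - ‖a i‖ ^ 2) ((z' : EuclideanSpace ℂ (Fin (m + 1))) i),
        (z : EuclideanSpace ℂ (Fin (m + 1))) i - (z' : EuclideanSpace ℂ (Fin (m + 1))) i⟫ := by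
    unfold Th
    rw [← map_sub, Submodule.inner_orthogonalProjectionOnto_eq_of_mem_right, inner_eq]
    rfl
  rw [h2] at h1
  have h3 : ∀ i, 0 ≤ ⟪hc α (1 - ‖a i‖ ^ 2) ((z : EuclideanSpace ℂ (Fin (m + 1))) i) -
        hc α (1 - ‖a i‖ ^ 2) ((z' : EuclideanSpace ℂ (Fin (m + 1))) i),
        (z : EuclideanSpace ℂ (Fin (m + 1))) i - (z' : EuclideanSpace ℂ (Fin (m + 1))) i⟫ := by
    intro i
    by_cases he : (z : EuclideanSpace ℂ (Fin (m + 1))) i = (z' : EuclideanSpace ℂ (Fin (m + 1))) i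
    · rw [he, sub_self, sub_self, inner_zero_left]
    · exact (hc_mono hα (c_pos hlt i) (hz i) (hz' i) he).le
  rw [Finset.sum_eq_zero_iff_of_nonneg fun i _ => h3 i] at h1
  apply hne
  apply Subtype.ext
  ext i
  by_contra he
  have := hc_mono hα (c_pos hlt i) (hz i) (hz' i) he
  rw [h1 i (Finset.mem_univ i)] at this
  exact lt_irrefl _ this

private lemma Psi_norm (hα : 1 < α) (hlt : ∀ i, ‖a i‖ < 1)
    {z : EuclideanSpace ℂ (Fin (m + 1))} (hz : ∀ i, z i ≠ 0) :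
    ‖Psi α a z‖ ^ 2 = ∑ i, (1 - ‖a i‖ ^ 2) *
      eta α ((1 - ‖a i‖ ^ 2) ^ (-(1 / α)) * ‖z i‖ ^ 2) := by
  rw [EuclideanSpace.norm_sq_eq]
  exact Finset.sum_congr rfl fun i _ => hc_norm hα (c_pos hlt i) (hz i)

private lemma sum_c (ha : ‖a‖ = 1) : (∑ i, (1 - ‖a i‖ ^ 2) : ℝ) = (m : ℝ) := by
  rw [Finset.sum_sub_distrib, ← EuclideanSpace.norm_sq_eq, ha]
  simp

/-- the determinant of the derivative -/
private lemma det_bound (hα : 1 < α) (ha : ‖a‖ = 1) (hlt : ∀ i, ‖a i‖ < 1) (z : hyp a)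
    (hz : ∀ i, (z : EuclideanSpace ℂ (Fin (m + 1))) i ≠ 0) :
    ∏ i, ((1 - ‖a i‖ ^ 2) ^ (1 - 1 / α) * etaD α ((1 - ‖a i‖ ^ 2) ^ (-(1 / α)) *
      ‖(z : EuclideanSpace ℂ (Fin (m + 1))) i‖ ^ 2)) ^ (1 - ‖a i‖ ^ 2) ≤ (ThD α a z).det := by
  set c : Fin (m + 1) → ℝ := fun i => 1 - ‖a i‖ ^ 2 with hcdef
  have hc0 : ∀ i, 0 < c i := c_pos hlt
  set ρ : Fin (m + 1) → ℝ := fun i => c i ^ (-(1 / α)) * ‖(z : EE m) i‖ ^ 2 with hρdef
  have hρ0 : ∀ i, 0 < ρ i := by
    intro i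
    have h1 := rpow_pos_of_pos (hc0 i) (-(1 / α))
    have h2 := norm_pos_iff.2 (hz i)
    simp only [hρdef]
    positivity
  set b : Fin (m + 1) → ℝ := fun i => c i ^ (-(1 / α) / 2) with hbdef
  have hb0 : ∀ i, 0 < b i := fun i => rpow_pos_of_pos (hc0 i) _
  have hbsq : ∀ i, b i ^ 2 = c i ^ (-(1 / α)) := by
    intro i
    simp only [hbdef]
    rw [← rpow_natCast, ← rpow_mul (hc0 i).le]
    norm_num
  set e : Fin (m + 1) → ℂ := fun i => (‖(z : EE m) i‖⁻¹ : ℝ) • (z : EE m) i with hedef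
  have he : ∀ i, ‖e i‖ = 1 := by
    intro i
    have := norm_pos_iff.2 (hz i)
    simp only [hedef]
    rw [norm_smul, norm_inv, norm_norm]
    field_simp
  have hze : ∀ i, (z : EE m) i = ‖(z : EE m) i‖ • e i := by
    intro i
    have := (norm_pos_iff.2 (hz i)).ne'
    simp only [hedef]
    rw [smul_smul, mul_inv_cancel₀ this, one_smul]
  obtain ⟨v, hv0, hv1⟩ := exists_basis e he
  let lam : Fin (m + 1) × Bool → ℝ := fun q =>
    if q.2 then √(c q.1) * b q.1 * gg α (ρ q.1)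
    else √(c q.1) * b q.1 * (gg α (ρ q.1) + 2 * ρ q.1 * ggD α (ρ q.1))
  have hlam : ∀ q, 0 < lam q := by
    rintro ⟨i, s⟩
    have h1 := sqrt_pos.2 (hc0 i)
    have h2 := hb0 i
    have h3 := gg_pos hα (hρ0 i)
    have h4 := gg_add_pos hα (hρ0 i)
    cases s
    · simp only [lam, Bool.false_eq_true, if_false]; positivity
    · simp only [lam, if_true]; positivity
  have hT : ∀ x y : hyp a, ⟪((ThD α a z : hyp a →L[ℝ] hyp a) : hyp a →ₗ[ℝ] hyp a) x, y⟫ =
      ∑ q, lam q * ⟪v q, (x : EE m)⟫ * ⟪v q, (y : EE m)⟫ := by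
    intro x y
    have h1 : ⟪((ThD α a z : hyp a →L[ℝ] hyp a) : hyp a →ₗ[ℝ] hyp a) x, y⟫ =
        ∑ i, ⟪hcD α (c i) ((z : EE m) i) ((x : EE m) i), (y : EE m) i⟫ := by
      have : ((ThD α a z : hyp a →L[ℝ] hyp a) : hyp a →ₗ[ℝ] hyp a) x =
          (hyp a).orthogonalProjectionOnto (diagL (fun i => hcD α (c i) ((z : EE m) i)) (x : EE m)) := rfl
      rw [this, Submodule.inner_orthogonalProjectionOnto_eq_of_mem_right, inner_eq]
      rfl
    rw [h1, Fintype.sum_prod_type]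
    refine Finset.sum_congr rfl fun i _ => ?_
    rw [Fintype.sum_bool, hv0, hv1, inner_single, inner_single, inner_single, inner_single]
    have hw : c i ^ (-(1 / α) / 2) • (z : EE m) i = (b i * ‖(z : EE m) i‖) • e i := by
      rw [← smul_smul, ← hze]
    have hn : ‖c i ^ (-(1 / α) / 2) • (z : EE m) i‖ ^ 2 = ρ i := norm_arg (hc0 i) _
    have hbr : b i ^ 2 * ‖(z : EE m) i‖ ^ 2 = ρ i := by rw [hbsq]
    simp only [hcD, smul_apply, DTm_apply]
    rw [hn, hw]
    simp only [inner_add_left, real_inner_smul_left]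
    rw [frame (e i) ((x : EE m) i) ((y : EE m) i) (he i)]
    simp only [lam, Bool.false_eq_true, if_false, if_true, ← hbr]
    ring
  have key := det_ineq (hyp a) v lam hlam _ hT
  refine le_trans (le_of_eq ?_) key
  rw [Fintype.prod_prod_type]
  refine Finset.prod_congr rfl fun i _ => ?_
  rw [Fintype.prod_bool, hv0, hv1, proj_single a ha i _ (he i), proj_single a ha i _ (by
    rw [norm_mul, he, Complex.norm_I, one_mul])]
  rw [← mul_rpow (hlam _).le (hlam _).le]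
  congr 1
  simp only [lam, Bool.false_eq_true, if_false, if_true]
  have h1 : c i ^ (1 - 1 / α) = c i * b i ^ 2 := by
    rw [hbsq, ← rpow_one_add' (hc0 i).le (by
      have : 1 / α < 1 := by rw [div_lt_one (by linarith)]; exact hα
      linarith)]
    congr 1
  have h2 := gg_mul hα (hρ0 i)
  have h3 : √(c i) * √(c i) = c i := mul_self_sqrt (hc0 i).le
  rw [h1, ← h2]
  linear_combination (-(b i ^ 2 * (gg α (ρ i) * (gg α (ρ i) + 2 * ρ i * ggD α (ρ i))))) * h3

private lemma pointwise (hα : 1 < α) (ha : ‖a‖ = 1) (hlt : ∀ i, ‖a i‖ < 1) (z : hyp a)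
    (hz : ∀ i, (z : EuclideanSpace ℂ (Fin (m + 1))) i ≠ 0) :
    exp (-∑ i, ‖(z : EuclideanSpace ℂ (Fin (m + 1))) i‖ ^ (2 * α)) ≤
      |(ThD α a z).det| * (Gamma (1 + 1 / α) ^ m *
        exp ((1 - 1 / α) * ∑ i, negMulLog (1 - ‖a i‖ ^ 2)) * exp (-‖Th α a z‖ ^ 2)) := by
  have hα0 : 0 < α := by linarith
  have hΓ : 0 < Gamma (1 + 1 / α) := Gamma_pos_of_pos (by positivity)
  have h1 : exp (-∑ i, ‖(z : EuclideanSpace ℂ (Fin (m + 1))) i‖ ^ (2 * α)) =
      ∏ i, (Gamma (1 + 1 / α) ^ (1 - ‖a i‖ ^ 2) *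
        exp (-((1 - ‖a i‖ ^ 2) * eta α ((1 - ‖a i‖ ^ 2) ^ (-(1 / α)) *
          ‖(z : EuclideanSpace ℂ (Fin (m + 1))) i‖ ^ 2))) *
        ((1 - ‖a i‖ ^ 2) ^ (1 - 1 / α) * etaD α ((1 - ‖a i‖ ^ 2) ^ (-(1 / α)) *
          ‖(z : EuclideanSpace ℂ (Fin (m + 1))) i‖ ^ 2)) ^ (1 - ‖a i‖ ^ 2) *
        exp ((1 - 1 / α) * negMulLog (1 - ‖a i‖ ^ 2))) := by
    rw [← Finset.sum_neg_distrib, exp_sum]
    exact Finset.prod_congr rfl fun i _ =>
      one_factor hα (c_pos hlt i) (norm_pos_iff.2 (hz i))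
  rw [h1, Finset.prod_mul_distrib, Finset.prod_mul_distrib, Finset.prod_mul_distrib,
    ← rpow_sum_of_pos hΓ, sum_c ha, rpow_natCast, ← exp_sum, ← exp_sum, Finset.sum_neg_distrib,
    ← Psi_norm hα hlt hz, ← Finset.mul_sum]
  have h2 : exp (-‖Psi α a z‖ ^ 2) ≤ exp (-‖Th α a z‖ ^ 2) := by
    rw [exp_le_exp, neg_le_neg_iff]
    have : ‖Th α a z‖ ≤ ‖Psi α a (z : EuclideanSpace ℂ (Fin (m + 1)))‖ :=
      Submodule.norm_orthogonalProjectionOnto_apply_le _ _
    exact pow_le_pow_left₀ (norm_nonneg _) this 2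
  have h3 := (det_bound hα ha hlt z hz).trans (le_abs_self _)
  have h4 : 0 ≤ ∏ i, ((1 - ‖a i‖ ^ 2) ^ (1 - 1 / α) * etaD α ((1 - ‖a i‖ ^ 2) ^ (-(1 / α)) *
      ‖(z : EuclideanSpace ℂ (Fin (m + 1))) i‖ ^ 2)) ^ (1 - ‖a i‖ ^ 2) := by
    refine Finset.prod_nonneg fun i _ => rpow_nonneg ?_ _
    have := c_pos hlt i
    have h5 := norm_pos_iff.2 (hz i)
    have h6 := etaD_pos hα (ρ := (1 - ‖a i‖ ^ 2) ^ (-(1 / α)) *
      ‖(z : EuclideanSpace ℂ (Fin (m + 1))) i‖ ^ 2) (by positivity)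
    positivity
  calc Gamma (1 + 1 / α) ^ m * exp (-‖Psi α a z‖ ^ 2) * _ *
        exp ((1 - 1 / α) * ∑ i, negMulLog (1 - ‖a i‖ ^ 2))
      ≤ Gamma (1 + 1 / α) ^ m * exp (-‖Th α a z‖ ^ 2) * |(ThD α a z).det| *
        exp ((1 - 1 / α) * ∑ i, negMulLog (1 - ‖a i‖ ^ 2)) := by
        gcongr
    _ = _ := by ring

private lemma ae_ne (ha : ‖a‖ = 1) (hlt : ∀ i, ‖a i‖ < 1) :
    ∀ᵐ z : hyp a, ∀ i, (z : EuclideanSpace ℂ (Fin (m + 1))) i ≠ 0 := by
  rw [ae_all_iff]
  intro i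
  have h1 : (LinearMap.ker ((prj i ∘L (hyp a).subtypeL : hyp a →L[ℝ] ℂ) : hyp a →ₗ[ℝ] ℂ)) ≠ ⊤ := by
    intro h
    have h2 : ∀ z : hyp a, (z : EuclideanSpace ℂ (Fin (m + 1))) i = 0 := by
      intro z
      have : z ∈ LinearMap.ker ((prj i ∘L (hyp a).subtypeL : hyp a →L[ℝ] ℂ) : hyp a →ₗ[ℝ] ℂ) := by
        rw [h]; trivial
      exact this
    have h3 := proj_single a ha i 1 (by simp)
    have h4 := c_pos hlt i
    rw [← h3] at h4
    have h5 : ⟪(hyp a).orthogonalProjectionOnto (EuclideanSpace.single i (1 : ℂ)),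
        (hyp a).orthogonalProjectionOnto (EuclideanSpace.single i (1 : ℂ))⟫ = 0 := by
      rw [Submodule.inner_orthogonalProjectionOnto_eq_of_mem_right, inner_single, h2]
      simp
    rw [real_inner_self_eq_norm_sq] at h5
    rw [h5] at h4
    exact lt_irrefl _ h4
  have h2 := Measure.addHaar_submodule (@volume (hyp a) _) _ h1
  rw [ae_iff]
  refine measure_mono_null ?_ h2
  intro z hz
  simp only [Set.mem_ofPred_eq, not_not] at hz
  exact hz

theorem bl_bound (hα : 1 < α) {m : ℕ} (a : EuclideanSpace ℂ (Fin (m + 1))) (ha : ‖a‖ = 1)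
    (hlt : ∀ i, ‖a i‖ < 1) :
    sec α a ≤ ENNReal.ofReal
      (cst α m * exp ((1 - 1 / α) * ∑ i, negMulLog (1 - ‖a i‖ ^ 2))) := by
  have hα0 : 0 < α := by linarith
  have hΓ : 0 < Gamma (1 + 1 / α) := Gamma_pos_of_pos (by positivity)
  set V' : Set (hyp a) := {z | ∀ i, (z : EuclideanSpace ℂ (Fin (m + 1))) i ≠ 0} with hV'
  have hmeas : MeasurableSet V' := by
    have : V' = ⋂ i, {z : hyp a | (prj i ∘L (hyp a).subtypeL) z ≠ 0} := by
      ext z; simp only [hV', Set.mem_ofPred_eq, Set.mem_iInter]; rfl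
    rw [this]
    refine MeasurableSet.iInter fun i => IsOpen.measurableSet ?_
    exact isOpen_ne.preimage (prj i ∘L (hyp a).subtypeL).continuous
  have hres : (@volume (hyp a) _).restrict V' = @volume (hyp a) _ := by
    refine Measure.restrict_eq_self_of_ae_mem ?_
    filter_upwards [ae_ne ha hlt] with z hz
    exact hz
  set C : ℝ := Gamma (1 + 1 / α) ^ m *
    exp ((1 - 1 / α) * ∑ i, negMulLog (1 - ‖a i‖ ^ 2)) with hC
  have hC0 : 0 ≤ C := by positivity
  have h1 : sec α a ≤ ∫⁻ z in V', ENNReal.ofReal |(ThD α a z).det| *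
      ENNReal.ofReal (C * exp (-‖Th α a z‖ ^ 2)) := by
    unfold sec
    conv_lhs => rw [← hres]
    refine setLIntegral_mono' hmeas fun z hz => ?_
    rw [← ENNReal.ofReal_mul (abs_nonneg _)]
    exact ENNReal.ofReal_le_ofReal (pointwise hα ha hlt z hz)
  have h2 := lintegral_image_eq_lintegral_abs_det_fderiv_mul (@volume (hyp a) _) hmeas
    (fun z hz => Th_hasFDeriv hα hlt V' z hz) (fun z hz z' hz' h => Th_inj hα hlt hz hz' h)
    (fun y => ENNReal.ofReal (C * exp (-‖y‖ ^ 2)))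
  rw [← h2] at h1
  refine h1.trans ((setLIntegral_le_lintegral _ _).trans ?_)
  have hint0 : ∫ y : hyp a, exp (-‖y‖ ^ 2) = π ^ m := by
    have h3 := GaussianFourier.integral_rexp_neg_mul_sq_norm (V := hyp a) (b := 1) one_pos
    rw [finrank_hyp a ha] at h3
    simp only [neg_mul, one_mul, div_one] at h3
    rw [h3]
    push_cast
    rw [mul_div_cancel_left₀ _ (by norm_num : (2 : ℝ) ≠ 0), rpow_natCast]
  have hint : Integrable (fun y : hyp a => exp (-‖y‖ ^ 2)) := by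
    by_contra hcon
    rw [integral_undef hcon] at hint0
    exact absurd hint0.symm (by positivity)
  rw [← ofReal_integral_eq_lintegral_ofReal (hint.const_mul C)
    (Filter.Eventually.of_forall fun y => by positivity), integral_const_mul, hint0]
  apply ENNReal.ofReal_le_ofReal
  rw [hC, cst, mul_pow]
  apply le_of_eq
  ring

end main

end LpSec

end

section
/-!
# T12 LemmaL: passing from the exponent `q0` to larger exponents

Proof. Pointwise, for `0 ≤ B ≤ A`, `0 < M ≤ A`, `q ≥ q0`: `B^q ≤ A^q - M^(q-q0) (A^q0 - B^q0)`. Indeed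
`A^q - B^q - M^(q-q0) A^q0 + M^(q-q0) B^q0 = A^q0 (A^(q-q0) - M^(q-q0)) + B^q0 (M^(q-q0) - B^(q-q0))`,
which is `≥ 0` if `B ≤ M`; if `B > M` it is `≥ (A^q0 - B^q0)(B^(q-q0) - M^(q-q0)) ≥ 0`
(write `A^q0 (A^(q-q0) - M^(q-q0)) ≥ A^q0 (B^(q-q0) - M^(q-q0))`).
Apply it with `A = exp (-s)`, `B = |f s|` on `(0,s0)`; on `[s0,∞)`: `|f|^q ≤ M^(q-q0) |f|^q0`. Integrate:
`∫|f|^q ≤ (1 - e^{-q s0})/q - M^(q-q0) (1 - e^{-q0 s0})/q0 + M^(q-q0) A0/q0`.
-/

open Real MeasureTheory Set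

namespace LpSec

private lemma lemL_pt {A B M q0 q : ℝ} (hB : 0 ≤ B) (hBA : B ≤ A) (hM : 0 < M) (hMA : M ≤ A)
    (hq0 : 0 < q0) (hq : q0 ≤ q) :
    B ^ q + M ^ (q - q0) * A ^ q0 ≤ A ^ q + M ^ (q - q0) * B ^ q0 := by
  have hr : 0 ≤ q - q0 := by linarith
  have hA : 0 ≤ A := hB.trans hBA
  have e1 : B ^ q = B ^ q0 * B ^ (q - q0) := by
    rw [← Real.rpow_add_of_nonneg hB hq0.le hr]; congr 1; ring
  have e2 : A ^ q = A ^ q0 * A ^ (q - q0) := by
    rw [← Real.rpow_add_of_nonneg hA hq0.le hr]; congr 1; ring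
  have h1 : B ^ q0 ≤ A ^ q0 := Real.rpow_le_rpow hB hBA hq0.le
  have h2 : B ^ (q - q0) ≤ A ^ (q - q0) := Real.rpow_le_rpow hB hBA hr
  have h3 : M ^ (q - q0) ≤ A ^ (q - q0) := Real.rpow_le_rpow hM.le hMA hr
  have h4 : 0 ≤ B ^ q0 := Real.rpow_nonneg hB _
  rw [e1, e2]
  generalize A ^ q0 = a at *
  generalize B ^ q0 = b at *
  generalize A ^ (q - q0) = α at *
  generalize B ^ (q - q0) = β at *
  generalize M ^ (q - q0) = m at *
  rcases le_total β m with h | h
  · nlinarith [mul_nonneg (h4.trans h1) (sub_nonneg.2 h3), mul_nonneg h4 (sub_nonneg.2 h)]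
  · nlinarith [mul_nonneg (h4.trans h1) (sub_nonneg.2 h2), mul_nonneg (sub_nonneg.2 h1)
      (sub_nonneg.2 h)]

private lemma lemL_exp {q s0 : ℝ} (hq : 0 < q) (hs0 : 0 < s0) :
    ∫⁻ s in Ioo (0 : ℝ) s0, ENNReal.ofReal (exp (-(q * s))) =
      ENNReal.ofReal ((1 - exp (-(q * s0))) / q) := by
  have hcont : Continuous fun s : ℝ => exp (-(q * s)) := by fun_prop
  have hint : IntegrableOn (fun s : ℝ => exp (-(q * s))) (Ioc 0 s0) volume :=
    (hcont.integrableOn_Icc (a := 0) (b := s0)).mono_set Ioc_subset_Icc_self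
  have h1 : ∫⁻ s in Ioo (0 : ℝ) s0, ENNReal.ofReal (exp (-(q * s))) =
      ∫⁻ s in Ioc (0 : ℝ) s0, ENNReal.ofReal (exp (-(q * s))) := by
    rw [restrict_Ioo_eq_restrict_Ioc]
  rw [h1, ← ofReal_integral_eq_lintegral_ofReal hint
    (Filter.Eventually.of_forall fun s => (exp_pos _).le)]
  congr 1
  rw [← intervalIntegral.integral_of_le hs0.le]
  have hder : ∀ s ∈ uIcc (0 : ℝ) s0,
      HasDerivAt (fun s : ℝ => -(exp (-(q * s)) / q)) (exp (-(q * s))) s := by
    intro s _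
    have h2 : HasDerivAt (fun s : ℝ => -(q * s)) (-(q * 1)) s :=
      ((hasDerivAt_id s).const_mul q).neg
    have h3 : HasDerivAt (fun s : ℝ => -(exp (-(q * s)) / q))
        (-(exp (-(q * s)) * (-(q * 1)) / q)) s := ((h2.exp).div_const q).neg
    have h4 : -(exp (-(q * s)) * (-(q * 1)) / q) = exp (-(q * s)) := by
      field_simp
    rw [h4] at h3
    exact h3
  rw [intervalIntegral.integral_eq_sub_of_hasDerivAt hder (hcont.intervalIntegrable _ _)]
  simp only [mul_zero, neg_zero, exp_zero]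
  ring

theorem lemmaL {f : ℝ → ℝ} (hf : AEMeasurable f (volume.restrict (Ioi 0))) {q0 q s0 M A0 : ℝ}
    (hq0 : 0 < q0) (hq : q0 ≤ q) (hs0 : 0 < s0) (hM0 : 0 < M) (hM : M ≤ exp (-s0))
    (h1 : ∀ s, 0 < s → s < s0 → |f s| ≤ exp (-s)) (h2 : ∀ s, s0 ≤ s → |f s| ≤ M)
    (hA0 : 0 ≤ A0)
    (hA : ENNReal.ofReal q0 * ∫⁻ s in Ioi (0 : ℝ), ENNReal.ofReal (|f s| ^ q0) ≤
      ENNReal.ofReal A0) :
    ENNReal.ofReal q * ∫⁻ s in Ioi (0 : ℝ), ENNReal.ofReal (|f s| ^ q) ≤
      ENNReal.ofReal (1 - exp (-(q * s0)) +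
        q / q0 * M ^ (q - q0) * (exp (-(q0 * s0)) - 1 + A0)) := by
  have hqpos : 0 < q := hq0.trans_le hq
  have hr : 0 ≤ q - q0 := by linarith
  set c : ℝ := M ^ (q - q0) with hc
  have hc0 : 0 ≤ c := Real.rpow_nonneg hM0.le _
  -- pointwise inequality
  have hpt : ∀ s ∈ Ioi (0 : ℝ), ENNReal.ofReal (|f s| ^ q) +
      (Iio s0).indicator (fun s => ENNReal.ofReal c * ENNReal.ofReal (exp (-(q0 * s)))) s ≤
      (Iio s0).indicator (fun s => ENNReal.ofReal (exp (-(q * s)))) s +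
        ENNReal.ofReal c * ENNReal.ofReal (|f s| ^ q0) := by
    intro s hs
    have hB : 0 ≤ |f s| := abs_nonneg _
    by_cases hss : s < s0
    · rw [indicator_of_mem (show s ∈ Iio s0 from hss), indicator_of_mem (show s ∈ Iio s0 from hss),
        ← ENNReal.ofReal_mul hc0, ← ENNReal.ofReal_mul hc0,
        ← ENNReal.ofReal_add (Real.rpow_nonneg hB _) (mul_nonneg hc0 (exp_pos _).le),
        ← ENNReal.ofReal_add (exp_pos _).le (mul_nonneg hc0 (Real.rpow_nonneg hB _))]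
      apply ENNReal.ofReal_le_ofReal
      have hMA : M ≤ exp (-s) := hM.trans (exp_le_exp.2 (by linarith))
      have h3 := lemL_pt hB (h1 s hs hss) hM0 hMA hq0 hq
      have e1 : exp (-s) ^ q0 = exp (-(q0 * s)) := by
        rw [← Real.exp_mul]; congr 1; ring
      have e2 : exp (-s) ^ q = exp (-(q * s)) := by
        rw [← Real.exp_mul]; congr 1; ring
      rw [e1, e2] at h3
      exact h3
    · rw [indicator_of_notMem (show s ∉ Iio s0 from hss),
        indicator_of_notMem (show s ∉ Iio s0 from hss), add_zero, zero_add,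
        ← ENNReal.ofReal_mul hc0]
      apply ENNReal.ofReal_le_ofReal
      have e1 : |f s| ^ q = |f s| ^ (q - q0) * |f s| ^ q0 := by
        rw [← Real.rpow_add_of_nonneg hB hr hq0.le]; congr 1; ring
      rw [e1]
      exact mul_le_mul_of_nonneg_right (Real.rpow_le_rpow hB (h2 s (not_lt.1 hss)) hr)
        (Real.rpow_nonneg hB _)
  have hset : Iio s0 ∩ Ioi (0 : ℝ) = Ioo 0 s0 := by
    ext s; simp [and_comm]
  have hI : ∀ g : ℝ → ENNReal, ∫⁻ s in Ioi (0 : ℝ), (Iio s0).indicator g s =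
      ∫⁻ s in Ioo (0 : ℝ) s0, g s := by
    intro g
    rw [lintegral_indicator measurableSet_Iio, Measure.restrict_restrict measurableSet_Iio, hset]
  have hmeas1 : Measurable ((Iio s0).indicator
      (fun s : ℝ => ENNReal.ofReal c * ENNReal.ofReal (exp (-(q0 * s))))) := by
    refine Measurable.indicator ?_ measurableSet_Iio
    fun_prop
  have hmeas2 : Measurable ((Iio s0).indicator
      (fun s : ℝ => ENNReal.ofReal (exp (-(q * s))))) := by
    refine Measurable.indicator ?_ measurableSet_Iio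
    fun_prop
  have hint := setLIntegral_mono' (μ := volume) measurableSet_Ioi hpt
  rw [lintegral_add_right _ hmeas1, lintegral_add_left hmeas2, hI, hI,
    lintegral_const_mul' _ _ ENNReal.ofReal_ne_top, lintegral_const_mul' _ _ ENNReal.ofReal_ne_top,
    lemL_exp hq0 hs0, lemL_exp hqpos hs0] at hint
  -- bound of the right side
  have hA' : ∫⁻ s in Ioi (0 : ℝ), ENNReal.ofReal (|f s| ^ q0) ≤ ENNReal.ofReal (A0 / q0) := by
    have h3 : ENNReal.ofReal q0 ≠ 0 := by simpa using hq0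
    rw [ENNReal.ofReal_div_of_pos hq0, ENNReal.le_div_iff_mul_le (Or.inl h3)
      (Or.inl ENNReal.ofReal_ne_top), mul_comm]
    exact hA
  have hx0 : 0 ≤ (1 - exp (-(q0 * s0))) / q0 := by
    apply div_nonneg _ hq0.le
    rw [sub_nonneg, exp_le_one_iff]
    have := mul_pos hq0 hs0
    linarith
  have hy0 : 0 ≤ (1 - exp (-(q * s0))) / q := by
    apply div_nonneg _ hqpos.le
    rw [sub_nonneg, exp_le_one_iff]
    have := mul_pos hqpos hs0
    linarith
  have h4 : (∫⁻ s in Ioi (0 : ℝ), ENNReal.ofReal (|f s| ^ q)) +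
      ENNReal.ofReal (c * ((1 - exp (-(q0 * s0))) / q0)) ≤
      ENNReal.ofReal ((1 - exp (-(q * s0))) / q + c * (A0 / q0)) := by
    rw [ENNReal.ofReal_mul hc0, ENNReal.ofReal_add hy0 (mul_nonneg hc0 (div_nonneg hA0 hq0.le)),
      ENNReal.ofReal_mul hc0]
    refine hint.trans ?_
    gcongr
  have h5 : (∫⁻ s in Ioi (0 : ℝ), ENNReal.ofReal (|f s| ^ q)) ≤
      ENNReal.ofReal ((1 - exp (-(q * s0))) / q + c * (A0 / q0) -
        c * ((1 - exp (-(q0 * s0))) / q0)) := by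
    rw [ENNReal.ofReal_sub _ (mul_nonneg hc0 hx0)]
    exact ENNReal.le_sub_of_add_le_right ENNReal.ofReal_ne_top h4
  calc ENNReal.ofReal q * ∫⁻ s in Ioi (0 : ℝ), ENNReal.ofReal (|f s| ^ q)
      ≤ ENNReal.ofReal q * ENNReal.ofReal ((1 - exp (-(q * s0))) / q + c * (A0 / q0) -
        c * ((1 - exp (-(q0 * s0))) / q0)) := by gcongr
    _ = _ := by
      rw [← ENNReal.ofReal_mul hqpos.le]
      congr 1
      field_simp
      ring

end LpSec

end
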