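import Mathlib
import Pool.Agent.Lib.MP_1dbab3_gt.GamX
import Pool.Agent.Lib.MP_1dbab3_gt.Geo

section
/-!
# T19 Moments: even moments of `Phi`

`even_moment`: `a = (1,…,1)/√N`, `N` even: `∏ Phi (s/N) = Phi (s/N)^N = |Phi (s/N)|^N ≥ 0`, so by
`sec_eq_nonneg` and `bl_bound`:
`cst D ∫ |Phi (s/N)|^N ds ≤ cst exp ((1-1/α) N negMulLog (1-1/N))`, and
`∫ |Phi (s/N)|^N ds = N ∫ |Phi|^N`. `two_moment`: `N = 2`, `2 negMulLog (1/2) = log 2`, the bound is
`2^(1-1/α)/D = AA`.
-/

open Real MeasureTheory Set Filter Topology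

namespace LpSec

variable {α : ℝ}

theorem Moments_scale (g : ℝ → ENNReal) {c : ℝ} (hc : 0 < c) :
    ∫⁻ s in Ioi (0 : ℝ), g (c⁻¹ * s) = ENNReal.ofReal c * ∫⁻ s in Ioi (0 : ℝ), g s := by
  have hc' : c⁻¹ ≠ 0 := inv_ne_zero hc.ne'
  rw [← lintegral_indicator measurableSet_Ioi, ← lintegral_indicator measurableSet_Ioi]
  have h1 : ∀ s : ℝ, (Ioi (0 : ℝ)).indicator (fun s => g (c⁻¹ * s)) s =
      ((Ioi (0 : ℝ)).indicator g) ((MeasurableEquiv.mulLeft₀ c⁻¹ hc') s) := by
    intro s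
    simp only [MeasurableEquiv.coe_mulLeft₀]
    by_cases hs : 0 < s
    · rw [indicator_of_mem (by exact hs), indicator_of_mem (by exact mul_pos (inv_pos.2 hc) hs)]
    · rw [indicator_of_notMem (by exact hs), indicator_of_notMem]
      intro h
      exact hs (pos_of_mul_pos_right (show 0 < c⁻¹ * s from h) (inv_pos.2 hc).le)
  simp_rw [h1]
  rw [← lintegral_map_equiv]
  have h2 : Measure.map (⇑(MeasurableEquiv.mulLeft₀ c⁻¹ hc')) (volume : Measure ℝ) =
      ENNReal.ofReal c • volume := by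
    rw [MeasurableEquiv.coe_mulLeft₀, Real.map_volume_mul_left hc', inv_inv, abs_of_pos hc]
  rw [h2, lintegral_smul_measure, smul_eq_mul]

theorem Moments_DD_pos (hα : 1 < α) : 0 < DD α := by
  unfold DD
  have h0 : 0 < α := by linarith
  have h1 : 0 < Gamma (1 + 1 / α) := Gamma_pos_of_pos (by positivity)
  have h2 : 0 < Gamma (1 + 2 / α) := Gamma_pos_of_pos (by positivity)
  positivity

theorem Moments_cst_pos (hα : 1 < α) (m : ℕ) : 0 < cst α m := by
  unfold cst
  have h0 : 0 < α := by linarith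
  have h1 : 0 < Gamma (1 + 1 / α) := Gamma_pos_of_pos (by positivity)
  have := Real.pi_pos
  positivity

theorem even_moment (hα : 1 < α) {N : ℕ} (hN : Even N) (h2 : 2 ≤ N) :
    ENNReal.ofReal N * Mom α N ≤
      ENNReal.ofReal (exp ((1 - 1 / α) * (N * negMulLog (1 - 1 / (N : ℝ)))) / DD α) := by
  obtain ⟨m, rfl⟩ : ∃ m, N = m + 1 := ⟨N - 1, by omega⟩
  have hm : (1 : ℝ) ≤ m := by exact_mod_cast (by omega : 1 ≤ m)
  have hNpos : (0 : ℝ) < ((m + 1 : ℕ) : ℝ) := by positivity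
  have hDD := Moments_DD_pos hα
  have hcst := Moments_cst_pos hα m
  set b : ℝ := (Real.sqrt ((m + 1 : ℕ) : ℝ))⁻¹ with hb
  have hb0 : 0 ≤ b := by positivity
  have hb2 : b ^ 2 = (((m + 1 : ℕ) : ℝ))⁻¹ := by
    rw [hb, inv_pow, Real.sq_sqrt hNpos.le]
  set a : EuclideanSpace ℂ (Fin (m + 1)) := WithLp.toLp 2 (fun _ => (b : ℂ)) with ha
  have hai : ∀ i, ‖a i‖ = b := by
    intro i
    rw [ha]
    simp [abs_of_nonneg hb0]
  have hai2 : ∀ i, ‖a i‖ ^ 2 = (((m + 1 : ℕ) : ℝ))⁻¹ := fun i => by rw [hai i, hb2]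
  have hnorm : ‖a‖ = 1 := by
    rw [EuclideanSpace.norm_eq]
    have : ∑ i, ‖a i‖ ^ 2 = 1 := by
      simp_rw [hai2]
      rw [Finset.sum_const, Finset.card_univ, Fintype.card_fin, nsmul_eq_mul]
      exact mul_inv_cancel₀ hNpos.ne'
    rw [this, Real.sqrt_one]
  have hlt : ∀ i, ‖a i‖ < 1 := by
    intro i
    have h1 : ‖a i‖ ^ 2 < 1 := by
      rw [hai2 i]
      apply inv_lt_one_of_one_lt₀
      push_cast
      linarith
    nlinarith [norm_nonneg (a i)]
  -- the product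
  have hprod : ∀ s, ∏ i, Phi α (‖a i‖ ^ 2 * s) = Phi α ((((m + 1 : ℕ) : ℝ))⁻¹ * s) ^ (m + 1) := by
    intro s
    simp_rw [hai2]
    rw [Finset.prod_const, Finset.card_univ, Fintype.card_fin]
  have h3 := sec_eq_nonneg hα a hnorm (fun s _ => by
    rw [hprod]
    exact hN.pow_nonneg _)
  have h4 := bl_bound hα a hnorm hlt
  have h5 : ∑ i, negMulLog (1 - ‖a i‖ ^ 2) =
      ((m + 1 : ℕ) : ℝ) * negMulLog (1 - 1 / ((m + 1 : ℕ) : ℝ)) := by
    simp_rw [hai2]
    rw [Finset.sum_const, Finset.card_univ, Fintype.card_fin, nsmul_eq_mul, one_div]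
  rw [h3, h5] at h4
  simp_rw [hprod] at h4
  have h6 : ∫⁻ s in Ioi (0 : ℝ), ENNReal.ofReal (Phi α ((((m + 1 : ℕ) : ℝ))⁻¹ * s) ^ (m + 1)) =
      ENNReal.ofReal ((m + 1 : ℕ) : ℝ) * Mom α ((m + 1 : ℕ) : ℝ) := by
    rw [Moments_scale (fun s => ENNReal.ofReal (Phi α s ^ (m + 1))) hNpos]
    congr 1
    unfold Mom
    refine lintegral_congr fun s => ?_
    rw [Real.rpow_natCast, hN.pow_abs]
  rw [h6] at h4
  have h7 : ENNReal.ofReal (exp ((1 - 1 / α) * (((m + 1 : ℕ) : ℝ) *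
      negMulLog (1 - 1 / ((m + 1 : ℕ) : ℝ)))) / DD α) =
      ENNReal.ofReal (cst α m * exp ((1 - 1 / α) * (((m + 1 : ℕ) : ℝ) *
        negMulLog (1 - 1 / ((m + 1 : ℕ) : ℝ))))) / ENNReal.ofReal (cst α m * DD α) := by
    rw [← ENNReal.ofReal_div_of_pos (by positivity)]
    congr 1
    field_simp
  rw [h7, ENNReal.le_div_iff_mul_le (Or.inl (by simp; positivity)) (Or.inl ENNReal.ofReal_ne_top),
    mul_comm]
  exact h4

theorem two_moment (hα : 1 < α) : ENNReal.ofReal 2 * Mom α 2 ≤ ENNReal.ofReal (AA α) := by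
  have h := even_moment hα (N := 2) (by decide) le_rfl
  have e1 : ((2 : ℕ) : ℝ) = 2 := by norm_num
  rw [e1] at h
  have e2 : exp ((1 - 1 / α) * (2 * negMulLog (1 - 1 / (2 : ℝ)))) / DD α = AA α := by
    unfold AA
    congr 1
    rw [Real.rpow_def_of_pos (by norm_num : (0 : ℝ) < 2), mul_comm (Real.log 2)]
    congr 2
    unfold negMulLog
    rw [show (1 - 1 / (2 : ℝ)) = 2⁻¹ by norm_num, Real.log_inv]
    ring
  rw [e2] at h
  exact h

end LpSec

end

section
/-!
# T21 Hold: Hölder's inequality for products of `Phi (x i s)`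

* `holder_max`: on `S = {i | x i ≠ 0}` (other factors are `|Phi 0| = 1`) apply
  `ENNReal.lintegral_prod_norm_pow_le` to `f i = |Phi (x i s)|^(1/x i)` with exponents `x i`;
  `∫ |Phi (x i s)|^q ds = (1/x i) Mom α q` (scaling, `q = 1/x i ≥ N`), i.e. `ofReal q * Mom α q`.
  Factors with `i ≠ j` are `≤ 1`.
* `beta_bound`: Cauchy–Schwarz (`ENNReal.lintegral_mul_le_Lp_mul_Lq`) between `|Phi (x j s)|` and the
  rest; `∫ |Phi (x j s)|² = Mom 2 / x j ≤ A/(2 x j)`; with `w = 1 - x j`, Hölder with exponents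
  `x i / w` (`i ≠ j`, `x i ≠ 0`): `∫ ∏_{i≠j} |Phi (x i s)|² ≤ ∏ (∫ |Phi (x i s)|^(2w/x i))^(x i/w)`,
  `q = 2w/x i ≥ 2` because `x i ≤ w`, and `∫ |Phi (x i s)|^q = Mom q/x i ≤ 1/(q x i) = 1/(2w)`; so the
  product is `≤ 1/(2w)`. (If all `x i = 0` for `i ≠ j` then `x j = 1`, excluded.)
-/

open Real MeasureTheory Set Filter Topology

namespace LpSec

variable {α : ℝ}

/-- scaling of an integral over the half line -/
private lemma hold_scale (g : ℝ → ENNReal) {c : ℝ} (hc : 0 < c) :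
    ∫⁻ s in Ioi (0 : ℝ), g (c * s) = ENNReal.ofReal (1 / c) * ∫⁻ s in Ioi (0 : ℝ), g s := by
  have hemb : MeasurableEmbedding (fun x : ℝ => c * x) :=
    (Homeomorph.mulLeft₀ c hc.ne').measurableEmbedding
  have h1 : ∫⁻ s in Ioi (0 : ℝ), g s = ENNReal.ofReal c * ∫⁻ s in Ioi (0 : ℝ), g (c * s) := by
    rw [← lintegral_indicator measurableSet_Ioi, ← lintegral_indicator measurableSet_Ioi]
    conv_lhs => rw [← Real.smul_map_volume_mul_left hc.ne', abs_of_pos hc]
    rw [lintegral_smul_measure, hemb.lintegral_map, smul_eq_mul]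
    congr 2
    ext s
    by_cases hs : 0 < s
    · rw [indicator_of_mem (show c * s ∈ Ioi 0 from mul_pos hc hs),
        indicator_of_mem (show s ∈ Ioi 0 from hs)]
    · rw [indicator_of_notMem (show c * s ∉ Ioi 0 from fun h => hs (by
          have h' : 0 < c * s := h
          exact (mul_pos_iff_of_pos_left hc).1 h')),
        indicator_of_notMem (show s ∉ Ioi 0 from hs)]
  rw [h1, ← mul_assoc, ← ENNReal.ofReal_mul (by positivity), one_div,
    inv_mul_cancel₀ hc.ne', ENNReal.ofReal_one, one_mul]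

private lemma hold_meas (hα : 1 < α) {c : ℝ} (hc : 0 < c) (q : ℝ) :
    AEMeasurable (fun s => ENNReal.ofReal (|Phi α (c * s)| ^ q)) (volume.restrict (Ioi (0 : ℝ))) := by
  have h1 : ContinuousOn (fun s => Phi α (c * s)) (Ioi 0) := by
    refine (Phi_continuousOn hα).comp (by fun_prop) fun s hs => ?_
    exact (mul_pos hc hs).le
  have h2 : AEMeasurable (fun s => Phi α (c * s)) (volume.restrict (Ioi (0 : ℝ))) :=
    h1.aemeasurable measurableSet_Ioi
  have h3 : AEMeasurable (fun s => |Phi α (c * s)|) (volume.restrict (Ioi (0 : ℝ))) := by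
    have := h2.norm
    simpa [Real.norm_eq_abs] using this
  exact (h3.pow_const q).ennreal_ofReal

private lemma hold_mom {c q : ℝ} (hc : 0 < c) :
    ∫⁻ s in Ioi (0 : ℝ), ENNReal.ofReal (|Phi α (c * s)| ^ q) =
      ENNReal.ofReal (1 / c) * Mom α q :=
  hold_scale (fun s => ENNReal.ofReal (|Phi α s| ^ q)) hc

/-- the general form -/
private lemma hold_core (hα : 1 < α) {n : ℕ} (x : Fin n → ℝ) (S : Finset (Fin n))
    (hx : ∀ i ∈ S, 0 < x i) {w κ : ℝ} (hw : 0 < w) (hκ : 0 ≤ κ) (hs : ∑ i ∈ S, x i = w) :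
    ∫⁻ s in Ioi (0 : ℝ), ∏ i ∈ S, ENNReal.ofReal (|Phi α (x i * s)| ^ κ) ≤
      ∏ i ∈ S, (ENNReal.ofReal (1 / x i) * Mom α (κ * w / x i)) ^ (x i / w) := by
  have h1 := ENNReal.lintegral_prod_norm_pow_le (μ := volume.restrict (Ioi (0 : ℝ))) S
    (f := fun i s => ENNReal.ofReal (|Phi α (x i * s)| ^ (κ * w / x i)))
    (fun i hi => hold_meas hα (hx i hi) _) (p := fun i => x i / w)
    (by rw [← Finset.sum_div, hs, div_self hw.ne'])
    (fun i hi => (div_pos (hx i hi) hw).le)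
  have h2 : ∀ s, ∏ i ∈ S, ENNReal.ofReal (|Phi α (x i * s)| ^ (κ * w / x i)) ^ (x i / w) =
      ∏ i ∈ S, ENNReal.ofReal (|Phi α (x i * s)| ^ κ) := by
    intro s
    refine Finset.prod_congr rfl fun i hi => ?_
    rw [ENNReal.ofReal_rpow_of_nonneg (Real.rpow_nonneg (abs_nonneg _) _)
      (div_pos (hx i hi) hw).le, ← Real.rpow_mul (abs_nonneg _)]
    congr 2
    have := (hx i hi).ne'
    field_simp
  simp only [h2] at h1
  refine h1.trans (le_of_eq ?_)
  exact Finset.prod_congr rfl fun i hi => by rw [hold_mom (hx i hi)]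

private lemma hold_one (hα : 1 < α) {n : ℕ} (x : Fin n → ℝ) (T : Finset (Fin n)) (s : ℝ) :
    ∏ i ∈ T, ENNReal.ofReal |Phi α (x i * s)| =
      ∏ i ∈ T.filter (fun i => x i ≠ 0), ENNReal.ofReal |Phi α (x i * s)| := by
  refine (Finset.prod_filter_of_ne fun i _ h => ?_).symm
  intro h0
  apply h
  rw [h0, zero_mul, Phi_zero hα, abs_one, ENNReal.ofReal_one]

theorem holder_max (hα : 1 < α) {n : ℕ} (x : Fin n → ℝ) (hx : ∀ i, 0 ≤ x i)
    (hs : ∑ i, x i = 1) {N : ℝ} (hN : 1 ≤ N) (hmax : ∀ i, x i ≤ 1 / N) {B : ℝ → ℝ}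
    (hB0 : ∀ q, N ≤ q → 0 ≤ B q ∧ B q ≤ 1)
    (hB : ∀ q, N ≤ q → ENNReal.ofReal q * Mom α q ≤ ENNReal.ofReal (B q))
    (j : Fin n) (hj : 0 < x j) :
    ∫⁻ s in Ioi (0 : ℝ), ∏ i, ENNReal.ofReal |Phi α (x i * s)| ≤
      ENNReal.ofReal (B (1 / x j) ^ (x j)) := by
  classical
  have hN0 : 0 < N := by linarith
  set S : Finset (Fin n) := Finset.univ.filter (fun i => x i ≠ 0) with hS
  have hxS : ∀ i ∈ S, 0 < x i := fun i hi =>
    lt_of_le_of_ne (hx i) (Ne.symm (Finset.mem_filter.1 hi).2)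
  have hsS : ∑ i ∈ S, x i = 1 := by
    rw [hS, Finset.sum_filter_ne_zero, hs]
  have hjS : j ∈ S := Finset.mem_filter.2 ⟨Finset.mem_univ _, hj.ne'⟩
  have h1 := hold_core hα x S hxS one_pos zero_le_one hsS
  have h2 : ∀ s, ∏ i, ENNReal.ofReal |Phi α (x i * s)| =
      ∏ i ∈ S, ENNReal.ofReal (|Phi α (x i * s)| ^ (1 : ℝ)) := by
    intro s
    rw [hold_one hα x Finset.univ s]
    refine Finset.prod_congr rfl fun i _ => by rw [Real.rpow_one]
  simp only [h2]
  refine h1.trans ?_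
  have hq : ∀ i ∈ S, N ≤ 1 / x i := by
    intro i hi
    rw [le_div_iff₀ (hxS i hi)]
    have := mul_le_mul_of_nonneg_left (hmax i) hN0.le
    rwa [mul_one_div_cancel hN0.ne'] at this
  have h3 : ∀ i ∈ S, (ENNReal.ofReal (1 / x i) * Mom α (1 * 1 / x i)) ^ (x i / 1) ≤
      ENNReal.ofReal (B (1 / x i) ^ x i) := by
    intro i hi
    rw [one_mul, div_one, ← ENNReal.ofReal_rpow_of_nonneg (hB0 _ (hq i hi)).1 (hxS i hi).le]
    exact ENNReal.rpow_le_rpow (hB _ (hq i hi)) (hxS i hi).le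
  rw [← Finset.mul_prod_erase S _ hjS]
  calc _ ≤ ENNReal.ofReal (B (1 / x j) ^ x j) * 1 := by
        refine mul_le_mul' (h3 j hjS) ?_
        refine Finset.prod_le_one' fun i hi => ?_
        have hi' := Finset.mem_of_mem_erase hi
        refine (h3 i hi').trans ?_
        rw [ENNReal.ofReal_le_one]
        exact Real.rpow_le_one (hB0 _ (hq i hi')).1 (hB0 _ (hq i hi')).2 (hxS i hi').le
    _ = _ := mul_one _

theorem beta_bound (hα : 1 < α) {n : ℕ} (x : Fin n → ℝ) (hx : ∀ i, 0 ≤ x i)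
    (hs : ∑ i, x i = 1) {A : ℝ} (hA0 : 0 ≤ A)
    (hA : ENNReal.ofReal 2 * Mom α 2 ≤ ENNReal.ofReal A)
    (hB : ∀ q : ℝ, 2 ≤ q → ENNReal.ofReal q * Mom α q ≤ 1)
    (j : Fin n) (hj0 : 0 < x j) (hj1 : x j < 1) :
    ∫⁻ s in Ioi (0 : ℝ), ∏ i, ENNReal.ofReal |Phi α (x i * s)| ≤
      ENNReal.ofReal √(A / (4 * x j * (1 - x j))) := by
  classical
  set w : ℝ := 1 - x j with hw
  have hw0 : 0 < w := by rw [hw]; linarith
  set S : Finset (Fin n) := (Finset.univ.erase j).filter (fun i => x i ≠ 0) with hS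
  have hxS : ∀ i ∈ S, 0 < x i := fun i hi =>
    lt_of_le_of_ne (hx i) (Ne.symm (Finset.mem_filter.1 hi).2)
  have hsum : ∑ i ∈ Finset.univ.erase j, x i = w := by
    have := Finset.add_sum_erase Finset.univ x (Finset.mem_univ j)
    rw [hs] at this
    linarith
  have hsS : ∑ i ∈ S, x i = w := by
    rw [hS, Finset.sum_filter_ne_zero, hsum]
  -- split off the factor `j`
  have h2 : ∀ s, ∏ i, ENNReal.ofReal |Phi α (x i * s)| =
      ((fun s => ENNReal.ofReal |Phi α (x j * s)|) *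
        (fun s => ∏ i ∈ S, ENNReal.ofReal |Phi α (x i * s)|)) s := by
    intro s
    rw [Pi.mul_apply, ← Finset.mul_prod_erase Finset.univ _ (Finset.mem_univ j),
      hold_one hα x (Finset.univ.erase j) s]
  simp only [h2]
  have hm1 : ∀ i, 0 < x i → AEMeasurable (fun s => ENNReal.ofReal |Phi α (x i * s)|)
      (volume.restrict (Ioi (0 : ℝ))) := by
    intro i hi
    have := hold_meas hα hi 1
    simpa only [Real.rpow_one] using this
  have hm2 : AEMeasurable (fun s => ∏ i ∈ S, ENNReal.ofReal |Phi α (x i * s)|)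
      (volume.restrict (Ioi (0 : ℝ))) :=
    Finset.aemeasurable_fun_prod S fun i hi => hm1 i (hxS i hi)
  refine (ENNReal.lintegral_mul_le_Lp_mul_Lq _ Real.HolderConjugate.two_two (hm1 j hj0) hm2).trans ?_
  -- first factor
  have h3 : ∫⁻ s in Ioi (0 : ℝ), ENNReal.ofReal |Phi α (x j * s)| ^ (2 : ℝ) ≤
      ENNReal.ofReal (A / (2 * x j)) := by
    have e : ∀ s, ENNReal.ofReal |Phi α (x j * s)| ^ (2 : ℝ) =
        ENNReal.ofReal (|Phi α (x j * s)| ^ (2 : ℝ)) := fun s =>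
      ENNReal.ofReal_rpow_of_nonneg (abs_nonneg _) (by norm_num)
    simp only [e]
    rw [hold_mom hj0]
    have h4 : Mom α 2 ≤ ENNReal.ofReal (A / 2) := by
      rw [ENNReal.ofReal_div_of_pos (by norm_num : (0:ℝ) < 2), ENNReal.le_div_iff_mul_le
        (Or.inl (by simp)) (Or.inl ENNReal.ofReal_ne_top), mul_comm]
      exact hA
    calc ENNReal.ofReal (1 / x j) * Mom α 2
        ≤ ENNReal.ofReal (1 / x j) * ENNReal.ofReal (A / 2) := by gcongr
      _ = ENNReal.ofReal (A / (2 * x j)) := by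
        rw [← ENNReal.ofReal_mul (by positivity)]
        congr 1
        field_simp
  -- second factor
  have h5 : ∫⁻ s in Ioi (0 : ℝ), (∏ i ∈ S, ENNReal.ofReal |Phi α (x i * s)|) ^ (2 : ℝ) ≤
      ENNReal.ofReal (1 / (2 * w)) := by
    have e : ∀ s, (∏ i ∈ S, ENNReal.ofReal |Phi α (x i * s)|) ^ (2 : ℝ) =
        ∏ i ∈ S, ENNReal.ofReal (|Phi α (x i * s)| ^ (2 : ℝ)) := by
      intro s
      rw [← ENNReal.prod_rpow_of_nonneg (by norm_num)]
      exact Finset.prod_congr rfl fun i _ =>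
        ENNReal.ofReal_rpow_of_nonneg (abs_nonneg _) (by norm_num)
    simp only [e]
    refine (hold_core hα x S hxS hw0 (by norm_num : (0:ℝ) ≤ 2) hsS).trans ?_
    have hle : ∀ i ∈ S, x i ≤ w := by
      intro i hi
      rw [← hsS]
      exact Finset.single_le_sum (fun k hk => (hxS k hk).le) hi
    have h6 : ∀ i ∈ S, (ENNReal.ofReal (1 / x i) * Mom α (2 * w / x i)) ^ (x i / w) ≤
        ENNReal.ofReal ((1 / (2 * w)) ^ (x i / w)) := by
      intro i hi
      have hxi := hxS i hi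
      rw [← ENNReal.ofReal_rpow_of_nonneg (by positivity) (by positivity)]
      refine ENNReal.rpow_le_rpow ?_ (by positivity)
      have hq : (2 : ℝ) ≤ 2 * w / x i := by
        rw [le_div_iff₀ hxi]
        have := hle i hi
        linarith
      have hq0 : (0 : ℝ) < 2 * w / x i := by positivity
      have h7 : Mom α (2 * w / x i) ≤ ENNReal.ofReal (1 / (2 * w / x i)) := by
        rw [ENNReal.ofReal_div_of_pos hq0, ENNReal.le_div_iff_mul_le
          (Or.inl (by simpa using hq0)) (Or.inl ENNReal.ofReal_ne_top), mul_comm,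
          ENNReal.ofReal_one]
        exact hB _ hq
      calc ENNReal.ofReal (1 / x i) * Mom α (2 * w / x i)
          ≤ ENNReal.ofReal (1 / x i) * ENNReal.ofReal (1 / (2 * w / x i)) := by gcongr
        _ = ENNReal.ofReal (1 / (2 * w)) := by
          rw [← ENNReal.ofReal_mul (by positivity)]
          congr 1
          field_simp
    refine (Finset.prod_le_prod' h6).trans ?_
    rw [← ENNReal.ofReal_prod_of_nonneg (fun i hi => by
      have := hxS i hi
      positivity)]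
    rw [← Real.rpow_sum_of_pos (by positivity), ← Finset.sum_div, hsS, div_self hw0.ne',
      Real.rpow_one]
  calc _ ≤ ENNReal.ofReal (A / (2 * x j)) ^ (1 / (2 : ℝ)) *
        ENNReal.ofReal (1 / (2 * w)) ^ (1 / (2 : ℝ)) := by gcongr
    _ = ENNReal.ofReal √(A / (4 * x j * w)) := by
      rw [ENNReal.ofReal_rpow_of_nonneg (by positivity) (by norm_num),
        ENNReal.ofReal_rpow_of_nonneg (by positivity) (by norm_num),
        ← ENNReal.ofReal_mul (by positivity), ← Real.mul_rpow (by positivity) (by positivity),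
        Real.sqrt_eq_rpow]
      congr 2
      field_simp
      ring

end LpSec

end

section
/-!
# T20 Ball: the integral inequality `q ∫ |Phi|^q ≤ 1 - c exp(-b q)`

`A_q := q ∫_0^∞ |Phi|^q`. `even_moment` gives, for even `N ≥ 2` and `ε = 1 - 1/α`,
`A_N ≤ exp (ε b(N))/D`, `b(N) = N negMulLog (1 - 1/N) = (N-1) log (N/(N-1))`; for `N = 2` this is
`AA α`.
-/

open Real MeasureTheory Set

namespace LpSec

variable {α : ℝ}

/-- `lemmaL` for `Phi`. -/
theorem lemmaL_Phi (hα : 1 < α) {q0 q s0 κ A0 : ℝ}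
    (hq0 : 0 < q0) (hq : q0 ≤ q) (hs0 : 0 < s0) (hs1 : s0 ≤ 1.55) (hκ : s0 ≤ κ)
    (h2 : ∀ s, s0 ≤ s → |Phi α s| ≤ exp (-κ)) (hA0 : 0 ≤ A0)
    (hA : ENNReal.ofReal q0 * Mom α q0 ≤ ENNReal.ofReal A0) :
    ENNReal.ofReal q * Mom α q ≤
      ENNReal.ofReal (1 - exp (-(q * s0)) +
        q / q0 * exp (-(κ * (q - q0))) * (exp (-(q0 * s0)) - 1 + A0)) := by
  have hmeas : AEMeasurable (Phi α) (volume.restrict (Ioi 0)) :=
    ((Phi_continuousOn hα).mono Ioi_subset_Ici_self).aemeasurable measurableSet_Ioi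
  have h := lemmaL (f := Phi α) hmeas (q0 := q0) (q := q) (s0 := s0) (M := exp (-κ)) (A0 := A0)
    hq0 hq hs0 (exp_pos _) (exp_le_exp.2 (by linarith))
    (fun s h0 h1 => main_lobe hα h0.le (by linarith)) h2 hA0 hA
  have he : exp (-κ) ^ (q - q0) = exp (-(κ * (q - q0))) := by
    rw [← Real.exp_mul]; congr 1; ring
  rw [he] at h
  exact h

/-- the case `A0 ≤ 1 - exp (-q0 s0)` -/
theorem ball_simple (hα : 1 < α) {q0 q s0 A0 : ℝ}
    (hq0 : 0 < q0) (hq : q0 ≤ q) (hs0 : 0 < s0) (hs1 : s0 ≤ 1.55)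
    (h2 : ∀ s, s0 ≤ s → |Phi α s| ≤ exp (-s0)) (hA0 : 0 ≤ A0)
    (hA : ENNReal.ofReal q0 * Mom α q0 ≤ ENNReal.ofReal A0)
    (hA1 : A0 ≤ 1 - exp (-(q0 * s0))) :
    ENNReal.ofReal q * Mom α q ≤ ENNReal.ofReal (1 - exp (-(s0 * q))) := by
  refine (lemmaL_Phi hα hq0 hq hs0 hs1 le_rfl h2 hA0 hA).trans (ENNReal.ofReal_le_ofReal ?_)
  have h3 : q / q0 * exp (-(s0 * (q - q0))) * (exp (-(q0 * s0)) - 1 + A0) ≤ 0 := by
    apply mul_nonpos_of_nonneg_of_nonpos
    · have : 0 ≤ q / q0 := div_nonneg (by linarith) hq0.le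
      positivity
    · linarith
  rw [mul_comm s0 q]
  linarith

theorem one_add_mul_exp_le {t : ℝ} (ht : 0 ≤ t) : (1 + t) * exp (-t) ≤ 1 := by
  have h := add_one_le_exp t
  have h2 : exp t * exp (-t) = 1 := by rw [← exp_add]; simp
  nlinarith [exp_pos (-t)]

theorem AA_pos (hα : 1 < α) : 0 < AA α := by
  unfold AA
  exact div_pos (Real.rpow_pos_of_pos (by norm_num) _) (DD_pos (by linarith))

theorem ball_ge8 (hα : 8 ≤ α) : ∃ c > 0, ∃ b > 0, ∀ q : ℝ, 2 ≤ q →
    c * exp (-(b * q)) < 1 ∧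
    ENNReal.ofReal q * Mom α q ≤ ENNReal.ofReal (1 - c * exp (-(b * q))) := by
  have h1 : 1 < α := by linarith
  have hA := AA_lt_one h1
  have hApos := AA_pos h1
  have hM := two_moment h1
  have hbd : ∀ q : ℝ, 2 ≤ q → ENNReal.ofReal q * Mom α q ≤
      ENNReal.ofReal (1 - exp (-(q * 1.45)) +
        q / 2 * exp (-(1.95 * (q - 2))) * (exp (-(2 * 1.45)) - 1 + AA α)) := fun q hq =>
    lemmaL_Phi h1 (by norm_num) hq (by norm_num) (by norm_num) (by norm_num)
      (fun s hs => tail_big hα hs) hApos.le hM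
  rcases le_or_gt (exp (-(2 * 1.45)) - 1 + AA α) 0 with hc | hc
  · refine ⟨1, one_pos, 1.45, by norm_num, fun q hq => ⟨?_, ?_⟩⟩
    · rw [one_mul]
      exact Real.exp_lt_one_iff.2 (by nlinarith)
    · refine (hbd q hq).trans (ENNReal.ofReal_le_ofReal ?_)
      have h3 : q / 2 * exp (-(1.95 * (q - 2))) * (exp (-(2 * 1.45)) - 1 + AA α) ≤ 0 := by
        apply mul_nonpos_of_nonneg_of_nonpos
        · have : 0 ≤ q / 2 := by linarith
          positivity
        · exact hc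
      rw [one_mul, mul_comm (1.45 : ℝ) q]
      linarith
  · refine ⟨(1 - AA α) * exp 2.9, mul_pos (by linarith) (exp_pos _), 1.45, by norm_num,
      fun q hq => ?_⟩
    have e1 : (1 - AA α) * exp 2.9 * exp (-(1.45 * q)) = (1 - AA α) * exp (-(1.45 * (q - 2))) := by
      rw [mul_assoc, ← exp_add]; congr 2; ring
    rw [e1]
    constructor
    · have : exp (-(1.45 * (q - 2))) ≤ 1 := exp_le_one_iff.2 (by nlinarith)
      nlinarith [exp_pos (-(1.45 * (q - 2)))]
    · refine (hbd q hq).trans (ENNReal.ofReal_le_ofReal ?_)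
      have h4 : q / 2 * exp (-(1.95 * (q - 2))) ≤ exp (-(1.45 * (q - 2))) := by
        have h5 := one_add_mul_exp_le (t := (q - 2) / 2) (by linarith)
        have e2 : q / 2 * exp (-(1.95 * (q - 2))) =
            ((1 + (q - 2) / 2) * exp (-((q - 2) / 2))) * exp (-(1.45 * (q - 2))) := by
          rw [mul_assoc, ← exp_add]
          congr 1
          · ring
          · congr 1; ring
        rw [e2]
        calc ((1 + (q - 2) / 2) * exp (-((q - 2) / 2))) * exp (-(1.45 * (q - 2)))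
            ≤ 1 * exp (-(1.45 * (q - 2))) :=
              mul_le_mul_of_nonneg_right h5 (exp_pos _).le
          _ = _ := one_mul _
      have h6 := mul_le_mul_of_nonneg_right h4 hc.le
      have e3 : exp (-(1.45 * (q - 2))) * exp (-(2 * 1.45)) = exp (-(q * 1.45)) := by
        rw [← exp_add]; congr 1; ring
      nlinarith [h6, e3]

theorem ball_ge2 (hα : 2 ≤ α) : ∃ c > 0, ∃ b > 0, ∀ q : ℝ, 2 ≤ q →
    c * exp (-(b * q)) < 1 ∧
    ENNReal.ofReal q * Mom α q ≤ ENNReal.ofReal (1 - c * exp (-(b * q))) := by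
  rcases le_or_gt 8 α with h8 | h8
  · exact ball_ge8 h8
  · have h1 : 1 < α := by linarith
    refine ⟨1, one_pos, 1.4, by norm_num, fun q hq => ⟨?_, ?_⟩⟩
    · rw [one_mul]
      exact Real.exp_lt_one_iff.2 (by nlinarith)
    · rw [one_mul]
      refine ball_simple h1 (q0 := 2) (by norm_num) hq (by norm_num) (by norm_num)
        (fun s hs => tail_mid hα hs) (AA_pos h1).le (two_moment h1) ?_
      have := AA_le_mid hα h8.le
      have e : (-(2 * 1.4) : ℝ) = -2.8 := by norm_num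
      rw [e]
      exact this

theorem exp_524 : exp (-5.24) ≤ 0.00532 := by
  have h : (3.704 : ℝ) ≤ exp 1.31 := by
    have := Real.sum_le_exp_of_nonneg (x := 1.31) (by norm_num) 7
    refine le_trans ?_ this
    simp only [Finset.sum_range_succ, Finset.sum_range_zero, Nat.factorial]
    norm_num
  have h2 : exp (-5.24) = ((exp 1.31) ^ 4)⁻¹ := by
    rw [← exp_nat_mul, ← exp_neg]; congr 1; norm_num
  rw [h2]
  have h3 : (3.704 : ℝ) ^ 4 ≤ exp 1.31 ^ 4 := by gcongr
  calc (exp 1.31 ^ 4)⁻¹ ≤ ((3.704 : ℝ) ^ 4)⁻¹ := by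
        apply inv_anti₀ (by norm_num) h3
    _ ≤ _ := by norm_num

theorem exp_262 : (13.69 : ℝ) ≤ exp 2.62 := by
  have h : (3.7 : ℝ) ≤ exp 1.31 := by
    have := Real.sum_le_exp_of_nonneg (x := 1.31) (by norm_num) 7
    refine le_trans ?_ this
    simp only [Finset.sum_range_succ, Finset.sum_range_zero, Nat.factorial]
    norm_num
  have h2 : exp 2.62 = (exp 1.31) ^ 2 := by
    rw [← exp_nat_mul]; congr 1; norm_num
  rw [h2]
  nlinarith

theorem log_four_thirds_le : log (4 / 3) ≤ 0.28768235 := by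
  rw [Real.log_le_iff_le_exp (by norm_num)]
  have := Real.sum_le_exp_of_nonneg (x := 0.28768235) (by norm_num) 9
  refine le_trans ?_ this
  simp only [Finset.sum_range_succ, Finset.sum_range_zero, Nat.factorial]
  norm_num

theorem negMulLog_le {v : ℝ} (h0 : 0 ≤ v) (h1 : v ≤ 1 / 4) :
    negMulLog (1 - v) ≤ v - v ^ 2 / 2 := by
  have h := Real.abs_log_sub_add_sum_range_le (x := v) (by rw [abs_of_nonneg h0]; linarith) 3
  rw [abs_of_nonneg h0] at h
  simp only [Finset.sum_range_succ, Finset.sum_range_zero] at h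
  norm_num at h
  have h2 := (abs_le.1 h).1
  have h3 : 0 < 1 - v := by linarith
  have h4 : -log (1 - v) ≤ v + v ^ 2 / 2 + v ^ 3 / 3 + v ^ 4 / (1 - v) := by linarith
  have h5 := mul_le_mul_of_nonneg_left h4 h3.le
  have h6 : (1 - v) * (v + v ^ 2 / 2 + v ^ 3 / 3 + v ^ 4 / (1 - v)) =
      v - v ^ 2 / 2 - v ^ 3 / 6 + 2 / 3 * v ^ 4 := by
    field_simp
    ring
  rw [h6] at h5
  unfold negMulLog
  have h7 : 0 ≤ v ^ 3 := by positivity
  nlinarith

theorem exp_neg_le_aux {y z : ℝ} (hy : 0 ≤ y) (h : z ≤ y / (1 + y)) : exp (-y) ≤ 1 - z := by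
  have h1 : exp (-y) ≤ 1 / (1 + y) := by
    rw [exp_neg, inv_eq_one_div]
    exact one_div_le_one_div_of_le (by linarith) (by linarith [add_one_le_exp y])
  have h2 : 1 / (1 + y) = 1 - y / (1 + y) := by
    field_simp
    ring
  linarith

/-- the moment bound in exponential form -/
theorem even_moment' (hα : 1 < α) {N : ℕ} (hN : Even N) (h2 : 2 ≤ N) {b l y : ℝ}
    (hb : N * negMulLog (1 - 1 / (N : ℝ)) ≤ b) (hl : l ≤ log (DD α))
    (hy : y ≤ l - (1 - 1 / α) * b) :
    ENNReal.ofReal N * Mom α N ≤ ENNReal.ofReal (exp (-y)) := by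
  refine (even_moment hα hN h2).trans (ENNReal.ofReal_le_ofReal ?_)
  have hD := DD_pos (α := α) (by linarith)
  rw [div_le_iff₀ hD]
  have e : DD α = exp (log (DD α)) := (exp_log hD).symm
  rw [e, ← exp_add]
  apply exp_le_exp.2
  have hε : 0 ≤ 1 - 1 / α := by
    have : 1 / α ≤ 1 := by rw [div_le_one (by linarith)]; linarith
    linarith
  have := mul_le_mul_of_nonneg_left hb hε
  linarith

theorem ball_lt2 (h1 : 1 < α) (h2 : α < 2) : ∃ N : ℕ, 2 ≤ N ∧
    (1 - 1 / α) * ((1 - 1 / (N : ℝ)) * (1 - log (1 - 1 / (N : ℝ)))) < log (DD α) ∧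
    ∃ c > 0, ∃ b > 0, ∀ q : ℝ, (N : ℝ) ≤ q →
      c * exp (-(b * q)) < 1 ∧
      ENNReal.ofReal q * Mom α q ≤ ENNReal.ofReal (1 - c * exp (-(b * q))) := by
  set ε := 1 - 1 / α with hεdef
  have hε : 0 < ε := by
    have : 1 / α < 1 := by rw [div_lt_one (by linarith)]; exact h1
    linarith
  have tail := fun s hs => tail_any (α := α) h1 (s := s) hs
  rcases le_or_gt 0.185 ε with hA | hA
  · -- N = 2
    have hlog := log_DD_ge_right h1 h2.le
    rw [← hεdef] at hlog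
    have hl2 := Real.log_two_gt_d9
    refine ⟨2, le_rfl, ?_, 0.009, by norm_num, 1.31, by norm_num, ?_⟩
    · have e : (1 : ℝ) - 1 / ((2 : ℕ) : ℝ) = 2⁻¹ := by norm_num
      rw [e, Real.log_inv]
      nlinarith
    · intro q hq
      have hq2 : (2 : ℝ) ≤ q := by exact_mod_cast hq
      have hexp1 : exp (-(1.31 * q)) < 1 := Real.exp_lt_one_iff.2 (by nlinarith)
      refine ⟨by nlinarith [exp_pos (-(1.31 * q))], ?_⟩
      rcases le_or_gt q 4 with hq4 | hq4
      · refine (lemmaL_Phi h1 (q0 := 2) (κ := 1.31) (by norm_num) hq2 (by norm_num) (by norm_num)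
          le_rfl tail (AA_pos h1).le (two_moment h1)).trans (ENNReal.ofReal_le_ofReal ?_)
        have hAA := AA_le_right h1 h2.le
        rw [← hεdef] at hAA
        have e262 := exp_262
        have e3 : exp (-(1.31 * (q - 2))) = exp 2.62 * exp (-(1.31 * q)) := by
          rw [← exp_add]; congr 1; ring
        have e4 : exp 2.62 * exp (-(2 * 1.31)) = 1 := by
          rw [← exp_add]; norm_num
        have e5 : exp (-(q * 1.31)) = exp (-(1.31 * q)) := by rw [mul_comm]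
        rw [e3, e5]
        set E := exp (-(1.31 * q)) with hE
        have hEpos : 0 < E := exp_pos _
        have h7 : q / 2 * (exp 2.62 * E) * (exp (-(2 * 1.31)) - 1 + AA α) =
            E * (q / 2 * (1 - exp 2.62 * (1 - AA α))) := by
          have : exp 2.62 * (exp (-(2 * 1.31)) - 1 + AA α) = 1 - exp 2.62 * (1 - AA α) := by
            linear_combination e4
          linear_combination (q / 2 * E) * this
        rw [h7]
        have h8 : q / 2 * (1 - exp 2.62 * (1 - AA α)) ≤ 0.991 := by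
          have hq4' : q ≤ 4 := hq4
          have h9 : 0.5047 ≤ exp 2.62 * (1 - AA α) := by
            have h10 : 0.0368705 ≤ 1 - AA α := by linarith
            calc (0.5047 : ℝ) ≤ 13.69 * 0.0368705 := by norm_num
              _ ≤ _ := mul_le_mul e262 h10 (by norm_num) (exp_pos _).le
          have : q / 2 * (1 - exp 2.62 * (1 - AA α)) ≤ q / 2 * 0.4953 := by
            apply mul_le_mul_of_nonneg_left _ (by linarith)
            linarith
          linarith
        nlinarith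
      · have h4 : ENNReal.ofReal ((4 : ℕ) : ℝ) * Mom α ((4 : ℕ) : ℝ) ≤
            ENNReal.ofReal (exp (-0.0054)) := by
          refine even_moment' h1 (N := 4) (by decide) (by norm_num) (b := 0.86304705)
            (l := (log 2 + 0.1993) * ε) ?_ hlog ?_
          · have e : negMulLog (1 - 1 / ((4 : ℕ) : ℝ)) = 3 / 4 * log (4 / 3) := by
              unfold negMulLog
              have : (1 : ℝ) - 1 / ((4 : ℕ) : ℝ) = (4 / 3)⁻¹ := by norm_num
              rw [this, Real.log_inv]; ring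
            rw [e]
            have := log_four_thirds_le
            push_cast
            linarith
          · rw [← hεdef]
            nlinarith
        have h5 := ball_simple h1 (q0 := ((4 : ℕ) : ℝ)) (q := q) (s0 := 1.31) (by norm_num)
          (by push_cast; exact hq4.le) (by norm_num) (by norm_num) tail (exp_pos _).le h4
          (by
            have e : (-(((4 : ℕ) : ℝ) * 1.31) : ℝ) = -5.24 := by norm_num
            rw [e]
            exact exp_neg_le_aux (by norm_num) (exp_524.trans (by norm_num)))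
        refine h5.trans (ENNReal.ofReal_le_ofReal ?_)
        nlinarith [exp_pos (-(1.31 * q))]
  · rcases le_or_gt 0.0425 ε with hB | hB
    · -- N = 4
      have hlog := log_DD_near_one h1 hA.le
      have hlog' := log_DD_near_one' h1 hA.le
      rw [← hεdef] at hlog hlog'
      have h43 := log_four_thirds_le
      refine ⟨4, by norm_num, ?_, 1, one_pos, 1.31, by norm_num, ?_⟩
      · have this : (1 : ℝ) - 1 / ((4 : ℕ) : ℝ) = (4 / 3)⁻¹ := by norm_num
        rw [this, Real.log_inv]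
        nlinarith
      · intro q hq
        have hq4 : (4 : ℝ) ≤ q := by exact_mod_cast hq
        rw [one_mul]
        refine ⟨Real.exp_lt_one_iff.2 (by nlinarith), ?_⟩
        have h4 : ENNReal.ofReal ((4 : ℕ) : ℝ) * Mom α ((4 : ℕ) : ℝ) ≤
            ENNReal.ofReal (exp (-0.005368)) := by
          refine even_moment' h1 (N := 4) (by decide) (by norm_num) (b := 0.86304705)
            (l := ε - 0.25 * ε ^ 2) ?_ hlog ?_
          · have e : negMulLog (1 - 1 / ((4 : ℕ) : ℝ)) = 3 / 4 * log (4 / 3) := by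
              unfold negMulLog
              have : (1 : ℝ) - 1 / ((4 : ℕ) : ℝ) = (4 / 3)⁻¹ := by norm_num
              rw [this, Real.log_inv]; ring
            rw [e]
            push_cast
            linarith
          · rw [← hεdef]
            nlinarith
        exact ball_simple h1 (q0 := ((4 : ℕ) : ℝ)) (q := q) (s0 := 1.31) (by norm_num)
          hq (by norm_num) (by norm_num) tail (exp_pos _).le h4
          (by
            have e : (-(((4 : ℕ) : ℝ) * 1.31) : ℝ) = -5.24 := by norm_num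
            rw [e]
            exact exp_neg_le_aux (by norm_num) (exp_524.trans (by norm_num)))
    · -- large N
      have hlog := log_DD_near_one h1 hA.le
      rw [← hεdef] at hlog
      have hex : ∃ k : ℕ, ((6 + 2 * k : ℕ) : ℝ) * exp (-(1.31 * ((6 + 2 * k : ℕ) : ℝ))) ≤
          0.41 * ε := by
        have ht : Filter.Tendsto (fun x : ℝ => x * exp (-(1.31 * x))) Filter.atTop (nhds 0) := by
          have := Real.tendsto_pow_mul_exp_neg_atTop_nhds_zero 1
          have h3 := (this.comp (Filter.tendsto_id.const_mul_atTop (show (0:ℝ) < 1.31 by norm_num)))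
          have h4 := h3.const_mul (1 / 1.31)
          simp only [mul_zero] at h4
          refine h4.congr fun x => ?_
          simp only [Function.comp, id]
          field_simp
        have hN : Filter.Tendsto (fun k : ℕ => ((6 + 2 * k : ℕ) : ℝ)) Filter.atTop
            Filter.atTop := by
          refine tendsto_natCast_atTop_atTop.comp ?_
          refine Filter.tendsto_atTop_mono (fun k => ?_) Filter.tendsto_id
          simp only [id]; omega
        have h5 := (ht.comp hN).eventually (gt_mem_nhds (show (0:ℝ) < 0.41 * ε by positivity))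
        obtain ⟨k, hk⟩ := h5.exists
        exact ⟨k, hk.le⟩
      classical
      set k := Nat.find hex with hk
      have hkspec := Nat.find_spec hex
      rw [← hk] at hkspec
      set N := 6 + 2 * k with hN
      have hNR : (6 : ℝ) ≤ (N : ℝ) := by
        have : 6 ≤ N := by omega
        exact_mod_cast this
      have hsmall : ε * (N : ℝ) ^ 2 < 2 := by
        rcases Nat.eq_zero_or_pos k with hk0 | hk0
        · have : N = 6 := by omega
          rw [this]
          norm_num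
          linarith
        · have hmin := Nat.find_min hex (m := k - 1) (by rw [← hk]; omega)
          rw [not_le] at hmin
          have hM : 6 + 2 * (k - 1) = N - 2 := by omega
          rw [hM] at hmin
          have hcast : ((N - 2 : ℕ) : ℝ) = (N : ℝ) - 2 := by
            rw [Nat.cast_sub (by omega)]; norm_num
          rw [hcast] at hmin
          set M := (N : ℝ) - 2 with hMdef
          have hM6 : 6 ≤ M := by
            have : 8 ≤ N := by omega
            have : (8 : ℝ) ≤ N := by exact_mod_cast this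
            linarith
          have hexp : M ^ 5 * 0.12 ≤ exp (1.31 * M) := by
            have := Real.sum_le_exp_of_nonneg (x := 1.31 * M) (by linarith) 8
            refine le_trans ?_ this
            simp only [Finset.sum_range_succ, Finset.sum_range_zero, Nat.factorial]
            push_cast
            have h1 : (0:ℝ) ≤ M ^ 5 := by positivity
            have h2 : M ^ 5 * 36 ≤ M ^ 5 * M ^ 2 :=
              mul_le_mul_of_nonneg_left (by nlinarith) h1
            have h3 : M ^ 5 * 6 ≤ M ^ 5 * M := mul_le_mul_of_nonneg_left hM6 h1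
            have h4 : 0 ≤ M ^ 2 := by positivity
            have h5 : 0 ≤ M ^ 3 := by positivity
            have h6 : 0 ≤ M ^ 4 := by positivity
            ring_nf
            ring_nf at h2 h3
            nlinarith
          have hNM : (N : ℝ) ^ 2 ≤ 16 / 9 * M ^ 2 := by
            have : (N : ℝ) = M + 2 := by linarith
            rw [this]; nlinarith
          have hE : exp (-(1.31 * M)) * exp (1.31 * M) = 1 := by
            rw [← exp_add]; simp
          have h10 : 0.41 * ε * exp (1.31 * M) < M := by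
            have := mul_lt_mul_of_pos_right hmin (exp_pos (1.31 * M))
            rw [mul_assoc M, hE, mul_one] at this
            exact this
          have h11 : 0.41 * ε * (M ^ 5 * 0.12) < M := by
            refine lt_of_le_of_lt ?_ h10
            apply mul_le_mul_of_nonneg_left hexp (by positivity)
          -- ε * M^4 * 0.0492 < 1
          have hM0 : 0 < M := by linarith
          have h12 : ε * M ^ 4 * 0.0492 < 1 := by
            by_contra hcon
            rw [not_lt] at hcon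
            have := mul_le_mul_of_nonneg_left hcon hM0.le
            nlinarith
          have h13 : 36 * (ε * M ^ 2) ≤ ε * M ^ 4 := by
            have : 36 ≤ M ^ 2 := by nlinarith
            have h14 : 0 ≤ ε * M ^ 2 := by positivity
            nlinarith
          nlinarith
      have hv : (0:ℝ) < 1 / (N : ℝ) := by positivity
      have hv6 : 1 / (N : ℝ) ≤ 1 / 6 := by
        apply one_div_le_one_div_of_le (by norm_num) hNR
      set v := 1 / (N : ℝ) with hvdef
      have hNv : (N : ℝ) * v = 1 := by rw [hvdef]; field_simp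
      have hεv : ε < 2 * v ^ 2 := by
        have h20 : 0 < v ^ 2 := by positivity
        have := mul_lt_mul_of_pos_right hsmall h20
        have e : ε * (N : ℝ) ^ 2 * v ^ 2 = ε := by
          rw [mul_assoc, ← mul_pow, hNv]; ring
        linarith
      have hneg := negMulLog_le hv.le (by linarith : v ≤ 1 / 4)
      refine ⟨N, by omega, ?_, 1, one_pos, 1.31, by norm_num, ?_⟩
      · have e : (1 - v) * (1 - log (1 - v)) = (1 - v) + negMulLog (1 - v) := by
          unfold negMulLog; ring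
        rw [e]
        refine lt_of_le_of_lt (mul_le_mul_of_nonneg_left (b := (1 - v) + negMulLog (1 - v))
          (c := 1 - v ^ 2 / 2) (by linarith) hε.le) ?_
        refine lt_of_lt_of_le ?_ hlog
        nlinarith
      · intro q hq
        rw [one_mul]
        refine ⟨Real.exp_lt_one_iff.2 (by nlinarith), ?_⟩
        have hNN : (N : ℝ) * negMulLog (1 - v) ≤ 1 - v / 2 := by
          have := mul_le_mul_of_nonneg_left hneg (show (0:ℝ) ≤ N by positivity)
          have e : (N : ℝ) * (v - v ^ 2 / 2) = 1 - v / 2 := by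
            have : (N : ℝ) * (v - v ^ 2 / 2) = (N * v) * (1 - v / 2) := by ring
            rw [this, hNv]; ring
          linarith
        have hmom : ENNReal.ofReal (N : ℝ) * Mom α (N : ℝ) ≤
            ENNReal.ofReal (exp (-(5 / 12 * (ε * v)))) := by
          refine even_moment' h1 (N := N) ⟨3 + k, by omega⟩ (by omega) (b := 1 - v / 2)
            (l := ε - 0.25 * ε ^ 2) hNN hlog ?_
          rw [← hεdef]
          have h21 : ε ≤ v / 3 := by nlinarith
          nlinarith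
        refine ball_simple h1 (q0 := (N : ℝ)) (q := q) (s0 := 1.31) (by linarith)
          hq (by norm_num) (by norm_num) tail (exp_pos _).le hmom ?_
        refine exp_neg_le_aux (by positivity) ?_
        have h22 : exp (-((N : ℝ) * 1.31)) ≤ 0.41 * (ε * v) := by
          rw [mul_comm (N : ℝ) 1.31]
          have := mul_le_mul_of_nonneg_left hkspec hv.le
          have e : v * ((N : ℝ) * exp (-(1.31 * (N : ℝ)))) = exp (-(1.31 * (N : ℝ))) := by
            rw [← mul_assoc, mul_comm v, hNv, one_mul]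
          rw [e] at this
          linarith
        refine h22.trans ?_
        rw [le_div_iff₀ (by positivity)]
        have h23 : ε * v ≤ 0.01 := by nlinarith
        have h24 : 0 ≤ ε * v := by positivity
        nlinarith

end LpSec

end

section
/-!
# T22 Unif: the dimension-free bound

`x i = ‖a i‖²`, `j` with `u = x j` maximal (`u ≥ u0`), `J = ∫⁻ ∏ |Phi (x i s)|`, `sec ≤ cst D J`.
* `u ≤ 1/N` (`N = 2` if `α ≥ 2`, `N` from `ball_lt2` if `α < 2`): `holder_max` with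
  `B q = 1 - c exp (-b q)`: `J ≤ B(1/u)^u ≤ (1 - c exp (-b/u0))^u0 < 1`.
* `α ≥ 2`, `u ≥ 1/2`: by `beta_ineq` (`1 - A > (1 - y/2)²`, `y = 2^(1-1/α) = A D`, equivalent to
  `4 (1/D)(1 - 1/D) > A`) there is `v ∈ (1/D, 1)` with `4 v (1-v) > A`; if `u ≥ v` use `sec_le_coord`:
  `sec ≤ cst/u ≤ cst D (1/(D v))`; if `u < v` use `beta_bound`: `J ≤ √(A/(4v(1-v))) < 1`
  (`u (1-u) ≥ v (1-v)` on `[1/2, v]`).
* `α < 2`, `u > 1/N`: if `u = 1` use `sec_le_coord` (`1/D < 1`); otherwise `bl_bound`, with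
  `negMulLog (1-t) ≤ t`: `∑ ≤ negMulLog (1-u) + (1-u) = (1-u)(1 - log (1-u))`, decreasing in `u`, so
  `≤ (1-1/N)(1 - log (1-1/N))`, and `exp (ε ...) < D`.
-/

open Real MeasureTheory Set Filter Topology

namespace LpSec

variable {α : ℝ}

theorem unif_cst_pos (hα : 1 < α) (m : ℕ) : 0 < cst α m := by
  unfold cst
  have h1 : 0 < Gamma (1 + 1 / α) := by
    apply Gamma_pos_of_pos
    have : 0 < 1 / α := by positivity
    linarith
  positivity

/-- from a bound for the Fourier integral to a bound for the section -/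
theorem unif_of_J (hα : 1 < α) {m : ℕ} (a : EuclideanSpace ℂ (Fin (m + 1))) (ha : ‖a‖ = 1)
    {t δ : ℝ} (htd : t ≤ 1 - δ)
    (hJ : ∫⁻ s in Ioi (0 : ℝ), ∏ i, ENNReal.ofReal |Phi α (‖a i‖ ^ 2 * s)| ≤ ENNReal.ofReal t) :
    sec α a ≤ ENNReal.ofReal (cst α m * DD α * (1 - δ)) := by
  have hC := unif_cst_pos hα m
  have hD := DD_pos (α := α) (by linarith)
  refine (sec_le_fourier hα a ha).trans ?_
  rw [ENNReal.ofReal_mul (by positivity : 0 ≤ cst α m * DD α)]
  gcongr
  exact hJ.trans (ENNReal.ofReal_le_ofReal htd)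

theorem unif_sum (m : ℕ) (a : EuclideanSpace ℂ (Fin (m + 1))) (ha : ‖a‖ = 1) :
    ∑ i, ‖a i‖ ^ 2 = 1 := by
  have h := EuclideanSpace.norm_sq_eq a
  rw [ha] at h
  rw [← h]
  norm_num

/-- small maximal coordinate -/
theorem unif_small (hα : 1 < α) {N : ℝ} (hN : 1 ≤ N) {c b u0 : ℝ} (hc : 0 < c) (hb : 0 < b)
    (hu : 0 < u0) (huN : u0 ≤ 1 / N)
    (hball : ∀ q : ℝ, N ≤ q → c * exp (-(b * q)) < 1 ∧
      ENNReal.ofReal q * Mom α q ≤ ENNReal.ofReal (1 - c * exp (-(b * q)))) :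
    ∃ δ > 0, ∀ (m : ℕ) (a : EuclideanSpace ℂ (Fin (m + 1))), ‖a‖ = 1 →
      ∀ j, u0 ≤ ‖a j‖ ^ 2 → (∀ i, ‖a i‖ ^ 2 ≤ 1 / N) →
      sec α a ≤ ENNReal.ofReal (cst α m * DD α * (1 - δ)) := by
  have hN0 : 0 < N := by linarith
  have hq0 : N ≤ 1 / u0 := by
    rw [le_div_iff₀ hu]
    rw [le_div_iff₀ hN0] at huN
    linarith
  set β0 : ℝ := 1 - c * exp (-(b * (1 / u0))) with hβ0
  have hβ0pos : 0 < β0 := by
    have := (hball _ hq0).1
    linarith
  have hβ0lt : β0 < 1 := by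
    have : 0 < c * exp (-(b * (1 / u0))) := by positivity
    linarith
  have hlt : β0 ^ u0 < 1 := Real.rpow_lt_one hβ0pos.le hβ0lt hu
  refine ⟨1 - β0 ^ u0, by linarith, ?_⟩
  intro m a ha j hj hmax
  have hjpos : 0 < ‖a j‖ ^ 2 := lt_of_lt_of_le hu hj
  refine unif_of_J hα a ha (t := (1 - c * exp (-(b * (1 / ‖a j‖ ^ 2)))) ^ (‖a j‖ ^ 2)) ?_ ?_
  · have hqj : N ≤ 1 / ‖a j‖ ^ 2 := by
      rw [le_div_iff₀ hjpos]
      have := hmax j
      rw [le_div_iff₀ hN0] at this
      linarith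
    have h1 : 0 < 1 - c * exp (-(b * (1 / ‖a j‖ ^ 2))) := by
      have := (hball _ hqj).1
      linarith
    have h2 : 1 - c * exp (-(b * (1 / ‖a j‖ ^ 2))) ≤ β0 := by
      rw [hβ0]
      have h3 : 1 / ‖a j‖ ^ 2 ≤ 1 / u0 := one_div_le_one_div_of_le hu hj
      have h4 : exp (-(b * (1 / u0))) ≤ exp (-(b * (1 / ‖a j‖ ^ 2))) := by
        apply Real.exp_le_exp.2
        have := mul_le_mul_of_nonneg_left h3 hb.le
        linarith
      have := mul_le_mul_of_nonneg_left h4 hc.le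
      linarith
    have h3 : (1 - c * exp (-(b * (1 / ‖a j‖ ^ 2)))) ^ (‖a j‖ ^ 2) ≤ β0 ^ (‖a j‖ ^ 2) :=
      Real.rpow_le_rpow h1.le h2 hjpos.le
    have h4 : β0 ^ (‖a j‖ ^ 2) ≤ β0 ^ u0 :=
      Real.rpow_le_rpow_of_exponent_ge hβ0pos hβ0lt.le hj
    linarith
  · refine holder_max hα (fun i => ‖a i‖ ^ 2) (fun i => by positivity) (unif_sum m a ha) hN hmax
      (B := fun q => 1 - c * exp (-(b * q))) ?_ ?_ j hjpos
    · intro q hq
      have h1 := (hball q hq).1
      have h2 : 0 < c * exp (-(b * q)) := by positivity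
      constructor <;> linarith
    · intro q hq
      exact (hball q hq).2

theorem unif_coord (hα : 1 < α) {v : ℝ} (hv : 0 < v) {m : ℕ} (a : EuclideanSpace ℂ (Fin (m + 1)))
    (ha : ‖a‖ = 1) (j : Fin (m + 1)) (hj : v ≤ ‖a j‖ ^ 2) {δ : ℝ} (hδ : 1 / (DD α * v) ≤ 1 - δ) :
    sec α a ≤ ENNReal.ofReal (cst α m * DD α * (1 - δ)) := by
  have hC := unif_cst_pos hα m
  have hD := DD_pos (α := α) (by linarith)
  have hj0 : a j ≠ 0 := by
    intro h
    rw [h, norm_zero] at hj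
    norm_num at hj
    linarith
  refine (sec_le_coord hα a ha j hj0).trans ?_
  apply ENNReal.ofReal_le_ofReal
  have h1 : cst α m / ‖a j‖ ^ 2 ≤ cst α m / v := div_le_div_of_nonneg_left hC.le hv hj
  refine h1.trans ?_
  have h2 : cst α m / v = cst α m * DD α * (1 / (DD α * v)) := by
    field_simp
  rw [h2]
  exact mul_le_mul_of_nonneg_left hδ (by positivity)

theorem unif_exists_max (m : ℕ) (a : EuclideanSpace ℂ (Fin (m + 1))) :
    ∃ j, ∀ i, ‖a i‖ ^ 2 ≤ ‖a j‖ ^ 2 := by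
  obtain ⟨j, _, hj⟩ := Finset.exists_max_image (Finset.univ : Finset (Fin (m + 1)))
    (fun i => ‖a i‖ ^ 2) ⟨0, Finset.mem_univ _⟩
  exact ⟨j, fun i => hj i (Finset.mem_univ _)⟩

theorem unif_ge2 (hα : 2 ≤ α) {u0 : ℝ} (hu : 0 < u0) : ∃ δ > 0, ∀ (m : ℕ)
    (a : EuclideanSpace ℂ (Fin (m + 1))), ‖a‖ = 1 → (∃ i, u0 ≤ ‖a i‖ ^ 2) →
      sec α a ≤ ENNReal.ofReal (cst α m * DD α * (1 - δ)) := by
  have h1α : 1 < α := by linarith
  have hD := DD_pos (α := α) (by linarith)
  have hD1 := one_lt_DD h1α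
  obtain ⟨c, hc, b, hb, hball⟩ := ball_ge2 hα
  -- small case
  set u1 : ℝ := min u0 (1 / 2) with hu1
  have hu1pos : 0 < u1 := lt_min hu (by norm_num)
  obtain ⟨δ1, hδ1, hsmall⟩ := unif_small h1α (N := 2) (by norm_num) hc hb hu1pos
    (min_le_right _ _) hball
  -- the choice of v
  set A : ℝ := AA α with hA
  have hAD : A * DD α = 2 ^ (1 - 1 / α) := by
    rw [hA]
    unfold AA
    field_simp
  have hy : (2 : ℝ) ^ (1 - 1 / α) = 2 * 2 ^ (-(1 / α)) := by
    rw [sub_eq_add_neg, Real.rpow_add (by norm_num), Real.rpow_one]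
  set z : ℝ := 2 ^ (-(1 / α)) with hz
  have hzpos : 0 < z := Real.rpow_pos_of_pos (by norm_num) _
  have hbeta : A < 1 - (1 - z) ^ 2 := beta_ineq hα
  set d : ℝ := 1 / DD α with hd
  have hdpos : 0 < d := by positivity
  have hd1 : d < 1 := by
    rw [hd, div_lt_one hD]
    exact hD1
  have hAd : A = 2 * z * d := by
    rw [hd]
    field_simp
    rw [hAD, hy]
  have hfd : 0 < 4 * d * (1 - d) - A := by
    -- A < 2 z - z^2, A = 2 z d
    have h1 : 2 * z * d < 2 * z - z ^ 2 := by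
      rw [← hAd]; nlinarith
    have h2 : 2 * d < 2 - z := by
      have h3 : z * (2 * d) < z * (2 - z) := by nlinarith
      exact lt_of_mul_lt_mul_left h3 hzpos.le
    rw [hAd]
    nlinarith
  set η : ℝ := min ((1 - d) / 2) ((4 * d * (1 - d) - A) / 8) with hη
  have hηpos : 0 < η := lt_min (by linarith) (by linarith)
  have hη1 : η ≤ (1 - d) / 2 := min_le_left _ _
  have hη2 : η ≤ (4 * d * (1 - d) - A) / 8 := min_le_right _ _
  set v : ℝ := d + η with hv
  have hvpos : 0 < v := by linarith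
  have hv1 : v < 1 := by linarith
  have hvd : d < v := by linarith
  have hfv : A < 4 * v * (1 - v) := by
    rw [hv]
    nlinarith
  have hApos : 0 < A := by rw [hAd]; positivity
  have h4v : 0 < 4 * v * (1 - v) := by linarith
  have hsq : √(A / (4 * v * (1 - v))) < 1 := by
    rw [Real.sqrt_lt' (by norm_num), one_pow, div_lt_one h4v]
    exact hfv
  have hDv : 1 / (DD α * v) < 1 := by
    rw [div_lt_one (by positivity)]
    rw [hd, div_lt_iff₀ hD] at hvd
    linarith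
  set δ : ℝ := min δ1 (min (1 - 1 / (DD α * v)) (1 - √(A / (4 * v * (1 - v))))) with hδ
  have hδpos : 0 < δ := lt_min hδ1 (lt_min (by linarith) (by linarith))
  have hδ1' : δ ≤ δ1 := min_le_left _ _
  have hδ2 : δ ≤ 1 - 1 / (DD α * v) := (min_le_right _ _).trans (min_le_left _ _)
  have hδ3 : δ ≤ 1 - √(A / (4 * v * (1 - v))) := (min_le_right _ _).trans (min_le_right _ _)
  refine ⟨δ, hδpos, ?_⟩
  intro m a ha ⟨i0, hi0⟩
  obtain ⟨j, hj⟩ := unif_exists_max m a
  have hj0 : u1 ≤ ‖a j‖ ^ 2 := (min_le_left _ _).trans (hi0.trans (hj i0))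
  have hC := unif_cst_pos h1α m
  by_cases h2 : ‖a j‖ ^ 2 ≤ 1 / 2
  · refine (hsmall m a ha j hj0 (fun i => (hj i).trans h2)).trans ?_
    apply ENNReal.ofReal_le_ofReal
    apply mul_le_mul_of_nonneg_left _ (by positivity)
    linarith
  · push Not at h2
    by_cases h3 : v ≤ ‖a j‖ ^ 2
    · exact unif_coord h1α hvpos a ha j h3 (by linarith)
    · push Not at h3
      have hjpos : 0 < ‖a j‖ ^ 2 := by linarith
      refine unif_of_J h1α a ha (t := √(A / (4 * ‖a j‖ ^ 2 * (1 - ‖a j‖ ^ 2)))) ?_ ?_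
      · have h4 : √(A / (4 * ‖a j‖ ^ 2 * (1 - ‖a j‖ ^ 2))) ≤ √(A / (4 * v * (1 - v))) := by
          apply Real.sqrt_le_sqrt
          apply div_le_div_of_nonneg_left hApos.le h4v
          nlinarith
        linarith
      · refine beta_bound h1α (fun i => ‖a i‖ ^ 2) (fun i => by positivity) (unif_sum m a ha)
          hApos.le (two_moment h1α) ?_ j hjpos (by linarith)
        intro q hq
        refine (hball q hq).2.trans ?_
        rw [← ENNReal.ofReal_one]
        apply ENNReal.ofReal_le_ofReal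
        have : 0 < c * exp (-(b * q)) := by positivity
        linarith

theorem unif_negMulLog_le {t : ℝ} (h1 : t ≤ 1) : negMulLog (1 - t) ≤ t ∨ t < 0 := by
  by_cases h0 : t < 0
  · exact Or.inr h0
  · left
    push Not at h0
    rcases eq_or_lt_of_le h1 with h | h
    · rw [h]; simp
    · have h2 := Real.one_sub_inv_le_log_of_pos (x := 1 - t) (by linarith)
      unfold negMulLog
      have h3 : (1 - t) * (1 - (1 - t)⁻¹) ≤ (1 - t) * log (1 - t) :=
        mul_le_mul_of_nonneg_left h2 (by linarith)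
      have h4 : (1 - t) * (1 - (1 - t)⁻¹) = -t := by
        have : (1 - t) ≠ 0 := by linarith
        field_simp
        ring
      linarith

theorem unif_mono {t T : ℝ} (h0 : 0 < t) (h : t ≤ T) (hT : T ≤ 1) :
    t * (1 - log t) ≤ T * (1 - log T) := by
  have hT0 : 0 < T := by linarith
  have h1 : log (T / t) ≤ T / t - 1 := Real.log_le_sub_one_of_pos (by positivity)
  rw [Real.log_div hT0.ne' h0.ne'] at h1
  have h2 : t * (log T - log t) ≤ t * (T / t - 1) := mul_le_mul_of_nonneg_left h1 h0.le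
  have h3 : t * (T / t - 1) = T - t := by
    field_simp
  have h4 : log T ≤ 0 := Real.log_nonpos hT0.le hT
  nlinarith

theorem unif_lt2 (h1α : 1 < α) (h2α : α < 2) {u0 : ℝ} (hu : 0 < u0) : ∃ δ > 0, ∀ (m : ℕ)
    (a : EuclideanSpace ℂ (Fin (m + 1))), ‖a‖ = 1 → (∃ i, u0 ≤ ‖a i‖ ^ 2) →
      sec α a ≤ ENNReal.ofReal (cst α m * DD α * (1 - δ)) := by
  have hD := DD_pos (α := α) (by linarith)
  have hD1 := one_lt_DD h1α
  obtain ⟨N, hN2, hcov, c, hc, b, hb, hball⟩ := ball_lt2 h1α h2α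
  have hN2' : (2 : ℝ) ≤ N := by exact_mod_cast hN2
  have hN0 : (0 : ℝ) < N := by linarith
  set u1 : ℝ := min u0 (1 / (N : ℝ)) with hu1
  have hu1pos : 0 < u1 := lt_min hu (by positivity)
  obtain ⟨δ1, hδ1, hsmall⟩ := unif_small h1α (N := (N : ℝ)) (by linarith) hc hb hu1pos
    (min_le_right _ _) hball
  have hd1 : 1 / (DD α * 1) < 1 := by
    rw [mul_one, div_lt_one hD]
    exact hD1
  have hε : 0 ≤ 1 - 1 / α := by
    have : 1 / α ≤ 1 := by
      rw [div_le_one (by linarith)]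
      linarith
    linarith
  set T : ℝ := 1 - 1 / (N : ℝ) with hT
  have hT1 : T ≤ 1 := by
    have : 0 < 1 / (N : ℝ) := by positivity
    linarith
  set E : ℝ := exp ((1 - 1 / α) * (T * (1 - log T))) with hE
  have hED : E < DD α := by
    rw [hE, ← Real.lt_log_iff_exp_lt hD]
    exact hcov
  have hED1 : E / DD α < 1 := by
    rw [div_lt_one hD]
    exact hED
  set δ : ℝ := min δ1 (min (1 - 1 / (DD α * 1)) (1 - E / DD α)) with hδ
  have hδpos : 0 < δ := lt_min hδ1 (lt_min (by linarith) (by linarith))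
  have hδ1' : δ ≤ δ1 := min_le_left _ _
  have hδ2 : δ ≤ 1 - 1 / (DD α * 1) := (min_le_right _ _).trans (min_le_left _ _)
  have hδ3 : δ ≤ 1 - E / DD α := (min_le_right _ _).trans (min_le_right _ _)
  refine ⟨δ, hδpos, ?_⟩
  intro m a ha ⟨i0, hi0⟩
  obtain ⟨j, hj⟩ := unif_exists_max m a
  have hj0 : u1 ≤ ‖a j‖ ^ 2 := (min_le_left _ _).trans (hi0.trans (hj i0))
  have hC := unif_cst_pos h1α m
  have hsum := unif_sum m a ha
  by_cases h2 : ‖a j‖ ^ 2 ≤ 1 / (N : ℝ)
  · refine (hsmall m a ha j hj0 (fun i => (hj i).trans h2)).trans ?_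
    apply ENNReal.ofReal_le_ofReal
    apply mul_le_mul_of_nonneg_left _ (by positivity)
    linarith
  · push Not at h2
    by_cases h3 : 1 ≤ ‖a j‖ ^ 2
    · exact unif_coord h1α one_pos a ha j h3 (by linarith)
    · push Not at h3
      have hlt : ∀ i, ‖a i‖ < 1 := by
        intro i
        have h4 : ‖a i‖ ^ 2 < 1 := lt_of_le_of_lt (hj i) h3
        nlinarith [norm_nonneg (a i)]
      refine (bl_bound h1α a ha hlt).trans ?_
      apply ENNReal.ofReal_le_ofReal
      have h5 : ∑ i, negMulLog (1 - ‖a i‖ ^ 2) ≤ T * (1 - log T) := by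
        have h6 : ∑ i, negMulLog (1 - ‖a i‖ ^ 2) ≤
            negMulLog (1 - ‖a j‖ ^ 2) + (1 - ‖a j‖ ^ 2) := by
          rw [← Finset.add_sum_erase Finset.univ _ (Finset.mem_univ j)]
          have h7 : ∑ i ∈ Finset.univ.erase j, negMulLog (1 - ‖a i‖ ^ 2) ≤
              ∑ i ∈ Finset.univ.erase j, ‖a i‖ ^ 2 := by
            refine Finset.sum_le_sum (fun i _ => ?_)
            rcases unif_negMulLog_le (t := ‖a i‖ ^ 2) ((hj i).trans h3.le) with h | h
            · exact h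
            · exact absurd h (not_lt.2 (by positivity))
          have h8 : ∑ i ∈ Finset.univ.erase j, ‖a i‖ ^ 2 = 1 - ‖a j‖ ^ 2 := by
            rw [← hsum, ← Finset.add_sum_erase Finset.univ _ (Finset.mem_univ j)]
            ring
          linarith
        refine h6.trans ?_
        have h9 := unif_mono (t := 1 - ‖a j‖ ^ 2) (T := T) (by linarith)
          (by rw [hT]; linarith) hT1
        unfold negMulLog
        linarith
      have h10 : cst α m * DD α * (1 - δ) ≥ cst α m * E := by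
        have h11 : E / DD α ≤ 1 - δ := by linarith
        have h12 : cst α m * E = cst α m * DD α * (E / DD α) := by
          field_simp
        rw [h12]
        exact mul_le_mul_of_nonneg_left h11 (by positivity)
      refine le_trans ?_ h10
      apply mul_le_mul_of_nonneg_left _ hC.le
      rw [hE]
      apply Real.exp_le_exp.2
      exact mul_le_mul_of_nonneg_left h5 hε

theorem unif (hα : 1 < α) {u0 : ℝ} (hu : 0 < u0) : ∃ δ > 0, ∀ (m : ℕ)
    (a : EuclideanSpace ℂ (Fin (m + 1))), ‖a‖ = 1 → (∃ i, u0 ≤ ‖a i‖ ^ 2) →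
      sec α a ≤ ENNReal.ofReal (cst α m * DD α * (1 - δ)) := by
  by_cases h : α < 2
  · exact unif_lt2 hα h hu
  · exact unif_ge2 (not_lt.1 h) hu

theorem sec_lt (hα : 1 < α) {m : ℕ} (a : EuclideanSpace ℂ (Fin (m + 1))) (ha : ‖a‖ = 1) :
    sec α a < ENNReal.ofReal (cst α m * DD α) := by
  have hC := unif_cst_pos hα m
  have hD := DD_pos (α := α) (by linarith)
  obtain ⟨j, hj⟩ := unif_exists_max m a
  have hsum := unif_sum m a ha
  have hpos : 0 < ‖a j‖ ^ 2 := by
    by_contra hcon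
    push Not at hcon
    have h1 : ∑ i, ‖a i‖ ^ 2 ≤ 0 := Finset.sum_nonpos (fun i _ => (hj i).trans hcon)
    linarith
  obtain ⟨δ, hδ, h⟩ := unif hα hpos
  refine lt_of_le_of_lt (h m a ha ⟨j, le_refl _⟩) ?_
  rw [ENNReal.ofReal_lt_ofReal_iff (by positivity)]
  have : 0 < cst α m * DD α := by positivity
  nlinarith

end LpSec

end

section
/-!
# T23 Asym1: decay of products
-/

open Real MeasureTheory Set Filter Topology

namespace LpSec

variable {α : ℝ}

/-- `∫_0^∞ ∏ Phi (x i s) ds`. -/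
noncomputable def J (α : ℝ) {n : ℕ} (x : Fin n → ℝ) : ℝ :=
  ∫ s in Ioi (0 : ℝ), ∏ i, Phi α (x i * s)

theorem K0_ge {v : ℝ} (hv : 0 ≤ v) : 1 - v ≤ K 0 v := by
  have hmono : MonotoneOn (fun v => K 0 v + v) (Ici 0) := by
    have hd : ∀ x : ℝ, HasDerivAt (fun v => K 0 v + v) (-(K (0 + 1) x) + 1) x := fun x =>
      (K_hasDerivAt 0 x).add (hasDerivAt_id x)
    refine monotoneOn_of_deriv_nonneg (convex_Ici 0) ?_ ?_ ?_
    · exact ((K_continuous 0).add continuous_id).continuousOn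
    · intro x _
      exact (hd x).differentiableAt.differentiableWithinAt
    · intro x hx
      rw [interior_Ici] at hx
      rw [(hd x).deriv]
      have h := K_abs_le (0 + 1) (le_of_lt hx)
      have h2 := (abs_le.mp h).2
      norm_num at h2 ⊢
      linarith
  have h := hmono (mem_Ici.mpr le_rfl) (mem_Ici.mpr hv) hv
  have h0 : K 0 0 = 1 := by rw [K_zero]; norm_num
  simp only [h0, add_zero] at h
  linarith

theorem Phi_ge (hα : 1 < α) {s : ℝ} (hs : 0 ≤ s) : 1 - s ≤ Phi α s := by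
  have hα0 : 0 < α := by linarith
  have h1 : ∫ ρ in Ioi (0 : ℝ), (F α ρ - s * (ρ * F α ρ)) = 1 - s := by
    rw [integral_sub (F_integrable hα) ((F_mul_integrable hα).const_mul s),
      integral_const_mul, F_integral hα, F_mean hα, mul_one]
  rw [← h1]
  unfold Phi
  refine setIntegral_mono_on ((F_integrable hα).sub ((F_mul_integrable hα).const_mul s))
    (F_mul_K_integrable hα hs) measurableSet_Ioi ?_
  intro ρ hρ
  have hρ0 : 0 ≤ ρ := le_of_lt hρ
  have hk := K0_ge (mul_nonneg hs hρ0)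
  have hF := (F_pos hα0 ρ).le
  nlinarith [mul_le_mul_of_nonneg_left hk hF]

theorem Phi_decay (hα : 1 < α) {s : ℝ} (hs : 0 ≤ s) :
    |Phi α s| ≤ (1 + s) ^ (-(1 / 4) : ℝ) := by
  have h1s : (0 : ℝ) < 1 + s := by linarith
  rcases le_total s 1.55 with h | h
  · refine (main_lobe hα hs h).trans ?_
    rw [rpow_def_of_pos h1s]
    apply exp_le_exp.mpr
    have hl : log (1 + s) ≤ s := by
      have := log_le_sub_one_of_pos h1s
      linarith
    have hl0 : 0 ≤ log (1 + s) := log_nonneg (by linarith)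
    linarith
  rcases le_total s 4 with h4 | h4
  · refine (tail_any hα (by linarith)).trans ?_
    rw [rpow_def_of_pos h1s]
    apply exp_le_exp.mpr
    have hl : log (1 + s) ≤ s := by
      have := log_le_sub_one_of_pos h1s
      linarith
    linarith
  · have hs0 : 0 < s := by linarith
    refine (Phi_abs_le_sqrt hα hs0).trans ?_
    have e1 : 1 / √s = (s ^ 2) ^ (-(1 / 4) : ℝ) := by
      rw [sqrt_eq_rpow, ← rpow_natCast s 2, ← rpow_mul hs0.le, one_div, ← rpow_neg hs0.le]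
      norm_num
    rw [e1]
    exact rpow_le_rpow_of_nonpos h1s (by nlinarith) (by norm_num)

theorem factor_decay (hα : 1 < α) {x u s : ℝ} (hx : 0 ≤ x) (hu : 0 < u) (hxu : x ≤ u)
    (hs : 0 ≤ s) : |Phi α (x * s)| ≤ (1 + u * s) ^ (-(x / (4 * u)) : ℝ) := by
  have hxs : 0 ≤ x * s := mul_nonneg hx hs
  have hus : 0 ≤ u * s := mul_nonneg hu.le hs
  refine (Phi_decay hα hxs).trans ?_
  have hb : (1 + u * s) ^ (x / u) ≤ 1 + x / u * (u * s) :=
    rpow_one_add_le_one_add_mul_self (by linarith) (div_nonneg hx hu.le)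
      ((div_le_one hu).mpr hxu)
  have hb' : x / u * (u * s) = x * s := by field_simp
  rw [hb'] at hb
  have e1 : (1 + u * s) ^ (-(x / (4 * u)) : ℝ) = ((1 + u * s) ^ (x / u)) ^ (-(1 / 4) : ℝ) := by
    rw [← rpow_mul (by linarith)]
    congr 1
    field_simp
  rw [e1]
  exact rpow_le_rpow_of_nonpos (rpow_pos_of_pos (by linarith) _) hb (by norm_num)

theorem prod_decay (hα : 1 < α) {n : ℕ} (T : Finset (Fin n)) {x : Fin n → ℝ}
    (hx : ∀ i, 0 ≤ x i) {u s : ℝ} (hu : 0 < u) (hxu : ∀ i, x i ≤ u) (hs : 0 ≤ s) :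
    ∏ i ∈ T, |Phi α (x i * s)| ≤ (1 + u * s) ^ (-((∑ i ∈ T, x i) / (4 * u)) : ℝ) := by
  have h1 : ∏ i ∈ T, |Phi α (x i * s)| ≤ ∏ i ∈ T, (1 + u * s) ^ (-(x i / (4 * u)) : ℝ) :=
    Finset.prod_le_prod (fun i _ => abs_nonneg _) (fun i _ => factor_decay hα (hx i) hu (hxu i) hs)
  refine h1.trans (le_of_eq ?_)
  have hpos : 0 < 1 + u * s := by nlinarith [mul_nonneg hu.le hs]
  rw [← rpow_sum_of_pos hpos]
  congr 1
  rw [Finset.sum_neg_distrib, Finset.sum_div]

theorem one_add_rpow_tail {u r a : ℝ} (hu : 0 < u) (hr : 1 < r) (ha : 0 ≤ a) :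
    IntegrableOn (fun s : ℝ => (1 + u * s) ^ (-r)) (Ioi a) ∧
    ∫ s in Ioi a, (1 + u * s) ^ (-r) = (1 / u) * (1 + u * a) ^ (1 - r) / (r - 1) := by
  have hd : ∀ s ∈ Ici a, HasDerivAt (fun s : ℝ => -((1 / u) * (1 + u * s) ^ (1 - r) / (r - 1)))
      ((1 + u * s) ^ (-r)) s := by
    intro s hs
    have hs0 : 0 ≤ s := ha.trans hs
    have hpos : 0 < 1 + u * s := by nlinarith [mul_nonneg hu.le hs0]
    have h1 : HasDerivAt (fun s : ℝ => 1 + u * s) u s := by
      simpa using ((hasDerivAt_id s).const_mul u).const_add 1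
    have h2 := h1.rpow_const (p := 1 - r) (Or.inl hpos.ne')
    have h3 := ((h2.const_mul (1 / u)).div_const (r - 1)).neg
    refine h3.congr_deriv ?_
    have hr1 : r - 1 ≠ 0 := by linarith
    have e : (1 - r - 1 : ℝ) = -r := by ring
    rw [e]
    field_simp
    ring
  have hnn : ∀ s ∈ Ioi a, (0 : ℝ) ≤ (1 + u * s) ^ (-r) := by
    intro s hs
    have hs0 : 0 ≤ s := ha.trans (le_of_lt hs)
    exact rpow_nonneg (by nlinarith [mul_nonneg hu.le hs0]) _
  have hlim : Tendsto (fun s : ℝ => -((1 / u) * (1 + u * s) ^ (1 - r) / (r - 1))) atTop (𝓝 0) := by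
    have h1 : Tendsto (fun s : ℝ => 1 + u * s) atTop atTop :=
      tendsto_atTop_add_const_left _ _ (tendsto_id.const_mul_atTop hu)
    have h2 : Tendsto (fun s : ℝ => (1 + u * s) ^ (-(r - 1))) atTop (𝓝 0) :=
      (tendsto_rpow_neg_atTop (by linarith : 0 < r - 1)).comp h1
    have h3 := ((h2.const_mul (1 / u)).div_const (r - 1)).neg
    have e : -(r - 1) = 1 - r := by ring
    simpa [e] using h3
  refine ⟨integrableOn_Ioi_deriv_of_nonneg' hd hnn hlim, ?_⟩
  rw [integral_Ioi_of_hasDerivAt_of_nonneg' hd hnn hlim]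
  ring

theorem prod_continuousOn (hα : 1 < α) {n : ℕ} {x : Fin n → ℝ} (hx : ∀ i, 0 ≤ x i) :
    ContinuousOn (fun s => ∏ i, Phi α (x i * s)) (Ici 0) := by
  refine continuousOn_finsetProd _ (fun i _ => ?_)
  refine (Phi_continuousOn hα).comp (continuousOn_const.mul continuousOn_id) ?_
  intro s hs
  exact mul_nonneg (hx i) hs

theorem prod_abs_le (hα : 1 < α) {n : ℕ} {x : Fin n → ℝ}
    (hx : ∀ i, 0 ≤ x i) (h1 : ∑ i, x i = 1) {u s : ℝ} (hu : 0 < u) (hxu : ∀ i, x i ≤ u)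
    (hs : 0 ≤ s) :
    ‖∏ i, Phi α (x i * s)‖ ≤ (1 + u * s) ^ (-(1 / (4 * u)) : ℝ) := by
  have h := prod_decay hα Finset.univ hx hu hxu hs
  rw [h1] at h
  rw [Real.norm_eq_abs, Finset.abs_prod]
  exact h

theorem one_lt_quarter {u : ℝ} (hu : 0 < u) (hu4 : u < 1 / 4) : 1 < 1 / (4 * u) := by
  rw [lt_div_iff₀ (by linarith)]
  linarith

theorem prod_integrable (hα : 1 < α) {n : ℕ} {x : Fin n → ℝ} (hx : ∀ i, 0 ≤ x i)
    (h1 : ∑ i, x i = 1) {u : ℝ} (hu : 0 < u) (hu4 : u < 1 / 4) (hxu : ∀ i, x i ≤ u) :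
    IntegrableOn (fun s => ∏ i, Phi α (x i * s)) (Ioi 0) := by
  refine Integrable.mono' (one_add_rpow_tail hu (one_lt_quarter hu hu4) le_rfl).1 ?_ ?_
  · exact ((prod_continuousOn hα hx).mono Ioi_subset_Ici_self).aestronglyMeasurable
      measurableSet_Ioi
  · refine (ae_restrict_mem measurableSet_Ioi).mono (fun s hs => ?_)
    exact prod_abs_le hα hx h1 hu hxu (le_of_lt hs)

theorem tail_bound (hα : 1 < α) {n : ℕ} {x : Fin n → ℝ} (hx : ∀ i, 0 ≤ x i)
    (h1 : ∑ i, x i = 1) {u s1 : ℝ} (hu : 0 < u) (hu4 : u < 1 / 4) (hxu : ∀ i, x i ≤ u)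
    (hs1 : 0 < s1) :
    |∫ s in Ioi (s1 / u), ∏ i, Phi α (x i * s)| ≤
      (1 / u) * (1 + s1) ^ (1 - 1 / (4 * u)) / (1 / (4 * u) - 1) := by
  have ha : 0 ≤ s1 / u := by positivity
  have ht := one_add_rpow_tail hu (one_lt_quarter hu hu4) ha
  have e1 : u * (s1 / u) = s1 := by field_simp
  rw [e1] at ht
  rw [← ht.2, ← Real.norm_eq_abs]
  refine norm_integral_le_of_norm_le ht.1 ?_
  refine (ae_restrict_mem measurableSet_Ioi).mono (fun s hs => ?_)
  exact prod_abs_le hα hx h1 hu hxu (ha.trans (le_of_lt hs))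

theorem diag_prod (n : ℕ) (s : ℝ) :
    ∏ _i : Fin n, Phi α (1 / (n : ℝ) * s) = Phi α (1 / (n : ℝ) * s) ^ n := by
  rw [Finset.prod_const, Finset.card_univ, Fintype.card_fin]

theorem diag_pointwise (hα : 1 < α) {s : ℝ} (hs : 0 ≤ s) :
    Tendsto (fun n : ℕ => Phi α (1 / (n : ℝ) * s) ^ n) atTop (𝓝 (exp (-s))) := by
  have hlow : Tendsto (fun n : ℕ => (1 + (-s) / (n : ℝ)) ^ n) atTop (𝓝 (exp (-s))) :=
    tendsto_one_add_div_pow_exp (-s)
  refine tendsto_of_tendsto_of_tendsto_of_le_of_le' hlow tendsto_const_nhds ?_ ?_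
  · obtain ⟨N, hN⟩ := exists_nat_ge (s + 1)
    filter_upwards [eventually_ge_atTop N] with n hn
    have hn' : s + 1 ≤ (n : ℝ) := hN.trans (by exact_mod_cast hn)
    have hn0 : (0 : ℝ) < n := by linarith
    have hsn : 0 ≤ 1 / (n : ℝ) * s := by positivity
    have h1 : s / n ≤ 1 := by rw [div_le_one hn0]; linarith
    have h2 := Phi_ge hα hsn
    have e : 1 / (n : ℝ) * s = s / n := by ring
    have e2 : 1 + (-s) / (n : ℝ) = 1 - s / n := by ring
    rw [e2]
    rw [e] at h2 ⊢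
    exact pow_le_pow_left₀ (by linarith) h2 n
  · obtain ⟨N, hN⟩ := exists_nat_ge (s + 1)
    filter_upwards [eventually_ge_atTop N] with n hn
    have hn' : s + 1 ≤ (n : ℝ) := hN.trans (by exact_mod_cast hn)
    have hn0 : (0 : ℝ) < n := by linarith
    have hsn : 0 ≤ 1 / (n : ℝ) * s := by positivity
    have e : 1 / (n : ℝ) * s = s / n := by ring
    have h1 : s / n ≤ 1 := by rw [div_le_one hn0]; linarith
    have h2 := main_lobe hα hsn (by rw [e]; linarith)
    have h3 := Phi_ge hα hsn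
    have h0 : 0 ≤ Phi α (1 / (n : ℝ) * s) := by
      rw [e] at h3 ⊢
      linarith
    have h4 : Phi α (1 / (n : ℝ) * s) ≤ exp (-(1 / (n : ℝ) * s)) := (le_abs_self _).trans h2
    calc Phi α (1 / (n : ℝ) * s) ^ n ≤ exp (-(1 / (n : ℝ) * s)) ^ n :=
          pow_le_pow_left₀ h0 h4 n
      _ = exp (-s) := by
          rw [← exp_nat_mul]
          congr 1
          field_simp

theorem J_diag_tendsto (hα : 1 < α) :
    Tendsto (fun n : ℕ => J α (fun _ : Fin n => 1 / (n : ℝ))) atTop (𝓝 1) := by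
  have hI : ∫ s in Ioi (0 : ℝ), exp (-s) = 1 := integral_exp_neg_Ioi_zero
  suffices h : Tendsto (fun n : ℕ => J α (fun _ : Fin n => 1 / (n : ℝ))) atTop
      (𝓝 (∫ s in Ioi (0 : ℝ), exp (-s))) by rwa [hI] at h
  unfold J
  have hmeas : ∀ᶠ n : ℕ in atTop, AEStronglyMeasurable
      (fun s : ℝ => ∏ _i : Fin n, Phi α (1 / (n : ℝ) * s)) (volume.restrict (Ioi 0)) := by
    refine Eventually.of_forall (fun n => ?_)
    have h := prod_continuousOn (x := fun _ : Fin n => 1 / (n : ℝ)) hα (fun _ => by positivity)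
    exact (h.mono Ioi_subset_Ici_self).aestronglyMeasurable measurableSet_Ioi
  have hg := one_add_rpow_tail (u := 1 / 8) (r := 2) (a := 0) (by norm_num) (by norm_num) le_rfl
  refine tendsto_integral_filter_of_dominated_convergence
    (fun s : ℝ => (1 + 1 / 8 * s) ^ (-2 : ℝ)) hmeas ?_ hg.1 ?_
  · filter_upwards [eventually_ge_atTop 8] with n hn
    refine (ae_restrict_mem measurableSet_Ioi).mono (fun s hs => ?_)
    have hs0 : 0 ≤ s := le_of_lt hs
    have hn8 : (8 : ℝ) ≤ n := by exact_mod_cast hn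
    have hn0 : (0 : ℝ) < n := by linarith
    have hsum : ∑ _i : Fin n, 1 / (n : ℝ) = 1 := by
      rw [Finset.sum_const, Finset.card_univ, Fintype.card_fin, nsmul_eq_mul]
      field_simp
    have h := prod_abs_le (x := fun _ : Fin n => 1 / (n : ℝ)) hα (fun _ => by positivity) hsum
      (u := 1 / (n : ℝ)) (by positivity) (fun _ => le_rfl) hs0
    refine h.trans ?_
    have hy : 0 ≤ 1 / (n : ℝ) * s := by positivity
    have hb : 1 + (n : ℝ) / 8 * (1 / (n : ℝ) * s) ≤ (1 + 1 / (n : ℝ) * s) ^ ((n : ℝ) / 8) :=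
      one_add_mul_self_le_rpow_one_add (by linarith) (by linarith)
    have e1 : (n : ℝ) / 8 * (1 / (n : ℝ) * s) = 1 / 8 * s := by field_simp
    rw [e1] at hb
    have e2 : (1 + 1 / (n : ℝ) * s) ^ (-(1 / (4 * (1 / (n : ℝ)))) : ℝ) =
        ((1 + 1 / (n : ℝ) * s) ^ ((n : ℝ) / 8)) ^ (-2 : ℝ) := by
      rw [← rpow_mul (by linarith)]
      congr 1
      field_simp
      norm_num
    rw [e2]
    exact rpow_le_rpow_of_nonpos (by linarith) hb (by norm_num)
  · refine (ae_restrict_mem measurableSet_Ioi).mono (fun s hs => ?_)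
    have h := diag_pointwise hα (le_of_lt hs : (0 : ℝ) ≤ s)
    simpa only [diag_prod] using h

/-- The middle part of the diagonal integrand is bounded below. -/
theorem diag_lower (hα : 1 < α) : ∃ c > 0, ∃ n0 : ℕ, ∀ n ≥ n0, ∀ s ∈ Icc (1 : ℝ) 2,
    c ≤ Phi α (1 / (n : ℝ) * s) ^ n := by
  have hlow : Tendsto (fun n : ℕ => (1 + (-2) / (n : ℝ)) ^ n) atTop (𝓝 (exp (-2))) :=
    tendsto_one_add_div_pow_exp (-2)
  have hev := hlow.eventually (eventually_ge_nhds
    (show exp (-2) / 2 < exp (-2) by linarith [exp_pos (-2 : ℝ)]))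
  obtain ⟨N, hN⟩ := (hev.and (eventually_ge_atTop 2)).exists_forall_of_atTop
  refine ⟨exp (-2) / 2, by positivity, N, fun n hn s hs => ?_⟩
  obtain ⟨h1, h2⟩ := hN n hn
  refine h1.trans ?_
  have hn2 : (2 : ℝ) ≤ n := by exact_mod_cast h2
  have hn0 : (0 : ℝ) < n := by linarith
  have hs0 : 0 ≤ s := by linarith [hs.1]
  have hsn : 0 ≤ 1 / (n : ℝ) * s := by positivity
  have hle : s / n ≤ 2 / n := div_le_div_of_nonneg_right hs.2 hn0.le
  have h21 : 2 / (n : ℝ) ≤ 1 := by rw [div_le_one hn0]; exact hn2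
  have h3 := Phi_ge hα hsn
  refine pow_le_pow_left₀ ?_ ?_ n
  · have e : 1 + (-2) / (n : ℝ) = 1 - 2 / n := by ring
    rw [e]; linarith
  · have e : 1 + (-2) / (n : ℝ) = 1 - 2 / n := by ring
    have e' : 1 / (n : ℝ) * s = s / n := by ring
    rw [e]
    rw [e'] at h3 ⊢
    linarith

end LpSec

end

section
/-!
# T24 Asym2: the diagonal is the strict maximum among vectors with small coordinates

Let `s1, κ` be as in `Phi_strong`, `u = max x i`, `τ² = ∑ (x i - 1/n)² = ∑ x i² - 1/n`.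
Main part: for `0 ≤ s ≤ s1/u` all `x i s` and `s/n` lie in `[0,s1]`; concavity of
`g = log Phi + κ s²` and Jensen: `∏ Phi (x i s) ≤ Phi (s/n)^n exp (-κ s² τ²)`. So (if `2 ≤ s1/u`)
`∫_0^{s1/u} (Phi (s/n)^n - ∏ Phi (x i s)) ≥ ∫_1^2 c (1 - exp (-κ τ²)) ≥ c1 min(τ²,1)`
(`diag_lower`).
Tails: `|∫_{s1/u}^∞ ∏ Phi (x i s)|` and `|∫_{s1/u}^∞ Phi (s/n)^n|` are `≤ R(u) :=
(1/u)(1+s1)^{1-1/(4u)}/(1/(4u)-1)` (`tail_bound`; for the diagonal vector use `1/n ≤ u`).
Cases, for `u ≤ u0` small and `n` large: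
(1) `u ≥ 2/n`: `τ² ≥ (u-1/n)² ≥ u²/4`, `c1 u²/4 > 2 R(u)` for `u ≤ u0` (`R(u) = o(u²)`).
(2) `u < 2/n`, some `x i < 1/(2n)`: `τ² ≥ 1/(4n²)`, `c1/(4n²) > 2 R(u)`, as `R` is increasing near 0 and
    `R(2/n) = o(n^{-2})`.
(3) all `x i ∈ [1/(2n), 2/n]`, `τ > 0`: with `v i = x i - 1/n`, `∑ v i = 0`, the difference of the
    products is at most `s² (n+1) τ² (1+s/(2n))^{-(n-2)/4}` (`prod_sub_lin_le`, an induction on the
    number of factors, with the Taylor estimates `Phi_sub_le`, `Phi_taylor`, and `Phi_decay`). So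
    `|∫_{s1/u}^∞ (∏ Phi (x i s) - Phi (s/n)^n)| ≤ τ² (n+1)/2 ∫_{s1 n/2}^∞ s² (1+s/(2n))^{-(n-2)/4} ds
     ≤ (c1/2) τ²` for `n` large (exponentially small).
`local_max` collects the cases.
-/

open Real MeasureTheory Set Filter Topology

namespace LpSec

variable {α : ℝ}

/-! ### Abstract estimates for products of numbers close to a common value -/

section Prod

variable {ι : Type*}

theorem prod_abs_le_pow {a : ι → ℝ} {M : ℝ} (T : Finset ι)
    (ha : ∀ i ∈ T, |a i| ≤ M) : |∏ i ∈ T, a i| ≤ M ^ T.card := by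
  rw [Finset.abs_prod]
  calc ∏ i ∈ T, |a i| ≤ ∏ _i ∈ T, M := Finset.prod_le_prod (fun i _ => abs_nonneg _) ha
    _ = M ^ T.card := by rw [Finset.prod_const]

theorem mul_pow_pred_le {M : ℝ} (hM1 : M ≤ 1) (k : ℕ) :
    M * M ^ (k - 1) ≤ M ^ k := by
  rcases k with _ | k
  · simpa using hM1
  · simp [pow_succ, mul_comm]

/-- First order estimate. -/
theorem prod_sub_pow_le {a v : ι → ℝ} {y M β : ℝ} (hM0 : 0 ≤ M) (hM1 : M ≤ 1) (hβ : 0 ≤ β)
    (hy : |y| ≤ M) (T : Finset ι) (ha : ∀ i ∈ T, |a i| ≤ M)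
    (h1 : ∀ i ∈ T, |a i - y| ≤ β * |v i|) :
    |∏ i ∈ T, a i - y ^ T.card| ≤ M ^ (T.card - 1) * (β * ∑ i ∈ T, |v i|) := by
  classical
  induction T using Finset.induction_on with
  | empty => simp
  | insert k T hk ih =>
    have ih' := ih (fun i hi => ha i (Finset.mem_insert_of_mem hi))
      (fun i hi => h1 i (Finset.mem_insert_of_mem hi))
    have hak := ha k (Finset.mem_insert_self _ _)
    have h1k := h1 k (Finset.mem_insert_self _ _)
    rw [Finset.prod_insert hk, Finset.sum_insert hk, Finset.card_insert_of_notMem hk]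
    have e : a k * ∏ i ∈ T, a i - y ^ (T.card + 1) =
        a k * (∏ i ∈ T, a i - y ^ T.card) + (a k - y) * y ^ T.card := by ring
    rw [e]
    have hS : 0 ≤ ∑ i ∈ T, |v i| := Finset.sum_nonneg fun i _ => abs_nonneg _
    have b1 : |a k * (∏ i ∈ T, a i - y ^ T.card)| ≤ M ^ T.card * (β * ∑ i ∈ T, |v i|) := by
      rw [abs_mul]
      calc |a k| * |∏ i ∈ T, a i - y ^ T.card|
          ≤ M * (M ^ (T.card - 1) * (β * ∑ i ∈ T, |v i|)) :=
            mul_le_mul hak ih' (abs_nonneg _) hM0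
        _ = (M * M ^ (T.card - 1)) * (β * ∑ i ∈ T, |v i|) := by ring
        _ ≤ _ := mul_le_mul_of_nonneg_right (mul_pow_pred_le hM1 _) (by positivity)
    have b2 : |(a k - y) * y ^ T.card| ≤ M ^ T.card * (β * |v k|) := by
      rw [abs_mul, abs_pow, mul_comm]
      exact mul_le_mul (pow_le_pow_left₀ (abs_nonneg _) hy _) h1k (abs_nonneg _) (by positivity)
    calc |a k * (∏ i ∈ T, a i - y ^ T.card) + (a k - y) * y ^ T.card|
        ≤ _ := abs_add_le _ _
      _ ≤ M ^ T.card * (β * ∑ i ∈ T, |v i|) + M ^ T.card * (β * |v k|) := add_le_add b1 b2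
      _ = M ^ (T.card + 1 - 1) * (β * (|v k| + ∑ i ∈ T, |v i|)) := by
          rw [Nat.add_sub_cancel]; ring

/-- Second order estimate. -/
theorem prod_sub_lin_le {a v : ι → ℝ} {y b M β : ℝ} (hM0 : 0 ≤ M) (hM1 : M ≤ 1) (hβ : 0 ≤ β)
    (hy : |y| ≤ M) (T : Finset ι) (ha : ∀ i ∈ T, |a i| ≤ M)
    (h1 : ∀ i ∈ T, |a i - y| ≤ β * |v i|)
    (h2 : ∀ i ∈ T, |a i - y - b * v i| ≤ β ^ 2 * v i ^ 2) :
    |∏ i ∈ T, a i - y ^ T.card - b * y ^ (T.card - 1) * ∑ i ∈ T, v i| ≤
      M ^ (T.card - 2) * (β ^ 2 * ((∑ i ∈ T, |v i|) ^ 2 + ∑ i ∈ T, v i ^ 2)) := by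
  classical
  induction T using Finset.induction_on with
  | empty => simp
  | insert k T hk ih =>
    have ha' := fun i hi => ha i (Finset.mem_insert_of_mem hi)
    have h1' := fun i hi => h1 i (Finset.mem_insert_of_mem hi)
    have ih' := ih ha' h1' (fun i hi => h2 i (Finset.mem_insert_of_mem hi))
    have hak := ha k (Finset.mem_insert_self _ _)
    have h1k := h1 k (Finset.mem_insert_self _ _)
    have h2k := h2 k (Finset.mem_insert_self _ _)
    have hA := prod_sub_pow_le hM0 hM1 hβ hy T ha' h1'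
    rw [Finset.prod_insert hk, Finset.sum_insert hk, Finset.sum_insert hk, Finset.sum_insert hk,
      Finset.card_insert_of_notMem hk]
    set S := ∑ i ∈ T, |v i| with hS
    set Q := ∑ i ∈ T, v i ^ 2 with hQ
    set V := ∑ i ∈ T, v i with hV
    set P := ∏ i ∈ T, a i with hP
    have hS0 : 0 ≤ S := Finset.sum_nonneg fun i _ => abs_nonneg _
    have hQ0 : 0 ≤ Q := Finset.sum_nonneg fun i _ => sq_nonneg _
    have hyV : y * (y ^ (T.card - 1) * V) = y ^ T.card * V := by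
      rcases Nat.eq_zero_or_pos T.card with h0 | hpos
      · have : T = ∅ := Finset.card_eq_zero.mp h0
        simp [hV, this]
      · obtain ⟨m, hm⟩ := Nat.exists_eq_succ_of_ne_zero hpos.ne'
        rw [hm]; simp [pow_succ]; ring
    have e : a k * P - y ^ (T.card + 1) - b * y ^ (T.card + 1 - 1) * (v k + V) =
        y * (P - y ^ T.card - b * y ^ (T.card - 1) * V) + (a k - y) * (P - y ^ T.card) +
          (a k - y - b * v k) * y ^ T.card := by
      rw [Nat.add_sub_cancel]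
      have : y * (P - y ^ T.card - b * y ^ (T.card - 1) * V) =
        y * P - y ^ (T.card + 1) - b * (y ^ T.card * V) := by
        rw [← hyV]; ring
      rw [this]; ring
    rw [e]
    have b1 : |y * (P - y ^ T.card - b * y ^ (T.card - 1) * V)| ≤
        M ^ (T.card - 1) * (β ^ 2 * (S ^ 2 + Q)) := by
      rw [abs_mul]
      calc |y| * |P - y ^ T.card - b * y ^ (T.card - 1) * V|
          ≤ M * (M ^ (T.card - 2) * (β ^ 2 * (S ^ 2 + Q))) :=
            mul_le_mul hy ih' (abs_nonneg _) hM0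
        _ = (M * M ^ (T.card - 1 - 1)) * (β ^ 2 * (S ^ 2 + Q)) := by
            rw [Nat.sub_sub]; ring
        _ ≤ _ := mul_le_mul_of_nonneg_right (mul_pow_pred_le hM1 _) (by positivity)
    have b2 : |(a k - y) * (P - y ^ T.card)| ≤ M ^ (T.card - 1) * (β ^ 2 * (|v k| * S)) := by
      rw [abs_mul]
      calc |a k - y| * |P - y ^ T.card| ≤ (β * |v k|) * (M ^ (T.card - 1) * (β * S)) :=
            mul_le_mul h1k hA (abs_nonneg _) (by positivity)
        _ = _ := by ring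
    have b3 : |(a k - y - b * v k) * y ^ T.card| ≤ M ^ (T.card - 1) * (β ^ 2 * v k ^ 2) := by
      rw [abs_mul, abs_pow, mul_comm]
      refine mul_le_mul ?_ h2k (abs_nonneg _) (by positivity)
      calc |y| ^ T.card ≤ M ^ T.card := pow_le_pow_left₀ (abs_nonneg _) hy _
        _ ≤ M ^ (T.card - 1) := pow_le_pow_of_le_one hM0 hM1 (Nat.sub_le _ _)
    have hM' : 0 ≤ M ^ (T.card - 1) := by positivity
    calc _ ≤ |y * (P - y ^ T.card - b * y ^ (T.card - 1) * V)| +
          |(a k - y) * (P - y ^ T.card)| + |(a k - y - b * v k) * y ^ T.card| := abs_add_three _ _ _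
      _ ≤ M ^ (T.card - 1) * (β ^ 2 * (S ^ 2 + Q)) + M ^ (T.card - 1) * (β ^ 2 * (|v k| * S)) +
          M ^ (T.card - 1) * (β ^ 2 * v k ^ 2) := by gcongr
      _ = M ^ (T.card - 1) * (β ^ 2 * (S ^ 2 + |v k| * S + (v k ^ 2 + Q))) := by ring
      _ ≤ M ^ (T.card - 1) * (β ^ 2 * ((|v k| + S) ^ 2 + (v k ^ 2 + Q))) := by
          apply mul_le_mul_of_nonneg_left _ hM'
          apply mul_le_mul_of_nonneg_left _ (by positivity)
          nlinarith [abs_nonneg (v k), mul_nonneg (abs_nonneg (v k)) hS0]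
      _ = _ := by
          congr 1

end Prod

/-! ### Taylor estimates for `Phi` -/

theorem Phi_sub_le (hα : 1 < α) {y z : ℝ} (hy : 0 < y) (hz : 0 < z) :
    |Phi α z - Phi α y| ≤ |z - y| := by
  have h := Convex.norm_image_sub_le_of_norm_hasDerivWithin_le (f := Phi α)
    (f' := fun s => -(Phi1 α s)) (C := 1) (s := Ioi (0 : ℝ))
    (fun x hx => (Phi_hasDerivAt hα hx).hasDerivWithinAt)
    (fun x hx => by
      rw [norm_neg, Real.norm_eq_abs]; exact Phi1_abs_le hα (le_of_lt hx))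
    (convex_Ioi 0) (show y ∈ Ioi (0 : ℝ) from hy) (show z ∈ Ioi (0 : ℝ) from hz)
  simpa [Real.norm_eq_abs] using h

theorem Phi1_sub_le (hα : 1 < α) {y z : ℝ} (hy : 0 < y) (hz : 0 < z) :
    |Phi1 α z - Phi1 α y| ≤ |z - y| := by
  have h := Convex.norm_image_sub_le_of_norm_hasDerivWithin_le (f := Phi1 α)
    (f' := fun s => -(Phi2 α s)) (C := 1) (s := Ioi (0 : ℝ))
    (fun x hx => (Phi1_hasDerivAt hα hx).hasDerivWithinAt)
    (fun x hx => by
      rw [norm_neg, Real.norm_eq_abs]; exact Phi2_abs_le hα (le_of_lt hx))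
    (convex_Ioi 0) (show y ∈ Ioi (0 : ℝ) from hy) (show z ∈ Ioi (0 : ℝ) from hz)
  simpa [Real.norm_eq_abs] using h

theorem Phi_taylor (hα : 1 < α) {y z : ℝ} (hy : 0 < y) (hz : 0 < z) :
    |Phi α z - Phi α y + Phi1 α y * (z - y)| ≤ (z - y) ^ 2 := by
  have hsub : uIcc y z ⊆ Ioi (0 : ℝ) := by
    intro w hw
    rcases hw with ⟨h1, -⟩
    exact lt_of_lt_of_le (lt_min hy hz) h1
  have h := Convex.norm_image_sub_le_of_norm_hasDerivWithin_le
    (f := fun w => Phi α w + Phi1 α y * w)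
    (f' := fun w => -(Phi1 α w) + Phi1 α y) (C := |z - y|) (s := uIcc y z)
    (fun x hx => by
      have h1 := (Phi_hasDerivAt hα (hsub hx)).hasDerivWithinAt (s := uIcc y z)
      have h2 : HasDerivWithinAt (fun w => Phi1 α y * w) (Phi1 α y) (uIcc y z) x := by
        simpa using (hasDerivWithinAt_id x (uIcc y z)).const_mul (Phi1 α y)
      exact h1.add h2)
    (fun x hx => by
      rw [Real.norm_eq_abs, show -(Phi1 α x) + Phi1 α y = -(Phi1 α x - Phi1 α y) by ring, abs_neg]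
      exact (Phi1_sub_le hα hy (hsub hx)).trans (abs_sub_left_of_mem_uIcc hx))
    (convex_uIcc y z) left_mem_uIcc right_mem_uIcc
  have e : (fun w => Phi α w + Phi1 α y * w) z - (fun w => Phi α w + Phi1 α y * w) y =
      Phi α z - Phi α y + Phi1 α y * (z - y) := by
    simp only; ring
  rw [e, Real.norm_eq_abs, Real.norm_eq_abs] at h
  calc _ ≤ |z - y| * |z - y| := h
    _ = (z - y) ^ 2 := by rw [abs_mul_abs_self]; ring


/-! ### Small tails -/

theorem R_small {s1 c : ℝ} (hs1 : 0 < s1) (hc : 0 < c) : ∃ u0 > 0, u0 < 1 / 4 ∧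
    ∀ u, 0 < u → u ≤ u0 → (1 / u) * (1 + s1) ^ (1 - 1 / (4 * u)) / (1 / (4 * u) - 1) < c * u ^ 2 := by
  have hL : 0 < log (1 + s1) := log_pos (by linarith)
  have ht := (tendsto_rpow_mul_exp_neg_mul_atTop_nhds_zero 2 (log (1 + s1)) hL).const_mul
    (128 * (1 + s1))
  rw [mul_zero] at ht
  obtain ⟨W0, hW0⟩ := (ht.eventually_lt_const hc).exists_forall_of_atTop
  set W1 := max W0 2 with hW1
  have hW1p : 0 < W1 := lt_of_lt_of_le (by norm_num) (le_max_right _ _)
  refine ⟨1 / (4 * W1), by positivity, ?_, ?_⟩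
  · rw [div_lt_div_iff₀ (by positivity) (by norm_num)]
    have : 2 ≤ W1 := le_max_right _ _
    linarith
  intro u hu huu
  set w := 1 / (4 * u) with hw
  have hwu : u = 1 / (4 * w) := by rw [hw]; field_simp
  have hwW : W1 ≤ w := by
    rw [hw, le_div_iff₀ (by positivity)]
    rw [le_div_iff₀ (by positivity)] at huu
    linarith
  have hw0 : W0 ≤ w := (le_max_left _ _).trans hwW
  have hw2 : 2 ≤ w := (le_max_right _ _).trans hwW
  have hwp : 0 < w := by linarith
  have h1 := hW0 w hw0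
  have hpow : (1 + s1) ^ (1 - w) = (1 + s1) * exp (-log (1 + s1) * w) := by
    rw [rpow_sub (by linarith), rpow_one, rpow_def_of_pos (by linarith), neg_mul, exp_neg]
    rfl
  have hq : (128 * (1 + s1)) * (w ^ (2 : ℝ) * exp (-log (1 + s1) * w)) =
      128 * w ^ 2 * (1 + s1) ^ (1 - w) := by
    rw [hpow, rpow_two]; ring
  rw [hq] at h1
  have hR : 0 < (1 + s1) ^ (1 - w) := rpow_pos_of_pos (by linarith) _
  have hu1 : (1 / u) = 4 * w := by rw [hwu]; field_simp
  rw [hu1, div_lt_iff₀ (by linarith), hwu]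
  have : c * (1 / (4 * w)) ^ 2 * (w - 1) = c * (w - 1) / (16 * w ^ 2) := by
    field_simp; ring
  rw [this, lt_div_iff₀ (by positivity)]
  have h3 : 4 * w * (1 + s1) ^ (1 - w) * (16 * w ^ 2) ≤ (w - 1) * (128 * w ^ 2 * (1 + s1) ^ (1 - w)) := by
    have : 0 ≤ w ^ 2 * (1 + s1) ^ (1 - w) := by positivity
    nlinarith
  calc _ ≤ (w - 1) * (128 * w ^ 2 * (1 + s1) ^ (1 - w)) := h3
    _ < (w - 1) * c := mul_lt_mul_of_pos_left h1 (by linarith)
    _ = c * (w - 1) := by ring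

theorem n_large {q c : ℝ} (hq0 : 0 < q) (hq1 : q < 1) (hc : 0 < c) : ∃ n1 : ℕ, ∀ n ≥ n1,
    q ^ (n - 18) * (8 * (n : ℝ) ^ 3 * (n + 1)) < c := by
  have ht := (tendsto_pow_const_mul_const_pow_of_abs_lt_one 4
    (by rw [abs_of_pos hq0]; exact hq1)).const_mul (16 * q⁻¹ ^ 18)
  rw [mul_zero] at ht
  obtain ⟨n1, hn1⟩ := (ht.eventually_lt_const hc).exists_forall_of_atTop
  refine ⟨max n1 18, fun n hn => ?_⟩
  have hn18 : 18 ≤ n := (le_max_right _ _).trans hn
  have h1 := hn1 n ((le_max_left _ _).trans hn)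
  have hn1' : (1 : ℝ) ≤ n := by exact_mod_cast (by omega : 1 ≤ n)
  have hqn : q ^ (n - 18) = q⁻¹ ^ 18 * q ^ n := by
    obtain ⟨m, rfl⟩ := Nat.exists_eq_add_of_le hn18
    rw [Nat.add_sub_cancel_left, pow_add]
    field_simp
  rw [hqn]
  have : 8 * (n : ℝ) ^ 3 * (n + 1) ≤ 16 * (n : ℝ) ^ 4 := by
    have : (n : ℝ) ^ 3 * 1 ≤ (n : ℝ) ^ 3 * n := by gcongr
    nlinarith
  calc q⁻¹ ^ 18 * q ^ n * (8 * (n : ℝ) ^ 3 * (n + 1)) ≤ q⁻¹ ^ 18 * q ^ n * (16 * (n : ℝ) ^ 4) := by
        gcongr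
    _ = 16 * q⁻¹ ^ 18 * ((n : ℝ) ^ 4 * q ^ n) := by ring
    _ < c := h1

/-- `∫ (1 + s/(2N))^{-2}` over a half line. -/
theorem inv_sq_tail {N A : ℝ} (hN : 0 < N) (hA : 0 ≤ A) :
    IntegrableOn (fun s : ℝ => ((1 + s / (2 * N)) ^ 2)⁻¹) (Ioi A) ∧
      ∫ s in Ioi A, ((1 + s / (2 * N)) ^ 2)⁻¹ ≤ 2 * N := by
  have hd : ∀ s ∈ Ici A, HasDerivAt (fun s : ℝ => -(2 * N) * (1 + s / (2 * N))⁻¹)
      (((1 + s / (2 * N)) ^ 2)⁻¹) s := by
    intro s hs
    have hs0 : 0 ≤ s := le_trans hA hs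
    have hpos : 0 < 1 + s / (2 * N) := by positivity
    have h1 : HasDerivAt (fun s : ℝ => 1 + s / (2 * N)) (1 / (2 * N)) s :=
      ((hasDerivAt_id s).div_const _).const_add 1
    have h2 := (h1.inv hpos.ne').const_mul (-(2 * N))
    have e : ((1 + s / (2 * N)) ^ 2)⁻¹ =
        -(2 * N) * (-(1 / (2 * N)) / (1 + s / (2 * N)) ^ 2) := by
      field_simp
    rw [e]
    exact h2
  have hpos : ∀ s ∈ Ioi A, 0 ≤ ((1 + s / (2 * N)) ^ 2)⁻¹ := fun s _ => by positivity
  have hlim : Tendsto (fun s : ℝ => -(2 * N) * (1 + s / (2 * N))⁻¹) atTop (𝓝 0) := by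
    have h1 : Tendsto (fun s : ℝ => 1 + s / (2 * N)) atTop atTop :=
      tendsto_atTop_add_const_left _ _ (tendsto_id.atTop_div_const (by positivity))
    simpa using h1.inv_tendsto_atTop.const_mul (-(2 * N))
  refine ⟨integrableOn_Ioi_deriv_of_nonneg' hd hpos hlim, ?_⟩
  rw [integral_Ioi_of_hasDerivAt_of_nonneg' hd hpos hlim]
  have : (1 + A / (2 * N))⁻¹ ≤ 1 := inv_le_one_of_one_le₀ (by
    have : 0 ≤ A / (2 * N) := by positivity
    linarith)
  nlinarith


/-! ### The main part -/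

theorem tau_eq {n : ℕ} (hn : 0 < n) {x : Fin n → ℝ} (h1 : ∑ i, x i = 1) :
    ∑ i, (x i - 1 / (n : ℝ)) ^ 2 = ∑ i, x i ^ 2 - 1 / n := by
  have hn' : (n : ℝ) ≠ 0 := by exact_mod_cast hn.ne'
  have : ∀ i, (x i - 1 / (n : ℝ)) ^ 2 = x i ^ 2 - 2 / n * x i + 1 / (n : ℝ) ^ 2 := by
    intro i; ring
  simp only [this]
  rw [Finset.sum_add_distrib, Finset.sum_sub_distrib, ← Finset.mul_sum, h1]
  simp
  field_simp
  ring

theorem main_ineq {s1 κ : ℝ} (hpos : ∀ s ∈ Icc 0 s1, 0 < Phi α s)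
    (hconc : ConcaveOn ℝ (Icc 0 s1) (fun s => log (Phi α s) + κ * s ^ 2))
    {n : ℕ} (hn : 0 < n) {x : Fin n → ℝ} (hx : ∀ i, 0 ≤ x i) (h1 : ∑ i, x i = 1) {u : ℝ}
    (hu : 0 < u) (hxu : ∀ i, x i ≤ u) (hnu : 1 / (n : ℝ) ≤ u) {s : ℝ} (hs0 : 0 ≤ s)
    (hs : s ≤ s1 / u) :
    ∏ i, Phi α (x i * s) ≤
      Phi α (1 / (n : ℝ) * s) ^ n * exp (-(κ * s ^ 2 * ∑ i, (x i - 1 / (n : ℝ)) ^ 2)) := by
  have hn' : (0 : ℝ) < n := by exact_mod_cast hn
  have hsu : u * s ≤ s1 := by
    rw [le_div_iff₀ hu] at hs; linarith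
  have hmem : ∀ i, x i * s ∈ Icc 0 s1 := fun i =>
    ⟨mul_nonneg (hx i) hs0, (mul_le_mul_of_nonneg_right (hxu i) hs0).trans hsu⟩
  have hmemd : 1 / (n : ℝ) * s ∈ Icc 0 s1 :=
    ⟨by positivity, (mul_le_mul_of_nonneg_right hnu hs0).trans hsu⟩
  have hJ := hconc.le_map_sum (t := Finset.univ) (w := fun _ : Fin n => 1 / (n : ℝ))
    (p := fun i => x i * s) (fun i _ => by positivity)
    (by simp; field_simp) (fun i _ => hmem i)
  have hc : ∑ i : Fin n, (1 / (n : ℝ)) • (x i * s) = 1 / (n : ℝ) * s := by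
    simp only [smul_eq_mul]
    rw [← Finset.mul_sum, ← Finset.sum_mul, h1, one_mul]
  rw [hc] at hJ
  simp only [smul_eq_mul] at hJ
  rw [← Finset.mul_sum, Finset.sum_add_distrib] at hJ
  have hlog : ∑ i, log (Phi α (x i * s)) = log (∏ i, Phi α (x i * s)) :=
    (Real.log_prod (fun i _ => (hpos _ (hmem i)).ne')).symm
  have hprod : 0 < ∏ i, Phi α (x i * s) := Finset.prod_pos fun i _ => hpos _ (hmem i)
  have hd : 0 < Phi α (1 / (n : ℝ) * s) := hpos _ hmemd
  have hsq : ∑ i, κ * (x i * s) ^ 2 = κ * s ^ 2 * ∑ i, x i ^ 2 := by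
    rw [Finset.mul_sum]
    exact Finset.sum_congr rfl fun i _ => by ring
  rw [hlog, hsq] at hJ
  have h2 : log (∏ i, Phi α (x i * s)) ≤
      n * log (Phi α (1 / (n : ℝ) * s)) - κ * s ^ 2 * ∑ i, (x i - 1 / (n : ℝ)) ^ 2 := by
    rw [tau_eq hn h1]
    have h3 := mul_le_mul_of_nonneg_left hJ hn'.le
    have e1 : (n : ℝ) * (1 / n * (log (∏ i, Phi α (x i * s)) + κ * s ^ 2 * ∑ i, x i ^ 2)) =
      log (∏ i, Phi α (x i * s)) + κ * s ^ 2 * ∑ i, x i ^ 2 := by
      rw [← mul_assoc, mul_one_div_cancel hn'.ne', one_mul]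
    have e2 : (n : ℝ) * (log (Phi α (1 / (n : ℝ) * s)) + κ * (1 / (n : ℝ) * s) ^ 2) =
      n * log (Phi α (1 / (n : ℝ) * s)) + κ * s ^ 2 * (1 / n) := by
      field_simp
    rw [e1, e2] at h3
    linarith
  calc ∏ i, Phi α (x i * s) = exp (log (∏ i, Phi α (x i * s))) := (exp_log hprod).symm
    _ ≤ exp (n * log (Phi α (1 / (n : ℝ) * s)) -
          κ * s ^ 2 * ∑ i, (x i - 1 / (n : ℝ)) ^ 2) := exp_le_exp.mpr h2
    _ = _ := by
      rw [sub_eq_add_neg, exp_add, exp_nat_mul, exp_log hd]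

theorem tau_le_one {n : ℕ} (hn : 0 < n) {x : Fin n → ℝ} (hx : ∀ i, 0 ≤ x i)
    (h1 : ∑ i, x i = 1) : ∑ i, (x i - 1 / (n : ℝ)) ^ 2 ≤ 1 := by
  rw [tau_eq hn h1]
  have h2 : ∑ i, x i ^ 2 ≤ ∑ i, x i := by
    refine Finset.sum_le_sum fun i _ => ?_
    have : x i ≤ 1 := by
      rw [← h1]; exact Finset.single_le_sum (fun i _ => hx i) (Finset.mem_univ i)
    nlinarith [hx i]
  have : (0 : ℝ) ≤ 1 / n := by positivity
  linarith

theorem one_sub_exp_ge {κ t : ℝ} (hκ : 0 < κ) (ht0 : 0 ≤ t) (ht1 : t ≤ 1) :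
    κ / (1 + κ) * t ≤ 1 - exp (-(κ * t)) := by
  have h0 : 0 ≤ κ * t := by positivity
  have h1 : exp (-(κ * t)) ≤ 1 / (1 + κ * t) := by
    rw [exp_neg, ← one_div]
    apply one_div_le_one_div_of_le (by linarith)
    linarith [add_one_le_exp (κ * t)]
  have h2 : κ / (1 + κ) * t ≤ 1 - 1 / (1 + κ * t) := by
    have e : 1 - 1 / (1 + κ * t) = κ * t / (1 + κ * t) := by
      field_simp; ring
    rw [e, div_mul_eq_mul_div]
    apply div_le_div_of_nonneg_left h0 (by linarith)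
    nlinarith
  linarith

/-- The main part of the difference. -/
theorem main_part (hα : 1 < α) {s1 κ c : ℝ} (hκ : 0 < κ) (hc : 0 < c)
    (hpos : ∀ s ∈ Icc 0 s1, 0 < Phi α s)
    (hconc : ConcaveOn ℝ (Icc 0 s1) (fun s => log (Phi α s) + κ * s ^ 2))
    {n : ℕ} (hn : 0 < n) (hcn : ∀ s ∈ Icc (1 : ℝ) 2, c ≤ Phi α (1 / (n : ℝ) * s) ^ n)
    {x : Fin n → ℝ} (hx : ∀ i, 0 ≤ x i) (h1 : ∑ i, x i = 1) {u : ℝ}
    (hu : 0 < u) (hu4 : u < 1 / 4) (hxu : ∀ i, x i ≤ u) (hnu : 1 / (n : ℝ) ≤ u)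
    (hsu : 2 ≤ s1 / u) :
    c * (κ / (1 + κ)) * ∑ i, (x i - 1 / (n : ℝ)) ^ 2 ≤
      ∫ s in Ioc 0 (s1 / u), (∏ _i : Fin n, Phi α (1 / (n : ℝ) * s) - ∏ i, Phi α (x i * s)) := by
  have hn' : (0 : ℝ) < n := by exact_mod_cast hn
  set τ := ∑ i, (x i - 1 / (n : ℝ)) ^ 2 with hτ
  have hτ0 : 0 ≤ τ := Finset.sum_nonneg fun i _ => sq_nonneg _
  have hτ1 : τ ≤ 1 := tau_le_one hn hx h1
  set g : ℝ → ℝ := fun s => ∏ _i : Fin n, Phi α (1 / (n : ℝ) * s) - ∏ i, Phi α (x i * s) with hg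
  have hdsum : ∑ _i : Fin n, 1 / (n : ℝ) = 1 := by simp; field_simp
  have hint : IntegrableOn g (Ioi 0) := by
    apply Integrable.sub
    · exact prod_integrable hα (x := fun _ : Fin n => 1 / (n : ℝ)) (fun i => by positivity) hdsum hu
        hu4 (fun _ => hnu)
    · exact prod_integrable hα hx h1 hu hu4 hxu
  have hlow : ∀ s ∈ Ioc 0 (s1 / u), Phi α (1 / (n : ℝ) * s) ^ n * (1 - exp (-(κ * s ^ 2 * τ))) ≤ g s := by
    intro s hs
    have h := main_ineq hpos hconc hn hx h1 hu hxu hnu hs.1.le hs.2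
    simp only [hg, Finset.prod_const, Finset.card_univ, Fintype.card_fin]
    linarith
  have hdpos : ∀ s ∈ Ioc 0 (s1 / u), 0 ≤ Phi α (1 / (n : ℝ) * s) ^ n := by
    intro s hs
    have hsu' : u * s ≤ s1 := by
      have := hs.2
      rw [le_div_iff₀ hu] at this; linarith
    exact pow_nonneg (hpos _ ⟨by have := hs.1; positivity,
      (mul_le_mul_of_nonneg_right hnu hs.1.le).trans hsu'⟩).le _
  have hnn : ∀ s ∈ Ioc 0 (s1 / u), 0 ≤ g s := by
    intro s hs
    refine le_trans (mul_nonneg (hdpos s hs) ?_) (hlow s hs)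
    have : exp (-(κ * s ^ 2 * τ)) ≤ 1 := exp_le_one_iff.mpr (by
      have : 0 ≤ κ * s ^ 2 * τ := by positivity
      linarith)
    linarith
  have hsub : Ioc (1 : ℝ) 2 ⊆ Ioc 0 (s1 / u) := fun s hs => ⟨by linarith [hs.1], hs.2.trans hsu⟩
  have hintA : IntegrableOn g (Ioc 0 (s1 / u)) := hint.mono_set (fun s hs => hs.1)
  have hstep : ∫ s in Ioc (1 : ℝ) 2, g s ≤ ∫ s in Ioc 0 (s1 / u), g s := by
    apply setIntegral_mono_set hintA
    · exact (ae_restrict_mem measurableSet_Ioc).mono fun s hs => hnn s hs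
    · exact hsub.eventuallyLE
  refine le_trans ?_ hstep
  have hconst : ∫ _s in Ioc (1 : ℝ) 2, c * (κ / (1 + κ)) * τ = c * (κ / (1 + κ)) * τ := by
    rw [setIntegral_const]
    simp
    norm_num
  rw [← hconst]
  apply setIntegral_mono_on _ (hintA.mono_set hsub) measurableSet_Ioc
  · intro s hs
    refine le_trans ?_ (hlow s (hsub hs))
    have hs1 : 1 ≤ s := hs.1.le
    have hA := hcn s ⟨hs.1.le, hs.2⟩
    have hB : κ / (1 + κ) * τ ≤ 1 - exp (-(κ * s ^ 2 * τ)) := by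
      refine (one_sub_exp_ge hκ hτ0 hτ1).trans ?_
      have : exp (-(κ * s ^ 2 * τ)) ≤ exp (-(κ * τ)) := by
        apply exp_le_exp.mpr
        have : κ * τ * 1 ≤ κ * τ * s ^ 2 := by gcongr; nlinarith
        nlinarith
      linarith
    calc c * (κ / (1 + κ)) * τ = c * (κ / (1 + κ) * τ) := by ring
      _ ≤ _ := mul_le_mul hA hB (by positivity) (hc.le.trans hA)
  · exact integrableOn_const (by simp)


/-! ### The tail, when all coordinates are comparable to `1/n` -/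

/-- pointwise bound of the difference of the two products. -/
theorem tail_pointwise (hα : 1 < α) {n : ℕ} (hn : 18 ≤ n) {x : Fin n → ℝ}
    (hx : ∀ i, 1 / (2 * (n : ℝ)) ≤ x i) (h1 : ∑ i, x i = 1) {s1 s : ℝ} (hs1 : 0 < s1)
    (hs : s1 * n / 2 ≤ s) :
    |∏ _i : Fin n, Phi α (1 / (n : ℝ) * s) - ∏ i, Phi α (x i * s)| ≤
      ((1 + s1 / 4) ^ (-(1 / 4) : ℝ)) ^ (n - 18) *
        (4 * (n : ℝ) ^ 2 * (n + 1) * ∑ i, (x i - 1 / (n : ℝ)) ^ 2) *
          ((1 + s / (2 * n)) ^ 2)⁻¹ := by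
  have hn' : (0 : ℝ) < n := by exact_mod_cast (by omega : 0 < n)
  have hs0 : 0 < s := lt_of_lt_of_le (by positivity) hs
  set w := s / (2 * (n : ℝ)) with hw
  have hw0 : 0 < w := by positivity
  set M := (1 + w) ^ (-(1 / 4) : ℝ) with hM
  have hM0 : 0 < M := rpow_pos_of_pos (by linarith) _
  have hM1 : M ≤ 1 := rpow_le_one_of_one_le_of_nonpos (by linarith) (by norm_num)
  have hx0 : ∀ i, 0 < x i := fun i => lt_of_lt_of_le (by positivity) (hx i)
  have hxs : ∀ i, w ≤ x i * s := by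
    intro i
    have := mul_le_mul_of_nonneg_right (hx i) hs0.le
    calc w = 1 / (2 * (n : ℝ)) * s := by rw [hw]; ring
      _ ≤ _ := this
  have hds : w ≤ 1 / (n : ℝ) * s := by
    rw [hw, div_mul_eq_mul_div, one_mul]
    apply div_le_div_of_nonneg_left hs0.le hn' (by linarith)
  have hdec : ∀ y, w ≤ y → |Phi α y| ≤ M := by
    intro y hy
    refine (Phi_decay hα (hw0.le.trans hy)).trans ?_
    exact rpow_le_rpow_of_nonpos (by linarith) (by linarith) (by norm_num)
  have hβ : (0 : ℝ) ≤ s := hs0.le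
  have hdpos : 0 < 1 / (n : ℝ) * s := by positivity
  have hA := prod_sub_lin_le (ι := Fin n) (a := fun i => Phi α (x i * s))
    (v := fun i => x i - 1 / (n : ℝ)) (y := Phi α (1 / (n : ℝ) * s))
    (b := -(s * Phi1 α (1 / (n : ℝ) * s))) (M := M) (β := s) hM0.le hM1 hβ
    (hdec _ hds) Finset.univ (fun i _ => hdec _ (hxs i))
    (fun i _ => by
      have h := Phi_sub_le hα hdpos (mul_pos (hx0 i) hs0)
      have e : x i * s - 1 / (n : ℝ) * s = s * (x i - 1 / n) := by ring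
      rw [e, abs_mul, abs_of_pos hs0] at h
      exact h)
    (fun i _ => by
      have h := Phi_taylor hα hdpos (mul_pos (hx0 i) hs0)
      have e : x i * s - 1 / (n : ℝ) * s = s * (x i - 1 / n) := by ring
      rw [e] at h
      have e2 : Phi α (x i * s) - Phi α (1 / (n : ℝ) * s) -
          -(s * Phi1 α (1 / (n : ℝ) * s)) * (x i - 1 / n) =
          Phi α (x i * s) - Phi α (1 / (n : ℝ) * s) +
          Phi1 α (1 / (n : ℝ) * s) * (s * (x i - 1 / n)) := by ring
      rw [e2, ← mul_pow]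
      exact h)
  have hsum0 : ∑ i, (x i - 1 / (n : ℝ)) = 0 := by
    rw [Finset.sum_sub_distrib, h1]; simp; field_simp; ring
  simp only [Finset.card_univ, Fintype.card_fin, hsum0, mul_zero, sub_zero] at hA
  set τ := ∑ i, (x i - 1 / (n : ℝ)) ^ 2 with hτ
  have hτ0 : 0 ≤ τ := Finset.sum_nonneg fun i _ => sq_nonneg _
  have hCS : (∑ i, |x i - 1 / (n : ℝ)|) ^ 2 ≤ n * τ := by
    have := sq_sum_le_card_mul_sum_sq (s := (Finset.univ : Finset (Fin n)))
      (f := fun i => |x i - 1 / (n : ℝ)|)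
    simp only [sq_abs, Finset.card_univ, Fintype.card_fin] at this
    exact this
  have hprodc : ∏ _i : Fin n, Phi α (1 / (n : ℝ) * s) = Phi α (1 / (n : ℝ) * s) ^ n := by
    simp
  rw [hprodc, abs_sub_comm]
  refine hA.trans ?_
  -- bound of the powers
  set q := (1 + s1 / 4) ^ (-(1 / 4) : ℝ) with hq
  have hMq : M ≤ q := by
    apply rpow_le_rpow_of_nonpos (by linarith) _ (by norm_num)
    have : s1 / 4 ≤ w := by
      rw [hw, le_div_iff₀ (by positivity)]
      linarith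
    linarith
  have hM16 : M ^ 16 = ((1 + w) ^ 4)⁻¹ := by
    rw [hM, ← rpow_natCast, ← rpow_mul (by linarith)]
    norm_num
  have hMn : M ^ (n - 2) ≤ q ^ (n - 18) * ((1 + w) ^ 4)⁻¹ := by
    have : n - 2 = (n - 18) + 16 := by omega
    rw [this, pow_add, hM16]
    apply mul_le_mul_of_nonneg_right _ (by positivity)
    exact pow_le_pow_left₀ hM0.le hMq _
  have hs2 : s ^ 2 * ((1 + w) ^ 4)⁻¹ ≤ 4 * (n : ℝ) ^ 2 * ((1 + w) ^ 2)⁻¹ := by
    have hsw : s = 2 * n * w := by rw [hw]; field_simp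
    have h2 : s ^ 2 ≤ 4 * (n : ℝ) ^ 2 * (1 + w) ^ 2 := by
      rw [hsw]
      have : w ^ 2 ≤ (1 + w) ^ 2 := by nlinarith
      calc (2 * (n : ℝ) * w) ^ 2 = 4 * (n : ℝ) ^ 2 * w ^ 2 := by ring
        _ ≤ _ := by gcongr
    calc s ^ 2 * ((1 + w) ^ 4)⁻¹ ≤ 4 * (n : ℝ) ^ 2 * (1 + w) ^ 2 * ((1 + w) ^ 4)⁻¹ := by gcongr
      _ = _ := by field_simp
  have hq0 : 0 ≤ q ^ (n - 18) := by positivity
  calc M ^ (n - 2) * (s ^ 2 * ((∑ i, |x i - 1 / (n : ℝ)|) ^ 2 + τ))
      ≤ (q ^ (n - 18) * ((1 + w) ^ 4)⁻¹) * (s ^ 2 * (n * τ + τ)) := by gcongr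
    _ = q ^ (n - 18) * ((n + 1) * τ) * (s ^ 2 * ((1 + w) ^ 4)⁻¹) := by ring
    _ ≤ q ^ (n - 18) * ((n + 1) * τ) * (4 * (n : ℝ) ^ 2 * ((1 + w) ^ 2)⁻¹) := by gcongr
    _ = _ := by ring

theorem tail_part (hα : 1 < α) {n : ℕ} (hn : 18 ≤ n) {x : Fin n → ℝ}
    (hx : ∀ i, 1 / (2 * (n : ℝ)) ≤ x i) (h1 : ∑ i, x i = 1) {s1 A : ℝ} (hs1 : 0 < s1)
    (hA : s1 * n / 2 ≤ A) :
    |∫ s in Ioi A, (∏ _i : Fin n, Phi α (1 / (n : ℝ) * s) - ∏ i, Phi α (x i * s))| ≤
      ((1 + s1 / 4) ^ (-(1 / 4) : ℝ)) ^ (n - 18) *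
        (8 * (n : ℝ) ^ 3 * (n + 1)) * ∑ i, (x i - 1 / (n : ℝ)) ^ 2 := by
  have hn' : (0 : ℝ) < n := by exact_mod_cast (by omega : 0 < n)
  have hA0 : 0 ≤ A := le_trans (by positivity) hA
  obtain ⟨hI, hI2⟩ := inv_sq_tail (N := (n : ℝ)) hn' hA0
  set τ := ∑ i, (x i - 1 / (n : ℝ)) ^ 2 with hτ
  have hτ0 : 0 ≤ τ := Finset.sum_nonneg fun i _ => sq_nonneg _
  set q := (1 + s1 / 4) ^ (-(1 / 4) : ℝ) with hq
  have hq0 : 0 < q := rpow_pos_of_pos (by linarith) _
  have h := norm_integral_le_of_norm_le (μ := volume.restrict (Ioi A))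
    (f := fun s => (∏ _i : Fin n, Phi α (1 / (n : ℝ) * s) - ∏ i, Phi α (x i * s)))
    (g := fun s => q ^ (n - 18) * (4 * (n : ℝ) ^ 2 * (n + 1) * τ) * ((1 + s / (2 * n)) ^ 2)⁻¹)
    (hI.const_mul _)
    ((ae_restrict_mem measurableSet_Ioi).mono fun s hs => by
      rw [Real.norm_eq_abs]
      exact tail_pointwise hα hn hx h1 hs1 (hA.trans (le_of_lt hs)))
  rw [Real.norm_eq_abs, integral_const_mul] at h
  refine h.trans ?_
  calc q ^ (n - 18) * (4 * (n : ℝ) ^ 2 * (n + 1) * τ) * ∫ s in Ioi A, ((1 + s / (2 * (n : ℝ))) ^ 2)⁻¹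
      ≤ q ^ (n - 18) * (4 * (n : ℝ) ^ 2 * (n + 1) * τ) * (2 * n) := by gcongr
    _ = _ := by ring

/-! ### Conclusion -/

theorem local_max (hα : 1 < α) : ∃ u0 > 0, u0 < 1 / 4 ∧ ∃ n0 : ℕ, ∀ n ≥ n0, ∀ x : Fin n → ℝ,
    (∀ i, 0 ≤ x i) → ∑ i, x i = 1 → (∀ i, x i ≤ u0) → (x ≠ fun _ => 1 / (n : ℝ)) →
      J α x < J α (fun _ : Fin n => 1 / (n : ℝ)) := by
  obtain ⟨s1, hs1, κ, hκ, hs11, hpos, hconc⟩ := Phi_strong hα
  obtain ⟨c, hc, n0', hcn⟩ := diag_lower hα
  set c1 := c * (κ / (1 + κ)) with hc1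
  have hc1p : 0 < c1 := by positivity
  obtain ⟨u0, hu0, hu04, hR⟩ := R_small hs1 (c := c1 / 32) (by positivity)
  set q := (1 + s1 / 4) ^ (-(1 / 4) : ℝ) with hq
  have hq0 : 0 < q := rpow_pos_of_pos (by linarith) _
  have hq1 : q < 1 := rpow_lt_one_of_one_lt_of_neg (by linarith) (by norm_num)
  obtain ⟨n1, hn1⟩ := n_large hq0 hq1 hc1p
  refine ⟨min u0 (s1 / 2), lt_min hu0 (by positivity), (min_le_left _ _).trans_lt hu04,
    max (max n0' n1) 18, ?_⟩
  intro n hn x hx h1 hxu0 hne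
  have hn18 : 18 ≤ n := (le_max_right _ _).trans hn
  have hnn0 : n0' ≤ n := ((le_max_left _ _).trans (le_max_left _ _)).trans hn
  have hnn1 : n1 ≤ n := ((le_max_right _ _).trans (le_max_left _ _)).trans hn
  have hnpos : 0 < n := by omega
  have hn' : (0 : ℝ) < n := by exact_mod_cast hnpos
  -- the maximum coordinate
  have : Nonempty (Fin n) := ⟨⟨0, hnpos⟩⟩
  obtain ⟨i0, -, hi0⟩ := Finset.exists_max_image (Finset.univ : Finset (Fin n)) x
    Finset.univ_nonempty
  set u := x i0 with hu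
  have hxu : ∀ i, x i ≤ u := fun i => hi0 i (Finset.mem_univ i)
  have hnu : 1 / (n : ℝ) ≤ u := by
    rw [div_le_iff₀ hn', ← h1]
    calc ∑ i, x i ≤ ∑ _i : Fin n, u := Finset.sum_le_sum fun i _ => hxu i
      _ = u * n := by simp; ring
  have hup : 0 < u := lt_of_lt_of_le (by positivity) hnu
  have huu0 : u ≤ u0 := (hxu0 i0).trans (min_le_left _ _)
  have hus1 : u ≤ s1 / 2 := (hxu0 i0).trans (min_le_right _ _)
  have hu4 : u < 1 / 4 := lt_of_le_of_lt huu0 hu04
  have hsu : 2 ≤ s1 / u := by rw [le_div_iff₀ hup]; linarith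
  set τ := ∑ i, (x i - 1 / (n : ℝ)) ^ 2 with hτ
  have hτ0 : 0 < τ := by
    obtain ⟨j, hj⟩ := Function.ne_iff.mp hne
    refine lt_of_lt_of_le ?_ (Finset.single_le_sum (f := fun i => (x i - 1 / (n : ℝ)) ^ 2)
      (fun i _ => sq_nonneg _) (Finset.mem_univ j))
    have : x j - 1 / (n : ℝ) ≠ 0 := sub_ne_zero.mpr hj
    positivity
  have hdsum : ∑ _i : Fin n, 1 / (n : ℝ) = 1 := by simp; field_simp
  have hI1 := prod_integrable hα (x := fun _ : Fin n => 1 / (n : ℝ)) (fun i => by positivity) hdsum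
    hup hu4 (fun _ => hnu)
  have hI2 := prod_integrable hα hx h1 hup hu4 hxu
  set A := s1 / u with hA
  have hA0 : 0 ≤ A := by positivity
  have hsubA : Ioi A ⊆ Ioi (0 : ℝ) := fun s hs => lt_of_le_of_lt hA0 hs
  have hdiff : J α (fun _ : Fin n => 1 / (n : ℝ)) - J α x =
      (∫ s in Ioc 0 A, (∏ _i : Fin n, Phi α (1 / (n : ℝ) * s) - ∏ i, Phi α (x i * s))) +
      ∫ s in Ioi A, (∏ _i : Fin n, Phi α (1 / (n : ℝ) * s) - ∏ i, Phi α (x i * s)) := by
    have hI3 : IntegrableOn (fun s => ∏ _i : Fin n, Phi α (1 / (n : ℝ) * s) -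
        ∏ i, Phi α (x i * s)) (Ioi 0) := hI1.sub hI2
    rw [← setIntegral_union (Ioc_disjoint_Ioi le_rfl) measurableSet_Ioi
      (hI3.mono_set (fun s hs => hs.1)) (hI3.mono_set hsubA),
      Ioc_union_Ioi_eq_Ioi hA0, integral_sub hI1 hI2]
    rfl
  have hmain := main_part hα hκ hc hpos hconc hnpos (hcn n hnn0) hx h1 hup hu4 hxu hnu hsu
  rw [← hc1, ← hτ, ← hA] at hmain
  suffices h : |∫ s in Ioi A, (∏ _i : Fin n, Phi α (1 / (n : ℝ) * s) - ∏ i, Phi α (x i * s))| <
      c1 * τ by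
    have := (abs_lt.mp h).1
    linarith
  by_cases hcase : u < 2 / n ∧ ∀ i, 1 / (2 * (n : ℝ)) ≤ x i
  · obtain ⟨hu2, hx2⟩ := hcase
    have hAn : s1 * n / 2 ≤ A := by
      rw [hA, le_div_iff₀ hup]
      rw [lt_div_iff₀ hn'] at hu2
      nlinarith
    refine (tail_part hα hn18 hx2 h1 hs1 hAn).trans_lt ?_
    exact mul_lt_mul_of_pos_right (hn1 n hnn1) hτ0
  · -- tails are tiny compared with `u ^ 2`
    have hT1 := tail_bound hα (x := fun _ : Fin n => 1 / (n : ℝ)) (fun i => by positivity) hdsum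
      hup hu4 (fun _ => hnu) hs1
    have hT2 := tail_bound hα hx h1 hup hu4 hxu hs1
    have hRu := hR u hup huu0
    have htau : u ^ 2 / 16 ≤ τ := by
      by_cases h2 : 2 / (n : ℝ) ≤ u
      · have h3 : u / 2 ≤ x i0 - 1 / n := by
          have : 2 / (n : ℝ) = 2 * (1 / n) := by ring
          rw [← hu]; linarith
        have h4 : (x i0 - 1 / (n : ℝ)) ^ 2 ≤ τ :=
          Finset.single_le_sum (f := fun i => (x i - 1 / (n : ℝ)) ^ 2)
            (fun i _ => sq_nonneg _) (Finset.mem_univ i0)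
        have h5 : (u / 2) ^ 2 ≤ (x i0 - 1 / (n : ℝ)) ^ 2 := pow_le_pow_left₀ (by positivity) h3 2
        nlinarith
      · push Not at h2
        have : ∃ i, x i < 1 / (2 * (n : ℝ)) := by
          by_contra hcon
          push Not at hcon
          exact hcase ⟨h2, hcon⟩
        obtain ⟨i, hi⟩ := this
        have h4 : (x i - 1 / (n : ℝ)) ^ 2 ≤ τ :=
          Finset.single_le_sum (f := fun i => (x i - 1 / (n : ℝ)) ^ 2)
            (fun i _ => sq_nonneg _) (Finset.mem_univ i)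
        have h3 : u / 4 ≤ 1 / n - x i := by
          have e : 1 / (n : ℝ) - 1 / (2 * n) = 1 / (2 * n) := by field_simp; norm_num
          have e2 : 2 / (n : ℝ) / 4 = 1 / (2 * n) := by field_simp; norm_num
          have : u / 4 ≤ 1 / (2 * (n : ℝ)) := by rw [← e2]; linarith
          linarith
        have h5 : (u / 4) ^ 2 ≤ (1 / n - x i) ^ 2 := pow_le_pow_left₀ (by positivity) h3 2
        nlinarith
    rw [integral_sub (hI1.mono_set hsubA) (hI2.mono_set hsubA)]
    refine (abs_sub _ _).trans_lt ?_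
    calc _ ≤ _ := add_le_add hT1 hT2
      _ < c1 / 32 * u ^ 2 + c1 / 32 * u ^ 2 := add_lt_add hRu hRu
      _ = c1 * (u ^ 2 / 16) := by ring
      _ ≤ c1 * τ := by gcongr

end LpSec

end

section
/-!
# T25 Asym: the diagonal section is the largest one in high dimension

`u0` from `local_max`; vectors with a coordinate `‖a i‖² > u0`: `unif` gives
`sec ≤ cst D (1-δ) < cst D J(diag) = sec (diag)` for `m` large (`J_diag_tendsto`, `sec_eq`,
`prod_integrable`). Others: `sec_eq` and `local_max`.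
-/

open Real MeasureTheory Set Filter Topology

namespace LpSec

variable {α : ℝ}

/-- The vector `(1,…,1)/√n`. -/
noncomputable def diagV (n : ℕ) : EuclideanSpace ℂ (Fin n) :=
  WithLp.toLp 2 (fun _ => ((1 / √(n : ℝ) : ℝ) : ℂ))

theorem diagV_apply_sq (n : ℕ) (i : Fin n) : ‖diagV n i‖ ^ 2 = 1 / (n : ℝ) := by
  have h1 : diagV n i = ((1 / √(n : ℝ) : ℝ) : ℂ) := rfl
  rw [h1, Complex.norm_real, Real.norm_eq_abs, sq_abs, div_pow, one_pow,
    Real.sq_sqrt (Nat.cast_nonneg n)]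

theorem diagV_norm {n : ℕ} (hn : 0 < n) : ‖diagV n‖ = 1 := by
  rw [EuclideanSpace.norm_eq]
  simp only [diagV_apply_sq]
  rw [Finset.sum_const, Finset.card_univ, Fintype.card_fin, nsmul_eq_mul]
  have : (n : ℝ) ≠ 0 := by exact_mod_cast hn.ne'
  rw [mul_one_div_cancel this, Real.sqrt_one]

theorem asym_cst_pos (hα : 1 < α) (m : ℕ) : 0 < cst α m := by
  unfold cst
  have : 0 < Gamma (1 + 1 / α) := Gamma_pos_of_pos (by positivity)
  positivity

/-- the sum of the squares of the coordinates of a unit vector -/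
theorem asym_sum {n : ℕ} (a : EuclideanSpace ℂ (Fin n)) (ha : ‖a‖ = 1) :
    ∑ i, ‖a i‖ ^ 2 = 1 := by
  have h1 := EuclideanSpace.norm_eq a
  rw [ha] at h1
  have h2 : (0 : ℝ) ≤ ∑ i, ‖a i‖ ^ 2 := Finset.sum_nonneg fun i _ => by positivity
  have h3 := congrArg (fun t : ℝ => t ^ 2) h1
  simp only [one_pow, Real.sq_sqrt h2] at h3
  exact h3.symm

/-- `sec` in terms of `J` for vectors with small coordinates -/
theorem asym_sec_eq (hα : 1 < α) {m : ℕ} (a : EuclideanSpace ℂ (Fin (m + 1))) (ha : ‖a‖ = 1)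
    {u : ℝ} (hu : 0 < u) (hu4 : u < 1 / 4) (hau : ∀ i, ‖a i‖ ^ 2 ≤ u) :
    sec α a = ENNReal.ofReal (cst α m * DD α * J α (fun i => ‖a i‖ ^ 2)) := by
  have h1 := sec_eq hα a ha (prod_integrable hα (x := fun i => ‖a i‖ ^ 2)
    (fun i => by positivity) (asym_sum a ha) hu hu4 hau)
  have h2 : sec α a = ENNReal.ofReal (sec α a).toReal :=
    (ENNReal.ofReal_toReal (sec_ne_top hα a)).symm
  rw [h2, h1]
  rfl

/-- `sec` of the diagonal vector -/
theorem asym_sec_diag (hα : 1 < α) {m : ℕ} (hm : 4 ≤ m) :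
    sec α (diagV (m + 1)) =
      ENNReal.ofReal (cst α m * DD α * J α (fun _ : Fin (m + 1) => 1 / ((m + 1 : ℕ) : ℝ))) := by
  have h4 : (4 : ℝ) < ((m + 1 : ℕ) : ℝ) := by exact_mod_cast (by omega : 4 < m + 1)
  have hu : (0 : ℝ) < 1 / ((m + 1 : ℕ) : ℝ) := by positivity
  have hu4 : 1 / ((m + 1 : ℕ) : ℝ) < 1 / 4 := by
    apply one_div_lt_one_div_of_lt (by norm_num) h4
  rw [asym_sec_eq hα (diagV (m + 1)) (diagV_norm (Nat.succ_pos m)) hu hu4
    (fun i => (diagV_apply_sq (m + 1) i).le)]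
  simp only [diagV_apply_sq]

theorem sec_diag_tendsto (hα : 1 < α) :
    Tendsto (fun m : ℕ => (sec α (diagV (m + 1))).toReal / cst α m) atTop (𝓝 (DD α)) := by
  have h1 : Tendsto (fun m : ℕ => J α (fun _ : Fin (m + 1) => 1 / ((m + 1 : ℕ) : ℝ))) atTop
      (𝓝 1) := (J_diag_tendsto hα).comp (tendsto_add_atTop_nat 1)
  have h2 : Tendsto (fun m : ℕ => DD α * max (J α (fun _ : Fin (m + 1) =>
      1 / ((m + 1 : ℕ) : ℝ))) 0) atTop (𝓝 (DD α)) := by
    have h3 := (h1.max (tendsto_const_nhds (x := (0 : ℝ)))).const_mul (DD α)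
    rwa [max_eq_left zero_le_one, mul_one] at h3
  refine h2.congr' ?_
  filter_upwards [eventually_ge_atTop 4] with m hm
  have hc := asym_cst_pos hα m
  have hD := DD_pos (α := α) (by linarith)
  rw [asym_sec_diag hα hm, ENNReal.toReal_ofReal', max_def, max_def]
  by_cases hJ : 0 ≤ J α (fun _ : Fin (m + 1) => 1 / ((m + 1 : ℕ) : ℝ))
  · rcases hJ.eq_or_lt with hJ | hJ
    · rw [← hJ]
      simp
    · have h4 : 0 < cst α m * DD α * J α (fun _ : Fin (m + 1) => 1 / ((m + 1 : ℕ) : ℝ)) := by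
        positivity
      rw [if_neg (not_le.mpr hJ), if_neg (not_le.mpr h4)]
      field_simp
  · push Not at hJ
    have h4 : cst α m * DD α * J α (fun _ : Fin (m + 1) => 1 / ((m + 1 : ℕ) : ℝ)) ≤ 0 :=
      mul_nonpos_of_nonneg_of_nonpos (by positivity) hJ.le
    rw [if_pos hJ.le, if_pos h4]
    simp

theorem sec_diag_max (hα : 1 < α) : ∃ m0 : ℕ, ∀ m ≥ m0,
    ∀ a : EuclideanSpace ℂ (Fin (m + 1)), ‖a‖ = 1 →
      sec α a ≤ sec α (diagV (m + 1)) ∧
      (sec α a = sec α (diagV (m + 1)) ↔ ∀ i, ‖a i‖ = 1 / √((m + 1 : ℕ) : ℝ)) := by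
  obtain ⟨u0, hu0, hu4, n0, hloc⟩ := local_max hα
  obtain ⟨δ, hδ, hunif⟩ := unif hα hu0
  have h1 : Tendsto (fun m : ℕ => J α (fun _ : Fin (m + 1) => 1 / ((m + 1 : ℕ) : ℝ))) atTop
      (𝓝 1) := (J_diag_tendsto hα).comp (tendsto_add_atTop_nat 1)
  have hev : ∀ᶠ m : ℕ in atTop, max (1 - δ) (1 / 2) <
      J α (fun _ : Fin (m + 1) => 1 / ((m + 1 : ℕ) : ℝ)) := by
    apply h1.eventually_const_lt
    rw [max_lt_iff]
    constructor <;> linarith
  obtain ⟨m1, hm1⟩ := eventually_atTop.mp hev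
  refine ⟨max m1 (max n0 4), fun m hm a ha => ?_⟩
  have hmm1 : m1 ≤ m := le_trans (le_max_left _ _) hm
  have hmn0 : n0 ≤ m + 1 := le_trans (le_trans (le_max_left _ _) (le_max_right _ _))
    (hm.trans (Nat.le_succ m))
  have hm4 : 4 ≤ m := le_trans (le_trans (le_max_right _ _) (le_max_right _ _)) hm
  have hc := asym_cst_pos hα m
  have hD := DD_pos (α := α) (by linarith)
  have hcD : 0 < cst α m * DD α := mul_pos hc hD
  set Jd : ℝ := J α (fun _ : Fin (m + 1) => 1 / ((m + 1 : ℕ) : ℝ)) with hJd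
  have hJ1 : max (1 - δ) (1 / 2) < Jd := hm1 m hmm1
  have hJδ : 1 - δ < Jd := lt_of_le_of_lt (le_max_left _ _) hJ1
  have hJ0 : 0 < Jd := lt_trans (by norm_num) (lt_of_le_of_lt (le_max_right _ _) hJ1)
  have hdiag := asym_sec_diag hα hm4
  rw [← hJd] at hdiag
  -- the condition on the coordinates
  have hiff : (∀ i, ‖a i‖ = 1 / √((m + 1 : ℕ) : ℝ)) ↔
      (fun i => ‖a i‖ ^ 2) = fun _ : Fin (m + 1) => 1 / ((m + 1 : ℕ) : ℝ) := by
    constructor
    · intro h
      funext i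
      rw [h i, div_pow, one_pow, Real.sq_sqrt (Nat.cast_nonneg _)]
    · intro h i
      have h2 := congrFun h i
      simp only at h2
      have h3 : ‖a i‖ = √(‖a i‖ ^ 2) := (Real.sqrt_sq (norm_nonneg _)).symm
      rw [h3, h2, Real.sqrt_div zero_le_one, Real.sqrt_one]
  have h4 : (4 : ℝ) < ((m + 1 : ℕ) : ℝ) := by exact_mod_cast (by omega : 4 < m + 1)
  by_cases hx : (fun i => ‖a i‖ ^ 2) = fun _ : Fin (m + 1) => 1 / ((m + 1 : ℕ) : ℝ)
  · have heq : sec α a = sec α (diagV (m + 1)) := by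
      have hu : (0 : ℝ) < 1 / ((m + 1 : ℕ) : ℝ) := by positivity
      have hu4' : 1 / ((m + 1 : ℕ) : ℝ) < 1 / 4 :=
        one_div_lt_one_div_of_lt (by norm_num) h4
      rw [hdiag, asym_sec_eq hα a ha hu hu4' (fun i => (congrFun hx i).le), hx]
    exact ⟨heq.le, fun _ => hiff.mpr hx, fun _ => heq⟩
  · have hlt : sec α a < sec α (diagV (m + 1)) := by
      rw [hdiag]
      by_cases hbig : ∃ i, u0 ≤ ‖a i‖ ^ 2
      · refine (hunif m a ha hbig).trans_lt ?_
        rw [ENNReal.ofReal_lt_ofReal_iff (mul_pos hcD hJ0)]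
        exact mul_lt_mul_of_pos_left hJδ hcD
      · push Not at hbig
        rw [asym_sec_eq hα a ha hu0 hu4 (fun i => (hbig i).le),
          ENNReal.ofReal_lt_ofReal_iff (mul_pos hcD hJ0)]
        apply mul_lt_mul_of_pos_left _ hcD
        exact hloc (m + 1) hmn0 (fun i => ‖a i‖ ^ 2) (fun i => by positivity)
          (asym_sum a ha) (fun i => (hbig i).le) hx
    refine ⟨hlt.le, fun h => absurd h hlt.ne, fun h => absurd (hiff.mp h) hx⟩

end LpSec

end

section
/-!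
# T27 Final
-/

open Real MeasureTheory Set Filter Topology

namespace LpSec

/-- The unit ball of complex `ℓ_p^n`. -/
def ball (p : ℝ) (n : ℕ) : Set (EuclideanSpace ℂ (Fin n)) := {z | ∑ i, ‖z i‖ ^ p ≤ 1}

/-- The `(2n-2)`-dimensional volume of the section of the unit ball by `a^⊥`. -/
noncomputable def secVol (p : ℝ) {n : ℕ} (a : EuclideanSpace ℂ (Fin n)) : ENNReal :=
  volume {z : hyp a | (z : EuclideanSpace ℂ (Fin n)) ∈ ball p n}

theorem cst_pos {α : ℝ} (hα : 1 < α) (m : ℕ) : 0 < cst α m := by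
  unfold cst
  have h : 0 < Gamma (1 + 1 / α) := Gamma_pos_of_pos (by positivity)
  exact pow_pos (mul_pos pi_pos h) m

theorem secVol_eq {p : ℝ} (hp : 2 < p) {m : ℕ} (hm : 1 ≤ m)
    (a : EuclideanSpace ℂ (Fin (m + 1))) (ha : ‖a‖ = 1) :
    secVol p a = sec (p / 2) a / ENNReal.ofReal (Gamma (1 + m / (p / 2))) := by
  have h := vol_sec (α := p / 2) (by linarith) hm a ha
  have e : 2 * (p / 2) = p := by ring
  rw [e] at h
  exact h

theorem ball_vol_eq {p : ℝ} (hp : 2 < p) {m : ℕ} (hm : 1 ≤ m) :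
    volume (ball p m) = ENNReal.ofReal (cst (p / 2) m / Gamma (1 + m / (p / 2))) := by
  have h := vol_ball (α := p / 2) (by linarith) hm
  have e : 2 * (p / 2) = p := by ring
  rw [e] at h
  exact h

theorem DD_half {p : ℝ} (hp : 2 < p) :
    2 * Gamma (1 + 2 / p) ^ 2 / Gamma (1 + 4 / p) = DD (p / 2) := by
  unfold DD
  have e1 : 1 / (p / 2) = 2 / p := by field_simp
  have e2 : 2 / (p / 2) = 4 / p := by field_simp; norm_num
  rw [e1, e2]

theorem ennreal_div_div (x : ENNReal) {c g : ENNReal} (hc : c ≠ 0) (hc' : c ≠ ⊤) (hg : g ≠ 0)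
    (hg' : g ≠ ⊤) : x / c = x / g / (c / g) := by
  rw [div_eq_mul_inv, div_eq_mul_inv, div_eq_mul_inv, div_eq_mul_inv,
    ENNReal.mul_inv (Or.inl hc) (Or.inl hc'), inv_inv, mul_assoc]
  congr 1
  rw [mul_comm g⁻¹, mul_assoc, ENNReal.mul_inv_cancel hg hg', mul_one]

theorem final {p : ℝ} (hp : 2 < p) :
    (∀ n : ℕ, 2 ≤ n → ∀ a : EuclideanSpace ℂ (Fin n), ‖a‖ = 1 →
      secVol p a < ENNReal.ofReal (2 * Gamma (1 + 2 / p) ^ 2 / Gamma (1 + 4 / p)) *
        volume (ball p (n - 1))) ∧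
    (∃ n0 : ℕ, ∀ n ≥ n0, ∀ a : EuclideanSpace ℂ (Fin n), ‖a‖ = 1 →
      secVol p a ≤ secVol p (diagV n) ∧
      (secVol p a = secVol p (diagV n) ↔ ∀ i, ‖a i‖ = 1 / √(n : ℝ))) ∧
    Tendsto (fun n : ℕ => secVol p (diagV n) / volume (ball p (n - 1))) atTop
      (𝓝 (ENNReal.ofReal (2 * Gamma (1 + 2 / p) ^ 2 / Gamma (1 + 4 / p)))) := by
  rw [DD_half hp]
  have hα : 1 < p / 2 := by linarith
  have hG : ∀ m : ℕ, 0 < Gamma (1 + m / (p / 2)) := fun m =>
    Gamma_pos_of_pos (by positivity)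
  have hD := DD_pos (α := p / 2) (by linarith)
  refine ⟨?_, ?_, ?_⟩
  · intro n hn a ha
    obtain ⟨m, rfl⟩ : ∃ m, n = m + 1 := ⟨n - 1, by omega⟩
    have hm : 1 ≤ m := by omega
    rw [Nat.add_sub_cancel, secVol_eq hp hm a ha, ball_vol_eq hp hm]
    have h := sec_lt hα a ha
    have h0 : ENNReal.ofReal (Gamma (1 + m / (p / 2))) ≠ 0 := by
      simpa using hG m
    rw [ENNReal.div_lt_iff (Or.inl h0) (Or.inl ENNReal.ofReal_ne_top)]
    rw [← ENNReal.ofReal_mul hD.le, ← ENNReal.ofReal_mul (by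
      have := cst_pos hα m
      have := hG m
      positivity)]
    refine lt_of_lt_of_eq h ?_
    congr 1
    have := (hG m).ne'
    field_simp
  · obtain ⟨m0, hm0⟩ := sec_diag_max hα
    refine ⟨m0 + 2, fun n hn a ha => ?_⟩
    obtain ⟨m, rfl⟩ : ∃ m, n = m + 1 := ⟨n - 1, by omega⟩
    have hm : 1 ≤ m := by omega
    obtain ⟨h1, h2⟩ := hm0 m (by omega) a ha
    have hd := diagV_norm (n := m + 1) (by omega)
    rw [secVol_eq hp hm a ha, secVol_eq hp hm _ hd]
    refine ⟨ENNReal.div_le_div_right h1 _, ?_⟩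
    rw [← h2]
    have h0 : ENNReal.ofReal (Gamma (1 + m / (p / 2))) ≠ 0 := by
      simpa using hG m
    constructor
    · intro h
      have h3 := congrArg (· * ENNReal.ofReal (Gamma (1 + m / (p / 2)))) h
      rwa [ENNReal.div_mul_cancel h0 ENNReal.ofReal_ne_top,
        ENNReal.div_mul_cancel h0 ENNReal.ofReal_ne_top] at h3
    · intro h
      rw [h]
  · rw [← tendsto_add_atTop_iff_nat 1]
    have h := (ENNReal.continuous_ofReal.tendsto _).comp (sec_diag_tendsto hα)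
    refine h.congr' ?_
    filter_upwards [eventually_ge_atTop 1] with m hm
    have hd := diagV_norm (n := m + 1) (by omega)
    have hlt := sec_lt hα _ hd
    have hfin : sec (p / 2) (diagV (m + 1)) ≠ ⊤ := ne_top_of_lt hlt
    have hc := cst_pos hα m
    simp only [Function.comp]
    change _ = _ / volume (ball p m)
    rw [secVol_eq hp hm _ hd, ball_vol_eq hp hm, ENNReal.ofReal_div_of_pos hc,
      ENNReal.ofReal_div_of_pos (hG m), ENNReal.ofReal_toReal hfin]
    have h0 : ENNReal.ofReal (Gamma (1 + m / (p / 2))) ≠ 0 := by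
      simpa using hG m
    have h1 : ENNReal.ofReal (cst (p / 2) m) ≠ 0 := by simpa using hc
    exact ennreal_div_div _ h1 ENNReal.ofReal_ne_top h0 ENNReal.ofReal_ne_top

end LpSec

end
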