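import Mathlib
import Pool.Agent.Lib.MP_1dbab3_gt.C01Lim
import Pool.Agent.Lib.MP_1dbab3_gt.Main

/-!
# Second order behaviour of `Phi` near `0`, uniformly for large `α`
-/

open Real MeasureTheory Set Filter Topology

namespace LpSec.AsN

variable {α : ℝ}

theorem nonneg_of_deriv {f f' : ℝ → ℝ} (hd : ∀ x, HasDerivAt f (f' x) x) (h0 : 0 ≤ f 0)
    (h : ∀ x, 0 ≤ x → 0 ≤ f' x) {x : ℝ} (hx : 0 ≤ x) : 0 ≤ f x := by
  have hmono : MonotoneOn f (Ici 0) := by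
    refine monotoneOn_of_deriv_nonneg (convex_Ici 0) ?_ ?_ ?_
    · exact fun v _ => (hd v).continuousAt.continuousWithinAt
    · exact fun v _ => (hd v).differentiableAt.differentiableWithinAt
    · intro v hv
      rw [interior_Ici] at hv
      rw [(hd v).deriv]
      exact h v (le_of_lt hv)
  exact h0.trans (hmono (mem_Ici.2 le_rfl) (mem_Ici.2 hx) hx)

theorem K0v : K 0 0 = 1 := by rw [K_zero]; norm_num
theorem K1v : K 1 0 = 1 := by rw [K_zero]; norm_num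
theorem K2v : K 2 0 = 1 / 2 := by rw [K_zero]; norm_num [Nat.factorial]

theorem K3_abs {u : ℝ} (hu : 0 ≤ u) : |K 3 u| ≤ 1 / 6 := by
  have := K_abs_le 3 hu
  norm_num [Nat.factorial] at this ⊢
  exact this

theorem K2_taylor {u : ℝ} (hu : 0 ≤ u) : |K 2 u - 1 / 2| ≤ u / 6 := by
  have h1 := nonneg_of_deriv (f := fun v => v / 6 - (K 2 v - 1 / 2)) (f' := fun v => 1 / 6 + K 3 v)
    (fun v => by
      have := ((hasDerivAt_id v).div_const 6).sub ((K_hasDerivAt 2 v).sub_const (1 / 2))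
      refine this.congr_deriv ?_
      ring) (by simp only [K2v]; norm_num)
    (fun v hv => by have := (abs_le.1 (K3_abs hv)).1; linarith) hu
  have h2 := nonneg_of_deriv (f := fun v => v / 6 + (K 2 v - 1 / 2)) (f' := fun v => 1 / 6 - K 3 v)
    (fun v => by
      have := ((hasDerivAt_id v).div_const 6).add ((K_hasDerivAt 2 v).sub_const (1 / 2))
      refine this.congr_deriv ?_
      ring) (by simp only [K2v]; norm_num)
    (fun v hv => by have := (abs_le.1 (K3_abs hv)).2; linarith) hu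
  exact abs_le.2 ⟨by linarith, by linarith⟩

theorem K1_taylor {u : ℝ} (hu : 0 ≤ u) : |K 1 u - (1 - u / 2)| ≤ u ^ 2 / 12 := by
  have e : ∀ v : ℝ, HasDerivAt (fun v : ℝ => v ^ 2 / 12) (v / 6) v := fun v => by
    refine ((hasDerivAt_pow 2 v).div_const 12).congr_deriv ?_
    norm_num
    ring
  have e' : ∀ v : ℝ, HasDerivAt (fun v : ℝ => K 1 v - (1 - v / 2)) (-(K 2 v) + 1 / 2) v :=
    fun v => by
      have := (K_hasDerivAt 1 v).sub ((hasDerivAt_const v (1 : ℝ)).sub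
        ((hasDerivAt_id v).div_const 2))
      refine this.congr_deriv ?_
      ring
  have h1 := nonneg_of_deriv (f := fun v => v ^ 2 / 12 - (K 1 v - (1 - v / 2)))
    (f' := fun v => v / 6 - (-(K 2 v) + 1 / 2)) (fun v => (e v).sub (e' v))
    (by simp only [K1v]; norm_num)
    (fun v hv => by have := (abs_le.1 (K2_taylor hv)).1; linarith) hu
  have h2 := nonneg_of_deriv (f := fun v => v ^ 2 / 12 + (K 1 v - (1 - v / 2)))
    (f' := fun v => v / 6 + (-(K 2 v) + 1 / 2)) (fun v => (e v).add (e' v))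
    (by simp only [K1v]; norm_num)
    (fun v hv => by have := (abs_le.1 (K2_taylor hv)).2; linarith) hu
  exact abs_le.2 ⟨by linarith, by linarith⟩

theorem K0_taylor {u : ℝ} (hu : 0 ≤ u) : |K 0 u - (1 - u + u ^ 2 / 4)| ≤ u ^ 3 / 36 := by
  have e : ∀ v : ℝ, HasDerivAt (fun v : ℝ => v ^ 3 / 36) (v ^ 2 / 12) v := fun v => by
    refine ((hasDerivAt_pow 3 v).div_const 36).congr_deriv ?_
    norm_num
    ring
  have e' : ∀ v : ℝ, HasDerivAt (fun v : ℝ => K 0 v - (1 - v + v ^ 2 / 4))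
      (-(K 1 v) + (1 - v / 2)) v :=
    fun v => by
      have := (K_hasDerivAt 0 v).sub (((hasDerivAt_const v (1 : ℝ)).sub (hasDerivAt_id v)).add
        ((hasDerivAt_pow 2 v).div_const 4))
      refine this.congr_deriv ?_
      norm_num
      ring
  have h1 := nonneg_of_deriv (f := fun v => v ^ 3 / 36 - (K 0 v - (1 - v + v ^ 2 / 4)))
    (f' := fun v => v ^ 2 / 12 - (-(K 1 v) + (1 - v / 2))) (fun v => (e v).sub (e' v))
    (by simp only [K0v]; norm_num)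
    (fun v hv => by have := (abs_le.1 (K1_taylor hv)).1; linarith) hu
  have h2 := nonneg_of_deriv (f := fun v => v ^ 3 / 36 + (K 0 v - (1 - v + v ^ 2 / 4)))
    (f' := fun v => v ^ 2 / 12 + (-(K 1 v) + (1 - v / 2))) (fun v => (e v).add (e' v))
    (by simp only [K0v]; norm_num)
    (fun v hv => by have := (abs_le.1 (K1_taylor hv)).2; linarith) hu
  exact abs_le.2 ⟨by linarith, by linarith⟩

theorem Phi_taylor (hα : 1 < α) (h3i : IntegrableOn (fun ρ => ρ ^ 3 * F α ρ) (Ioi 0))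
    (h3 : ∫ ρ in Ioi (0 : ℝ), ρ ^ 3 * F α ρ ≤ 3) {s : ℝ} (hs : 0 ≤ s) :
    |Phi α s - (1 - s + Phi2 α 0 / 2 * s ^ 2)| ≤ s ^ 3 / 12 := by
  have i0 : IntegrableOn (fun ρ => F α ρ) (Ioi 0) := F_integrable hα
  have i1 : IntegrableOn (fun ρ => s * (ρ * F α ρ)) (Ioi 0) := (F_mul_integrable hα).const_mul s
  have i2 : IntegrableOn (fun ρ => s ^ 2 / 4 * (ρ ^ 2 * F α ρ)) (Ioi 0) :=
    (F_sq_mul_integrable hα).const_mul _
  have i01 : IntegrableOn (fun ρ => F α ρ - s * (ρ * F α ρ)) (Ioi 0) := i0.sub i1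
  have i012 : IntegrableOn (fun ρ => F α ρ - s * (ρ * F α ρ) + s ^ 2 / 4 * (ρ ^ 2 * F α ρ))
      (Ioi 0) := i01.add i2
  have e1 : 1 - s + Phi2 α 0 / 2 * s ^ 2 = ∫ ρ in Ioi (0 : ℝ),
      (F α ρ - s * (ρ * F α ρ) + s ^ 2 / 4 * (ρ ^ 2 * F α ρ)) := by
    rw [integral_add i01 i2, integral_sub i0 i1,
      integral_const_mul, integral_const_mul, F_integral hα, F_mean hα, phic2_zero]
    ring
  rw [e1]
  unfold Phi
  rw [← integral_sub (F_mul_K_integrable hα hs) i012, ← Real.norm_eq_abs]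
  refine (norm_integral_le_of_norm_le (h3i.const_mul (s ^ 3 / 36)) ?_).trans ?_
  · refine (ae_restrict_iff' measurableSet_Ioi).2 (Eventually.of_forall fun ρ hρ => ?_)
    have hρ' : 0 < ρ := hρ
    have hF := (F_pos (α := α) (by linarith) ρ).le
    have h1 := K0_taylor (mul_nonneg hs hρ'.le)
    have e : F α ρ * K 0 (s * ρ) - (F α ρ - s * (ρ * F α ρ) + s ^ 2 / 4 * (ρ ^ 2 * F α ρ)) =
        F α ρ * (K 0 (s * ρ) - (1 - s * ρ + (s * ρ) ^ 2 / 4)) := by ring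
    rw [e, norm_mul, Real.norm_eq_abs, Real.norm_eq_abs, abs_of_nonneg hF]
    calc F α ρ * |K 0 (s * ρ) - (1 - s * ρ + (s * ρ) ^ 2 / 4)| ≤ F α ρ * ((s * ρ) ^ 3 / 36) :=
          mul_le_mul_of_nonneg_left h1 hF
      _ = s ^ 3 / 36 * (ρ ^ 3 * F α ρ) := by ring
  · rw [integral_const_mul]
    have : 0 ≤ s ^ 3 / 36 := by positivity
    nlinarith

theorem exp_taylor {s κ : ℝ} (hs : 0 ≤ s) (hs1 : s ≤ 1 / 2) (hκ : 0 ≤ κ) (hκ1 : κ ≤ 1 / 3) :
    |exp (-s - κ * s ^ 2) - (1 - s + (1 / 2 - κ) * s ^ 2)| ≤ s ^ 3 := by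
  have hx0 : 0 ≤ s + κ * s ^ 2 := by positivity
  have hx1 : s + κ * s ^ 2 ≤ 7 / 6 * s := by
    have : κ * s ^ 2 ≤ 1 / 3 * (s * (1 / 2)) := by
      have h1 : s ^ 2 ≤ s * (1 / 2) := by nlinarith
      exact mul_le_mul hκ1 h1 (by positivity) (by norm_num)
    linarith
  have habs : |-s - κ * s ^ 2| ≤ 1 := by
    rw [show -s - κ * s ^ 2 = -(s + κ * s ^ 2) by ring, abs_neg, abs_of_nonneg hx0]
    linarith
  have h := Real.exp_bound habs (n := 3) (by norm_num)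
  have e : ∑ m ∈ Finset.range 3, (-s - κ * s ^ 2) ^ m / (m.factorial : ℝ) =
      1 - (s + κ * s ^ 2) + (s + κ * s ^ 2) ^ 2 / 2 := by
    simp only [Finset.sum_range_succ, Finset.sum_range_zero, Nat.factorial]
    push_cast
    ring
  rw [e, show -s - κ * s ^ 2 = -(s + κ * s ^ 2) by ring, abs_neg, abs_of_nonneg hx0] at h
  norm_num [Nat.factorial] at h
  have hx3 : (s + κ * s ^ 2) ^ 3 ≤ (7 / 6 * s) ^ 3 := pow_le_pow_left₀ hx0 hx1 3
  have h3 : 0 ≤ s ^ 3 := by positivity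
  have hk : κ * s ^ 3 ≤ 1 / 3 * s ^ 3 := mul_le_mul_of_nonneg_right hκ1 h3
  have hk2 : κ ^ 2 * s ^ 4 / 2 ≤ 1 / 36 * s ^ 3 := by
    have h4 : κ ^ 2 ≤ 1 / 9 := by nlinarith
    have h5 : s ^ 4 ≤ s ^ 3 * (1 / 2) := by
      have : s ^ 4 = s ^ 3 * s := by ring
      rw [this]
      exact mul_le_mul_of_nonneg_left hs1 h3
    have h6 : κ ^ 2 * s ^ 4 ≤ 1 / 9 * (s ^ 3 * (1 / 2)) :=
      mul_le_mul h4 h5 (by positivity) (by norm_num)
    linarith
  have hk0 : 0 ≤ κ * s ^ 3 := by positivity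
  have hk20 : 0 ≤ κ ^ 2 * s ^ 4 / 2 := by positivity
  have e2 : (s + κ * s ^ 2) ^ 2 / 2 = s ^ 2 / 2 + κ * s ^ 3 + κ ^ 2 * s ^ 4 / 2 := by ring
  have e3 : (7 / 6 * s) ^ 3 = 343 / 216 * s ^ 3 := by ring
  rw [e2] at h
  rw [e3] at hx3
  rw [show -s - κ * s ^ 2 = -(κ * s ^ 2) + -s by ring] at *
  obtain ⟨h7, h8⟩ := abs_le.1 h
  rw [show -(κ * s ^ 2) + -s = -(κ * s ^ 2) + -s from rfl]
  refine abs_le.2 ⟨?_, ?_⟩ <;> nlinarith

/-- `Phi α s` is close to `exp (-s - s^2/6)`, uniformly for large `α`. -/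
theorem Phi_two {δ : ℝ} (hδ : 0 < δ) (hδ1 : δ ≤ 1 / 6) : ∀ᶠ α : ℝ in atTop,
    ∀ s ∈ Icc (0 : ℝ) (δ / 4), exp (-s - (1 / 6 + δ) * s ^ 2) ≤ Phi α s ∧
      Phi α s ≤ exp (-s - (1 / 6 - δ) * s ^ 2) := by
  have h1 := Phi2_zero_tendsto.eventually (eventually_le_nhds
    (show (2 / 3 : ℝ) < 2 / 3 + δ by linarith))
  have h2 := Phi2_zero_tendsto.eventually (eventually_ge_nhds
    (show (2 / 3 : ℝ) - δ < 2 / 3 by linarith))
  filter_upwards [h1, h2, F_mom3, eventually_gt_atTop 1] with α h1 h2 hm hα s hs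
  obtain ⟨hs0, hs1⟩ := hs
  obtain ⟨a1, a2⟩ := abs_le.1 (Phi_taylor hα hm.1 hm.2 hs0)
  obtain ⟨b1, b2⟩ := abs_le.1 (exp_taylor (κ := 1 / 6 + δ) hs0 (by linarith) (by linarith)
    (by linarith))
  obtain ⟨c1, c2⟩ := abs_le.1 (exp_taylor (κ := 1 / 6 - δ) hs0 (by linarith) (by linarith)
    (by linarith))
  have h3 : 0 ≤ s ^ 2 := by positivity
  have h4 : s ^ 3 ≤ δ / 4 * s ^ 2 := by
    have : s ^ 3 = s * s ^ 2 := by ring
    rw [this]
    exact mul_le_mul_of_nonneg_right hs1 h3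
  have h5 : Phi2 α 0 / 2 * s ^ 2 ≤ (1 / 3 + δ / 2) * s ^ 2 :=
    mul_le_mul_of_nonneg_right (by linarith) h3
  have h6 : (1 / 3 - δ / 2) * s ^ 2 ≤ Phi2 α 0 / 2 * s ^ 2 :=
    mul_le_mul_of_nonneg_right (by linarith) h3
  constructor <;> nlinarith

end LpSec.AsN
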