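import Mathlib
import Pool.Agent.Lib.MP_1dbab3_gt.C01Lim

section
/-!
# C02 Tail: `|Phi| ≤ e^{-2}` beyond `1.45`, for large `α`

* `K1_abs_29`: for `v ≥ 2.9`, `|K 1 v| ≤ 0.1324`: lower bound `K1_lower`; upper bound: on `[2.9, 6.5]`
  `K 1` is antitone and `K 1 2.9 ≤ 0.1039`, beyond `K1_far`.
* `tail_inf`: `Phi_near` with `ε = 0.002` and `exp (-2) ≥ 0.1353 ≥ 0.1324 + 0.002`.
-/

open Real MeasureTheory Set Filter Topology

namespace LpSec

variable {α : ℝ}

theorem K1_at_29 : K 1 2.9 ≤ 0.1039 :=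
  (kn_K_bounds 1 12 (lo := -1) (hi := 0.1039) (by norm_num) (by norm_num)
    (by norm_num [Finset.sum_range_succ, Nat.factorial])
    (by norm_num [Finset.sum_range_succ, Nat.factorial])).2

theorem K1_abs_29 {v : ℝ} (hv : 2.9 ≤ v) : |K 1 v| ≤ 0.1324 := by
  rw [abs_le]
  refine ⟨K1_lower (by linarith), ?_⟩
  rcases le_total v (13 / 2) with h | h
  · have h1 := K1_antitone (a := 2.9) (b := v) ⟨by norm_num, by norm_num⟩ ⟨by linarith, h⟩ hv
    have h2 := K1_at_29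
    linarith
  · have := K1_far h
    linarith

theorem exp_neg_two_ge : 0.1353 ≤ exp (-2) := by
  have h1 : exp 1 ≤ 2.7182818286 := exp_one_lt_d9.le
  have h2 : exp (-2) = (exp 1 ^ 2)⁻¹ := by
    rw [← Real.exp_nat_mul, ← Real.exp_neg]
    norm_num
  rw [h2]
  calc (0.1353 : ℝ) ≤ (2.7182818286 ^ 2)⁻¹ := by norm_num
    _ ≤ (exp 1 ^ 2)⁻¹ := by
      apply inv_anti₀ (by positivity)
      exact pow_le_pow_left₀ (exp_pos _).le h1 2

theorem tail_inf : ∀ᶠ α : ℝ in atTop, ∀ s : ℝ, 1.45 ≤ s → |Phi α s| ≤ exp (-2) := by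
  filter_upwards [Phi_near (ε := 0.002) (by norm_num)] with α h s hs
  have h1 := h s (by linarith)
  have h2 := K1_abs_29 (v := 2 * s) (by linarith)
  have h3 := exp_neg_two_ge
  have h4 : |Phi α s| ≤ |Phi α s - K 1 (2 * s)| + |K 1 (2 * s)| := by
    have := abs_add_le (Phi α s - K 1 (2 * s)) (K 1 (2 * s))
    rwa [sub_add_cancel] at this
  linarith

end LpSec

end
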