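import Mathlib
import Pool.Agent.Lib.MP_1dbab3_gt.Main

section
/-!
# Stage B: exponents `p = 2α` close to `2`, all dimensions: definitions

`δ = α - 1 > 0` small. All estimates are first order in `δ`, uniform in the dimension.
-/

open Real MeasureTheory Set Filter Topology

namespace LpSec

/-- `A'(ρ)` for `A(ρ) = (mu ρ)^α`. -/
noncomputable def A1 (α ρ : ℝ) : ℝ := α * mu α ^ α * ρ ^ (α - 1)

/-- `Q(ρ) = ρ² (1 - A')² F`. -/
noncomputable def Qf (α ρ : ℝ) : ℝ := ρ ^ 2 * (1 - A1 α ρ) ^ 2 * F α ρ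

/-- `N = Phi - 2 Phi1 + Phi2`, i.e. `N = e^{-s} (e^s Phi)''`. -/
noncomputable def NN (α s : ℝ) : ℝ := Phi α s - 2 * Phi1 α s + Phi2 α s

/-- `∫_0^1 w e^{-sw} dw = (1 - (1+s) e^{-s})/s²`. -/
noncomputable def kap0 (s : ℝ) : ℝ := ∫ w in (0 : ℝ)..1, w * exp (-(s * w))

/-- First order closeness of `Phi` to `e^{-s}`, together with the decay of `Phi`. -/
structure Good (α C : ℝ) : Prop where
  one_lt : 1 < α
  le : α ≤ 3 / 2
  err0 : ∀ s : ℝ, 0 ≤ s → |Phi α s - exp (-s)| ≤ C * (α - 1) * (1 + s) ^ (-(3 / 2) : ℝ)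
  err1 : ∀ s : ℝ, 0 ≤ s → |Phi1 α s - exp (-s)| ≤ C * (α - 1) * (1 + s) ^ (-(3 / 2) : ℝ)
  err2 : ∀ s : ℝ, 0 ≤ s → |Phi2 α s - exp (-s)| ≤ C * (α - 1) * (1 + s) ^ (-(3 / 2) : ℝ)
  dec0 : ∀ s : ℝ, 0 ≤ s → |Phi α s| ≤ (1 + s)⁻¹
  dec1 : ∀ s : ℝ, 0 ≤ s → |Phi1 α s| ≤ 2 * (1 + s)⁻¹

/-- Log-concavity of `Phi` on `[0,T]`, with modulus `(α-1)/4`. -/
structure Slope (α T : ℝ) : Prop where
  pos : ∀ s ∈ Icc (0 : ℝ) T, 0 < Phi α s
  nn : ∀ s ∈ Icc (0 : ℝ) T, NN α s ≤ -((α - 1) / 4 * exp (-s))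
  slope : ∀ a b : ℝ, 0 ≤ b → b ≤ a → a ≤ T →
    (α - 1) / 4 * (a - b) * (Phi α a * Phi α b) ≤ Phi1 α a * Phi α b - Phi α a * Phi1 α b

/-- The product over all coordinates different from `i` and `j`. -/
noncomputable def Rf (α : ℝ) {n : ℕ} (x : Fin n → ℝ) (i j : Fin n) (s : ℝ) : ℝ :=
  ∏ k ∈ (Finset.univ.erase i).erase j, Phi α (x k * s)

/-- The derivative of `J` in the direction `e_j - e_i`. -/
noncomputable def IJ (α : ℝ) {n : ℕ} (x : Fin n → ℝ) (i j : Fin n) : ℝ :=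
  ∫ s in Ioi (0 : ℝ), s * (Phi1 α (x i * s) * Phi α (x j * s) -
    Phi α (x i * s) * Phi1 α (x j * s)) * Rf α x i j s

/-- Move the mass `t` from coordinate `i` to coordinate `j`. -/
def mv {n : ℕ} (x : Fin n → ℝ) (i j : Fin n) (t : ℝ) : Fin n → ℝ :=
  Function.update (Function.update x i (x i - t)) j (x j + t)

/-- `(n-1) log (n/(n-1))`. -/
noncomputable def bn (n : ℕ) : ℝ := ((n : ℝ) - 1) * log (n / ((n : ℝ) - 1))

end LpSec

end

section
/-!
# N01 Ker: bounds on `K 2`, `K 3`, and the function `kap0`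

* recursion `K_rec`: `u K 2 u = K 1 u - K 0 u`, `u K 3 u = 2 K 2 u - K 1 u`. `|K 0|, |K 1| ≤ 1`
  (`K_abs_le`) give `|K 2 u| ≤ 2/u`. From `K1_sq_le` (`u K1² ≤ 1`): `|K 1 u| ≤ u^{-1/2}`. So for
  `u ≥ 1`: `|K 3 u| ≤ (4/u + u^{-1/2})/u ≤ 5 u^{-3/2}`; for `u ≤ 1`: `|K 3| ≤ 1/6 ≤ 5 u^{-3/2}`.
* `exp_mul_K2`: power series: `∫ e^{-ρ} ρ^{m+1} = (m+1)!`, both sides are
  `∑ (-s)^m/(m! (m+2))` (`hasSum_integral_of_summable_integral_norm` or the method of `exp_K` in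
  `GamX.lean`). Alternative: `K 2 u = ∫_0^1 w K 1 (u w) dw` and `∫ e^{-ρ} ρ K 1 (s ρ) = e^{-s}`.
* `kap0`: `e^{-s} ≤ e^{-sw} ≤ 1` for `0 ≤ w ≤ 1`.
* `kap0_laplace`: Fubini: `∫_0^∞ e^{-(n-1)s} e^{-sw} ds = 1/(n-1+w)` and
  `∫_0^1 w/(n-1+w) dw = 1 - (n-1) log (n/(n-1))` (antiderivative `w - (n-1) log (n-1+w)`).
-/

open Real MeasureTheory Set Filter Topology

namespace LpSec

theorem K2_abs_le_div {u : ℝ} (hu : 0 < u) : |K 2 u| ≤ 2 / u := by
  have h := K_rec 0 u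
  have h0 := K_abs_le 0 hu.le
  have h1 := K_abs_le 1 hu.le
  simp only [Nat.cast_zero, zero_add, one_mul, Nat.factorial_zero, Nat.factorial_one,
    Nat.cast_one, div_one] at h h0 h1
  rw [le_div_iff₀ hu]
  have h2 : |K 2 u| * u = |u * K 2 u| := by
    rw [abs_mul, abs_of_pos hu, mul_comm]
  rw [h2, h]
  calc |K 1 u - K 0 u| ≤ |K 1 u| + |K 0 u| := abs_sub _ _
    _ ≤ 2 := by linarith

theorem K3_abs_le {u : ℝ} (hu : 0 < u) : |K 3 u| ≤ 5 * u ^ (-(3 / 2) : ℝ) := by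
  set t : ℝ := u ^ (-(1 / 2) : ℝ) with ht
  have ht0 : 0 < t := Real.rpow_pos_of_pos hu _
  have ht2 : t ^ 2 = u⁻¹ := by
    rw [ht, ← Real.rpow_natCast, ← Real.rpow_mul hu.le, ← Real.rpow_neg_one]
    congr 1
    norm_num
  have ht3 : u ^ (-(3 / 2) : ℝ) = t ^ 3 := by
    rw [ht, ← Real.rpow_natCast, ← Real.rpow_mul hu.le]
    congr 1
    norm_num
  rw [ht3]
  rcases le_total u 1 with h1 | h1
  · have h2 := K_abs_le 3 hu.le
    have h3 : 1 ≤ t := by
      rw [ht]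
      exact Real.one_le_rpow_of_pos_of_le_one_of_nonpos hu h1 (by norm_num)
    have h4 : 1 ≤ t ^ 3 := one_le_pow₀ h3
    have h5 : (1 : ℝ) / ((3 : ℕ).factorial : ℝ) = 1 / 6 := by norm_num [Nat.factorial]
    rw [h5] at h2
    linarith
  · have h := K_rec 1 u
    have hK1 : |K 1 u| ≤ t := by
      have h2 := K1_sq_le hu.le
      have h3 : K 1 u ^ 2 ≤ t ^ 2 := by
        rw [ht2, ← one_div, le_div_iff₀ hu]
        linarith
      exact abs_le_of_sq_le_sq h3 ht0.le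
    have hK2 : |K 2 u| ≤ 2 * t ^ 2 := by
      have := K2_abs_le_div hu
      rw [ht2]
      exact this
    have htle : t ≤ 1 := by
      rw [ht]
      exact Real.rpow_le_one_of_one_le_of_nonpos h1 (by norm_num)
    have h3 : |K 3 u| = |u * K 3 u| * t ^ 2 := by
      rw [abs_mul, abs_of_pos hu, ht2]
      field_simp
    have h4 : |u * K 3 u| ≤ 4 * t ^ 2 + t := by
      have h5 : u * K 3 u = (1 + 1) * K 2 u - K 1 u := by
        have := h
        simpa using this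
      rw [h5]
      calc |(1 + 1) * K 2 u - K 1 u| ≤ |(1 + 1) * K 2 u| + |K 1 u| := abs_sub _ _
        _ = 2 * |K 2 u| + |K 1 u| := by rw [abs_mul]; norm_num
        _ ≤ 4 * t ^ 2 + t := by linarith
    rw [h3]
    have h6 : |u * K 3 u| * t ^ 2 ≤ (4 * t ^ 2 + t) * t ^ 2 :=
      mul_le_mul_of_nonneg_right h4 (by positivity)
    have h7 : t ^ 4 ≤ t ^ 3 := pow_le_pow_of_le_one ht0.le htle (by norm_num)
    nlinarith

theorem kap0_hasSum (s : ℝ) :
    HasSum (fun m : ℕ => (-s) ^ m / ((m.factorial : ℝ) * (m + 2))) (kap0 s) := by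
  have h : HasSum (fun m : ℕ => ∫ w in (0 : ℝ)..1, w * ((-(s * w)) ^ m / (m.factorial : ℝ)))
      (∫ w in (0 : ℝ)..1, w * exp (-(s * w))) := by
    refine intervalIntegral.hasSum_integral_of_dominated_convergence
      (fun m _ => |s| ^ m / (m.factorial : ℝ)) ?_ ?_ ?_ ?_ ?_
    · intro m
      exact (by fun_prop : Continuous fun w : ℝ =>
        w * ((-(s * w)) ^ m / (m.factorial : ℝ))).aestronglyMeasurable
    · intro m
      refine Filter.Eventually.of_forall fun w hw => ?_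
      rw [uIoc_of_le zero_le_one] at hw
      have hw0 : |w| ≤ 1 := by rw [abs_of_pos hw.1]; exact hw.2
      rw [norm_mul, norm_div, norm_pow, norm_neg, norm_mul]
      simp only [Real.norm_eq_abs, Nat.abs_cast]
      have h1 : (|s| * |w|) ^ m ≤ |s| ^ m :=
        pow_le_pow_left₀ (by positivity) (mul_le_of_le_one_right (abs_nonneg s) hw0) m
      calc |w| * ((|s| * |w|) ^ m / (m.factorial : ℝ))
          ≤ 1 * ((|s| * |w|) ^ m / (m.factorial : ℝ)) :=
            mul_le_mul_of_nonneg_right hw0 (by positivity)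
        _ ≤ |s| ^ m / (m.factorial : ℝ) := by
            rw [one_mul]
            exact div_le_div_of_nonneg_right h1 (by positivity)
    · exact Filter.Eventually.of_forall fun w _ => Real.summable_pow_div_factorial |s|
    · exact intervalIntegrable_const
    · refine Filter.Eventually.of_forall fun w _ => ?_
      refine HasSum.mul_left w ?_
      have h := NormedSpace.expSeries_div_hasSum_exp (𝔸 := ℝ) (-(s * w))
      rw [Real.exp_eq_exp_ℝ]
      exact h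
  have e : ∀ m : ℕ, ∫ w in (0 : ℝ)..1, w * ((-(s * w)) ^ m / (m.factorial : ℝ)) =
      (-s) ^ m / ((m.factorial : ℝ) * (m + 2)) := by
    intro m
    have e1 : ∀ w : ℝ, w * ((-(s * w)) ^ m / (m.factorial : ℝ)) =
        (-s) ^ m / (m.factorial : ℝ) * w ^ (m + 1) := by
      intro w
      rw [show -(s * w) = (-s) * w by ring, mul_pow, pow_succ]
      ring
    simp_rw [e1]
    rw [intervalIntegral.integral_const_mul, integral_pow]
    have hm : (m.factorial : ℝ) ≠ 0 := by exact_mod_cast Nat.factorial_ne_zero m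
    have hm2 : (m : ℝ) + 2 ≠ 0 := by positivity
    have hm3 : (((m + 1 : ℕ) : ℝ) + 1) = m + 2 := by push_cast; ring
    rw [hm3, one_pow, zero_pow (by omega), sub_zero]
    field_simp
  simp_rw [e] at h
  exact h

theorem exp_mul_K2 {s : ℝ} (hs : 0 ≤ s) :
    ∫ ρ in Ioi (0 : ℝ), exp (-ρ) * ρ * K 2 (s * ρ) = kap0 s := by
  have key : ∀ (m : ℕ) (ρ : ℝ),
      exp (-ρ) * ρ * ((-(s * ρ)) ^ m / ((m.factorial : ℝ) * ((m + 2).factorial : ℝ))) =
        ((-s) ^ m / ((m.factorial : ℝ) * ((m + 2).factorial : ℝ))) *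
          (exp (-ρ) * ρ ^ (m + 1)) := by
    intro m ρ
    rw [show -(s * ρ) = (-s) * ρ by ring, mul_pow, pow_succ]
    ring
  have hfac : ∀ m : ℕ, ((m + 2).factorial : ℝ) = (m + 2) * ((m + 1).factorial : ℝ) := by
    intro m
    rw [Nat.factorial_succ (m + 1)]
    push_cast
    ring
  have hint : ∀ m : ℕ, Integrable
      (fun ρ : ℝ => exp (-ρ) * ρ *
        ((-(s * ρ)) ^ m / ((m.factorial : ℝ) * ((m + 2).factorial : ℝ))))
      (volume.restrict (Ioi 0)) := by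
    intro m
    have h : Integrable (fun ρ : ℝ =>
        ((-s) ^ m / ((m.factorial : ℝ) * ((m + 2).factorial : ℝ))) *
          (exp (-ρ) * ρ ^ (m + 1)))
        (volume.restrict (Ioi 0)) := (exp_pow_integrable (m + 1)).const_mul _
    exact h.congr (Filter.Eventually.of_forall fun ρ => (key m ρ).symm)
  have hval : ∀ m : ℕ, (∫ ρ in Ioi (0 : ℝ),
      exp (-ρ) * ρ * ((-(s * ρ)) ^ m / ((m.factorial : ℝ) * ((m + 2).factorial : ℝ)))) =
        (-s) ^ m / ((m.factorial : ℝ) * (m + 2)) := by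
    intro m
    simp_rw [key m]
    rw [integral_const_mul, exp_pow_integral, hfac]
    have h1 : (m.factorial : ℝ) ≠ 0 := by positivity
    have h2 : ((m + 1).factorial : ℝ) ≠ 0 := by positivity
    have h3 : (m : ℝ) + 2 ≠ 0 := by positivity
    field_simp
  have hnorm : ∀ m : ℕ, (∫ ρ in Ioi (0 : ℝ),
      ‖exp (-ρ) * ρ * ((-(s * ρ)) ^ m / ((m.factorial : ℝ) * ((m + 2).factorial : ℝ)))‖) =
        s ^ m / ((m.factorial : ℝ) * (m + 2)) := by
    intro m
    have : ∀ ρ ∈ Ioi (0 : ℝ),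
        ‖exp (-ρ) * ρ * ((-(s * ρ)) ^ m / ((m.factorial : ℝ) * ((m + 2).factorial : ℝ)))‖ =
        (s ^ m / ((m.factorial : ℝ) * ((m + 2).factorial : ℝ))) *
          (exp (-ρ) * ρ ^ (m + 1)) := by
      intro ρ hρ
      have hρ' : (0 : ℝ) < ρ := hρ
      rw [key m, norm_mul, norm_mul, norm_div, norm_pow, norm_pow, norm_mul, norm_neg]
      simp only [Real.norm_eq_abs, Nat.abs_cast, abs_of_nonneg hs, abs_of_pos hρ', abs_exp]
    rw [setIntegral_congr_fun measurableSet_Ioi this, integral_const_mul, exp_pow_integral, hfac]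
    have h1 : (m.factorial : ℝ) ≠ 0 := by positivity
    have h2 : ((m + 1).factorial : ℝ) ≠ 0 := by positivity
    have h3 : (m : ℝ) + 2 ≠ 0 := by positivity
    field_simp
  have hsum : Summable fun m : ℕ => ∫ ρ in Ioi (0 : ℝ),
      ‖exp (-ρ) * ρ * ((-(s * ρ)) ^ m / ((m.factorial : ℝ) * ((m + 2).factorial : ℝ)))‖ := by
    simp_rw [hnorm]
    refine Summable.of_nonneg_of_le (fun m => by positivity) (fun m => ?_)
      (Real.summable_pow_div_factorial s)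
    have h1 : (0 : ℝ) < (m.factorial : ℝ) := by positivity
    refine div_le_div_of_nonneg_left (by positivity) h1 ?_
    have : (0 : ℝ) ≤ m := Nat.cast_nonneg m
    nlinarith
  have h := hasSum_integral_of_summable_integral_norm hint hsum
  simp_rw [hval] at h
  have e : (∫ ρ in Ioi (0 : ℝ), ∑' m : ℕ,
      exp (-ρ) * ρ * ((-(s * ρ)) ^ m / ((m.factorial : ℝ) * ((m + 2).factorial : ℝ)))) =
      ∫ ρ in Ioi (0 : ℝ), exp (-ρ) * ρ * K 2 (s * ρ) := by
    congr 1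
    ext ρ
    rw [tsum_mul_left]
    rfl
  rw [e] at h
  exact h.unique (kap0_hasSum s)

theorem kap0_int_w : ∫ w in (0 : ℝ)..1, w = 1 / 2 := by
  rw [integral_id]
  norm_num

theorem kap0_lower {s : ℝ} (hs : 0 ≤ s) : exp (-s) / 2 ≤ kap0 s := by
  have h1 : exp (-s) / 2 = ∫ w in (0 : ℝ)..1, w * exp (-s) := by
    rw [intervalIntegral.integral_mul_const, kap0_int_w]
    ring
  rw [h1]
  unfold kap0
  refine intervalIntegral.integral_mono_on zero_le_one
    ((by fun_prop : Continuous fun w : ℝ => w * exp (-s)).intervalIntegrable _ _)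
    ((by fun_prop : Continuous fun w : ℝ => w * exp (-(s * w))).intervalIntegrable _ _) ?_
  intro w hw
  refine mul_le_mul_of_nonneg_left (Real.exp_le_exp.2 ?_) hw.1
  nlinarith [hw.1, hw.2]

theorem kap0_upper {s : ℝ} (hs : 0 ≤ s) : kap0 s ≤ 1 / 2 := by
  rw [← kap0_int_w]
  unfold kap0
  refine intervalIntegral.integral_mono_on zero_le_one
    ((by fun_prop : Continuous fun w : ℝ => w * exp (-(s * w))).intervalIntegrable _ _)
    ((by fun_prop : Continuous fun w : ℝ => w).intervalIntegrable _ _) ?_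
  intro w hw
  have h1 : exp (-(s * w)) ≤ 1 := by
    rw [Real.exp_le_one_iff]
    have : 0 ≤ s * w := mul_nonneg hs hw.1
    linarith
  calc w * exp (-(s * w)) ≤ w * 1 := mul_le_mul_of_nonneg_left h1 hw.1
    _ = w := mul_one w

theorem kap0_continuous : Continuous kap0 := by
  unfold kap0
  exact intervalIntegral.continuous_parametric_intervalIntegral_of_continuous'
    (f := fun s w : ℝ => w * exp (-(s * w)))
    (by fun_prop : Continuous fun p : ℝ × ℝ => p.2 * exp (-(p.1 * p.2))) 0 1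

theorem kap0_int_frac {a : ℝ} (ha : 0 < a) :
    ∫ w in (0 : ℝ)..1, w * (a + w)⁻¹ = 1 - a * log ((a + 1) / a) := by
  have h : ∀ w ∈ uIcc (0 : ℝ) 1, HasDerivAt (fun w => w - a * log (a + w)) (w * (a + w)⁻¹) w := by
    intro w hw
    rw [uIcc_of_le zero_le_one] at hw
    have h0 : a + w ≠ 0 := by linarith [hw.1]
    have h1 : HasDerivAt (fun w => log (a + w)) ((a + w)⁻¹) w := by
      have := ((hasDerivAt_id' w).const_add a).log h0
      simpa using this
    have h2 := (hasDerivAt_id' w).sub (h1.const_mul a)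
    refine h2.congr_deriv ?_
    field_simp
    ring
  rw [intervalIntegral.integral_eq_sub_of_hasDerivAt h]
  · rw [log_div (by linarith) ha.ne']
    simp only [add_zero]
    ring
  · refine ContinuousOn.intervalIntegrable ?_
    intro w hw
    rw [uIcc_of_le zero_le_one] at hw
    have h0 : a + w ≠ 0 := by linarith [hw.1]
    exact (continuousAt_id.mul ((continuousAt_const.add continuousAt_id).inv₀ h0)).continuousWithinAt

theorem kap0_laplace {n : ℕ} (hn : 2 ≤ n) :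
    IntegrableOn (fun s => exp (-(((n : ℝ) - 1) * s)) * kap0 s) (Ioi 0) ∧
    ∫ s in Ioi (0 : ℝ), exp (-(((n : ℝ) - 1) * s)) * kap0 s = 1 - bn n := by
  set a : ℝ := (n : ℝ) - 1 with ha
  have ha0 : 0 < a := by
    have : (2 : ℝ) ≤ n := by exact_mod_cast hn
    rw [ha]; linarith
  have hexp : IntegrableOn (fun s : ℝ => exp (-(a * s))) (Ioi 0) := by
    have := integrableOn_exp_mul_Ioi (a := -a) (by linarith) 0
    refine this.congr_fun (fun s _ => ?_) measurableSet_Ioi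
    simp only
    congr 1
    ring
  constructor
  · refine Integrable.mono' hexp ?_ ?_
    · exact ((by fun_prop : Continuous fun s : ℝ => exp (-(a * s))).mul
        kap0_continuous).aestronglyMeasurable
    · refine (ae_restrict_iff' measurableSet_Ioi).2 (Filter.Eventually.of_forall fun s hs => ?_)
      have hs' : (0 : ℝ) ≤ s := le_of_lt hs
      have h1 := kap0_upper hs'
      have h2 : 0 ≤ kap0 s := (by positivity : 0 ≤ exp (-s) / 2).trans (kap0_lower hs')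
      rw [norm_mul, Real.norm_eq_abs, Real.norm_eq_abs, abs_of_nonneg h2, abs_exp]
      calc exp (-(a * s)) * kap0 s ≤ exp (-(a * s)) * 1 :=
            mul_le_mul_of_nonneg_left (by linarith) (exp_pos _).le
        _ = exp (-(a * s)) := mul_one _
  · have hI : Integrable (Function.uncurry fun (w s : ℝ) => exp (-(a * s)) * (w * exp (-(s * w))))
        ((volume.restrict (uIoc (0 : ℝ) 1)).prod (volume.restrict (Ioi (0 : ℝ)))) := by
      have h1 : Integrable (fun _ : ℝ => (1 : ℝ)) (volume.restrict (uIoc (0 : ℝ) 1)) := by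
        rw [uIoc_of_le zero_le_one]
        exact integrable_const _
      have h2 := Integrable.mul_prod h1 hexp
      refine Integrable.mono' h2 ?_ ?_
      · exact (by fun_prop : Continuous fun z : ℝ × ℝ =>
          exp (-(a * z.2)) * (z.1 * exp (-(z.2 * z.1)))).aestronglyMeasurable
      · rw [Measure.prod_restrict]
        refine (ae_restrict_iff' (measurableSet_uIoc.prod measurableSet_Ioi)).2
          (Filter.Eventually.of_forall fun z hz => ?_)
        obtain ⟨hz1, hz2⟩ := hz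
        rw [uIoc_of_le zero_le_one] at hz1
        have hz2' : (0 : ℝ) < z.2 := hz2
        have h3 : exp (-(z.2 * z.1)) ≤ 1 := by
          rw [Real.exp_le_one_iff]
          have := mul_pos hz2' hz1.1
          linarith
        have h4 : z.1 * exp (-(z.2 * z.1)) ≤ 1 := by
          calc z.1 * exp (-(z.2 * z.1)) ≤ 1 * 1 :=
                mul_le_mul hz1.2 h3 (exp_pos _).le zero_le_one
            _ = 1 := one_mul 1
        have h5 : 0 ≤ z.1 * exp (-(z.2 * z.1)) := mul_nonneg hz1.1.le (exp_pos _).le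
        show ‖exp (-(a * z.2)) * (z.1 * exp (-(z.2 * z.1)))‖ ≤ 1 * exp (-(a * z.2))
        rw [norm_mul, Real.norm_eq_abs, Real.norm_eq_abs, abs_of_nonneg h5, abs_exp, one_mul]
        calc exp (-(a * z.2)) * (z.1 * exp (-(z.2 * z.1))) ≤ exp (-(a * z.2)) * 1 :=
              mul_le_mul_of_nonneg_left h4 (exp_pos _).le
          _ = exp (-(a * z.2)) := mul_one _
    have hsw := intervalIntegral_integral_swap hI
    have e1 : ∀ s : ℝ, exp (-(a * s)) * kap0 s =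
        ∫ w in (0 : ℝ)..1, exp (-(a * s)) * (w * exp (-(s * w))) := by
      intro s
      unfold kap0
      rw [intervalIntegral.integral_const_mul]
    simp_rw [e1]
    rw [← hsw]
    have e2 : ∀ w ∈ uIcc (0 : ℝ) 1, (∫ s in Ioi (0 : ℝ), exp (-(a * s)) * (w * exp (-(s * w)))) =
        w * (a + w)⁻¹ := by
      intro w hw
      rw [uIcc_of_le zero_le_one] at hw
      have h0 : 0 < a + w := by linarith [hw.1]
      have e3 : ∀ s : ℝ, exp (-(a * s)) * (w * exp (-(s * w))) = w * exp (-(a + w) * s) := by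
        intro s
        have : exp (-(a + w) * s) = exp (-(a * s)) * exp (-(s * w)) := by
          rw [← Real.exp_add]
          congr 1
          ring
        rw [this]
        ring
      simp_rw [e3]
      rw [integral_const_mul, integral_exp_mul_Ioi (by linarith) 0]
      rw [mul_zero, exp_zero]
      congr 1
      rw [neg_div_neg_eq, one_div]
    rw [intervalIntegral.integral_congr e2, kap0_int_frac ha0]
    unfold bn
    rw [← ha]
    congr 3
    rw [ha]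
    ring

end LpSec

end

section
/-!
# N02 Par: first order estimates in `δ = α - 1`
-/

open Real MeasureTheory Set Filter Topology

namespace LpSec

theorem G_eq {α ρ : ℝ} (hα : 1 < α) (hρ : 0 < ρ) : G α ρ = ρ * A1 α ρ * F α ρ := by
  have hmu := mu_pos (by linarith : 0 < α)
  unfold G A1 F
  rw [mul_rpow hmu.le hρ.le]
  have h1 : ρ ^ α = ρ * ρ ^ (α - 1) := by
    rw [rpow_sub_one hρ.ne']; field_simp
  rw [h1]; ring

theorem par_mu_one : mu 1 = 1 := by
  unfold mu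
  have h1 : Gamma (1 + 2 / 1) = 2 := by
    have : (1 : ℝ) + 2 / 1 = 2 + 1 := by norm_num
    rw [this, Gamma_add_one (by norm_num)]
    have : (2 : ℝ) = 1 + 1 := by norm_num
    rw [this, Gamma_add_one (by norm_num), Gamma_one]; norm_num
  have h2 : Gamma (1 + 1 / 1) = 1 := by
    rw [div_one, Gamma_add_one (by norm_num), Gamma_one]; norm_num
  rw [h1, h2]; norm_num

theorem par_DD_one : DD 1 = 1 := by
  rw [DD_eq one_pos, par_mu_one, div_one, div_one, Gamma_add_one (by norm_num), Gamma_one]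
  norm_num

theorem par_gam {c : ℝ} (hc : 0 < c) : DifferentiableAt ℝ (fun α : ℝ => Gamma (1 + c / α)) 1 := by
  have h1 : DifferentiableAt ℝ (fun α : ℝ => 1 + c / α) 1 := by
    refine (differentiableAt_const _).add ?_
    exact (differentiableAt_const _).div differentiableAt_id one_ne_zero
  have h2 : DifferentiableAt ℝ Gamma (1 + c / 1) := by
    refine differentiableAt_Gamma fun m => ?_
    have : (0 : ℝ) ≤ m := Nat.cast_nonneg m
    intro h
    rw [div_one] at h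
    linarith
  have h3 := DifferentiableAt.comp (f := fun α : ℝ => 1 + c / α) (g := Gamma) (1 : ℝ) h2 h1
  exact h3

theorem par_mu_diff : DifferentiableAt ℝ mu 1 := by
  have h1 := par_gam (c := 2) (by norm_num)
  have h2 := par_gam (c := 1) (by norm_num)
  have h3 : (2 : ℝ) * Gamma (1 + 1 / 1) ≠ 0 := by
    have : 0 < Gamma (1 + 1 / 1) := Gamma_pos_of_pos (by norm_num)
    positivity
  exact h1.div (h2.const_mul 2) h3

theorem par_DD_diff : DifferentiableAt ℝ DD 1 := by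
  have h1 := par_gam (c := 2) (by norm_num)
  have h2 := par_gam (c := 1) (by norm_num)
  have h3 : Gamma (1 + 2 / 1) ≠ 0 := by
    have : 0 < Gamma (1 + 2 / 1) := Gamma_pos_of_pos (by norm_num)
    positivity
  exact ((h2.pow 2).const_mul 2).div h1 h3

theorem par_pow_diff : DifferentiableAt ℝ (fun α => mu α ^ α) 1 := by
  refine par_mu_diff.rpow differentiableAt_id ?_
  rw [par_mu_one]; exact one_ne_zero

/-- Lipschitz estimate at `1` of a function differentiable at `1` -/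
theorem par_lip {f : ℝ → ℝ} (hf : DifferentiableAt ℝ f 1) (h1 : f 1 = 1) :
    ∃ C > 0, ∃ a > 1, ∀ α, 1 < α → α ≤ a → |f α - 1| ≤ C * (α - 1) := by
  obtain ⟨C, hC, hO⟩ := hf.isBigO_sub.exists_pos
  rw [Asymptotics.isBigOWith_iff, h1] at hO
  obtain ⟨ε, hε, hε'⟩ := Metric.eventually_nhds_iff.1 hO
  refine ⟨C, hC, 1 + ε / 2, by linarith, fun α hα hα' => ?_⟩
  have h2 := hε' (y := α) (by
    rw [dist_eq_norm, norm_eq_abs, abs_of_pos (by linarith)]; linarith)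
  rwa [norm_eq_abs, norm_eq_abs, abs_of_pos (by linarith : 0 < α - 1)] at h2

theorem par_const : ∃ C > 0, ∃ a > 1, a ≤ 3 / 2 ∧ ∀ α : ℝ, 1 < α → α ≤ a →
    |mu α - 1| ≤ C * (α - 1) ∧ |DD α - 1| ≤ C * (α - 1) ∧ |mu α ^ α - 1| ≤ C * (α - 1) ∧
    |α * mu α ^ α - 1| ≤ C * (α - 1) ∧ C * (α - 1) ≤ 1 / 20 := by
  obtain ⟨C1, hC1, a1, ha1, h1⟩ := par_lip par_mu_diff par_mu_one
  obtain ⟨C2, hC2, a2, ha2, h2⟩ := par_lip par_DD_diff par_DD_one
  obtain ⟨C3, hC3, a3, ha3, h3⟩ := par_lip par_pow_diff (by simp [par_mu_one])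
  obtain ⟨C4, hC4, a4, ha4, h4⟩ := par_lip (f := fun α => α * mu α ^ α)
    (differentiableAt_id.mul par_pow_diff) (by simp [par_mu_one])
  set C := C1 + C2 + C3 + C4 with hC
  have hC0 : 0 < C := by positivity
  refine ⟨C, hC0, min (min (min a1 a2) (min a3 a4)) (min (3 / 2) (1 + 1 / (20 * C))), ?_, ?_, ?_⟩
  · refine lt_min (lt_min (lt_min ha1 ha2) (lt_min ha3 ha4)) (lt_min (by norm_num) ?_)
    have : 0 < 1 / (20 * C) := by positivity
    linarith
  · exact (min_le_right _ _).trans (min_le_left _ _)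
  · intro α hα hα'
    have e1 : α ≤ a1 := hα'.trans ((min_le_left _ _).trans ((min_le_left _ _).trans
      (min_le_left _ _)))
    have e2 : α ≤ a2 := hα'.trans ((min_le_left _ _).trans ((min_le_left _ _).trans
      (min_le_right _ _)))
    have e3 : α ≤ a3 := hα'.trans ((min_le_left _ _).trans ((min_le_right _ _).trans
      (min_le_left _ _)))
    have e4 : α ≤ a4 := hα'.trans ((min_le_left _ _).trans ((min_le_right _ _).trans
      (min_le_right _ _)))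
    have e5 : α ≤ 1 + 1 / (20 * C) := hα'.trans ((min_le_right _ _).trans (min_le_right _ _))
    have hd : 0 < α - 1 := by linarith
    refine ⟨(h1 α hα e1).trans ?_, (h2 α hα e2).trans ?_, (h3 α hα e3).trans ?_,
      (h4 α hα e4).trans ?_, ?_⟩
    · gcongr; linarith
    · gcongr; linarith
    · gcongr; linarith
    · gcongr; linarith
    · calc C * (α - 1) ≤ C * (1 / (20 * C)) := by gcongr; linarith
        _ = 1 / 20 := by field_simp

/-- elementary estimates on `ρ ^ δ` -/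
theorem par_rpow {δ ρ : ℝ} (hδ : 0 < δ) (hδ1 : δ ≤ 1) (hρ : 0 < ρ) :
    0 < ρ ^ δ ∧ ρ ^ δ ≤ 1 + ρ ∧ |ρ ^ δ - 1| ≤ 4 * δ * (ρ ^ (-(1 / 4) : ℝ) * (1 + ρ) ^ 3) ∧
      ρ * |ρ ^ δ - 1| ≤ δ * (1 + ρ) ^ 3 := by
  have hq : 0 < ρ ^ (-(1 / 4) : ℝ) := rpow_pos_of_pos hρ _
  have hq1 : 1 ≤ ρ ^ (-(1 / 4) : ℝ) * (1 + ρ) := by
    have h1 : ρ ^ (-(1 / 4) : ℝ) = (ρ ^ (1 / 4 : ℝ))⁻¹ := rpow_neg hρ.le _
    have h2 : 0 < ρ ^ (1 / 4 : ℝ) := rpow_pos_of_pos hρ _
    have h3 : ρ ^ (1 / 4 : ℝ) ≤ 1 + ρ := by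
      rcases le_total ρ 1 with h | h
      · exact (rpow_le_one hρ.le h (by norm_num)).trans (by linarith)
      · calc ρ ^ (1 / 4 : ℝ) ≤ ρ ^ (1 : ℝ) := rpow_le_rpow_of_exponent_le h (by norm_num)
          _ = ρ := rpow_one ρ
          _ ≤ 1 + ρ := by linarith
    rw [h1, inv_mul_eq_div, le_div_iff₀ h2, one_mul]
    exact h3
  have hpos := rpow_pos_of_pos hρ δ
  rcases le_total ρ 1 with h | h
  · -- ρ ≤ 1
    have hle1 : ρ ^ δ ≤ 1 := rpow_le_one hρ.le h hδ.le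
    have hlog : log ρ ≤ 0 := log_nonpos hρ.le h
    have habs : |ρ ^ δ - 1| ≤ δ * (-log ρ) := by
      rw [abs_of_nonpos (by linarith)]
      have h1 := add_one_le_exp (log ρ * δ)
      rw [← rpow_def_of_pos hρ] at h1
      linarith
    have hlog4 : -log ρ ≤ 4 * ρ ^ (-(1 / 4) : ℝ) := by
      have h1 := add_one_le_exp (log ρ * (-(1 / 4)))
      rw [← rpow_def_of_pos hρ] at h1
      linarith
    have hlog1 : ρ * (-log ρ) ≤ 1 := by
      have h1 : log (ρ⁻¹) ≤ ρ⁻¹ - 1 := log_le_sub_one_of_pos (by positivity)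
      rw [log_inv] at h1
      calc ρ * (-log ρ) ≤ ρ * (ρ⁻¹ - 1) := by gcongr
        _ = 1 - ρ := by field_simp
        _ ≤ 1 := by linarith
    refine ⟨hpos, by linarith, ?_, ?_⟩
    · calc |ρ ^ δ - 1| ≤ δ * (4 * ρ ^ (-(1 / 4) : ℝ)) := habs.trans (by gcongr)
        _ = 4 * δ * (ρ ^ (-(1 / 4) : ℝ) * 1) := by ring
        _ ≤ 4 * δ * (ρ ^ (-(1 / 4) : ℝ) * (1 + ρ) ^ 3) := by
          gcongr
          exact one_le_pow₀ (by linarith)
    · calc ρ * |ρ ^ δ - 1| ≤ ρ * (δ * (-log ρ)) := by gcongr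
        _ = δ * (ρ * (-log ρ)) := by ring
        _ ≤ δ * 1 := by gcongr
        _ ≤ δ * (1 + ρ) ^ 3 := by
          gcongr
          exact one_le_pow₀ (by linarith)
  · have hρδ : ρ ^ δ ≤ ρ := by
      calc ρ ^ δ ≤ ρ ^ (1 : ℝ) := rpow_le_rpow_of_exponent_le h hδ1
        _ = ρ := rpow_one ρ
    have h1le : 1 ≤ ρ ^ δ := one_le_rpow h hδ.le
    have hlog : 0 ≤ log ρ := log_nonneg h
    have hlogρ : log ρ ≤ ρ := (log_le_sub_one_of_pos hρ).trans (by linarith)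
    have habs : |ρ ^ δ - 1| ≤ δ * ρ ^ 2 := by
      rw [abs_of_nonneg (by linarith)]
      have h1 := add_one_le_exp (-(log ρ * δ))
      rw [exp_neg, ← rpow_def_of_pos hρ] at h1
      have h2 : ρ ^ δ * (-(log ρ * δ) + 1) ≤ ρ ^ δ * (ρ ^ δ)⁻¹ := by gcongr
      rw [mul_inv_cancel₀ hpos.ne'] at h2
      calc ρ ^ δ - 1 ≤ δ * (log ρ * ρ ^ δ) := by linarith
        _ ≤ δ * (ρ * ρ) := by gcongr
        _ = δ * ρ ^ 2 := by ring
    have h2 : ρ ^ 2 ≤ (1 + ρ) ^ 2 := by gcongr; linarith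
    refine ⟨hpos, by linarith, ?_, ?_⟩
    · calc |ρ ^ δ - 1| ≤ δ * ρ ^ 2 := habs
        _ ≤ δ * (1 * (1 + ρ) ^ 2) := by rw [one_mul]; gcongr
        _ ≤ δ * ((ρ ^ (-(1 / 4) : ℝ) * (1 + ρ)) * (1 + ρ) ^ 2) := by gcongr
        _ = 1 * (δ * (ρ ^ (-(1 / 4) : ℝ) * (1 + ρ) ^ 3)) := by ring
        _ ≤ 4 * (δ * (ρ ^ (-(1 / 4) : ℝ) * (1 + ρ) ^ 3)) := by
          gcongr
          norm_num
        _ = _ := by ring
    · calc ρ * |ρ ^ δ - 1| ≤ ρ * (δ * ρ ^ 2) := by gcongr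
        _ ≤ (1 + ρ) * (δ * (1 + ρ) ^ 2) := by gcongr; linarith
        _ = δ * (1 + ρ) ^ 3 := by ring

set_option maxHeartbeats 2000000 in
theorem par : ∃ C > 0, ∃ α1 > 1, α1 ≤ 3 / 2 ∧ ∀ α : ℝ, 1 < α → α ≤ α1 →
    (1 / 2 ≤ mu α ∧ mu α ≤ 1 ∧ DD α ≤ 2) ∧
    (∀ ρ : ℝ, 0 < ρ → F α ρ ≤ 3 * exp (-(ρ / 2))) ∧
    (∀ ρ : ℝ, 0 < ρ → 0 ≤ A1 α ρ ∧ A1 α ρ ≤ 2 * (1 + ρ)) ∧
    (∀ ρ : ℝ, 0 < ρ → |1 - A1 α ρ| ≤ C * (α - 1) * ρ ^ (-(1 / 4) : ℝ) * (1 + ρ) ^ 3) ∧
    (∀ ρ : ℝ, 0 < ρ → |F α ρ - exp (-ρ)| ≤ C * (α - 1) * (1 + ρ) ^ 4 * exp (-(ρ / 2))) ∧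
    (∀ ρ : ℝ, 0 < ρ → Qf α ρ ≤ C * (α - 1) ^ 2 * (1 + ρ) ^ 8 * exp (-(ρ / 2))) ∧
    (∀ ρ : ℝ, 0 < ρ → |G α ρ - ρ * exp (-ρ)| ≤ C * (α - 1) * (1 + ρ) ^ 6 * exp (-(ρ / 2))) := by
  obtain ⟨C0, hC0, a, ha, ha', hc⟩ := par_const
  set C4 := C0 + 4 with hC4
  set C5 := 9 * C0 + 3 with hC5
  set C := C4 + C5 + 3 * C4 ^ 2 + 3 * C4 with hC
  have hC4p : 0 < C4 := by positivity
  have hC5p : 0 < C5 := by positivity
  refine ⟨C, by positivity, a, ha, ha', fun α hα hαa => ?_⟩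
  clear_value C C5 C4
  obtain ⟨h1, h2, h3, h4, h5⟩ := hc α hα hαa
  set δ := α - 1 with hδ
  clear_value δ
  have hδ0 : 0 < δ := by linarith
  have hδ1 : δ ≤ 1 := by linarith
  have hα0 : 0 < α := by linarith
  have hmu := mu_pos hα0
  have hmulow : 1 / 2 ≤ mu α := by
    have := (abs_le.1 (h1.trans h5)).1
    linarith
  have hpow : mu α ^ α < 1 / α := mu_rpow_lt hα
  have hmu1 : mu α ≤ 1 := by
    by_contra hcon
    push Not at hcon
    have k1 : 1 ≤ mu α ^ α := one_le_rpow hcon.le hα0.le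
    have k2 : 1 / α < 1 := by rw [div_lt_one hα0]; exact hα
    linarith
  have hDlow : 19 / 20 ≤ DD α := by
    have := (abs_le.1 (h2.trans h5)).1
    linarith
  have hDup : DD α ≤ 2 := by
    have := (abs_le.1 (h2.trans h5)).2
    linarith
  have hDpos : 0 < DD α := by linarith
  -- the exponent
  have hexp : ∀ ρ : ℝ, 0 < ρ → ρ / 2 - 1 ≤ (mu α * ρ) ^ α := by
    intro ρ hρ
    have hy : 0 < mu α * ρ := by positivity
    have k1 : mu α * ρ - 1 ≤ (mu α * ρ) ^ α := by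
      rcases le_total (mu α * ρ) 1 with h | h
      · exact (by linarith : mu α * ρ - 1 ≤ 0).trans (rpow_nonneg hy.le _)
      · have : (mu α * ρ) ^ (1 : ℝ) ≤ (mu α * ρ) ^ α := rpow_le_rpow_of_exponent_le h hα.le
        rw [rpow_one] at this
        linarith
    have k2 : 1 / 2 * ρ ≤ mu α * ρ := by gcongr
    linarith
  have he : exp 1 ≤ 2.72 := by
    have := exp_one_lt_d9
    linarith
  have hE : ∀ ρ : ℝ, 0 < ρ → exp (-(mu α * ρ) ^ α) ≤ 2.72 * exp (-(ρ / 2)) := by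
    intro ρ hρ
    calc exp (-(mu α * ρ) ^ α) ≤ exp (1 + -(ρ / 2)) := by
          apply exp_le_exp.2
          linarith [hexp ρ hρ]
      _ = exp 1 * exp (-(ρ / 2)) := exp_add _ _
      _ ≤ _ := by gcongr
  have hDinv : (DD α)⁻¹ ≤ 20 / 19 := by
    rw [inv_le_comm₀ hDpos (by norm_num)]; norm_num; exact hDlow
  have hF : ∀ ρ : ℝ, 0 < ρ → F α ρ ≤ 3 * exp (-(ρ / 2)) := by
    intro ρ hρ
    unfold F
    calc (DD α)⁻¹ * exp (-(mu α * ρ) ^ α) ≤ (20 / 19) * (2.72 * exp (-(ρ / 2))) := by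
          gcongr
          exact hE ρ hρ
      _ = (20 / 19 * 2.72) * exp (-(ρ / 2)) := by ring
      _ ≤ 3 * exp (-(ρ / 2)) := by gcongr; norm_num
  have hA1eq : ∀ ρ : ℝ, A1 α ρ = α * mu α ^ α * ρ ^ δ := fun ρ => by rw [hδ]; rfl
  have hαμ : α * mu α ^ α ≤ 1 := by
    have : α * mu α ^ α ≤ α * (1 / α) := by gcongr
    rwa [mul_one_div_cancel hα0.ne'] at this
  have hαμ0 : 0 < α * mu α ^ α := by positivity
  have hA1 : ∀ ρ : ℝ, 0 < ρ → 0 ≤ A1 α ρ ∧ A1 α ρ ≤ 2 * (1 + ρ) := by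
    intro ρ hρ
    obtain ⟨p1, p2, p3, p4⟩ := par_rpow hδ0 hδ1 hρ
    rw [hA1eq]
    refine ⟨by positivity, ?_⟩
    calc α * mu α ^ α * ρ ^ δ ≤ 1 * (1 + ρ) := by gcongr
      _ ≤ 2 * (1 + ρ) := by linarith
  have hqq : ∀ ρ : ℝ, 0 < ρ → 1 ≤ ρ ^ (-(1 / 4) : ℝ) * (1 + ρ) := by
    intro ρ hρ
    have h1 : ρ ^ (-(1 / 4) : ℝ) = (ρ ^ (1 / 4 : ℝ))⁻¹ := rpow_neg hρ.le _
    have h2 : 0 < ρ ^ (1 / 4 : ℝ) := rpow_pos_of_pos hρ _
    have h3 : ρ ^ (1 / 4 : ℝ) ≤ 1 + ρ := by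
      rcases le_total ρ 1 with h | h
      · exact (rpow_le_one hρ.le h (by norm_num)).trans (by linarith)
      · calc ρ ^ (1 / 4 : ℝ) ≤ ρ ^ (1 : ℝ) := rpow_le_rpow_of_exponent_le h (by norm_num)
          _ = ρ := rpow_one ρ
          _ ≤ 1 + ρ := by linarith
    rw [h1, inv_mul_eq_div, le_div_iff₀ h2, one_mul]
    exact h3
  have hA1s : ∀ ρ : ℝ, 0 < ρ → |1 - A1 α ρ| ≤ C4 * δ * (ρ ^ (-(1 / 4) : ℝ) * (1 + ρ) ^ 3) := by
    intro ρ hρ
    obtain ⟨p1, p2, p3, p4⟩ := par_rpow hδ0 hδ1 hρ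
    rw [hA1eq]
    have k1 : 1 - α * mu α ^ α * ρ ^ δ =
        -((α * mu α ^ α - 1) * ρ ^ δ) - (ρ ^ δ - 1) := by ring
    rw [k1]
    have k2 : |-((α * mu α ^ α - 1) * ρ ^ δ) - (ρ ^ δ - 1)| ≤
        |(α * mu α ^ α - 1) * ρ ^ δ| + |ρ ^ δ - 1| := by
      refine (abs_sub _ _).trans ?_
      rw [abs_neg]
    have k3 : |(α * mu α ^ α - 1) * ρ ^ δ| ≤ C0 * δ * (1 + ρ) := by
      rw [abs_mul, abs_of_pos p1]
      gcongr
    have hq := hqq ρ hρ
    have k4 : C0 * δ * (1 + ρ) ≤ C0 * δ * (ρ ^ (-(1 / 4) : ℝ) * (1 + ρ) ^ 3) := by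
      have : 1 + ρ ≤ ρ ^ (-(1 / 4) : ℝ) * (1 + ρ) ^ 3 := by
        calc 1 + ρ = 1 * (1 * (1 + ρ)) := by ring
          _ ≤ (ρ ^ (-(1 / 4) : ℝ) * (1 + ρ)) * ((1 + ρ) * (1 + ρ)) := by gcongr; linarith
          _ = _ := by ring
      gcongr
    calc _ ≤ _ := k2
      _ ≤ C0 * δ * (ρ ^ (-(1 / 4) : ℝ) * (1 + ρ) ^ 3) +
          4 * δ * (ρ ^ (-(1 / 4) : ℝ) * (1 + ρ) ^ 3) := add_le_add (k3.trans k4) p3
      _ = _ := by rw [hC4]; ring
  have hFs : ∀ ρ : ℝ, 0 < ρ → |F α ρ - exp (-ρ)| ≤ C5 * δ * (1 + ρ) ^ 4 * exp (-(ρ / 2)) := by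
    intro ρ hρ
    obtain ⟨p1, p2, p3, p4⟩ := par_rpow hδ0 hδ1 hρ
    have hA : (mu α * ρ) ^ α = mu α ^ α * (ρ * ρ ^ δ) := by
      rw [mul_rpow hmu.le hρ.le, hδ, rpow_sub_one hρ.ne']
      field_simp
    set A := (mu α * ρ) ^ α with hAdef
    have k1 : |A - ρ| ≤ (C0 + 1) * δ * (1 + ρ) ^ 3 := by
      have e1 : A - ρ = (mu α ^ α - 1) * (ρ * ρ ^ δ) + ρ * (ρ ^ δ - 1) := by rw [hA]; ring
      rw [e1]
      calc |(mu α ^ α - 1) * (ρ * ρ ^ δ) + ρ * (ρ ^ δ - 1)|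
          ≤ |(mu α ^ α - 1) * (ρ * ρ ^ δ)| + |ρ * (ρ ^ δ - 1)| := abs_add_le _ _
        _ = |mu α ^ α - 1| * (ρ * ρ ^ δ) + ρ * |ρ ^ δ - 1| := by
          rw [abs_mul (mu α ^ α - 1), abs_mul ρ (ρ ^ δ - 1),
            abs_of_pos (by positivity : 0 < ρ * ρ ^ δ), abs_of_pos hρ]
        _ ≤ C0 * δ * ((1 + ρ) * ((1 + ρ) * (1 + ρ))) + δ * (1 + ρ) ^ 3 := by
          refine add_le_add ?_ p4
          have e2 : ρ * ρ ^ δ ≤ (1 + ρ) * ((1 + ρ) * (1 + ρ)) := by
            calc ρ * ρ ^ δ ≤ (1 + ρ) * (1 + ρ) := by gcongr; linarith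
              _ = (1 + ρ) * (1 * (1 + ρ)) := by ring
              _ ≤ (1 + ρ) * ((1 + ρ) * (1 + ρ)) := by gcongr; linarith
          gcongr
        _ = _ := by ring
    have hEA : exp (-A) ≤ 2.72 * exp (-(ρ / 2)) := hE ρ hρ
    have hFA : F α ρ = (DD α)⁻¹ * exp (-A) := rfl
    clear_value A
    have hEρ : exp (-ρ) ≤ 2.72 * exp (-(ρ / 2)) := by
      have : exp (-ρ) ≤ exp (-(ρ / 2)) := exp_le_exp.2 (by linarith)
      linarith [exp_pos (-(ρ / 2))]
    have k2 : |exp (-A) - exp (-ρ)| ≤ |A - ρ| * (2.72 * exp (-(ρ / 2))) := by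
      rw [abs_le]
      constructor
      · have e1 := add_one_le_exp (-A - -ρ)
        rw [exp_sub, le_div_iff₀ (exp_pos _)] at e1
        have e2 : -|A - ρ| * exp (-ρ) ≤ (ρ - A) * exp (-ρ) := by
          gcongr
          rw [abs_sub_comm]; exact neg_abs_le _
        have e3 : |A - ρ| * exp (-ρ) ≤ |A - ρ| * (2.72 * exp (-(ρ / 2))) := by gcongr
        linarith
      · have e1 := add_one_le_exp (-ρ - -A)
        rw [exp_sub, le_div_iff₀ (exp_pos _)] at e1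
        have e2 : (ρ - A) * exp (-A) ≤ |A - ρ| * exp (-A) := by
          gcongr
          rw [abs_sub_comm]; exact le_abs_self _
        have e3 : |A - ρ| * exp (-A) ≤ |A - ρ| * (2.72 * exp (-(ρ / 2))) := by gcongr
        linarith
    have k3 : |(DD α)⁻¹ - 1| ≤ 2 * (C0 * δ) := by
      have e1 : (DD α)⁻¹ - 1 = (DD α)⁻¹ * (-(DD α - 1)) := by field_simp; ring
      rw [e1, abs_mul, abs_neg, abs_of_pos (by positivity)]
      gcongr
      linarith
    have k4 : F α ρ - exp (-ρ) = ((DD α)⁻¹ - 1) * exp (-A) + (exp (-A) - exp (-ρ)) := by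
      rw [hFA]; ring
    have hp4 : (1 + ρ) ^ 3 ≤ (1 + ρ) ^ 4 := pow_le_pow_right₀ (by linarith) (by norm_num)
    have hp5 : 1 ≤ (1 + ρ) ^ 4 := one_le_pow₀ (by linarith)
    rw [k4]
    calc _ ≤ |((DD α)⁻¹ - 1) * exp (-A)| + |exp (-A) - exp (-ρ)| := abs_add_le _ _
      _ ≤ 2 * (C0 * δ) * (3 * exp (-(ρ / 2))) + (C0 + 1) * δ * (1 + ρ) ^ 3 *
          (3 * exp (-(ρ / 2))) := by
        refine add_le_add ?_ (k2.trans ?_)
        · rw [abs_mul, abs_of_pos (exp_pos _)]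
          have : exp (-A) ≤ 3 * exp (-(ρ / 2)) := by linarith [exp_pos (-(ρ / 2))]
          gcongr
        · gcongr
          norm_num
      _ = δ * exp (-(ρ / 2)) * (6 * C0 * 1 + 3 * (C0 + 1) * (1 + ρ) ^ 3) := by ring
      _ ≤ δ * exp (-(ρ / 2)) * (6 * C0 * (1 + ρ) ^ 4 + 3 * (C0 + 1) * (1 + ρ) ^ 4) := by gcongr
      _ = _ := by rw [hC5]; ring
  have hsqp : 0 < C4 ^ 2 := by positivity
  have hC4C : C4 ≤ C := by rw [hC]; linarith
  have hC5C : C5 ≤ C := by rw [hC]; linarith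
  have hCp : 0 < C := by linarith
  refine ⟨⟨hmulow, hmu1, hDup⟩, hF, hA1, fun ρ hρ => ?_, fun ρ hρ => ?_, fun ρ hρ => ?_,
    fun ρ hρ => ?_⟩
  · have hq : 0 < ρ ^ (-(1 / 4) : ℝ) := rpow_pos_of_pos hρ _
    calc _ ≤ _ := hA1s ρ hρ
      _ ≤ C * δ * (ρ ^ (-(1 / 4) : ℝ) * (1 + ρ) ^ 3) := by gcongr
      _ = _ := by ring
  · calc _ ≤ _ := hFs ρ hρ
      _ ≤ _ := by gcongr
  · have hq : 0 < ρ ^ (-(1 / 4) : ℝ) := rpow_pos_of_pos hρ _
    have k1 := hA1s ρ hρ
    have k2 := hF ρ hρ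
    have k3 : (1 - A1 α ρ) ^ 2 ≤ (C4 * δ * (ρ ^ (-(1 / 4) : ℝ) * (1 + ρ) ^ 3)) ^ 2 := by
      rw [← sq_abs]; gcongr
    have k4 : ρ * (ρ ^ (-(1 / 4) : ℝ)) ^ 2 ≤ 1 + ρ := by
      have e1 : ρ * (ρ ^ (-(1 / 4) : ℝ)) ^ 2 = ρ ^ (1 / 2 : ℝ) := by
        rw [← rpow_natCast, ← rpow_mul hρ.le]
        nth_rewrite 1 [← rpow_one ρ]
        rw [← rpow_add hρ]
        norm_num
      rw [e1]
      rcases le_total ρ 1 with h | h
      · exact (rpow_le_one hρ.le h (by norm_num)).trans (by linarith)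
      · calc ρ ^ (1 / 2 : ℝ) ≤ ρ ^ (1 : ℝ) := rpow_le_rpow_of_exponent_le h (by norm_num)
          _ = ρ := rpow_one ρ
          _ ≤ 1 + ρ := by linarith
    unfold Qf
    have hF0 := F_pos hα0 ρ
    calc ρ ^ 2 * (1 - A1 α ρ) ^ 2 * F α ρ
        ≤ ρ ^ 2 * (C4 * δ * (ρ ^ (-(1 / 4) : ℝ) * (1 + ρ) ^ 3)) ^ 2 * (3 * exp (-(ρ / 2))) := by
          gcongr
      _ = (3 * C4 ^ 2) * δ ^ 2 * (ρ * ((ρ * (ρ ^ (-(1 / 4) : ℝ)) ^ 2) * (1 + ρ) ^ 6)) *
          exp (-(ρ / 2)) := by ring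
      _ ≤ C * δ ^ 2 * ((1 + ρ) * ((1 + ρ) * (1 + ρ) ^ 6)) * exp (-(ρ / 2)) := by
          have : 3 * C4 ^ 2 ≤ C := by rw [hC]; linarith
          gcongr
          linarith
      _ = _ := by ring
  · have hq : 0 < ρ ^ (-(1 / 4) : ℝ) := rpow_pos_of_pos hρ _
    have k1 := hA1s ρ hρ
    have k2 := hF ρ hρ
    have k3 := hFs ρ hρ
    have hF0 := F_pos hα0 ρ
    have k4 : ρ * ρ ^ (-(1 / 4) : ℝ) ≤ 1 + ρ := by
      have e1 : ρ * ρ ^ (-(1 / 4) : ℝ) = ρ ^ (3 / 4 : ℝ) := by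
        nth_rewrite 1 [← rpow_one ρ]
        rw [← rpow_add hρ]
        norm_num
      rw [e1]
      rcases le_total ρ 1 with h | h
      · exact (rpow_le_one hρ.le h (by norm_num)).trans (by linarith)
      · calc ρ ^ (3 / 4 : ℝ) ≤ ρ ^ (1 : ℝ) := rpow_le_rpow_of_exponent_le h (by norm_num)
          _ = ρ := rpow_one ρ
          _ ≤ 1 + ρ := by linarith
    have hp4 : (1 + ρ) ^ 4 ≤ (1 + ρ) ^ 6 := pow_le_pow_right₀ (by linarith) (by norm_num)
    have hp5 : (1 + ρ) ^ 5 ≤ (1 + ρ) ^ 6 := pow_le_pow_right₀ (by linarith) (by norm_num)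
    rw [G_eq hα hρ]
    have e1 : ρ * A1 α ρ * F α ρ - ρ * exp (-ρ) =
        -(ρ * (1 - A1 α ρ) * F α ρ) + ρ * (F α ρ - exp (-ρ)) := by ring
    rw [e1]
    calc _ ≤ |-(ρ * (1 - A1 α ρ) * F α ρ)| + |ρ * (F α ρ - exp (-ρ))| := abs_add_le _ _
      _ = ρ * |1 - A1 α ρ| * F α ρ + ρ * |F α ρ - exp (-ρ)| := by
        rw [abs_neg, abs_mul, abs_mul, abs_mul, abs_of_pos hρ, abs_of_pos hF0]
      _ ≤ ρ * (C4 * δ * (ρ ^ (-(1 / 4) : ℝ) * (1 + ρ) ^ 3)) * (3 * exp (-(ρ / 2))) +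
          (1 + ρ) * (C5 * δ * (1 + ρ) ^ 4 * exp (-(ρ / 2))) := by
        gcongr
        linarith
      _ = δ * exp (-(ρ / 2)) * (3 * C4 * ((ρ * ρ ^ (-(1 / 4) : ℝ)) * (1 + ρ) ^ 3) +
          C5 * (1 + ρ) ^ 5) := by ring
      _ ≤ δ * exp (-(ρ / 2)) * (3 * C4 * ((1 + ρ) * (1 + ρ) ^ 3) + C5 * (1 + ρ) ^ 5) := by
        gcongr
      _ = δ * exp (-(ρ / 2)) * (3 * C4 * (1 + ρ) ^ 4 + C5 * (1 + ρ) ^ 5) := by ring
      _ ≤ δ * exp (-(ρ / 2)) * (3 * C4 * (1 + ρ) ^ 6 + C5 * (1 + ρ) ^ 6) := by gcongr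
      _ = (3 * C4 + C5) * (δ * exp (-(ρ / 2)) * (1 + ρ) ^ 6) := by ring
      _ ≤ C * (δ * exp (-(ρ / 2)) * (1 + ρ) ^ 6) := by
        have : 3 * C4 + C5 ≤ C := by rw [hC]; linarith
        gcongr
      _ = _ := by ring

end LpSec

end

section
/-!
# N03 Form: `N(s) = ∫ (Q - δ G) K 2 (s ρ) dρ`

`Phi = ∫ G K 1 (s ρ)` (`Phi_eq_G`), `Phi1 = ∫ ρ F K 1 (s ρ)`, `Phi2 = ∫ ρ² F K 2 (s ρ)`. So
`N = ∫ (G - 2 ρ F) K 1 (s ρ) + ∫ ρ² F K 2 (s ρ)`. Write `G - 2ρF = ρ v`, `v = (A1 - 2) F` (`ρ > 0`),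
`v' = (A2 - A1² + 2 A1) F` with `A2 = δ A1/ρ` (derivative of `A1`), `F' = -A1 F`; and
`(ρ² K 2 (s ρ))' = ρ K 1 (s ρ)` (from `K_rec` and `K_hasDerivAt`: `(u² K 2 u)' = u K 1 u`). Integrate by
parts on `(0,∞)` (`MeasureTheory.integral_Ioi_mul_deriv_eq_deriv_mul` as in the proof of `Phi_eq_G`
in `Base.lean`; boundary terms `v ρ² K 2 (s ρ) → 0` at `0` and at `∞`):
`∫ ρ v K 1 = -∫ v' ρ² K 2`. Sum: `∫ ρ² F (1 + A1² - 2 A1 - A2) K 2 = ∫ (Q - δ G) K 2`, because
`ρ² A2 F = δ ρ A1 F = δ G`.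
Also state the continuity/integrability used later.
-/

open Real MeasureTheory Set Filter Topology

namespace LpSec

variable {α : ℝ}

theorem nf_G_eq {t : ℝ} (hα : 1 < α) (ht : 0 < t) : G α t = t * A1 α t * F α t := by
  have hmu := mu_pos (α := α) (by linarith)
  unfold G A1 F
  rw [mul_rpow hmu.le ht.le]
  have h : t * t ^ (α - 1) = t ^ α := by
    rw [rpow_sub_one ht.ne']
    field_simp
  rw [← h]
  ring

theorem nf_Q_eq {t : ℝ} (hα : 1 < α) (ht : 0 < t) : Qf α t =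
    t ^ 2 * F α t - 2 * (t * G α t) + (α * mu α ^ α) * (t ^ α * G α t) := by
  rw [nf_G_eq hα ht]
  unfold Qf
  have h : t * t ^ (α - 1) = t ^ α := by
    rw [rpow_sub_one ht.ne']
    field_simp
  rw [← h]
  unfold A1
  ring

theorem Qf_integrable (hα : 1 < α) : IntegrableOn (Qf α) (Ioi 0) := by
  have hα0 : 0 < α := by linarith
  have h1 := F_sq_mul_integrable hα
  have h2 := (G_mul_integrable hα).const_mul 2
  have h3 := (aux_Gmom hα0 (q := α) (by linarith)).1.const_mul (α * mu α ^ α)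
  exact IntegrableOn.congr_fun ((h1.sub h2).add h3) (fun t ht => (nf_Q_eq hα ht).symm)
    measurableSet_Ioi

theorem nf_A1_deriv {t : ℝ} (ht : 0 < t) :
    HasDerivAt (A1 α) ((α - 1) * A1 α t / t) t := by
  have h1 : HasDerivAt (fun t : ℝ => t ^ (α - 1)) ((α - 1) * t ^ (α - 1 - 1)) t :=
    hasDerivAt_rpow_const (Or.inl ht.ne')
  have h2 := h1.const_mul (α * mu α ^ α)
  refine h2.congr_deriv ?_
  unfold A1
  rw [rpow_sub_one ht.ne']
  ring

theorem nf_A1_cont (hα : 1 < α) : ContinuousOn (A1 α) (Ici 0) := by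
  unfold A1
  exact continuousOn_const.mul (continuousOn_id.rpow_const fun x _ => Or.inr (by linarith))

theorem NN_eq (hα : 1 < α) {s : ℝ} (hs : 0 ≤ s) :
    NN α s = ∫ ρ in Ioi (0 : ℝ), (Qf α ρ - (α - 1) * G α ρ) * K 2 (s * ρ) := by
  have hα0 : 0 < α := by linarith
  have hG := G_mul_K_integrable hα hs
  have hF1 := phic2_int (F_mul_integrable hα) 1 hs
  have hF2 := phic2_int (F_sq_mul_integrable hα) 2 hs
  have hQ := phic2_int ((Qf_integrable hα).sub ((G_integrable hα).const_mul (α - 1))) 2 hs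
  simp only [Pi.sub_apply] at hQ
  have hder : ∀ t ∈ Ioi (0 : ℝ), HasDerivAt (fun t => (A1 α t - 2) * F α t * (t ^ 2 * K 2 (s * t)))
      (G α t * K 1 (s * t) - 2 * (t * F α t * K 1 (s * t)) + t ^ 2 * F α t * K 2 (s * t)
        - (Qf α t - (α - 1) * G α t) * K 2 (s * t)) t := by
    intro t ht
    have ht0 : (0 : ℝ) < t := ht
    have h1 : HasDerivAt (fun t => s * t) s t := by
      simpa using (hasDerivAt_id t).const_mul s
    have h2 : HasDerivAt (fun t => K 2 (s * t)) (-(K 3 (s * t)) * s) t :=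
      (K_hasDerivAt 2 (s * t)).comp t h1
    have h3 : HasDerivAt (fun t : ℝ => t ^ 2) (2 * t) t := by
      simpa using hasDerivAt_pow 2 t
    have h4 := (((nf_A1_deriv (α := α) ht0).sub_const 2).mul (aux_F_deriv hα0 ht0)).mul (h3.mul h2)
    refine h4.congr_deriv ?_
    have h5 := K_rec 1 (s * t)
    simp only [Nat.cast_one] at h5
    have h6 : K 1 (s * t) = 2 * K 2 (s * t) - s * t * K 3 (s * t) := by
      have : (1 : ℝ) + 1 = 2 := by norm_num
      rw [this] at h5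
      have h7 : K (1 + 2) (s * t) = K 3 (s * t) := rfl
      have h8 : K (1 + 1) (s * t) = K 2 (s * t) := rfl
      rw [h7, h8] at h5
      linarith
    rw [h6]
    have hG' := nf_G_eq hα ht0
    have hQ' : Qf α t = t ^ 2 * (1 - A1 α t) ^ 2 * F α t := rfl
    simp only [Pi.mul_apply]
    rw [hQ', hG']
    field_simp
    ring
  have hcont : ContinuousWithinAt (fun t => (A1 α t - 2) * F α t * (t ^ 2 * K 2 (s * t)))
      (Ici 0) 0 := by
    have h1 : ContinuousWithinAt (F α) (Ici 0) 0 := F_continuousOn hα0 0 self_mem_Ici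
    have h2 : Continuous (fun t : ℝ => t ^ 2 * K 2 (s * t)) :=
      (continuous_pow 2).mul ((K_continuous 2).comp (continuous_const.mul continuous_id))
    have h3 : ContinuousWithinAt (A1 α) (Ici 0) 0 := nf_A1_cont hα 0 self_mem_Ici
    exact ((h3.sub continuousWithinAt_const).mul h1).mul h2.continuousWithinAt
  have hint : IntegrableOn (fun t => (A1 α t - 2) * F α t * (t ^ 2 * K 2 (s * t))) (Ioi 0) := by
    have h1 := phic2_int ((G_mul_integrable hα).sub ((F_sq_mul_integrable hα).const_mul 2)) 2 hs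
    refine h1.congr_fun (fun t ht => ?_) measurableSet_Ioi
    have ht0 : (0 : ℝ) < t := ht
    simp only [Pi.sub_apply]
    rw [nf_G_eq hα ht0]
    ring
  have hI1 : IntegrableOn (fun t => G α t * K 1 (s * t) - 2 * (t * F α t * K 1 (s * t))) (Ioi 0) :=
    hG.sub (hF1.const_mul 2)
  have hI2 : IntegrableOn (fun t => G α t * K 1 (s * t) - 2 * (t * F α t * K 1 (s * t))
      + t ^ 2 * F α t * K 2 (s * t)) (Ioi 0) := hI1.add hF2
  have hI3 : IntegrableOn (fun t => G α t * K 1 (s * t) - 2 * (t * F α t * K 1 (s * t))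
      + t ^ 2 * F α t * K 2 (s * t) - (Qf α t - (α - 1) * G α t) * K 2 (s * t)) (Ioi 0) :=
    hI2.sub hQ
  have hlim := tendsto_zero_of_hasDerivAt_of_integrableOn_Ioi hder hI3 hint
  have key := integral_Ioi_of_hasDerivAt_of_tendsto hcont hder hI3 hlim
  rw [integral_sub hI2 hQ, integral_add hI1 hF2, integral_sub hG (hF1.const_mul 2),
    integral_const_mul] at key
  have hz : (A1 α 0 - 2) * F α 0 * ((0 : ℝ) ^ 2 * K 2 (s * 0)) = 0 := by norm_num
  rw [hz, sub_zero] at key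
  unfold NN
  rw [Phi_eq_G hα hs]
  unfold Phi1 Phi2
  linarith

theorem NN_continuousOn (hα : 1 < α) : ContinuousOn (NN α) (Ici 0) := by
  unfold NN
  exact ((Phi_continuousOn hα).sub (continuousOn_const.mul (Phi1_continuousOn hα))).add
    (Phi2_continuousOn hα)

/-- `(e^s Phi)' = e^s (Phi - Phi1)` and `(e^s (Phi - Phi1))' = e^s N`, integrated. -/
theorem exp_mul_sub (hα : 1 < α) {s : ℝ} (hs : 0 ≤ s) :
    exp s * (Phi α s - Phi1 α s) = ∫ r in (0 : ℝ)..s, exp r * NN α r := by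
  have hsub : Icc (0 : ℝ) s ⊆ Ici 0 := fun x hx => hx.1
  have hc : ContinuousOn (fun r => exp r * (Phi α r - Phi1 α r)) (Icc 0 s) :=
    (continuous_exp.continuousOn.mul ((Phi_continuousOn hα).sub (Phi1_continuousOn hα))).mono hsub
  have hd : ∀ x ∈ Ioo (0 : ℝ) s, HasDerivAt (fun r => exp r * (Phi α r - Phi1 α r))
      (exp x * NN α x) x := by
    intro x hx
    have h := (Real.hasDerivAt_exp x).mul ((Phi_hasDerivAt hα hx.1).sub (Phi1_hasDerivAt hα hx.1))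
    refine h.congr_deriv ?_
    simp only [Pi.sub_apply]
    unfold NN
    ring
  have hi : IntervalIntegrable (fun r => exp r * NN α r) volume 0 s := by
    apply ContinuousOn.intervalIntegrable
    rw [uIcc_of_le hs]
    exact (continuous_exp.continuousOn.mul (NN_continuousOn hα)).mono hsub
  rw [intervalIntegral.integral_eq_sub_of_hasDerivAt_of_le hs hc hd hi, Phi_zero hα, Phi1_zero hα]
  ring

theorem exp_mul_Phi (hα : 1 < α) {s : ℝ} (hs : 0 ≤ s) :
    exp s * Phi α s = 1 + ∫ r in (0 : ℝ)..s, exp r * (Phi α r - Phi1 α r) := by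
  have hsub : Icc (0 : ℝ) s ⊆ Ici 0 := fun x hx => hx.1
  have hc : ContinuousOn (fun r => exp r * Phi α r) (Icc 0 s) :=
    (continuous_exp.continuousOn.mul (Phi_continuousOn hα)).mono hsub
  have hd : ∀ x ∈ Ioo (0 : ℝ) s, HasDerivAt (fun r => exp r * Phi α r)
      (exp x * (Phi α x - Phi1 α x)) x := by
    intro x hx
    have h := (Real.hasDerivAt_exp x).mul (Phi_hasDerivAt hα hx.1)
    refine h.congr_deriv ?_
    ring
  have hi : IntervalIntegrable (fun r => exp r * (Phi α r - Phi1 α r)) volume 0 s := by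
    apply ContinuousOn.intervalIntegrable
    rw [uIcc_of_le hs]
    exact (continuous_exp.continuousOn.mul
      ((Phi_continuousOn hα).sub (Phi1_continuousOn hα))).mono hsub
  rw [intervalIntegral.integral_eq_sub_of_hasDerivAt_of_le hs hc hd hi, Phi_zero hα, exp_zero]
  ring

end LpSec

end

section
/-!
# N04 Bound: `|N(s)| ≤ C δ (1+s)^{-3/2}`

For `s ≤ 1`: `|K 2| ≤ 1/2`, so `|N| ≤ (∫ Q + δ ∫ G)/2 ≤ C δ` (`par`, `G_integral`), and
`(1+s)^{-3/2} ≥ 2^{-3/2}`.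
For `s ≥ 1`: `Q - δ G = ρ² q`, `q = ((1-A1)² - A2) F` with `A2 = δ A1/ρ`. Since
`(ρ³ K 3 (s ρ))' = ρ² K 2 (s ρ)`, integration by parts gives `N = -∫ q' ρ³ K 3 (s ρ)` (boundary terms
`q ρ³ K 3 → 0`), with
`q' = (-2 (1-A1) A2 - A3) F - A1 ((1-A1)² - A2) F`, `A3 = A2' = δ (δ-1) A1/ρ²`. By `par`
(`|1-A1| ≤ C δ ρ^{-1/4} (1+ρ)^3`, `0 ≤ A1 ≤ 2(1+ρ)`, `F ≤ 3 e^{-ρ/2}`, `δ ≤ 1/2`):
`|q'| ≤ C' δ ρ^{-2} (1+ρ)^{10} e^{-ρ/2}` (use `ρ^{-1/4-1} ≤ ρ^{-2}(1+ρ)`, …). With `K3_abs_le`: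
`|N| ≤ 5 C' δ s^{-3/2} ∫ ρ^{-1/2} (1+ρ)^{10} e^{-ρ/2} dρ`, and `s^{-3/2} ≤ 2^{3/2} (1+s)^{-3/2}`.
-/

open Real MeasureTheory Set Filter Topology

namespace LpSec

/-- integrability of `ρ^a (1+ρ)^k e^{-ρ/2}` -/
theorem n04_int (k : ℕ) : ∀ a : ℝ, -1 < a →
    IntegrableOn (fun ρ : ℝ => ρ ^ a * (1 + ρ) ^ k * exp (-(ρ / 2))) (Ioi 0) := by
  induction k with
  | zero =>
    intro a ha
    have h := integrableOn_rpow_mul_exp_neg_mul_rpow (s := a) (p := 1) (b := 1 / 2) ha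
      (by norm_num) (by norm_num)
    refine h.congr_fun (fun ρ _ => ?_) measurableSet_Ioi
    simp only [rpow_one, pow_zero, mul_one]
    congr 2
    ring
  | succ k ih =>
    intro a ha
    refine ((ih a ha).add (ih (a + 1) (by linarith))).congr_fun (fun ρ hρ => ?_)
      measurableSet_Ioi
    have hρ' : (0 : ℝ) < ρ := hρ
    simp only [Pi.add_apply]
    rw [rpow_add hρ', rpow_one]
    ring

/-- `q = ((1-A1)² - A2) F` -/
noncomputable def n04_q (α ρ : ℝ) : ℝ :=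
  ((1 - A1 α ρ) ^ 2 - (α - 1) * A1 α ρ / ρ) * F α ρ

/-- the derivative of `q` -/
noncomputable def n04_q' (α ρ : ℝ) : ℝ :=
  (-2 * (1 - A1 α ρ) * ((α - 1) * A1 α ρ / ρ) - (α - 1) * (α - 2) * A1 α ρ / ρ ^ 2) * F α ρ -
    A1 α ρ * ((1 - A1 α ρ) ^ 2 - (α - 1) * A1 α ρ / ρ) * F α ρ

variable {α : ℝ}

theorem n04_A1_deriv {ρ : ℝ} (hρ : 0 < ρ) :
    HasDerivAt (A1 α) ((α - 1) * A1 α ρ / ρ) ρ := by
  have h1 : HasDerivAt (fun ρ : ℝ => ρ ^ (α - 1)) ((α - 1) * ρ ^ (α - 1 - 1)) ρ :=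
    hasDerivAt_rpow_const (Or.inl hρ.ne')
  have h2 := h1.const_mul (α * mu α ^ α)
  refine h2.congr_deriv ?_
  unfold A1
  rw [rpow_sub_one hρ.ne']
  ring

theorem n04_F_deriv (hα : 1 < α) {ρ : ℝ} (hρ : 0 < ρ) :
    HasDerivAt (F α) (-(A1 α ρ * F α ρ)) ρ := by
  refine (aux_F_deriv (by linarith) hρ).congr_deriv ?_
  rw [G_eq hα hρ]
  field_simp

theorem n04_q_deriv (hα : 1 < α) {ρ : ℝ} (hρ : 0 < ρ) :
    HasDerivAt (n04_q α) (n04_q' α ρ) ρ := by
  have hA := n04_A1_deriv (α := α) hρ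
  have hF := n04_F_deriv hα hρ
  have h1 : HasDerivAt (fun ρ => (1 - A1 α ρ) ^ 2 - (α - 1) * A1 α ρ / ρ)
      (2 * (1 - A1 α ρ) * (-((α - 1) * A1 α ρ / ρ)) -
        ((α - 1) * ((α - 1) * A1 α ρ / ρ) * ρ - (α - 1) * A1 α ρ * 1) / ρ ^ 2) ρ := by
    refine HasDerivAt.sub ?_ ?_
    · have := (hA.const_sub 1).pow 2
      refine this.congr_deriv ?_
      simp
    · exact (hA.const_mul (α - 1)).div (hasDerivAt_id ρ) hρ.ne'
  refine (h1.mul hF).congr_deriv ?_
  unfold n04_q'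
  field_simp
  ring

theorem n04_split (hα : 1 < α) {ρ : ℝ} (hρ : 0 < ρ) :
    Qf α ρ - (α - 1) * G α ρ = ρ ^ 2 * n04_q α ρ := by
  rw [G_eq hα hρ]
  unfold Qf n04_q
  field_simp

/-- the primitive -/
theorem n04_H_deriv (hα : 1 < α) (s : ℝ) {ρ : ℝ} (hρ : 0 < ρ) :
    HasDerivAt (fun ρ => n04_q α ρ * (ρ ^ 3 * K 3 (s * ρ)))
      (n04_q' α ρ * ρ ^ 3 * K 3 (s * ρ) + (Qf α ρ - (α - 1) * G α ρ) * K 2 (s * ρ)) ρ := by
  have h1 : HasDerivAt (fun t => s * t) s ρ := by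
    simpa using (hasDerivAt_id ρ).const_mul s
  have h2 : HasDerivAt (fun t => K 3 (s * t)) (-(K 4 (s * ρ)) * s) ρ :=
    (K_hasDerivAt 3 (s * ρ)).comp ρ h1
  have h3 : HasDerivAt (fun t : ℝ => t ^ 3) (3 * ρ ^ 2) ρ := by
    simpa using hasDerivAt_pow 3 ρ
  refine ((n04_q_deriv hα hρ).mul (h3.mul h2)).congr_deriv ?_
  rw [n04_split hα hρ]
  have h4 := K_rec 2 (s * ρ)
  have h5 : K 2 (s * ρ) = 3 * K 3 (s * ρ) - s * ρ * K 4 (s * ρ) := by
    norm_num at h4
    linarith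
  rw [h5]
  simp only [Pi.mul_apply]
  ring

theorem n04_meas_A1 : Measurable (A1 α) := by
  unfold A1
  fun_prop

theorem n04_meas_F : Measurable (F α) := by
  unfold F
  fun_prop

theorem n04_meas_q : Measurable (n04_q α) := by
  unfold n04_q
  have h1 := n04_meas_A1 (α := α)
  have h2 := n04_meas_F (α := α)
  fun_prop

theorem n04_meas_q' : Measurable (n04_q' α) := by
  unfold n04_q'
  have h1 := n04_meas_A1 (α := α)
  have h2 := n04_meas_F (α := α)
  fun_prop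

theorem n04_rpow_le {ρ a : ℝ} (hρ : 0 < ρ) (ha : 0 ≤ a) (ha1 : a ≤ 1) : ρ ^ a ≤ 1 + ρ := by
  rcases le_total ρ 1 with h | h
  · have := rpow_le_one hρ.le h ha
    linarith
  · have := rpow_le_rpow_of_exponent_le h ha1
    rw [rpow_one] at this
    linarith

/-- the pointwise estimates -/
theorem n04_pt {C : ℝ} (hC : 0 < C) (hα : 1 < α) (hα2 : α ≤ 3 / 2) {ρ : ℝ} (hρ : 0 < ρ)
    (hF : F α ρ ≤ 3 * exp (-(ρ / 2)))
    (hA : 0 ≤ A1 α ρ ∧ A1 α ρ ≤ 2 * (1 + ρ))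
    (hA' : |1 - A1 α ρ| ≤ C * (α - 1) * ρ ^ (-(1 / 4) : ℝ) * (1 + ρ) ^ 3) :
    ρ ^ 2 * |n04_q' α ρ| ≤
      3 * (2 * C ^ 2 + 4 * C + 6) * (α - 1) * ((1 + ρ) ^ 10 * exp (-(ρ / 2))) ∧
    ρ ^ 2 * |n04_q α ρ| ≤ 3 * (C ^ 2 + 2) * (ρ * (1 + ρ) ^ 7 * exp (-(ρ / 2))) := by
  obtain ⟨hA0, hA1⟩ := hA
  have hFp : 0 < F α ρ := F_pos (by linarith) ρ
  set A := A1 α ρ with hAdef
  set δ := α - 1 with hδdef
  have hδ : 0 < δ := by linarith
  have hδ1 : δ ≤ 1 / 2 := by linarith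
  set P := 1 + ρ with hP
  have hP1 : 1 ≤ P := by linarith
  have hP0 : 0 < P := by linarith
  have hρP : ρ ≤ P := by linarith
  -- (i) and (ii)
  have i1 : ρ * |1 - A| ≤ C * δ * P ^ 4 := by
    have h1 : ρ * ρ ^ (-(1 / 4) : ℝ) ≤ P := by
      have : ρ * ρ ^ (-(1 / 4) : ℝ) = ρ ^ (3 / 4 : ℝ) := by
        conv_lhs => rw [← rpow_one ρ]
        rw [← rpow_mul hρ.le, ← rpow_add hρ]
        norm_num
      rw [this]
      exact n04_rpow_le hρ (by norm_num) (by norm_num)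
    calc ρ * |1 - A| ≤ ρ * (C * δ * ρ ^ (-(1 / 4) : ℝ) * P ^ 3) :=
          mul_le_mul_of_nonneg_left hA' hρ.le
      _ = C * δ * P ^ 3 * (ρ * ρ ^ (-(1 / 4) : ℝ)) := by ring
      _ ≤ C * δ * P ^ 3 * P := mul_le_mul_of_nonneg_left h1 (by positivity)
      _ = C * δ * P ^ 4 := by ring
  have i2 : ρ * (1 - A) ^ 2 ≤ C ^ 2 * δ * P ^ 7 := by
    have h1 : ρ * (ρ ^ (-(1 / 4) : ℝ)) ^ 2 ≤ P := by
      have : ρ * (ρ ^ (-(1 / 4) : ℝ)) ^ 2 = ρ ^ (1 / 2 : ℝ) := by
        rw [← rpow_natCast, ← rpow_mul hρ.le]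
        conv_lhs => rw [← rpow_one ρ]
        rw [← rpow_mul hρ.le, ← rpow_add hρ]
        norm_num
      rw [this]
      exact n04_rpow_le hρ (by norm_num) (by norm_num)
    calc ρ * (1 - A) ^ 2 = ρ * |1 - A| ^ 2 := by rw [sq_abs]
      _ ≤ ρ * (C * δ * ρ ^ (-(1 / 4) : ℝ) * P ^ 3) ^ 2 := by
          refine mul_le_mul_of_nonneg_left ?_ hρ.le
          exact pow_le_pow_left₀ (abs_nonneg _) hA' 2
      _ = C ^ 2 * δ ^ 2 * P ^ 6 * (ρ * (ρ ^ (-(1 / 4) : ℝ)) ^ 2) := by ring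
      _ ≤ C ^ 2 * δ ^ 2 * P ^ 6 * P := mul_le_mul_of_nonneg_left h1 (by positivity)
      _ = C ^ 2 * δ * P ^ 7 * δ := by ring
      _ ≤ C ^ 2 * δ * P ^ 7 * 1 := mul_le_mul_of_nonneg_left (by linarith) (by positivity)
      _ = C ^ 2 * δ * P ^ 7 := by ring
  have hPpow : ∀ {m n : ℕ}, m ≤ n → P ^ m ≤ P ^ n := fun h => pow_le_pow_right₀ hP1 h
  constructor
  · -- the derivative
    have e1 : ρ ^ 2 * |n04_q' α ρ| = |(-2 * (ρ * (1 - A)) * (δ * A) - δ * (δ - 1) * A) -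
        A * (ρ * (ρ * (1 - A) ^ 2) - ρ * (δ * A))| * F α ρ := by
      have : ρ ^ 2 * n04_q' α ρ = ((-2 * (ρ * (1 - A)) * (δ * A) - δ * (δ - 1) * A) -
        A * (ρ * (ρ * (1 - A) ^ 2) - ρ * (δ * A))) * F α ρ := by
        unfold n04_q'
        rw [← hAdef]
        have : α - 2 = δ - 1 := by rw [hδdef]; ring
        rw [this, ← hδdef]
        field_simp
      rw [← abs_of_pos (pow_pos hρ 2), ← abs_mul, this, abs_mul, abs_of_pos hFp]
    rw [e1]
    have t1 : |-2 * (ρ * (1 - A)) * (δ * A)| ≤ 4 * C * δ * P ^ 10 := by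
      rw [abs_mul, abs_mul, abs_mul, abs_of_pos hρ, abs_of_nonneg (mul_nonneg hδ.le hA0)]
      have : |(-2 : ℝ)| = 2 := by norm_num
      rw [this]
      calc 2 * (ρ * |1 - A|) * (δ * A) ≤ 2 * (C * δ * P ^ 4) * (1 * (2 * P)) := by
            gcongr
            linarith
        _ = 4 * C * δ * P ^ 5 := by ring
        _ ≤ 4 * C * δ * P ^ 10 := by
            refine mul_le_mul_of_nonneg_left (hPpow (by norm_num)) (by positivity)
    have t2 : |δ * (δ - 1) * A| ≤ 2 * δ * P ^ 10 := by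
      rw [abs_mul, abs_mul, abs_of_pos hδ, abs_of_nonneg hA0]
      have : |δ - 1| ≤ 1 := by rw [abs_le]; constructor <;> linarith
      calc δ * |δ - 1| * A ≤ δ * 1 * (2 * P) := by gcongr
        _ = 2 * δ * P ^ 1 := by ring
        _ ≤ 2 * δ * P ^ 10 :=
            mul_le_mul_of_nonneg_left (hPpow (by norm_num)) (by positivity)
    have t3 : |A * (ρ * (ρ * (1 - A) ^ 2))| ≤ 2 * C ^ 2 * δ * P ^ 10 := by
      rw [abs_of_nonneg (by positivity)]
      calc A * (ρ * (ρ * (1 - A) ^ 2)) ≤ (2 * P) * (P * (C ^ 2 * δ * P ^ 7)) := by gcongr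
        _ = 2 * C ^ 2 * δ * P ^ 9 := by ring
        _ ≤ 2 * C ^ 2 * δ * P ^ 10 :=
            mul_le_mul_of_nonneg_left (hPpow (by norm_num)) (by positivity)
    have t4 : |A * (ρ * (δ * A))| ≤ 4 * δ * P ^ 10 := by
      rw [abs_of_nonneg (by positivity)]
      calc A * (ρ * (δ * A)) ≤ (2 * P) * (P * (δ * (2 * P))) := by gcongr
        _ = 4 * δ * P ^ 3 := by ring
        _ ≤ 4 * δ * P ^ 10 :=
            mul_le_mul_of_nonneg_left (hPpow (by norm_num)) (by positivity)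
    have hsum : |(-2 * (ρ * (1 - A)) * (δ * A) - δ * (δ - 1) * A) -
        A * (ρ * (ρ * (1 - A) ^ 2) - ρ * (δ * A))| ≤
        (2 * C ^ 2 + 4 * C + 6) * δ * P ^ 10 := by
      have e2 : A * (ρ * (ρ * (1 - A) ^ 2) - ρ * (δ * A)) =
          A * (ρ * (ρ * (1 - A) ^ 2)) - A * (ρ * (δ * A)) := by ring
      rw [e2]
      have h1 := abs_sub (-2 * (ρ * (1 - A)) * (δ * A) - δ * (δ - 1) * A)
        (A * (ρ * (ρ * (1 - A) ^ 2)) - A * (ρ * (δ * A)))
      have h2 := abs_sub (-2 * (ρ * (1 - A)) * (δ * A)) (δ * (δ - 1) * A)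
      have h3 := abs_sub (A * (ρ * (ρ * (1 - A) ^ 2))) (A * (ρ * (δ * A)))
      linarith
    calc _ ≤ ((2 * C ^ 2 + 4 * C + 6) * δ * P ^ 10) * (3 * exp (-(ρ / 2))) := by gcongr
      _ = 3 * (2 * C ^ 2 + 4 * C + 6) * δ * (P ^ 10 * exp (-(ρ / 2))) := by ring
  · have e1 : ρ ^ 2 * |n04_q α ρ| = |ρ * (ρ * (1 - A) ^ 2) - ρ * (δ * A)| * F α ρ := by
      have : ρ ^ 2 * n04_q α ρ = (ρ * (ρ * (1 - A) ^ 2) - ρ * (δ * A)) * F α ρ := by
        unfold n04_q
        rw [← hAdef, ← hδdef]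
        field_simp
      rw [← abs_of_pos (pow_pos hρ 2), ← abs_mul, this, abs_mul, abs_of_pos hFp]
    rw [e1]
    have t3 : |ρ * (ρ * (1 - A) ^ 2)| ≤ C ^ 2 * (ρ * P ^ 7) := by
      rw [abs_of_nonneg (by positivity)]
      calc ρ * (ρ * (1 - A) ^ 2) ≤ ρ * (C ^ 2 * δ * P ^ 7) := by gcongr
        _ = C ^ 2 * (ρ * P ^ 7) * δ := by ring
        _ ≤ C ^ 2 * (ρ * P ^ 7) * 1 := mul_le_mul_of_nonneg_left (by linarith) (by positivity)
        _ = C ^ 2 * (ρ * P ^ 7) := by ring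
    have t4 : |ρ * (δ * A)| ≤ 2 * (ρ * P ^ 7) := by
      rw [abs_of_nonneg (by positivity)]
      calc ρ * (δ * A) ≤ ρ * (1 * (2 * P)) := by
            gcongr
            linarith
        _ = 2 * ρ * P ^ 1 := by ring
        _ ≤ 2 * ρ * P ^ 7 :=
            mul_le_mul_of_nonneg_left (hPpow (by norm_num)) (by positivity)
        _ = 2 * (ρ * P ^ 7) := by ring
    have h3 := abs_sub (ρ * (ρ * (1 - A) ^ 2)) (ρ * (δ * A))
    have hsum : |ρ * (ρ * (1 - A) ^ 2) - ρ * (δ * A)| ≤ (C ^ 2 + 2) * (ρ * P ^ 7) := by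
      linarith
    calc _ ≤ ((C ^ 2 + 2) * (ρ * P ^ 7)) * (3 * exp (-(ρ / 2))) := by gcongr
      _ = 3 * (C ^ 2 + 2) * (ρ * P ^ 7 * exp (-(ρ / 2))) := by ring

theorem n04_one_add {s : ℝ} (hs : 0 ≤ s) (h1 : s ≤ 1) : 1 ≤ 4 * (1 + s) ^ (-(3 / 2) : ℝ) := by
  have h2 : (2 : ℝ) ^ (-(2 : ℝ)) ≤ (1 + s) ^ (-(3 / 2) : ℝ) := by
    calc (2 : ℝ) ^ (-(2 : ℝ)) ≤ 2 ^ (-(3 / 2) : ℝ) :=
          rpow_le_rpow_of_exponent_le (by norm_num) (by norm_num)
      _ ≤ (1 + s) ^ (-(3 / 2) : ℝ) :=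
          rpow_le_rpow_of_nonpos (by linarith) (by linarith) (by norm_num)
  have h3 : (2 : ℝ) ^ (-(2 : ℝ)) = 1 / 4 := by
    rw [rpow_neg (by norm_num), rpow_two]
    norm_num
  rw [h3] at h2
  linarith

theorem n04_one_add' {s : ℝ} (h1 : 1 ≤ s) :
    s ^ (-(3 / 2) : ℝ) ≤ 4 * (1 + s) ^ (-(3 / 2) : ℝ) := by
  have hs : 0 < s := by linarith
  have h2 : (2 * s) ^ (-(3 / 2) : ℝ) ≤ (1 + s) ^ (-(3 / 2) : ℝ) :=
    rpow_le_rpow_of_nonpos (by linarith) (by linarith) (by norm_num)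
  rw [mul_rpow (by norm_num) hs.le] at h2
  have h3 : (2 : ℝ) ^ (-(2 : ℝ)) ≤ 2 ^ (-(3 / 2) : ℝ) :=
    rpow_le_rpow_of_exponent_le (by norm_num) (by norm_num)
  have h4 : (2 : ℝ) ^ (-(2 : ℝ)) = 1 / 4 := by
    rw [rpow_neg (by norm_num), rpow_two]
    norm_num
  rw [h4] at h3
  have h5 : 0 ≤ s ^ (-(3 / 2) : ℝ) := by positivity
  nlinarith

theorem NN_bound : ∃ C > 0, ∃ α1 > 1, α1 ≤ 3 / 2 ∧ ∀ α : ℝ, 1 < α → α ≤ α1 →
    ∀ s : ℝ, 0 ≤ s → |NN α s| ≤ C * (α - 1) * (1 + s) ^ (-(3 / 2) : ℝ) := by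
  obtain ⟨C, hC, α1, h1, h2, hpar⟩ := par
  -- the integrals
  set I : ℝ := ∫ ρ in Ioi (0 : ℝ), ρ ^ (-(1 / 2) : ℝ) * (1 + ρ) ^ 10 * exp (-(ρ / 2)) with hI
  set J : ℝ := ∫ ρ in Ioi (0 : ℝ), ρ ^ (0 : ℝ) * (1 + ρ) ^ 8 * exp (-(ρ / 2)) with hJ
  have hIint := n04_int 10 (-(1 / 2)) (by norm_num)
  have hJint := n04_int 8 0 (by norm_num)
  have hI0 : 0 ≤ I := setIntegral_nonneg measurableSet_Ioi (fun ρ hρ => by
    have : (0 : ℝ) < ρ := hρ
    positivity)
  have hJ0 : 0 ≤ J := setIntegral_nonneg measurableSet_Ioi (fun ρ hρ => by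
    have : (0 : ℝ) < ρ := hρ
    positivity)
  set M : ℝ := 3 * (2 * C ^ 2 + 4 * C + 6) with hM
  have hM0 : 0 < M := by positivity
  refine ⟨4 * (C * J + 1) + 4 * (5 * M * I), by positivity, α1, h1, h2, ?_⟩
  intro α hα hα1 s hs
  obtain ⟨-, pF, pA, pA', -, pQ, -⟩ := hpar α hα hα1
  have hα2 : α ≤ 3 / 2 := hα1.trans h2
  have hα0 : 0 < α := by linarith
  have hδ : 0 < α - 1 := by linarith
  have hδ1 : α - 1 ≤ 1 := by linarith
  have hGint := G_integrable hα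
  have hQint := Qf_integrable hα
  have hKm : ∀ ν : ℕ, Measurable (fun ρ => K ν (s * ρ)) := fun ν =>
    ((K_continuous ν).comp (continuous_const.mul continuous_id)).measurable
  rw [NN_eq hα hs]
  -- integrability of the integrand
  have hint2 : IntegrableOn (fun ρ => (Qf α ρ - (α - 1) * G α ρ) * K 2 (s * ρ)) (Ioi 0) := by
    refine Integrable.mono (hQint.sub (hGint.const_mul (α - 1)))
      ((hQint.sub (hGint.const_mul (α - 1))).aestronglyMeasurable.mul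
        (hKm 2).aestronglyMeasurable) ?_
    refine (ae_restrict_mem measurableSet_Ioi).mono (fun ρ hρ => ?_)
    have h := K_abs_le 2 (mul_nonneg hs (le_of_lt hρ))
    have h' : |K 2 (s * ρ)| ≤ 1 := h.trans (by norm_num [Nat.factorial])
    rw [norm_mul]
    exact mul_le_of_le_one_right (norm_nonneg _) h'
  rcases le_total s 1 with hs1 | hs1
  · -- small `s`
    have hbound : |∫ ρ in Ioi (0 : ℝ), (Qf α ρ - (α - 1) * G α ρ) * K 2 (s * ρ)| ≤
        (C * J + 1) * (α - 1) := by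
      refine abs_integral_le_integral_abs.trans ?_
      have hle : ∫ ρ in Ioi (0 : ℝ), |(Qf α ρ - (α - 1) * G α ρ) * K 2 (s * ρ)| ≤
          ∫ ρ in Ioi (0 : ℝ), (C * (α - 1) * (ρ ^ (0 : ℝ) * (1 + ρ) ^ 8 * exp (-(ρ / 2))) +
            (α - 1) * G α ρ) := by
        refine setIntegral_mono_on hint2.abs ((hJint.const_mul _).add (hGint.const_mul _))
          measurableSet_Ioi (fun ρ hρ => ?_)
        have hρ' : (0 : ℝ) < ρ := hρ
        have h := K_abs_le 2 (mul_nonneg hs hρ'.le)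
        have h' : |K 2 (s * ρ)| ≤ 1 := h.trans (by norm_num [Nat.factorial])
        have hG0 := G_nonneg hα0 hρ'
        have hQ0 : 0 ≤ Qf α ρ := by
          unfold Qf
          have := (F_pos hα0 ρ).le
          positivity
        have hQ1 := pQ ρ hρ'
        have hQ2 : C * (α - 1) ^ 2 * (1 + ρ) ^ 8 * exp (-(ρ / 2)) ≤
            C * (α - 1) * (ρ ^ (0 : ℝ) * (1 + ρ) ^ 8 * exp (-(ρ / 2))) := by
          rw [rpow_zero, one_mul]
          have : (α - 1) ^ 2 ≤ α - 1 := by nlinarith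
          calc C * (α - 1) ^ 2 * (1 + ρ) ^ 8 * exp (-(ρ / 2))
              ≤ C * (α - 1) * (1 + ρ) ^ 8 * exp (-(ρ / 2)) := by gcongr
            _ = _ := by ring
        rw [abs_mul]
        have h3 : |Qf α ρ - (α - 1) * G α ρ| ≤ Qf α ρ + (α - 1) * G α ρ := by
          have := mul_nonneg hδ.le hG0
          rw [abs_le]
          constructor <;> linarith
        calc |Qf α ρ - (α - 1) * G α ρ| * |K 2 (s * ρ)|
            ≤ |Qf α ρ - (α - 1) * G α ρ| * 1 :=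
              mul_le_mul_of_nonneg_left h' (abs_nonneg _)
          _ ≤ _ := by rw [mul_one]; linarith
      refine hle.trans ?_
      rw [integral_add (hJint.const_mul _) (hGint.const_mul _), integral_const_mul,
        integral_const_mul, G_integral hα, ← hJ]
      linarith
    have h5 := n04_one_add hs hs1
    calc _ ≤ (C * J + 1) * (α - 1) := hbound
      _ = (C * J + 1) * (α - 1) * 1 := by ring
      _ ≤ (C * J + 1) * (α - 1) * (4 * (1 + s) ^ (-(3 / 2) : ℝ)) :=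
          mul_le_mul_of_nonneg_left h5 (by positivity)
      _ = 4 * (C * J + 1) * (α - 1) * (1 + s) ^ (-(3 / 2) : ℝ) := by ring
      _ ≤ _ := by
          have : 0 ≤ (4 * (5 * M * I)) * (α - 1) * (1 + s) ^ (-(3 / 2) : ℝ) := by positivity
          linarith
  · -- large `s`
    have hs0 : 0 < s := by linarith
    -- pointwise bound for the new integrand
    have hpt : ∀ ρ ∈ Ioi (0 : ℝ), |n04_q' α ρ * ρ ^ 3 * K 3 (s * ρ)| ≤
        5 * M * (α - 1) * s ^ (-(3 / 2) : ℝ) *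
          (ρ ^ (-(1 / 2) : ℝ) * (1 + ρ) ^ 10 * exp (-(ρ / 2))) := by
      intro ρ hρ
      have hρ' : (0 : ℝ) < ρ := hρ
      have hq := (n04_pt hC hα hα2 hρ' (pF ρ hρ') (pA ρ hρ') (pA' ρ hρ')).1
      have hK := K3_abs_le (mul_pos hs0 hρ')
      rw [mul_rpow hs0.le hρ'.le] at hK
      have e1 : ρ ^ 3 * ρ ^ (-(3 / 2) : ℝ) = ρ ^ 2 * ρ ^ (-(1 / 2) : ℝ) := by
        rw [← rpow_natCast, ← rpow_natCast, ← rpow_add hρ', ← rpow_add hρ']
        norm_num
      rw [abs_mul, abs_mul, abs_of_pos (pow_pos hρ' 3)]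
      calc |n04_q' α ρ| * ρ ^ 3 * |K 3 (s * ρ)|
          ≤ |n04_q' α ρ| * ρ ^ 3 * (5 * (s ^ (-(3 / 2) : ℝ) * ρ ^ (-(3 / 2) : ℝ))) :=
            mul_le_mul_of_nonneg_left hK (by positivity)
        _ = 5 * s ^ (-(3 / 2) : ℝ) * |n04_q' α ρ| * (ρ ^ 3 * ρ ^ (-(3 / 2) : ℝ)) := by ring
        _ = 5 * s ^ (-(3 / 2) : ℝ) * ρ ^ (-(1 / 2) : ℝ) * (ρ ^ 2 * |n04_q' α ρ|) := by
            rw [e1]; ring
        _ ≤ 5 * s ^ (-(3 / 2) : ℝ) * ρ ^ (-(1 / 2) : ℝ) *
              (M * (α - 1) * ((1 + ρ) ^ 10 * exp (-(ρ / 2)))) :=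
            mul_le_mul_of_nonneg_left hq (by positivity)
        _ = _ := by ring
    have hint3 : IntegrableOn (fun ρ => n04_q' α ρ * ρ ^ 3 * K 3 (s * ρ)) (Ioi 0) := by
      refine Integrable.mono' (hIint.const_mul (5 * M * (α - 1) * s ^ (-(3 / 2) : ℝ)))
        ((n04_meas_q'.mul (measurable_id.pow_const 3)).mul (hKm 3)).aestronglyMeasurable ?_
      exact (ae_restrict_mem measurableSet_Ioi).mono (fun ρ hρ => hpt ρ hρ)
    -- the primitive
    have hHpt : ∀ ρ ∈ Ioi (0 : ℝ), |n04_q α ρ * (ρ ^ 3 * K 3 (s * ρ))| ≤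
        3 * (C ^ 2 + 2) * (ρ ^ 2 * (1 + ρ) ^ 7 * exp (-(ρ / 2))) := by
      intro ρ hρ
      have hρ' : (0 : ℝ) < ρ := hρ
      have hq := (n04_pt hC hα hα2 hρ' (pF ρ hρ') (pA ρ hρ') (pA' ρ hρ')).2
      have h := K_abs_le 3 (mul_nonneg hs hρ'.le)
      have h' : |K 3 (s * ρ)| ≤ 1 := h.trans (by norm_num [Nat.factorial])
      rw [abs_mul, abs_mul, abs_of_pos (pow_pos hρ' 3)]
      calc |n04_q α ρ| * (ρ ^ 3 * |K 3 (s * ρ)|) ≤ |n04_q α ρ| * (ρ ^ 3 * 1) := by gcongr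
        _ = ρ * (ρ ^ 2 * |n04_q α ρ|) := by ring
        _ ≤ ρ * (3 * (C ^ 2 + 2) * (ρ * (1 + ρ) ^ 7 * exp (-(ρ / 2)))) :=
            mul_le_mul_of_nonneg_left hq hρ'.le
        _ = _ := by ring
    have hHint : IntegrableOn (fun ρ => n04_q α ρ * (ρ ^ 3 * K 3 (s * ρ))) (Ioi 0) := by
      have h7 := n04_int 7 2 (by norm_num)
      simp only [rpow_two] at h7
      refine Integrable.mono' (h7.const_mul (3 * (C ^ 2 + 2)))
        (n04_meas_q.mul ((measurable_id.pow_const 3).mul (hKm 3))).aestronglyMeasurable ?_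
      exact (ae_restrict_mem measurableSet_Ioi).mono (fun ρ hρ => hHpt ρ hρ)
    have hder : ∀ ρ ∈ Ioi (0 : ℝ), HasDerivAt (fun ρ => n04_q α ρ * (ρ ^ 3 * K 3 (s * ρ)))
        (n04_q' α ρ * ρ ^ 3 * K 3 (s * ρ) + (Qf α ρ - (α - 1) * G α ρ) * K 2 (s * ρ)) ρ :=
      fun ρ hρ => n04_H_deriv hα s hρ
    have hlim := tendsto_zero_of_hasDerivAt_of_integrableOn_Ioi hder (hint3.add hint2) hHint
    have hcont : ContinuousWithinAt (fun ρ => n04_q α ρ * (ρ ^ 3 * K 3 (s * ρ))) (Ici 0) 0 := by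
      have h0 : n04_q α 0 * ((0 : ℝ) ^ 3 * K 3 (s * 0)) = 0 := by simp
      rw [ContinuousWithinAt, h0]
      refine squeeze_zero_norm' (a := fun ρ : ℝ =>
        3 * (C ^ 2 + 2) * (ρ ^ 2 * (1 + ρ) ^ 7 * exp (-(ρ / 2)))) ?_ ?_
      · refine eventually_nhdsWithin_of_forall (fun ρ hρ => ?_)
        rcases (mem_Ici.1 hρ).eq_or_lt with h | h
        · rw [← h]
          simp
        · exact hHpt ρ h
      · have hc : Continuous (fun ρ : ℝ =>
            3 * (C ^ 2 + 2) * (ρ ^ 2 * (1 + ρ) ^ 7 * exp (-(ρ / 2)))) := by fun_prop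
        have := hc.tendsto 0
        simp only [ne_eq, OfNat.ofNat_ne_zero, not_false_eq_true, zero_pow, zero_mul,
          mul_zero] at this
        exact this.mono_left nhdsWithin_le_nhds
    have key := integral_Ioi_of_hasDerivAt_of_tendsto hcont hder (hint3.add hint2) hlim
    simp only [ne_eq, OfNat.ofNat_ne_zero, not_false_eq_true, zero_pow, zero_mul,
      mul_zero, sub_zero] at key
    rw [integral_add hint3 hint2] at key
    have key2 : ∫ ρ in Ioi (0 : ℝ), (Qf α ρ - (α - 1) * G α ρ) * K 2 (s * ρ) =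
        -∫ ρ in Ioi (0 : ℝ), n04_q' α ρ * ρ ^ 3 * K 3 (s * ρ) := by linarith
    rw [key2, abs_neg]
    have hbound : |∫ ρ in Ioi (0 : ℝ), n04_q' α ρ * ρ ^ 3 * K 3 (s * ρ)| ≤
        5 * M * (α - 1) * s ^ (-(3 / 2) : ℝ) * I := by
      refine abs_integral_le_integral_abs.trans ?_
      rw [hI, ← integral_const_mul]
      exact setIntegral_mono_on hint3.abs (hIint.const_mul _) measurableSet_Ioi hpt
    have h5 := n04_one_add' hs1
    calc _ ≤ 5 * M * (α - 1) * s ^ (-(3 / 2) : ℝ) * I := hbound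
      _ = 5 * M * I * (α - 1) * s ^ (-(3 / 2) : ℝ) := by ring
      _ ≤ 5 * M * I * (α - 1) * (4 * (1 + s) ^ (-(3 / 2) : ℝ)) :=
          mul_le_mul_of_nonneg_left h5 (by positivity)
      _ = (4 * (5 * M * I)) * (α - 1) * (1 + s) ^ (-(3 / 2) : ℝ) := by ring
      _ ≤ _ := by
          have : 0 ≤ (4 * (C * J + 1)) * (α - 1) * (1 + s) ^ (-(3 / 2) : ℝ) := by positivity
          linarith

end LpSec

end

section
/-!
# N05 Asym: `N(s) = -δ kap0(s) + o(δ)`, uniformly in `s ≥ 0`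

`NN_eq` and `exp_mul_K2`: `N + δ kap0 = ∫ (Q - δ (G - ρ e^{-ρ})) K 2 (s ρ)`, `|K 2| ≤ 1/2`, and by
`par` `∫ Q ≤ C δ² ∫ (1+ρ)^8 e^{-ρ/2}`, `∫ |G - ρ e^{-ρ}| ≤ C δ ∫ (1+ρ)^6 e^{-ρ/2}`. So the left side is
`≤ C' δ²`, and `C' δ ≤ η` for `α` close to `1`.
-/

open Real MeasureTheory Set Filter Topology

namespace LpSec

theorem N05_int (k : ℕ) : IntegrableOn (fun ρ : ℝ => (1 + ρ) ^ k * exp (-(ρ / 2))) (Ioi 0) := by
  refine integrable_of_isBigO_exp_neg (b := 1 / 4) (by norm_num) (by fun_prop) ?_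
  have h := isLittleO_pow_exp_pos_mul_atTop (k := k) (b := 1 / 4) (by norm_num)
  have h2 : (fun ρ : ℝ => (1 + ρ) ^ k) =O[atTop] fun ρ : ℝ => ρ ^ k := by
    refine Asymptotics.IsBigO.of_bound (2 ^ k) ?_
    filter_upwards [eventually_ge_atTop 1] with ρ hρ
    have h0 : 0 ≤ 1 + ρ := by linarith
    rw [Real.norm_of_nonneg (by positivity), Real.norm_of_nonneg (by positivity), ← mul_pow]
    exact pow_le_pow_left₀ h0 (by linarith) k
  have h3 := (h2.trans_isLittleO h).isBigO.mul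
    (Asymptotics.isBigO_refl (fun ρ : ℝ => exp (-(ρ / 2))) atTop)
  refine h3.congr_right fun ρ => ?_
  rw [← exp_add]
  congr 1
  ring

theorem NN_asym {η : ℝ} (hη : 0 < η) : ∃ α1 > 1, ∀ α : ℝ, 1 < α → α ≤ α1 →
    ∀ s : ℝ, 0 ≤ s → |NN α s + (α - 1) * kap0 s| ≤ η * (α - 1) := by
  obtain ⟨C, hC, α1, hα1, hα1', hpar⟩ := par
  set I8 := ∫ ρ in Ioi (0 : ℝ), (1 + ρ) ^ 8 * exp (-(ρ / 2)) with hI8
  set I6 := ∫ ρ in Ioi (0 : ℝ), (1 + ρ) ^ 6 * exp (-(ρ / 2)) with hI6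
  have hI8n : 0 ≤ I8 := setIntegral_nonneg measurableSet_Ioi fun ρ hρ => by
    have : (0 : ℝ) < ρ := hρ
    positivity
  have hI6n : 0 ≤ I6 := setIntegral_nonneg measurableSet_Ioi fun ρ hρ => by
    have : (0 : ℝ) < ρ := hρ
    positivity
  set D := C * (I8 + I6) with hD
  have hDn : 0 ≤ D := by positivity
  refine ⟨min α1 (1 + η / (D + 1)), lt_min hα1 (by
    have : 0 < η / (D + 1) := by positivity
    linarith), fun α h1 h2 s hs => ?_⟩
  have hle1 : α ≤ α1 := h2.trans (min_le_left _ _)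
  have hle2 : α ≤ 1 + η / (D + 1) := h2.trans (min_le_right _ _)
  obtain ⟨-, -, -, -, -, hQ, hG⟩ := hpar α h1 hle1
  set δ := α - 1 with hδ
  have hδ0 : 0 < δ := by linarith
  have hQn : ∀ ρ, 0 < ρ → 0 ≤ Qf α ρ := fun ρ hρ => by
    unfold Qf
    have := F_pos (α := α) (by linarith) ρ
    positivity
  -- integrability
  have iQ := Qf_integrable h1
  have iG := G_integrable h1
  have iE : IntegrableOn (fun ρ : ℝ => exp (-ρ) * ρ) (Ioi 0) := by
    have := Real.GammaIntegral_convergent (s := 2) (by norm_num)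
    refine this.congr_fun (fun ρ hρ => ?_) measurableSet_Ioi
    simp only
    norm_num
  have hKm : ∀ f : ℝ → ℝ, IntegrableOn f (Ioi 0) →
      IntegrableOn (fun ρ => f ρ * K 2 (s * ρ)) (Ioi 0) := by
    intro f hf
    refine Integrable.mul_bdd (c := 1 / 2) hf ?_ ?_
    · exact ((K_continuous 2).comp (by fun_prop)).aestronglyMeasurable
    · refine (ae_restrict_iff' measurableSet_Ioi).2 (Eventually.of_forall fun ρ hρ => ?_)
      have hρ' : (0 : ℝ) < ρ := hρ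
      have := K_abs_le 2 (u := s * ρ) (by positivity)
      simpa [Nat.factorial] using this
  have hsum : NN α s + δ * kap0 s =
      ∫ ρ in Ioi (0 : ℝ), (Qf α ρ - δ * (G α ρ - exp (-ρ) * ρ)) * K 2 (s * ρ) := by
    rw [NN_eq h1 hs, ← exp_mul_K2 hs, ← integral_const_mul, ← integral_add]
    · refine integral_congr_ae (Eventually.of_forall fun ρ => ?_)
      simp only
      ring
    · exact hKm _ (iQ.sub (iG.const_mul _))
    · exact (hKm _ iE).const_mul _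
  rw [hsum]
  have hb : ∀ ρ ∈ Ioi (0 : ℝ), ‖(Qf α ρ - δ * (G α ρ - exp (-ρ) * ρ)) * K 2 (s * ρ)‖ ≤
      C * δ ^ 2 * ((1 + ρ) ^ 8 * exp (-(ρ / 2))) + C * δ ^ 2 * ((1 + ρ) ^ 6 * exp (-(ρ / 2))) := by
    intro ρ hρ
    have hρ' : (0 : ℝ) < ρ := hρ
    have k2 : |K 2 (s * ρ)| ≤ 1 / 2 := by
      have := K_abs_le 2 (u := s * ρ) (by positivity)
      simpa [Nat.factorial] using this
    have q := hQ ρ hρ'
    have g := hG ρ hρ'
    have qn := hQn ρ hρ'
    rw [Real.norm_eq_abs, abs_mul]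
    have h3 : |Qf α ρ - δ * (G α ρ - exp (-ρ) * ρ)| ≤
        C * δ ^ 2 * (1 + ρ) ^ 8 * exp (-(ρ / 2)) +
          δ * (C * δ * (1 + ρ) ^ 6 * exp (-(ρ / 2))) := by
      refine (abs_sub _ _).trans ?_
      rw [abs_of_nonneg qn, abs_mul, abs_of_pos hδ0, mul_comm (exp (-ρ)) ρ]
      exact add_le_add q (mul_le_mul_of_nonneg_left g hδ0.le)
    have h4 : |Qf α ρ - δ * (G α ρ - exp (-ρ) * ρ)| * |K 2 (s * ρ)| ≤
        |Qf α ρ - δ * (G α ρ - exp (-ρ) * ρ)| * 1 :=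
      mul_le_mul_of_nonneg_left (by linarith) (abs_nonneg _)
    refine h4.trans ?_
    rw [mul_one]
    refine h3.trans (le_of_eq ?_)
    ring
  have hint : IntegrableOn (fun ρ : ℝ => C * δ ^ 2 * ((1 + ρ) ^ 8 * exp (-(ρ / 2))) +
      C * δ ^ 2 * ((1 + ρ) ^ 6 * exp (-(ρ / 2)))) (Ioi 0) :=
    ((N05_int 8).const_mul _).add ((N05_int 6).const_mul _)
  have hfin := norm_integral_le_of_norm_le hint
    ((ae_restrict_iff' measurableSet_Ioi).2 (Eventually.of_forall hb))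
  rw [Real.norm_eq_abs] at hfin
  refine hfin.trans ?_
  rw [integral_add ((N05_int 8).const_mul _) ((N05_int 6).const_mul _), integral_const_mul,
    integral_const_mul, ← hI8, ← hI6]
  have hδle : δ ≤ η / (D + 1) := by linarith
  have hDδ : D * δ ≤ η := by
    have h5 : (D + 1) * δ ≤ η := by
      rw [le_div_iff₀ (by positivity)] at hδle
      linarith
    nlinarith
  calc C * δ ^ 2 * I8 + C * δ ^ 2 * I6 = (D * δ) * δ := by rw [hD]; ring
    _ ≤ η * δ := mul_le_mul_of_nonneg_right hDδ hδ0.le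

end LpSec

end

section
/-!
# N06 Err: `Good α C` for `α` close to `1`

* Elementary: if `|y r| ≤ B (1+r)^{-3/2}` for `r ≥ 0`, then
  `|e^{-s} ∫_0^s e^r y r dr| ≤ 6 B (1+s)^{-3/2}`. Proof: `(1+s)/(1+r) ≤ 1 + (s-r) ≤ 2 e^{(s-r)/3}`, so
  `e^r (1+r)^{-3/2} ≤ 3 e^{s/2} (1+s)^{-3/2} e^{r/2}` for `0 ≤ r ≤ s`, and `∫_0^s e^{r/2} ≤ 2 e^{s/2}`.
* `Phi - Phi1 = e^{-s} ∫_0^s e^r N` (`exp_mul_sub`), so `|Phi - Phi1| ≤ 6 C δ (1+s)^{-3/2}`;
  `Phi - e^{-s} = e^{-s} ∫_0^s e^r (Phi - Phi1)` (`exp_mul_Phi`), so `|Phi - e^{-s}| ≤ 36 C δ (...)`;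
  `Phi1 - e^{-s} = (Phi - e^{-s}) - (Phi - Phi1)`; `Phi2 = N - Phi + 2 Phi1`, so
  `Phi2 - e^{-s} = N - (Phi - e^{-s}) + 2 (Phi1 - e^{-s})`.
* `dec0`: for `s ≤ 1.55`: `main_lobe` and `e^{-s} ≤ 1/(1+s)`. For `s ≥ 1.55`:
  `(1+s) e^{-s} ≤ 2.55 e^{-1.55} ≤ 0.6`, and `C' δ (1+s)^{-1/2} ≤ 0.3` for `δ` small.
  `dec1` is similar (`(1+s) e^{-s} ≤ 1`, `C' δ ≤ 1`).
-/

open Real MeasureTheory Set Filter Topology

namespace LpSec

theorem err_one_add_le {d : ℝ} (_hd : 0 ≤ d) : 1 + d ≤ 2 * exp (d / 3) := by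
  have h1 : d / 3 - 2 / 3 + 1 ≤ exp (d / 3 - 2 / 3) := add_one_le_exp _
  have h2 : (2 / 3 : ℝ) + 1 ≤ exp (2 / 3) := add_one_le_exp _
  have h3 : exp (d / 3) = exp (d / 3 - 2 / 3) * exp (2 / 3) := by
    rw [← exp_add]; congr 1; ring
  rw [h3]
  have h4 := exp_pos (d / 3 - 2 / 3)
  nlinarith

theorem err_weight {r s : ℝ} (hr : 0 ≤ r) (hrs : r ≤ s) :
    exp r * (1 + r) ^ (-(3 / 2) : ℝ) ≤
      3 * (exp (s / 2) * (1 + s) ^ (-(3 / 2) : ℝ)) * exp (r / 2) := by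
  have hr1 : (0 : ℝ) < 1 + r := by linarith
  have hs1 : (0 : ℝ) < 1 + s := by linarith
  have hd : 0 ≤ s - r := by linarith
  have h1 : (1 + s) ≤ (1 + r) * (2 * exp ((s - r) / 3)) := by
    have h2 := err_one_add_le hd
    have h3 : 1 + s ≤ (1 + r) * (1 + (s - r)) := by nlinarith
    exact h3.trans (mul_le_mul_of_nonneg_left h2 hr1.le)
  have h2 : (1 + s) ^ (3 / 2 : ℝ) ≤ (1 + r) ^ (3 / 2 : ℝ) * (3 * exp ((s - r) / 2)) := by
    refine (rpow_le_rpow hs1.le h1 (by norm_num)).trans ?_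
    rw [mul_rpow hr1.le (by positivity), mul_rpow (by norm_num) (exp_pos _).le, ← exp_mul]
    have h3 : (2 : ℝ) ^ (3 / 2 : ℝ) ≤ 3 := by
      have h4 : (2 : ℝ) ^ (3 / 2 : ℝ) = √8 := by
        rw [sqrt_eq_rpow, show (8 : ℝ) = 2 ^ (3 : ℝ) by norm_num, ← rpow_mul (by norm_num)]
        norm_num
      rw [h4, sqrt_le_left (by norm_num)]
      norm_num
    have h5 : (s - r) / 3 * (3 / 2) = (s - r) / 2 := by ring
    rw [h5]
    gcongr
  have h3 : (1 + r) ^ (-(3 / 2) : ℝ) * (1 + r) ^ (3 / 2 : ℝ) = 1 := by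
    rw [← rpow_add hr1]; norm_num
  have h4 : (1 + s) ^ (-(3 / 2) : ℝ) * (1 + s) ^ (3 / 2 : ℝ) = 1 := by
    rw [← rpow_add hs1]; norm_num
  have hpr : 0 < (1 + r) ^ (-(3 / 2) : ℝ) := rpow_pos_of_pos hr1 _
  have hps : 0 < (1 + s) ^ (-(3 / 2) : ℝ) := rpow_pos_of_pos hs1 _
  have h5 : (1 + r) ^ (-(3 / 2) : ℝ) ≤ 3 * exp ((s - r) / 2) * (1 + s) ^ (-(3 / 2) : ℝ) := by
    calc (1 + r) ^ (-(3 / 2) : ℝ)
        = (1 + r) ^ (-(3 / 2) : ℝ) * ((1 + s) ^ (-(3 / 2) : ℝ) * (1 + s) ^ (3 / 2 : ℝ)) := by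
          rw [h4, mul_one]
      _ ≤ (1 + r) ^ (-(3 / 2) : ℝ) * ((1 + s) ^ (-(3 / 2) : ℝ) *
            ((1 + r) ^ (3 / 2 : ℝ) * (3 * exp ((s - r) / 2)))) := by gcongr
      _ = ((1 + r) ^ (-(3 / 2) : ℝ) * (1 + r) ^ (3 / 2 : ℝ)) *
            (3 * exp ((s - r) / 2) * (1 + s) ^ (-(3 / 2) : ℝ)) := by ring
      _ = 3 * exp ((s - r) / 2) * (1 + s) ^ (-(3 / 2) : ℝ) := by rw [h3, one_mul]
  have h6 : exp r * exp ((s - r) / 2) = exp (s / 2) * exp (r / 2) := by
    rw [← exp_add, ← exp_add]; congr 1; ring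
  calc exp r * (1 + r) ^ (-(3 / 2) : ℝ)
      ≤ exp r * (3 * exp ((s - r) / 2) * (1 + s) ^ (-(3 / 2) : ℝ)) := by gcongr
    _ = 3 * (exp r * exp ((s - r) / 2)) * (1 + s) ^ (-(3 / 2) : ℝ) := by ring
    _ = 3 * (exp (s / 2) * (1 + s) ^ (-(3 / 2) : ℝ)) * exp (r / 2) := by rw [h6]; ring

theorem err_conv {y : ℝ → ℝ} {B s : ℝ} (hs : 0 ≤ s) (hB : 0 ≤ B)
    (hy : ∀ r : ℝ, 0 ≤ r → |y r| ≤ B * (1 + r) ^ (-(3 / 2) : ℝ)) :
    |exp (-s) * ∫ r in (0 : ℝ)..s, exp r * y r| ≤ 6 * B * (1 + s) ^ (-(3 / 2) : ℝ) := by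
  have hs1 : (0 : ℝ) < 1 + s := by linarith
  have hps : 0 < (1 + s) ^ (-(3 / 2) : ℝ) := rpow_pos_of_pos hs1 _
  set w : ℝ := exp (s / 2) * (1 + s) ^ (-(3 / 2) : ℝ) with hw
  have h1 : ‖∫ r in (0 : ℝ)..s, exp r * y r‖ ≤ ∫ r in (0 : ℝ)..s, 3 * B * w * exp (r / 2) := by
    refine intervalIntegral.norm_integral_le_of_norm_le hs ?_ ?_
    · refine Eventually.of_forall fun r hr => ?_
      have hr0 : 0 ≤ r := hr.1.le
      have h2 := hy r hr0
      have h3 := err_weight hr0 hr.2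
      rw [norm_mul, norm_eq_abs, norm_eq_abs, abs_of_pos (exp_pos _)]
      calc exp r * |y r| ≤ exp r * (B * (1 + r) ^ (-(3 / 2) : ℝ)) := by gcongr
        _ = B * (exp r * (1 + r) ^ (-(3 / 2) : ℝ)) := by ring
        _ ≤ B * (3 * (exp (s / 2) * (1 + s) ^ (-(3 / 2) : ℝ)) * exp (r / 2)) := by gcongr
        _ = 3 * B * w * exp (r / 2) := by rw [hw]; ring
    · apply Continuous.intervalIntegrable
      fun_prop
  have h2 : ∫ r in (0 : ℝ)..s, 3 * B * w * exp (r / 2) = 3 * B * w * (2 * exp (s / 2) - 2) := by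
    rw [intervalIntegral.integral_const_mul]
    congr 1
    have h3 : ∀ r ∈ uIcc (0 : ℝ) s, HasDerivAt (fun r : ℝ => 2 * exp (r / 2)) (exp (r / 2)) r := by
      intro r _
      have h4 : HasDerivAt (fun r : ℝ => r / 2) (1 / 2) r := (hasDerivAt_id r).div_const 2
      exact ((h4.exp).const_mul 2).congr_deriv (by ring)
    rw [intervalIntegral.integral_eq_sub_of_hasDerivAt h3]
    · simp
    · apply Continuous.intervalIntegrable
      fun_prop
  rw [h2, norm_eq_abs] at h1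
  rw [abs_mul, abs_of_pos (exp_pos _)]
  have hw0 : 0 < w := by positivity
  have h7 : exp (-s) * (exp (s / 2) * exp (s / 2)) = 1 := by
    rw [← exp_add, ← exp_add, ← exp_zero]; congr 1; ring
  calc exp (-s) * |∫ r in (0 : ℝ)..s, exp r * y r|
      ≤ exp (-s) * (3 * B * w * (2 * exp (s / 2) - 2)) := by gcongr
    _ ≤ exp (-s) * (3 * B * w * (2 * exp (s / 2))) := by
        gcongr
        linarith
    _ = 6 * B * (1 + s) ^ (-(3 / 2) : ℝ) * (exp (-s) * (exp (s / 2) * exp (s / 2))) := by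
        rw [hw]; ring
    _ = 6 * B * (1 + s) ^ (-(3 / 2) : ℝ) := by rw [h7, mul_one]

theorem err_exp_le {s : ℝ} (hs : 0 ≤ s) : exp (-s) ≤ (1 + s)⁻¹ := by
  rw [exp_neg]
  apply inv_anti₀ (by linarith)
  have := add_one_le_exp s
  linarith

theorem err_rpow_le {s : ℝ} (hs : 0 ≤ s) : (1 + s) ^ (-(3 / 2) : ℝ) ≤ (1 + s)⁻¹ := by
  rw [← rpow_neg_one]
  exact rpow_le_rpow_of_exponent_le (by linarith) (by norm_num)

theorem err_exp_le' {s : ℝ} (hs : 1.55 ≤ s) : exp (-s) ≤ 0.6 * (1 + s)⁻¹ := by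
  have hs1 : (0 : ℝ) < 1 + s := by linarith
  rw [exp_neg, inv_le_iff_one_le_mul₀ (exp_pos _), mul_comm (0.6 : ℝ), mul_assoc, mul_comm,
    ← div_eq_mul_inv, le_div_iff₀ hs1, one_mul]
  have h1 : s - 1.55 + 1 ≤ exp (s - 1.55) := add_one_le_exp _
  have h2 : (0.55 : ℝ) + 1 ≤ exp 0.55 := add_one_le_exp _
  have h3 := Real.exp_one_gt_d9
  have h4 : exp 1.55 = exp 1 * exp 0.55 := by rw [← exp_add]; norm_num
  have h5 : exp s = exp (s - 1.55) * exp 1.55 := by rw [← exp_add]; congr 1; ring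
  have h6 : (0.55 : ℝ) ^ 2 / 2 + 0.55 + 1 ≤ exp 0.55 := by
    have := Real.quadratic_le_exp_of_nonneg (show (0 : ℝ) ≤ 0.55 by norm_num)
    linarith
  have h7 : (4.6 : ℝ) ≤ exp 1.55 := by
    rw [h4]
    nlinarith [exp_pos (1 : ℝ)]
  have h8 : (s - 0.55) * 4.6 ≤ exp s := by
    rw [h5]
    have : s - 0.55 ≤ exp (s - 1.55) := by linarith
    exact mul_le_mul this h7 (by norm_num) (exp_pos _).le
  nlinarith

theorem exists_good : ∃ C > 0, ∃ α1 > 1, ∀ α : ℝ, 1 < α → α ≤ α1 → Good α C := by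
  obtain ⟨C, hC, α1, hα1, hα1', hN⟩ := NN_bound
  refine ⟨121 * C, by positivity, min α1 (1 + 0.3 / (121 * C)), lt_min hα1 ?_, ?_⟩
  · have : 0 < 0.3 / (121 * C) := by positivity
    linarith
  intro α hα hαle
  have hle1 : α ≤ α1 := hαle.trans (min_le_left _ _)
  have hle2 : α ≤ 1 + 0.3 / (121 * C) := hαle.trans (min_le_right _ _)
  have hδ : 0 < α - 1 := by linarith
  have hCδ : 121 * C * (α - 1) ≤ 0.3 := by
    have h1 : α - 1 ≤ 0.3 / (121 * C) := by linarith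
    rw [le_div_iff₀ (by positivity)] at h1
    linarith
  have hN' := hN α hα hle1
  -- `Phi - Phi1`
  have hD : ∀ s : ℝ, 0 ≤ s → |Phi α s - Phi1 α s| ≤ 6 * (C * (α - 1)) * (1 + s) ^ (-(3 / 2) : ℝ) := by
    intro s hs
    have h1 := err_conv hs (by positivity : 0 ≤ C * (α - 1)) hN'
    rw [← exp_mul_sub hα hs, ← mul_assoc, ← exp_add] at h1
    simpa using h1
  have hE : ∀ s : ℝ, 0 ≤ s → |Phi α s - exp (-s)| ≤
      36 * (C * (α - 1)) * (1 + s) ^ (-(3 / 2) : ℝ) := by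
    intro s hs
    have h1 := err_conv (y := fun r => Phi α r - Phi1 α r) hs
      (by positivity : 0 ≤ 6 * (C * (α - 1))) hD
    have h2 : ∫ r in (0 : ℝ)..s, exp r * (Phi α r - Phi1 α r) = exp s * Phi α s - 1 := by
      rw [exp_mul_Phi hα hs]; ring
    rw [h2] at h1
    have h3 : exp (-s) * (exp s * Phi α s - 1) = Phi α s - exp (-s) := by
      rw [mul_sub, ← mul_assoc, ← exp_add]; simp
    rw [h3] at h1
    calc |Phi α s - exp (-s)| ≤ 6 * (6 * (C * (α - 1))) * (1 + s) ^ (-(3 / 2) : ℝ) := h1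
      _ = _ := by ring
  have hE1 : ∀ s : ℝ, 0 ≤ s → |Phi1 α s - exp (-s)| ≤
      42 * (C * (α - 1)) * (1 + s) ^ (-(3 / 2) : ℝ) := by
    intro s hs
    have h1 := abs_le.1 (hD s hs)
    have h2 := abs_le.1 (hE s hs)
    rw [abs_le]
    constructor <;> linarith [h1.1, h1.2, h2.1, h2.2]
  have hE2 : ∀ s : ℝ, 0 ≤ s → |Phi2 α s - exp (-s)| ≤
      121 * (C * (α - 1)) * (1 + s) ^ (-(3 / 2) : ℝ) := by
    intro s hs
    have h1 := abs_le.1 (hN' s hs)
    have h2 := abs_le.1 (hE s hs)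
    have h3 := abs_le.1 (hE1 s hs)
    have h4 : Phi2 α s - exp (-s) = NN α s - (Phi α s - exp (-s)) + 2 * (Phi1 α s - exp (-s)) := by
      unfold NN; ring
    rw [h4, abs_le]
    constructor <;> linarith [h1.1, h1.2, h2.1, h2.2, h3.1, h3.2]
  have hpw : ∀ s : ℝ, 0 ≤ s → 0 < (1 + s) ^ (-(3 / 2) : ℝ) := fun s hs =>
    rpow_pos_of_pos (by linarith) _
  have hE' : ∀ s : ℝ, 0 ≤ s → |Phi α s - exp (-s)| ≤
      121 * C * (α - 1) * (1 + s) ^ (-(3 / 2) : ℝ) := by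
    intro s hs
    refine (hE s hs).trans ?_
    have h1 := hpw s hs
    have h2 : 0 < C * (α - 1) := by positivity
    calc 36 * (C * (α - 1)) * (1 + s) ^ (-(3 / 2) : ℝ)
        ≤ 121 * (C * (α - 1)) * (1 + s) ^ (-(3 / 2) : ℝ) := by gcongr; norm_num
      _ = _ := by ring
  have hE1' : ∀ s : ℝ, 0 ≤ s → |Phi1 α s - exp (-s)| ≤
      121 * C * (α - 1) * (1 + s) ^ (-(3 / 2) : ℝ) := by
    intro s hs
    refine (hE1 s hs).trans ?_
    have h1 := hpw s hs
    have h2 : 0 < C * (α - 1) := by positivity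
    calc 42 * (C * (α - 1)) * (1 + s) ^ (-(3 / 2) : ℝ)
        ≤ 121 * (C * (α - 1)) * (1 + s) ^ (-(3 / 2) : ℝ) := by gcongr; norm_num
      _ = _ := by ring
  have hsm : ∀ s : ℝ, 0 ≤ s → 121 * C * (α - 1) * (1 + s) ^ (-(3 / 2) : ℝ) ≤ 0.3 * (1 + s)⁻¹ := by
    intro s hs
    have h1 := err_rpow_le hs
    have h2 := hpw s hs
    exact mul_le_mul hCδ h1 h2.le (by norm_num)
  refine ⟨hα, by linarith, hE', hE1', ?_, ?_, ?_⟩
  · intro s hs
    refine (hE2 s hs).trans (le_of_eq ?_)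
    ring
  · intro s hs
    rcases le_total s 1.55 with h1 | h1
    · exact (main_lobe hα hs h1).trans (err_exp_le hs)
    · have h2 := err_exp_le' h1
      have h3 := abs_le.1 (hE' s hs)
      have h4 := hsm s hs
      have h5 : 0 < (1 + s)⁻¹ := by positivity
      have h6 := exp_pos (-s)
      rw [abs_le]
      constructor <;> nlinarith [h3.1, h3.2]
  · intro s hs
    have h2 := err_exp_le hs
    have h3 := abs_le.1 (hE1' s hs)
    have h4 := hsm s hs
    have h5 : 0 < (1 + s)⁻¹ := by positivity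
    have h6 := exp_pos (-s)
    rw [abs_le]
    constructor <;> nlinarith [h3.1, h3.2]

end LpSec

end

section
/-!
# N07 Slope: log-concavity of `Phi` on `[0,T]` with modulus `δ/4`

Take `η = e^{-T}/4` in `NN_asym`; `kap0 ≥ e^{-s}/2` gives `N ≤ -δ (e^{-s}/2 - e^{-T}/4) ≤ -δ e^{-s}/4` on
`[0,T]`. Also `|N| ≤ δ` there (`kap0 ≤ 1/2`). Let `g = e^s Phi`, `g' = e^s (Phi - Phi1)`,
`g'' = e^s N < 0` on `(0,T]` (`Phi_hasDerivAt`, `Phi1_hasDerivAt`; `exp_mul_sub`, `exp_mul_Phi`),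
`g(0) = 1`, `g'(0) = 0`. So `g' ≤ 0`, `g ≤ 1`, `|g'| ≤ T e^T δ`, `g ≥ 1 - T² e^T δ ≥ 1/2` for `δ` small: `pos`.
`slope`: on `(0,T)`, `L = Phi1/Phi = 1 - g'/g` has derivative `(g'² - g g'')/g² ≥ -g''/g ≥ δ/4`
(`-g'' = -e^s N ≥ δ/4`, `g ≤ 1`); `L` is continuous on `[0,T]`, so `L a - L b ≥ (δ/4)(a - b)`
(mean value theorem, `Convex.mul_sub_le_image_sub_of_le_deriv`), multiply by `Phi a Phi b > 0`.
-/

open Real MeasureTheory Set Filter Topology

namespace LpSec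

theorem n07_g (α : ℝ) (hα : 1 < α) {s : ℝ} (hs : 0 < s) :
    HasDerivAt (fun s => exp s * Phi α s) (exp s * (Phi α s - Phi1 α s)) s := by
  have h := (Real.hasDerivAt_exp s).mul (Phi_hasDerivAt hα hs)
  refine h.congr_deriv ?_
  ring

theorem n07_h (α : ℝ) (hα : 1 < α) {s : ℝ} (hs : 0 < s) :
    HasDerivAt (fun s => exp s * (Phi α s - Phi1 α s)) (exp s * NN α s) s := by
  have h := (Real.hasDerivAt_exp s).mul ((Phi_hasDerivAt hα hs).sub (Phi1_hasDerivAt hα hs))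
  refine h.congr_deriv ?_
  unfold NN
  simp only [Pi.sub_apply]
  ring

/-- Everything from the two-sided bound on `N`. -/
theorem n07_main {α T : ℝ} (hα : 1 < α) (hT : 0 < T)
    (hd : (α - 1) * (T ^ 2 * exp T) ≤ 1 / 2)
    (hup : ∀ s ∈ Icc (0 : ℝ) T, NN α s ≤ -((α - 1) / 4 * exp (-s)))
    (hlo : ∀ s ∈ Icc (0 : ℝ) T, -(α - 1) ≤ NN α s) : Slope α T := by
  have hδ : 0 < α - 1 := by linarith
  have hPc : ContinuousOn (Phi α) (Icc 0 T) := (Phi_continuousOn hα).mono Icc_subset_Ici_self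
  have hP1c : ContinuousOn (Phi1 α) (Icc 0 T) := (Phi1_continuousOn hα).mono Icc_subset_Ici_self
  have hec : ContinuousOn (fun s : ℝ => exp s) (Icc 0 T) := Real.continuous_exp.continuousOn
  have hgc : ContinuousOn (fun s => exp s * Phi α s) (Icc 0 T) := hec.mul hPc
  have hhc : ContinuousOn (fun s => exp s * (Phi α s - Phi1 α s)) (Icc 0 T) :=
    hec.mul (hPc.sub hP1c)
  have hh0 : exp 0 * (Phi α 0 - Phi1 α 0) = 0 := by
    rw [Phi_zero hα, Phi1_zero hα]; simp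
  have hg0 : exp 0 * Phi α 0 = 1 := by
    rw [Phi_zero hα]; simp
  -- `h ≤ 0`
  have hh_le : ∀ s ∈ Icc (0 : ℝ) T, exp s * (Phi α s - Phi1 α s) ≤ 0 := by
    have hanti : AntitoneOn (fun s => exp s * (Phi α s - Phi1 α s)) (Icc 0 T) := by
      apply antitoneOn_of_deriv_nonpos (convex_Icc 0 T) hhc
      · rw [interior_Icc]
        intro s hs
        exact (n07_h α hα hs.1).differentiableAt.differentiableWithinAt
      · rw [interior_Icc]
        intro s hs
        rw [(n07_h α hα hs.1).deriv]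
        have h1 := hup s ⟨hs.1.le, hs.2.le⟩
        have h2 : 0 < (α - 1) / 4 * exp (-s) := by positivity
        exact mul_nonpos_of_nonneg_of_nonpos (exp_pos s).le (by linarith)
    intro s hs
    have := hanti (left_mem_Icc.2 hT.le) hs hs.1
    simp only at this
    rw [hh0] at this
    exact this
  -- `h ≥ - T e^T δ`
  have hh_ge : ∀ s ∈ Icc (0 : ℝ) T, -(T * exp T * (α - 1)) ≤ exp s * (Phi α s - Phi1 α s) := by
    have hmono : MonotoneOn (fun s => exp s * (Phi α s - Phi1 α s) + exp T * (α - 1) * s)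
        (Icc 0 T) := by
      apply monotoneOn_of_deriv_nonneg (convex_Icc 0 T)
      · exact hhc.add (by fun_prop)
      · rw [interior_Icc]
        intro s hs
        exact ((n07_h α hα hs.1).add
          ((hasDerivAt_id s).const_mul _)).differentiableAt.differentiableWithinAt
      · rw [interior_Icc]
        intro s hs
        have hd' : HasDerivAt (fun s => exp s * (Phi α s - Phi1 α s) + exp T * (α - 1) * s)
            (exp s * NN α s + exp T * (α - 1) * 1) s :=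
          (n07_h α hα hs.1).add ((hasDerivAt_id s).const_mul (exp T * (α - 1)))
        rw [hd'.deriv]
        have h1 := hlo s ⟨hs.1.le, hs.2.le⟩
        have h2 : exp s * (-(α - 1)) ≤ exp s * NN α s :=
          mul_le_mul_of_nonneg_left h1 (exp_pos s).le
        have h3 : exp s * (α - 1) ≤ exp T * (α - 1) :=
          mul_le_mul_of_nonneg_right (Real.exp_le_exp.2 hs.2.le) hδ.le
        linarith
    intro s hs
    have := hmono (left_mem_Icc.2 hT.le) hs hs.1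
    simp only at this
    rw [hh0] at this
    have h4 : exp T * (α - 1) * s ≤ exp T * (α - 1) * T :=
      mul_le_mul_of_nonneg_left hs.2 (by positivity)
    linarith
  -- `g ≤ 1`
  have hg_le : ∀ s ∈ Icc (0 : ℝ) T, exp s * Phi α s ≤ 1 := by
    have hanti : AntitoneOn (fun s => exp s * Phi α s) (Icc 0 T) := by
      apply antitoneOn_of_deriv_nonpos (convex_Icc 0 T) hgc
      · rw [interior_Icc]
        intro s hs
        exact (n07_g α hα hs.1).differentiableAt.differentiableWithinAt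
      · rw [interior_Icc]
        intro s hs
        rw [(n07_g α hα hs.1).deriv]
        exact hh_le s ⟨hs.1.le, hs.2.le⟩
    intro s hs
    have := hanti (left_mem_Icc.2 hT.le) hs hs.1
    simp only at this
    rw [hg0] at this
    exact this
  -- `g ≥ 1/2`
  have hg_ge : ∀ s ∈ Icc (0 : ℝ) T, 1 / 2 ≤ exp s * Phi α s := by
    have hmono : MonotoneOn (fun s => exp s * Phi α s + T * exp T * (α - 1) * s)
        (Icc 0 T) := by
      apply monotoneOn_of_deriv_nonneg (convex_Icc 0 T)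
      · exact hgc.add (by fun_prop)
      · rw [interior_Icc]
        intro s hs
        exact ((n07_g α hα hs.1).add
          ((hasDerivAt_id s).const_mul _)).differentiableAt.differentiableWithinAt
      · rw [interior_Icc]
        intro s hs
        have hd' : HasDerivAt (fun s => exp s * Phi α s + T * exp T * (α - 1) * s)
            (exp s * (Phi α s - Phi1 α s) + T * exp T * (α - 1) * 1) s :=
          (n07_g α hα hs.1).add ((hasDerivAt_id s).const_mul (T * exp T * (α - 1)))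
        rw [hd'.deriv]
        have h1 := hh_ge s ⟨hs.1.le, hs.2.le⟩
        linarith
    intro s hs
    have := hmono (left_mem_Icc.2 hT.le) hs hs.1
    simp only at this
    rw [hg0] at this
    have h4 : T * exp T * (α - 1) * s ≤ T * exp T * (α - 1) * T :=
      mul_le_mul_of_nonneg_left hs.2 (by positivity)
    nlinarith
  have hpos : ∀ s ∈ Icc (0 : ℝ) T, 0 < Phi α s := by
    intro s hs
    have h1 := hg_ge s hs
    by_contra hcon
    push Not at hcon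
    have := mul_nonpos_of_nonneg_of_nonpos (exp_pos s).le hcon
    linarith
  refine ⟨hpos, hup, ?_⟩
  intro a b hb hba haT
  have hne : ∀ s ∈ Icc (0 : ℝ) T, exp s * Phi α s ≠ 0 := fun s hs =>
    (mul_pos (exp_pos s) (hpos s hs)).ne'
  have hanti : AntitoneOn (fun s => exp s * (Phi α s - Phi1 α s) / (exp s * Phi α s) +
      (α - 1) / 4 * s) (Icc 0 T) := by
    apply antitoneOn_of_deriv_nonpos (convex_Icc 0 T)
    · exact (hhc.div hgc hne).add (by fun_prop)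
    · rw [interior_Icc]
      intro s hs
      exact (((n07_h α hα hs.1).div (n07_g α hα hs.1) (hne s ⟨hs.1.le, hs.2.le⟩)).add
          ((hasDerivAt_id s).const_mul _)).differentiableAt.differentiableWithinAt
    · rw [interior_Icc]
      intro s hs
      have hs' : s ∈ Icc (0 : ℝ) T := ⟨hs.1.le, hs.2.le⟩
      have hd' : HasDerivAt (fun s => exp s * (Phi α s - Phi1 α s) / (exp s * Phi α s) +
          (α - 1) / 4 * s)
          ((exp s * NN α s * (exp s * Phi α s) -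
            exp s * (Phi α s - Phi1 α s) * (exp s * (Phi α s - Phi1 α s))) /
            (exp s * Phi α s) ^ 2 + (α - 1) / 4 * 1) s :=
        ((n07_h α hα hs.1).div (n07_g α hα hs.1) (hne s hs')).add
          ((hasDerivAt_id s).const_mul ((α - 1) / 4))
      rw [hd'.deriv]
      have hgp : 0 < exp s * Phi α s := mul_pos (exp_pos s) (hpos s hs')
      have hg1 := hg_le s hs'
      have hN : exp s * NN α s ≤ -((α - 1) / 4) := by
        have h1 := mul_le_mul_of_nonneg_left (hup s hs') (exp_pos s).le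
        have h2 : exp s * exp (-s) = 1 := by rw [← Real.exp_add]; simp
        calc exp s * NN α s ≤ exp s * -((α - 1) / 4 * exp (-s)) := h1
          _ = -((α - 1) / 4) * (exp s * exp (-s)) := by ring
          _ = -((α - 1) / 4) := by rw [h2, mul_one]
      set g := exp s * Phi α s with hgdef
      set h := exp s * (Phi α s - Phi1 α s) with hhdef
      have key : (exp s * NN α s * g - h * h) / g ^ 2 ≤ -((α - 1) / 4) := by
        rw [div_le_iff₀ (by positivity)]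
        have h3 : exp s * NN α s * g ≤ -((α - 1) / 4) * g :=
          mul_le_mul_of_nonneg_right hN hgp.le
        have h4 : (α - 1) / 4 * g ^ 2 ≤ (α - 1) / 4 * g := by
          apply mul_le_mul_of_nonneg_left _ (by positivity)
          nlinarith
        nlinarith [mul_self_nonneg h]
      linarith
  have ha' : a ∈ Icc (0 : ℝ) T := ⟨hb.trans hba, haT⟩
  have hb' : b ∈ Icc (0 : ℝ) T := ⟨hb, hba.trans haT⟩
  have hle := hanti hb' ha' hba
  simp only at hle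
  have hconv : ∀ s : ℝ, exp s * (Phi α s - Phi1 α s) / (exp s * Phi α s) =
      (Phi α s - Phi1 α s) / Phi α s := fun s => mul_div_mul_left _ _ (exp_pos s).ne'
  rw [hconv, hconv] at hle
  have hpa := hpos a ha'
  have hpb := hpos b hb'
  have hab : (α - 1) / 4 * (a - b) ≤
      (Phi α b - Phi1 α b) / Phi α b - (Phi α a - Phi1 α a) / Phi α a := by linarith
  have := mul_le_mul_of_nonneg_right hab (mul_pos hpa hpb).le
  refine this.trans_eq ?_
  field_simp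
  ring

theorem exists_slope {T : ℝ} (hT : 0 < T) : ∃ α1 > 1, ∀ α : ℝ, 1 < α → α ≤ α1 → Slope α T := by
  obtain ⟨α1, hα1, h⟩ := NN_asym (η := exp (-T) / 4) (by positivity)
  have hE : 0 < T ^ 2 * exp T := by positivity
  refine ⟨min α1 (1 + 1 / (2 * (T ^ 2 * exp T))), ?_, ?_⟩
  · apply lt_min hα1
    have : 0 < 1 / (2 * (T ^ 2 * exp T)) := by positivity
    linarith
  · intro α hα hle
    have hle1 := hle.trans (min_le_left _ _)
    have hle2 := hle.trans (min_le_right _ _)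
    have hδ : 0 < α - 1 := by linarith
    have hexpT : exp (-T) ≤ 1 := by
      rw [Real.exp_le_one_iff]; linarith
    apply n07_main hα hT
    · have h1 : α - 1 ≤ 1 / (2 * (T ^ 2 * exp T)) := by linarith
      calc (α - 1) * (T ^ 2 * exp T) ≤ 1 / (2 * (T ^ 2 * exp T)) * (T ^ 2 * exp T) :=
            mul_le_mul_of_nonneg_right h1 hE.le
        _ = 1 / 2 := by field_simp
    · intro s hs
      have h1 := (abs_le.1 (h α hα hle1 s hs.1)).2
      have h2 := kap0_lower hs.1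
      have h3 : exp (-T) ≤ exp (-s) := Real.exp_le_exp.2 (by linarith [hs.2])
      have h4 : (α - 1) * (exp (-s) / 2) ≤ (α - 1) * kap0 s :=
        mul_le_mul_of_nonneg_left h2 hδ.le
      have h5 : exp (-T) / 4 * (α - 1) ≤ exp (-s) / 4 * (α - 1) :=
        mul_le_mul_of_nonneg_right (by linarith) hδ.le
      linarith
    · intro s hs
      have h1 := (abs_le.1 (h α hα hle1 s hs.1)).1
      have h2 := kap0_upper hs.1
      have h4 : (α - 1) * kap0 s ≤ (α - 1) * (1 / 2) :=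
        mul_le_mul_of_nonneg_left h2 hδ.le
      have h5 : exp (-T) / 4 * (α - 1) ≤ 1 / 4 * (α - 1) :=
        mul_le_mul_of_nonneg_right (by linarith) hδ.le
      linarith

end LpSec

end

section
/-!
# N08 Prod: products of `Phi (x i s)` when `x i ≤ u`

* `good_prod`: `|Phi (x s)| ≤ (1 + x s)^{-1} ≤ (1 + u s)^{-x/u}` for `0 ≤ x ≤ u` (`log (1 + x s) ≥
  (x/u) log (1 + u s)`: concavity, or `Real.one_add_mul_self_le_rpow_one_add`-type inequality
  `(1 + u s)^{x/u} ≤ 1 + x s`, `rpow_one_add_le_one_add_mul_self`); multiply.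
* `good_integrable`: `(1 + 0.4 s)^{-2.5}` is integrable on `(0,∞)` (see `one_add_rpow_tail` in
  `Main.lean` for such integrals).
* `good_J_continuousOn`: dominated convergence with this bound (`continuousOn_of_dominated`,
  `Phi_continuousOn`).
-/

open Real MeasureTheory Set Filter Topology

namespace LpSec

variable {α C : ℝ}

theorem N08_single (hg : Good α C) {x u s : ℝ} (hx : 0 ≤ x) (hu : 0 < u) (hxu : x ≤ u)
    (hs : 0 ≤ s) : |Phi α (x * s)| ≤ (1 + u * s) ^ (-(x / u) : ℝ) := by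
  have hxs : 0 ≤ x * s := mul_nonneg hx hs
  have hus : 0 ≤ u * s := mul_nonneg hu.le hs
  refine (hg.dec0 _ hxs).trans ?_
  have h1 : (1 + u * s) ^ (x / u) ≤ 1 + (x / u) * (u * s) :=
    rpow_one_add_le_one_add_mul_self (by linarith) (div_nonneg hx hu.le)
      ((div_le_one hu).2 hxu)
  have h2 : (x / u) * (u * s) = x * s := by
    field_simp
  rw [h2] at h1
  have h3 : 0 < (1 + u * s) ^ (x / u) := Real.rpow_pos_of_pos (by linarith) _
  rw [Real.rpow_neg (by linarith)]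
  exact inv_anti₀ h3 h1

theorem good_prod (hg : Good α C) {n : ℕ} (T : Finset (Fin n)) {x : Fin n → ℝ}
    (hx : ∀ i, 0 ≤ x i) {u s : ℝ} (hu : 0 < u) (hxu : ∀ i, x i ≤ u) (hs : 0 ≤ s) :
    ∏ i ∈ T, |Phi α (x i * s)| ≤ (1 + u * s) ^ (-((∑ i ∈ T, x i) / u) : ℝ) := by
  have hus : 0 ≤ u * s := mul_nonneg hu.le hs
  classical
  induction T using Finset.induction_on with
  | empty => simp
  | insert a T ha ih =>
    rw [Finset.prod_insert ha, Finset.sum_insert ha, add_div, neg_add,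
      Real.rpow_add (by linarith)]
    exact mul_le_mul (N08_single hg (hx a) hu (hxu a) hs) ih
      (Finset.prod_nonneg fun i _ => abs_nonneg _) (Real.rpow_nonneg (by linarith) _)

theorem int_tail {u r : ℝ} (hu : 0 < u) (hr : 1 < r) {T : ℝ} (hT : 0 ≤ T) :
    IntegrableOn (fun s => (1 + u * s) ^ (-r)) (Ioi T) ∧
    ∫ s in Ioi T, (1 + u * s) ^ (-r) = (1 + u * T) ^ (1 - r) / (u * (r - 1)) := by
  obtain ⟨h1, h2⟩ := one_add_rpow_tail hu hr hT
  refine ⟨h1, ?_⟩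
  rw [h2]
  have hr1 : r - 1 ≠ 0 := by linarith
  field_simp

theorem N08_term_continuousOn (hα : 1 < α) {n : ℕ} {x : Fin n → ℝ} (hx : ∀ i, 0 ≤ x i) :
    ContinuousOn (fun s => ∏ i, Phi α (x i * s)) (Ici 0) := by
  refine continuousOn_finsetProd _ fun i _ => ?_
  refine (Phi_continuousOn hα).comp (by fun_prop) ?_
  intro s hs
  exact mul_nonneg (hx i) hs

theorem N08_meas (hα : 1 < α) {n : ℕ} {x : Fin n → ℝ} (hx : ∀ i, 0 ≤ x i) :
    AEStronglyMeasurable (fun s => ∏ i, Phi α (x i * s)) (volume.restrict (Ioi (0 : ℝ))) :=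
  ((N08_term_continuousOn hα hx).mono Ioi_subset_Ici_self).aestronglyMeasurable
    measurableSet_Ioi

theorem N08_bound (hg : Good α C) {n : ℕ} {x : Fin n → ℝ} (hx : ∀ i, 0 ≤ x i)
    (h1 : ∑ i, x i = 1) (hx4 : ∀ i, x i ≤ 0.4) {s : ℝ} (hs : 0 ≤ s) :
    ‖∏ i, Phi α (x i * s)‖ ≤ (1 + 0.4 * s) ^ (-(5 / 2) : ℝ) := by
  have h := good_prod hg Finset.univ hx (u := 0.4) (by norm_num) hx4 hs
  rw [h1] at h
  rw [Real.norm_eq_abs, Finset.abs_prod]
  refine h.trans (le_of_eq ?_)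
  norm_num

theorem good_integrable (hg : Good α C) {n : ℕ} {x : Fin n → ℝ} (hx : ∀ i, 0 ≤ x i)
    (h1 : ∑ i, x i = 1) (hx4 : ∀ i, x i ≤ 0.4) :
    IntegrableOn (fun s => ∏ i, Phi α (x i * s)) (Ioi 0) := by
  refine Integrable.mono' (int_tail (u := 0.4) (r := 5 / 2) (by norm_num) (by norm_num)
    le_rfl).1 (N08_meas hg.one_lt hx) ?_
  filter_upwards [ae_restrict_mem measurableSet_Ioi] with s hs
  exact N08_bound hg hx h1 hx4 (le_of_lt hs)

theorem good_J_continuousOn (hg : Good α C) (n : ℕ) :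
    ContinuousOn (J α (n := n)) {x | (∀ i, 0 ≤ x i) ∧ ∑ i, x i = 1 ∧ ∀ i, x i ≤ 0.4} := by
  unfold J
  refine continuousOn_of_dominated (bound := fun s => (1 + 0.4 * s) ^ (-(5 / 2) : ℝ)) ?_ ?_
    (int_tail (u := 0.4) (r := 5 / 2) (by norm_num) (by norm_num) le_rfl).1 ?_
  · intro x hx
    exact N08_meas hg.one_lt hx.1
  · intro x hx
    filter_upwards [ae_restrict_mem measurableSet_Ioi] with s hs
    exact N08_bound hg hx.1 hx.2.1 hx.2.2 (le_of_lt hs)
  · filter_upwards [ae_restrict_mem measurableSet_Ioi] with s hs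
    refine continuousOn_finsetProd _ fun i _ => ?_
    refine (Phi_continuousOn hg.one_lt).comp (by fun_prop) ?_
    intro x hx
    exact mul_nonneg (hx.1 i) (le_of_lt hs)

end LpSec

end

section
/-!
# N09 Der: the derivative of `J` along `t ↦ mv x i j t`

`mv x i j t` has the coordinates `x i - t` at `i`, `x j + t` at `j`, `x k` otherwise (`i ≠ j`). So
`∏_k Phi (mv x i j t k s) = Phi ((x i - t) s) Phi ((x j + t) s) Rf α x i j s`, whose `t`-derivative is
`s (Phi1 ((x i - t) s) Phi ((x j + t) s) - Phi ((x i - t) s) Phi1 ((x j + t) s)) Rf` for `s > 0`, `t` in the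
open interval `(0, x i)` (`Phi_hasDerivAt`). Differentiate under the integral
(`hasDerivAt_integral_of_dominated_loc_of_deriv_le`) near `t ∈ (0, min …)`. Dominating function: all
coordinates of `mv x i j t` are `≤ 0.4` and sum to `1`; by `dec1` (`|Phi1 y| ≤ 2 (1+y)^{-1}`) each of
the two terms is at most `2 s ∏_k (1 + y k s)^{-1} ≤ 2 s (1 + 0.4 s)^{-2.5}` (`y = mv x i j t`), and
`∫ s (1+0.4 s)^{-2.5} < ∞` (`s ≤ 2.5 (1 + 0.4 s)`).
Note `Rf α (mv x i j t) i j = Rf α x i j`.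
-/

open Real MeasureTheory Set Filter Topology

namespace LpSec

variable {α C : ℝ}

theorem n09_mv_i {n : ℕ} (x : Fin n → ℝ) {i j : Fin n} (hij : i ≠ j) (t : ℝ) :
    mv x i j t i = x i - t := by
  simp [mv, hij]

theorem n09_mv_j {n : ℕ} (x : Fin n → ℝ) {i j : Fin n} (t : ℝ) :
    mv x i j t j = x j + t := by
  simp [mv]

theorem n09_mv_k {n : ℕ} (x : Fin n → ℝ) {i j k : Fin n} (hi : k ≠ i) (hj : k ≠ j) (t : ℝ) :
    mv x i j t k = x k := by
  simp [mv, hi, hj]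

theorem n09_mem {n : ℕ} {i j : Fin n} (hij : i ≠ j) :
    j ∈ (Finset.univ : Finset (Fin n)).erase i := by
  simp [hij.symm]

theorem n09_split_sum {n : ℕ} (g : Fin n → ℝ) {i j : Fin n} (hij : i ≠ j) :
    ∑ k, g k = g i + (g j + ∑ k ∈ (Finset.univ.erase i).erase j, g k) := by
  rw [← Finset.add_sum_erase _ g (Finset.mem_univ i), ← Finset.add_sum_erase _ g (n09_mem hij)]

theorem n09_split_prod {n : ℕ} (g : Fin n → ℝ) {i j : Fin n} (hij : i ≠ j) :
    ∏ k, g k = g i * (g j * ∏ k ∈ (Finset.univ.erase i).erase j, g k) := by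
  rw [← Finset.mul_prod_erase _ g (Finset.mem_univ i), ← Finset.mul_prod_erase _ g (n09_mem hij)]

theorem mv_sum {n : ℕ} (x : Fin n → ℝ) {i j : Fin n} (hij : i ≠ j) (t : ℝ) :
    ∑ k, mv x i j t k = ∑ k, x k := by
  rw [n09_split_sum _ hij, n09_split_sum x hij, n09_mv_i x hij, n09_mv_j]
  have h : ∑ k ∈ (Finset.univ.erase i).erase j, mv x i j t k =
      ∑ k ∈ (Finset.univ.erase i).erase j, x k := by
    refine Finset.sum_congr rfl (fun k hk => ?_)
    rw [Finset.mem_erase, Finset.mem_erase] at hk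
    exact n09_mv_k x hk.2.1 hk.1 t
  rw [h]
  ring

theorem n09_Rf {n : ℕ} (x : Fin n → ℝ) {i j : Fin n} (t s : ℝ) :
    Rf α (mv x i j t) i j s = Rf α x i j s := by
  unfold Rf
  refine Finset.prod_congr rfl (fun k hk => ?_)
  rw [Finset.mem_erase, Finset.mem_erase] at hk
  rw [n09_mv_k x hk.2.1 hk.1 t]

theorem n09_one {x u s : ℝ} (hx : 0 ≤ x) (hu : 0 < u) (hxu : x ≤ u) (hs : 0 ≤ s) :
    (1 + x * s)⁻¹ ≤ (1 + u * s) ^ (-(x / u)) := by
  have h1 : (1 + u * s) ^ (x / u) ≤ 1 + x / u * (u * s) := by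
    refine rpow_one_add_le_one_add_mul_self ?_ (by positivity) ?_
    · have : 0 ≤ u * s := by positivity
      linarith
    · rw [div_le_one hu]; exact hxu
  have h2 : x / u * (u * s) = x * s := by field_simp
  rw [h2] at h1
  have h0 : 0 < (1 + u * s) ^ (x / u) := rpow_pos_of_pos (by positivity) _
  rw [rpow_neg (by positivity)]
  exact inv_anti₀ h0 h1

theorem n09_bound (hg : Good α C) {n : ℕ} {x : Fin n → ℝ} (hx : ∀ i, 0 ≤ x i)
    (h1 : ∑ i, x i = 1) (hx4 : ∀ i, x i ≤ 0.4) {i j : Fin n} (hij : i ≠ j) {s : ℝ} (hs : 0 ≤ s) :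
    ‖s * (Phi1 α (x i * s) * Phi α (x j * s) -
      Phi α (x i * s) * Phi1 α (x j * s)) * Rf α x i j s‖ ≤
      10 * (1 + 0.4 * s) ^ (-(3 / 2) : ℝ) := by
  have hu : (0 : ℝ) < 0.4 := by norm_num
  have hpos : (0 : ℝ) < 1 + 0.4 * s := by positivity
  have hR : |Rf α x i j s| ≤
      (1 + 0.4 * s) ^ (-((∑ k ∈ (Finset.univ.erase i).erase j, x k) / 0.4) : ℝ) := by
    unfold Rf
    rw [Finset.abs_prod]
    exact good_prod hg _ hx hu hx4 hs
  have hi0 : 0 ≤ x i * s := mul_nonneg (hx i) hs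
  have hj0 : 0 ≤ x j * s := mul_nonneg (hx j) hs
  have ai := n09_one (hx i) hu (hx4 i) hs
  have aj := n09_one (hx j) hu (hx4 j) hs
  have hi := (hg.dec0 _ hi0).trans ai
  have hj := (hg.dec0 _ hj0).trans aj
  have hi1 : |Phi1 α (x i * s)| ≤ 2 * (1 + 0.4 * s) ^ (-(x i / 0.4)) :=
    (hg.dec1 _ hi0).trans (by linarith)
  have hj1 : |Phi1 α (x j * s)| ≤ 2 * (1 + 0.4 * s) ^ (-(x j / 0.4)) :=
    (hg.dec1 _ hj0).trans (by linarith)
  set pi' := (1 + 0.4 * s) ^ (-(x i / 0.4)) with hpi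
  set pj' := (1 + 0.4 * s) ^ (-(x j / 0.4)) with hpj
  set pr := (1 + 0.4 * s) ^ (-((∑ k ∈ (Finset.univ.erase i).erase j, x k) / 0.4) : ℝ) with hpr
  have hpi0 : 0 < pi' := rpow_pos_of_pos hpos _
  have hpj0 : 0 < pj' := rpow_pos_of_pos hpos _
  have hpr0 : 0 < pr := rpow_pos_of_pos hpos _
  have hprod : pi' * (pj' * pr) = (1 + 0.4 * s) ^ (-(5 / 2) : ℝ) := by
    rw [hpi, hpj, hpr, ← rpow_add hpos, ← rpow_add hpos]
    congr 1
    have := n09_split_sum x hij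
    rw [h1] at this
    have e : ∑ k ∈ (Finset.univ.erase i).erase j, x k = 1 - x i - x j := by linarith
    rw [e]
    norm_num
    ring
  have hA : |Phi1 α (x i * s) * Phi α (x j * s)| ≤ 2 * (pi' * pj') := by
    rw [abs_mul]
    calc |Phi1 α (x i * s)| * |Phi α (x j * s)| ≤ (2 * pi') * pj' :=
          mul_le_mul hi1 hj (abs_nonneg _) (by positivity)
      _ = 2 * (pi' * pj') := by ring
  have hB : |Phi α (x i * s) * Phi1 α (x j * s)| ≤ 2 * (pi' * pj') := by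
    rw [abs_mul]
    calc |Phi α (x i * s)| * |Phi1 α (x j * s)| ≤ pi' * (2 * pj') :=
          mul_le_mul hi hj1 (abs_nonneg _) (by positivity)
      _ = 2 * (pi' * pj') := by ring
  have hC : |Phi1 α (x i * s) * Phi α (x j * s) - Phi α (x i * s) * Phi1 α (x j * s)| ≤
      4 * (pi' * pj') := (abs_sub _ _).trans (by linarith)
  have hs1 : s ≤ 5 / 2 * (1 + 0.4 * s) := by
    norm_num
    linarith
  rw [Real.norm_eq_abs, abs_mul, abs_mul, abs_of_nonneg hs]
  calc s * |Phi1 α (x i * s) * Phi α (x j * s) - Phi α (x i * s) * Phi1 α (x j * s)| *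
        |Rf α x i j s| ≤ (5 / 2 * (1 + 0.4 * s)) * (4 * (pi' * pj')) * pr := by
        refine mul_le_mul ?_ hR (abs_nonneg _) (by positivity)
        exact mul_le_mul hs1 hC (abs_nonneg _) (by positivity)
    _ = 10 * ((1 + 0.4 * s) ^ (1 : ℝ) * (pi' * (pj' * pr))) := by rw [rpow_one]; ring
    _ = 10 * (1 + 0.4 * s) ^ (-(3 / 2) : ℝ) := by
        rw [hprod, ← rpow_add hpos]
        norm_num

theorem n09_Phi_cont (hα : 1 < α) {c : ℝ} (hc : 0 ≤ c) :
    ContinuousOn (fun s => Phi α (c * s)) (Ici 0) := by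
  refine (Phi_continuousOn hα).comp (continuousOn_const.mul continuousOn_id) ?_
  intro s hs
  exact mul_nonneg hc hs

theorem n09_Phi1_cont (hα : 1 < α) {c : ℝ} (hc : 0 ≤ c) :
    ContinuousOn (fun s => Phi1 α (c * s)) (Ici 0) := by
  refine (Phi1_continuousOn hα).comp (continuousOn_const.mul continuousOn_id) ?_
  intro s hs
  exact mul_nonneg hc hs

theorem n09_cont (hα : 1 < α) {n : ℕ} {x : Fin n → ℝ} (hx : ∀ i, 0 ≤ x i) (i j : Fin n) :
    ContinuousOn (fun s => s * (Phi1 α (x i * s) * Phi α (x j * s) -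
      Phi α (x i * s) * Phi1 α (x j * s)) * Rf α x i j s) (Ici 0) := by
  refine (continuousOn_id.mul (((n09_Phi1_cont hα (hx i)).mul (n09_Phi_cont hα (hx j))).sub
    ((n09_Phi_cont hα (hx i)).mul (n09_Phi1_cont hα (hx j))))).mul ?_
  unfold Rf
  exact continuousOn_finsetProd _ (fun k _ => n09_Phi_cont hα (hx k))

theorem n09_meas (hα : 1 < α) {n : ℕ} {x : Fin n → ℝ} (hx : ∀ i, 0 ≤ x i) (i j : Fin n) :
    AEStronglyMeasurable (fun s => s * (Phi1 α (x i * s) * Phi α (x j * s) -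
      Phi α (x i * s) * Phi1 α (x j * s)) * Rf α x i j s) (volume.restrict (Ioi 0)) :=
  ((n09_cont hα hx i j).mono Ioi_subset_Ici_self).aestronglyMeasurable measurableSet_Ioi

theorem n09_dom : IntegrableOn (fun s : ℝ => 10 * (1 + 0.4 * s) ^ (-(3 / 2) : ℝ)) (Ioi 0) :=
  (int_tail (u := 0.4) (r := 3 / 2) (by norm_num) (by norm_num) le_rfl).1.const_mul 10

theorem IJ_integrable (hg : Good α C) {n : ℕ} {x : Fin n → ℝ} (hx : ∀ i, 0 ≤ x i)
    (h1 : ∑ i, x i = 1) (hx4 : ∀ i, x i ≤ 0.4) {i j : Fin n} (hij : i ≠ j) :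
    IntegrableOn (fun s => s * (Phi1 α (x i * s) * Phi α (x j * s) -
      Phi α (x i * s) * Phi1 α (x j * s)) * Rf α x i j s) (Ioi 0) := by
  refine Integrable.mono' n09_dom (n09_meas hg.one_lt hx i j) ?_
  exact (ae_restrict_mem measurableSet_Ioi).mono
    (fun s hs => n09_bound hg hx h1 hx4 hij (le_of_lt hs))

theorem n09_deriv (hα : 1 < α) {n : ℕ} {x : Fin n → ℝ} (hx : ∀ i, 0 ≤ x i)
    {i j : Fin n} (hij : i ≠ j) {t s : ℝ} (ht : 0 < t) (ht' : t < x i) (hs : 0 < s) :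
    HasDerivAt (fun t => ∏ k, Phi α (mv x i j t k * s))
      (s * (Phi1 α (mv x i j t i * s) * Phi α (mv x i j t j * s) -
      Phi α (mv x i j t i * s) * Phi1 α (mv x i j t j * s)) * Rf α (mv x i j t) i j s) t := by
  have hfun : (fun t => ∏ k, Phi α (mv x i j t k * s)) =
      fun t => Phi α ((x i - t) * s) * (Phi α ((x j + t) * s) * Rf α x i j s) := by
    funext t
    rw [n09_split_prod (fun k => Phi α (mv x i j t k * s)) hij, n09_mv_i x hij, n09_mv_j]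
    congr 2
    exact n09_Rf x t s
  rw [hfun, n09_Rf, n09_mv_i x hij, n09_mv_j]
  have hi : HasDerivAt (fun t => Phi α ((x i - t) * s)) (-(Phi1 α ((x i - t) * s)) * (-1 * s)) t := by
    have h1 : HasDerivAt (fun t : ℝ => (x i - t) * s) (-1 * s) t :=
      ((hasDerivAt_id t).const_sub (x i)).mul_const s
    exact (Phi_hasDerivAt hα (mul_pos (by linarith) hs)).comp t h1
  have hj : HasDerivAt (fun t => Phi α ((x j + t) * s)) (-(Phi1 α ((x j + t) * s)) * (1 * s)) t := by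
    have h1 : HasDerivAt (fun t : ℝ => (x j + t) * s) (1 * s) t :=
      ((hasDerivAt_id t).const_add (x j)).mul_const s
    exact (Phi_hasDerivAt hα (mul_pos (by linarith [hx j]) hs)).comp t h1
  have h := hi.mul (hj.mul_const (Rf α x i j s))
  refine h.congr_deriv ?_
  ring

theorem J_mv_hasDerivAt (hg : Good α C) {n : ℕ} {x : Fin n → ℝ} (hx : ∀ i, 0 ≤ x i)
    (h1 : ∑ i, x i = 1) (hx4 : ∀ i, x i ≤ 0.4) {i j : Fin n} (hij : i ≠ j) {t : ℝ} (ht : 0 < t)
    (ht' : t < x i) (hj : x j + t < 0.4) :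
    HasDerivAt (fun t => J α (mv x i j t)) (IJ α (mv x i j t) i j) t := by
  have hα := hg.one_lt
  have hU : Ioo 0 (min (x i) (0.4 - x j)) ∈ 𝓝 t :=
    Ioo_mem_nhds ht (lt_min ht' (by linarith))
  -- properties of the moved point
  have hy : ∀ r ∈ Ioo 0 (min (x i) (0.4 - x j)), (∀ k, 0 ≤ mv x i j r k) ∧
      (∀ k, mv x i j r k ≤ 0.4) := by
    intro r hr
    have hr0 := hr.1
    have hr1 := lt_of_lt_of_le hr.2 (min_le_left _ _)
    have hr2 := lt_of_lt_of_le hr.2 (min_le_right _ _)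
    have key : ∀ k, 0 ≤ mv x i j r k ∧ mv x i j r k ≤ 0.4 := by
      intro k
      rcases eq_or_ne k j with rfl | hkj
      · rw [n09_mv_j]
        exact ⟨by linarith [hx k], by linarith⟩
      · rcases eq_or_ne k i with rfl | hki
        · rw [n09_mv_i x hij]
          exact ⟨by linarith, by linarith [hx4 k]⟩
        · rw [n09_mv_k x hki hkj]
          exact ⟨hx k, hx4 k⟩
    exact ⟨fun k => (key k).1, fun k => (key k).2⟩
  have htU : t ∈ Ioo 0 (min (x i) (0.4 - x j)) := mem_of_mem_nhds hU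
  have hsum : ∀ r, ∑ k, mv x i j r k = 1 := fun r => (mv_sum x hij r).trans h1
  have h := hasDerivAt_integral_of_dominated_loc_of_deriv_le
    (μ := volume.restrict (Ioi (0 : ℝ)))
    (F := fun t s => ∏ k, Phi α (mv x i j t k * s))
    (F' := fun t s => s * (Phi1 α (mv x i j t i * s) * Phi α (mv x i j t j * s) -
      Phi α (mv x i j t i * s) * Phi1 α (mv x i j t j * s)) * Rf α (mv x i j t) i j s)
    (x₀ := t) (bound := fun s : ℝ => 10 * (1 + 0.4 * s) ^ (-(3 / 2) : ℝ))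
    hU ?_ ?_ ?_ ?_ n09_dom ?_
  · exact h.2
  · filter_upwards [hU] with r hr
    exact ((prod_continuousOn hα (hy r hr).1).mono Ioi_subset_Ici_self).aestronglyMeasurable
      measurableSet_Ioi
  · exact good_integrable hg (hy t htU).1 (hsum t) (hy t htU).2
  · exact n09_meas hα (hy t htU).1 i j
  · refine (ae_restrict_mem measurableSet_Ioi).mono (fun s hs r hr => ?_)
    exact n09_bound hg (hy r hr).1 (hsum r) (hy r hr).2 hij (le_of_lt hs)
  · refine (ae_restrict_mem measurableSet_Ioi).mono (fun s hs r hr => ?_)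
    exact n09_deriv hα hx hij hr.1 (lt_of_lt_of_le hr.2 (min_le_left _ _)) hs

end LpSec

end

section
/-!
# N10 W: the two-point function `W(a,b) = Phi1 a Phi b - Phi a Phi1 b`

For `0 ≤ b ≤ a`: `W(b,b) = 0` and, for `t > 0`,
`∂_t W(t,b) = -Phi2 t Phi b + Phi1 t Phi1 b` (`Phi_hasDerivAt`, `Phi1_hasDerivAt`). Put
`Phi = e^{-·} + E0`, `Phi1 = e^{-·} + E1`, `Phi2 = e^{-·} + E2` (`|Ei| ≤ C δ (1+·)^{-3/2}` by `Good`); the
products `e^{-t} e^{-b}` cancel, and
`∂_t W = -e^{-t} E0(b) - E2(t) e^{-b} - E2(t) E0(b) + e^{-t} E1(b) + E1(t) e^{-b} + E1(t) E1(b)`, so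
`|∂_t W| ≤ (8 C + 2 C²) δ (1+t)^{-3/2} (1+b)^{-3/2}` (`e^{-t} ≤ 2 (1+t)^{-3/2}`, `δ ≤ 1`; check
`(1+t)^{3/2} e^{-t} ≤ 2`: `(1+t)^{3/2} ≤ (1+t)^2 ≤ 2 (1 + t + t²/2)`). Integrate over `[b,a]`, using
`(1+t)^{-3/2} ≤ (1+b)^{-3/2}`: `|W(a,b)| ≤ (8C+2C²) δ (a-b) (1+b)^{-3}`
(`norm_image_sub_le_of_norm_deriv_le_segment'`; continuity at `b = 0`: `Phi_continuousOn`,
`Phi1_continuousOn`).
-/

open Real MeasureTheory Set Filter Topology

namespace LpSec


theorem n10_exp_le {t : ℝ} (ht : 0 ≤ t) : exp (-t) ≤ 2 * (1 + t) ^ (-(3 / 2) : ℝ) := by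
  have h1 : (0 : ℝ) < 1 + t := by linarith
  have h2 : (1 + t) ^ ((3 / 2) : ℝ) ≤ (1 + t) ^ (2 : ℝ) :=
    rpow_le_rpow_of_exponent_le (by linarith) (by norm_num)
  rw [rpow_two] at h2
  have h4 : 1 + t + t ^ 2 / 2 ≤ exp t := quadratic_le_exp_of_nonneg ht
  have h5 : (1 + t) ^ ((3 / 2) : ℝ) ≤ 2 * exp t := by nlinarith
  rw [rpow_neg h1.le, exp_neg]
  have h6 : (0 : ℝ) < (1 + t) ^ ((3 / 2) : ℝ) := rpow_pos_of_pos h1 _
  have h7 : 0 < exp t := exp_pos t
  rw [← div_eq_mul_inv, inv_eq_one_div, div_le_div_iff₀ h7 h6]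
  linarith

theorem n10_abstract {P0 P1 P2 : ℝ → ℝ} {C δ : ℝ} (hC : 0 < C) (hδ : 0 ≤ δ) (hδ1 : δ ≤ 1)
    (h0 : ∀ s : ℝ, 0 ≤ s → |P0 s - exp (-s)| ≤ C * δ * (1 + s) ^ (-(3 / 2) : ℝ))
    (h1 : ∀ s : ℝ, 0 ≤ s → |P1 s - exp (-s)| ≤ C * δ * (1 + s) ^ (-(3 / 2) : ℝ))
    (h2 : ∀ s : ℝ, 0 ≤ s → |P2 s - exp (-s)| ≤ C * δ * (1 + s) ^ (-(3 / 2) : ℝ))
    (c0 : ContinuousOn P0 (Ici 0)) (c1 : ContinuousOn P1 (Ici 0))
    (d0 : ∀ s : ℝ, 0 < s → HasDerivAt P0 (-(P1 s)) s)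
    (d1 : ∀ s : ℝ, 0 < s → HasDerivAt P1 (-(P2 s)) s)
    {a b : ℝ} (hb : 0 ≤ b) (hab : b ≤ a) :
    |P1 a * P0 b - P0 a * P1 b| ≤
      (8 * C + 2 * C ^ 2) * δ * (a - b) * (1 + b) ^ (-(3 : ℝ)) := by
  rcases hab.eq_or_lt with rfl | hlt
  · simp [mul_comm]
  have hsub : Icc b a ⊆ Ici 0 := fun x hx => hb.trans hx.1
  obtain ⟨t, ht, hte⟩ := exists_hasDerivAt_eq_slope (fun t => P1 t * P0 b - P0 t * P1 b)
    (fun t => -(P2 t) * P0 b - -(P1 t) * P1 b) hlt
    (((c1.mono hsub).mul continuousOn_const).sub ((c0.mono hsub).mul continuousOn_const))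
    (fun x hx => ((d1 x (hb.trans_lt hx.1)).mul_const _).sub
      ((d0 x (hb.trans_lt hx.1)).mul_const _))
  have hpos : 0 < a - b := by linarith
  have hbb : P1 b * P0 b - P0 b * P1 b = 0 := by ring
  have hval : P1 a * P0 b - P0 a * P1 b = (-(P2 t) * P0 b - -(P1 t) * P1 b) * (a - b) := by
    rw [hte, hbb, sub_zero, div_mul_cancel₀ _ hpos.ne']
  rw [hval, abs_mul, abs_of_pos hpos]
  have ht0 : 0 ≤ t := hb.trans ht.1.le
  set wt := (1 + t) ^ (-(3 / 2) : ℝ) with hwt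
  set wb := (1 + b) ^ (-(3 / 2) : ℝ) with hwb
  have hwt0 : 0 < wt := rpow_pos_of_pos (by linarith) _
  have hwb0 : 0 < wb := rpow_pos_of_pos (by linarith) _
  have hwle : wt ≤ wb := by
    apply rpow_le_rpow_of_nonpos (by linarith) (by linarith [ht.1]) (by norm_num)
  have hw2 : wb * wb = (1 + b) ^ (-(3 : ℝ)) := by
    rw [hwb, ← rpow_add (by linarith)]; norm_num
  have e_t := n10_exp_le ht0
  have e_b := n10_exp_le hb
  rw [← hwt] at e_t
  rw [← hwb] at e_b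
  have p_t := exp_pos (-t)
  have p_b := exp_pos (-b)
  have a0 := h0 b hb
  have a1 := h1 b hb
  have a2 := h1 t ht0
  have a3 := h2 t ht0
  rw [← hwb] at a0 a1
  rw [← hwt] at a2 a3
  set et := exp (-t)
  set eb := exp (-b)
  have key : |-(P2 t) * P0 b - -(P1 t) * P1 b| ≤ (8 * C + 2 * C ^ 2) * δ * (wt * wb) := by
    have hid : -(P2 t) * P0 b - -(P1 t) * P1 b =
        et * (P1 b - eb) + (P1 t - et) * eb + (P1 t - et) * (P1 b - eb)
          - et * (P0 b - eb) - (P2 t - et) * eb - (P2 t - et) * (P0 b - eb) := by ring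
    rw [hid]
    have hCδ : 0 ≤ C * δ := by positivity
    have m1 : |et * (P1 b - eb)| ≤ 2 * wt * (C * δ * wb) := by
      rw [abs_mul, abs_of_pos p_t]
      exact mul_le_mul e_t a1 (abs_nonneg _) (by positivity)
    have m2 : |(P1 t - et) * eb| ≤ C * δ * wt * (2 * wb) := by
      rw [abs_mul, abs_of_pos p_b]
      exact mul_le_mul a2 e_b p_b.le (by positivity)
    have m3 : |(P1 t - et) * (P1 b - eb)| ≤ C * δ * wt * (C * δ * wb) := by
      rw [abs_mul]
      exact mul_le_mul a2 a1 (abs_nonneg _) (by positivity)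
    have m4 : |et * (P0 b - eb)| ≤ 2 * wt * (C * δ * wb) := by
      rw [abs_mul, abs_of_pos p_t]
      exact mul_le_mul e_t a0 (abs_nonneg _) (by positivity)
    have m5 : |(P2 t - et) * eb| ≤ C * δ * wt * (2 * wb) := by
      rw [abs_mul, abs_of_pos p_b]
      exact mul_le_mul a3 e_b p_b.le (by positivity)
    have m6 : |(P2 t - et) * (P0 b - eb)| ≤ C * δ * wt * (C * δ * wb) := by
      rw [abs_mul]
      exact mul_le_mul a3 a0 (abs_nonneg _) (by positivity)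
    have hsq : δ * δ ≤ δ := by nlinarith
    have hfin : C * δ * wt * (C * δ * wb) ≤ C ^ 2 * δ * (wt * wb) := by
      have : 0 ≤ C ^ 2 * (wt * wb) := by positivity
      nlinarith [mul_le_mul_of_nonneg_left hsq this]
    have t1 := abs_le.1 m1
    have t2 := abs_le.1 m2
    have t3 := abs_le.1 m3
    have t4 := abs_le.1 m4
    have t5 := abs_le.1 m5
    have t6 := abs_le.1 m6
    rw [abs_le]
    constructor
    · linarith [t1.1, t2.1, t3.1, t4.2, t5.2, t6.2]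
    · linarith [t1.2, t2.2, t3.2, t4.1, t5.1, t6.1]
  calc |-(P2 t) * P0 b - -(P1 t) * P1 b| * (a - b)
      ≤ (8 * C + 2 * C ^ 2) * δ * (wt * wb) * (a - b) :=
        mul_le_mul_of_nonneg_right key hpos.le
    _ ≤ (8 * C + 2 * C ^ 2) * δ * (wb * wb) * (a - b) := by
        gcongr
    _ = (8 * C + 2 * C ^ 2) * δ * (a - b) * (1 + b) ^ (-(3 : ℝ)) := by rw [hw2]; ring

variable {α C : ℝ}

theorem W_bound (hC : 0 < C) (hg : Good α C) {a b : ℝ} (hb : 0 ≤ b) (hab : b ≤ a) :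
    |Phi1 α a * Phi α b - Phi α a * Phi1 α b| ≤
      (8 * C + 2 * C ^ 2) * (α - 1) * (a - b) * (1 + b) ^ (-(3 : ℝ)) := by
  have hα := hg.one_lt
  exact n10_abstract hC (by linarith) (by linarith [hg.le]) hg.err0 hg.err1 hg.err2
    (Phi_continuousOn hα) (Phi1_continuousOn hα) (fun s hs => Phi_hasDerivAt hα hs)
    (fun s hs => Phi1_hasDerivAt hα hs) hb hab

end LpSec

end

section
/-!
# N11 Pair: the derivative of `J` towards equality is positive near the diagonal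

Let `u = x i > v = x j`, `M = max_k x k ≤ 1/3 + 0.02 < 0.4`, `w(s) = W(u s, v s)`,
`R = Rf α x i j`, so `IJ = ∫_0^∞ s w(s) R(s) ds`.
Part A, `0 < s ≤ T/M` (`T ≥ 1`, so `T/M ≥ 1`): all `x k s ≤ T`, so by `Slope`
`s w(s) R(s) ≥ (δ/4)(u-v) s² ∏_k Phi (x k s) ≥ 0`, and for `s ≤ 1`: `Phi (x k s) ≥ 1 - x k s ≥ e^{-2 x k s}`
(`Phi_ge`; `x k s ≤ 0.4 ≤ 1/2`), so `∏_k Phi (x k s) ≥ e^{-2}`. Hence
`∫_0^{T/M} s w R ≥ (δ/4)(u-v) e^{-2}/3 ≥ 0.011 δ (u-v)`.
Part B, `s > T/M`: by `W_bound` `|s w(s) R(s)| ≤ C1 δ (u-v) s² (1+vs)^{-3} |R(s)|`, `C1 = 8C+2C²`.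
* if `M ≤ 0.15`: `|R(s)| ≤ (1+Ms)^{-(1-u-v)/M} ≤ (1+Ms)^{-(1/M-2)}` (`good_prod` on the complement of
  `i, j`), `s² ≤ M^{-2} (1+Ms)²`; so with `y = 1/M ≥ 20/3`:
  `∫_{T/M}^∞ s² |R| ≤ M^{-2} ∫_{T/M}^∞ (1+Ms)^{4-y} ds = y³ (1+T)^{5-y}/(y-5)` (`int_tail`).
* if `M > 0.15`: `1/n ≥ M - 0.02 ≥ 0.13`, so `n ≤ 7` and all `x k ≥ 1/7 - 0.02 ≥ 0.12`; `n ≥ 3` gives
  at least one factor in `R`: `|R| ≤ (1 + 0.12 s)^{-1}`; so
  `s² (1+vs)^{-3} |R| ≤ 0.12^{-2} (1 + 0.12 s)^{-2}`.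
Choose `T ≥ 1` with `C1 · 1930/T < 0.011`.
-/

open Real MeasureTheory Set Filter Topology

namespace LpSec

private theorem N11_exp {y : ℝ} (h0 : 0 ≤ y) (h1 : y ≤ 1 / 2) : exp (-(2 * y)) ≤ 1 - y := by
  rw [exp_neg]
  have h2 : 1 + 2 * y ≤ exp (2 * y) := by
    have := add_one_le_exp (2 * y)
    linarith
  have h3 : (0 : ℝ) < 1 + 2 * y := by linarith
  calc (exp (2 * y))⁻¹ ≤ (1 + 2 * y)⁻¹ := inv_anti₀ h3 h2
    _ ≤ 1 - y := by
      rw [inv_le_comm₀ h3 (by linarith)]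
      rw [inv_le_iff_one_le_mul₀ (by linarith)]
      nlinarith

private theorem N11_num {y T : ℝ} (hy : 20 / 3 ≤ y) (hT : 1 ≤ T) :
    y ^ 2 * ((1 + T) ^ (1 - (y - 4)) / (y⁻¹ * (y - 4 - 1))) ≤ 1930 / T := by
  have hy0 : 0 < y := by linarith
  have hT0 : 0 < T := by linarith
  have h5 : 0 < y - 5 := by linarith
  -- `(1 + T) ^ (5 - y) ≤ T⁻¹ * ((0.17 y)^3)⁻¹`
  have hlog : 0.69 < Real.log 2 := by
    have := Real.log_two_gt_d9
    linarith
  have h6 : (0.17 * y) ^ 3 ≤ (2 : ℝ) ^ (y - 6) := by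
    rw [Real.rpow_def_of_pos two_pos]
    have e1 : exp (Real.log 2 * (y - 6)) = exp (Real.log 2 * (y - 6) / 3) ^ 3 := by
      rw [← exp_nat_mul]
      congr 1
      push_cast
      ring
    rw [e1]
    refine pow_le_pow_left₀ (by positivity) ?_ 3
    have h7 := add_one_le_exp (Real.log 2 * (y - 6) / 3)
    have h8 : 0.69 * (y - 6) ≤ Real.log 2 * (y - 6) :=
      mul_le_mul_of_nonneg_right hlog.le (by linarith)
    linarith
  have h9 : (1 + T) ^ (1 - (y - 4)) ≤ T⁻¹ * ((0.17 * y) ^ 3)⁻¹ := by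
    have e2 : 1 - (y - 4) = -1 + -(y - 6) := by ring
    rw [e2, Real.rpow_add (by linarith), Real.rpow_neg_one]
    refine mul_le_mul (inv_anti₀ hT0 (by linarith)) ?_ (by positivity) (by positivity)
    rw [Real.rpow_neg (by linarith)]
    refine inv_anti₀ (by positivity) (h6.trans ?_)
    exact Real.rpow_le_rpow two_pos.le (by linarith) (by linarith)
  calc y ^ 2 * ((1 + T) ^ (1 - (y - 4)) / (y⁻¹ * (y - 4 - 1)))
      ≤ y ^ 2 * ((T⁻¹ * ((0.17 * y) ^ 3)⁻¹) / (y⁻¹ * (y - 4 - 1))) := by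
        refine mul_le_mul_of_nonneg_left ?_ (by positivity)
        have : 0 < y⁻¹ * (y - 4 - 1) := mul_pos (inv_pos.2 hy0) (by linarith)
        exact div_le_div_of_nonneg_right h9 this.le
    _ = (1 / (0.17 ^ 3 * (y - 5))) / T := by
        have : y - 4 - 1 = y - 5 := by ring
        rw [this]
        field_simp
    _ ≤ 1930 / T := by
        refine div_le_div_of_nonneg_right ?_ hT0.le
        rw [div_le_iff₀ (by positivity)]
        nlinarith

private theorem N11_tail {α C : ℝ} (hg : Good α C) {n : ℕ} (hn : 3 ≤ n) {x : Fin n → ℝ}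
    (hsum : ∑ i, x i = 1) (hnear : ∀ k, |x k - 1 / (n : ℝ)| ≤ 0.02) (hx0 : ∀ k, 0 ≤ x k)
    {i j : Fin n} (hij : i ≠ j) {m : Fin n} (hm : ∀ k, x k ≤ x m) (hM : 0 < x m) {T : ℝ}
    (hT : 1 ≤ T) : ∃ g : ℝ → ℝ, IntegrableOn g (Ioi (T / x m)) ∧
      (∀ s ∈ Ioi (T / x m), s ^ 2 * (1 + x j * s) ^ (-(3 : ℝ)) * |Rf α x i j s| ≤ g s) ∧
      ∫ s in Ioi (T / x m), g s ≤ 1930 / T := by
  have hT0 : 0 < T := by linarith
  have hn0 : (3 : ℝ) ≤ n := by exact_mod_cast hn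
  have hTM : 0 < T / x m := div_pos hT0 hM
  have habs : ∀ s, |Rf α x i j s| =
      ∏ k ∈ (Finset.univ.erase i).erase j, |Phi α (x k * s)| := by
    intro s
    unfold Rf
    rw [Finset.abs_prod]
  rcases le_or_gt (x m) 0.15 with hc | hc
  · -- many coordinates
    set y := (x m)⁻¹ with hy
    have hy0 : 0 < y := inv_pos.2 hM
    have hy1 : 20 / 3 ≤ y := by
      rw [hy, le_inv_comm₀ (by norm_num) hM]
      norm_num at hc ⊢
      exact hc
    have hMy : x m = y⁻¹ := by rw [hy, inv_inv]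
    obtain ⟨hint, hval⟩ := int_tail (u := x m) (r := y - 4) hM (by linarith) (T := T / x m) hTM.le
    refine ⟨fun s => y ^ 2 * (1 + x m * s) ^ (-(y - 4)), hint.const_mul _, ?_, ?_⟩
    · intro s hs
      have hs0 : 0 < s := hTM.trans hs
      have hMs : 0 < x m * s := mul_pos hM hs0
      have h1 := good_prod hg ((Finset.univ.erase i).erase j) hx0 hM hm hs0.le
      rw [← habs] at h1
      have h2 : ∑ k ∈ (Finset.univ.erase i).erase j, x k = 1 - x i - x j := by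
        rw [Finset.sum_erase_eq_sub (Finset.mem_erase.2 ⟨hij.symm, Finset.mem_univ j⟩),
          Finset.sum_erase_eq_sub (Finset.mem_univ i), hsum]
      rw [h2] at h1
      have h3 : (1 + x m * s) ^ (-((1 - x i - x j) / x m)) ≤ (1 + x m * s) ^ (-(y - 2)) := by
        refine Real.rpow_le_rpow_of_exponent_le (by linarith) ?_
        have h4 : y - 2 = (1 - 2 * x m) / x m := by
          rw [sub_div, mul_div_assoc, div_self hM.ne', hy]
          ring
        rw [h4]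
        refine neg_le_neg (div_le_div_of_nonneg_right ?_ hM.le)
        linarith [hm i, hm j]
      have h5 : (1 + x j * s) ^ (-(3 : ℝ)) ≤ 1 :=
        Real.rpow_le_one_of_one_le_of_nonpos (by
          have := mul_nonneg (hx0 j) hs0.le
          linarith) (by norm_num)
      have h6 : s ^ 2 ≤ y ^ 2 * (1 + x m * s) ^ (2 : ℝ) := by
        have e : (1 + x m * s) ^ (2 : ℝ) = (1 + x m * s) ^ 2 := by
          rw [← Real.rpow_natCast]; norm_num
        rw [e, ← mul_pow]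
        refine pow_le_pow_left₀ hs0.le ?_ 2
        have : y * (1 + x m * s) = y + s := by
          rw [mul_add, mul_one, ← mul_assoc, hy, inv_mul_cancel₀ hM.ne', one_mul]
        rw [this]
        linarith
      calc s ^ 2 * (1 + x j * s) ^ (-(3 : ℝ)) * |Rf α x i j s|
          ≤ s ^ 2 * 1 * (1 + x m * s) ^ (-(y - 2)) :=
            mul_le_mul (mul_le_mul_of_nonneg_left h5 (by positivity)) (h1.trans h3)
              (abs_nonneg _) (by positivity)
        _ ≤ (y ^ 2 * (1 + x m * s) ^ (2 : ℝ)) * 1 * (1 + x m * s) ^ (-(y - 2)) := by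
            refine mul_le_mul_of_nonneg_right (mul_le_mul_of_nonneg_right h6 zero_le_one) ?_
            positivity
        _ = y ^ 2 * (1 + x m * s) ^ (-(y - 4)) := by
            rw [mul_one, mul_assoc, ← Real.rpow_add (by linarith)]
            congr 2
            ring
    · rw [integral_const_mul, hval]
      have e : 1 + x m * (T / x m) = 1 + T := by
        rw [mul_div_cancel₀ _ hM.ne']
      rw [e]
      have := N11_num hy1 hT
      rw [← hMy] at this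
      exact this
  · -- at most seven coordinates
    have hn7 : 1 / (7 : ℝ) ≤ 1 / (n : ℝ) := by
      have h1 := (abs_le.1 (hnear m)).2
      have h2 : (0.13 : ℝ) < 1 / (n : ℝ) := by linarith
      have h3 : n ≤ 7 := by
        by_contra hcon
        push Not at hcon
        have h4 : (8 : ℝ) ≤ n := by exact_mod_cast hcon
        have h5 : 1 / (n : ℝ) ≤ 1 / 8 := one_div_le_one_div_of_le (by norm_num) h4
        norm_num at h2 h5
        linarith
      have h4 : (n : ℝ) ≤ 7 := by exact_mod_cast h3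
      exact one_div_le_one_div_of_le (by linarith) h4
    have hlow : ∀ k, 0.12 ≤ x k := by
      intro k
      have h1 := (abs_le.1 (hnear k)).1
      norm_num at h1 hn7 ⊢
      linarith
    obtain ⟨hint, hval⟩ := int_tail (u := (0.12 : ℝ)) (r := 2) (by norm_num) (by norm_num)
      (T := T / x m) hTM.le
    refine ⟨fun s => (1 / 0.12 ^ 2) * (1 + 0.12 * s) ^ (-(2 : ℝ)), hint.const_mul _, ?_, ?_⟩
    · intro s hs
      have hs0 : 0 < s := hTM.trans hs
      have hb : 0 < 1 + 0.12 * s := by positivity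
      have hb1 : 1 ≤ 1 + 0.12 * s := by
        have : 0 ≤ 0.12 * s := by positivity
        linarith
      -- a factor of `R`
      obtain ⟨k0, hk0⟩ : ((Finset.univ.erase i).erase j).Nonempty := by
        rw [← Finset.card_pos, Finset.card_erase_of_mem
          (Finset.mem_erase.2 ⟨hij.symm, Finset.mem_univ j⟩),
          Finset.card_erase_of_mem (Finset.mem_univ i), Finset.card_univ, Fintype.card_fin]
        omega
      have h1 : |Rf α x i j s| ≤ (1 + 0.12 * s)⁻¹ := by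
        rw [habs, ← Finset.mul_prod_erase _ _ hk0]
        have h2 : |Phi α (x k0 * s)| ≤ (1 + 0.12 * s)⁻¹ := by
          refine (hg.dec0 _ (mul_nonneg (hx0 k0) hs0.le)).trans (inv_anti₀ hb ?_)
          have := mul_le_mul_of_nonneg_right (hlow k0) hs0.le
          linarith
        have h3 : ∏ k ∈ ((Finset.univ.erase i).erase j).erase k0, |Phi α (x k * s)| ≤ 1 := by
          refine Finset.prod_le_one (fun k _ => abs_nonneg _) (fun k _ => ?_)
          refine (hg.dec0 _ (mul_nonneg (hx0 k) hs0.le)).trans (inv_le_one_of_one_le₀ ?_)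
          have := mul_nonneg (hx0 k) hs0.le
          linarith
        calc |Phi α (x k0 * s)| * ∏ k ∈ ((Finset.univ.erase i).erase j).erase k0,
              |Phi α (x k * s)| ≤ (1 + 0.12 * s)⁻¹ * 1 :=
              mul_le_mul h2 h3 (Finset.prod_nonneg fun k _ => abs_nonneg _) (by positivity)
          _ = (1 + 0.12 * s)⁻¹ := mul_one _
      have h4 : (1 + x j * s) ^ (-(3 : ℝ)) ≤ (1 + 0.12 * s) ^ (-(3 : ℝ)) := by
        refine Real.rpow_le_rpow_of_nonpos hb ?_ (by norm_num)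
        have := mul_le_mul_of_nonneg_right (hlow j) hs0.le
        linarith
      have h5 : s ^ 2 ≤ (1 / 0.12 ^ 2) * (1 + 0.12 * s) ^ (2 : ℝ) := by
        have e : (1 + 0.12 * s) ^ (2 : ℝ) = (1 + 0.12 * s) ^ 2 := by
          rw [← Real.rpow_natCast]; norm_num
        rw [e]
        nlinarith
      have hj0 : 0 < 1 + x j * s := by
        have := mul_nonneg (hx0 j) hs0.le
        linarith
      calc s ^ 2 * (1 + x j * s) ^ (-(3 : ℝ)) * |Rf α x i j s|
          ≤ ((1 / 0.12 ^ 2) * (1 + 0.12 * s) ^ (2 : ℝ)) * (1 + 0.12 * s) ^ (-(3 : ℝ)) *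
            (1 + 0.12 * s) ^ (-(1 : ℝ)) := by
            rw [Real.rpow_neg_one]
            exact mul_le_mul (mul_le_mul h5 h4 (by positivity) (by positivity)) h1
              (abs_nonneg _) (by positivity)
        _ = (1 / 0.12 ^ 2) * (1 + 0.12 * s) ^ (-(2 : ℝ)) := by
            rw [mul_assoc, mul_assoc, ← Real.rpow_add hb, ← Real.rpow_add hb]
            norm_num
    · rw [integral_const_mul, hval]
      have hM4 : x m ≤ 0.4 := by
        have h1 := (abs_le.1 (hnear m)).2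
        have h2 : 1 / (n : ℝ) ≤ 1 / 3 := one_div_le_one_div_of_le (by norm_num) hn0
        norm_num at h1 h2 ⊢
        linarith
      have h1 : 2.5 * T ≤ T / x m := by
        rw [le_div_iff₀ hM]
        nlinarith
      have h2 : (1 + 0.12 * (T / x m)) ^ ((1 : ℝ) - 2) ≤ (0.3 * T)⁻¹ := by
        have e : (1 : ℝ) - 2 = -1 := by norm_num
        rw [e, Real.rpow_neg_one]
        refine inv_anti₀ (by positivity) ?_
        linarith
      calc 1 / 0.12 ^ 2 * ((1 + 0.12 * (T / x m)) ^ ((1 : ℝ) - 2) / (0.12 * (2 - 1)))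
          ≤ 1 / 0.12 ^ 2 * ((0.3 * T)⁻¹ / (0.12 * (2 - 1))) := by
            refine mul_le_mul_of_nonneg_left ?_ (by positivity)
            exact div_le_div_of_nonneg_right h2 (by norm_num)
        _ ≤ 1930 / T := by
            rw [mul_inv, div_eq_mul_inv 1930 T]
            have : 0 < T⁻¹ := inv_pos.2 hT0
            norm_num
            nlinarith

theorem pair_pos {C : ℝ} (hC : 0 < C) : ∃ T > 0, ∀ α : ℝ, Good α C → Slope α T →
    ∀ n : ℕ, 3 ≤ n → ∀ x : Fin n → ℝ, ∑ i, x i = 1 → (∀ k, |x k - 1 / (n : ℝ)| ≤ 0.02) →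
      (∀ k, 0 ≤ x k) → ∀ i j, x j < x i → 0 < IJ α x i j := by
  set C1 : ℝ := 8 * C + 2 * C ^ 2 with hC1
  have hC1pos : 0 < C1 := by positivity
  refine ⟨1 + C1 * 1930 / 0.011, by positivity, ?_⟩
  set T : ℝ := 1 + C1 * 1930 / 0.011 with hTdef
  have hT1 : 1 ≤ T := by
    have : 0 ≤ C1 * 1930 / 0.011 := by positivity
    linarith
  have hT0 : 0 < T := by linarith
  have hTC : C1 * (1930 / T) < 0.011 := by
    rw [← mul_div_assoc, div_lt_iff₀ hT0]
    have : C1 * 1930 / 0.011 < T := by linarith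
    rw [div_lt_iff₀ (by norm_num)] at this
    linarith
  intro α hg hS n hn x hsum hnear hx0 i j hij
  have hδ : 0 < α - 1 := sub_pos.2 hg.one_lt
  have hn0 : (3 : ℝ) ≤ n := by exact_mod_cast hn
  have : Nonempty (Fin n) := ⟨i⟩
  obtain ⟨m, hm⟩ := Finite.exists_max x
  have hM : 0 < x m := lt_of_lt_of_le (lt_of_le_of_lt (hx0 j) hij) (hm i)
  have hM4 : x m ≤ 0.4 := by
    have h1 := (abs_le.1 (hnear m)).2
    have h2 : 1 / (n : ℝ) ≤ 1 / 3 := one_div_le_one_div_of_le (by norm_num) hn0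
    norm_num at h1 h2 ⊢
    linarith
  have hx4 : ∀ k, x k ≤ 0.4 := fun k => (hm k).trans hM4
  have hne : i ≠ j := fun h => by rw [h] at hij; exact lt_irrefl _ hij
  have huv : 0 < x i - x j := sub_pos.2 hij
  set f : ℝ → ℝ := fun s => s * (Phi1 α (x i * s) * Phi α (x j * s) -
      Phi α (x i * s) * Phi1 α (x j * s)) * Rf α x i j s with hf
  have hint : IntegrableOn f (Ioi 0) := IJ_integrable hg hx0 hsum hx4 hne
  have hIJ : IJ α x i j = ∫ s in Ioi (0 : ℝ), f s := rfl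
  have hT' : 1 ≤ T / x m := (one_le_div hM).2 (by norm_num at hM4; linarith)
  -- Part A
  have hprod : ∀ s, ∏ k, Phi α (x k * s) = Phi α (x i * s) * (Phi α (x j * s) * Rf α x i j s) := by
    intro s
    unfold Rf
    rw [Finset.mul_prod_erase _ (fun k => Phi α (x k * s))
      (Finset.mem_erase.2 ⟨hne.symm, Finset.mem_univ j⟩),
      Finset.mul_prod_erase _ (fun k => Phi α (x k * s)) (Finset.mem_univ i)]
  have hle : ∀ s, 0 < s → s ≤ T / x m → ∀ k, 0 ≤ x k * s ∧ x k * s ≤ T := by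
    intro s hs hs' k
    refine ⟨mul_nonneg (hx0 k) hs.le, ?_⟩
    calc x k * s ≤ x m * s := mul_le_mul_of_nonneg_right (hm k) hs.le
      _ ≤ x m * (T / x m) := mul_le_mul_of_nonneg_left hs' hM.le
      _ = T := mul_div_cancel₀ _ hM.ne'
  have hA : ∀ s, 0 < s → s ≤ T / x m →
      (α - 1) / 4 * (x i - x j) * s ^ 2 * ∏ k, Phi α (x k * s) ≤ f s := by
    intro s hs hs'
    have hk := hle s hs hs'
    have hR : 0 ≤ Rf α x i j s := by
      unfold Rf
      exact Finset.prod_nonneg fun k _ => (hS.pos _ (hk k)).le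
    have h1 := hS.slope (x i * s) (x j * s) (hk j).1
      (mul_le_mul_of_nonneg_right hij.le hs.le) (hk i).2
    have h2 := mul_le_mul_of_nonneg_right (mul_le_mul_of_nonneg_left h1 hs.le) hR
    rw [hprod]
    simp only [hf]
    refine le_trans (le_of_eq ?_) h2
    ring
  have hpos : ∀ s, 0 < s → s ≤ T / x m → 0 ≤ f s := by
    intro s hs hs'
    refine le_trans ?_ (hA s hs hs')
    have h1 : 0 ≤ ∏ k, Phi α (x k * s) :=
      Finset.prod_nonneg fun k _ => (hS.pos _ (hle s hs hs' k)).le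
    positivity
  have hexp : ∀ s, 0 < s → s ≤ 1 → exp (-2) ≤ ∏ k, Phi α (x k * s) := by
    intro s hs hs1
    have h1 : ∏ k, exp (-(2 * (x k * s))) ≤ ∏ k, Phi α (x k * s) := by
      refine Finset.prod_le_prod (fun k _ => (exp_pos _).le) (fun k _ => ?_)
      have h2 : 0 ≤ x k * s := mul_nonneg (hx0 k) hs.le
      have h3 : x k * s ≤ 1 / 2 := by
        have h4 := mul_le_mul (hx4 k) hs1 hs.le (by norm_num)
        norm_num at h4 ⊢
        linarith
      exact (N11_exp h2 h3).trans (Phi_ge hg.one_lt h2)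
    refine le_trans ?_ h1
    rw [← exp_sum]
    refine exp_le_exp.2 ?_
    have h5 : ∑ k, -(2 * (x k * s)) = -(2 * s) := by
      rw [Finset.sum_neg_distrib, ← Finset.mul_sum, ← Finset.sum_mul, hsum, one_mul]
    rw [h5]
    linarith
  set c : ℝ := (α - 1) / 4 * (x i - x j) * exp (-2) with hc
  have hI1 : c / 3 ≤ ∫ s in Ioc (0 : ℝ) 1, f s := by
    have h1 : ∫ s in Ioc (0 : ℝ) 1, c * s ^ 2 = c / 3 := by
      rw [← intervalIntegral.integral_of_le zero_le_one, intervalIntegral.integral_const_mul,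
        integral_pow]
      norm_num
      ring
    rw [← h1]
    refine setIntegral_mono_on ?_ (hint.mono_set (fun s hs => hs.1)) measurableSet_Ioc ?_
    · exact (continuous_const.mul (continuous_pow 2)).integrableOn_Ioc
    · intro s hs
      refine le_trans ?_ (hA s hs.1 (hs.2.trans hT'))
      have h2 := hexp s hs.1 hs.2
      have h3 : 0 ≤ (α - 1) / 4 * (x i - x j) * s ^ 2 := by positivity
      have h4 := mul_le_mul_of_nonneg_left h2 h3
      rw [hc]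
      refine le_trans (le_of_eq ?_) h4
      ring
  have hI2 : 0 ≤ ∫ s in Ioc 1 (T / x m), f s :=
    setIntegral_nonneg measurableSet_Ioc fun s hs => hpos s (one_pos.trans hs.1) hs.2
  -- Part B
  obtain ⟨g, hgi, hgb, hgv⟩ := N11_tail hg hn hsum hnear hx0 hne hm hM hT1
  have hI3 : -(C1 * (α - 1) * (x i - x j) * (1930 / T)) ≤ ∫ s in Ioi (T / x m), f s := by
    have h1 : ‖∫ s in Ioi (T / x m), f s‖ ≤
        ∫ s in Ioi (T / x m), C1 * (α - 1) * (x i - x j) * g s := by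
      refine norm_integral_le_of_norm_le (hgi.const_mul _) ?_
      filter_upwards [ae_restrict_mem measurableSet_Ioi] with s hs
      have hs0 : 0 < s := lt_trans (by positivity) hs
      have h2 := W_bound hC hg (a := x i * s) (b := x j * s) (mul_nonneg (hx0 j) hs0.le)
        (mul_le_mul_of_nonneg_right hij.le hs0.le)
      have h3 := hgb s hs
      rw [hf, Real.norm_eq_abs, abs_mul, abs_mul, abs_of_pos hs0]
      calc s * |Phi1 α (x i * s) * Phi α (x j * s) - Phi α (x i * s) * Phi1 α (x j * s)| *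
            |Rf α x i j s|
          ≤ s * ((8 * C + 2 * C ^ 2) * (α - 1) * (x i * s - x j * s) *
              (1 + x j * s) ^ (-(3 : ℝ))) * |Rf α x i j s| :=
            mul_le_mul_of_nonneg_right (mul_le_mul_of_nonneg_left h2 hs0.le) (abs_nonneg _)
        _ = C1 * (α - 1) * (x i - x j) *
              (s ^ 2 * (1 + x j * s) ^ (-(3 : ℝ)) * |Rf α x i j s|) := by
            rw [hC1]; ring
        _ ≤ C1 * (α - 1) * (x i - x j) * g s :=
            mul_le_mul_of_nonneg_left h3 (by positivity)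
    rw [integral_const_mul] at h1
    have h2 : C1 * (α - 1) * (x i - x j) * ∫ s in Ioi (T / x m), g s ≤
        C1 * (α - 1) * (x i - x j) * (1930 / T) :=
      mul_le_mul_of_nonneg_left hgv (by positivity)
    rw [Real.norm_eq_abs] at h1
    have h3 := neg_abs_le (∫ s in Ioi (T / x m), f s)
    linarith
  -- sum
  have hsplit : ∀ a b : ℝ, 0 ≤ a → a ≤ b →
      ∫ s in Ioi a, f s = (∫ s in Ioc a b, f s) + ∫ s in Ioi b, f s := by
    intro a b ha hab
    have hd : Disjoint (Ioc a b) (Ioi b) :=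
      Set.disjoint_left.2 fun s h1 h2 => not_lt.2 h1.2 h2
    have i1 : IntegrableOn f (Ioc a b) := hint.mono_set fun s hs => lt_of_le_of_lt ha hs.1
    have i2 : IntegrableOn f (Ioi b) := hint.mono_set fun s hs => lt_of_le_of_lt (ha.trans hab) hs
    rw [← setIntegral_union hd measurableSet_Ioi i1 i2, Ioc_union_Ioi_eq_Ioi hab]
  have hs1 := hsplit 0 1 le_rfl zero_le_one
  have hs2 := hsplit 1 (T / x m) zero_le_one hT'
  rw [hIJ, hs1, hs2]
  have hexp2 : (0.132 : ℝ) < exp (-2) := by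
    have h1 := Real.exp_one_lt_d9
    have h2 : exp (-2) = (exp 1 ^ 2)⁻¹ := by
      rw [← exp_nat_mul, ← exp_neg]
      norm_num
    rw [h2, lt_inv_comm₀ (by norm_num) (by positivity)]
    have h3 : exp 1 ^ 2 < 2.7182818286 ^ 2 := pow_lt_pow_left₀ h1 (exp_pos _).le (by norm_num)
    refine h3.trans ?_
    norm_num
  have hfin : C1 * (α - 1) * (x i - x j) * (1930 / T) < c / 3 := by
    have h1 : C1 * (α - 1) * (x i - x j) * (1930 / T) =
        (C1 * (1930 / T)) * ((α - 1) * (x i - x j)) := by ring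
    have h2 : c / 3 = (exp (-2) / 12) * ((α - 1) * (x i - x j)) := by rw [hc]; ring
    rw [h1, h2]
    have h3 : 0 < (α - 1) * (x i - x j) := mul_pos hδ huv
    refine mul_lt_mul_of_pos_right (hTC.trans_le ?_) h3
    norm_num at hexp2 ⊢
    linarith
  linarith

end LpSec

end

section
/-!
# N12 Near: the diagonal is the strict maximum of `J` near the diagonal

`Kn = {x | 0 ≤ x, ∑ x = 1, ∑ (x k - 1/n)² ≤ 0.0004}` is compact and nonempty; on it
`|x k - 1/n| ≤ 0.02`, so `x k ≤ 1/3 + 0.02 ≤ 0.4` and `J` is continuous (`good_J_continuousOn`).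
Let `x` be a maximiser (`IsCompact.exists_isMaxOn`). If `x` is not constant there are `i, j` with
`x j < x i`. For `0 ≤ t ≤ t0 = (x i - x j)/4` the point `mv x i j t` is in `Kn` (the sum of squares does
not increase: the difference is `-2 t (x i - x j - t) ≤ 0`), and for `0 < t < t0`: `(mv x i j t) j < (mv x i j t) i`,
so `t ↦ J (mv x i j t)` is continuous on `[0,t0]` with positive derivative on `(0,t0)` (`hI`,
`J_mv_hasDerivAt`), hence strictly increasing (`strictMonoOn_of_deriv_pos`), contradiction. So the only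
maximiser is the constant vector `1/n`, and `J x < J (1/n)` for every other `x ∈ Kn` (otherwise `x`
would be a maximiser too).
-/

open Real MeasureTheory Set Filter Topology

namespace LpSec

/-- The neighbourhood of the diagonal. -/
def N12K (n : ℕ) : Set (Fin n → ℝ) :=
  {x | (∀ i, 0 ≤ x i) ∧ ∑ i, x i = 1 ∧ ∑ i, (x i - 1 / (n : ℝ)) ^ 2 ≤ 0.0004}

theorem n12_near {n : ℕ} {x : Fin n → ℝ} (hx : x ∈ N12K n) (k : Fin n) :
    |x k - 1 / (n : ℝ)| ≤ 0.02 := by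
  have h : (x k - 1 / (n : ℝ)) ^ 2 ≤ 0.0004 :=
    (Finset.single_le_sum (f := fun i => (x i - 1 / (n : ℝ)) ^ 2)
      (fun i _ => sq_nonneg _) (Finset.mem_univ k)).trans hx.2.2
  apply abs_le_of_sq_le_sq _ (by norm_num)
  calc (x k - 1 / (n : ℝ)) ^ 2 ≤ 0.0004 := h
    _ = (0.02 : ℝ) ^ 2 := by norm_num

theorem n12_le {n : ℕ} (hn : 3 ≤ n) {x : Fin n → ℝ} (hx : x ∈ N12K n) (k : Fin n) :
    x k ≤ 0.36 := by
  have h := (abs_le.1 (n12_near hx k)).2
  have h3 : 1 / (n : ℝ) ≤ 1 / 3 := by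
    apply one_div_le_one_div_of_le (by norm_num)
    exact_mod_cast hn
  norm_num at h h3 ⊢
  linarith

theorem n12_compact {n : ℕ} (hn : 3 ≤ n) : IsCompact (N12K n) := by
  have hc : IsClosed (N12K n) := by
    have e : N12K n = (⋂ i, {x : Fin n → ℝ | 0 ≤ x i}) ∩ ({x | ∑ i, x i = 1} ∩
        {x | ∑ i, (x i - 1 / (n : ℝ)) ^ 2 ≤ 0.0004}) := by
      ext x
      simp [N12K]
    rw [e]
    refine IsClosed.inter (isClosed_iInter fun i => isClosed_le continuous_const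
      (continuous_apply i)) (IsClosed.inter ?_ ?_)
    · exact isClosed_eq (continuous_finsetSum _ fun i _ => continuous_apply i) continuous_const
    · exact isClosed_le (continuous_finsetSum _ fun i _ =>
        ((continuous_apply i).sub continuous_const).pow 2) continuous_const
  have hsub : N12K n ⊆ Set.pi univ fun _ : Fin n => Icc (0 : ℝ) 0.4 := by
    intro x hx i _
    exact ⟨hx.1 i, (n12_le hn hx i).trans (by norm_num)⟩
  exact (isCompact_univ_pi fun _ => isCompact_Icc).of_isClosed_subset hc hsub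

theorem n12_diag {n : ℕ} (hn : 3 ≤ n) : (fun _ : Fin n => 1 / (n : ℝ)) ∈ N12K n := by
  have h0 : (n : ℝ) ≠ 0 := by
    have : n ≠ 0 := by omega
    exact_mod_cast this
  refine ⟨fun i => by positivity, ?_, ?_⟩
  · simp [h0]
  · simp
    norm_num

theorem n12_mv_i {n : ℕ} (x : Fin n → ℝ) {i j : Fin n} (hij : i ≠ j) (t : ℝ) :
    mv x i j t i = x i - t := by
  simp [mv, Function.update_of_ne hij]

theorem n12_mv_j {n : ℕ} (x : Fin n → ℝ) (i j : Fin n) (t : ℝ) :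
    mv x i j t j = x j + t := by
  simp [mv]

theorem n12_mv_k {n : ℕ} (x : Fin n → ℝ) {i j k : Fin n} (hi : k ≠ i) (hj : k ≠ j) (t : ℝ) :
    mv x i j t k = x k := by
  simp [mv, Function.update_of_ne hi, Function.update_of_ne hj]

theorem n12_mv_sq {n : ℕ} (x : Fin n → ℝ) {i j : Fin n} (hij : i ≠ j) (t c : ℝ) :
    ∑ k, (mv x i j t k - c) ^ 2 = ∑ k, (x k - c) ^ 2 - 2 * t * (x i - x j - t) := by
  rw [← Finset.add_sum_erase Finset.univ _ (Finset.mem_univ i),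
    ← Finset.add_sum_erase (Finset.univ.erase i) _ (Finset.mem_erase.2 ⟨hij.symm, Finset.mem_univ j⟩),
    ← Finset.add_sum_erase Finset.univ (fun k => (x k - c) ^ 2) (Finset.mem_univ i),
    ← Finset.add_sum_erase (Finset.univ.erase i) (fun k => (x k - c) ^ 2)
      (Finset.mem_erase.2 ⟨hij.symm, Finset.mem_univ j⟩)]
  have hs : ∑ k ∈ (Finset.univ.erase i).erase j, (mv x i j t k - c) ^ 2 =
      ∑ k ∈ (Finset.univ.erase i).erase j, (x k - c) ^ 2 := by
    apply Finset.sum_congr rfl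
    intro k hk
    rw [Finset.mem_erase, Finset.mem_erase] at hk
    rw [n12_mv_k x hk.2.1 hk.1]
  rw [hs, n12_mv_i x hij, n12_mv_j]
  ring

theorem n12_mv_mem {n : ℕ} {x : Fin n → ℝ} (hx : x ∈ N12K n) {i j : Fin n} (hij : i ≠ j) {t : ℝ}
    (ht : 0 ≤ t) (ht' : t ≤ (x i - x j) / 4) : mv x i j t ∈ N12K n := by
  refine ⟨?_, ?_, ?_⟩
  · intro k
    by_cases hi : k = i
    · subst hi
      rw [n12_mv_i x hij]
      have := hx.1 k
      have := hx.1 j
      linarith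
    · by_cases hj : k = j
      · subst hj
        rw [n12_mv_j]
        have := hx.1 k
        linarith
      · rw [n12_mv_k x hi hj]
        exact hx.1 k
  · rw [mv_sum x hij]
    exact hx.2.1
  · rw [n12_mv_sq x hij]
    have h2 := hx.2.2
    have : 0 ≤ 2 * t * (x i - x j - t) := by
      apply mul_nonneg (by linarith)
      linarith
    linarith

theorem n12_mv_continuous {n : ℕ} (x : Fin n → ℝ) (i j : Fin n) : Continuous (mv x i j) := by
  unfold mv
  exact (Continuous.update continuous_const i (by fun_prop)).update j (by fun_prop)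

theorem near_max {α C : ℝ} (hg : Good α C) {n : ℕ} (hn : 3 ≤ n)
    (hI : ∀ x : Fin n → ℝ, ∑ i, x i = 1 → (∀ k, |x k - 1 / (n : ℝ)| ≤ 0.02) →
      (∀ k, 0 ≤ x k) → ∀ i j, x j < x i → 0 < IJ α x i j)
    {x : Fin n → ℝ} (hx : ∀ i, 0 ≤ x i) (h1 : ∑ i, x i = 1)
    (h2 : ∑ i, (x i - 1 / (n : ℝ)) ^ 2 ≤ 0.0004) (hne : x ≠ fun _ => 1 / (n : ℝ)) :
    J α x < J α (fun _ : Fin n => 1 / (n : ℝ)) := by
  have hn0 : (n : ℝ) ≠ 0 := by
    have : n ≠ 0 := by omega
    exact_mod_cast this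
  have hKsub : N12K n ⊆ {x | (∀ i, 0 ≤ x i) ∧ ∑ i, x i = 1 ∧ ∀ i, x i ≤ 0.4} := by
    intro y hy
    exact ⟨hy.1, hy.2.1, fun i => (n12_le hn hy i).trans (by norm_num)⟩
  have hJc : ContinuousOn (J α (n := n)) (N12K n) := (good_J_continuousOn hg n).mono hKsub
  -- a nonconstant point is never a maximiser
  have key : ∀ y ∈ N12K n, (y ≠ fun _ => 1 / (n : ℝ)) → ∃ z ∈ N12K n, J α y < J α z := by
    intro y hy hyne
    have hij : ∃ i j, y j < y i := by
      by_contra hcon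
      push Not at hcon
      apply hyne
      have hconst : ∀ i j, y i = y j := fun i j => le_antisymm (hcon i j) (hcon j i)
      funext i
      have hs : ∑ k, y k = n * y i := by
        rw [Finset.sum_congr rfl fun k _ => hconst k i]
        simp
      rw [hy.2.1] at hs
      field_simp
      linarith
    obtain ⟨i, j, hlt⟩ := hij
    have hne' : i ≠ j := by
      rintro rfl
      exact lt_irrefl _ hlt
    set t0 := (y i - y j) / 4 with ht0
    have ht0pos : 0 < t0 := by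
      rw [ht0]
      linarith
    have hmem : ∀ t ∈ Icc (0 : ℝ) t0, mv y i j t ∈ N12K n := fun t ht => n12_mv_mem hy hne' ht.1 ht.2
    have hc : ContinuousOn (fun t => J α (mv y i j t)) (Icc 0 t0) :=
      hJc.comp (n12_mv_continuous y i j).continuousOn hmem
    have hder : ∀ t ∈ interior (Icc (0 : ℝ) t0), 0 < deriv (fun t => J α (mv y i j t)) t := by
      intro t ht
      rw [interior_Icc] at ht
      have hyi : 0 ≤ y i := hy.1 i
      have hyj : 0 ≤ y j := hy.1 j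
      have hi36 := n12_le hn hy i
      have htt : t < (y i - y j) / 4 := ht.2
      have hd := J_mv_hasDerivAt hg hy.1 hy.2.1 (fun k => (n12_le hn hy k).trans (by norm_num))
        hne' (t := t) ht.1 (by linarith) (by
          have : (0.36 : ℝ) < 0.4 := by norm_num
          linarith [ht.1])
      rw [hd.deriv]
      have hm := hmem t ⟨ht.1.le, ht.2.le⟩
      apply hI _ hm.2.1 (n12_near hm) hm.1
      rw [n12_mv_i y hne', n12_mv_j]
      linarith
    have hmono := strictMonoOn_of_deriv_pos (convex_Icc 0 t0) hc hder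
    refine ⟨mv y i j t0, hmem t0 ⟨ht0pos.le, le_rfl⟩, ?_⟩
    have h := hmono ⟨le_rfl, ht0pos.le⟩ ⟨ht0pos.le, le_rfl⟩ ht0pos
    have e0 : mv y i j 0 = y := by
      simp [mv]
    simpa only [e0] using h
  obtain ⟨y, hyK, hymax⟩ := (n12_compact hn).exists_isMaxOn ⟨_, n12_diag hn⟩ hJc
  have hyd : y = fun _ => 1 / (n : ℝ) := by
    by_contra hcon
    obtain ⟨z, hzK, hlt⟩ := key y hyK hcon
    exact absurd (hymax hzK) (not_le.2 hlt)
  have hxK : x ∈ N12K n := ⟨hx, h1, h2⟩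
  obtain ⟨z, hzK, hlt⟩ := key x hxK hne
  have := hymax hzK
  rw [hyd] at this
  exact lt_of_lt_of_le hlt this

end LpSec

end

section
/-!
# N13 Low: lower bound of `J` on the diagonal

`J(diag) = ∫ Phi(s/n)^n ds = n ∫_0^∞ Phi(t)^n dt` and `1 = n ∫_0^∞ e^{-nt} dt`, so
`1 - J(diag) = n ∫_0^∞ (e^{-nt} - Phi(t)^n) dt`. Let `T ≥ 2`, `α` close to `1` (depending on `T`, `η`).
* `t > T`: `|e^{-nt} - Phi^n| ≤ n |e^{-t} - Phi| max(e^{-t}, |Phi|)^{n-1} ≤ n C δ (1+t)^{-3/2} (1+t)^{-(n-1)}`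
  (`Good`; `e^{-t} ≤ 1/(1+t)`; `abs_pow_sub_pow_le`-type lemma or `Finset.sum` identity), so
  `n ∫_T^∞ … ≤ C δ n² (1+T)^{1/2-n}/(n - 1/2) ≤ C δ 2 n (1+T)^{1/2-n} ≤ 6 C δ (1+T)^{-5/2}·…`; for `n ≥ 3`, `T ≥ 2`:
  `n (1+T)^{1/2-n} ≤ 3 (1+T)^{-5/2}` (as `n 3^{-n}` decreases), hence `≤ 6 C δ (1+T)^{-5/2} ≤ (η/2) δ` for `T` large.
* `t ≤ T`: `Phi > 0` (`Slope`), Bernoulli (`one_add_mul_le_pow`): `Phi^n ≥ e^{-nt} - n e^{-(n-1)t} y`,
  `y = e^{-t} - Phi`. Let `G = e^t y = 1 - e^t Phi`: `G(0) = 0`, `G' = -e^t (Phi - Phi1)`, `G'(0) = 0`,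
  `G'' = -e^t N ≥ 0` on `[0,T]` (`Slope.nn`), so `G, G' ≥ 0` on `[0,T]`. Integrating by parts twice
  `∫_0^T e^{-nt} G dt ≤ n^{-2} ∫_0^T e^{-nt} G'' dt = n^{-2} ∫_0^T e^{-(n-1)t} (-N) dt
   ≤ n^{-2} δ ∫_0^∞ e^{-(n-1)t} (kap0 t + η/2) dt = n^{-2} δ (1 - bn n + (η/2)/(n-1))` (`NN_asym`,
  `kap0_laplace`). So `n ∫_0^T (e^{-nt} - Phi^n) ≤ n² ∫_0^T e^{-nt} G ≤ δ (1 - bn n) + δ η/4`.
-/

open Real MeasureTheory Set Filter Topology

namespace LpSec

theorem low_parts {g : ℝ → ℝ} (hg : Continuous g) {c : ℝ} (hc : 0 < c) (T : ℝ) :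
    ∫ s in (0 : ℝ)..T, exp (-(c * s)) * (∫ r in (0 : ℝ)..s, g r) =
      (1 / c) * ((∫ s in (0 : ℝ)..T, exp (-(c * s)) * g s) -
        exp (-(c * T)) * ∫ r in (0 : ℝ)..T, g r) := by
  have hu : ∀ x ∈ uIcc (0 : ℝ) T, HasDerivAt (fun s => ∫ r in (0 : ℝ)..s, g r) (g x) x :=
    fun x _ => (hg.integral_hasStrictDerivAt 0 x).hasDerivAt
  have hv : ∀ x ∈ uIcc (0 : ℝ) T, HasDerivAt (fun s => -(1 / c) * exp (-(c * s)))
      (exp (-(c * x))) x := by
    intro x _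
    have h1 : HasDerivAt (fun s : ℝ => -(c * s)) (-(c * 1)) x := ((hasDerivAt_id x).const_mul c).neg
    have h2 := h1.exp.const_mul (-(1 / c))
    refine h2.congr_deriv ?_
    field_simp
  have h := intervalIntegral.integral_mul_deriv_eq_deriv_mul hu hv
    (hg.intervalIntegrable _ _) (Continuous.intervalIntegrable (by fun_prop) _ _)
  rw [intervalIntegral.integral_same] at h
  have e1 : (fun s => exp (-(c * s)) * ∫ r in (0 : ℝ)..s, g r) =
      fun s => (∫ r in (0 : ℝ)..s, g r) * exp (-(c * s)) := by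
    funext s; ring
  rw [e1, h]
  have e2 : ∫ x in (0 : ℝ)..T, g x * (-(1 / c) * exp (-(c * x))) =
      -(1 / c) * ∫ x in (0 : ℝ)..T, exp (-(c * x)) * g x := by
    rw [← intervalIntegral.integral_const_mul]
    congr 1
    funext x
    ring
  rw [e2]
  ring

/-- the main inequality on `[0,T]` -/
theorem low_main {α T : ℝ} (hα : 1 < α) (hT : 0 ≤ T)
    (hnn : ∀ s ∈ Icc (0 : ℝ) T, NN α s ≤ 0) {c : ℝ} (hc : 0 < c) :
    ∫ s in (0 : ℝ)..T, exp (-(c * s)) * (1 - exp s * Phi α s) ≤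
      (1 / c ^ 2) * ∫ s in (0 : ℝ)..T, exp (-(c * s)) * (exp s * (-NN α s)) := by
  set g2 : ℝ → ℝ := fun r => exp r * (-NN α (max r 0)) with hg2
  have hg2c : Continuous g2 := by
    have h1 : Continuous (fun r : ℝ => NN α (max r 0)) :=
      (NN_continuousOn hα).comp_continuous (by fun_prop) (fun r => le_max_right r 0)
    exact Real.continuous_exp.mul h1.neg
  set g1 : ℝ → ℝ := fun s => ∫ r in (0 : ℝ)..s, g2 r with hg1
  have hg1c : Continuous g1 := by
    have : ∀ x, HasDerivAt g1 (g2 x) x := fun x => (hg2c.integral_hasStrictDerivAt 0 x).hasDerivAt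
    exact continuous_iff_continuousAt.2 fun x => (this x).continuousAt
  have hg2nn : ∀ s ∈ Icc (0 : ℝ) T, 0 ≤ g2 s := by
    intro s hs
    simp only [hg2]
    rw [max_eq_left hs.1]
    have := hnn s hs
    have h2 := exp_pos s
    nlinarith
  have hg1eq : ∀ s, 0 ≤ s → g1 s = -(exp s * (Phi α s - Phi1 α s)) := by
    intro s hs
    rw [exp_mul_sub hα hs, ← intervalIntegral.integral_neg]
    refine intervalIntegral.integral_congr fun r hr => ?_
    rw [uIcc_of_le hs] at hr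
    simp only [hg2]
    rw [max_eq_left hr.1]
    ring
  have hGeq : ∀ s, 0 ≤ s → 1 - exp s * Phi α s = ∫ r in (0 : ℝ)..s, g1 r := by
    intro s hs
    rw [exp_mul_Phi hα hs]
    have : ∫ r in (0 : ℝ)..s, exp r * (Phi α r - Phi1 α r) = -∫ r in (0 : ℝ)..s, g1 r := by
      rw [← intervalIntegral.integral_neg]
      refine intervalIntegral.integral_congr fun r hr => ?_
      rw [uIcc_of_le hs] at hr
      rw [hg1eq r hr.1]
      ring
    rw [this]
    ring
  have hg1nn : ∀ s ∈ Icc (0 : ℝ) T, 0 ≤ g1 s := by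
    intro s hs
    exact intervalIntegral.integral_nonneg hs.1 fun r hr => hg2nn r ⟨hr.1, hr.2.trans hs.2⟩
  have hg0nn : 0 ≤ ∫ r in (0 : ℝ)..T, g1 r :=
    intervalIntegral.integral_nonneg hT fun r hr => hg1nn r hr
  have e1 : ∫ s in (0 : ℝ)..T, exp (-(c * s)) * (1 - exp s * Phi α s) =
      ∫ s in (0 : ℝ)..T, exp (-(c * s)) * (∫ r in (0 : ℝ)..s, g1 r) := by
    refine intervalIntegral.integral_congr fun s hs => ?_
    rw [uIcc_of_le hT] at hs
    rw [hGeq s hs.1]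
  have e2 : ∫ s in (0 : ℝ)..T, exp (-(c * s)) * (exp s * (-NN α s)) =
      ∫ s in (0 : ℝ)..T, exp (-(c * s)) * g2 s := by
    refine intervalIntegral.integral_congr fun s hs => ?_
    rw [uIcc_of_le hT] at hs
    simp only [hg2]
    rw [max_eq_left hs.1]
  rw [e1, e2, low_parts hg1c hc T]
  have h3 := low_parts hg2c hc T
  have h4 : ∫ s in (0 : ℝ)..T, exp (-(c * s)) * g1 s =
    (1 / c) * ((∫ s in (0 : ℝ)..T, exp (-(c * s)) * g2 s) -
        exp (-(c * T)) * g1 T) := h3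
  rw [h4]
  have hp1 : 0 ≤ exp (-(c * T)) * ∫ r in (0 : ℝ)..T, g1 r := mul_nonneg (exp_pos _).le hg0nn
  have hp2 : 0 ≤ exp (-(c * T)) * g1 T := mul_nonneg (exp_pos _).le (hg1nn T ⟨hT, le_rfl⟩)
  have hc1 : 0 < 1 / c := by positivity
  calc 1 / c * (1 / c * ((∫ s in (0 : ℝ)..T, exp (-(c * s)) * g2 s) - exp (-(c * T)) * g1 T) -
        exp (-(c * T)) * ∫ r in (0 : ℝ)..T, g1 r)
      ≤ 1 / c * (1 / c * ((∫ s in (0 : ℝ)..T, exp (-(c * s)) * g2 s) - 0) - 0) := by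
        gcongr
    _ = _ := by
        field_simp
        ring

/-- the integral over `[T,∞)` -/
theorem low_tail {α C : ℝ} (hg : Good α C) (hC : 0 < C) {T : ℝ} (hT : 2 ≤ T) {n : ℕ} (hn : 3 ≤ n) :
    (n : ℝ) * ∫ t in Ioi T, (exp (-t) ^ n - Phi α t ^ n) ≤ 2 * C * (α - 1) / (1 + T) := by
  have hn3 : (3 : ℝ) ≤ n := by exact_mod_cast hn
  have hδ : 0 < α - 1 := by linarith [hg.one_lt]
  have hT0 : 0 ≤ T := by linarith
  have hr : (1 : ℝ) < (n : ℝ) + 1 / 2 := by linarith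
  have htail := one_add_rpow_tail (u := 1) (r := (n : ℝ) + 1 / 2) (a := T) one_pos hr hT0
  have hpt : ∀ t ∈ Ioi T, ‖exp (-t) ^ n - Phi α t ^ n‖ ≤
      (n : ℝ) * C * (α - 1) * (1 + 1 * t) ^ (-((n : ℝ) + 1 / 2)) := by
    intro t ht
    have ht0 : 0 ≤ t := hT0.trans (le_of_lt ht)
    have h1t : 0 < 1 + t := by linarith
    rw [Real.norm_eq_abs]
    have h1 := abs_pow_sub_pow_le (exp (-t)) (Phi α t) n
    refine h1.trans ?_
    have h2 : |exp (-t) - Phi α t| ≤ C * (α - 1) * (1 + t) ^ (-(3 / 2) : ℝ) := by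
      rw [abs_sub_comm]; exact hg.err0 t ht0
    have h3 : max |exp (-t)| |Phi α t| ≤ (1 + t)⁻¹ := by
      refine max_le ?_ (hg.dec0 t ht0)
      rw [abs_of_pos (exp_pos _), exp_neg]
      exact inv_anti₀ h1t (by linarith [Real.add_one_le_exp t])
    have h4 : max |exp (-t)| |Phi α t| ^ (n - 1) ≤ ((1 + t)⁻¹) ^ (n - 1) :=
      pow_le_pow_left₀ (le_max_of_le_left (abs_nonneg _)) h3 _
    have h5 : (1 + t) ^ (-(3 / 2) : ℝ) * ((1 + t)⁻¹) ^ (n - 1) = (1 + 1 * t) ^ (-((n : ℝ) + 1 / 2)) := by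
      rw [one_mul, ← Real.rpow_natCast, Real.inv_rpow h1t.le, ← Real.rpow_neg h1t.le,
        ← Real.rpow_add h1t]
      congr 1
      rw [Nat.cast_sub (by omega)]
      push_cast
      ring
    calc |exp (-t) - Phi α t| * n * max |exp (-t)| |Phi α t| ^ (n - 1)
        ≤ (C * (α - 1) * (1 + t) ^ (-(3 / 2) : ℝ)) * n * ((1 + t)⁻¹) ^ (n - 1) := by
          gcongr
      _ = (n : ℝ) * C * (α - 1) * ((1 + t) ^ (-(3 / 2) : ℝ) * ((1 + t)⁻¹) ^ (n - 1)) := by ring
      _ = _ := by rw [h5]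
  have hint : ∫ t in Ioi T, (exp (-t) ^ n - Phi α t ^ n) ≤
      (n : ℝ) * C * (α - 1) * ((1 / 1) * (1 + 1 * T) ^ (1 - ((n : ℝ) + 1 / 2)) /
        ((n : ℝ) + 1 / 2 - 1)) := by
    have h1 := norm_integral_le_of_norm_le (μ := volume.restrict (Ioi T))
      (f := fun t => exp (-t) ^ n - Phi α t ^ n)
      (htail.1.const_mul ((n : ℝ) * C * (α - 1)))
      ((ae_restrict_mem measurableSet_Ioi).mono hpt)
    rw [integral_const_mul, htail.2] at h1
    exact (le_abs_self _).trans h1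
  refine (mul_le_mul_of_nonneg_left hint (by linarith)).trans ?_
  -- numerics
  have h1T : 0 < 1 + T := by linarith
  have h3 : (1 + 1 * T) ^ (1 - ((n : ℝ) + 1 / 2)) ≤ (1 + T)⁻¹ * ((3 : ℝ)⁻¹) ^ (n - 2) := by
    have e1 : (1 + T)⁻¹ * ((1 + T)⁻¹) ^ (n - 2) = (1 + T) ^ (-((n : ℝ) - 1)) := by
      rw [← pow_succ', ← Real.rpow_natCast, Real.inv_rpow h1T.le, ← Real.rpow_neg h1T.le]
      congr 1
      rw [show n - 2 + 1 = n - 1 by omega, Nat.cast_sub (by omega)]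
      push_cast
      ring
    calc (1 + 1 * T) ^ (1 - ((n : ℝ) + 1 / 2)) ≤ (1 + T) ^ (-((n : ℝ) - 1)) := by
          rw [one_mul]
          exact Real.rpow_le_rpow_of_exponent_le (by linarith) (by linarith)
      _ = (1 + T)⁻¹ * ((1 + T)⁻¹) ^ (n - 2) := e1.symm
      _ ≤ (1 + T)⁻¹ * ((3 : ℝ)⁻¹) ^ (n - 2) := by
          gcongr
          linarith
  have h4 : (n : ℝ) * ((3 : ℝ)⁻¹) ^ (n - 2) ≤ 1 := by
    obtain ⟨m, rfl⟩ : ∃ m, n = m + 3 := ⟨n - 3, by omega⟩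
    rw [show m + 3 - 2 = m + 1 by omega, inv_pow, ← div_eq_mul_inv, div_le_one (by positivity)]
    have h5 : ∀ k : ℕ, ((k : ℝ) + 3) ≤ 3 ^ (k + 1) := by
      intro k
      induction k with
      | zero => norm_num
      | succ k ih => push_cast at *; rw [pow_succ]; linarith [pow_pos (show (0:ℝ) < 3 by norm_num) (k+1)]
    push_cast
    exact h5 m
  have h5 : (n : ℝ) / ((n : ℝ) + 1 / 2 - 1) ≤ 2 := by
    rw [div_le_iff₀ (by linarith)]
    linarith
  have h6 : 0 ≤ (n : ℝ) / ((n : ℝ) + 1 / 2 - 1) := by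
    apply div_nonneg <;> linarith
  calc (n : ℝ) * ((n : ℝ) * C * (α - 1) * (1 / 1 * (1 + 1 * T) ^ (1 - ((n : ℝ) + 1 / 2)) /
        ((n : ℝ) + 1 / 2 - 1)))
      = C * (α - 1) * ((n : ℝ) / ((n : ℝ) + 1 / 2 - 1)) *
          ((n : ℝ) * (1 + 1 * T) ^ (1 - ((n : ℝ) + 1 / 2))) := by ring
    _ ≤ C * (α - 1) * 2 * ((n : ℝ) * ((1 + T)⁻¹ * ((3 : ℝ)⁻¹) ^ (n - 2))) := by
        gcongr
    _ = C * (α - 1) * 2 * (1 + T)⁻¹ * ((n : ℝ) * ((3 : ℝ)⁻¹) ^ (n - 2)) := by ring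
    _ ≤ C * (α - 1) * 2 * (1 + T)⁻¹ * 1 := by
        gcongr
    _ = 2 * C * (α - 1) / (1 + T) := by ring

/-- the integral over `[0,T]` -/
theorem low_head {α T η : ℝ} (hη : 0 < η) (hα : 1 < α) (hT : 0 < T) (hS : Slope α T)
    (has : ∀ s : ℝ, 0 ≤ s → |NN α s + (α - 1) * kap0 s| ≤ η * (α - 1)) {n : ℕ} (hn : 3 ≤ n) :
    (n : ℝ) * ∫ t in (0 : ℝ)..T, (exp (-t) ^ n - Phi α t ^ n) ≤
      (α - 1) * (1 - bn n) + η * (α - 1) / 2 := by
  have hn3 : (3 : ℝ) ≤ n := by exact_mod_cast hn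
  have hn0 : (0 : ℝ) < n := by linarith
  have hδ : 0 < α - 1 := by linarith
  have hPc : ContinuousOn (Phi α) (uIcc 0 T) := by
    refine (Phi_continuousOn hα).mono ?_
    rw [uIcc_of_le hT.le]; exact fun x hx => hx.1
  have hNc : ContinuousOn (NN α) (uIcc 0 T) := by
    refine (NN_continuousOn hα).mono ?_
    rw [uIcc_of_le hT.le]; exact fun x hx => hx.1
  have hbern : ∀ t ∈ Icc (0 : ℝ) T, exp (-t) ^ n - Phi α t ^ n ≤
      (n : ℝ) * (exp (-((n : ℝ) * t)) * (1 - exp t * Phi α t)) := by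
    intro t ht
    have hp := hS.pos t ht
    have h1 := one_add_mul_le_pow (a := exp t * Phi α t - 1) (by nlinarith [exp_pos t]) n
    have h2 : (1 + (exp t * Phi α t - 1)) ^ n = exp ((n : ℝ) * t) * Phi α t ^ n := by
      rw [add_sub_cancel, mul_pow, ← exp_nat_mul]
    rw [h2] at h1
    have h3 : exp (-t) ^ n = exp (-((n : ℝ) * t)) := by
      rw [← exp_nat_mul]; congr 1; ring
    rw [h3]
    have h4 := mul_le_mul_of_nonneg_left h1 (exp_pos (-((n : ℝ) * t))).le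
    have h5 : exp (-((n : ℝ) * t)) * (exp ((n : ℝ) * t) * Phi α t ^ n) = Phi α t ^ n := by
      rw [← mul_assoc, ← exp_add, neg_add_cancel, exp_zero, one_mul]
    rw [h5] at h4
    nlinarith
  have hI1 : ∫ t in (0 : ℝ)..T, (exp (-t) ^ n - Phi α t ^ n) ≤
      ∫ t in (0 : ℝ)..T, (n : ℝ) * (exp (-((n : ℝ) * t)) * (1 - exp t * Phi α t)) := by
    refine intervalIntegral.integral_mono_on hT.le ?_ ?_ hbern
    · exact ContinuousOn.intervalIntegrable (by fun_prop)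
    · exact ContinuousOn.intervalIntegrable (by fun_prop)
  rw [intervalIntegral.integral_const_mul] at hI1
  have hI2 := low_main hα hT.le (fun s hs => (hS.nn s hs).trans (by
    have := exp_pos (-s)
    have : 0 ≤ (α - 1) / 4 * exp (-s) := by positivity
    linarith)) hn0
  -- bound of the Laplace transform of `-NN`
  have hk := kap0_laplace (n := n) (by omega)
  have hexp : IntegrableOn (fun s : ℝ => exp (-(((n : ℝ) - 1) * s))) (Ioi 0) := by
    have := exp_neg_integrableOn_Ioi (0 : ℝ) (b := (n : ℝ) - 1) (by linarith)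
    refine this.congr_fun (fun s _ => ?_) measurableSet_Ioi
    simp only
    rw [neg_mul]
  have hexpI : ∫ s in Ioi (0 : ℝ), exp (-(((n : ℝ) - 1) * s)) = 1 / ((n : ℝ) - 1) := by
    have := integral_exp_mul_Ioi (a := -((n : ℝ) - 1)) (by linarith) 0
    simp only [mul_zero, exp_zero] at this
    have e : (fun s : ℝ => exp (-(((n : ℝ) - 1) * s))) = fun s => exp (-((n : ℝ) - 1) * s) := by
      funext s; rw [neg_mul]
    rw [e, this]
    rw [neg_div_neg_eq]
  have hI3 : ∫ s in (0 : ℝ)..T, exp (-((n : ℝ) * s)) * (exp s * (-NN α s)) ≤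
      (α - 1) * (1 - bn n) + η * (α - 1) * (1 / ((n : ℝ) - 1)) := by
    have h1 : ∫ s in (0 : ℝ)..T, exp (-((n : ℝ) * s)) * (exp s * (-NN α s)) ≤
        ∫ s in (0 : ℝ)..T, ((α - 1) * (exp (-(((n : ℝ) - 1) * s)) * kap0 s) +
          η * (α - 1) * exp (-(((n : ℝ) - 1) * s))) := by
      refine intervalIntegral.integral_mono_on hT.le ?_ ?_ ?_
      · exact ContinuousOn.intervalIntegrable (by fun_prop)
      · have := kap0_continuous
        exact Continuous.intervalIntegrable (by fun_prop) _ _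
      · intro s hs
        have h2 := (abs_le.1 (has s hs.1)).1
        have e : exp (-((n : ℝ) * s)) * (exp s * (-NN α s)) =
            exp (-(((n : ℝ) - 1) * s)) * (-NN α s) := by
          rw [← mul_assoc, ← exp_add]
          congr 2
          ring
        rw [e]
        have h3 : -NN α s ≤ (α - 1) * kap0 s + η * (α - 1) := by linarith
        have h4 := mul_le_mul_of_nonneg_left h3 (exp_pos (-(((n : ℝ) - 1) * s))).le
        linarith
    refine h1.trans ?_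
    rw [intervalIntegral.integral_of_le hT.le]
    have hint : IntegrableOn (fun s => (α - 1) * (exp (-(((n : ℝ) - 1) * s)) * kap0 s) +
          η * (α - 1) * exp (-(((n : ℝ) - 1) * s))) (Ioi 0) :=
      (hk.1.const_mul _).add (hexp.const_mul _)
    have h2 : ∫ s in Ioc (0 : ℝ) T, ((α - 1) * (exp (-(((n : ℝ) - 1) * s)) * kap0 s) +
          η * (α - 1) * exp (-(((n : ℝ) - 1) * s))) ≤
        ∫ s in Ioi (0 : ℝ), ((α - 1) * (exp (-(((n : ℝ) - 1) * s)) * kap0 s) +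
          η * (α - 1) * exp (-(((n : ℝ) - 1) * s))) := by
      refine setIntegral_mono_set hint ?_ (LE.le.eventuallyLE Ioc_subset_Ioi_self)
      refine (ae_restrict_mem measurableSet_Ioi).mono (fun s hs => ?_)
      have hs0 : (0 : ℝ) ≤ s := le_of_lt hs
      have h3 := kap0_lower hs0
      have h4 : 0 ≤ kap0 s := le_trans (by positivity) h3
      simp only [Pi.zero_apply]
      positivity
    refine h2.trans (le_of_eq ?_)
    rw [integral_add (hk.1.const_mul _) (hexp.const_mul _), integral_const_mul, integral_const_mul,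
      hk.2, hexpI]
  have h7 : 1 / ((n : ℝ) - 1) ≤ 1 / 2 := by
    apply one_div_le_one_div_of_le <;> linarith
  calc (n : ℝ) * ∫ t in (0 : ℝ)..T, (exp (-t) ^ n - Phi α t ^ n)
      ≤ (n : ℝ) * ((n : ℝ) * ((1 / (n : ℝ) ^ 2) *
          ∫ s in (0 : ℝ)..T, exp (-((n : ℝ) * s)) * (exp s * (-NN α s)))) := by
        gcongr
        exact hI1.trans (mul_le_mul_of_nonneg_left hI2 hn0.le)
    _ = ∫ s in (0 : ℝ)..T, exp (-((n : ℝ) * s)) * (exp s * (-NN α s)) := by
        field_simp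
    _ ≤ (α - 1) * (1 - bn n) + η * (α - 1) * (1 / ((n : ℝ) - 1)) := hI3
    _ ≤ (α - 1) * (1 - bn n) + η * (α - 1) * (1 / 2) := by
        have : 0 < η * (α - 1) := by positivity
        gcongr
    _ = _ := by ring

theorem diag_low {η : ℝ} (hη : 0 < η) : ∃ α1 > 1, ∀ α : ℝ, 1 < α → α ≤ α1 →
    ∀ n : ℕ, 3 ≤ n →
      1 - (α - 1) * (1 - bn n) - η * (α - 1) ≤ J α (fun _ : Fin n => 1 / (n : ℝ)) := by
  obtain ⟨C, hC, αg, hαg, hgood⟩ := exists_good
  set T : ℝ := max 2 (4 * C / η) with hTdef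
  have hT2 : 2 ≤ T := le_max_left _ _
  have hTC : 4 * C / η ≤ T := le_max_right _ _
  have hT0 : 0 < T := by linarith
  obtain ⟨αs, hαs, hslope⟩ := exists_slope hT0
  obtain ⟨αa, hαa, hasym⟩ := NN_asym hη
  refine ⟨min αg (min αs αa), lt_min hαg (lt_min hαs hαa), ?_⟩
  intro α h1 h2 n hn
  have hg := hgood α h1 (h2.trans (min_le_left _ _))
  have hS := hslope α h1 (h2.trans ((min_le_right _ _).trans (min_le_left _ _)))
  have has := hasym α h1 (h2.trans ((min_le_right _ _).trans (min_le_right _ _)))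
  have hn3 : (3 : ℝ) ≤ n := by exact_mod_cast hn
  have hn0 : (0 : ℝ) < n := by linarith
  have hδ : 0 < α - 1 := by linarith
  have hJ : J α (fun _ : Fin n => 1 / (n : ℝ)) = (n : ℝ) * ∫ t in Ioi (0 : ℝ), Phi α t ^ n := by
    unfold J
    have e1 : (fun s : ℝ => ∏ _i : Fin n, Phi α (1 / (n : ℝ) * s)) =
        fun s => (fun t => Phi α t ^ n) (1 / (n : ℝ) * s) := by
      funext s; exact diag_prod n s
    rw [e1, integral_comp_mul_left_Ioi (fun t => Phi α t ^ n) 0 (b := 1 / (n : ℝ)) (by positivity)]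
    simp
  have hE : IntegrableOn (fun t : ℝ => exp (-t) ^ n) (Ioi 0) := by
    have := exp_neg_integrableOn_Ioi (0 : ℝ) (b := (n : ℝ)) hn0
    refine this.congr_fun (fun t _ => ?_) measurableSet_Ioi
    simp only
    rw [← exp_nat_mul]
    congr 1
    ring
  have hEI : (n : ℝ) * ∫ t in Ioi (0 : ℝ), exp (-t) ^ n = 1 := by
    have := integral_exp_mul_Ioi (a := -(n : ℝ)) (by linarith) 0
    simp only [mul_zero, exp_zero] at this
    have e : (fun t : ℝ => exp (-t) ^ n) = fun t => exp (-(n : ℝ) * t) := by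
      funext t; rw [← exp_nat_mul]; congr 1; ring
    rw [e, this]
    field_simp
  have hP : IntegrableOn (fun t : ℝ => Phi α t ^ n) (Ioi 0) := by
    have htail := one_add_rpow_tail (u := 1) (r := (n : ℝ)) (a := 0) one_pos (by linarith) le_rfl
    refine Integrable.mono' htail.1 ?_ ?_
    · exact (((Phi_continuousOn h1).pow n).mono Ioi_subset_Ici_self).aestronglyMeasurable
        measurableSet_Ioi
    · refine (ae_restrict_mem measurableSet_Ioi).mono (fun t ht => ?_)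
      have ht0 : (0 : ℝ) ≤ t := le_of_lt ht
      have h3 := pow_le_pow_left₀ (abs_nonneg _) (hg.dec0 t ht0) n
      rw [Real.norm_eq_abs, abs_pow]
      refine h3.trans (le_of_eq ?_)
      rw [one_mul, ← Real.rpow_natCast, Real.inv_rpow (by linarith), ← Real.rpow_neg (by linarith)]
  have hD : IntegrableOn (fun t : ℝ => exp (-t) ^ n - Phi α t ^ n) (Ioi 0) := hE.sub hP
  have hsplit : ∫ t in Ioi (0 : ℝ), (exp (-t) ^ n - Phi α t ^ n) =
      (∫ t in (0 : ℝ)..T, (exp (-t) ^ n - Phi α t ^ n)) +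
        ∫ t in Ioi T, (exp (-t) ^ n - Phi α t ^ n) := by
    rw [intervalIntegral.integral_of_le hT0.le, ← setIntegral_union (by
      rw [Set.disjoint_left]; intro x hx hx2; exact absurd hx.2 (not_le.2 hx2)) measurableSet_Ioi
      (hD.mono_set Ioc_subset_Ioi_self) (hD.mono_set (Ioi_subset_Ioi hT0.le)),
      Ioc_union_Ioi_eq_Ioi hT0.le]
  have hsub : ∫ t in Ioi (0 : ℝ), (exp (-t) ^ n - Phi α t ^ n) =
      (∫ t in Ioi (0 : ℝ), exp (-t) ^ n) - ∫ t in Ioi (0 : ℝ), Phi α t ^ n := integral_sub hE hP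
  have hhead := low_head hη h1 hT0 hS has hn
  have htl := low_tail hg hC hT2 hn
  have htl2 : 2 * C * (α - 1) / (1 + T) ≤ η * (α - 1) / 2 := by
    rw [div_le_div_iff₀ (by linarith) (by norm_num)]
    rw [div_le_iff₀ hη] at hTC
    nlinarith
  rw [hJ]
  have key : (n : ℝ) * ∫ t in Ioi (0 : ℝ), (exp (-t) ^ n - Phi α t ^ n) ≤
      (α - 1) * (1 - bn n) + η * (α - 1) := by
    rw [hsplit, mul_add]
    linarith
  rw [hsub, mul_sub, hEI] at key
  linarith

end LpSec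

end

section
/-!
# N14 Far: vectors away from the diagonal

`x i = ‖a i‖²`, `n = m + 1 ≥ 3`, `ε = 1 - 1/α = δ/α`, `δ = α - 1`.
* `entropy`: `ψ(x) = negMulLog (1 - x)` satisfies
  `ψ(x) ≤ ψ(y) + ψ'(y) (x - y) - (x-y)²/2` for `x ∈ [0,1]`, `y ∈ (0,1)` (`ψ'' = -1/(1-x) ≤ -1`; or: the function
  `negMulLog (1-x) + x²/2` is concave on `[0,1]`). Take `y = 1/n` and sum:
  `∑ ψ(x i) ≤ n ψ(1/n) - (1/2) ∑ (x i - 1/n)² = bn n - (1/2) ∑ (x i - 1/n)²`.
* If all `‖a i‖ < 1`: `bl_bound` gives `sec ≤ cst exp (ε (bn n - 0.0002))`. If some `‖a i‖ = 1`: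
  `sec_le_coord`: `sec ≤ cst`, smaller than the same bound since `bn n ≥ 0.8` (`0 < bn n - 0.0002`;
  `(n-1) log (n/(n-1)) ≥ 1 - 1/n` from `log x ≥ 1 - 1/x`).
* `sec (diag) = cst D J(diag)` (`sec_eq`, `good_integrable`; `‖diagV i‖² = 1/n`),
  `D ≥ exp (ε - 0.25 ε²)` (`log_DD_near_one`), `J(diag) ≥ 1 - z`, `z = δ (1 - bn n + η) ≤ 2 δ` (`diag_low` with
  `η = 0.00001`), `1 - z ≥ exp (-z - z²)` for `0 ≤ z ≤ 1/2`. So it suffices that
  `ε (bn - 0.0002) < ε - 0.25 ε² - z - z²`: `z - ε (1 - bn) ≤ (δ - ε) + η δ ≤ δ² + η δ` and `z² ≤ 4 δ²`,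
  `0.25 ε² ≤ δ²`; need `6 δ² + 0.00001 δ < 0.0002 ε`, true for `δ ≤ 0.00001` (`ε ≥ δ/2`).
-/

open Real MeasureTheory Set Filter Topology

namespace LpSec

/-- the scalar inequality behind `entropy` -/
theorem n14_scalar {z w : ℝ} (hz0 : 0 ≤ z) (hz1 : z ≤ 1) (hw0 : 0 < w) (hw1 : w < 1) :
    negMulLog z ≤ negMulLog w - (log w + 1) * (z - w) - (z - w) ^ 2 / 2 := by
  set h : ℝ → ℝ := fun z => z * log z - z * log w - (z - w) - (z - w) ^ 2 / 2 with hh
  have hcont : Continuous h := by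
    have := Real.continuous_mul_log
    fun_prop
  have hder : ∀ u : ℝ, 0 < u → HasDerivAt h (log u - log w - (u - w)) u := by
    intro u hu
    have h1 := Real.hasDerivAt_mul_log hu.ne'
    have h2 : HasDerivAt (fun z : ℝ => z * log w) (1 * log w) u := (hasDerivAt_id u).mul_const _
    have h3 : HasDerivAt (fun z : ℝ => z - w) 1 u := (hasDerivAt_id u).sub_const w
    have h4 : HasDerivAt (fun z : ℝ => (z - w) ^ 2 / 2) (u - w) u := by
      have := (h3.pow 2).div_const 2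
      refine this.congr_deriv ?_
      simp
    refine (((h1.sub h2).sub h3).sub h4).congr_deriv ?_
    ring
  have hw : h w = 0 := by simp [hh]
  have key : 0 ≤ h z := by
    rcases le_total w z with hwz | hzw
    · have hm : MonotoneOn h (Icc w 1) := by
        refine monotoneOn_of_deriv_nonneg (convex_Icc _ _) hcont.continuousOn ?_ ?_
        · intro u hu
          rw [interior_Icc] at hu
          exact (hder u (hw0.trans hu.1)).differentiableAt.differentiableWithinAt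
        · intro u hu
          rw [interior_Icc] at hu
          have hu0 : 0 < u := hw0.trans hu.1
          rw [(hder u hu0).deriv]
          have h1 : 1 - (u / w)⁻¹ ≤ log (u / w) := one_sub_inv_le_log_of_pos (by positivity)
          rw [Real.log_div hu0.ne' hw0.ne', inv_div] at h1
          have h2 : u - w ≤ 1 - w / u := by
            rw [le_sub_iff_add_le, ← le_sub_iff_add_le', div_le_iff₀ hu0]
            nlinarith [hu.1, hu.2]
          linarith
      have := hm (left_mem_Icc.2 hw1.le) ⟨hwz, hz1⟩ hwz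
      rwa [hw] at this
    · have hm : AntitoneOn h (Icc 0 w) := by
        refine antitoneOn_of_deriv_nonpos (convex_Icc _ _) hcont.continuousOn ?_ ?_
        · intro u hu
          rw [interior_Icc] at hu
          exact (hder u hu.1).differentiableAt.differentiableWithinAt
        · intro u hu
          rw [interior_Icc] at hu
          rw [(hder u hu.1).deriv]
          have h1 : log (u / w) ≤ u / w - 1 := log_le_sub_one_of_pos (div_pos hu.1 hw0)
          rw [Real.log_div hu.1.ne' hw0.ne'] at h1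
          have h2 : u / w - 1 ≤ u - w := by
            rw [sub_le_iff_le_add, div_le_iff₀ hw0]
            nlinarith [hu.1, hu.2]
          linarith
      have := hm ⟨hz0, hzw⟩ (right_mem_Icc.2 hw0.le) hzw
      rwa [hw] at this
  simp only [hh] at key
  unfold negMulLog
  nlinarith

theorem entropy {n : ℕ} (hn : 2 ≤ n) {x : Fin n → ℝ} (hx : ∀ i, 0 ≤ x i) (hx1 : ∀ i, x i ≤ 1)
    (h1 : ∑ i, x i = 1) :
    ∑ i, negMulLog (1 - x i) ≤ bn n - (1 / 2) * ∑ i, (x i - 1 / (n : ℝ)) ^ 2 := by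
  have hn2 : (2 : ℝ) ≤ n := by exact_mod_cast hn
  have hn0 : (0 : ℝ) < n := by linarith
  have hw0 : 0 < 1 - 1 / (n : ℝ) := by
    rw [sub_pos, div_lt_one hn0]; linarith
  have hw1 : 1 - 1 / (n : ℝ) < 1 := by
    have : 0 < 1 / (n : ℝ) := by positivity
    linarith
  have hpt : ∀ i, negMulLog (1 - x i) ≤ negMulLog (1 - 1 / (n : ℝ)) +
      (log (1 - 1 / (n : ℝ)) + 1) * (x i - 1 / (n : ℝ)) - (1 / 2) * (x i - 1 / (n : ℝ)) ^ 2 := by
    intro i
    have := n14_scalar (z := 1 - x i) (w := 1 - 1 / (n : ℝ)) (by linarith [hx1 i])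
      (by linarith [hx i]) hw0 hw1
    refine this.trans (le_of_eq ?_)
    ring
  have hsum := Finset.sum_le_sum (s := Finset.univ) (fun i _ => hpt i)
  refine hsum.trans (le_of_eq ?_)
  rw [Finset.sum_sub_distrib, Finset.sum_add_distrib, ← Finset.mul_sum, ← Finset.mul_sum,
    Finset.sum_sub_distrib, h1]
  simp only [Finset.sum_const, Finset.card_univ, Fintype.card_fin, nsmul_eq_mul]
  have h2 : (n : ℝ) * (1 / n) = 1 := by field_simp
  have h3 : (n : ℝ) * negMulLog (1 - 1 / (n : ℝ)) = bn n := by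
    unfold negMulLog bn
    have h4 : log ((n : ℝ) / ((n : ℝ) - 1)) = -log (1 - 1 / (n : ℝ)) := by
      rw [← Real.log_inv]
      congr 1
      have : (n : ℝ) - 1 ≠ 0 := by linarith
      field_simp
    rw [h4]
    field_simp
  rw [h2, h3]
  ring

theorem n14_bn {n : ℕ} (hn : 3 ≤ n) : 2 / 3 ≤ bn n ∧ bn n ≤ 1 := by
  have hn2 : (3 : ℝ) ≤ n := by exact_mod_cast hn
  have hn0 : (0 : ℝ) < n := by linarith
  have hn1 : (0 : ℝ) < (n : ℝ) - 1 := by linarith
  unfold bn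
  constructor
  · have h1 : 1 - ((n : ℝ) / ((n : ℝ) - 1))⁻¹ ≤ log ((n : ℝ) / ((n : ℝ) - 1)) :=
      one_sub_inv_le_log_of_pos (by positivity)
    have h2 : 1 - ((n : ℝ) / ((n : ℝ) - 1))⁻¹ = 1 / n := by
      rw [inv_div]; field_simp; ring
    rw [h2] at h1
    have h3 := mul_le_mul_of_nonneg_left h1 hn1.le
    refine le_trans ?_ h3
    rw [mul_one_div, div_le_div_iff₀ (by norm_num) hn0]
    linarith
  · have h1 : log ((n : ℝ) / ((n : ℝ) - 1)) ≤ (n : ℝ) / ((n : ℝ) - 1) - 1 :=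
      log_le_sub_one_of_pos (by positivity)
    have h3 := mul_le_mul_of_nonneg_left h1 hn1.le
    refine h3.trans (le_of_eq ?_)
    field_simp
    ring

theorem n14_exp {z : ℝ} (hz : 0 ≤ z) (hz1 : z ≤ 1 / 2) : exp (-(z + 2 * z ^ 2)) ≤ 1 - z := by
  have h1 := Real.add_one_le_exp (z + 2 * z ^ 2)
  have h2 : 0 < z + 2 * z ^ 2 + 1 := by positivity
  rw [Real.exp_neg]
  calc (exp (z + 2 * z ^ 2))⁻¹ ≤ (z + 2 * z ^ 2 + 1)⁻¹ := inv_anti₀ h2 h1
    _ ≤ 1 - z := by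
      rw [inv_le_iff_one_le_mul₀ h2]
      nlinarith [sq_nonneg z, mul_nonneg (sq_nonneg z) (by linarith : (0 : ℝ) ≤ 1 / 2 - z)]

theorem far : ∃ α1 > 1, ∀ α : ℝ, 1 < α → α ≤ α1 → ∀ m : ℕ, 2 ≤ m →
    ∀ a : EuclideanSpace ℂ (Fin (m + 1)), ‖a‖ = 1 →
      0.0004 < ∑ i, (‖a i‖ ^ 2 - 1 / ((m + 1 : ℕ) : ℝ)) ^ 2 →
      sec α a < sec α (diagV (m + 1)) := by
  obtain ⟨C, hC, αg, hαg, hgood⟩ := exists_good
  obtain ⟨αd, hαd, hlow⟩ := diag_low (η := 0.00001) (by norm_num)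
  refine ⟨min (min αg αd) (1 + 0.00001), ?_, ?_⟩
  · exact lt_min (lt_min hαg hαd) (by norm_num)
  intro α hα hα1 m hm
  set n := m + 1 with hn
  intro a ha hfar
  have hg : Good α C := hgood α hα ((hα1.trans (min_le_left _ _)).trans (min_le_left _ _))
  have hαd' : α ≤ αd := (hα1.trans (min_le_left _ _)).trans (min_le_right _ _)
  have hα5 : α ≤ 1 + 0.00001 := hα1.trans (min_le_right _ _)
  have hα0 : 0 < α := by linarith
  have hn3 : 3 ≤ n := by omega
  have hcst := asym_cst_pos hα m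
  have hD := DD_pos (α := α) hα0
  have hn3' : (3 : ℝ) ≤ (n : ℝ) := by exact_mod_cast hn3
  obtain ⟨hb1, hb2⟩ := n14_bn hn3
  set δ := α - 1 with hδ
  have hδ0 : 0 < δ := by linarith
  have hδ5 : δ ≤ 0.00001 := by linarith
  set ε := 1 - 1 / α with hε
  have hεδ : ε * α = δ := by rw [hε, hδ]; field_simp
  have hε0 : 0 < ε := by rw [hε, sub_pos, div_lt_one hα0]; exact hα
  have hεle : ε ≤ δ := by nlinarith
  have hεge : δ / 2 ≤ ε := by nlinarith
  have hδε : δ - ε ≤ δ ^ 2 := by nlinarith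
  -- the diagonal
  have hdiag : sec α (diagV n) =
      ENNReal.ofReal (cst α m * DD α * J α (fun _ : Fin n => 1 / (n : ℝ))) := by
    have hI : IntegrableOn (fun s => ∏ i, Phi α (‖diagV n i‖ ^ 2 * s)) (Ioi 0) := by
      refine good_integrable hg (x := fun i => ‖diagV n i‖ ^ 2) (fun i => by positivity)
        (asym_sum _ (diagV_norm (by omega))) (fun i => ?_)
      simp only [diagV_apply_sq]
      rw [div_le_iff₀ (by linarith)]
      norm_num
      linarith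
    have h1 := sec_eq hα (diagV n) (diagV_norm (by omega)) hI
    have h2 : sec α (diagV n) = ENNReal.ofReal (sec α (diagV n)).toReal :=
      (ENNReal.ofReal_toReal (sec_ne_top hα (diagV n))).symm
    rw [h2, h1]
    simp only [diagV_apply_sq]
    rfl
  have hJ := hlow α hα hαd' n hn3
  set z := δ * (1 - bn n) + 0.00001 * δ with hz
  have hz0 : 0 ≤ z := by
    rw [hz]; nlinarith
  have hzδ : z ≤ δ := by rw [hz]; nlinarith
  have hJ' : 1 - z ≤ J α (fun _ : Fin n => 1 / (n : ℝ)) := by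
    refine le_trans (le_of_eq ?_) hJ
    rw [hz]; ring
  have hDD : exp (ε - 0.25 * ε ^ 2) ≤ DD α := by
    rw [← Real.le_log_iff_exp_le hD]
    refine log_DD_near_one hα ?_
    rw [← hε]
    linarith
  have hmain : exp (ε * (bn n - 0.0002)) < exp (ε - 0.25 * ε ^ 2) * (1 - z) := by
    have h1 := n14_exp hz0 (by linarith)
    calc exp (ε * (bn n - 0.0002)) < exp ((ε - 0.25 * ε ^ 2) + -(z + 2 * z ^ 2)) := by
          apply Real.exp_lt_exp.2
          have h2 : z ^ 2 ≤ δ ^ 2 := pow_le_pow_left₀ hz0 hzδ 2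
          have h3 : ε ^ 2 ≤ δ ^ 2 := pow_le_pow_left₀ hε0.le hεle 2
          have h4 : z ≤ ε * (1 - bn n) + δ ^ 2 + 0.00001 * δ := by
            rw [hz]
            have h5 : (δ - ε) * (1 - bn n) ≤ δ ^ 2 := by nlinarith
            linarith
          have h6 : δ ^ 2 ≤ 0.00001 * δ := by nlinarith
          norm_num at h4 h6 ⊢
          nlinarith
      _ = exp (ε - 0.25 * ε ^ 2) * exp (-(z + 2 * z ^ 2)) := Real.exp_add _ _
      _ ≤ exp (ε - 0.25 * ε ^ 2) * (1 - z) := mul_le_mul_of_nonneg_left h1 (exp_pos _).le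
  have hmain2 : cst α m * exp (ε * (bn n - 0.0002)) <
      cst α m * DD α * J α (fun _ : Fin n => 1 / (n : ℝ)) := by
    have h1z : 0 ≤ 1 - z := by linarith
    calc cst α m * exp (ε * (bn n - 0.0002)) < cst α m * (exp (ε - 0.25 * ε ^ 2) * (1 - z)) :=
          mul_lt_mul_of_pos_left hmain hcst
      _ ≤ cst α m * (DD α * J α (fun _ : Fin n => 1 / (n : ℝ))) := by
          refine mul_le_mul_of_nonneg_left ?_ hcst.le
          exact mul_le_mul hDD hJ' h1z hD.le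
      _ = _ := by ring
  have hpos : 0 < cst α m * DD α * J α (fun _ : Fin n => 1 / (n : ℝ)) :=
    lt_trans (by positivity) hmain2
  rw [hdiag]
  have hsuff : sec α a ≤ ENNReal.ofReal (cst α m * exp (ε * (bn n - 0.0002))) →
      sec α a < ENNReal.ofReal (cst α m * DD α * J α (fun _ : Fin n => 1 / (n : ℝ))) := fun h =>
    h.trans_lt ((ENNReal.ofReal_lt_ofReal_iff hpos).2 hmain2)
  apply hsuff
  by_cases hall : ∀ i, ‖a i‖ < 1
  · refine (bl_bound hα a ha hall).trans (ENNReal.ofReal_le_ofReal ?_)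
    refine mul_le_mul_of_nonneg_left ?_ hcst.le
    apply Real.exp_le_exp.2
    refine mul_le_mul_of_nonneg_left ?_ hε0.le
    have h1 := entropy (n := n) (by omega) (x := fun i => ‖a i‖ ^ 2) (fun i => by positivity)
      (fun i => by
        have := hall i
        nlinarith [norm_nonneg (a i)]) (asym_sum a ha)
    refine h1.trans ?_
    norm_num at hfar ⊢
    linarith
  · push Not at hall
    obtain ⟨i, hi⟩ := hall
    have hi0 : a i ≠ 0 := by
      intro h; rw [h, norm_zero] at hi; linarith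
    refine (sec_le_coord hα a ha i hi0).trans (ENNReal.ofReal_le_ofReal ?_)
    have h1 : (1 : ℝ) ≤ ‖a i‖ ^ 2 := by nlinarith
    have h2 : cst α m / ‖a i‖ ^ 2 ≤ cst α m := div_le_self hcst.le h1
    refine h2.trans (le_mul_of_one_le_right hcst.le ?_)
    apply Real.one_le_exp
    apply mul_nonneg hε0.le
    norm_num
    linarith

end LpSec

end

section
/-!
# N15 Two: dimension two, all `α > 1`

`a = (a0, a1)`, `|a0|² + |a1|² = 1`. `hyp a` is the complex line spanned by the unit vector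
`b = (-conj a1, conj a0)` (check `⟪a, b⟫ = 0`). `w ↦ w b` is a (real) linear isometry
`ℂ ≃ hyp a`, so `sec α a = ∫_ℂ exp (-|w|^{2α} S) dw`, `S = |a0|^{2α} + |a1|^{2α}`, and this equals
`π Γ(1+1/α) S^{-1/α}` (`Complex.lintegral_exp_neg_mul_rpow`/polar coordinates:
`Complex.integral_exp_neg_mul_rpow`), a strictly decreasing function of `S > 0`. By strict convexity of
`y ↦ y^α` on `[0,∞)` (`strictConvexOn_rpow`): `S = x^α + (1-x)^α ≥ 2 (1/2)^α`, `x = |a0|²`, with equality iff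
`x = 1/2`.
-/

open Real MeasureTheory Set Filter Topology

namespace LpSec

/-- the unit vector spanning `hyp a` -/
noncomputable def twoB (a : EuclideanSpace ℂ (Fin 2)) : EuclideanSpace ℂ (Fin 2) :=
  WithLp.toLp 2 ![-(starRingEnd ℂ (a 1)), starRingEnd ℂ (a 0)]

theorem twoB_zero (a : EuclideanSpace ℂ (Fin 2)) : twoB a 0 = -(starRingEnd ℂ (a 1)) := rfl

theorem twoB_one (a : EuclideanSpace ℂ (Fin 2)) : twoB a 1 = starRingEnd ℂ (a 0) := rfl

theorem two_norm (a : EuclideanSpace ℂ (Fin 2)) (ha : ‖a‖ = 1) : ‖a 0‖ ^ 2 + ‖a 1‖ ^ 2 = 1 := by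
  have h := EuclideanSpace.norm_sq_eq a
  rw [ha, Fin.sum_univ_two] at h
  linarith

theorem two_norm_C (a : EuclideanSpace ℂ (Fin 2)) (ha : ‖a‖ = 1) :
    starRingEnd ℂ (a 0) * a 0 + starRingEnd ℂ (a 1) * a 1 = 1 := by
  have h := two_norm a ha
  rw [Complex.conj_mul', Complex.conj_mul']
  exact_mod_cast h

theorem twoB_norm (a : EuclideanSpace ℂ (Fin 2)) (ha : ‖a‖ = 1) : ‖twoB a‖ = 1 := by
  have h := EuclideanSpace.norm_sq_eq (twoB a)
  rw [Fin.sum_univ_two, twoB_zero, twoB_one, norm_neg, RCLike.norm_conj, RCLike.norm_conj] at h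
  have h2 := two_norm a ha
  have h3 : ‖twoB a‖ ^ 2 = 1 := by linarith
  have h4 := norm_nonneg (twoB a)
  nlinarith

theorem two_inner (a z : EuclideanSpace ℂ (Fin 2)) :
    inner ℂ a z = starRingEnd ℂ (a 0) * z 0 + starRingEnd ℂ (a 1) * z 1 := by
  rw [PiLp.inner_apply, Fin.sum_univ_two]
  simp only [RCLike.inner_apply]
  ring

theorem twoB_mem (a : EuclideanSpace ℂ (Fin 2)) (w : ℂ) : w • twoB a ∈ hyp a := by
  rw [mem_hyp, two_inner]
  simp only [PiLp.smul_apply, smul_eq_mul, twoB_zero, twoB_one]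
  ring

/-- the linear isometry `w ↦ w b` -/
noncomputable def twoL (a : EuclideanSpace ℂ (Fin 2)) (ha : ‖a‖ = 1) : ℂ →ₗᵢ[ℝ] hyp a where
  toFun w := ⟨w • twoB a, twoB_mem a w⟩
  map_add' x y := by
    apply Subtype.ext
    change (x + y) • twoB a = x • twoB a + y • twoB a
    rw [add_smul]
  map_smul' c x := by
    apply Subtype.ext
    change (c • x) • twoB a = c • (x • twoB a)
    rw [smul_assoc]
  norm_map' x := by
    change ‖x • twoB a‖ = ‖x‖
    rw [norm_smul, twoB_norm a ha, mul_one]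

theorem twoL_surj (a : EuclideanSpace ℂ (Fin 2)) (ha : ‖a‖ = 1) :
    Function.Surjective (twoL a ha) := by
  rintro ⟨z, hz⟩
  refine ⟨-(a 1) * z 0 + a 0 * z 1, ?_⟩
  apply Subtype.ext
  change (-(a 1) * z 0 + a 0 * z 1) • twoB a = z
  have h1 : starRingEnd ℂ (a 0) * z 0 + starRingEnd ℂ (a 1) * z 1 = 0 := by
    rw [← two_inner]
    exact mem_hyp.1 hz
  have h2 := two_norm_C a ha
  ext i
  fin_cases i
  · change (-(a 1) * z 0 + a 0 * z 1) * twoB a 0 = z 0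
    rw [twoB_zero]
    linear_combination (z 0) * h2 - (a 0) * h1
  · change (-(a 1) * z 0 + a 0 * z 1) * twoB a 1 = z 1
    rw [twoB_one]
    linear_combination (z 1) * h2 - (a 1) * h1

/-- the sum of the powers -/
noncomputable def twoS (α : ℝ) (a : EuclideanSpace ℂ (Fin 2)) : ℝ :=
  (‖a 0‖ ^ 2) ^ α + (‖a 1‖ ^ 2) ^ α

theorem two_pow {α : ℝ} {x : ℝ} (hx : 0 ≤ x) : x ^ (2 * α) = (x ^ 2) ^ α := by
  rw [rpow_mul hx, rpow_two]

theorem twoS_pos {α : ℝ} (a : EuclideanSpace ℂ (Fin 2)) (ha : ‖a‖ = 1) :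
    0 < twoS α a := by
  have h := two_norm a ha
  unfold twoS
  by_cases h0 : ‖a 0‖ ^ 2 = 0
  · have h1 : ‖a 1‖ ^ 2 = 1 := by linarith
    rw [h1, one_rpow]
    have : 0 ≤ (‖a 0‖ ^ 2) ^ α := rpow_nonneg (by positivity) _
    linarith
  · have h1 : 0 < ‖a 0‖ ^ 2 := lt_of_le_of_ne (by positivity) (Ne.symm h0)
    have h2 : 0 < (‖a 0‖ ^ 2) ^ α := rpow_pos_of_pos h1 _
    have h3 : 0 ≤ (‖a 1‖ ^ 2) ^ α := rpow_nonneg (by positivity) _
    linarith

theorem sec_two_eq {α : ℝ} (hα : 1 < α) (a : EuclideanSpace ℂ (Fin 2)) (ha : ‖a‖ = 1) :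
    (sec α a).toReal = π * twoS α a ^ (-2 / (2 * α)) * Gamma (2 / (2 * α) + 1) := by
  rw [sec_toReal hα a]
  have h1 := LinearIsometryEquiv.measurePreserving (E := ℂ) (F := hyp a)
    (LinearIsometryEquiv.ofSurjective (twoL a ha) (twoL_surj a ha))
  have h2 : MeasurableEmbedding (LinearIsometryEquiv.ofSurjective (twoL a ha) (twoL_surj a ha)) :=
    (LinearIsometryEquiv.ofSurjective (twoL a ha) (twoL_surj a ha)).toHomeomorph.measurableEmbedding
  rw [← h1.integral_comp h2 (fun z : hyp a =>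
    exp (-∑ i, ‖(z : EuclideanSpace ℂ (Fin 2)) i‖ ^ (2 * α)))]
  rw [← Complex.integral_exp_neg_mul_rpow (p := 2 * α) (by linarith) (twoS_pos a ha)]
  apply integral_congr_ae
  refine Eventually.of_forall fun w => ?_
  simp only []
  congr 1
  have e1 : (((LinearIsometryEquiv.ofSurjective (twoL a ha) (twoL_surj a ha)) w : hyp a) :
      EuclideanSpace ℂ (Fin 2)) = w • twoB a := rfl
  rw [e1, Fin.sum_univ_two]
  simp only [PiLp.smul_apply, smul_eq_mul, twoB_zero, twoB_one, norm_mul, norm_neg,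
    RCLike.norm_conj]
  unfold twoS
  rw [mul_rpow (norm_nonneg _) (norm_nonneg _), mul_rpow (norm_nonneg _) (norm_nonneg _),
    two_pow (norm_nonneg (a 1)), two_pow (norm_nonneg (a 0))]
  ring

theorem two_mono {α : ℝ} (hα : 1 < α) {S S' : ℝ} (hS : 0 < S) (hSS : S < S') :
    π * S' ^ (-2 / (2 * α)) * Gamma (2 / (2 * α) + 1) <
      π * S ^ (-2 / (2 * α)) * Gamma (2 / (2 * α) + 1) := by
  have hG : 0 < Gamma (2 / (2 * α) + 1) := Gamma_pos_of_pos (by positivity)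
  have h1 : S' ^ (-2 / (2 * α)) < S ^ (-2 / (2 * α)) :=
    rpow_lt_rpow_of_neg hS hSS (div_neg_of_neg_of_pos (by norm_num) (by positivity))
  have hpi := pi_pos
  gcongr

theorem two_conv {α : ℝ} (hα : 1 < α) {x y : ℝ} (hx : 0 ≤ x) (hy : 0 ≤ y) (hxy : x + y = 1)
    (hne : x ≠ y) : (1 / 2 : ℝ) ^ α + (1 / 2) ^ α < x ^ α + y ^ α := by
  have h := (strictConvexOn_rpow hα).2 (mem_Ici.2 hx) (mem_Ici.2 hy) hne
    (show (0 : ℝ) < 1 / 2 by norm_num) (show (0 : ℝ) < 1 / 2 by norm_num) (by norm_num)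
  simp only [smul_eq_mul] at h
  have h2 : 1 / 2 * x + 1 / 2 * y = 1 / 2 := by linarith
  rw [h2] at h
  linarith

theorem sec_two {α : ℝ} (hα : 1 < α) (a : EuclideanSpace ℂ (Fin 2)) (ha : ‖a‖ = 1) :
    sec α a ≤ sec α (diagV 2) ∧
    (sec α a = sec α (diagV 2) ↔ ∀ i, ‖a i‖ = 1 / √((2 : ℕ) : ℝ)) := by
  have hd : ‖diagV 2‖ = 1 := diagV_norm (by norm_num)
  have hSd : twoS α (diagV 2) = (1 / 2 : ℝ) ^ α + (1 / 2) ^ α := by
    unfold twoS
    rw [diagV_apply_sq, diagV_apply_sq]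
    norm_num
  have hn := two_norm a ha
  by_cases hne : ‖a 0‖ ^ 2 = ‖a 1‖ ^ 2
  · -- both are `1 / 2`
    have h0 : ‖a 0‖ ^ 2 = 1 / 2 := by linarith
    have h1 : ‖a 1‖ ^ 2 = 1 / 2 := by linarith
    have hS : twoS α a = twoS α (diagV 2) := by
      rw [hSd]
      unfold twoS
      rw [h0, h1]
    have heq : sec α a = sec α (diagV 2) := by
      rw [← ENNReal.toReal_eq_toReal_iff' (sec_ne_top hα a) (sec_ne_top hα (diagV 2)),
        sec_two_eq hα a ha, sec_two_eq hα _ hd, hS]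
    refine ⟨heq.le, ⟨fun _ => ?_, fun _ => heq⟩⟩
    have key : ∀ x : ℝ, 0 ≤ x → x ^ 2 = 1 / 2 → x = 1 / √((2 : ℕ) : ℝ) := by
      intro x hx hx2
      have h3 : (1 / √((2 : ℕ) : ℝ)) ^ 2 = 1 / 2 := by
        rw [div_pow, one_pow, Real.sq_sqrt (by norm_num)]
        norm_num
      have h4 : 0 ≤ 1 / √((2 : ℕ) : ℝ) := by positivity
      exact (pow_left_inj₀ hx h4 two_ne_zero).1 (hx2.trans h3.symm)
    intro i
    fin_cases i
    · exact key _ (norm_nonneg _) h0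
    · exact key _ (norm_nonneg _) h1
  · have hS : twoS α (diagV 2) < twoS α a := by
      rw [hSd]
      exact two_conv hα (by positivity) (by positivity) hn hne
    have hlt : sec α a < sec α (diagV 2) := by
      rw [← ENNReal.toReal_lt_toReal (sec_ne_top hα a) (sec_ne_top hα (diagV 2)),
        sec_two_eq hα a ha, sec_two_eq hα _ hd]
      exact two_mono hα (twoS_pos _ hd) hS
    refine ⟨hlt.le, ⟨fun h => absurd h hlt.ne, fun h => ?_⟩⟩
    exfalso
    apply hne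
    rw [h 0, h 1]

end LpSec

end

section
/-!
# N16 Fin: the maximum in all dimensions for `p` close to `2`
-/

open Real MeasureTheory Set Filter Topology

namespace LpSec

/-- From `sec` to volumes. -/
theorem secVol_cmp {p : ℝ} (hp : 2 < p) {m : ℕ} (hm : 1 ≤ m)
    (a : EuclideanSpace ℂ (Fin (m + 1))) (ha : ‖a‖ = 1)
    (h : sec (p / 2) a ≤ sec (p / 2) (diagV (m + 1)) ∧
      (sec (p / 2) a = sec (p / 2) (diagV (m + 1)) ↔ ∀ i, ‖a i‖ = 1 / √((m + 1 : ℕ) : ℝ))) :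
    secVol p a ≤ secVol p (diagV (m + 1)) ∧
      (secVol p a = secVol p (diagV (m + 1)) ↔ ∀ i, ‖a i‖ = 1 / √((m + 1 : ℕ) : ℝ)) := by
  obtain ⟨h1, h2⟩ := h
  have hG : 0 < Gamma (1 + m / (p / 2)) := Gamma_pos_of_pos (by positivity)
  have hd := diagV_norm (n := m + 1) (by omega)
  rw [secVol_eq hp hm a ha, secVol_eq hp hm _ hd]
  refine ⟨ENNReal.div_le_div_right h1 _, ?_⟩
  rw [← h2]
  have h0 : ENNReal.ofReal (Gamma (1 + m / (p / 2))) ≠ 0 := by
    simpa using hG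
  constructor
  · intro h
    have h3 := congrArg (· * ENNReal.ofReal (Gamma (1 + m / (p / 2)))) h
    rwa [ENNReal.div_mul_cancel h0 ENNReal.ofReal_ne_top,
      ENNReal.div_mul_cancel h0 ENNReal.ofReal_ne_top] at h3
  · intro h
    rw [h]

theorem sum_sq_norm {m : ℕ} (a : EuclideanSpace ℂ (Fin (m + 1))) (ha : ‖a‖ = 1) :
    ∑ i, ‖a i‖ ^ 2 = 1 := by
  rw [← EuclideanSpace.norm_sq_eq a, ha]
  norm_num

theorem flat_iff {m : ℕ} (a : EuclideanSpace ℂ (Fin (m + 1))) :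
    (∀ i, ‖a i‖ = 1 / √((m + 1 : ℕ) : ℝ)) ↔
      (fun i => ‖a i‖ ^ 2) = fun _ => 1 / ((m + 1 : ℕ) : ℝ) := by
  have hn : (0 : ℝ) < ((m + 1 : ℕ) : ℝ) := by positivity
  have hs : (0 : ℝ) < √((m + 1 : ℕ) : ℝ) := Real.sqrt_pos.2 hn
  constructor
  · intro h
    funext i
    rw [h i, div_pow, Real.sq_sqrt hn.le, one_pow]
  · intro h i
    have h1 := congrFun h i
    simp only at h1
    have h2 : ‖a i‖ ^ 2 = (1 / √((m + 1 : ℕ) : ℝ)) ^ 2 := by
      rw [h1, div_pow, Real.sq_sqrt hn.le, one_pow]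
    exact (pow_left_inj₀ (norm_nonneg _) (by positivity) (by norm_num)).1 h2

theorem sec_toReal_J {α C : ℝ} (hg : Good α C) {m : ℕ} (a : EuclideanSpace ℂ (Fin (m + 1)))
    (ha : ‖a‖ = 1) (h4 : ∀ i, ‖a i‖ ^ 2 ≤ 0.4) :
    (sec α a).toReal = cst α m * DD α * J α (fun i => ‖a i‖ ^ 2) := by
  refine sec_eq hg.one_lt a ha ?_
  exact good_integrable hg (fun i => by positivity) (sum_sq_norm a ha) h4

theorem sec_cmp {α C : ℝ} (hg : Good α C) {m : ℕ} (hm : 2 ≤ m)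
    (hI : ∀ x : Fin (m + 1) → ℝ, ∑ i, x i = 1 →
      (∀ k, |x k - 1 / ((m + 1 : ℕ) : ℝ)| ≤ 0.02) →
      (∀ k, 0 ≤ x k) → ∀ i j, x j < x i → 0 < IJ α x i j)
    (hfar : ∀ a : EuclideanSpace ℂ (Fin (m + 1)), ‖a‖ = 1 →
      0.0004 < ∑ i, (‖a i‖ ^ 2 - 1 / ((m + 1 : ℕ) : ℝ)) ^ 2 →
      sec α a < sec α (diagV (m + 1)))
    (a : EuclideanSpace ℂ (Fin (m + 1))) (ha : ‖a‖ = 1) :
    sec α a ≤ sec α (diagV (m + 1)) ∧
      (sec α a = sec α (diagV (m + 1)) ↔ ∀ i, ‖a i‖ = 1 / √((m + 1 : ℕ) : ℝ)) := by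
  have hα := hg.one_lt
  have hn : (0 : ℝ) < ((m + 1 : ℕ) : ℝ) := by positivity
  have hn3 : (3 : ℝ) ≤ ((m + 1 : ℕ) : ℝ) := by exact_mod_cast (by omega : 3 ≤ m + 1)
  have hd := diagV_norm (n := m + 1) (by omega)
  have hdi : ∀ i : Fin (m + 1), ‖diagV (m + 1) i‖ ^ 2 = 1 / ((m + 1 : ℕ) : ℝ) := by
    intro i
    have : ‖diagV (m + 1) i‖ = 1 / √((m + 1 : ℕ) : ℝ) := by
      have e : diagV (m + 1) i = ((1 / √((m + 1 : ℕ) : ℝ) : ℝ) : ℂ) := rfl
      rw [e, Complex.norm_real, Real.norm_of_nonneg (by positivity)]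
    rw [this, div_pow, Real.sq_sqrt hn.le, one_pow]
  have h13 : 1 / ((m + 1 : ℕ) : ℝ) ≤ 1 / 3 := one_div_le_one_div_of_le (by norm_num) hn3
  have hcD : 0 < cst α m * DD α := mul_pos (cst_pos hα m) (DD_pos (by linarith))
  have hdJ : (sec α (diagV (m + 1))).toReal =
      cst α m * DD α * J α (fun _ : Fin (m + 1) => 1 / ((m + 1 : ℕ) : ℝ)) := by
    rw [sec_toReal_J hg _ hd (fun i => by rw [hdi i]; linarith)]
    congr 2
    funext i
    exact hdi i
  rcases lt_or_ge 0.0004 (∑ i, (‖a i‖ ^ 2 - 1 / ((m + 1 : ℕ) : ℝ)) ^ 2) with h | h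
  · have hlt := hfar a ha h
    refine ⟨hlt.le, ⟨fun he => absurd he hlt.ne, fun hf => ?_⟩⟩
    exfalso
    rw [flat_iff] at hf
    have : ∑ i, (‖a i‖ ^ 2 - 1 / ((m + 1 : ℕ) : ℝ)) ^ 2 = 0 := by
      refine Finset.sum_eq_zero fun i _ => ?_
      have h1 := congrFun hf i
      simp only at h1
      rw [h1]; ring
    rw [this] at h
    norm_num at h
  · have hx1 := sum_sq_norm a ha
    have h002 : ∀ i, |‖a i‖ ^ 2 - 1 / ((m + 1 : ℕ) : ℝ)| ≤ 0.02 := by
      intro i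
      have h1 : (‖a i‖ ^ 2 - 1 / ((m + 1 : ℕ) : ℝ)) ^ 2 ≤ 0.02 ^ 2 := by
        refine le_trans (Finset.single_le_sum
          (f := fun i => (‖a i‖ ^ 2 - 1 / ((m + 1 : ℕ) : ℝ)) ^ 2)
          (fun i _ => by positivity) (Finset.mem_univ i)) ?_
        refine h.trans ?_
        norm_num
      exact abs_le_of_sq_le_sq h1 (by norm_num)
    have h4 : ∀ i, ‖a i‖ ^ 2 ≤ 0.4 := by
      intro i
      have := (abs_le.1 (h002 i)).2
      linarith
    have haJ := sec_toReal_J hg a ha h4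
    rw [flat_iff]
    by_cases hf : (fun i => ‖a i‖ ^ 2) = fun _ => 1 / ((m + 1 : ℕ) : ℝ)
    · have heq : sec α a = sec α (diagV (m + 1)) := by
        rw [← ENNReal.toReal_eq_toReal_iff' (sec_ne_top hα a) (sec_ne_top hα _), haJ, hdJ, hf]
      exact ⟨heq.le, ⟨fun _ => hf, fun _ => heq⟩⟩
    · have hlt : sec α a < sec α (diagV (m + 1)) := by
        rw [← ENNReal.toReal_lt_toReal (sec_ne_top hα a) (sec_ne_top hα _), haJ, hdJ]
        exact mul_lt_mul_of_pos_left (near_max hg (by omega) hI (fun i => by positivity) hx1 h hf)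
          hcD
      exact ⟨hlt.le, ⟨fun he => absurd he hlt.ne, fun h => absurd h hf⟩⟩

theorem final_two {p : ℝ} (hp : 2 < p) (a : EuclideanSpace ℂ (Fin 2)) (ha : ‖a‖ = 1) :
    secVol p a ≤ secVol p (diagV 2) ∧
      (secVol p a = secVol p (diagV 2) ↔ ∀ i, ‖a i‖ = 1 / √((2 : ℕ) : ℝ)) :=
  secVol_cmp hp (m := 1) le_rfl a ha (sec_two (by linarith) a ha)

theorem final2 : ∃ p1 : ℝ, 2 < p1 ∧ ∀ p : ℝ, 2 < p → p < p1 → ∀ n : ℕ, 2 ≤ n →
    ∀ a : EuclideanSpace ℂ (Fin n), ‖a‖ = 1 →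
      secVol p a ≤ secVol p (diagV n) ∧
      (secVol p a = secVol p (diagV n) ↔ ∀ i, ‖a i‖ = 1 / √(n : ℝ)) := by
  obtain ⟨C, hC, αg, hαg, hgood⟩ := exists_good
  obtain ⟨T, hT, hpair⟩ := pair_pos hC
  obtain ⟨αs, hαs, hslope⟩ := exists_slope hT
  obtain ⟨αf, hαf, hfar⟩ := far
  refine ⟨2 * min αg (min αs αf), ?_, fun p hp hp1 n hn a ha => ?_⟩
  · have : 1 < min αg (min αs αf) := lt_min hαg (lt_min hαs hαf)
    linarith
  · have hα : 1 < p / 2 := by linarith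
    have hlt : p / 2 < min αg (min αs αf) := by linarith
    have h1 : p / 2 ≤ αg := (hlt.trans_le (min_le_left _ _)).le
    have h2 : p / 2 ≤ αs := (hlt.trans_le ((min_le_right _ _).trans (min_le_left _ _))).le
    have h3 : p / 2 ≤ αf := (hlt.trans_le ((min_le_right _ _).trans (min_le_right _ _))).le
    rcases Nat.lt_or_ge n 3 with h | h
    · have : n = 2 := by omega
      subst this
      exact final_two hp a ha
    · obtain ⟨m, rfl⟩ : ∃ m, n = m + 1 := ⟨n - 1, by omega⟩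
      have hm : 2 ≤ m := by omega
      refine secVol_cmp hp (by omega) a ha ?_
      exact sec_cmp (hgood _ hα h1) hm
        (fun x hx1 hx2 hx0 i j hij =>
          hpair _ (hgood _ hα h1) (hslope _ hα h2) (m + 1) (by omega) x hx1 hx2 hx0 i j hij)
        (fun a ha h => hfar _ hα h3 m hm a ha h) a ha

end LpSec

end
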