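import Mathlib
import Pool.Agent.Lib.MP_1dbab3_gt.StageB

section
/-!
# C06 PairVal: the value of the section for `(ξ e_i + η e_j)/√2`

* `pair_moment`: `sec_eq_nonneg` for `diagV 2` (`∏ Phi (s/2) = Phi (s/2)² ≥ 0`):
  `sec α (diagV 2) = cst α 1 * DD * ∫ Phi (s/2)² = cst α 1 * DD * 2 Mom 2`, while `sec_two_eq` gives
  `π (2 (1/2)^α)^(-1/α) Γ(1+1/α) = cst α 1 * 2^(1-1/α)`.
* `sec_pair`: `sec_eq_nonneg`: the product is `Phi (s/2)²` (the other coordinates vanish as
  `∑ ‖a i‖² = 1`, `Phi 0 = 1`).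
-/

open Real MeasureTheory Set Filter Topology

namespace LpSec

variable {α : ℝ} {m : ℕ}

private lemma c06_scale (g : ℝ → ENNReal) {c : ℝ} (hc : 0 < c) :
    ∫⁻ s in Ioi (0 : ℝ), g (c * s) = ENNReal.ofReal (1 / c) * ∫⁻ s in Ioi (0 : ℝ), g s := by
  have hemb : MeasurableEmbedding (fun x : ℝ => c * x) :=
    (Homeomorph.mulLeft₀ c hc.ne').measurableEmbedding
  have h1 : ∫⁻ s in Ioi (0 : ℝ), g s = ENNReal.ofReal c * ∫⁻ s in Ioi (0 : ℝ), g (c * s) := by
    rw [← lintegral_indicator measurableSet_Ioi, ← lintegral_indicator measurableSet_Ioi]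
    conv_lhs => rw [← Real.smul_map_volume_mul_left hc.ne', abs_of_pos hc]
    rw [lintegral_smul_measure, hemb.lintegral_map, smul_eq_mul]
    congr 2
    ext s
    by_cases hs : 0 < s
    · rw [indicator_of_mem (show c * s ∈ Ioi 0 from mul_pos hc hs),
        indicator_of_mem (show s ∈ Ioi 0 from hs)]
    · rw [indicator_of_notMem (show c * s ∉ Ioi 0 from fun h => hs (by
          have h' : 0 < c * s := h
          exact (mul_pos_iff_of_pos_left hc).1 h')),
        indicator_of_notMem (show s ∉ Ioi 0 from hs)]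
  rw [h1, ← mul_assoc, ← ENNReal.ofReal_mul (by positivity), one_div,
    inv_mul_cancel₀ hc.ne', ENNReal.ofReal_one, one_mul]

/-- the Fourier formula for a pair, in terms of `Mom 2` -/
private lemma c06_sec (hα : 1 < α) (a : EuclideanSpace ℂ (Fin (m + 1))) (ha : ‖a‖ = 1)
    (j k : Fin (m + 1)) (hjk : j ≠ k) (hj : ‖a j‖ ^ 2 = 1 / 2) (hk : ‖a k‖ ^ 2 = 1 / 2) :
    sec α a = ENNReal.ofReal (cst α m * DD α) * (ENNReal.ofReal 2 * Mom α 2) := by
  classical
  have hs := asym_sum a ha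
  have hkm : k ∈ Finset.univ.erase j := Finset.mem_erase.2 ⟨hjk.symm, Finset.mem_univ _⟩
  have hrest : ∀ i ∈ (Finset.univ.erase j).erase k, ‖a i‖ ^ 2 = 0 := by
    have h0 : ∑ i ∈ (Finset.univ.erase j).erase k, ‖a i‖ ^ 2 = 0 := by
      have h1 := Finset.add_sum_erase Finset.univ (fun i => ‖a i‖ ^ 2) (Finset.mem_univ j)
      have h2 := Finset.add_sum_erase (Finset.univ.erase j) (fun i => ‖a i‖ ^ 2) hkm
      simp only at h1 h2
      linarith
    exact (Finset.sum_eq_zero_iff_of_nonneg (fun i _ => by positivity)).1 h0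
  have hprod : ∀ s : ℝ, ∏ i, Phi α (‖a i‖ ^ 2 * s) = Phi α (1 / 2 * s) ^ 2 := by
    intro s
    rw [← Finset.mul_prod_erase Finset.univ _ (Finset.mem_univ j),
      ← Finset.mul_prod_erase (Finset.univ.erase j) _ hkm, hj, hk]
    have h1 : ∏ i ∈ (Finset.univ.erase j).erase k, Phi α (‖a i‖ ^ 2 * s) = 1 := by
      refine Finset.prod_eq_one fun i hi => ?_
      rw [hrest i hi, zero_mul, Phi_zero hα]
    rw [h1]
    ring
  rw [sec_eq_nonneg hα a ha (fun s _ => by rw [hprod]; positivity)]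
  congr 1
  simp only [hprod]
  have e : ∀ s : ℝ, ENNReal.ofReal (Phi α (1 / 2 * s) ^ 2) =
      ENNReal.ofReal (|Phi α (1 / 2 * s)| ^ (2 : ℝ)) := by
    intro s
    rw [rpow_two, sq_abs]
  simp only [e]
  rw [c06_scale (fun s => ENNReal.ofReal (|Phi α s| ^ (2 : ℝ))) (by norm_num : (0 : ℝ) < 1 / 2)]
  rw [one_div_one_div]
  rfl

theorem pair_moment (hα : 1 < α) : ENNReal.ofReal 2 * Mom α 2 = ENNReal.ofReal (AA α) := by
  have hd : ‖diagV 2‖ = 1 := diagV_norm (by norm_num)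
  have hc : 0 < cst α 1 := cst_pos hα 1
  have hD : 0 < DD α := DD_pos (by linarith)
  have hcD : 0 < cst α 1 * DD α := mul_pos hc hD
  have h1 := c06_sec (m := 1) hα (diagV 2) hd 0 1 (by decide)
    (by rw [diagV_apply_sq]; norm_num) (by rw [diagV_apply_sq]; norm_num)
  have h2 := sec_two_eq hα (diagV 2) hd
  have hS : twoS α (diagV 2) = 2 ^ (1 - α) := by
    unfold twoS
    rw [diagV_apply_sq, diagV_apply_sq]
    have : ((2 : ℕ) : ℝ) = 2 := by norm_num
    rw [this, one_div, inv_rpow (by norm_num), ← two_mul, rpow_sub (by norm_num), rpow_one]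
    rfl
  have h3 : (sec α (diagV 2)).toReal = cst α 1 * DD α * AA α := by
    rw [h2, hS, ← rpow_mul (by norm_num)]
    have e1 : (1 - α) * (-2 / (2 * α)) = 1 - 1 / α := by
      have : α ≠ 0 := by linarith
      field_simp
      ring
    have e2 : 2 / (2 * α) + 1 = 1 + 1 / α := by
      have : α ≠ 0 := by linarith
      field_simp
      ring
    rw [e1, e2]
    unfold AA cst
    field_simp
  have h4 : sec α (diagV 2) = ENNReal.ofReal (cst α 1 * DD α * AA α) := by
    rw [← h3, ENNReal.ofReal_toReal (sec_ne_top hα _)]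
  rw [h1, ENNReal.ofReal_mul hcD.le] at h4
  have h5 : ENNReal.ofReal (cst α 1 * DD α) ≠ 0 := by simpa using hcD
  exact (ENNReal.mul_right_inj h5 ENNReal.ofReal_ne_top).1 h4

theorem sec_pair (hα : 1 < α) (a : EuclideanSpace ℂ (Fin (m + 1))) (ha : ‖a‖ = 1)
    (j k : Fin (m + 1)) (hjk : j ≠ k) (hj : ‖a j‖ ^ 2 = 1 / 2) (hk : ‖a k‖ ^ 2 = 1 / 2) :
    sec α a = ENNReal.ofReal (cst α m * DD α * AA α) := by
  have hcD : 0 ≤ cst α m * DD α := mul_nonneg (cst_pos hα m).le (DD_pos (by linarith)).le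
  rw [c06_sec hα a ha j k hjk hj hk, pair_moment hα, ENNReal.ofReal_mul hcD]

end LpSec

end
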