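import Mathlib
import Pool.Agent.Lib.MP_1dbab3_gt.C01Lim
import Pool.Agent.Lib.MP_1dbab3_gt.Main

section
/-!
# C07 Strong: log-concavity of `Phi` near `0`, uniformly for large `α`

Copy of `Phi_strong` (GamX.lean) with explicit constants. For `s ∈ [0, s1]`: `|Phi s - 1| ≤ s`
(`Phi_ge`, `Phi_abs_le_one`), `|Phi1 s - 1| ≤ s` (derivative `-Phi2`, `|Phi2| ≤ 1`: or
`Phi1_hasDerivAt`), `Phi2 s ≤ Phi2 0 + s (∫ ρ³ F)/6 ≤ 0.7 + s/2` for large `α`
(`K 2 u ≤ K 2 0 + u/6` from `|K 3| ≤ 1/6`; `F_mom3`, `Phi2_zero_tendsto`). Hence with `s1 = 1/50`: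
`Phi2/Phi - (Phi1/Phi)² ≤ 0.71/0.98 - 0.98² < -2κ` with `κ = 1/10`, and `Phi ≥ 0.98 > 0`.
`Phi_exp_sq`: with `g s = log (Phi s) + κ s²` concave on `[0,s1]`, `g 0 = 0`: `g s / s ≤ g t / t ≤
-1 + κ t` for `0 < t < s` (`main_lobe`: `Phi t ≤ e^{-t}`), let `t → 0`: `g s ≤ -s`.
`diag_lower_unif`: the proof of `diag_lower` (Main.lean); `n0` does not depend on `α`.
-/

open Real MeasureTheory Set Filter Topology

namespace LpSec

variable {α : ℝ}


private lemma c07_K2 {u : ℝ} (hu : 0 ≤ u) : K 2 u ≤ 1 / 2 + u / 6 := by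
  have hd : ∀ v : ℝ, HasDerivAt (fun v => v / 6 - K 2 v) (1 / 6 - -(K (2 + 1) v)) v := fun v =>
    ((hasDerivAt_id v).div_const 6).sub (K_hasDerivAt 2 v)
  have hmono : MonotoneOn (fun v => v / 6 - K 2 v) (Ici 0) := by
    refine monotoneOn_of_deriv_nonneg (convex_Ici 0) ?_ ?_ ?_
    · exact fun v _ => (hd v).continuousAt.continuousWithinAt
    · exact fun v _ => (hd v).differentiableAt.differentiableWithinAt
    · intro v hv
      rw [interior_Ici] at hv
      rw [(hd v).deriv]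
      have h := (abs_le.1 (K_abs_le (2 + 1) (le_of_lt hv))).1
      norm_num [Nat.factorial] at h ⊢
      linarith
  have h := hmono (mem_Ici.2 le_rfl) (mem_Ici.2 hu) hu
  have h0 : K 2 0 = 1 / 2 := by
    rw [K_zero]
    norm_num [Nat.factorial]
  simp only [h0] at h
  linarith

private lemma c07_Phi1 (hα : 1 < α) {s : ℝ} (hs : 0 ≤ s) : 1 - s ≤ Phi1 α s := by
  have hmono : MonotoneOn (fun s => Phi1 α s + s) (Ici 0) := by
    refine monotoneOn_of_deriv_nonneg (convex_Ici 0) ?_ ?_ ?_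
    · exact (Phi1_continuousOn hα).add continuousOn_id
    · intro v hv
      rw [interior_Ici] at hv
      exact ((Phi1_hasDerivAt hα hv).add (hasDerivAt_id v)).differentiableAt.differentiableWithinAt
    · intro v hv
      rw [interior_Ici] at hv
      have h1 := ((Phi1_hasDerivAt hα hv).add (hasDerivAt_id v)).deriv
      have h2 : deriv (fun s => Phi1 α s + s) v = -Phi2 α v + 1 := h1
      rw [h2]
      have h := (abs_le.1 (Phi2_abs_le hα (le_of_lt hv))).2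
      linarith
  have h := hmono (mem_Ici.2 le_rfl) (mem_Ici.2 hs) hs
  simp only [Phi1_zero hα, add_zero] at h
  linarith

private lemma c07_Phi2 (hα : 1 < α) (h3i : IntegrableOn (fun ρ => ρ ^ 3 * F α ρ) (Ioi 0))
    (h3 : ∫ ρ in Ioi (0 : ℝ), ρ ^ 3 * F α ρ ≤ 3) {s : ℝ} (hs : 0 ≤ s) :
    Phi2 α s ≤ Phi2 α 0 + s / 2 := by
  have h1 : Phi2 α s ≤ ∫ ρ in Ioi (0 : ℝ), (ρ ^ 2 * F α ρ * (1 / 2) + s / 6 * (ρ ^ 3 * F α ρ)) := by
    unfold Phi2
    refine setIntegral_mono_on ?_ (((F_sq_mul_integrable hα).mul_const _).add (h3i.const_mul _))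
      measurableSet_Ioi ?_
    · exact phic2_int (F_sq_mul_integrable hα) 2 hs
    · intro ρ hρ
      have hρ' : 0 < ρ := hρ
      have hF := (F_pos (α := α) (by linarith) ρ).le
      have h2 := c07_K2 (mul_nonneg hs hρ'.le)
      have h4 : 0 ≤ ρ ^ 2 * F α ρ := by positivity
      calc ρ ^ 2 * F α ρ * K 2 (s * ρ) ≤ ρ ^ 2 * F α ρ * (1 / 2 + s * ρ / 6) :=
            mul_le_mul_of_nonneg_left h2 h4
        _ = _ := by ring
  rw [integral_add ((F_sq_mul_integrable hα).mul_const _) (h3i.const_mul _), integral_mul_const,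
    integral_const_mul, ← phic2_zero] at h1
  nlinarith

theorem Phi_strong_unif : ∃ s1 > 0, ∃ κ > 0, s1 ≤ 1 ∧ ∀ᶠ α : ℝ in atTop,
    (∀ s ∈ Icc 0 s1, 0 < Phi α s) ∧
    ConcaveOn ℝ (Icc 0 s1) (fun s => log (Phi α s) + κ * s ^ 2) := by
  refine ⟨1 / 50, by norm_num, 1 / 10, by norm_num, by norm_num, ?_⟩
  have hP := Phi2_zero_tendsto.eventually (eventually_le_nhds (show (2 / 3 : ℝ) < 0.7 by norm_num))
  filter_upwards [hP, F_mom3, eventually_gt_atTop 1] with α h20 hm hα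
  have hs1 : ∀ s ∈ Icc (0 : ℝ) (1 / 50), 0 < Phi α s ∧
      Phi2 α s / Phi α s - (Phi1 α s / Phi α s) ^ 2 + 2 * (1 / 10) < 0 := by
    intro s hs
    have hs0 := hs.1
    have hs50 := hs.2
    have h1 := Phi_ge hα hs0
    have h2 := (abs_le.1 (Phi_abs_le_one hα hs0)).2
    have h3 := c07_Phi1 hα hs0
    have h4 := c07_Phi2 hα hm.1 hm.2 hs0
    have hpos : 0 < Phi α s := by linarith
    refine ⟨hpos, ?_⟩
    have h5 : Phi2 α s / Phi α s ≤ 0.725 := by
      rw [div_le_iff₀ hpos]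
      nlinarith
    have h6 : 0.98 ≤ Phi1 α s / Phi α s := by
      rw [le_div_iff₀ hpos]
      nlinarith
    nlinarith
  refine ⟨fun s hs => (hs1 s hs).1, ?_⟩
  have hsub : Icc (0 : ℝ) (1 / 50) ⊆ Ici 0 := fun s hs => hs.1
  apply concaveOn_of_hasDerivWithinAt2_nonpos (convex_Icc _ _)
    (f' := fun s => -(Phi1 α s) / Phi α s + 1 / 10 * (2 * s))
    (f'' := fun s => Phi2 α s / Phi α s - (Phi1 α s / Phi α s) ^ 2 + 2 * (1 / 10))
  · apply ContinuousOn.add
    · apply ContinuousOn.log ((Phi_continuousOn hα).mono hsub)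
      intro s hs
      exact (hs1 s hs).1.ne'
    · exact (continuous_const.mul (continuous_id.pow 2)).continuousOn
  · intro s hs
    rw [interior_Icc] at hs
    have hpos := (hs1 s ⟨hs.1.le, hs.2.le⟩).1
    have h1 := (Phi_hasDerivAt hα hs.1).log hpos.ne'
    have h2 : HasDerivAt (fun s : ℝ => 1 / 10 * s ^ 2) (1 / 10 * (2 * s)) s := by
      have := (hasDerivAt_pow 2 s).const_mul (1 / 10)
      simpa using this
    exact (h1.add h2).hasDerivWithinAt
  · intro s hs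
    rw [interior_Icc] at hs
    have hpos := (hs1 s ⟨hs.1.le, hs.2.le⟩).1
    have h1 := ((Phi1_hasDerivAt hα hs.1).neg).div (Phi_hasDerivAt hα hs.1) hpos.ne'
    have h2 : HasDerivAt (fun s : ℝ => 1 / 10 * (2 * s)) (1 / 10 * (2 * 1)) s :=
      ((hasDerivAt_id s).const_mul 2).const_mul (1 / 10)
    have h3 := (h1.add h2).hasDerivWithinAt (s := interior (Icc (0 : ℝ) (1 / 50)))
    rw [interior_Icc] at h3
    rw [interior_Icc]
    refine h3.congr_deriv ?_
    simp only [Pi.neg_apply]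
    field_simp
  · intro s hs
    rw [interior_Icc] at hs
    exact (hs1 s ⟨hs.1.le, hs.2.le⟩).2.le

theorem Phi_exp_sq (hα : 1 < α) {s1 κ : ℝ} (hs1 : 0 < s1) (hs11 : s1 ≤ 1) (hκ : 0 < κ)
    (hpos : ∀ s ∈ Icc 0 s1, 0 < Phi α s)
    (hconc : ConcaveOn ℝ (Icc 0 s1) (fun s => log (Phi α s) + κ * s ^ 2)) :
    ∀ s ∈ Icc 0 s1, Phi α s ≤ exp (-s - κ * s ^ 2) := by
  intro s hs
  rcases hs.1.eq_or_lt with h0 | h0
  · rw [← h0, Phi_zero hα]
    simp
  have hg0 : log (Phi α 0) + κ * (0 : ℝ) ^ 2 = 0 := by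
    rw [Phi_zero hα]
    simp
  -- the chord inequality
  have hch : ∀ t : ℝ, 0 < t → t < s →
      log (Phi α s) + κ * s ^ 2 ≤ s * (-1 + κ * t) := by
    intro t ht hts
    have ht1 : t ∈ Icc 0 s1 := ⟨ht.le, hts.le.trans hs.2⟩
    have h1 := hconc.2 (show (0 : ℝ) ∈ Icc 0 s1 from ⟨le_rfl, hs1.le⟩) hs
      (show 0 ≤ 1 - t / s by
        have : t / s ≤ 1 := (div_le_one h0).2 hts.le
        linarith) (show 0 ≤ t / s by positivity) (by ring)
    simp only [smul_eq_mul, mul_zero, zero_add] at h1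
    rw [hg0, mul_zero, zero_add, div_mul_cancel₀ t h0.ne'] at h1
    have h2 : log (Phi α t) ≤ -t := by
      rw [log_le_iff_le_exp (hpos t ht1)]
      exact (le_abs_self _).trans (main_lobe hα ht.le (by linarith [ht1.2]))
    have h3 : t / s * (log (Phi α s) + κ * s ^ 2) ≤ -t + κ * t ^ 2 := by linarith
    have h4 : t / s * (log (Phi α s) + κ * s ^ 2) ≤ t / s * (s * (-1 + κ * t)) := by
      refine h3.trans (le_of_eq ?_)
      field_simp
    exact le_of_mul_le_mul_left h4 (by positivity)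
  have hlim : Tendsto (fun t : ℝ => s * (-1 + κ * t)) (𝓝[>] 0) (𝓝 (s * (-1 + κ * 0))) := by
    refine Tendsto.mono_left ?_ nhdsWithin_le_nhds
    exact Continuous.tendsto (by fun_prop) 0
  have hle : log (Phi α s) + κ * s ^ 2 ≤ s * (-1 + κ * 0) := by
    refine ge_of_tendsto hlim ?_
    filter_upwards [Ioo_mem_nhdsGT h0] with t ht
    exact hch t ht.1 ht.2
  rw [mul_zero, add_zero, mul_neg_one] at hle
  rw [← log_le_iff_le_exp (hpos s hs)]
  linarith

theorem diag_lower_unif : ∃ c > 0, ∃ n0 : ℕ, ∀ α : ℝ, 1 < α → ∀ n ≥ n0, ∀ s ∈ Icc (1 : ℝ) 2,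
    c ≤ Phi α (1 / (n : ℝ) * s) ^ n := by
  have hlow : Tendsto (fun n : ℕ => (1 + (-2) / (n : ℝ)) ^ n) atTop (𝓝 (exp (-2))) :=
    tendsto_one_add_div_pow_exp (-2)
  have hev := hlow.eventually (eventually_ge_nhds
    (show exp (-2) / 2 < exp (-2) by linarith [exp_pos (-2 : ℝ)]))
  obtain ⟨N, hN⟩ := (hev.and (eventually_ge_atTop 2)).exists_forall_of_atTop
  refine ⟨exp (-2) / 2, by positivity, N, fun α hα n hn s hs => ?_⟩
  obtain ⟨h1, h2⟩ := hN n hn
  refine h1.trans ?_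
  have hn2 : (2 : ℝ) ≤ n := by exact_mod_cast h2
  have hn0 : (0 : ℝ) < n := by linarith
  have hs0 : 0 ≤ s := by linarith [hs.1]
  have hsn : 0 ≤ 1 / (n : ℝ) * s := by positivity
  have hle : s / n ≤ 2 / n := div_le_div_of_nonneg_right hs.2 hn0.le
  have h21 : 2 / (n : ℝ) ≤ 1 := by rw [div_le_one hn0]; exact hn2
  have h3 := Phi_ge hα hsn
  refine pow_le_pow_left₀ ?_ ?_ n
  · have e : 1 + (-2) / (n : ℝ) = 1 - 2 / n := by ring
    rw [e]; linarith
  · have e : 1 + (-2) / (n : ℝ) = 1 - 2 / n := by ring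
    have e' : 1 / (n : ℝ) * s = s / n := by ring
    rw [e]
    rw [e'] at h3 ⊢
    linarith

end LpSec

end
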