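import Mathlib
import Pool.Agent.Lib.MP_1dbab3_gt.C07Strong

section
/-!
# C08 Local: the flat vector is the strict maximum among vectors with small coordinates, uniformly

Copy of the proof of `local_max` (Main.lean, section T24), with `Phi_strong_unif`, `diag_lower_unif`
in place of `Phi_strong`, `diag_lower`: all constants depend only on `s1, κ, c, n0`. Take
`u0 ≤ 1/(n0+1)` in addition; since `∑ x i = 1` and `x i ≤ u0`, automatically `n ≥ 1/u0 > n0`.
-/

open Real MeasureTheory Set Filter Topology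

namespace LpSec

variable {α : ℝ}

theorem local_unif : ∃ u0 > 0, u0 < 1 / 4 ∧ ∀ᶠ α : ℝ in atTop, ∀ (n : ℕ) (x : Fin n → ℝ),
    (∀ i, 0 ≤ x i) → ∑ i, x i = 1 → (∀ i, x i ≤ u0) → (x ≠ fun _ => 1 / (n : ℝ)) →
      J α x < J α (fun _ : Fin n => 1 / (n : ℝ)) := by
  obtain ⟨s1, hs1, κ, hκ, hs11, hev⟩ := Phi_strong_unif
  obtain ⟨c, hc, n0', hcn'⟩ := diag_lower_unif
  set c1 := c * (κ / (1 + κ)) with hc1
  have hc1p : 0 < c1 := by positivity
  obtain ⟨u0, hu0, hu04, hR⟩ := R_small hs1 (c := c1 / 32) (by positivity)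
  set q := (1 + s1 / 4) ^ (-(1 / 4) : ℝ) with hq
  have hq0 : 0 < q := rpow_pos_of_pos (by linarith) _
  have hq1 : q < 1 := rpow_lt_one_of_one_lt_of_neg (by linarith) (by norm_num)
  obtain ⟨n1, hn1⟩ := n_large hq0 hq1 hc1p
  set N0 : ℕ := max (max n0' n1) 18 with hN0
  have hN0p : (0 : ℝ) < 1 / ((N0 : ℝ) + 1) := by positivity
  refine ⟨min (min u0 (s1 / 2)) (1 / ((N0 : ℝ) + 1)), lt_min (lt_min hu0 (by positivity)) hN0p,
    ((min_le_left _ _).trans (min_le_left _ _)).trans_lt hu04, ?_⟩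
  filter_upwards [hev, eventually_gt_atTop 1] with α hPs hα
  obtain ⟨hpos, hconc⟩ := hPs
  have hcn := hcn' α hα
  intro n x hx h1 hxu0' hne
  have hn : n ≥ N0 := by
    by_contra hcon
    push Not at hcon
    have h2 : ∑ i, x i ≤ ∑ _i : Fin n, 1 / ((N0 : ℝ) + 1) :=
      Finset.sum_le_sum fun i _ => (hxu0' i).trans (min_le_right _ _)
    rw [h1, Finset.sum_const, Finset.card_univ, Fintype.card_fin, nsmul_eq_mul, mul_one_div,
      le_div_iff₀ (by positivity)] at h2
    have h3 : (n : ℝ) < N0 := by exact_mod_cast hcon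
    linarith
  have hxu0 : ∀ i, x i ≤ min u0 (s1 / 2) := fun i => (hxu0' i).trans (min_le_left _ _)
  have hn18 : 18 ≤ n := (le_max_right _ _).trans hn
  have hnn0 : n0' ≤ n := ((le_max_left _ _).trans (le_max_left _ _)).trans hn
  have hnn1 : n1 ≤ n := ((le_max_right _ _).trans (le_max_left _ _)).trans hn
  have hnpos : 0 < n := by omega
  have hn' : (0 : ℝ) < n := by exact_mod_cast hnpos
  -- the maximum coordinate
  have : Nonempty (Fin n) := ⟨⟨0, hnpos⟩⟩
  obtain ⟨i0, -, hi0⟩ := Finset.exists_max_image (Finset.univ : Finset (Fin n)) x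
    Finset.univ_nonempty
  set u := x i0 with hu
  have hxu : ∀ i, x i ≤ u := fun i => hi0 i (Finset.mem_univ i)
  have hnu : 1 / (n : ℝ) ≤ u := by
    rw [div_le_iff₀ hn', ← h1]
    calc ∑ i, x i ≤ ∑ _i : Fin n, u := Finset.sum_le_sum fun i _ => hxu i
      _ = u * n := by simp; ring
  have hup : 0 < u := lt_of_lt_of_le (by positivity) hnu
  have huu0 : u ≤ u0 := (hxu0 i0).trans (min_le_left _ _)
  have hus1 : u ≤ s1 / 2 := (hxu0 i0).trans (min_le_right _ _)
  have hu4 : u < 1 / 4 := lt_of_le_of_lt huu0 hu04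
  have hsu : 2 ≤ s1 / u := by rw [le_div_iff₀ hup]; linarith
  set τ := ∑ i, (x i - 1 / (n : ℝ)) ^ 2 with hτ
  have hτ0 : 0 < τ := by
    obtain ⟨j, hj⟩ := Function.ne_iff.mp hne
    refine lt_of_lt_of_le ?_ (Finset.single_le_sum (f := fun i => (x i - 1 / (n : ℝ)) ^ 2)
      (fun i _ => sq_nonneg _) (Finset.mem_univ j))
    have : x j - 1 / (n : ℝ) ≠ 0 := sub_ne_zero.mpr hj
    positivity
  have hdsum : ∑ _i : Fin n, 1 / (n : ℝ) = 1 := by simp; field_simp
  have hI1 := prod_integrable hα (x := fun _ : Fin n => 1 / (n : ℝ)) (fun i => by positivity) hdsum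
    hup hu4 (fun _ => hnu)
  have hI2 := prod_integrable hα hx h1 hup hu4 hxu
  set A := s1 / u with hA
  have hA0 : 0 ≤ A := by positivity
  have hsubA : Ioi A ⊆ Ioi (0 : ℝ) := fun s hs => lt_of_le_of_lt hA0 hs
  have hdiff : J α (fun _ : Fin n => 1 / (n : ℝ)) - J α x =
      (∫ s in Ioc 0 A, (∏ _i : Fin n, Phi α (1 / (n : ℝ) * s) - ∏ i, Phi α (x i * s))) +
      ∫ s in Ioi A, (∏ _i : Fin n, Phi α (1 / (n : ℝ) * s) - ∏ i, Phi α (x i * s)) := by
    have hI3 : IntegrableOn (fun s => ∏ _i : Fin n, Phi α (1 / (n : ℝ) * s) -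
        ∏ i, Phi α (x i * s)) (Ioi 0) := hI1.sub hI2
    rw [← setIntegral_union (Ioc_disjoint_Ioi le_rfl) measurableSet_Ioi
      (hI3.mono_set (fun s hs => hs.1)) (hI3.mono_set hsubA),
      Ioc_union_Ioi_eq_Ioi hA0, integral_sub hI1 hI2]
    rfl
  have hmain := main_part hα hκ hc hpos hconc hnpos (hcn n hnn0) hx h1 hup hu4 hxu hnu hsu
  rw [← hc1, ← hτ, ← hA] at hmain
  suffices h : |∫ s in Ioi A, (∏ _i : Fin n, Phi α (1 / (n : ℝ) * s) - ∏ i, Phi α (x i * s))| <
      c1 * τ by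
    have := (abs_lt.mp h).1
    linarith
  by_cases hcase : u < 2 / n ∧ ∀ i, 1 / (2 * (n : ℝ)) ≤ x i
  · obtain ⟨hu2, hx2⟩ := hcase
    have hAn : s1 * n / 2 ≤ A := by
      rw [hA, le_div_iff₀ hup]
      rw [lt_div_iff₀ hn'] at hu2
      nlinarith
    refine (tail_part hα hn18 hx2 h1 hs1 hAn).trans_lt ?_
    exact mul_lt_mul_of_pos_right (hn1 n hnn1) hτ0
  · -- tails are tiny compared with `u ^ 2`
    have hT1 := tail_bound hα (x := fun _ : Fin n => 1 / (n : ℝ)) (fun i => by positivity) hdsum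
      hup hu4 (fun _ => hnu) hs1
    have hT2 := tail_bound hα hx h1 hup hu4 hxu hs1
    have hRu := hR u hup huu0
    have htau : u ^ 2 / 16 ≤ τ := by
      by_cases h2 : 2 / (n : ℝ) ≤ u
      · have h3 : u / 2 ≤ x i0 - 1 / n := by
          have : 2 / (n : ℝ) = 2 * (1 / n) := by ring
          rw [← hu]; linarith
        have h4 : (x i0 - 1 / (n : ℝ)) ^ 2 ≤ τ :=
          Finset.single_le_sum (f := fun i => (x i - 1 / (n : ℝ)) ^ 2)
            (fun i _ => sq_nonneg _) (Finset.mem_univ i0)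
        have h5 : (u / 2) ^ 2 ≤ (x i0 - 1 / (n : ℝ)) ^ 2 := pow_le_pow_left₀ (by positivity) h3 2
        nlinarith
      · push Not at h2
        have : ∃ i, x i < 1 / (2 * (n : ℝ)) := by
          by_contra hcon
          push Not at hcon
          exact hcase ⟨h2, hcon⟩
        obtain ⟨i, hi⟩ := this
        have h4 : (x i - 1 / (n : ℝ)) ^ 2 ≤ τ :=
          Finset.single_le_sum (f := fun i => (x i - 1 / (n : ℝ)) ^ 2)
            (fun i _ => sq_nonneg _) (Finset.mem_univ i)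
        have h3 : u / 4 ≤ 1 / n - x i := by
          have e : 1 / (n : ℝ) - 1 / (2 * n) = 1 / (2 * n) := by field_simp; norm_num
          have e2 : 2 / (n : ℝ) / 4 = 1 / (2 * n) := by field_simp; norm_num
          have : u / 4 ≤ 1 / (2 * (n : ℝ)) := by rw [← e2]; linarith
          linarith
        have h5 : (u / 4) ^ 2 ≤ (1 / n - x i) ^ 2 := pow_le_pow_left₀ (by positivity) h3 2
        nlinarith
    rw [integral_sub (hI1.mono_set hsubA) (hI2.mono_set hsubA)]
    refine (abs_sub _ _).trans_lt ?_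
    calc _ ≤ _ := add_le_add hT1 hT2
      _ < c1 / 32 * u ^ 2 + c1 / 32 * u ^ 2 := add_lt_add hRu hRu
      _ = c1 * (u ^ 2 / 16) := by ring
      _ ≤ c1 * τ := by gcongr


end LpSec

end
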