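import Mathlib
import Pool.Agent.Lib.MP_1dbab3_gt.C02Tail
import Pool.Agent.Lib.MP_1dbab3_gt.Main

section
/-!
# C03 Slope: the integral inequality near `q = 2`, for large `α`

`lemmaL_Phi` with `q0 = 2`, `s0 = 1.45`, `κ = 2`, `A0 = A = AA α`: with `t = q - 2 ≥ 0`
  `q Mom q ≤ 1 - e^{-2.9} (e^{-1.45 t} - (1 + t/2) e^{-2t}) - (1 - A) (1 + t/2) e^{-2t}`.
-/

open Real MeasureTheory Set Filter Topology

namespace LpSec

variable {α : ℝ}

theorem exp_neg_29 : 0.055 ≤ exp (-2.9) := by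
  have h1 : exp 1 ≤ 2.7182818286 := exp_one_lt_d9.le
  have h0 : exp (-0.1) ≥ 0.9 := by
    have := add_one_le_exp (-0.1 : ℝ)
    linarith
  have h2 : exp (-2.9) = (exp 1 ^ 3)⁻¹ * exp 0.1 := by
    rw [← Real.exp_nat_mul, ← Real.exp_neg, ← Real.exp_add]
    norm_num
  have h3 : (1.105 : ℝ) ≤ exp 0.1 := by
    refine le_trans ?_ (Real.sum_le_exp_of_nonneg (by norm_num : (0 : ℝ) ≤ 0.1) 4)
    norm_num [Finset.sum_range_succ, Nat.factorial]
  have h4 : (2.7182818286 ^ 3 : ℝ)⁻¹ ≤ (exp 1 ^ 3)⁻¹ := by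
    apply inv_anti₀ (by positivity)
    exact pow_le_pow_left₀ (exp_pos _).le h1 3
  rw [h2]
  calc (0.055 : ℝ) ≤ (2.7182818286 ^ 3 : ℝ)⁻¹ * 1.105 := by norm_num
    _ ≤ _ := mul_le_mul h4 h3 (by norm_num) (by positivity)

/-- the bound of `lemmaL_Phi` -/
private lemma c03_base (hα : 1 < α) (ht : ∀ s : ℝ, 1.45 ≤ s → |Phi α s| ≤ exp (-2)) {q : ℝ}
    (hq : 2 ≤ q) : ENNReal.ofReal q * Mom α q ≤
      ENNReal.ofReal (1 - exp (-2.9) * (exp (-(1.45 * (q - 2))) -
        (1 + (q - 2) / 2) * exp (-(2 * (q - 2)))) -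
        (1 - AA α) * ((1 + (q - 2) / 2) * exp (-(2 * (q - 2))))) := by
  have h := lemmaL_Phi hα (q0 := 2) (q := q) (s0 := 1.45) (κ := 2) (A0 := AA α) (by norm_num) hq
    (by norm_num) (by norm_num) (by norm_num) ht (AA_pos hα).le (two_moment hα)
  refine h.trans (le_of_eq ?_)
  congr 1
  have e1 : exp (-(q * 1.45)) = exp (-2.9) * exp (-(1.45 * (q - 2))) := by
    rw [← exp_add]
    congr 1
    ring
  have e2 : exp (-(2 * 1.45)) = exp (-2.9) := by
    congr 1
    norm_num
  rw [e1, e2]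
  ring

theorem slope_ball : ∀ᶠ α : ℝ in atTop,
    (∀ q : ℝ, 2 ≤ q → ENNReal.ofReal q * Mom α q ≤
      ENNReal.ofReal (1 - 0.002 * (q - 2) * exp (-(1.5 * (q - 2))))) ∧
    (∀ q : ℝ, 2 ≤ q → q ≤ 2.009 → ENNReal.ofReal q * Mom α q ≤
      ENNReal.ofReal (AA α * exp (-(0.002 * (q - 2))))) := by
  have hA := AA_tendsto.eventually (eventually_ge_nhds (show (1 - 1 / 10000 : ℝ) < 1 by norm_num))
  filter_upwards [tail_inf, hA, eventually_gt_atTop 1] with α ht hA1 hα
  have hA2 := AA_lt_one hα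
  have he := exp_neg_29
  constructor
  · intro q hq
    refine (c03_base hα ht hq).trans (ENNReal.ofReal_le_ofReal ?_)
    set t := q - 2 with ht'
    have ht0 : 0 ≤ t := by rw [ht']; linarith
    have h1 : (1 + t / 2) * exp (-(2 * t)) ≤ exp (-(1.5 * t)) := by
      have h2 := add_one_le_exp (t / 2)
      calc (1 + t / 2) * exp (-(2 * t)) ≤ exp (t / 2) * exp (-(2 * t)) := by
            apply mul_le_mul_of_nonneg_right _ (exp_pos _).le
            linarith
        _ = exp (-(1.5 * t)) := by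
            rw [← exp_add]
            congr 1
            ring
    have h3 : 0.05 * t * exp (-(1.5 * t)) ≤ exp (-(1.45 * t)) - exp (-(1.5 * t)) := by
      have h4 := add_one_le_exp (0.05 * t)
      have h5 : exp (-(1.45 * t)) = exp (0.05 * t) * exp (-(1.5 * t)) := by
        rw [← exp_add]
        congr 1
        ring
      rw [h5]
      nlinarith [exp_pos (-(1.5 * t))]
    have h6 : 0 ≤ (1 - AA α) * ((1 + t / 2) * exp (-(2 * t))) := by
      have : 0 ≤ 1 - AA α := by linarith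
      positivity
    have h7 : 0 ≤ 0.05 * t * exp (-(1.5 * t)) := by positivity
    have h8 : 0.055 * (0.05 * t * exp (-(1.5 * t))) ≤ exp (-2.9) *
        (exp (-(1.45 * t)) - (1 + t / 2) * exp (-(2 * t))) := by
      apply mul_le_mul he _ h7 (exp_pos _).le
      linarith
    have h9 : 0.002 * t * exp (-(1.5 * t)) ≤ 0.055 * (0.05 * t * exp (-(1.5 * t))) := by
      nlinarith
    linarith
  · intro q hq hq2
    refine (c03_base hα ht hq).trans (ENNReal.ofReal_le_ofReal ?_)
    set t := q - 2 with ht'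
    have ht0 : 0 ≤ t := by rw [ht']; linarith
    have ht9 : t ≤ 0.009 := by rw [ht']; linarith
    set β := 1 - AA α with hβ
    have hβ0 : 0 ≤ β := by rw [hβ]; linarith
    have hβ1 : β ≤ 1 / 10000 := by rw [hβ]; linarith
    have hAβ : AA α = 1 - β := by rw [hβ]; ring
    have e1 : 1 - 1.45 * t ≤ exp (-(1.45 * t)) := by
      have := add_one_le_exp (-(1.45 * t))
      linarith
    have e2 : 1 - 2 * t ≤ exp (-(2 * t)) := by
      have := add_one_le_exp (-(2 * t))
      linarith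
    have e3 : exp (-(2 * t)) ≤ 1 - 2 * t + 2 * t ^ 2 := by
      have h2 : exp (-(2 * t)) ≤ 1 / (1 + 2 * t + (2 * t) ^ 2 / 2) := by
        rw [exp_neg, ← one_div]
        apply one_div_le_one_div_of_le (by positivity)
        have := quadratic_le_exp_of_nonneg (x := 2 * t) (by positivity)
        linarith
      refine h2.trans ?_
      rw [div_le_iff₀ (by positivity)]
      nlinarith [pow_nonneg ht0 4, pow_nonneg ht0 3, pow_nonneg ht0 2]
    have f1 : 0.0408 * t ≤ exp (-(1.45 * t)) - (1 + t / 2) * exp (-(2 * t)) := by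
      have : (1 + t / 2) * exp (-(2 * t)) ≤ (1 + t / 2) * (1 - 2 * t + 2 * t ^ 2) :=
        mul_le_mul_of_nonneg_left e3 (by positivity)
      nlinarith [mul_nonneg ht0 ht0]
    have f2 : 1 - 1.51 * t ≤ (1 + t / 2) * exp (-(2 * t)) := by
      have : (1 + t / 2) * (1 - 2 * t) ≤ (1 + t / 2) * exp (-(2 * t)) :=
        mul_le_mul_of_nonneg_left e2 (by positivity)
      nlinarith [mul_nonneg ht0 ht0]
    have f3 : 0.055 * (0.0408 * t) ≤ exp (-2.9) *
        (exp (-(1.45 * t)) - (1 + t / 2) * exp (-(2 * t))) :=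
      mul_le_mul he f1 (by positivity) (exp_pos _).le
    have f4 : β * (1 - 1.51 * t) ≤ β * ((1 + t / 2) * exp (-(2 * t))) :=
      mul_le_mul_of_nonneg_left f2 hβ0
    have f5 : (1 - β) * (1 - 0.002 * t) ≤ AA α * exp (-(0.002 * t)) := by
      rw [hAβ]
      apply mul_le_mul_of_nonneg_left _ (by linarith)
      have := add_one_le_exp (-(0.002 * t))
      linarith
    refine le_trans ?_ f5
    have f6 : β * t ≤ 1 / 10000 * t := mul_le_mul_of_nonneg_right hβ1 ht0
    nlinarith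

end LpSec

end
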