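import Mathlib
import Pool.Agent.Lib.MP_1dbab3_gt.Main

section
/-!
# C04 Hold: two forms of Hölder's inequality

As `holder_max`, `beta_bound` in `Main.lean` (section T21; the private lemmas `hold_scale`, `hold_meas`,
`hold_mom`, `hold_core`, `hold_one` there may be copied).
* `holder_two`: as `holder_max` with `N = 2`, keeping the two factors `j`, `k`.
* `holder_split`: Hölder (`ENNReal.lintegral_mul_le_Lp_mul_Lq`) with exponents `r`, `r'` between
  `|Phi (x j s)|` and the product over `i ≠ j`; `∫ |Phi (x j s)|^r = Mom r / x j ≤ B r/(r x j)`;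
  `hold_core` with `κ = r'`, `w = 1 - x j`:
  `∫ ∏_{i≠j} |Phi (x i s)|^{r'} ≤ ∏ (Mom q_i / x i)^(x i/w)`, `q_i = r' w / x i ≥ 2`,
  `Mom q_i / x i ≤ B q_i/(q_i x i) = B q_i/(r' w)`; the exponents `x i / w` add up to `1`; factors
  `B q_i ≤ 1` for `i ≠ k` are dropped.
-/

open Real MeasureTheory Set Filter Topology

namespace LpSec

variable {α : ℝ}

/-- scaling of an integral over the half line -/
private lemma hold_scale (g : ℝ → ENNReal) {c : ℝ} (hc : 0 < c) :
    ∫⁻ s in Ioi (0 : ℝ), g (c * s) = ENNReal.ofReal (1 / c) * ∫⁻ s in Ioi (0 : ℝ), g s := by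
  have hemb : MeasurableEmbedding (fun x : ℝ => c * x) :=
    (Homeomorph.mulLeft₀ c hc.ne').measurableEmbedding
  have h1 : ∫⁻ s in Ioi (0 : ℝ), g s = ENNReal.ofReal c * ∫⁻ s in Ioi (0 : ℝ), g (c * s) := by
    rw [← lintegral_indicator measurableSet_Ioi, ← lintegral_indicator measurableSet_Ioi]
    conv_lhs => rw [← Real.smul_map_volume_mul_left hc.ne', abs_of_pos hc]
    rw [lintegral_smul_measure, hemb.lintegral_map, smul_eq_mul]
    congr 2
    ext s
    by_cases hs : 0 < s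
    · rw [indicator_of_mem (show c * s ∈ Ioi 0 from mul_pos hc hs),
        indicator_of_mem (show s ∈ Ioi 0 from hs)]
    · rw [indicator_of_notMem (show c * s ∉ Ioi 0 from fun h => hs (by
          have h' : 0 < c * s := h
          exact (mul_pos_iff_of_pos_left hc).1 h')),
        indicator_of_notMem (show s ∉ Ioi 0 from hs)]
  rw [h1, ← mul_assoc, ← ENNReal.ofReal_mul (by positivity), one_div,
    inv_mul_cancel₀ hc.ne', ENNReal.ofReal_one, one_mul]

private lemma hold_meas (hα : 1 < α) {c : ℝ} (hc : 0 < c) (q : ℝ) :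
    AEMeasurable (fun s => ENNReal.ofReal (|Phi α (c * s)| ^ q)) (volume.restrict (Ioi (0 : ℝ))) := by
  have h1 : ContinuousOn (fun s => Phi α (c * s)) (Ioi 0) := by
    refine (Phi_continuousOn hα).comp (by fun_prop) fun s hs => ?_
    exact (mul_pos hc hs).le
  have h2 : AEMeasurable (fun s => Phi α (c * s)) (volume.restrict (Ioi (0 : ℝ))) :=
    h1.aemeasurable measurableSet_Ioi
  have h3 : AEMeasurable (fun s => |Phi α (c * s)|) (volume.restrict (Ioi (0 : ℝ))) := by
    have := h2.norm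
    simpa [Real.norm_eq_abs] using this
  exact (h3.pow_const q).ennreal_ofReal

private lemma hold_mom {c q : ℝ} (hc : 0 < c) :
    ∫⁻ s in Ioi (0 : ℝ), ENNReal.ofReal (|Phi α (c * s)| ^ q) =
      ENNReal.ofReal (1 / c) * Mom α q :=
  hold_scale (fun s => ENNReal.ofReal (|Phi α s| ^ q)) hc

/-- the general form -/
private lemma hold_core (hα : 1 < α) {n : ℕ} (x : Fin n → ℝ) (S : Finset (Fin n))
    (hx : ∀ i ∈ S, 0 < x i) {w κ : ℝ} (hw : 0 < w) (hκ : 0 ≤ κ) (hs : ∑ i ∈ S, x i = w) :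
    ∫⁻ s in Ioi (0 : ℝ), ∏ i ∈ S, ENNReal.ofReal (|Phi α (x i * s)| ^ κ) ≤
      ∏ i ∈ S, (ENNReal.ofReal (1 / x i) * Mom α (κ * w / x i)) ^ (x i / w) := by
  have h1 := ENNReal.lintegral_prod_norm_pow_le (μ := volume.restrict (Ioi (0 : ℝ))) S
    (f := fun i s => ENNReal.ofReal (|Phi α (x i * s)| ^ (κ * w / x i)))
    (fun i hi => hold_meas hα (hx i hi) _) (p := fun i => x i / w)
    (by rw [← Finset.sum_div, hs, div_self hw.ne'])
    (fun i hi => (div_pos (hx i hi) hw).le)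
  have h2 : ∀ s, ∏ i ∈ S, ENNReal.ofReal (|Phi α (x i * s)| ^ (κ * w / x i)) ^ (x i / w) =
      ∏ i ∈ S, ENNReal.ofReal (|Phi α (x i * s)| ^ κ) := by
    intro s
    refine Finset.prod_congr rfl fun i hi => ?_
    rw [ENNReal.ofReal_rpow_of_nonneg (Real.rpow_nonneg (abs_nonneg _) _)
      (div_pos (hx i hi) hw).le, ← Real.rpow_mul (abs_nonneg _)]
    congr 2
    have := (hx i hi).ne'
    field_simp
  simp only [h2] at h1
  refine h1.trans (le_of_eq ?_)
  exact Finset.prod_congr rfl fun i hi => by rw [hold_mom (hx i hi)]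

private lemma hold_one (hα : 1 < α) {n : ℕ} (x : Fin n → ℝ) (T : Finset (Fin n)) (s : ℝ) :
    ∏ i ∈ T, ENNReal.ofReal |Phi α (x i * s)| =
      ∏ i ∈ T.filter (fun i => x i ≠ 0), ENNReal.ofReal |Phi α (x i * s)| := by
  refine (Finset.prod_filter_of_ne fun i _ h => ?_).symm
  intro h0
  apply h
  rw [h0, zero_mul, Phi_zero hα, abs_one, ENNReal.ofReal_one]

private lemma hold_Mom_le {B : ℝ → ℝ}
    (hB : ∀ q, 2 ≤ q → ENNReal.ofReal q * Mom α q ≤ ENNReal.ofReal (B q)) {q : ℝ} (hq : 2 ≤ q) :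
    Mom α q ≤ ENNReal.ofReal (B q / q) := by
  have hq0 : (0 : ℝ) < q := by linarith
  rw [ENNReal.ofReal_div_of_pos hq0, ENNReal.le_div_iff_mul_le
    (Or.inl (by simpa using hq0)) (Or.inl ENNReal.ofReal_ne_top), mul_comm]
  exact hB q hq

theorem holder_two (hα : 1 < α) {n : ℕ} (x : Fin n → ℝ) (hx : ∀ i, 0 ≤ x i)
    (hs : ∑ i, x i = 1) (hmax : ∀ i, x i ≤ 1 / 2) {B : ℝ → ℝ}
    (hB0 : ∀ q, 2 ≤ q → 0 ≤ B q ∧ B q ≤ 1)
    (hB : ∀ q, 2 ≤ q → ENNReal.ofReal q * Mom α q ≤ ENNReal.ofReal (B q))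
    (j k : Fin n) (hjk : j ≠ k) (hj : 0 < x j) (hk : 0 < x k) :
    ∫⁻ s in Ioi (0 : ℝ), ∏ i, ENNReal.ofReal |Phi α (x i * s)| ≤
      ENNReal.ofReal (B (1 / x j) ^ (x j) * B (1 / x k) ^ (x k)) := by
  classical
  set S : Finset (Fin n) := Finset.univ.filter (fun i => x i ≠ 0) with hS
  have hxS : ∀ i ∈ S, 0 < x i := fun i hi =>
    lt_of_le_of_ne (hx i) (Ne.symm (Finset.mem_filter.1 hi).2)
  have hsS : ∑ i ∈ S, x i = 1 := by
    rw [hS, Finset.sum_filter_ne_zero, hs]
  have hjS : j ∈ S := Finset.mem_filter.2 ⟨Finset.mem_univ _, hj.ne'⟩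
  have hkS : k ∈ S.erase j := Finset.mem_erase.2 ⟨hjk.symm,
    Finset.mem_filter.2 ⟨Finset.mem_univ _, hk.ne'⟩⟩
  have h1 := hold_core hα x S hxS one_pos zero_le_one hsS
  have h2 : ∀ s, ∏ i, ENNReal.ofReal |Phi α (x i * s)| =
      ∏ i ∈ S, ENNReal.ofReal (|Phi α (x i * s)| ^ (1 : ℝ)) := by
    intro s
    rw [hold_one hα x Finset.univ s]
    refine Finset.prod_congr rfl fun i _ => by rw [Real.rpow_one]
  simp only [h2]
  refine h1.trans ?_
  have hq : ∀ i ∈ S, 2 ≤ 1 / x i := by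
    intro i hi
    rw [le_div_iff₀ (hxS i hi)]
    have := hmax i
    linarith
  have h3 : ∀ i ∈ S, (ENNReal.ofReal (1 / x i) * Mom α (1 * 1 / x i)) ^ (x i / 1) ≤
      ENNReal.ofReal (B (1 / x i) ^ x i) := by
    intro i hi
    rw [one_mul, div_one, ← ENNReal.ofReal_rpow_of_nonneg (hB0 _ (hq i hi)).1 (hxS i hi).le]
    exact ENNReal.rpow_le_rpow (hB _ (hq i hi)) (hxS i hi).le
  rw [← Finset.mul_prod_erase S _ hjS, ← Finset.mul_prod_erase (S.erase j) _ hkS,
    ENNReal.ofReal_mul (Real.rpow_nonneg (hB0 _ (hq j hjS)).1 _)]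
  refine mul_le_mul' (h3 j hjS) ?_
  calc _ ≤ ENNReal.ofReal (B (1 / x k) ^ x k) * 1 := by
        refine mul_le_mul' (h3 k (Finset.mem_of_mem_erase hkS)) ?_
        refine Finset.prod_le_one' fun i hi => ?_
        have hi' := Finset.mem_of_mem_erase (Finset.mem_of_mem_erase hi)
        refine (h3 i hi').trans ?_
        rw [ENNReal.ofReal_le_one]
        exact Real.rpow_le_one (hB0 _ (hq i hi')).1 (hB0 _ (hq i hi')).2 (hxS i hi').le
    _ = _ := mul_one _

theorem holder_split (hα : 1 < α) {n : ℕ} (x : Fin n → ℝ) (hx : ∀ i, 0 ≤ x i)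
    (hs : ∑ i, x i = 1) {B : ℝ → ℝ}
    (hB0 : ∀ q, 2 ≤ q → 0 ≤ B q ∧ B q ≤ 1)
    (hB : ∀ q, 2 ≤ q → ENNReal.ofReal q * Mom α q ≤ ENNReal.ofReal (B q))
    (j k : Fin n) (hjk : j ≠ k) (hj0 : 0 < x j) (hj1 : x j < 1) (hk : 0 < x k)
    {r r' : ℝ} (hr : 2 ≤ r) (hrr : 1 / r + 1 / r' = 1)
    (hxi : ∀ i, i ≠ j → 2 * x i ≤ r' * (1 - x j)) :
    ∫⁻ s in Ioi (0 : ℝ), ∏ i, ENNReal.ofReal |Phi α (x i * s)| ≤
      ENNReal.ofReal ((B r / (r * x j)) ^ (1 / r) * (1 / (r' * (1 - x j))) ^ (1 / r') *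
        B (r' * (1 - x j) / x k) ^ (x k / (r' * (1 - x j)))) := by
  classical
  set w : ℝ := 1 - x j with hw
  have hw0 : 0 < w := by rw [hw]; linarith
  have hr0 : 0 < r := by linarith
  have hr1 : 1 / r ≤ 1 / 2 := one_div_le_one_div_of_le (by norm_num) hr
  have hr'inv : 0 < 1 / r' := by linarith
  have hr'0 : 0 < r' := by
    by_contra hcon
    push Not at hcon
    have := one_div_nonpos.2 hcon
    linarith
  have hconj : r.HolderConjugate r' := by
    rw [Real.holderConjugate_iff]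
    refine ⟨by linarith, ?_⟩
    rw [← one_div, ← one_div]
    exact hrr
  set S : Finset (Fin n) := (Finset.univ.erase j).filter (fun i => x i ≠ 0) with hS
  have hxS : ∀ i ∈ S, 0 < x i := fun i hi =>
    lt_of_le_of_ne (hx i) (Ne.symm (Finset.mem_filter.1 hi).2)
  have hneS : ∀ i ∈ S, i ≠ j := fun i hi =>
    (Finset.mem_erase.1 (Finset.mem_filter.1 hi).1).1
  have hkS : k ∈ S := Finset.mem_filter.2
    ⟨Finset.mem_erase.2 ⟨hjk.symm, Finset.mem_univ _⟩, hk.ne'⟩
  have hsum : ∑ i ∈ Finset.univ.erase j, x i = w := by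
    have := Finset.add_sum_erase Finset.univ x (Finset.mem_univ j)
    rw [hs] at this
    linarith
  have hsS : ∑ i ∈ S, x i = w := by
    rw [hS, Finset.sum_filter_ne_zero, hsum]
  have h2 : ∀ s, ∏ i, ENNReal.ofReal |Phi α (x i * s)| =
      ((fun s => ENNReal.ofReal |Phi α (x j * s)|) *
        (fun s => ∏ i ∈ S, ENNReal.ofReal |Phi α (x i * s)|)) s := by
    intro s
    rw [Pi.mul_apply, ← Finset.mul_prod_erase Finset.univ _ (Finset.mem_univ j),
      hold_one hα x (Finset.univ.erase j) s]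
  simp only [h2]
  have hm1 : ∀ i, 0 < x i → AEMeasurable (fun s => ENNReal.ofReal |Phi α (x i * s)|)
      (volume.restrict (Ioi (0 : ℝ))) := by
    intro i hi
    have := hold_meas hα hi 1
    simpa only [Real.rpow_one] using this
  have hm2 : AEMeasurable (fun s => ∏ i ∈ S, ENNReal.ofReal |Phi α (x i * s)|)
      (volume.restrict (Ioi (0 : ℝ))) :=
    Finset.aemeasurable_fun_prod S fun i hi => hm1 i (hxS i hi)
  refine (ENNReal.lintegral_mul_le_Lp_mul_Lq _ hconj (hm1 j hj0) hm2).trans ?_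
  have hBr := hB0 r hr
  -- first factor
  have h3 : ∫⁻ s in Ioi (0 : ℝ), ENNReal.ofReal |Phi α (x j * s)| ^ r ≤
      ENNReal.ofReal (B r / (r * x j)) := by
    have e : ∀ s, ENNReal.ofReal |Phi α (x j * s)| ^ r =
        ENNReal.ofReal (|Phi α (x j * s)| ^ r) := fun s =>
      ENNReal.ofReal_rpow_of_nonneg (abs_nonneg _) (by linarith)
    simp only [e]
    rw [hold_mom hj0]
    have h4 := hold_Mom_le hB hr
    calc ENNReal.ofReal (1 / x j) * Mom α r
        ≤ ENNReal.ofReal (1 / x j) * ENNReal.ofReal (B r / r) := by gcongr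
      _ = ENNReal.ofReal (B r / (r * x j)) := by
        rw [← ENNReal.ofReal_mul (by positivity)]
        congr 1
        field_simp
  -- second factor
  have hrw : 0 < r' * w := mul_pos hr'0 hw0
  have h5 : ∫⁻ s in Ioi (0 : ℝ), (∏ i ∈ S, ENNReal.ofReal |Phi α (x i * s)|) ^ r' ≤
      ENNReal.ofReal (1 / (r' * w) * B (r' * w / x k) ^ (x k / w)) := by
    have e : ∀ s, (∏ i ∈ S, ENNReal.ofReal |Phi α (x i * s)|) ^ r' =
        ∏ i ∈ S, ENNReal.ofReal (|Phi α (x i * s)| ^ r') := by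
      intro s
      rw [← ENNReal.prod_rpow_of_nonneg (by linarith)]
      exact Finset.prod_congr rfl fun i _ =>
        ENNReal.ofReal_rpow_of_nonneg (abs_nonneg _) (by linarith)
    simp only [e]
    refine (hold_core hα x S hxS hw0 hr'0.le hsS).trans ?_
    have hqi : ∀ i ∈ S, (2 : ℝ) ≤ r' * w / x i := by
      intro i hi
      rw [le_div_iff₀ (hxS i hi)]
      exact hxi i (hneS i hi)
    have h6 : ∀ i ∈ S, (ENNReal.ofReal (1 / x i) * Mom α (r' * w / x i)) ^ (x i / w) ≤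
        ENNReal.ofReal ((1 / (r' * w)) ^ (x i / w)) *
          ENNReal.ofReal (B (r' * w / x i) ^ (x i / w)) := by
      intro i hi
      have hxi := hxS i hi
      have hq := hqi i hi
      have hBq := hB0 _ hq
      rw [← ENNReal.ofReal_rpow_of_nonneg (by positivity) (by positivity),
        ← ENNReal.ofReal_rpow_of_nonneg hBq.1 (by positivity),
        ← ENNReal.mul_rpow_of_nonneg _ _ (by positivity : (0:ℝ) ≤ x i / w)]
      refine ENNReal.rpow_le_rpow ?_ (by positivity)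
      have h7 := hold_Mom_le hB hq
      calc ENNReal.ofReal (1 / x i) * Mom α (r' * w / x i)
          ≤ ENNReal.ofReal (1 / x i) * ENNReal.ofReal (B (r' * w / x i) / (r' * w / x i)) := by
            gcongr
        _ = ENNReal.ofReal (1 / (r' * w)) * ENNReal.ofReal (B (r' * w / x i)) := by
          rw [← ENNReal.ofReal_mul (by positivity), ← ENNReal.ofReal_mul (by positivity)]
          congr 1
          field_simp
    refine (Finset.prod_le_prod' h6).trans ?_
    rw [Finset.prod_mul_distrib, ← ENNReal.ofReal_prod_of_nonneg (fun i hi => by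
      have := hxS i hi
      positivity)]
    rw [← Real.rpow_sum_of_pos (by positivity), ← Finset.sum_div, hsS, div_self hw0.ne',
      Real.rpow_one, ENNReal.ofReal_mul (by positivity)]
    refine mul_le_mul' le_rfl ?_
    rw [← Finset.mul_prod_erase S _ hkS]
    calc _ ≤ ENNReal.ofReal (B (r' * w / x k) ^ (x k / w)) * 1 := by
          refine mul_le_mul' le_rfl ?_
          refine Finset.prod_le_one' fun i hi => ?_
          have hi' := Finset.mem_of_mem_erase hi
          have hBq := hB0 _ (hqi i hi')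
          rw [ENNReal.ofReal_le_one]
          exact Real.rpow_le_one hBq.1 hBq.2 (div_pos (hxS i hi') hw0).le
      _ = _ := mul_one _
  have hqk : (2 : ℝ) ≤ r' * w / x k := by
    rw [le_div_iff₀ hk]
    exact hxi k hjk.symm
  have hBk := hB0 _ hqk
  have hBr0 := hBr.1
  calc _ ≤ ENNReal.ofReal (B r / (r * x j)) ^ (1 / r) *
        ENNReal.ofReal (1 / (r' * w) * B (r' * w / x k) ^ (x k / w)) ^ (1 / r') := by gcongr
    _ = _ := by
      have hb1 : 0 ≤ B r / (r * x j) := by positivity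
      have hb2 : 0 ≤ B (r' * w / x k) ^ (x k / w) := Real.rpow_nonneg hBk.1 _
      rw [ENNReal.ofReal_rpow_of_nonneg hb1 (by positivity),
        ENNReal.ofReal_rpow_of_nonneg (by positivity) hr'inv.le,
        ← ENNReal.ofReal_mul (by positivity), Real.mul_rpow (by positivity) hb2,
        ← Real.rpow_mul hBk.1, mul_assoc]
      congr 4
      field_simp

end LpSec

end
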