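import Mathlib
import Pool.Agent.Lib.MP_1dbab3_gt.Main

section
/-!
# C05 Conv: the convolution of two radially decreasing functions is largest at the origin

`conv_le`: layer cake for both factors; the superlevel sets are nested for `d = 0`, and the
translated one has the same volume.
-/

open Real MeasureTheory Set Filter Topology

namespace LpSec

variable {α : ℝ} {m : ℕ}

private lemma c05_cont (hα : 1 < α) (c d : ℂ) :
    Continuous (fun z : ℂ => exp (-‖c * z + d‖ ^ (2 * α))) := by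
  refine continuous_exp.comp (Continuous.neg ?_)
  exact Continuous.rpow_const (by fun_prop) fun _ => Or.inr (by linarith)

private lemma c05_mono (hα : 1 < α) {z w : ℂ} (h : ‖w‖ ≤ ‖z‖) :
    exp (-‖z‖ ^ (2 * α)) ≤ exp (-‖w‖ ^ (2 * α)) := by
  apply exp_le_exp.2
  have := rpow_le_rpow (norm_nonneg w) h (show 0 ≤ 2 * α by linarith)
  linarith

private lemma c05_set (hα : 1 < α) {c : ℂ} (hc : c ≠ 0) (d : ℂ) (t s : ℝ) :
    volume ({z : ℂ | t < exp (-‖z‖ ^ (2 * α))} ∩ {z : ℂ | s < exp (-‖c * z + d‖ ^ (2 * α))}) ≤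
      volume ({z : ℂ | t < exp (-‖z‖ ^ (2 * α))} ∩ {z : ℂ | s < exp (-‖c * z‖ ^ (2 * α))}) := by
  set U : Set ℂ := {z : ℂ | t < exp (-‖z‖ ^ (2 * α))} with hU
  set V : Set ℂ := {z : ℂ | s < exp (-‖c * z‖ ^ (2 * α))} with hV
  have hVd : {z : ℂ | s < exp (-‖c * z + d‖ ^ (2 * α))} = (fun z => z + d / c) ⁻¹' V := by
    ext z
    simp only [hV, mem_ofPred_eq, mem_preimage]
    have : c * (z + d / c) = c * z + d := by field_simp
    rw [this]
  rw [hVd]
  have hvol : volume ((fun z => z + d / c) ⁻¹' V) = volume V :=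
    measure_preimage_add_right volume (d / c) V
  have hUr : ∀ z w : ℂ, z ∈ U → ‖w‖ ≤ ‖z‖ → w ∈ U := by
    intro z w hz hw
    exact lt_of_lt_of_le hz (c05_mono hα hw)
  have hVr : ∀ z w : ℂ, z ∈ V → ‖w‖ ≤ ‖z‖ → w ∈ V := by
    intro z w hz hw
    refine lt_of_lt_of_le hz (c05_mono hα ?_)
    rw [norm_mul, norm_mul]
    exact mul_le_mul_of_nonneg_left hw (norm_nonneg _)
  by_cases hsub : U ⊆ V
  · rw [inter_eq_left.2 hsub]
    exact measure_mono inter_subset_left
  · obtain ⟨z, hzU, hzV⟩ := not_subset.1 hsub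
    have hVU : V ⊆ U := by
      intro v hv
      refine hUr z v hzU ?_
      by_contra hcon
      push Not at hcon
      exact hzV (hVr v z hv hcon.le)
    rw [inter_eq_right.2 hVU, ← hvol]
    exact measure_mono inter_subset_right

private lemma c05_two (hα : 1 < α) (c d : ℂ) :
    ∫⁻ z : ℂ, ENNReal.ofReal (exp (-‖z‖ ^ (2 * α)) * exp (-‖c * z + d‖ ^ (2 * α))) =
      ∫⁻ t in Ioi (0 : ℝ), ∫⁻ s in Ioi (0 : ℝ),
        volume ({z : ℂ | t < exp (-‖z‖ ^ (2 * α))} ∩
          {z : ℂ | s < exp (-‖c * z + d‖ ^ (2 * α))}) := by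
  have h1 := c05_cont hα 1 0
  simp only [one_mul, add_zero] at h1
  have h2 := c05_cont hα c d
  set g : ℂ → ENNReal := fun z => ENNReal.ofReal (exp (-‖c * z + d‖ ^ (2 * α))) with hg
  have hgm : Measurable g := h2.measurable.ennreal_ofReal
  have e1 : ∫⁻ z : ℂ, ENNReal.ofReal (exp (-‖z‖ ^ (2 * α)) * exp (-‖c * z + d‖ ^ (2 * α))) =
      ∫⁻ z : ℂ, ENNReal.ofReal (exp (-‖z‖ ^ (2 * α))) ∂(volume.withDensity g) := by
    rw [lintegral_withDensity_eq_lintegral_mul _ hgm h1.measurable.ennreal_ofReal]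
    refine lintegral_congr fun z => ?_
    rw [Pi.mul_apply, mul_comm, ENNReal.ofReal_mul (exp_pos _).le]
  rw [e1, lintegral_eq_lintegral_meas_lt _ (Eventually.of_forall fun z => (exp_pos _).le)
    h1.measurable.aemeasurable]
  refine lintegral_congr fun t => ?_
  have hUm : MeasurableSet {z : ℂ | t < exp (-‖z‖ ^ (2 * α))} :=
    measurableSet_lt measurable_const h1.measurable
  rw [withDensity_apply _ hUm, hg,
    lintegral_eq_lintegral_meas_lt _ (Eventually.of_forall fun z => (exp_pos _).le)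
      h2.measurable.aemeasurable]
  refine lintegral_congr fun s => ?_
  rw [Measure.restrict_apply (measurableSet_lt measurable_const h2.measurable), inter_comm]

theorem conv_le (hα : 1 < α) (c d : ℂ) :
    ∫⁻ z : ℂ, ENNReal.ofReal (exp (-‖z‖ ^ (2 * α)) * exp (-‖c * z + d‖ ^ (2 * α))) ≤
      ∫⁻ z : ℂ, ENNReal.ofReal (exp (-‖z‖ ^ (2 * α)) * exp (-‖c * z‖ ^ (2 * α))) := by
  by_cases hc : c = 0
  · refine lintegral_mono fun z => ENNReal.ofReal_le_ofReal ?_
    apply mul_le_mul_of_nonneg_left _ (exp_pos _).le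
    refine c05_mono hα ?_
    rw [hc, zero_mul, norm_zero]
    exact norm_nonneg _
  · have e0 := c05_two hα c 0
    simp only [add_zero] at e0
    rw [e0, c05_two hα c d]
    exact lintegral_mono fun t => lintegral_mono fun s => c05_set hα hc d t s

theorem conv_eq (hα : 1 < α) (c : ℂ) :
    ∫⁻ z : ℂ, ENNReal.ofReal (exp (-‖z‖ ^ (2 * α)) * exp (-‖c * z‖ ^ (2 * α))) =
      ENNReal.ofReal (π * Gamma (1 + 1 / α) * (1 + ‖c‖ ^ (2 * α)) ^ (-(1 / α))) := by
  have hb : 0 < 1 + ‖c‖ ^ (2 * α) := by positivity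
  have he : ∀ z : ℂ, exp (-‖z‖ ^ (2 * α)) * exp (-‖c * z‖ ^ (2 * α)) =
      exp (-(1 + ‖c‖ ^ (2 * α)) * ‖z‖ ^ (2 * α)) := by
    intro z
    rw [← exp_add, norm_mul, mul_rpow (norm_nonneg _) (norm_nonneg _)]
    congr 1
    ring
  have h1 : ∫ z : ℂ, exp (-(1 + ‖c‖ ^ (2 * α)) * ‖z‖ ^ (2 * α)) =
      π * Gamma (1 + 1 / α) * (1 + ‖c‖ ^ (2 * α)) ^ (-(1 / α)) := by
    rw [Complex.integral_exp_neg_mul_rpow (p := 2 * α) (by linarith) hb]
    have e1 : -2 / (2 * α) = -(1 / α) := by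
      have : α ≠ 0 := by linarith
      field_simp
    have e2 : 2 / (2 * α) + 1 = 1 + 1 / α := by
      have : α ≠ 0 := by linarith
      field_simp
      ring
    rw [e1, e2]
    ring
  have hpos : 0 < π * Gamma (1 + 1 / α) * (1 + ‖c‖ ^ (2 * α)) ^ (-(1 / α)) := by
    have : 0 < Gamma (1 + 1 / α) := Gamma_pos_of_pos (by positivity)
    positivity
  have h2 : Integrable (fun z : ℂ => exp (-(1 + ‖c‖ ^ (2 * α)) * ‖z‖ ^ (2 * α))) := by
    by_contra h
    rw [integral_undef h] at h1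
    exact hpos.ne h1
  simp only [he]
  rw [← h1, ofReal_integral_eq_lintegral_ofReal h2 (Eventually.of_forall fun z => (exp_pos _).le)]

end LpSec

end
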