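import Mathlib
import Pool.Agent.Lib.MP_1dbab3_gt.C05Conv

section
/-!
# C05 PairBd: the bound of a section by its value for two coordinates

* `conv_le`: `∫⁻_z f z f (c z + d) ≤ ∫⁻_z f z f (c z)`, `f z = exp (-‖z‖^(2α))`. For `c = 0` trivial.
  Otherwise `exp (-A) = ∫⁻_{r > A} exp (-r)`, so with Tonelli
  `∫⁻_z f z f (c z + d) = ∫⁻_r ∫⁻_s exp (-r) exp (-s) vol {z | ‖z‖^(2α) < r ∧ ‖c z + d‖^(2α) < s}`
  (`r, s > 0`). The two sets are the balls `B(0, R)` and `B(-d/c, S)`; the volume of the intersection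
  is at most `min (vol B(0,R)) (vol B(0,S))`, which is the volume of the intersection for `d = 0`.
* `conv_eq`: `∫⁻_z f z f (c z) = ∫⁻ exp (-(1 + ‖c‖^(2α)) ‖z‖^(2α)) = π Γ(1+1/α) (1 + ‖c‖^(2α))^(-1/α)`
  (`Complex.integral_exp_neg_mul_rpow`, as in `sec_two_eq` of `StageB.lean`).
* `Ieta_le_pair` (compare `Ieta_le` in `Geo.lean`): write `z = (z_j, z_k, y)`, and substitute
  `z_j = (u - conj (a k) z_k - w(y)) / conj (a j)` for fixed `z_k, y`:
  `Ieta = ‖a j‖⁻² ∫_y ∏ f(y_i) ∫_u (π η)⁻¹ exp (-‖u‖²/η) ∫_{z_k} f(z_k) f((u - conj (a k) z_k - w)/conj (a j))`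
  `≤ ‖a j‖⁻² cst α (m-1) * 1 * π Γ(1+1/α) (1 + (‖a k‖/‖a j‖)^(2α))^(-1/α)`,
  which is `cst α m ((‖a j‖²)^α + (‖a k‖²)^α)^(-1/α)`.
* `sec_le_pair`: let `η → 0+` as in `sec_le_coord`.
-/

open Real MeasureTheory Set Filter Topology

namespace LpSec

variable {α : ℝ} {m : ℕ}

/-- the integral over two coordinates -/
private lemma c05_inner (hα : 1 < α) {η : ℝ} (hη : 0 < η) {a b : ℂ} (ha : a ≠ 0) (w : ℂ) :
    ∫⁻ v : ℂ, ∫⁻ z : ℂ, ENNReal.ofReal (exp (-‖z‖ ^ (2 * α)) * (exp (-‖v‖ ^ (2 * α)) *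
      ((π * η)⁻¹ * exp (-(‖a * z + (b * v + w)‖ ^ 2 / η))))) ≤
      ENNReal.ofReal (π * Gamma (1 + 1 / α) * (1 + ‖b / a‖ ^ (2 * α)) ^ (-(1 / α))) *
        ENNReal.ofReal (1 / ‖a‖ ^ 2) := by
  have hfc : Continuous (fun z : ℂ => exp (-‖z‖ ^ (2 * α))) := by
    refine continuous_exp.comp (Continuous.neg ?_)
    exact Continuous.rpow_const (by fun_prop) fun _ => Or.inr (by linarith)
  -- translation in `z`
  have h1 : ∀ v : ℂ, ∫⁻ z : ℂ, ENNReal.ofReal (exp (-‖z‖ ^ (2 * α)) * (exp (-‖v‖ ^ (2 * α)) *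
      ((π * η)⁻¹ * exp (-(‖a * z + (b * v + w)‖ ^ 2 / η))))) =
      ∫⁻ z : ℂ, ENNReal.ofReal (exp (-‖z - (b * v + w) / a‖ ^ (2 * α)) *
        (exp (-‖v‖ ^ (2 * α)) * ((π * η)⁻¹ * exp (-(‖a * z‖ ^ 2 / η))))) := by
    intro v
    rw [← lintegral_sub_right_eq_self (fun z : ℂ => ENNReal.ofReal (exp (-‖z‖ ^ (2 * α)) *
      (exp (-‖v‖ ^ (2 * α)) * ((π * η)⁻¹ * exp (-(‖a * z + (b * v + w)‖ ^ 2 / η))))))
      ((b * v + w) / a)]
    refine lintegral_congr fun z => ?_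
    have e : a * (z - (b * v + w) / a) + (b * v + w) = a * z := by
      field_simp
      ring
    rw [e]
  simp only [h1]
  rw [lintegral_lintegral_swap]
  · have h2 : ∀ z : ℂ, ∫⁻ v : ℂ, ENNReal.ofReal (exp (-‖z - (b * v + w) / a‖ ^ (2 * α)) *
        (exp (-‖v‖ ^ (2 * α)) * ((π * η)⁻¹ * exp (-(‖a * z‖ ^ 2 / η))))) ≤
        ENNReal.ofReal (π * Gamma (1 + 1 / α) * (1 + ‖b / a‖ ^ (2 * α)) ^ (-(1 / α))) *
          ENNReal.ofReal ((π * η)⁻¹ * exp (-(‖a * z + 0‖ ^ 2 / η))) := by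
      intro z
      have h3 := conv_le hα (-(b / a)) (z - w / a)
      rw [conv_eq hα, norm_neg] at h3
      have e : ∀ v : ℂ, ENNReal.ofReal (exp (-‖z - (b * v + w) / a‖ ^ (2 * α)) *
          (exp (-‖v‖ ^ (2 * α)) * ((π * η)⁻¹ * exp (-(‖a * z‖ ^ 2 / η))))) =
          ENNReal.ofReal (exp (-‖v‖ ^ (2 * α)) * exp (-‖-(b / a) * v + (z - w / a)‖ ^ (2 * α))) *
          ENNReal.ofReal ((π * η)⁻¹ * exp (-(‖a * z + 0‖ ^ 2 / η))) := by
        intro v
        rw [← ENNReal.ofReal_mul (by positivity), add_zero]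
        congr 1
        have e2 : z - (b * v + w) / a = -(b / a) * v + (z - w / a) := by
          field_simp
          ring
        rw [e2]
        ring
      simp only [e]
      rw [lintegral_mul_const' _ _ ENNReal.ofReal_ne_top]
      exact mul_le_mul' h3 le_rfl
    refine (lintegral_mono h2).trans ?_
    rw [lintegral_const_mul' _ _ ENNReal.ofReal_ne_top, inner_lint hη a 0 ha]
  · refine Measurable.aemeasurable (Measurable.ennreal_ofReal ?_)
    have c1 : Continuous (fun p : ℂ × ℂ => exp (-‖p.2 - (b * p.1 + w) / a‖ ^ (2 * α))) :=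
      hfc.comp (by fun_prop)
    have c2 : Continuous (fun p : ℂ × ℂ => exp (-‖p.1‖ ^ (2 * α))) :=
      hfc.comp (by fun_prop)
    have c3 : Continuous (fun p : ℂ × ℂ => (π * η)⁻¹ * exp (-(‖a * p.2‖ ^ 2 / η))) := by fun_prop
    exact (c1.mul (c2.mul c3)).measurable

theorem Ieta_le_pair (hα : 1 < α) (a : EuclideanSpace ℂ (Fin (m + 1))) {η : ℝ} (hη : 0 < η)
    (j k : Fin (m + 1)) (hjk : j ≠ k) (hj : a j ≠ 0) :
    Ieta α η a ≤ cst α m * ((‖a j‖ ^ 2) ^ α + (‖a k‖ ^ 2) ^ α) ^ (-(1 / α)) := by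
  -- two different indices: `m = m' + 1`
  obtain ⟨m', rfl⟩ : ∃ m', m = m' + 1 := by
    rcases m with _ | m'
    · exact absurd (Fin.ext (by have := j.2; have := k.2; omega)) hjk
    · exact ⟨m', rfl⟩
  obtain ⟨k', rfl⟩ := Fin.exists_succAbove_eq (x := k) (y := j) hjk.symm
  have hGam : 0 < Gamma (1 + 1 / α) := Gamma_pos_of_pos (by positivity)
  have hcst : ∀ k, 0 < cst α k := fun k => by
    unfold cst; positivity
  have hmeas : Measurable (fun z : EuclideanSpace ℂ (Fin (m' + 1 + 1)) =>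
      exp (-∑ i, ‖z i‖ ^ (2 * α)) * ((π * η)⁻¹ * exp (-(‖inner ℂ a z‖ ^ 2 / η)))) := by
    refine Continuous.measurable ((continuous_E hα).mul ?_)
    fun_prop
  rw [Ieta, integral_eq_lintegral_of_nonneg_ae (Eventually.of_forall fun _ => by positivity)
    hmeas.aestronglyMeasurable]
  refine ENNReal.toReal_le_of_le_ofReal (mul_nonneg (hcst _).le (by positivity)) ?_
  rw [← (mp_toLp (Fin (m' + 1 + 1))).lintegral_comp_emb
    (MeasurableEquiv.toLp 2 (Fin (m' + 1 + 1) → ℂ)).measurableEmbedding]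
  have hp := (volume_preserving_piFinSuccAbove (fun _ : Fin (m' + 1 + 1) => ℂ) j).symm
  rw [← hp.lintegral_comp_emb (MeasurableEquiv.measurableEmbedding _)]
  have hq := (volume_preserving_piFinSuccAbove (fun _ : Fin (m' + 1) => ℂ) k').symm
  -- the linear forms
  set c1 : ℂ := starRingEnd ℂ (a j) with hc1
  set c2 : ℂ := starRingEnd ℂ (a (j.succAbove k')) with hc2
  set b : (Fin m' → ℂ) → ℂ := fun t => ∑ i, starRingEnd ℂ (a (j.succAbove (k'.succAbove i))) * t i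
    with hb
  have hbm : Continuous b := by fun_prop
  have hform : ∀ (z v : ℂ) (t : Fin m' → ℂ),
      ENNReal.ofReal (exp (-∑ i, ‖(WithLp.toLp 2 ((MeasurableEquiv.piFinSuccAbove
        (fun _ : Fin (m' + 1 + 1) => ℂ) j).symm (z, (MeasurableEquiv.piFinSuccAbove
        (fun _ : Fin (m' + 1) => ℂ) k').symm (v, t))) :
          EuclideanSpace ℂ (Fin (m' + 1 + 1))) i‖ ^ (2 * α)) *
        ((π * η)⁻¹ * exp (-(‖inner ℂ a (WithLp.toLp 2 ((MeasurableEquiv.piFinSuccAbove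
        (fun _ : Fin (m' + 1 + 1) => ℂ) j).symm (z, (MeasurableEquiv.piFinSuccAbove
        (fun _ : Fin (m' + 1) => ℂ) k').symm (v, t))) :
          EuclideanSpace ℂ (Fin (m' + 1 + 1)))‖ ^ 2 / η)))) =
      ENNReal.ofReal (exp (-∑ i, ‖t i‖ ^ (2 * α))) *
      ENNReal.ofReal (exp (-‖z‖ ^ (2 * α)) * (exp (-‖v‖ ^ (2 * α)) *
        ((π * η)⁻¹ * exp (-(‖c1 * z + (c2 * v + b t)‖ ^ 2 / η))))) := by
    intro z v t
    rw [← ENNReal.ofReal_mul (exp_pos _).le]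
    congr 1
    have hs2 : (MeasurableEquiv.piFinSuccAbove (fun _ : Fin (m' + 1) => ℂ) k').symm (v, t) =
      Fin.insertNth (α := fun _ => ℂ) k' v t := rfl
    have hs1 : ∀ y : Fin (m' + 1) → ℂ,
      (MeasurableEquiv.piFinSuccAbove (fun _ : Fin (m' + 1 + 1) => ℂ) j).symm (z, y) =
      Fin.insertNth (α := fun _ => ℂ) j z y := fun _ => rfl
    rw [hs2, hs1]
    have h1 : inner ℂ a (WithLp.toLp 2 (Fin.insertNth (α := fun _ => ℂ) j z
        (Fin.insertNth (α := fun _ => ℂ) k' v t)) : EuclideanSpace ℂ (Fin (m' + 1 + 1)))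
        = c1 * z + (c2 * v + b t) := by
      rw [PiLp.inner_apply, Fin.sum_univ_succAbove _ j, Fin.sum_univ_succAbove _ k']
      simp [hb, hc1, hc2, mul_comm]
    rw [h1, Fin.sum_univ_succAbove _ j, Fin.sum_univ_succAbove _ k']
    simp only [Fin.insertNth_apply_same, Fin.insertNth_apply_succAbove]
    rw [neg_add, neg_add, exp_add, exp_add]
    ring
  have hK : ∀ t : Fin m' → ℂ, ∫⁻ v : ℂ, ∫⁻ z : ℂ, ENNReal.ofReal (exp (-∑ i, ‖t i‖ ^ (2 * α))) *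
      ENNReal.ofReal (exp (-‖z‖ ^ (2 * α)) * (exp (-‖v‖ ^ (2 * α)) *
        ((π * η)⁻¹ * exp (-(‖c1 * z + (c2 * v + b t)‖ ^ 2 / η))))) ≤
      ENNReal.ofReal (exp (-∑ i, ‖t i‖ ^ (2 * α))) *
      (ENNReal.ofReal (π * Gamma (1 + 1 / α) * (1 + ‖c2 / c1‖ ^ (2 * α)) ^ (-(1 / α))) *
        ENNReal.ofReal (1 / ‖c1‖ ^ 2)) := by
    intro t
    simp_rw [lintegral_const_mul' _ _ ENNReal.ofReal_ne_top]
    refine mul_le_mul' le_rfl (c05_inner hα hη ?_ (b t))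
    simpa [hc1] using hj
  -- measurability of the total integrand
  have hcont : Continuous (fun z : EuclideanSpace ℂ (Fin (m' + 1 + 1)) =>
      exp (-∑ i, ‖z i‖ ^ (2 * α)) * ((π * η)⁻¹ * exp (-(‖inner ℂ a z‖ ^ 2 / η)))) :=
    (continuous_E hα).mul (by fun_prop)
  have hm1 : Measurable (fun p : ℂ × (Fin (m' + 1) → ℂ) =>
      ENNReal.ofReal (exp (-∑ i, ‖(WithLp.toLp 2 ((MeasurableEquiv.piFinSuccAbove
        (fun _ : Fin (m' + 1 + 1) => ℂ) j).symm p) :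
          EuclideanSpace ℂ (Fin (m' + 1 + 1))) i‖ ^ (2 * α)) *
        ((π * η)⁻¹ * exp (-(‖inner ℂ a (WithLp.toLp 2 ((MeasurableEquiv.piFinSuccAbove
        (fun _ : Fin (m' + 1 + 1) => ℂ) j).symm p) :
          EuclideanSpace ℂ (Fin (m' + 1 + 1)))‖ ^ 2 / η))))) :=
    (hcont.measurable.ennreal_ofReal).comp
      ((MeasurableEquiv.toLp 2 (Fin (m' + 1 + 1) → ℂ)).measurable.comp
        (MeasurableEquiv.measurable _))
  rw [Measure.volume_eq_prod, lintegral_prod_symm _ hm1.aemeasurable,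
    ← hq.lintegral_comp_emb (MeasurableEquiv.measurableEmbedding _), Measure.volume_eq_prod,
    lintegral_prod_symm]
  swap
  · exact ((hm1.lintegral_prod_left').comp (MeasurableEquiv.measurable _)).aemeasurable
  simp only [hform]
  refine (lintegral_mono hK).trans ?_
  rw [lintegral_mul_const' _ _ (ENNReal.mul_ne_top ENNReal.ofReal_ne_top ENNReal.ofReal_ne_top),
    lint_prod hα, ← ENNReal.ofReal_mul (by positivity), ← ENNReal.ofReal_mul (hcst _).le]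
  refine ENNReal.ofReal_le_ofReal (le_of_eq ?_)
  have hnj : 0 < ‖a j‖ := norm_pos_iff.2 hj
  have hx : 0 < ‖a j‖ ^ 2 := by positivity
  have e1 : ‖c2 / c1‖ ^ (2 * α) = (‖a (j.succAbove k')‖ ^ 2 / ‖a j‖ ^ 2) ^ α := by
    rw [norm_div, hc1, hc2, RCLike.norm_conj, RCLike.norm_conj, rpow_mul (by positivity), rpow_two,
      div_pow]
  have e2 : (‖a j‖ ^ 2) ^ α + (‖a (j.succAbove k')‖ ^ 2) ^ α =
      (‖a j‖ ^ 2) ^ α * (1 + (‖a (j.succAbove k')‖ ^ 2 / ‖a j‖ ^ 2) ^ α) := by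
    rw [div_rpow (by positivity) hx.le]
    have : (‖a j‖ ^ 2) ^ α ≠ 0 := (rpow_pos_of_pos hx _).ne'
    field_simp
  have e3 : ((‖a j‖ ^ 2) ^ α) ^ (-(1 / α)) = 1 / ‖a j‖ ^ 2 := by
    rw [← rpow_mul hx.le]
    have : α * -(1 / α) = -1 := by
      have : α ≠ 0 := by linarith
      field_simp
    rw [this, rpow_neg_one, one_div]
  have e4 : ‖c1‖ = ‖a j‖ := by rw [hc1, RCLike.norm_conj]
  rw [e1, e2, mul_rpow (by positivity) (by positivity), e3, e4]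
  unfold cst
  ring

theorem sec_le_pair (hα : 1 < α) (a : EuclideanSpace ℂ (Fin (m + 1))) (ha : ‖a‖ = 1)
    (j k : Fin (m + 1)) (hjk : j ≠ k) (hj : a j ≠ 0) :
    sec α a ≤ ENNReal.ofReal (cst α m * ((‖a j‖ ^ 2) ^ α + (‖a k‖ ^ 2) ^ α) ^ (-(1 / α))) := by
  refine le_of_tendsto (geo3_tendsto hα a ha) ?_
  filter_upwards [self_mem_nhdsWithin] with η hη
  exact ENNReal.ofReal_le_ofReal (Ieta_le_pair hα a hη j k hjk hj)

end LpSec

end
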