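import Mathlib
import Pool.Agent.Lib.MP_1dbab3_gt.C03Slope
import Pool.Agent.Lib.MP_1dbab3_gt.C04Hold

section
/-!
# C10 Mid: vectors with a large coordinate, away from `(e_i + e_j)/√2`

`x j` the maximum (`unif_exists_max`), `w = 1 - x j`, `θ = 5 * 10^{-5}`.
* `x j ≥ 1/2 + θ`: `sec_le_coord`: `sec ≤ cst/x j ≤ cst/(1/2+θ) < cst 2^(1-1/α)` for large `α`
  (`DD AA = 2^(1-1/α) → 2`).
* `u0 ≤ x j ≤ 1/2 - θ`: `holder_max` (`N = 2`) with `B q = 1 - 0.002 (q-2) exp (-1.5 (q-2))`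
  (`slope_ball`), `q = 1/x j ∈ [2/(1-2θ), 1/u0]`: `J ≤ (1 - c)^{u0}`, `c = 0.002 * 4θ * exp (-1.5/u0)`;
  `(1-c)^{u0} < A` for large `α`. (May assume `u0 ≤ 1/4`.)
* `|x j - 1/2| < θ`: all `x i < 0.498` for `i ≠ j` (otherwise `j, i` is a pair, `θ < 0.002`).
  `holder_split` with `r = 2.002`, `r' = r/(r-1)` and any `k ≠ j` with `x k > 0` (exists since
  `x j < 1`), last factor `≤ 1`; `2 x i ≤ 0.996 ≤ r' w`. With `Bq = B 2.002 ≤ 1 - 3.98e-6` and the
  weighted arithmetic-geometric mean inequality: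
  `J ≤ (Bq/(r x j))^(1/r) (1/(r' w))^(1/r') ≤ Bq/(r² x j) + 1/(r'² w) ≤ 1 - 5e-7 < A`.
-/

open Real MeasureTheory Set Filter Topology

namespace LpSec

variable {α : ℝ}


/-- the universal bound -/
noncomputable def BB (q : ℝ) : ℝ := 1 - 0.002 * (q - 2) * exp (-(1.5 * (q - 2)))

theorem BB_mem {q : ℝ} (hq : 2 ≤ q) : 0 ≤ BB q ∧ BB q ≤ 1 := by
  unfold BB
  set t := q - 2 with ht
  have ht0 : 0 ≤ t := by rw [ht]; linarith
  have h1 : t * exp (-(1.5 * t)) ≤ 1 := by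
    have h2 := add_one_le_exp (1.5 * t)
    have h3 : exp (1.5 * t) * exp (-(1.5 * t)) = 1 := by
      rw [← exp_add, add_neg_cancel, exp_zero]
    have h4 : t * exp (-(1.5 * t)) ≤ exp (1.5 * t) * exp (-(1.5 * t)) := by
      apply mul_le_mul_of_nonneg_right _ (exp_pos _).le
      linarith
    linarith
  have h5 : 0 ≤ t * exp (-(1.5 * t)) := by positivity
  constructor
  · nlinarith
  · nlinarith

/-- from a bound of the Fourier integral to a strict bound of the section -/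
theorem sec_lt_of_J (hα : 1 < α) {m : ℕ} (a : EuclideanSpace ℂ (Fin (m + 1))) (ha : ‖a‖ = 1)
    {t A : ℝ} (htA : t < A) (hA : 0 < A)
    (hJ : ∫⁻ s in Ioi (0 : ℝ), ∏ i, ENNReal.ofReal |Phi α (‖a i‖ ^ 2 * s)| ≤ ENNReal.ofReal t) :
    sec α a < ENNReal.ofReal (cst α m * DD α * A) := by
  have hC := unif_cst_pos hα m
  have hD := DD_pos (α := α) (by linarith)
  have hCD : 0 < cst α m * DD α := mul_pos hC hD
  refine lt_of_le_of_lt (sec_le_fourier hα a ha) ?_
  have h1 : ENNReal.ofReal (cst α m * DD α) *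
      ∫⁻ s in Ioi (0 : ℝ), ∏ i, ENNReal.ofReal |Phi α (‖a i‖ ^ 2 * s)| ≤
      ENNReal.ofReal (cst α m * DD α * t) := by
    rw [ENNReal.ofReal_mul hCD.le]
    exact mul_le_mul' le_rfl hJ
  refine lt_of_le_of_lt h1 ?_
  rw [ENNReal.ofReal_lt_ofReal_iff (by positivity)]
  exact mul_lt_mul_of_pos_left htA hCD

private lemma c10_num {x : ℝ} (h1 : 0.49995 ≤ x) (h2 : x ≤ 0.50005) {b : ℝ} (hb0 : 0 ≤ b)
    (hb : b ≤ 1 - 3.98e-6) :
    1 / 2.002 * (b / (2.002 * x)) + 501 / 1001 * (1 / (1001 / 501 * (1 - x))) ≤ 1 - 5e-7 := by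
  have hx : 0 < x := by linarith
  have hx1 : 0 < 1 - x := by linarith
  have hxx : 0.49995 * 0.50005 ≤ x * (1 - x) := by nlinarith
  have e : 1 / 2.002 * (b / (2.002 * x)) + 501 / 1001 * (1 / (1001 / 501 * (1 - x))) =
      (b * (1001 / 501) ^ 2 * (1 - x) + 2.002 ^ 2 * x) /
        (2.002 ^ 2 * (1001 / 501) ^ 2 * (x * (1 - x))) := by
    field_simp
  rw [e, div_le_iff₀ (by positivity)]
  have h3 : b * (1001 / 501) ^ 2 * (1 - x) ≤ (1 - 3.98e-6) * (1001 / 501) ^ 2 * (1 - x) := by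
    gcongr
  have h4 : (1 - 5e-7) * (2.002 ^ 2 * (1001 / 501) ^ 2 * (0.49995 * 0.50005)) ≤
      (1 - 5e-7) * (2.002 ^ 2 * (1001 / 501) ^ 2 * (x * (1 - x))) := by
    gcongr
  refine le_trans ?_ h4
  refine le_trans (add_le_add_left h3 _) ?_
  nlinarith

theorem mid_pair {u0 : ℝ} (hu : 0 < u0) : ∀ᶠ α : ℝ in atTop,
    ∀ (m : ℕ) (a : EuclideanSpace ℂ (Fin (m + 1))), ‖a‖ = 1 → (∃ i, u0 ≤ ‖a i‖ ^ 2) →
      (¬ ∃ j k, j ≠ k ∧ 0.498 ≤ ‖a j‖ ^ 2 ∧ 0.498 ≤ ‖a k‖ ^ 2) →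
      sec α a < ENNReal.ofReal (cst α m * DD α * AA α) := by
  set u1 : ℝ := min u0 (1 / 4) with hu1
  have hu1p : 0 < u1 := lt_min hu (by norm_num)
  have hu14 : u1 ≤ 1 / 4 := min_le_right _ _
  set c : ℝ := 0.002 * (2e-4) * exp (-(1.5 * (1 / u1))) with hc
  have hc0 : 0 < c := by positivity
  have hc1 : c < 1 := by
    have : exp (-(1.5 * (1 / u1))) ≤ 1 := exp_le_one_iff.2 (by
      have : 0 < 1 / u1 := by positivity
      linarith)
    rw [hc]
    nlinarith
  set β0 : ℝ := (1 - c) ^ u1 with hβ0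
  have hβ1 : β0 < 1 := Real.rpow_lt_one (by linarith) (by linarith) hu1p
  have hev1 := AA_tendsto.eventually (eventually_gt_nhds hβ1)
  have hev2 := AA_tendsto.eventually (eventually_gt_nhds (show (1 - 5e-7 : ℝ) < 1 by norm_num))
  have hDA : Tendsto (fun α => DD α * AA α) atTop (𝓝 (2 * 1)) := DD_tendsto.mul AA_tendsto
  have hev3 := hDA.eventually (eventually_gt_nhds
    (show (1 / (1 / 2 + 5e-5) : ℝ) < 2 * 1 by norm_num))
  filter_upwards [hev1, hev2, hev3, slope_ball, eventually_gt_atTop 1] with α hA1 hA2 hA3 hsl hα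
  intro m a ha ⟨i0, hi0⟩ hnp
  have hApos := AA_pos hα
  have hC := unif_cst_pos hα m
  have hD := DD_pos (α := α) (by linarith)
  obtain ⟨j, hj⟩ := unif_exists_max m a
  have hju1 : u1 ≤ ‖a j‖ ^ 2 := (min_le_left _ _).trans (hi0.trans (hj i0))
  have hjpos : 0 < ‖a j‖ ^ 2 := lt_of_lt_of_le hu1p hju1
  have hsum := unif_sum m a ha
  have hB : ∀ q : ℝ, 2 ≤ q → ENNReal.ofReal q * Mom α q ≤ ENNReal.ofReal (BB q) := hsl.1
  rcases le_or_gt (1 / 2 + 5e-5) (‖a j‖ ^ 2) with h1 | h1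
  · -- a coordinate larger than one half
    have hj0 : a j ≠ 0 := by
      intro h
      rw [h, norm_zero] at hjpos
      norm_num at hjpos
    refine lt_of_le_of_lt (sec_le_coord hα a ha j hj0) ?_
    rw [ENNReal.ofReal_lt_ofReal_iff (by positivity)]
    have h2 : cst α m / ‖a j‖ ^ 2 ≤ cst α m / (1 / 2 + 5e-5) :=
      div_le_div_of_nonneg_left hC.le (by norm_num) h1
    refine lt_of_le_of_lt h2 ?_
    rw [mul_assoc, div_eq_mul_one_div]
    exact mul_lt_mul_of_pos_left hA3 hC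
  rcases le_or_gt (‖a j‖ ^ 2) (1 / 2 - 5e-5) with h2 | h2
  · -- all coordinates smaller than one half
    have hmax : ∀ i, ‖a i‖ ^ 2 ≤ 1 / 2 := fun i => (hj i).trans (h2.trans (by norm_num))
    have h3 := holder_max hα (fun i => ‖a i‖ ^ 2) (fun i => by positivity) hsum
      (N := 2) (by norm_num) hmax (B := BB) (fun q hq => BB_mem hq) hB j hjpos
    refine sec_lt_of_J hα a ha hA1 hApos (h3.trans (ENNReal.ofReal_le_ofReal ?_))
    set x := ‖a j‖ ^ 2 with hx
    have hq2 : 2 + 2e-4 ≤ 1 / x := by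
      rw [le_div_iff₀ hjpos]
      nlinarith
    have hq3 : 1 / x ≤ 1 / u1 := one_div_le_one_div_of_le hu1p hju1
    have h4 : BB (1 / x) ≤ 1 - c := by
      unfold BB
      have h5 : exp (-(1.5 * (1 / u1))) ≤ exp (-(1.5 * (1 / x - 2))) := by
        apply exp_le_exp.2
        linarith
      have h6 : 2e-4 * exp (-(1.5 * (1 / u1))) ≤ (1 / x - 2) * exp (-(1.5 * (1 / x - 2))) :=
        mul_le_mul (by linarith) h5 (exp_pos _).le (by linarith)
      rw [hc]
      nlinarith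
    have h7 := (BB_mem (q := 1 / x) (by linarith)).1
    calc BB (1 / x) ^ x ≤ (1 - c) ^ x := Real.rpow_le_rpow h7 h4 hjpos.le
      _ ≤ (1 - c) ^ u1 :=
        Real.rpow_le_rpow_of_exponent_ge (by linarith) (by linarith) hju1
  · -- one coordinate close to one half, the others away from it
    have hoth : ∀ i, i ≠ j → ‖a i‖ ^ 2 < 0.498 := by
      intro i hi
      by_contra hcon
      push Not at hcon
      exact hnp ⟨j, i, hi.symm, by linarith, hcon⟩
    have hj1 : ‖a j‖ ^ 2 < 1 := by linarith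
    obtain ⟨k, hkj, hk⟩ : ∃ k, k ≠ j ∧ 0 < ‖a k‖ ^ 2 := by
      by_contra hcon
      push Not at hcon
      have h3 : ∑ i ∈ Finset.univ.erase j, ‖a i‖ ^ 2 ≤ 0 :=
        Finset.sum_nonpos fun i hi => hcon i (Finset.mem_erase.1 hi).1
      have h4 := Finset.add_sum_erase Finset.univ (fun i => ‖a i‖ ^ 2) (Finset.mem_univ j)
      simp only at h4
      linarith
    have h3 := holder_split hα (fun i => ‖a i‖ ^ 2) (fun i => by positivity) hsum
      (B := BB) (fun q hq => BB_mem hq) hB j k hkj.symm hjpos hj1 hk (r := 2.002)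
      (r' := 1001 / 501) (by norm_num) (by norm_num) (by
        intro i hi
        have := hoth i hi
        simp only
        nlinarith)
    refine sec_lt_of_J hα a ha hA2 hApos (h3.trans (ENNReal.ofReal_le_ofReal ?_))
    simp only
    set x := ‖a j‖ ^ 2 with hx
    have hw : 0 < 1 - x := by linarith
    have hq : 2 ≤ 1001 / 501 * (1 - x) / ‖a k‖ ^ 2 := by
      rw [le_div_iff₀ hk]
      have := hoth k hkj
      nlinarith
    have hBk := BB_mem hq
    have hBr := BB_mem (q := 2.002) (by norm_num)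
    have h4 : BB (1001 / 501 * (1 - x) / ‖a k‖ ^ 2) ^ (‖a k‖ ^ 2 / (1001 / 501 * (1 - x))) ≤ 1 :=
      Real.rpow_le_one hBk.1 hBk.2 (by positivity)
    have h5 := Real.geom_mean_le_arith_mean2_weighted (w₁ := 1 / 2.002) (w₂ := 1 / (1001 / 501))
      (p₁ := BB 2.002 / (2.002 * x)) (p₂ := 1 / (1001 / 501 * (1 - x))) (by norm_num) (by norm_num)
      (div_nonneg hBr.1 (by positivity)) (by positivity) (by norm_num)
    have h6 : BB 2.002 ≤ 1 - 3.98e-6 := by
      unfold BB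
      have := add_one_le_exp (-(1.5 * (2.002 - 2)) : ℝ)
      norm_num at this ⊢
      linarith
    have h7 := c10_num (x := x) (by linarith) (by linarith) hBr.1 h6
    have h8 : (1 : ℝ) / (1001 / 501) = 501 / 1001 := by norm_num
    rw [h8] at h5 ⊢
    calc _ ≤ (BB 2.002 / (2.002 * x)) ^ ((1 : ℝ) / 2.002) *
          (1 / (1001 / 501 * (1 - x))) ^ ((501 : ℝ) / 1001) * 1 := by
          apply mul_le_mul_of_nonneg_left h4
          have := div_nonneg hBr.1 (show (0 : ℝ) ≤ 2.002 * x by positivity)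
          positivity
      _ = _ := mul_one _
      _ ≤ _ := h5
      _ ≤ _ := h7

end LpSec

end
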