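import Mathlib
import Pool.Agent.Lib.MP_1dbab3_gt.C03Slope
import Pool.Agent.Lib.MP_1dbab3_gt.C04Hold
import Pool.Agent.Lib.MP_1dbab3_gt.C05PairBd
import Pool.Agent.Lib.MP_1dbab3_gt.C10Mid

section
/-!
# C09 Near: vectors near `(e_i + e_j)/√2`

`A = AA α ∈ [exp (-lam), 1)` (`AA_tendsto`, `AA_lt_one`), `lam = 0.002`, `α ≥ 2002`. Let `x j ≥ x k`
(symmetry), `σ = 1 - x j - x k ≥ 0`, `w = 1 - x j`. `B q = A exp (-lam (q-2))` for `q ≤ 2.009` and
`B q = 1` otherwise (`slope_ball`). Bounds `J ≤ t` with `t < A` give the claim by `unif_of_J`-like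
`sec_le_fourier`.
* `x j ≤ 1/2`: `holder_two`: `x (1/x - 2) = 1 - 2x`, `1/x ≤ 1/0.498 ≤ 2.009`:
  `J ≤ A^(x j + x k) exp (-lam (2 - 2 (x j + x k))) = A^(1-σ) exp (-2 lam σ) ≤ A exp (-lam σ)`,
  `σ > 0` because `(x j, x k) ≠ (1/2, 1/2)`.
* `x j = 1/2 + ε`, `ε > 0`, `σ > 4 ε²/lam`: `holder_split` with `r = r' = 2` (`B 2 = A`):
  `J ≤ (A/(2 x j))^(1/2) (1/(2w))^(1/2) (A exp (-lam (2w/x k - 2)))^(x k/(2w))`
  `= (4 x j w)^(-1/2) A^(1 - σ/(2w)) exp (-lam σ/w) ≤ A (1-4ε²)^(-1/2) exp (-lam σ/(2w))`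
  `≤ A exp (4 ε² - lam σ) < A` (`w ≤ 1/2`, `-(1/2) log (1-y) ≤ y` for `0 ≤ y ≤ 1/2`).
* `ε > 0`, `σ ≤ 4 ε²/lam = 2000 ε²`: `sec_le_pair`; `(x j)^α + (x k)^α > 2 (1/2)^α` because
  `(1+2ε)^α ≥ 1 + 2αε + 2α(α-1)ε²`, `(1-2ε-2σ)^α ≥ 1 - α(2ε+2σ)` (Bernoulli) and
  `σ ≤ 2000 ε² < (α-1) ε²`; so `sec ≤ cst (..)^(-1/α) < cst 2^(1-1/α) = cst DD AA`.
-/

open Real MeasureTheory Set Filter Topology

namespace LpSec

variable {α : ℝ}

/-- the second order Bernoulli inequality -/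
theorem one_add_rpow_ge {α y : ℝ} (hα : 2 ≤ α) (hy : 0 ≤ y) :
    1 + α * y + α * (α - 1) / 2 * y ^ 2 ≤ (1 + y) ^ α := by
  have hd : ∀ v : ℝ, 0 < v → HasDerivAt (fun v => (1 + v) ^ α - (1 + α * v + α * (α - 1) / 2 * v ^ 2))
      (α * (1 + v) ^ (α - 1) - (α + α * (α - 1) * v)) v := by
    intro v hv
    have h1 : HasDerivAt (fun v : ℝ => 1 + v) 1 v := by
      simpa using (hasDerivAt_id v).const_add 1
    have h2 := h1.rpow_const (p := α) (Or.inl (by positivity))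
    have h3 : HasDerivAt (fun v : ℝ => 1 + α * v + α * (α - 1) / 2 * v ^ 2)
        (α + α * (α - 1) * v) v := by
      have h4 : HasDerivAt (fun v : ℝ => 1 + α * v) α v := by
        simpa using ((hasDerivAt_id v).const_mul α).const_add 1
      have h5 : HasDerivAt (fun v : ℝ => α * (α - 1) / 2 * v ^ 2) (α * (α - 1) / 2 * (2 * v)) v := by
        simpa using (hasDerivAt_pow 2 v).const_mul (α * (α - 1) / 2)
      refine (h4.add h5).congr_deriv ?_
      ring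
    refine (h2.sub h3).congr_deriv ?_
    ring
  have hmono : MonotoneOn (fun v => (1 + v) ^ α - (1 + α * v + α * (α - 1) / 2 * v ^ 2))
      (Ici (0 : ℝ)) := by
    refine monotoneOn_of_deriv_nonneg (convex_Ici 0) ?_ ?_ ?_
    · refine ContinuousOn.sub ?_ (Continuous.continuousOn (by fun_prop))
      refine ContinuousOn.rpow_const (Continuous.continuousOn (by fun_prop)) fun v hv => Or.inr ?_
      linarith
    · intro v hv
      rw [interior_Ici] at hv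
      exact (hd v hv).differentiableAt.differentiableWithinAt
    · intro v hv
      rw [interior_Ici] at hv
      rw [(hd v hv).deriv]
      have hv' : 0 < v := hv
      have h := one_add_mul_self_le_rpow_one_add (s := v) (p := α - 1) (by linarith) (by linarith)
      have h2 := mul_le_mul_of_nonneg_left h (by linarith : (0 : ℝ) ≤ α)
      linarith
  have h := hmono (mem_Ici.2 le_rfl) (mem_Ici.2 hy) hy
  simp only [add_zero, mul_zero, one_rpow] at h
  norm_num at h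
  linarith

/-- the function bounding `q Mom q` near `q = 2` -/
noncomputable def Bn (α q : ℝ) : ℝ := if q ≤ 2.009 then AA α * exp (-(0.002 * (q - 2))) else 1

private lemma c09_Bn_mem (hα : 1 < α) {q : ℝ} (hq : 2 ≤ q) : 0 ≤ Bn α q ∧ Bn α q ≤ 1 := by
  have hA := AA_pos hα
  have hA1 := AA_lt_one hα
  unfold Bn
  split_ifs with h
  · refine ⟨by positivity, ?_⟩
    have : exp (-(0.002 * (q - 2))) ≤ 1 := exp_le_one_iff.2 (by
      have : 0 ≤ q - 2 := by linarith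
      linarith)
    nlinarith
  · norm_num

private lemma c09_Bn_exp {h q x : ℝ} (hA : AA α = exp (-h)) (hq : q ≤ 2.009) :
    Bn α q ^ x = exp ((-h - 0.002 * (q - 2)) * x) := by
  unfold Bn
  rw [if_pos hq, hA, ← exp_add, ← Real.exp_mul]
  congr 1

/-- the case of two coordinates at most one half -/
private lemma c09_A (hα : 1 < α) {h : ℝ} (hh : h ≤ 0.002) (hA : AA α = exp (-h))
    (hB : ∀ q : ℝ, 2 ≤ q → ENNReal.ofReal q * Mom α q ≤ ENNReal.ofReal (Bn α q))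
    {m : ℕ} (a : EuclideanSpace ℂ (Fin (m + 1))) (ha : ‖a‖ = 1) (j k : Fin (m + 1)) (hjk : j ≠ k)
    (hk : 0.498 ≤ ‖a k‖ ^ 2) (hkj : ‖a k‖ ^ 2 ≤ ‖a j‖ ^ 2) (hj : ‖a j‖ ^ 2 ≤ 1 / 2)
    (hσ : 0 < 1 - ‖a j‖ ^ 2 - ‖a k‖ ^ 2) (hmax : ∀ i, ‖a i‖ ^ 2 ≤ 1 / 2) :
    sec α a < ENNReal.ofReal (cst α m * DD α * AA α) := by
  have hsum := unif_sum m a ha
  have hjpos : 0 < ‖a j‖ ^ 2 := by linarith
  have hkpos : 0 < ‖a k‖ ^ 2 := by linarith
  have h1 := holder_two hα (fun i => ‖a i‖ ^ 2) (fun i => by positivity) hsum hmax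
    (B := Bn α) (fun q hq => c09_Bn_mem hα hq) hB j k hjk hjpos hkpos
  simp only at h1
  set x := ‖a j‖ ^ 2 with hx
  set y := ‖a k‖ ^ 2 with hy
  have hqx : 1 / x ≤ 2.009 := by
    rw [div_le_iff₀ hjpos]
    nlinarith
  have hqy : 1 / y ≤ 2.009 := by
    rw [div_le_iff₀ hkpos]
    nlinarith
  rw [c09_Bn_exp hA hqx, c09_Bn_exp hA hqy, ← exp_add] at h1
  refine sec_lt_of_J hα a ha ?_ (AA_pos hα) h1
  rw [hA, exp_lt_exp]
  have e1 : (-h - 0.002 * (1 / x - 2)) * x = -h * x - 0.002 * (1 - 2 * x) := by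
    field_simp
  have e2 : (-h - 0.002 * (1 / y - 2)) * y = -h * y - 0.002 * (1 - 2 * y) := by
    field_simp
  rw [e1, e2]
  nlinarith

private lemma c09_exp {y : ℝ} (h0 : 0 ≤ y) (h1 : y ≤ 1 / 2) : 1 / (1 - y) ≤ exp (2 * y) := by
  have h2 := add_one_le_exp (2 * y)
  rw [div_le_iff₀ (by linarith)]
  nlinarith

/-- the first case with a coordinate larger than one half -/
private lemma c09_B1 (hα : 1 < α) {h : ℝ} (hh : h ≤ 0.002) (hA : AA α = exp (-h))
    (hB : ∀ q : ℝ, 2 ≤ q → ENNReal.ofReal q * Mom α q ≤ ENNReal.ofReal (Bn α q))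
    {m : ℕ} (a : EuclideanSpace ℂ (Fin (m + 1))) (ha : ‖a‖ = 1) (j k : Fin (m + 1)) (hjk : j ≠ k)
    (hk : 0.498 ≤ ‖a k‖ ^ 2) (hj : 1 / 2 < ‖a j‖ ^ 2)
    (hσ : 2000 * (‖a j‖ ^ 2 - 1 / 2) ^ 2 < 1 - ‖a j‖ ^ 2 - ‖a k‖ ^ 2)
    (hoth : ∀ i, i ≠ j → ‖a i‖ ^ 2 ≤ 1 - ‖a j‖ ^ 2) :
    sec α a < ENNReal.ofReal (cst α m * DD α * AA α) := by
  have hsum := unif_sum m a ha
  have hjpos : 0 < ‖a j‖ ^ 2 := by linarith
  have hkpos : 0 < ‖a k‖ ^ 2 := by linarith
  have hkw := hoth k hjk.symm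
  have hj1 : ‖a j‖ ^ 2 < 1 := by linarith
  have h1 := holder_split hα (fun i => ‖a i‖ ^ 2) (fun i => by positivity) hsum
    (B := Bn α) (fun q hq => c09_Bn_mem hα hq) hB j k hjk hjpos hj1 hkpos (r := 2)
    (r' := 2) le_rfl (by norm_num) (fun i hi => by
      have := hoth i hi
      simp only
      linarith)
  simp only at h1
  set x := ‖a j‖ ^ 2 with hx
  set y := ‖a k‖ ^ 2 with hy
  set w := 1 - x with hw
  have hw0 : 0 < w := by rw [hw]; linarith
  have hw2 : w ≤ 1 / 2 := by rw [hw]; linarith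
  have hq : 2 * w / y ≤ 2.009 := by
    rw [div_le_iff₀ hkpos]
    nlinarith
  have hB2 : Bn α 2 = exp (-h) := by
    unfold Bn
    rw [if_pos (by norm_num), hA]
    norm_num
  rw [c09_Bn_exp hA hq, hB2] at h1
  refine sec_lt_of_J hα a ha ?_ (AA_pos hα) h1
  set ε := x - 1 / 2 with hε
  have hε0 : 0 < ε := by rw [hε]; linarith
  have hε1 : ε ≤ 0.002 := by
    have : x ≤ 1 - y := by linarith
    rw [hε]
    linarith
  -- the first two factors
  have h2 : (exp (-h) / (2 * x)) ^ (1 / (2 : ℝ)) * (1 / (2 * w)) ^ (1 / (2 : ℝ)) ≤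
      exp (-h / 2 + 4 * ε ^ 2) := by
    rw [← Real.mul_rpow (by positivity) (by positivity)]
    have e : exp (-h) / (2 * x) * (1 / (2 * w)) = exp (-h) * (1 / (1 - 4 * ε ^ 2)) := by
      have e1 : 1 - 4 * ε ^ 2 = 2 * x * (2 * w) := by
        rw [hε, hw]
        ring
      rw [e1]
      field_simp
    rw [e]
    have h3 := c09_exp (y := 4 * ε ^ 2) (by positivity) (by nlinarith)
    calc (exp (-h) * (1 / (1 - 4 * ε ^ 2))) ^ (1 / (2 : ℝ))
        ≤ (exp (-h) * exp (2 * (4 * ε ^ 2))) ^ (1 / (2 : ℝ)) := by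
          apply Real.rpow_le_rpow
          · have : 0 ≤ 1 / (1 - 4 * ε ^ 2) := by
              apply one_div_nonneg.2
              nlinarith
            positivity
          · exact mul_le_mul_of_nonneg_left h3 (exp_pos _).le
          · norm_num
      _ = exp (-h / 2 + 4 * ε ^ 2) := by
          rw [← exp_add, ← Real.exp_mul]
          congr 1
          ring
  refine lt_of_le_of_lt (mul_le_mul_of_nonneg_right h2 (exp_pos _).le) ?_
  rw [hA, ← exp_add, exp_lt_exp]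
  have e3 : (-h - 0.002 * (2 * w / y - 2)) * (y / (2 * w)) =
      -h / 2 + (h / 2 - 0.002) * ((w - y) / w) := by
    field_simp
    ring
  rw [e3]
  have hσ0 : 0 < w - y := by
    have : 0 ≤ 2000 * ε ^ 2 := by positivity
    linarith
  have h4 : 2 * (w - y) ≤ (w - y) / w := by
    rw [le_div_iff₀ hw0]
    nlinarith
  have h5 : (h / 2 - 0.002) * ((w - y) / w) ≤ -0.001 * ((w - y) / w) :=
    mul_le_mul_of_nonneg_right (by linarith) (by positivity)
  nlinarith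

/-- the second case with a coordinate larger than one half -/
private lemma c09_B2 (hα : 2002 ≤ α)
    {m : ℕ} (a : EuclideanSpace ℂ (Fin (m + 1))) (ha : ‖a‖ = 1) (j k : Fin (m + 1)) (hjk : j ≠ k)
    (hk : 0.498 ≤ ‖a k‖ ^ 2) (hj : 1 / 2 < ‖a j‖ ^ 2)
    (hσ : 1 - ‖a j‖ ^ 2 - ‖a k‖ ^ 2 ≤ 2000 * (‖a j‖ ^ 2 - 1 / 2) ^ 2) :
    sec α a < ENNReal.ofReal (cst α m * DD α * AA α) := by
  have hα1 : 1 < α := by linarith
  have hC := unif_cst_pos hα1 m
  have hD := DD_pos (α := α) (by linarith)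
  have hj0 : a j ≠ 0 := by
    intro h
    rw [h, norm_zero] at hj
    norm_num at hj
  refine lt_of_le_of_lt (sec_le_pair hα1 a ha j k hjk hj0) ?_
  set x := ‖a j‖ ^ 2 with hx
  set y := ‖a k‖ ^ 2 with hy
  have hDA : DD α * AA α = 2 ^ (1 - 1 / α) := by
    unfold AA
    field_simp
  rw [mul_assoc, hDA, ENNReal.ofReal_lt_ofReal_iff (by positivity)]
  apply mul_lt_mul_of_pos_left _ hC
  have hS : (2 : ℝ) ^ (1 - α) < x ^ α + y ^ α := by
    have e1 : x = 1 / 2 * (1 + (2 * x - 1)) := by ring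
    have e2 : y = 1 / 2 * (1 + (2 * y - 1)) := by ring
    have h1 := one_add_rpow_ge (α := α) (y := 2 * x - 1) (by linarith) (by linarith)
    have h2 := one_add_mul_self_le_rpow_one_add (s := 2 * y - 1) (p := α) (by linarith)
      (by linarith)
    have h3 : x ^ α = (1 / 2) ^ α * (1 + (2 * x - 1)) ^ α := by
      rw [← Real.mul_rpow (by norm_num) (by linarith), ← e1]
    have h4 : y ^ α = (1 / 2) ^ α * (1 + (2 * y - 1)) ^ α := by
      rw [← Real.mul_rpow (by norm_num) (by linarith), ← e2]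
    have h5 : (2 : ℝ) ^ (1 - α) = (1 / 2) ^ α * 2 := by
      rw [rpow_sub (by norm_num), rpow_one, one_div, inv_rpow (by norm_num)]
      ring
    rw [h3, h4, h5, ← mul_add]
    apply mul_lt_mul_of_pos_left _ (rpow_pos_of_pos (by norm_num) _)
    have h6 : 0 < x - 1 / 2 := by linarith
    have h7 : (1 - x - y) * 2 < (α - 1) * 2 * (x - 1 / 2) ^ 2 := by
      have h8 : 2001 * (x - 1 / 2) ^ 2 ≤ (α - 1) * (x - 1 / 2) ^ 2 := by
        apply mul_le_mul_of_nonneg_right _ (by positivity)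
        linarith
      have h9 : 0 < (x - 1 / 2) ^ 2 := by positivity
      nlinarith
    have h10 : α * ((1 - x - y) * 2) < α * ((α - 1) * 2 * (x - 1 / 2) ^ 2) :=
      mul_lt_mul_of_pos_left h7 (by linarith)
    nlinarith
  have e3 : (2 : ℝ) ^ (1 - 1 / α) = ((2 : ℝ) ^ (1 - α)) ^ (-(1 / α)) := by
    rw [← rpow_mul (by norm_num)]
    congr 1
    have : α ≠ 0 := by linarith
    field_simp
    ring
  rw [e3]
  apply rpow_lt_rpow_of_neg (by positivity) hS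
  have : 0 < 1 / α := by positivity
  linarith

theorem near_pair : ∀ᶠ α : ℝ in atTop, ∀ (m : ℕ) (a : EuclideanSpace ℂ (Fin (m + 1))), ‖a‖ = 1 →
    ∀ j k, j ≠ k → 0.498 ≤ ‖a j‖ ^ 2 → 0.498 ≤ ‖a k‖ ^ 2 →
      ¬ (‖a j‖ ^ 2 = 1 / 2 ∧ ‖a k‖ ^ 2 = 1 / 2) →
      sec α a < ENNReal.ofReal (cst α m * DD α * AA α) := by
  have hev := AA_tendsto.eventually (eventually_ge_nhds
    (show exp (-0.002) < (1 : ℝ) from exp_lt_one_iff.2 (by norm_num)))
  filter_upwards [hev, slope_ball, eventually_ge_atTop 2002] with α hA hsl hα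
  have hα1 : 1 < α := by linarith
  have hApos := AA_pos hα1
  have hAe : AA α = exp (-(-log (AA α))) := by rw [neg_neg, exp_log hApos]
  have hh : -log (AA α) ≤ 0.002 := by
    have := (log_le_log_iff (exp_pos _) hApos).2 hA
    rw [log_exp] at this
    linarith
  have hB : ∀ q : ℝ, 2 ≤ q → ENNReal.ofReal q * Mom α q ≤ ENNReal.ofReal (Bn α q) := by
    intro q hq
    unfold Bn
    split_ifs with h
    · exact hsl.2 q hq h
    · exact (hsl.1 q hq).trans (ENNReal.ofReal_le_ofReal (BB_mem hq).2)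
  -- the ordered case
  have key : ∀ (m : ℕ) (a : EuclideanSpace ℂ (Fin (m + 1))), ‖a‖ = 1 →
      ∀ j k, j ≠ k → 0.498 ≤ ‖a k‖ ^ 2 → ‖a k‖ ^ 2 ≤ ‖a j‖ ^ 2 →
      ¬ (‖a j‖ ^ 2 = 1 / 2 ∧ ‖a k‖ ^ 2 = 1 / 2) →
      sec α a < ENNReal.ofReal (cst α m * DD α * AA α) := by
    intro m a ha j k hjk hk hkj hne
    have hsum := unif_sum m a ha
    have hkm : k ∈ Finset.univ.erase j := Finset.mem_erase.2 ⟨hjk.symm, Finset.mem_univ _⟩
    have e1 := Finset.add_sum_erase Finset.univ (fun i => ‖a i‖ ^ 2) (Finset.mem_univ j)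
    have e2 := Finset.add_sum_erase (Finset.univ.erase j) (fun i => ‖a i‖ ^ 2) hkm
    simp only at e1 e2
    have hrest : 0 ≤ ∑ i ∈ (Finset.univ.erase j).erase k, ‖a i‖ ^ 2 :=
      Finset.sum_nonneg fun i _ => by positivity
    have hoth : ∀ i, i ≠ j → ‖a i‖ ^ 2 ≤ 1 - ‖a j‖ ^ 2 := by
      intro i hi
      have h1 : ‖a i‖ ^ 2 ≤ ∑ i ∈ Finset.univ.erase j, ‖a i‖ ^ 2 :=
        Finset.single_le_sum (f := fun i => ‖a i‖ ^ 2) (fun i _ => by positivity)
          (Finset.mem_erase.2 ⟨hi, Finset.mem_univ _⟩)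
      linarith
    rcases le_or_gt (‖a j‖ ^ 2) (1 / 2) with hj | hj
    · have hσ : 0 < 1 - ‖a j‖ ^ 2 - ‖a k‖ ^ 2 := by
        have h1 : 0 ≤ 1 - ‖a j‖ ^ 2 - ‖a k‖ ^ 2 := by linarith
        rcases h1.eq_or_lt with h2 | h2
        · exfalso
          apply hne
          constructor <;> linarith
        · exact h2
      refine c09_A hα1 hh hAe hB a ha j k hjk hk hkj hj hσ ?_
      intro i
      by_cases hi : i = j
      · rw [hi]; exact hj
      · by_cases hik : i = k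
        · rw [hik]; linarith
        · have h1 : ‖a i‖ ^ 2 ≤ ∑ i ∈ (Finset.univ.erase j).erase k, ‖a i‖ ^ 2 :=
            Finset.single_le_sum (f := fun i => ‖a i‖ ^ 2) (fun i _ => by positivity)
              (Finset.mem_erase.2 ⟨hik, Finset.mem_erase.2 ⟨hi, Finset.mem_univ _⟩⟩)
          linarith
    · rcases lt_or_ge (2000 * (‖a j‖ ^ 2 - 1 / 2) ^ 2) (1 - ‖a j‖ ^ 2 - ‖a k‖ ^ 2) with h | h
      · exact c09_B1 hα1 hh hAe hB a ha j k hjk hk hj h hoth
      · exact c09_B2 hα a ha j k hjk hk hj h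
  intro m a ha j k hjk hj hk hne
  rcases le_total (‖a k‖ ^ 2) (‖a j‖ ^ 2) with h | h
  · exact key m a ha j k hjk hk h hne
  · exact key m a ha k j hjk.symm hj h fun hc => hne ⟨hc.2, hc.1⟩

end LpSec

end
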