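import Mathlib
import Pool.Agent.Lib.MP_1dbab3_gt.C03Slope
import Pool.Agent.Lib.MP_1dbab3_gt.C07Strong

section
/-!
# C11 Thr: which of the two candidates is larger

* `flat_wins`: `J(flat_n) ≥ 1 - 2/n` for `n ≥ n1` (all `α > 1`): `Phi_ge` on `[0,n]`:
  `∫_0^n Phi (s/n)^n ≥ ∫_0^n (1-s/n)^n = n/(n+1)`, and `tail_bound` with `u = 1/n`, `s1 = 1`:
  `|∫_n^∞| ≤ n 2^(1-n/4)/(n/4-1)`. `AA α ≤ 1 - 0.1993/α` (`AA_le_left`). So `C = 11`.
* `AA_ge`: `Γ(1+2x) ≥ Γ(1+x)²` (log-convexity of Gamma, `Γ 1 = 1`), so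
  `AA = 2^(-1/α) Γ(1+2/α)/Γ(1+1/α)² ≥ 2^(-1/α) ≥ 1 - log 2/α ≥ 1 - 1/α`.
* `flat_loses`: `n Mom n ≤ 1 - c1/n` for `n ≥ 3`, large `α`:
  `n ≤ n1`: `slope_ball`, `1 - 0.002 exp (-1.5 (n1-2))`;
  `n ≥ n1`: on `[0,s1]` `Phi^n ≤ exp (-ns - nκs²) ≤ exp (-(n+2κ)s + κ/n)` (`Phi_exp_sq`),
  `n ∫_{s1}^{1.45} ≤ e^{-n s1}` (`main_lobe`),
  `n ∫_{1.45}^∞ |Phi|^n ≤ n e^{-2(n-2)} Mom 2 ≤ n e^{-2(n-2)}/2`.
  Then `1 - c1/n < 1 - 1/α ≤ AA` for `n < c1 α`.
-/

open Real MeasureTheory Set Filter Topology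

namespace LpSec

variable {α : ℝ}

theorem AA_ge (hα : 1 < α) : 1 - 1 / α ≤ AA α := by
  have hα0 : 0 < α := by linarith
  have hx : 0 < 1 / α := by positivity
  have hp : 0 < Gamma (1 + 1 / α) := Gamma_pos_of_pos (by positivity)
  have hp2 : 0 < Gamma (1 + 2 / α) := Gamma_pos_of_pos (by positivity)
  have h1 : Gamma (1 + 1 / α) ^ 2 ≤ Gamma (1 + 2 / α) := by
    have h := Real.Gamma_mul_add_mul_le_rpow_Gamma_mul_rpow_Gamma (s := 1) (t := 1 + 2 / α)
      (a := 1 / 2) (b := 1 / 2) one_pos (by positivity) (by norm_num) (by norm_num) (by norm_num)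
    rw [Real.Gamma_one, one_rpow, one_mul] at h
    have e : (1 / 2 : ℝ) * 1 + 1 / 2 * (1 + 2 / α) = 1 + 1 / α := by ring
    rw [e, ← Real.sqrt_eq_rpow] at h
    calc Gamma (1 + 1 / α) ^ 2 ≤ (√(Gamma (1 + 2 / α))) ^ 2 := pow_le_pow_left₀ hp.le h 2
      _ = _ := Real.sq_sqrt hp2.le
  have e2 : (2 : ℝ) ^ (1 - 1 / α) = 2 * 2 ^ (-(1 / α)) := by
    rw [sub_eq_add_neg, rpow_add (by norm_num), rpow_one]
  have h3 : 1 - 1 / α ≤ (2 : ℝ) ^ (-(1 / α)) := by
    rw [rpow_def_of_pos (by norm_num)]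
    have h4 := add_one_le_exp (log 2 * (-(1 / α)))
    have hl : log 2 ≤ 1 := by
      have := log_two_lt_d9
      linarith
    nlinarith
  have h5 : (0 : ℝ) < 2 ^ (-(1 / α)) := rpow_pos_of_pos (by norm_num) _
  refine h3.trans ?_
  unfold AA DD
  rw [e2, div_div_eq_mul_div, le_div_iff₀ (by positivity)]
  nlinarith [mul_le_mul_of_nonneg_left h1 h5.le]

private lemma c11_two_pow {n : ℝ} (hn : 2200 ≤ n) :
    n * 2 ^ (1 - n / 4) / (n / 4 - 1) ≤ 1 / n := by
  have hn0 : 0 < n := by linarith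
  have h1 : 0.01445 * n ^ 2 ≤ (2 : ℝ) ^ (n / 4) := by
    rw [rpow_def_of_pos (by norm_num)]
    have hl := log_two_gt_d9
    have h2 : 0.17 * n ≤ log 2 * (n / 4) := by nlinarith
    have h3 := quadratic_le_exp_of_nonneg (x := 0.17 * n) (by positivity)
    have h4 : exp (0.17 * n) ≤ exp (log 2 * (n / 4)) := exp_le_exp.2 h2
    nlinarith
  have h2 : (2 : ℝ) ^ (1 - n / 4) * 2 ^ (n / 4) = 2 := by
    rw [← rpow_add (by norm_num)]
    norm_num
  have h3 : (0 : ℝ) < 2 ^ (1 - n / 4) := rpow_pos_of_pos (by norm_num) _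
  have h4 : 0.01445 * (n ^ 2 * 2 ^ (1 - n / 4)) ≤ 2 := by
    calc 0.01445 * (n ^ 2 * 2 ^ (1 - n / 4)) = 2 ^ (1 - n / 4) * (0.01445 * n ^ 2) := by ring
      _ ≤ 2 ^ (1 - n / 4) * 2 ^ (n / 4) := mul_le_mul_of_nonneg_left h1 h3.le
      _ = 2 := h2
  rw [div_le_div_iff₀ (by linarith) hn0]
  nlinarith

private lemma c11_int {n : ℕ} (hn : 0 < n) :
    ∫ s in (0 : ℝ)..n, (1 - s / (n : ℝ)) ^ n = n / ((n : ℝ) + 1) := by
  have hn0 : (n : ℝ) ≠ 0 := by positivity
  have h := intervalIntegral.integral_comp_sub_div (a := (0 : ℝ)) (b := (n : ℝ))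
    (f := fun x : ℝ => x ^ n) (c := (n : ℝ)) hn0 1
  rw [h, div_self hn0, zero_div, sub_zero, sub_self, integral_pow]
  simp only [one_pow, smul_eq_mul]
  rw [zero_pow (by omega)]
  ring

theorem flat_wins : ∃ C > 0, ∀ᶠ α : ℝ in atTop, ∀ n : ℕ, C * α ≤ (n : ℝ) →
    AA α < J α (fun _ : Fin n => 1 / (n : ℝ)) := by
  refine ⟨11, by norm_num, ?_⟩
  filter_upwards [eventually_ge_atTop (200 : ℝ)] with α hα n hn
  have hα1 : 1 < α := by linarith
  have hn2 : (2200 : ℝ) ≤ n := by linarith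
  have hn0 : (0 : ℝ) < n := by linarith
  have hnN : 0 < n := by exact_mod_cast hn0
  have hsum : ∑ _i : Fin n, 1 / (n : ℝ) = 1 := by
    rw [Finset.sum_const, Finset.card_univ, Fintype.card_fin, nsmul_eq_mul]
    field_simp
  have hu4 : 1 / (n : ℝ) < 1 / 4 := one_div_lt_one_div_of_lt (by norm_num) (by linarith)
  have hint := prod_integrable hα1 (x := fun _ : Fin n => 1 / (n : ℝ)) (fun _ => by positivity)
    hsum (u := 1 / (n : ℝ)) (by positivity) hu4 (fun _ => le_rfl)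
  have htail := tail_bound hα1 (x := fun _ : Fin n => 1 / (n : ℝ)) (fun _ => by positivity)
    hsum (u := 1 / (n : ℝ)) (s1 := 1) (by positivity) hu4 (fun _ => le_rfl) one_pos
  have e1 : (1 : ℝ) / (1 / (n : ℝ)) = n := by field_simp
  have e2 : (1 : ℝ) / (4 * (1 / (n : ℝ))) = n / 4 := by field_simp
  rw [e1, e2, show (1 : ℝ) + 1 = 2 by norm_num] at htail
  have htail2 := htail.trans (c11_two_pow hn2)
  have htail3 := (abs_le.1 htail2).1
  have hmain : (n : ℝ) / ((n : ℝ) + 1) ≤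
      ∫ s in Ioc (0 : ℝ) n, ∏ _i : Fin n, Phi α (1 / (n : ℝ) * s) := by
    rw [← c11_int hnN, intervalIntegral.integral_of_le hn0.le]
    refine setIntegral_mono_on ?_ (hint.mono_set Ioc_subset_Ioi_self) measurableSet_Ioc ?_
    · exact (Continuous.integrableOn_Icc (by fun_prop)).mono_set Ioc_subset_Icc_self
    · intro s hs
      have hs0 : 0 ≤ 1 / (n : ℝ) * s := mul_nonneg (by positivity) hs.1.le
      have h1 := Phi_ge hα1 hs0
      have e3 : 1 / (n : ℝ) * s = s / n := by ring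
      have h2 : s / (n : ℝ) ≤ 1 := by
        rw [div_le_one hn0]
        exact hs.2
      rw [diag_prod]
      rw [e3] at h1 ⊢
      exact pow_le_pow_left₀ (by linarith) h1 n
  have hJ : J α (fun _ : Fin n => 1 / (n : ℝ)) =
      (∫ s in Ioc (0 : ℝ) n, ∏ _i : Fin n, Phi α (1 / (n : ℝ) * s)) +
        ∫ s in Ioi (n : ℝ), ∏ _i : Fin n, Phi α (1 / (n : ℝ) * s) := by
    unfold J
    rw [← Ioc_union_Ioi_eq_Ioi hn0.le]
    exact setIntegral_union (Ioc_disjoint_Ioi le_rfl) measurableSet_Ioi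
      (hint.mono_set Ioc_subset_Ioi_self) (hint.mono_set (Ioi_subset_Ioi hn0.le))
  have hA := AA_le_left (α := α) (by linarith)
  have h5 : 1 - 1 / (n : ℝ) ≤ n / ((n : ℝ) + 1) := by
    rw [sub_le_iff_le_add, div_add_div _ _ (by positivity) (by positivity),
      le_div_iff₀ (by positivity)]
    nlinarith
  have h6 : 2 * (1 / (n : ℝ)) < 0.1993 * (1 / α) := by
    have h7 : 1 / (n : ℝ) ≤ 1 / (11 * α) := one_div_le_one_div_of_le (by positivity) hn
    have h8 : (1 : ℝ) / (11 * α) = 1 / 11 * (1 / α) := by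
      field_simp
    have h9 : 0 < 1 / α := by positivity
    rw [h8] at h7
    nlinarith
  rw [hJ]
  linarith

private lemma c11_exp (a c b : ℝ) (hb : 0 < b) :
    ∫⁻ s in Ioi c, ENNReal.ofReal (exp (-(b * s) + a)) =
      ENNReal.ofReal (exp (a - b * c) / b) := by
  have hb' : -b < 0 := by linarith
  have hi := (integrableOn_exp_mul_Ioi hb' c).const_mul (exp a)
  have e : ∀ s : ℝ, exp (-(b * s) + a) = exp a * exp (-b * s) := by
    intro s
    rw [← exp_add]
    congr 1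
    ring
  have h1 : ∫ s in Ioi c, exp a * exp (-b * s) = exp (a - b * c) / b := by
    rw [integral_const_mul, integral_exp_mul_Ioi hb' c]
    have : exp (a - b * c) = exp a * exp (-b * c) := by
      rw [← exp_add]
      congr 1
      ring
    rw [this]
    field_simp
  rw [← h1, ofReal_integral_eq_lintegral_ofReal hi
    (Eventually.of_forall fun s => by positivity)]
  simp only [e]

private lemma c11_big (hα : 1 < α) {s1 κ : ℝ} (hs1 : 0 < s1) (hs11 : s1 ≤ 1) (hκ : 0 < κ)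
    (hpos : ∀ s ∈ Icc 0 s1, 0 < Phi α s)
    (hexp : ∀ s ∈ Icc 0 s1, Phi α s ≤ exp (-s - κ * s ^ 2))
    (htail : ∀ s : ℝ, 1.45 ≤ s → |Phi α s| ≤ exp (-2)) {n : ℕ} (hn : 3 ≤ n) :
    Mom α n ≤ ENNReal.ofReal (exp (κ / n) / (n + 2 * κ)) +
      (ENNReal.ofReal (exp (-(n * s1)) / n) +
      ENNReal.ofReal (exp (-(2 * ((n : ℝ) - 2)))) * Mom α 2) := by
  have hn3 : (3 : ℝ) ≤ n := by exact_mod_cast hn
  have hn0 : (0 : ℝ) < n := by linarith
  have hsub : Ioi (0 : ℝ) ⊆ Ioc 0 s1 ∪ (Ioc s1 1.45 ∪ Ioi 1.45) := by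
    intro s hs
    rcases le_or_gt s s1 with h | h
    · exact Or.inl ⟨hs, h⟩
    · rcases le_or_gt s 1.45 with h' | h'
      · exact Or.inr (Or.inl ⟨h, h'⟩)
      · exact Or.inr (Or.inr h')
  unfold Mom
  refine (lintegral_mono_set hsub).trans ((lintegral_union_le _ _ _).trans
    (add_le_add ?_ ((lintegral_union_le _ _ _).trans (add_le_add ?_ ?_))))
  · have h0 := c11_exp (κ / n) 0 (n + 2 * κ) (by positivity)
    rw [mul_zero, sub_zero] at h0
    rw [← h0]
    refine (setLIntegral_mono' measurableSet_Ioc fun s hs => ?_).trans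
      (lintegral_mono_set Ioc_subset_Ioi_self)
    apply ENNReal.ofReal_le_ofReal
    have hs' : s ∈ Icc 0 s1 := ⟨hs.1.le, hs.2⟩
    rw [abs_of_pos (hpos s hs'), rpow_natCast]
    calc Phi α s ^ n ≤ exp (-s - κ * s ^ 2) ^ n := pow_le_pow_left₀ (hpos s hs').le (hexp s hs') n
      _ = exp (n * (-s - κ * s ^ 2)) := by rw [← exp_nat_mul]
      _ ≤ exp (-((n + 2 * κ) * s) + κ / n) := by
          apply exp_le_exp.2
          have h1 : 0 ≤ κ * n * (s - 1 / n) ^ 2 := by positivity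
          have h2 : κ * n * (s - 1 / n) ^ 2 = κ * n * s ^ 2 - 2 * κ * s + κ / n := by
            field_simp
            ring
          linarith
  · have h0 := c11_exp 0 s1 n hn0
    rw [zero_sub] at h0
    rw [← h0]
    refine (setLIntegral_mono' measurableSet_Ioc fun s hs => ?_).trans
      (lintegral_mono_set Ioc_subset_Ioi_self)
    apply ENNReal.ofReal_le_ofReal
    have hs0 : 0 ≤ s := hs1.le.trans hs.1.le
    have h1 := main_lobe hα hs0 (by linarith [hs.2])
    rw [rpow_natCast]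
    calc |Phi α s| ^ n ≤ exp (-s) ^ n := pow_le_pow_left₀ (abs_nonneg _) h1 n
      _ = exp (-(n * s) + 0) := by
          rw [← exp_nat_mul]
          congr 1
          ring
  · rw [← lintegral_const_mul' _ _ ENNReal.ofReal_ne_top]
    refine (setLIntegral_mono' measurableSet_Ioi fun s hs => ?_).trans
      (lintegral_mono_set (Ioi_subset_Ioi (by norm_num : (0 : ℝ) ≤ 1.45)))
    rw [← ENNReal.ofReal_mul (exp_pos _).le]
    apply ENNReal.ofReal_le_ofReal
    have h1 := htail s (le_of_lt hs)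
    have hn2 : n = (n - 2) + 2 := by omega
    have h2 : |Phi α s| ^ (n : ℝ) = |Phi α s| ^ (n - 2) * |Phi α s| ^ (2 : ℝ) := by
      rw [rpow_natCast, rpow_two, ← pow_add]
      congr 1
    rw [h2]
    apply mul_le_mul_of_nonneg_right _ (by positivity)
    calc |Phi α s| ^ (n - 2) ≤ exp (-2) ^ (n - 2) := pow_le_pow_left₀ (abs_nonneg _) h1 _
      _ = exp (-(2 * ((n : ℝ) - 2))) := by
          rw [← exp_nat_mul]
          congr 1
          rw [Nat.cast_sub (by omega)]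
          push_cast
          ring

private lemma c11_num {κ s1 n : ℝ} (hκ : 0 < κ) (hs1 : 0 < s1) (hn4 : 4 ≤ n)
    (h1 : 4 * κ ≤ n) (h2 : 16 / (κ * s1 ^ 2) ≤ n) (h3 : 24 / κ ≤ n) :
    n * (exp (κ / n) / (n + 2 * κ)) + (n * (exp (-(n * s1)) / n) +
      n * (exp (-(2 * (n - 2))) * (1 / 2))) ≤ 1 - κ / (4 * n) := by
  have hn0 : 0 < n := by linarith
  -- first term
  have hy0 : 0 < κ / n := by positivity
  have hy4 : κ / n ≤ 1 / 4 := by
    rw [div_le_iff₀ hn0]
    linarith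
  have a1 : exp (κ / n) ≤ 1 + κ / n + (κ / n) ^ 2 := by
    have h := Real.abs_exp_sub_one_sub_id_le (x := κ / n) (by rw [abs_of_pos hy0]; linarith)
    have := (abs_le.1 h).2
    linarith
  have b1 : n * (exp (κ / n) / (n + 2 * κ)) ≤ 1 - κ / n / 2 := by
    have e : n * (exp (κ / n) / (n + 2 * κ)) = exp (κ / n) / (1 + 2 * (κ / n)) := by
      field_simp
    rw [e, div_le_iff₀ (by positivity)]
    nlinarith
  -- second term
  have b2 : n * (exp (-(n * s1)) / n) ≤ κ / n / 8 := by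
    have e : n * (exp (-(n * s1)) / n) = exp (-(n * s1)) := by
      field_simp
    rw [e, exp_neg]
    have h4 := quadratic_le_exp_of_nonneg (x := n * s1) (by positivity)
    have h5 : 16 ≤ n * (κ * s1 ^ 2) := by
      rwa [div_le_iff₀ (by positivity)] at h2
    rw [inv_le_comm₀ (exp_pos _) (by positivity), inv_div, div_div_eq_mul_div]
    have h6 : n * 8 / κ ≤ (n * s1) ^ 2 / 2 := by
      rw [div_le_div_iff₀ hκ (by norm_num)]
      nlinarith
    have h7 : 8 / (κ / n) = n * 8 / κ := by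
      field_simp
    nlinarith [mul_pos hn0 hs1]
  -- third term
  have b3 : n * (exp (-(2 * (n - 2))) * (1 / 2)) ≤ κ / n / 8 := by
    have h4 := Real.pow_div_factorial_le_exp (x := 2 * (n - 2)) (by linarith) 3
    have h5 : 24 ≤ n * κ := by
      rwa [div_le_iff₀ (by positivity)] at h3
    have h6 : n ^ 3 / 6 ≤ exp (2 * (n - 2)) := by
      refine le_trans ?_ h4
      have : ((3 : ℕ).factorial : ℝ) = 6 := by norm_num [Nat.factorial]
      rw [this]
      apply div_le_div_of_nonneg_right _ (by norm_num)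
      exact pow_le_pow_left₀ hn0.le (by linarith) 3
    rw [exp_neg]
    have h7 : n ^ 2 * 4 ≤ κ * exp (2 * (n - 2)) := by
      have : κ * (n ^ 3 / 6) ≤ κ * exp (2 * (n - 2)) := mul_le_mul_of_nonneg_left h6 hκ.le
      nlinarith [mul_pos hn0 hn0]
    have h8 := exp_pos (2 * (n - 2))
    rw [show n * ((exp (2 * (n - 2)))⁻¹ * (1 / 2)) = n / (2 * exp (2 * (n - 2))) by
      field_simp, div_div, div_le_div_iff₀ (by positivity) (by positivity)]
    nlinarith
  have e3 : κ / (4 * n) = κ / n / 4 := by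
    field_simp
  rw [e3]
  linarith

theorem flat_loses : ∃ c > 0, ∀ᶠ α : ℝ in atTop, ∀ n : ℕ, 3 ≤ n → (n : ℝ) ≤ c * α →
    ENNReal.ofReal n * Mom α n < ENNReal.ofReal (AA α) := by
  obtain ⟨s1, hs1, κ, hκ, hs11, hev⟩ := Phi_strong_unif
  obtain ⟨n1, hn1⟩ := exists_nat_ge (4 + 4 * κ + 16 / (κ * s1 ^ 2) + 24 / κ)
  have hδ : 0 < 0.002 * exp (-(1.5 * (n1 : ℝ))) := by positivity
  have hA := AA_tendsto.eventually (eventually_gt_nhds
    (show (1 - 0.002 * exp (-(1.5 * (n1 : ℝ)))) < 1 by linarith))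
  refine ⟨κ / 8, by positivity, ?_⟩
  filter_upwards [hev, tail_inf, slope_ball, hA, eventually_gt_atTop 1] with α h1 h2 h3 h4 hα
    n hn hnα
  have hApos := AA_pos hα
  have hn3 : (3 : ℝ) ≤ n := by exact_mod_cast hn
  have hn0 : (0 : ℝ) < n := by linarith
  rcases le_or_gt (n : ℝ) n1 with hc | hc
  · refine (h3.1 n (by linarith)).trans_lt ?_
    rw [ENNReal.ofReal_lt_ofReal_iff hApos]
    refine lt_of_le_of_lt ?_ h4
    have h5 : exp (-(1.5 * (n1 : ℝ))) ≤ exp (-(1.5 * ((n : ℝ) - 2))) :=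
      exp_le_exp.2 (by linarith)
    have h6 : exp (-(1.5 * ((n : ℝ) - 2))) ≤ ((n : ℝ) - 2) * exp (-(1.5 * ((n : ℝ) - 2))) := by
      have := exp_pos (-(1.5 * ((n : ℝ) - 2)))
      nlinarith
    nlinarith
  · have hexp := Phi_exp_sq hα hs1 hs11 hκ h1.1 h1.2
    have hM := c11_big hα hs1 hs11 hκ h1.1 hexp h2 hn
    have hM2 : Mom α 2 ≤ ENNReal.ofReal (1 / 2) := by
      have h5 := two_moment hα
      have h6 : ENNReal.ofReal (AA α) ≤ ENNReal.ofReal 1 :=
        ENNReal.ofReal_le_ofReal (AA_lt_one hα).le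
      have h7 := h5.trans h6
      rw [show (1 : ℝ) = 2 * (1 / 2) by norm_num, ENNReal.ofReal_mul (by norm_num)] at h7
      exact (ENNReal.mul_le_mul_iff_right (by simp) ENNReal.ofReal_ne_top).1 h7
    have hpos1 : 0 ≤ exp (κ / n) / (n + 2 * κ) := by positivity
    have hpos2 : 0 ≤ exp (-(n * s1)) / n := by positivity
    have hpos3 : 0 ≤ exp (-(2 * ((n : ℝ) - 2))) * (1 / 2) := by positivity
    have hkey : ENNReal.ofReal n * Mom α n ≤ ENNReal.ofReal (1 - κ / (4 * n)) := by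
      calc ENNReal.ofReal n * Mom α n ≤ ENNReal.ofReal n *
            (ENNReal.ofReal (exp (κ / n) / (n + 2 * κ)) +
            (ENNReal.ofReal (exp (-(n * s1)) / n) +
            ENNReal.ofReal (exp (-(2 * ((n : ℝ) - 2)))) * ENNReal.ofReal (1 / 2))) := by
            gcongr
            exact hM.trans (by gcongr)
        _ = ENNReal.ofReal (n * (exp (κ / n) / (n + 2 * κ)) + (n * (exp (-(n * s1)) / n) +
            n * (exp (-(2 * ((n : ℝ) - 2))) * (1 / 2)))) := by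
            rw [← ENNReal.ofReal_mul (exp_pos _).le, ← ENNReal.ofReal_add hpos2 hpos3,
              ← ENNReal.ofReal_add hpos1 (by positivity), ← ENNReal.ofReal_mul hn0.le]
            congr 1
            ring
        _ ≤ _ := by
            apply ENNReal.ofReal_le_ofReal
            have g1 : 0 < 16 / (κ * s1 ^ 2) := by positivity
            have g2 : 0 < 24 / κ := by positivity
            exact c11_num hκ hs1 (by linarith) (by linarith) (by linarith) (by linarith)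
    refine hkey.trans_lt ?_
    rw [ENNReal.ofReal_lt_ofReal_iff hApos]
    refine lt_of_lt_of_le ?_ (AA_ge hα)
    have hα0 : 0 < α := by linarith
    have h8 : 1 / α ≤ κ / (8 * n) := by
      rw [div_le_div_iff₀ hα0 (by positivity)]
      nlinarith
    have h9 : κ / (8 * n) < κ / (4 * n) := by
      apply div_lt_div_of_pos_left hκ (by positivity)
      linarith
    linarith

end LpSec

end
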