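import Mathlib
import Pool.Agent.Lib.MP_1dbab3_gt.C06PairVal
import Pool.Agent.Lib.MP_1dbab3_gt.C08Local
import Pool.Agent.Lib.MP_1dbab3_gt.C09Near
import Pool.Agent.Lib.MP_1dbab3_gt.C10Mid
import Pool.Agent.Lib.MP_1dbab3_gt.C11Thr

section
/-!
# C12 Fin: the two candidates, for large `p`, in all dimensions
-/

open Real MeasureTheory Set Filter Topology

namespace LpSec

/-- The vector `(e_1 + e_2)/√2`. -/
noncomputable def pairV (n : ℕ) : EuclideanSpace ℂ (Fin n) :=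
  WithLp.toLp 2 (fun i => if (i : ℕ) < 2 then ((1 / √2 : ℝ) : ℂ) else 0)

/-- Two coordinates of modulus `1/√2`. -/
def PairT {n : ℕ} (a : EuclideanSpace ℂ (Fin n)) : Prop :=
  ∃ i j, i ≠ j ∧ ‖a i‖ = 1 / √2 ∧ ‖a j‖ = 1 / √2

/-- All coordinates of modulus `1/√n`. -/
def FlatT {n : ℕ} (a : EuclideanSpace ℂ (Fin n)) : Prop := ∀ i, ‖a i‖ = 1 / √(n : ℝ)

theorem sq_inv_sqrt_two : (1 / √2 : ℝ) ^ 2 = 1 / 2 := by
  rw [div_pow, one_pow, Real.sq_sqrt (by norm_num)]

theorem norm_sq_half {n : ℕ} (a : EuclideanSpace ℂ (Fin n)) (i : Fin n) :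
    ‖a i‖ ^ 2 = 1 / 2 ↔ ‖a i‖ = 1 / √2 := by
  constructor
  · intro h
    have h2 : ‖a i‖ ^ 2 = (1 / √2 : ℝ) ^ 2 := by rw [h, sq_inv_sqrt_two]
    exact (pow_left_inj₀ (norm_nonneg _) (by positivity) (by norm_num)).1 h2
  · intro h
    rw [h, sq_inv_sqrt_two]

theorem pairV_zero (m : ℕ) : ‖pairV (m + 2) 0‖ = 1 / √2 := by
  have h : pairV (m + 2) 0 = ((1 / √2 : ℝ) : ℂ) := by
    change (if ((0 : Fin (m + 2)) : ℕ) < 2 then ((1 / √2 : ℝ) : ℂ) else 0) = _
    rw [if_pos (by simp)]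
  rw [h, Complex.norm_real, Real.norm_of_nonneg (by positivity)]

theorem pairV_one (m : ℕ) : ‖pairV (m + 2) 1‖ = 1 / √2 := by
  have h : pairV (m + 2) 1 = ((1 / √2 : ℝ) : ℂ) := by
    change (if ((1 : Fin (m + 2)) : ℕ) < 2 then ((1 / √2 : ℝ) : ℂ) else 0) = _
    rw [if_pos (by simp)]
  rw [h, Complex.norm_real, Real.norm_of_nonneg (by positivity)]

theorem pairV_norm (m : ℕ) : ‖pairV (m + 2)‖ = 1 := by
  rw [EuclideanSpace.norm_eq]
  have h : ∑ i : Fin (m + 2), ‖pairV (m + 2) i‖ ^ 2 = 1 := by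
    rw [Fin.sum_univ_succ, Fin.sum_univ_succ]
    have h1 : (Fin.succ 0 : Fin (m + 2)) = 1 := rfl
    rw [h1, pairV_zero, pairV_one, sq_inv_sqrt_two]
    have h2 : ∑ i : Fin m, ‖pairV (m + 2) i.succ.succ‖ ^ 2 = 0 := by
      refine Finset.sum_eq_zero fun i _ => ?_
      have h3 : pairV (m + 2) i.succ.succ = 0 := by
        change (if ((i.succ.succ : Fin (m + 2)) : ℕ) < 2 then ((1 / √2 : ℝ) : ℂ) else 0) = _
        rw [if_neg (by simp)]
      rw [h3, norm_zero]
      norm_num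
    rw [h2]
    norm_num
  rw [h, Real.sqrt_one]

/-- the comparison at the level of `sec` -/
theorem sec_max {α u0 : ℝ} (hα : 1 < α) (hu0 : 0 < u0) (hu4 : u0 < 1 / 4)
    (hloc : ∀ (n : ℕ) (x : Fin n → ℝ), (∀ i, 0 ≤ x i) → ∑ i, x i = 1 → (∀ i, x i ≤ u0) →
      (x ≠ fun _ => 1 / (n : ℝ)) → J α x < J α (fun _ : Fin n => 1 / (n : ℝ)))
    (hmid : ∀ (m : ℕ) (a : EuclideanSpace ℂ (Fin (m + 1))), ‖a‖ = 1 → (∃ i, u0 ≤ ‖a i‖ ^ 2) →
      (¬ ∃ j k, j ≠ k ∧ 0.498 ≤ ‖a j‖ ^ 2 ∧ 0.498 ≤ ‖a k‖ ^ 2) →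
      sec α a < ENNReal.ofReal (cst α m * DD α * AA α))
    (hnear : ∀ (m : ℕ) (a : EuclideanSpace ℂ (Fin (m + 1))), ‖a‖ = 1 →
      ∀ j k, j ≠ k → 0.498 ≤ ‖a j‖ ^ 2 → 0.498 ≤ ‖a k‖ ^ 2 →
      ¬ (‖a j‖ ^ 2 = 1 / 2 ∧ ‖a k‖ ^ 2 = 1 / 2) →
      sec α a < ENNReal.ofReal (cst α m * DD α * AA α))
    {m : ℕ} (hm : 1 ≤ m) (a : EuclideanSpace ℂ (Fin (m + 1))) (ha : ‖a‖ = 1) :
    sec α a ≤ max (ENNReal.ofReal (cst α m * DD α * AA α)) (sec α (diagV (m + 1))) ∧
    (sec α a = max (ENNReal.ofReal (cst α m * DD α * AA α)) (sec α (diagV (m + 1))) ↔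
      (PairT a ∧ sec α (diagV (m + 1)) ≤ ENNReal.ofReal (cst α m * DD α * AA α)) ∨
      (FlatT a ∧ ENNReal.ofReal (cst α m * DD α * AA α) ≤ sec α (diagV (m + 1)))) := by
  set P := ENNReal.ofReal (cst α m * DD α * AA α) with hP
  have hn0 : (0 : ℝ) < ((m + 1 : ℕ) : ℝ) := by positivity
  have hdn : ‖diagV (m + 1)‖ = 1 := diagV_norm (by omega)
  have hcD : 0 < cst α m * DD α := mul_pos (cst_pos hα m) (DD_pos (by linarith))
  -- flat vectors have the same section
  have hflat : FlatT a → P ≤ sec α (diagV (m + 1)) → sec α a = sec α (diagV (m + 1)) := by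
    intro hf hPD
    have hai : ∀ i, ‖a i‖ ^ 2 = 1 / ((m + 1 : ℕ) : ℝ) := by
      intro i
      rw [hf i, div_pow, one_pow, Real.sq_sqrt hn0.le]
    rcases Nat.lt_or_ge m 2 with h2 | h2
    · have hm1 : m = 1 := by omega
      subst hm1
      have h3 : ((1 + 1 : ℕ) : ℝ) = 2 := by norm_num
      have e1 := sec_pair hα a ha 0 1 (by decide) (by rw [hai, h3]) (by rw [hai, h3])
      have e2 := sec_pair hα (diagV (1 + 1)) hdn 0 1 (by decide) (by rw [diagV_apply_sq, h3])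
        (by rw [diagV_apply_sq, h3])
      rw [e1, e2]
    · have h3 : (3 : ℝ) ≤ ((m + 1 : ℕ) : ℝ) := by exact_mod_cast (by omega : 3 ≤ m + 1)
      have h13 : 1 / ((m + 1 : ℕ) : ℝ) ≤ 1 / 3 := one_div_le_one_div_of_le (by norm_num) h3
      rcases le_or_gt u0 (1 / ((m + 1 : ℕ) : ℝ)) with h4 | h4
      · exfalso
        have h5 := hmid m (diagV (m + 1)) hdn ⟨0, by rw [diagV_apply_sq]; exact h4⟩ (by
          rintro ⟨j, k, -, h6, -⟩
          rw [diagV_apply_sq] at h6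
          linarith)
        exact absurd hPD (not_le.2 h5)
      · have h5 := asym_sec_eq hα a ha hu0 hu4 (fun i => by rw [hai i]; exact h4.le)
        have h6 := asym_sec_eq hα (diagV (m + 1)) hdn hu0 hu4
          (fun i => by rw [diagV_apply_sq]; exact h4.le)
        rw [h5, h6]
        congr 3
        funext i
        rw [hai, diagV_apply_sq]
  by_cases hpair : PairT a
  · obtain ⟨i, j, hij, hi, hj⟩ := hpair
    have hs : sec α a = P :=
      sec_pair hα a ha i j hij ((norm_sq_half a i).2 hi) ((norm_sq_half a j).2 hj)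
    rw [hs]
    refine ⟨le_max_left _ _, ⟨fun h => Or.inl ⟨⟨i, j, hij, hi, hj⟩, ?_⟩, ?_⟩⟩
    · rw [h]
      exact le_max_right _ _
    · rintro (⟨-, h⟩ | ⟨hf, h⟩)
      · rw [max_eq_left h]
      · rw [← hs, hflat hf h, max_self]
  · -- the value is smaller than `P` unless all coordinates are small
    have hlt : sec α a < P →
        sec α a ≤ max P (sec α (diagV (m + 1))) ∧
        (sec α a = max P (sec α (diagV (m + 1))) ↔
          (PairT a ∧ sec α (diagV (m + 1)) ≤ P) ∨ (FlatT a ∧ P ≤ sec α (diagV (m + 1)))) := by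
      intro h
      have h1 : sec α a < max P (sec α (diagV (m + 1))) := lt_of_lt_of_le h (le_max_left _ _)
      refine ⟨h1.le, ⟨fun h2 => absurd h2 h1.ne, ?_⟩⟩
      rintro (⟨h2, -⟩ | ⟨hf, h2⟩)
      · exact absurd h2 hpair
      · rw [hflat hf h2, max_eq_right h2]
    by_cases hn : ∃ j k, j ≠ k ∧ 0.498 ≤ ‖a j‖ ^ 2 ∧ 0.498 ≤ ‖a k‖ ^ 2
    · obtain ⟨j, k, hjk, hj, hk⟩ := hn
      refine hlt (hnear m a ha j k hjk hj hk fun h => hpair ⟨j, k, hjk, ?_, ?_⟩)
      · exact (norm_sq_half a j).1 h.1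
      · exact (norm_sq_half a k).1 h.2
    · by_cases hbig : ∃ i, u0 ≤ ‖a i‖ ^ 2
      · exact hlt (hmid m a ha hbig hn)
      · push Not at hbig
        have hsum := asym_sum a ha
        have hsm : ∀ i, ‖a i‖ ^ 2 ≤ u0 := fun i => (hbig i).le
        have hnu : 1 / ((m + 1 : ℕ) : ℝ) ≤ u0 := by
          rw [div_le_iff₀ hn0, ← hsum]
          calc ∑ i, ‖a i‖ ^ 2 ≤ ∑ _i : Fin (m + 1), u0 := Finset.sum_le_sum fun i _ => hsm i
            _ = u0 * ((m + 1 : ℕ) : ℝ) := by simp; ring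
        have h5 := sec_eq hα a ha (prod_integrable hα (x := fun i => ‖a i‖ ^ 2)
          (fun i => by positivity) hsum hu0 hu4 hsm)
        have h6 := sec_eq hα (diagV (m + 1)) hdn (prod_integrable hα
          (x := fun i => ‖diagV (m + 1) i‖ ^ 2) (fun i => by positivity) (asym_sum _ hdn) hu0 hu4
          (fun i => by rw [diagV_apply_sq]; exact hnu))
        simp only [diagV_apply_sq] at h6
        by_cases hf : (fun i => ‖a i‖ ^ 2) = fun _ => 1 / ((m + 1 : ℕ) : ℝ)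
        · have hF : FlatT a := (flat_iff a).2 hf
          have heq : sec α a = sec α (diagV (m + 1)) := by
            rw [← ENNReal.toReal_eq_toReal_iff' (sec_ne_top hα a) (sec_ne_top hα _), h5, h6]
            have : ∀ i, ‖a i‖ ^ 2 = 1 / ((m + 1 : ℕ) : ℝ) := fun i => congrFun hf i
            simp only [this]
          rw [heq]
          refine ⟨le_max_right _ _, ⟨fun h => Or.inr ⟨hF, ?_⟩, ?_⟩⟩
          · rw [h]
            exact le_max_left _ _
          · rintro (⟨h, -⟩ | ⟨-, h⟩)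
            · exact absurd h hpair
            · rw [max_eq_right h]
        · have hJ := hloc (m + 1) (fun i => ‖a i‖ ^ 2) (fun i => by positivity) hsum hsm hf
          have hlt2 : sec α a < sec α (diagV (m + 1)) := by
            rw [← ENNReal.toReal_lt_toReal (sec_ne_top hα a) (sec_ne_top hα _), h5, h6]
            exact mul_lt_mul_of_pos_left hJ hcD
          have h1 : sec α a < max P (sec α (diagV (m + 1))) :=
            lt_of_lt_of_le hlt2 (le_max_right _ _)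
          refine ⟨h1.le, ⟨fun h2 => absurd h2 h1.ne, ?_⟩⟩
          rintro (⟨h2, -⟩ | ⟨hF, -⟩)
          · exact absurd h2 hpair
          · exact absurd ((flat_iff a).1 hF) hf

private lemma c12_scale (g : ℝ → ENNReal) {c : ℝ} (hc : 0 < c) :
    ∫⁻ s in Ioi (0 : ℝ), g (c * s) = ENNReal.ofReal (1 / c) * ∫⁻ s in Ioi (0 : ℝ), g s := by
  have hemb : MeasurableEmbedding (fun x : ℝ => c * x) :=
    (Homeomorph.mulLeft₀ c hc.ne').measurableEmbedding
  have h1 : ∫⁻ s in Ioi (0 : ℝ), g s = ENNReal.ofReal c * ∫⁻ s in Ioi (0 : ℝ), g (c * s) := by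
    rw [← lintegral_indicator measurableSet_Ioi, ← lintegral_indicator measurableSet_Ioi]
    conv_lhs => rw [← Real.smul_map_volume_mul_left hc.ne', abs_of_pos hc]
    rw [lintegral_smul_measure, hemb.lintegral_map, smul_eq_mul]
    congr 2
    ext s
    by_cases hs : 0 < s
    · rw [indicator_of_mem (show c * s ∈ Ioi 0 from mul_pos hc hs),
        indicator_of_mem (show s ∈ Ioi 0 from hs)]
    · rw [indicator_of_notMem (show c * s ∉ Ioi 0 from fun h => hs (by
          have h' : 0 < c * s := h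
          exact (mul_pos_iff_of_pos_left hc).1 h')),
        indicator_of_notMem (show s ∉ Ioi 0 from hs)]
  rw [h1, ← mul_assoc, ← ENNReal.ofReal_mul (by positivity), one_div,
    inv_mul_cancel₀ hc.ne', ENNReal.ofReal_one, one_mul]

/-- flat vectors: upper bound by the moment -/
theorem sec_diag_le_mom {α : ℝ} (hα : 1 < α) (m : ℕ) :
    sec α (diagV (m + 1)) ≤ ENNReal.ofReal (cst α m * DD α) *
      (ENNReal.ofReal ((m + 1 : ℕ) : ℝ) * Mom α ((m + 1 : ℕ) : ℝ)) := by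
  have hn0 : (0 : ℝ) < ((m + 1 : ℕ) : ℝ) := by positivity
  refine (sec_le_fourier hα (diagV (m + 1)) (diagV_norm (by omega))).trans ?_
  refine mul_le_mul' le_rfl (le_of_eq ?_)
  simp only [diagV_apply_sq]
  have e : ∀ s : ℝ, ∏ _i : Fin (m + 1), ENNReal.ofReal |Phi α (1 / ((m + 1 : ℕ) : ℝ) * s)| =
      ENNReal.ofReal (|Phi α (1 / ((m + 1 : ℕ) : ℝ) * s)| ^ (((m + 1 : ℕ) : ℝ))) := by
    intro s
    rw [Finset.prod_const, Finset.card_univ, Fintype.card_fin, rpow_natCast,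
      ENNReal.ofReal_pow (abs_nonneg _)]
  simp only [e]
  rw [c12_scale (fun s => ENNReal.ofReal (|Phi α s| ^ (((m + 1 : ℕ) : ℝ)))) (by positivity),
    one_div_one_div]
  rfl

theorem final3 : ∃ p2 : ℝ, 2 < p2 ∧ ∃ c > 0, ∃ C : ℝ, ∀ p : ℝ, p2 ≤ p →
    (∀ n : ℕ, 2 ≤ n →
      secVol p (pairV n) = ENNReal.ofReal (2 ^ (1 - 2 / p)) * volume (ball p (n - 1)) ∧
      ∀ a : EuclideanSpace ℂ (Fin n), ‖a‖ = 1 →
      secVol p a ≤ max (secVol p (pairV n)) (secVol p (diagV n)) ∧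
      (secVol p a = max (secVol p (pairV n)) (secVol p (diagV n)) ↔
        (PairT a ∧ secVol p (diagV n) ≤ secVol p (pairV n)) ∨
        (FlatT a ∧ secVol p (pairV n) ≤ secVol p (diagV n)))) ∧
    (∀ n : ℕ, 3 ≤ n → (n : ℝ) ≤ c * p → secVol p (diagV n) < secVol p (pairV n)) ∧
    (∀ n : ℕ, C * p ≤ (n : ℝ) → secVol p (pairV n) < secVol p (diagV n)) := by
  obtain ⟨u0, hu0, hu4, hloc⟩ := local_unif
  obtain ⟨C, hC, hfw⟩ := flat_wins
  obtain ⟨c, hc, hfl⟩ := flat_loses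
  obtain ⟨α2, hα2⟩ := eventually_atTop.1
    ((hloc.and (mid_pair hu0)).and (near_pair.and (hfw.and hfl)))
  refine ⟨2 * max α2 2, ?_, c / 2, by positivity, (C + 5) / 2, fun p hp => ?_⟩
  · have := le_max_right α2 2
    linarith
  have hmax := le_max_right α2 2
  have hα2' : α2 ≤ p / 2 := by
    have := le_max_left α2 2
    linarith
  have hp2 : 2 < p := by linarith
  have hα : 1 < p / 2 := by linarith
  obtain ⟨⟨hl, hmid⟩, hnear, hw, hlo⟩ := hα2 (p / 2) hα2'
  -- division by the Gamma factor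
  have hG : ∀ m : ℕ, ENNReal.ofReal (Gamma (1 + m / (p / 2))) ≠ 0 := fun m => by
    have : 0 < Gamma (1 + m / (p / 2)) := Gamma_pos_of_pos (by positivity)
    simpa using this
  have hdle : ∀ (m : ℕ) (x y : ENNReal), x / ENNReal.ofReal (Gamma (1 + m / (p / 2))) ≤
      y / ENNReal.ofReal (Gamma (1 + m / (p / 2))) ↔ x ≤ y := fun m x y => by
    rw [ENNReal.div_le_iff (hG m) ENNReal.ofReal_ne_top,
      ENNReal.div_mul_cancel (hG m) ENNReal.ofReal_ne_top]
  have hpv : ∀ m : ℕ, 1 ≤ m → ‖pairV (m + 1)‖ = 1 ∧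
      sec (p / 2) (pairV (m + 1)) = ENNReal.ofReal (cst (p / 2) m * DD (p / 2) * AA (p / 2)) := by
    intro m hm
    obtain ⟨k, rfl⟩ : ∃ k, m = k + 1 := ⟨m - 1, by omega⟩
    refine ⟨pairV_norm k, ?_⟩
    refine sec_pair hα (pairV (k + 2)) (pairV_norm k) 0 1 ?_ ?_ ?_
    · intro h
      have := congrArg Fin.val h
      simp at this
    · exact (norm_sq_half _ _).2 (pairV_zero k)
    · exact (norm_sq_half _ _).2 (pairV_one k)
  refine ⟨?_, ?_, ?_⟩
  · intro n hn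
    obtain ⟨m, rfl⟩ : ∃ m, n = m + 1 := ⟨n - 1, by omega⟩
    have hm : 1 ≤ m := by omega
    obtain ⟨hpn, hps⟩ := hpv m hm
    have hdn : ‖diagV (m + 1)‖ = 1 := diagV_norm (by omega)
    constructor
    · rw [Nat.add_sub_cancel, secVol_eq hp2 hm _ hpn, hps, ball_vol_eq hp2 hm]
      have hc := cst_pos hα m
      have hD := DD_pos (α := p / 2) (by linarith)
      have hGp : 0 < Gamma (1 + m / (p / 2)) := Gamma_pos_of_pos (by positivity)
      have hDA : DD (p / 2) * AA (p / 2) = 2 ^ (1 - 2 / p) := by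
        unfold AA
        have e1 : 1 / (p / 2) = 2 / p := by field_simp
        rw [e1]
        field_simp
      rw [← ENNReal.ofReal_div_of_pos hGp, ← ENNReal.ofReal_mul (by positivity), mul_assoc, hDA]
      congr 1
      ring
    · intro a ha
      obtain ⟨h1, h2⟩ := sec_max hα hu0 hu4 hl hmid hnear hm a ha
      rw [← hps] at h1 h2
      rw [secVol_eq hp2 hm a ha, secVol_eq hp2 hm _ hpn, secVol_eq hp2 hm _ hdn]
      have hmx : max (sec (p / 2) (pairV (m + 1)) / ENNReal.ofReal (Gamma (1 + m / (p / 2))))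
          (sec (p / 2) (diagV (m + 1)) / ENNReal.ofReal (Gamma (1 + m / (p / 2)))) =
          max (sec (p / 2) (pairV (m + 1))) (sec (p / 2) (diagV (m + 1))) /
            ENNReal.ofReal (Gamma (1 + m / (p / 2))) := by
        rcases le_total (sec (p / 2) (pairV (m + 1))) (sec (p / 2) (diagV (m + 1))) with h | h
        · rw [max_eq_right h, max_eq_right ((hdle m _ _).2 h)]
        · rw [max_eq_left h, max_eq_left ((hdle m _ _).2 h)]
      rw [hmx]
      refine ⟨(hdle m _ _).2 h1, ?_⟩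
      rw [hdle, hdle, ← h2]
      constructor
      · intro h
        exact le_antisymm ((hdle m _ _).1 h.le) ((hdle m _ _).1 h.ge)
      · intro h
        rw [h]
  · intro n hn hnc
    obtain ⟨m, rfl⟩ : ∃ m, n = m + 1 := ⟨n - 1, by omega⟩
    have hm : 1 ≤ m := by omega
    obtain ⟨hpn, hps⟩ := hpv m hm
    have hdn : ‖diagV (m + 1)‖ = 1 := diagV_norm (by omega)
    have h1 := hlo (m + 1) hn (by linarith)
    have hcD : 0 < cst (p / 2) m * DD (p / 2) := mul_pos (cst_pos hα m) (DD_pos (by linarith))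
    have h2 : sec (p / 2) (diagV (m + 1)) < sec (p / 2) (pairV (m + 1)) := by
      rw [hps, ENNReal.ofReal_mul hcD.le]
      refine lt_of_le_of_lt (sec_diag_le_mom hα m) ?_
      have h3 : ENNReal.ofReal (cst (p / 2) m * DD (p / 2)) ≠ 0 := by simpa using hcD
      exact ENNReal.mul_lt_mul_right h3 ENNReal.ofReal_ne_top h1
    rw [secVol_eq hp2 hm _ hpn, secVol_eq hp2 hm _ hdn]
    exact not_le.1 fun h => absurd ((hdle m _ _).1 h) (not_le.2 h2)
  · intro n hn
    have h5 : (5 : ℝ) ≤ n := by nlinarith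
    have h5' : 5 ≤ n := by exact_mod_cast h5
    obtain ⟨m, rfl⟩ : ∃ m, n = m + 1 := ⟨n - 1, by omega⟩
    have hm : 1 ≤ m := by omega
    obtain ⟨hpn, hps⟩ := hpv m hm
    have hdn : ‖diagV (m + 1)‖ = 1 := diagV_norm (by omega)
    have h1 := hw (m + 1) (by nlinarith)
    have hcD : 0 < cst (p / 2) m * DD (p / 2) := mul_pos (cst_pos hα m) (DD_pos (by linarith))
    have hA := AA_pos hα
    have h2 : sec (p / 2) (pairV (m + 1)) < sec (p / 2) (diagV (m + 1)) := by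
      rw [hps, asym_sec_diag hα (by omega), ENNReal.ofReal_lt_ofReal_iff (by
        have : 0 < J (p / 2) (fun _ : Fin (m + 1) => 1 / ((m + 1 : ℕ) : ℝ)) := hA.trans h1
        positivity)]
      exact mul_lt_mul_of_pos_left h1 hcD
    rw [secVol_eq hp2 hm _ hpn, secVol_eq hp2 hm _ hdn]
    exact not_le.1 fun h => absurd ((hdle m _ _).1 h) (not_le.2 h2)

end LpSec

end
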