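import Mathlib
import Pool.Agent.Lib.MP_1dbab3_gt.Base

section

/-!
# Laguerre polynomials: orthonormality (row LC-A1)
-/

open Real MeasureTheory Set Finset

namespace LpSec

/-- `(n+i)!/n!` -/
noncomputable def lcA (i n : ℕ) : ℝ := ((n + i).factorial : ℝ) / (n.factorial : ℝ)

/-- the Laguerre polynomial -/
noncomputable def Lp (k : ℕ) (r : ℝ) : ℝ :=
  ∑ j ∈ Finset.range (k + 1), ((-1) ^ j * (k.choose j : ℝ) / (j.factorial : ℝ)) * r ^ j

theorem lcA_succ (i n : ℕ) : lcA (i + 1) (n + 1) - lcA (i + 1) n = (i + 1) * lcA i (n + 1) := by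
  unfold lcA
  have e1 : (n + 1 + (i + 1)).factorial = (n + i + 2) * (n + 1 + i).factorial := by
    rw [show n + 1 + (i + 1) = (n + 1 + i) + 1 by ring, Nat.factorial_succ]
    congr 1
    ring
  have e2 : (n + (i + 1)).factorial = (n + 1 + i).factorial := by
    congr 1; ring
  have e3 : (n + 1).factorial = (n + 1) * n.factorial := Nat.factorial_succ n
  rw [e1, e2, e3]
  have h1 : (n.factorial : ℝ) ≠ 0 := by exact_mod_cast Nat.factorial_ne_zero _
  have h2 : ((n : ℝ) + 1) ≠ 0 := by positivity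
  push_cast
  field_simp
  ring

theorem lcA_zero (n : ℕ) : lcA 0 n = 1 := by
  unfold lcA
  have h1 : (n.factorial : ℝ) ≠ 0 := by exact_mod_cast Nat.factorial_ne_zero _
  rw [Nat.add_zero, div_self h1]

/-- alternating binomial sum -/
noncomputable def lcT (i k c : ℕ) : ℝ :=
  ∑ j ∈ Finset.range (k + 1), (-1) ^ j * (k.choose j : ℝ) * lcA i (j + c)

theorem lcT_rec (g : ℕ → ℝ) (k : ℕ) :
    ∑ j ∈ Finset.range (k + 2), (-1 : ℝ) ^ j * ((k + 1).choose j : ℝ) * g j =
      ∑ j ∈ Finset.range (k + 1), (-1 : ℝ) ^ j * (k.choose j : ℝ) * g j -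
      ∑ j ∈ Finset.range (k + 1), (-1 : ℝ) ^ j * (k.choose j : ℝ) * g (j + 1) := by
  rw [Finset.sum_range_succ' _ (k + 1)]
  have h1 : ∀ j ∈ Finset.range (k + 1), (-1 : ℝ) ^ (j + 1) * ((k + 1).choose (j + 1) : ℝ) * g (j + 1) =
      (-1 : ℝ) ^ (j + 1) * (k.choose (j + 1) : ℝ) * g (j + 1) -
        (-1 : ℝ) ^ j * (k.choose j : ℝ) * g (j + 1) := by
    intro j _
    rw [Nat.choose_succ_succ]
    push_cast
    ring
  rw [Finset.sum_congr rfl h1, Finset.sum_sub_distrib]
  have h2 : ∑ j ∈ Finset.range (k + 1), (-1 : ℝ) ^ j * (k.choose j : ℝ) * g j =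
      ∑ j ∈ Finset.range (k + 1), (-1 : ℝ) ^ (j + 1) * (k.choose (j + 1) : ℝ) * g (j + 1) +
        (-1 : ℝ) ^ 0 * ((k + 1).choose 0 : ℝ) * g 0 := by
    have h3 := Finset.sum_range_succ' (fun j => (-1 : ℝ) ^ j * (k.choose j : ℝ) * g j) (k + 1)
    have h4 := Finset.sum_range_succ (fun j => (-1 : ℝ) ^ j * (k.choose j : ℝ) * g j) (k + 1)
    rw [h4] at h3
    simp only [Nat.choose_succ_self, Nat.cast_zero, mul_zero, zero_mul, add_zero,
      Nat.choose_zero_right] at h3 ⊢
    exact h3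
  rw [h2]
  ring

theorem lcT_succ (i k c : ℕ) : lcT (i + 1) (k + 1) c = -((i + 1) * lcT i k (c + 1)) := by
  unfold lcT
  rw [lcT_rec (fun j => lcA (i + 1) (j + c)) k, ← Finset.sum_sub_distrib, Finset.mul_sum,
    ← Finset.sum_neg_distrib]
  refine Finset.sum_congr rfl fun j _ => ?_
  have h := lcA_succ i (j + c)
  rw [show j + 1 + c = j + c + 1 by ring, show j + (c + 1) = j + c + 1 by ring]
  linear_combination (-((-1 : ℝ) ^ j * (k.choose j : ℝ))) * h

theorem lcT_zero_succ (k c : ℕ) : lcT 0 (k + 1) c = 0 := by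
  unfold lcT
  rw [lcT_rec (fun j => lcA 0 (j + c)) k]
  simp only [lcA_zero, sub_self]

theorem lcT_lt : ∀ (k i c : ℕ), i < k → lcT i k c = 0 := by
  intro k
  induction k with
  | zero => intro i c h; exact absurd h (Nat.not_lt_zero _)
  | succ k ih =>
    intro i c h
    cases i with
    | zero => exact lcT_zero_succ k c
    | succ i => rw [lcT_succ, ih i (c + 1) (by omega), mul_zero, neg_zero]

theorem lcT_eq : ∀ (k c : ℕ), lcT k k c = (-1) ^ k * (k.factorial : ℝ) := by
  intro k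
  induction k with
  | zero => intro c; simp [lcT, lcA_zero]
  | succ k ih =>
    intro c
    rw [lcT_succ, ih, Nat.factorial_succ]
    push_cast
    ring

theorem lc_pow_exp_int (n : ℕ) : IntegrableOn (fun t : ℝ => t ^ n * exp (-t)) (Ioi 0) ∧
    ∫ t in Ioi (0 : ℝ), t ^ n * exp (-t) = (n.factorial : ℝ) := by
  have h1 := Real.Gamma_nat_eq_factorial n
  have h2 := Real.Gamma_eq_integral (s := (n : ℝ) + 1) (by positivity)
  have h3 := Real.GammaIntegral_convergent (s := (n : ℝ) + 1) (by positivity)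
  have e : ∀ t ∈ Ioi (0 : ℝ), exp (-t) * t ^ ((n : ℝ) + 1 - 1) = t ^ n * exp (-t) := by
    intro t ht
    rw [add_sub_cancel_right, rpow_natCast, mul_comm]
  constructor
  · exact h3.congr_fun e measurableSet_Ioi
  · rw [← setIntegral_congr_fun measurableSet_Ioi e, ← h2, h1]

/-- `∫ r^i L_k e^{-r}`. -/
theorem lc_pow_Lp (i k : ℕ) : IntegrableOn (fun t : ℝ => t ^ i * Lp k t * exp (-t)) (Ioi 0) ∧
    ∫ t in Ioi (0 : ℝ), t ^ i * Lp k t * exp (-t) = lcT i k 0 := by
  have e : (fun t : ℝ => t ^ i * Lp k t * exp (-t)) = fun t => ∑ j ∈ Finset.range (k + 1),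
      ((-1) ^ j * (k.choose j : ℝ) / (j.factorial : ℝ)) * (t ^ (j + i) * exp (-t)) := by
    funext t
    unfold Lp
    rw [Finset.mul_sum, Finset.sum_mul]
    refine Finset.sum_congr rfl fun j _ => ?_
    rw [pow_add]
    ring
  rw [e]
  constructor
  · exact integrable_finsetSum _ fun j _ => (lc_pow_exp_int (j + i)).1.const_mul _
  · rw [integral_finsetSum _ fun j _ => (lc_pow_exp_int (j + i)).1.const_mul _]
    unfold lcT lcA
    refine Finset.sum_congr rfl fun j _ => ?_
    rw [integral_const_mul, (lc_pow_exp_int (j + i)).2, Nat.add_zero]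
    ring

theorem lc_Lp_Lp (i k : ℕ) : IntegrableOn (fun t : ℝ => Lp i t * Lp k t * exp (-t)) (Ioi 0) ∧
    ∫ t in Ioi (0 : ℝ), Lp i t * Lp k t * exp (-t) =
      ∑ j ∈ Finset.range (i + 1), ((-1) ^ j * (i.choose j : ℝ) / (j.factorial : ℝ)) * lcT j k 0 := by
  have e : (fun t : ℝ => Lp i t * Lp k t * exp (-t)) = fun t => ∑ j ∈ Finset.range (i + 1),
      ((-1) ^ j * (i.choose j : ℝ) / (j.factorial : ℝ)) * (t ^ j * Lp k t * exp (-t)) := by
    funext t
    rw [show Lp i t = ∑ j ∈ Finset.range (i + 1),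
      ((-1) ^ j * (i.choose j : ℝ) / (j.factorial : ℝ)) * t ^ j from rfl,
      Finset.sum_mul, Finset.sum_mul]
    exact Finset.sum_congr rfl fun j _ => by ring
  rw [e]
  constructor
  · exact integrable_finsetSum _ fun j _ => (lc_pow_Lp j k).1.const_mul _
  · rw [integral_finsetSum _ fun j _ => (lc_pow_Lp j k).1.const_mul _]
    refine Finset.sum_congr rfl fun j _ => ?_
    rw [integral_const_mul, (lc_pow_Lp j k).2]

theorem lc_orth_lt {i k : ℕ} (h : i < k) : ∫ t in Ioi (0 : ℝ), Lp i t * Lp k t * exp (-t) = 0 := by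
  rw [(lc_Lp_Lp i k).2]
  refine Finset.sum_eq_zero fun j hj => ?_
  rw [lcT_lt k j 0 (by have := Finset.mem_range.1 hj; omega), mul_zero]

theorem lc_orth_self (k : ℕ) : ∫ t in Ioi (0 : ℝ), Lp k t * Lp k t * exp (-t) = 1 := by
  rw [(lc_Lp_Lp k k).2, Finset.sum_range_succ, Finset.sum_eq_zero, zero_add, lcT_eq,
    Nat.choose_self]
  · have h1 : (k.factorial : ℝ) ≠ 0 := by exact_mod_cast Nat.factorial_ne_zero _
    rw [Nat.cast_one, mul_one]
    field_simp
    rw [← pow_mul, mul_comm k 2, pow_mul]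
    norm_num
  · intro j hj
    rw [lcT_lt k j 0 (Finset.mem_range.1 hj), mul_zero]

theorem lc_orth (i k : ℕ) :
    ∫ t in Ioi (0 : ℝ), Lp i t * Lp k t * exp (-t) = if i = k then 1 else 0 := by
  rcases lt_trichotomy i k with h | h | h
  · rw [if_neg h.ne, lc_orth_lt h]
  · subst h
    rw [if_pos rfl, lc_orth_self]
  · rw [if_neg h.ne']
    have : (fun t : ℝ => Lp i t * Lp k t * exp (-t)) = fun t => Lp k t * Lp i t * exp (-t) := by
      funext t; ring
    rw [this, lc_orth_lt h]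

/-- Bessel's inequality for the Laguerre system. -/
theorem lc_bessel {f : ℝ → ℝ} (N : ℕ) (l : ℕ → ℝ)
    (hf2 : IntegrableOn (fun t => f t ^ 2 * exp t) (Ioi 0))
    (hfi : ∀ k, IntegrableOn (fun t => f t * Lp k t) (Ioi 0))
    (hl : ∀ k, ∫ t in Ioi (0 : ℝ), f t * Lp k t = l k) :
    ∑ k ∈ Finset.range N, l k ^ 2 ≤ ∫ t in Ioi (0 : ℝ), f t ^ 2 * exp t := by
  have hnn : 0 ≤ ∫ t in Ioi (0 : ℝ), (f t * exp (t / 2) - (∑ k ∈ Finset.range N, l k * Lp k t) *
      exp (-(t / 2))) ^ 2 := setIntegral_nonneg measurableSet_Ioi fun t _ => sq_nonneg _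
  have e : (fun t : ℝ => (f t * exp (t / 2) - (∑ k ∈ Finset.range N, l k * Lp k t) *
      exp (-(t / 2))) ^ 2) = fun t => f t ^ 2 * exp t -
        2 * ∑ k ∈ Finset.range N, l k * (f t * Lp k t) +
        ∑ i ∈ Finset.range N, ∑ k ∈ Finset.range N, l i * l k * (Lp i t * Lp k t * exp (-t)) := by
    funext t
    have h1 : exp (t / 2) * exp (t / 2) = exp t := by rw [← exp_add]; congr 1; ring
    have h2 : exp (-(t / 2)) * exp (-(t / 2)) = exp (-t) := by rw [← exp_add]; congr 1; ring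
    have h3 : exp (t / 2) * exp (-(t / 2)) = 1 := by rw [← exp_add]; simp
    have h4 : ∑ k ∈ Finset.range N, l k * (f t * Lp k t) =
        f t * ∑ k ∈ Finset.range N, l k * Lp k t := by
      rw [Finset.mul_sum]; exact Finset.sum_congr rfl fun k _ => by ring
    have h5 : ∑ i ∈ Finset.range N, ∑ k ∈ Finset.range N, l i * l k * (Lp i t * Lp k t * exp (-t)) =
        (∑ k ∈ Finset.range N, l k * Lp k t) * (∑ k ∈ Finset.range N, l k * Lp k t) * exp (-t) := by
      rw [Finset.sum_mul_sum, Finset.sum_mul]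
      refine Finset.sum_congr rfl fun i _ => ?_
      rw [Finset.sum_mul]
      exact Finset.sum_congr rfl fun k _ => by ring
    rw [h4, h5]
    set S := ∑ k ∈ Finset.range N, l k * Lp k t
    linear_combination (f t ^ 2) * h1 + (S ^ 2) * h2 - (2 * f t * S) * h3
  have i2 : Integrable (fun t => 2 * ∑ k ∈ Finset.range N, l k * (f t * Lp k t))
      (volume.restrict (Ioi (0 : ℝ))) :=
    (integrable_finsetSum _ fun k _ => (hfi k).const_mul _).const_mul _
  have i3 : Integrable (fun t => ∑ i ∈ Finset.range N, ∑ k ∈ Finset.range N,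
      l i * l k * (Lp i t * Lp k t * exp (-t))) (volume.restrict (Ioi (0 : ℝ))) :=
    integrable_finsetSum _ fun i _ => integrable_finsetSum _ fun k _ =>
      (lc_Lp_Lp i k).1.const_mul _
  have i1 : Integrable (fun t => f t ^ 2 * exp t - 2 * ∑ k ∈ Finset.range N, l k * (f t * Lp k t))
      (volume.restrict (Ioi (0 : ℝ))) := hf2.sub i2
  rw [e, integral_add i1 i3, integral_sub hf2 i2, integral_const_mul,
    integral_finsetSum _ fun k _ => (hfi k).const_mul _,
    integral_finsetSum _ fun i _ => integrable_finsetSum _ fun k _ =>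
      (lc_Lp_Lp i k).1.const_mul _] at hnn
  have e4 : ∀ k ∈ Finset.range N, ∫ t in Ioi (0 : ℝ), l k * (f t * Lp k t) = l k ^ 2 := by
    intro k _
    rw [integral_const_mul, hl k]
    ring
  have e5 : ∀ i ∈ Finset.range N, ∫ t in Ioi (0 : ℝ), ∑ k ∈ Finset.range N,
      l i * l k * (Lp i t * Lp k t * exp (-t)) = l i ^ 2 := by
    intro i hi
    rw [integral_finsetSum _ fun k _ => (lc_Lp_Lp i k).1.const_mul _]
    have : ∀ k ∈ Finset.range N, ∫ t in Ioi (0 : ℝ), l i * l k * (Lp i t * Lp k t * exp (-t)) =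
        if i = k then l i ^ 2 else 0 := by
      intro k _
      rw [integral_const_mul, lc_orth]
      split_ifs with h
      · subst h; ring
      · ring
    rw [Finset.sum_congr rfl this, Finset.sum_ite_eq, if_pos hi]
  rw [Finset.sum_congr rfl e4, Finset.sum_congr rfl e5] at hnn
  linarith

end LpSec

end

section

/-!
# Exponential generating functions with bounded coefficients (row LC-A2)
-/

open Real MeasureTheory Set Finset Filter Topology

namespace LpSec

noncomputable def egf (c : ℕ → ℝ) (s : ℝ) : ℝ := ∑' k : ℕ, c k * (s ^ k / (k.factorial : ℝ))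

theorem egf_summable {c : ℕ → ℝ} {C : ℝ} (hc : ∀ k, |c k| ≤ C) (s : ℝ) :
    Summable (fun k : ℕ => c k * (s ^ k / (k.factorial : ℝ))) := by
  refine Summable.of_norm_bounded (g := fun k : ℕ => C * (|s| ^ k / (k.factorial : ℝ)))
    ((Real.summable_pow_div_factorial |s|).mul_left C) fun k => ?_
  rw [norm_mul, norm_div, norm_pow, Real.norm_eq_abs, Real.norm_eq_abs,
    Real.norm_of_nonneg (by positivity : (0 : ℝ) ≤ (k.factorial : ℝ))]
  exact mul_le_mul_of_nonneg_right (hc k) (by positivity)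

theorem egf_hasSum {c : ℕ → ℝ} {C : ℝ} (hc : ∀ k, |c k| ≤ C) (s : ℝ) :
    HasSum (fun k : ℕ => c k * (s ^ k / (k.factorial : ℝ))) (egf c s) :=
  (egf_summable hc s).hasSum

theorem egf_zero (c : ℕ → ℝ) : egf c 0 = c 0 := by
  unfold egf
  rw [tsum_eq_single 0]
  · simp
  · intro m hm
    rw [zero_pow hm, zero_div, mul_zero]

theorem egf_hasDerivAt {c : ℕ → ℝ} {C : ℝ} (hc : ∀ k, |c k| ≤ C) (s : ℝ) :
    HasDerivAt (egf c) (egf (fun k => c (k + 1)) s) s := by
  set R : ℝ := |s| + 1 with hR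
  have hR0 : 0 ≤ R := by positivity
  have hC : 0 ≤ C := (abs_nonneg _).trans (hc 0)
  have hsum : Summable (fun m : ℕ => C * ((m : ℝ) * R ^ (m - 1) / (m.factorial : ℝ))) := by
    refine Summable.mul_left C ?_
    rw [← summable_nat_add_iff 1]
    have h1 := Real.summable_pow_div_factorial R
    refine h1.congr fun m => ?_
    rw [Nat.factorial_succ, Nat.add_sub_cancel]
    have h2 : (m.factorial : ℝ) ≠ 0 := by exact_mod_cast Nat.factorial_ne_zero _
    have h3 : ((m : ℝ) + 1) ≠ 0 := by positivity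
    push_cast
    field_simp
  have hb : ∀ (m : ℕ) (y : ℝ), |y| ≤ R →
      ‖c m * ((m : ℝ) * y ^ (m - 1) / (m.factorial : ℝ))‖ ≤
        C * ((m : ℝ) * R ^ (m - 1) / (m.factorial : ℝ)) := by
    intro m y hy
    rw [norm_mul, norm_div, norm_mul, norm_pow, Real.norm_eq_abs (c m), Real.norm_eq_abs y,
      Real.norm_of_nonneg (by positivity : (0 : ℝ) ≤ (m.factorial : ℝ)),
      Real.norm_of_nonneg (by positivity : (0 : ℝ) ≤ (m : ℝ))]
    refine mul_le_mul (hc m) ?_ (by positivity) hC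
    refine div_le_div_of_nonneg_right ?_ (by positivity)
    exact mul_le_mul_of_nonneg_left (pow_le_pow_left₀ (abs_nonneg _) hy _) (Nat.cast_nonneg _)
  have key := hasDerivAt_tsum_of_isPreconnected
    (u := fun m : ℕ => C * ((m : ℝ) * R ^ (m - 1) / (m.factorial : ℝ)))
    (g := fun (m : ℕ) (y : ℝ) => c m * (y ^ m / (m.factorial : ℝ)))
    (g' := fun (m : ℕ) (y : ℝ) => c m * ((m : ℝ) * y ^ (m - 1) / (m.factorial : ℝ)))
    (t := Metric.ball (0 : ℝ) R) (y₀ := s) (y := s) hsum Metric.isOpen_ball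
    (convex_ball (0 : ℝ) R).isPreconnected ?_ ?_ ?_ (egf_summable hc s) ?_
  · have e : (∑' m : ℕ, c m * ((m : ℝ) * s ^ (m - 1) / (m.factorial : ℝ))) =
        egf (fun k => c (k + 1)) s := by
      have hs : Summable (fun m : ℕ => c m * ((m : ℝ) * s ^ (m - 1) / (m.factorial : ℝ))) :=
        Summable.of_norm_bounded hsum fun m => hb m s (by rw [hR]; linarith)
      rw [hs.tsum_eq_zero_add]
      simp only [Nat.cast_zero, zero_mul, zero_div, mul_zero, zero_add]
      unfold egf
      refine tsum_congr fun m => ?_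
      rw [Nat.factorial_succ, Nat.add_sub_cancel]
      have h2 : (m.factorial : ℝ) ≠ 0 := by exact_mod_cast Nat.factorial_ne_zero _
      have h3 : ((m : ℝ) + 1) ≠ 0 := by positivity
      push_cast
      field_simp
    rw [e] at key
    exact key
  · intro m y _
    exact ((hasDerivAt_pow m y).div_const (m.factorial : ℝ)).const_mul (c m)
  · intro m y hy
    rw [Metric.mem_ball, dist_zero_right, Real.norm_eq_abs] at hy
    exact hb m y hy.le
  · rw [Metric.mem_ball, dist_zero_right, Real.norm_eq_abs, hR]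
    linarith
  · rw [Metric.mem_ball, dist_zero_right, Real.norm_eq_abs, hR]
    linarith

/-- geometric bound of the squared tail of the exponential series. -/
theorem lc_sq_tail {s : ℝ} (hs : 0 ≤ s) (K : ℕ) (hK : s < K + 1) (N : ℕ) :
    ∑ k ∈ Finset.range N, (s ^ (K + k) / ((K + k).factorial : ℝ)) ^ 2 ≤
      (s ^ K / (K.factorial : ℝ)) ^ 2 / (1 - (s / (K + 1)) ^ 2) := by
  have hK1 : (0 : ℝ) < K + 1 := by positivity
  set r : ℝ := (s / (K + 1)) ^ 2 with hr
  have hr0 : 0 ≤ r := by positivity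
  have hr1 : r < 1 := by
    have : s / (K + 1) < 1 := (div_lt_one hK1).2 hK
    rw [hr]
    have h0 : 0 ≤ s / (K + 1) := by positivity
    nlinarith
  have hterm : ∀ k : ℕ, (s ^ (K + k) / ((K + k).factorial : ℝ)) ^ 2 ≤
      (s ^ K / (K.factorial : ℝ)) ^ 2 * r ^ k := by
    intro k
    induction k with
    | zero => simp
    | succ k ih =>
      have e : s ^ (K + (k + 1)) / ((K + (k + 1)).factorial : ℝ) =
          (s ^ (K + k) / ((K + k).factorial : ℝ)) * (s / ((K : ℝ) + k + 1)) := by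
        rw [show K + (k + 1) = (K + k) + 1 by ring, Nat.factorial_succ, pow_succ]
        have h1 : ((K + k).factorial : ℝ) ≠ 0 := by exact_mod_cast Nat.factorial_ne_zero _
        have h2 : ((K : ℝ) + k + 1) ≠ 0 := by positivity
        push_cast
        field_simp
      rw [e, mul_pow, pow_succ r k, ← mul_assoc]
      refine mul_le_mul ih ?_ (by positivity) (by positivity)
      rw [hr]
      refine pow_le_pow_left₀ (by positivity) ?_ 2
      refine div_le_div_of_nonneg_left hs hK1 ?_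
      have : (0 : ℝ) ≤ k := Nat.cast_nonneg _
      linarith
  calc ∑ k ∈ Finset.range N, (s ^ (K + k) / ((K + k).factorial : ℝ)) ^ 2
      ≤ ∑ k ∈ Finset.range N, (s ^ K / (K.factorial : ℝ)) ^ 2 * r ^ k :=
        Finset.sum_le_sum fun k _ => hterm k
    _ = (s ^ K / (K.factorial : ℝ)) ^ 2 * ∑ k ∈ Finset.range N, r ^ k := by rw [Finset.mul_sum]
    _ ≤ (s ^ K / (K.factorial : ℝ)) ^ 2 * (1 / (1 - r)) := by
        refine mul_le_mul_of_nonneg_left ?_ (by positivity)
        have h1 : (0 : ℝ) < 1 - r := by linarith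
        rw [geom_sum_eq hr1.ne, le_div_iff₀ h1]
        have h2 : (r ^ N - 1) / (r - 1) * (1 - r) = 1 - r ^ N := by
          have : r - 1 ≠ 0 := by linarith
          field_simp
          ring
        rw [h2]
        have : 0 ≤ r ^ N := by positivity
        linarith
    _ = _ := by rw [mul_one_div]

/-- Tail bound by Cauchy-Schwarz. -/
theorem egf_tail {c : ℕ → ℝ} {C R : ℝ} (hc : ∀ k, |c k| ≤ C) {s : ℝ} (hs : 0 ≤ s) (K : ℕ)
    (hK : s < K + 1) (hR : ∀ N, ∑ k ∈ Finset.range N, c (K + k) ^ 2 ≤ R) :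
    |egf c s - ∑ k ∈ Finset.range K, c k * (s ^ k / (k.factorial : ℝ))| ≤
      √(R * ((s ^ K / (K.factorial : ℝ)) ^ 2 / (1 - (s / (K + 1)) ^ 2))) := by
  have h1 := (hasSum_nat_add_iff' K).2 (egf_hasSum hc s)
  have h2 := h1.tendsto_sum_nat
  refine le_of_tendsto h2.abs (Eventually.of_forall fun N => ?_)
  refine abs_le_of_sq_le_sq ?_ (Real.sqrt_nonneg _)
  rw [Real.sq_sqrt]
  · have h3 := Finset.sum_mul_sq_le_sq_mul_sq (Finset.range N) (fun k => c (K + k))
      (fun k => s ^ (K + k) / ((K + k).factorial : ℝ))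
    have h4 := lc_sq_tail hs K hK N
    have e : ∑ i ∈ Finset.range N, c (i + K) * (s ^ (i + K) / ((i + K).factorial : ℝ)) =
        ∑ k ∈ Finset.range N, c (K + k) * (s ^ (K + k) / ((K + k).factorial : ℝ)) :=
      Finset.sum_congr rfl fun k _ => by rw [add_comm k K]
    rw [e]
    refine h3.trans (mul_le_mul (hR N) h4 (Finset.sum_nonneg fun k _ => sq_nonneg _) ?_)
    exact (Finset.sum_nonneg fun k _ => sq_nonneg _).trans (hR 0)
  · have h0 : 0 ≤ R := (Finset.sum_nonneg fun k _ => sq_nonneg _).trans (hR 0)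
    have hK1 : (0 : ℝ) < K + 1 := by positivity
    have : s / (K + 1) < 1 := (div_lt_one hK1).2 hK
    have h5 : 0 ≤ s / (K + 1) := by positivity
    have h6 : (0 : ℝ) ≤ 1 - (s / (K + 1)) ^ 2 := by nlinarith
    positivity

end LpSec

end

section

/-!
# Laguerre moments and the series of `exp s * Phi α s` (row LC-A3)
-/

open Real MeasureTheory Set Finset Filter Topology

namespace LpSec

variable {α : ℝ}

noncomputable def mom (α : ℝ) (j : ℕ) : ℝ := ∫ ρ in Ioi (0 : ℝ), ρ ^ j * F α ρ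

noncomputable def lag (α : ℝ) (k : ℕ) : ℝ :=
  ∑ j ∈ Finset.range (k + 1), ((-1) ^ j * (k.choose j : ℝ) / (j.factorial : ℝ)) * mom α j

noncomputable def BLg (α : ℝ) : ℝ := ∫ ρ in Ioi (0 : ℝ), F α ρ ^ 2 * exp ρ

theorem lc_rpow_ge (hα : 1 < α) {A x : ℝ} (hA : 0 ≤ A) (hx : 0 ≤ x) :
    A * x - A * A ^ (1 / (α - 1)) ≤ x ^ α := by
  set x0 : ℝ := A ^ (1 / (α - 1)) with hx0
  have hx00 : 0 ≤ x0 := rpow_nonneg hA _
  have ha : 0 < α - 1 := by linarith
  rcases le_or_gt x x0 with h | h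
  · have h1 : 0 ≤ x ^ α := rpow_nonneg hx _
    have h2 : A * x ≤ A * x0 := mul_le_mul_of_nonneg_left h hA
    linarith
  · have hxp : 0 < x := lt_of_le_of_lt hx00 h
    have h1 : A ≤ x ^ (α - 1) := by
      have h2 : x0 ^ (α - 1) = A := by
        rw [hx0, ← rpow_mul hA]
        rw [one_div, inv_mul_cancel₀ ha.ne', rpow_one]
      rw [← h2]
      exact rpow_le_rpow hx00 h.le ha.le
    have h3 : x ^ α = x ^ (α - 1) * x := by
      rw [← rpow_add_one hxp.ne']
      congr 1; ring
    rw [h3]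
    have h4 : A * x ≤ x ^ (α - 1) * x := mul_le_mul_of_nonneg_right h1 hx
    have h5 : 0 ≤ A * x0 := mul_nonneg hA hx00
    linarith

theorem lc_meas (hα : 1 < α) {g : ℝ → ℝ} (hg : Continuous g) :
    AEStronglyMeasurable (fun ρ => F α ρ * g ρ) (volume.restrict (Ioi (0 : ℝ))) := by
  have h1 : ContinuousOn (fun ρ => F α ρ * g ρ) (Ioi (0 : ℝ)) :=
    ((F_continuousOn (by linarith)).mono Ioi_subset_Ici_self).mul hg.continuousOn
  exact h1.aestronglyMeasurable measurableSet_Ioi

theorem F_exp_integrable (hα : 1 < α) (c : ℝ) :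
    IntegrableOn (fun ρ => F α ρ * exp (c * ρ)) (Ioi 0) := by
  have hα0 : 0 < α := by linarith
  have hmu := mu_pos hα0
  have hD := DD_pos hα0
  set A : ℝ := (|c| + 1) / mu α with hA
  have hA0 : 0 ≤ A := by positivity
  set B : ℝ := A * A ^ (1 / (α - 1)) with hB
  have hdom : IntegrableOn (fun ρ : ℝ => ((DD α)⁻¹ * exp B) * exp (-ρ)) (Ioi 0) := by
    refine Integrable.const_mul ?_ _
    have h0 := (lc_pow_exp_int 0).1
    simp only [pow_zero, one_mul] at h0
    exact h0
  refine Integrable.mono' hdom (lc_meas hα (by fun_prop)) ?_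
  refine (ae_restrict_iff' measurableSet_Ioi).2 (Eventually.of_forall fun ρ hρ => ?_)
  have hρ0 : (0 : ℝ) < ρ := hρ
  rw [Real.norm_of_nonneg (mul_nonneg (F_pos hα0 ρ).le (exp_pos _).le)]
  unfold F
  rw [mul_assoc, mul_assoc]
  refine mul_le_mul_of_nonneg_left ?_ (by positivity)
  rw [← exp_add, ← exp_add]
  refine exp_le_exp.2 ?_
  have h1 := lc_rpow_ge hα hA0 (mul_nonneg hmu.le hρ0.le)
  have h2 : A * (mu α * ρ) = (|c| + 1) * ρ := by
    rw [hA]; field_simp
  rw [h2, ← hB] at h1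
  have h3 : c * ρ ≤ |c| * ρ := mul_le_mul_of_nonneg_right (le_abs_self c) hρ0.le
  linarith

theorem F_le_inv (hα : 0 < α) {ρ : ℝ} (hρ : 0 ≤ ρ) : F α ρ ≤ (DD α)⁻¹ := by
  have hD := DD_pos hα
  have hmu := mu_pos hα
  unfold F
  have h1 : exp (-(mu α * ρ) ^ α) ≤ 1 := by
    rw [exp_le_one_iff]
    have : 0 ≤ (mu α * ρ) ^ α := rpow_nonneg (by positivity) _
    linarith
  have h2 : 0 ≤ (DD α)⁻¹ := by positivity
  nlinarith

theorem BLg_integrable (hα : 1 < α) : IntegrableOn (fun ρ => F α ρ ^ 2 * exp ρ) (Ioi 0) := by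
  have hα0 : 0 < α := by linarith
  have h1 := (F_exp_integrable hα 1).const_mul ((DD α)⁻¹)
  refine Integrable.mono' h1 ?_ ?_
  · have h2 : ContinuousOn (fun ρ => F α ρ ^ 2 * exp ρ) (Ioi (0 : ℝ)) :=
      (((F_continuousOn hα0).mono Ioi_subset_Ici_self).pow 2).mul continuous_exp.continuousOn
    exact h2.aestronglyMeasurable measurableSet_Ioi
  · refine (ae_restrict_iff' measurableSet_Ioi).2 (Eventually.of_forall fun ρ hρ => ?_)
    have hρ0 : (0 : ℝ) < ρ := hρ
    have h2 := F_le_inv hα0 hρ0.le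
    have h3 := F_pos hα0 ρ
    rw [Real.norm_of_nonneg (by positivity), one_mul, sq, mul_assoc]
    exact mul_le_mul_of_nonneg_right h2 (by positivity)

theorem mom_integrable (hα : 1 < α) (j : ℕ) : IntegrableOn (fun ρ => ρ ^ j * F α ρ) (Ioi 0) := by
  have hα0 : 0 < α := by linarith
  have h := (aux_mom hα0 (q := (j : ℝ)) (by
    have : (0 : ℝ) ≤ j := Nat.cast_nonneg _
    linarith)).1.const_mul ((DD α)⁻¹)
  have e : (fun ρ : ℝ => ρ ^ j * F α ρ) =
      fun x => (DD α)⁻¹ * (x ^ (j : ℝ) * exp (-(mu α * x) ^ α)) := by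
    funext t
    simp only [F, rpow_natCast]
    ring
  rw [e]
  exact h

theorem mom_nonneg (hα : 1 < α) (j : ℕ) : 0 ≤ mom α j := by
  refine setIntegral_nonneg measurableSet_Ioi fun t ht => ?_
  have := F_pos (by linarith : 0 < α) t
  have ht0 : (0 : ℝ) < t := ht
  positivity

theorem mom_zero (hα : 1 < α) : mom α 0 = 1 := by
  unfold mom
  simp only [pow_zero, one_mul]
  exact F_integral hα

theorem mom_one (hα : 1 < α) : mom α 1 = 1 := by
  unfold mom
  simp only [pow_one]
  exact F_mean hα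

/-- closed form of the moments -/
theorem mom_eq (hα : 1 < α) (j : ℕ) : mom α j =
    (DD α)⁻¹ * (mu α ^ (-((j : ℝ) + 1)) * (1 / α) * Gamma (((j : ℝ) + 1) / α)) := by
  have hα0 : 0 < α := by linarith
  have h := (aux_mom hα0 (q := (j : ℝ)) (by
    have : (0 : ℝ) ≤ j := Nat.cast_nonneg _
    linarith)).2
  unfold mom
  rw [← h, ← integral_const_mul]
  refine setIntegral_congr_fun measurableSet_Ioi fun t ht => ?_
  simp only [F, rpow_natCast]
  ring

theorem lag_int (hα : 1 < α) (k : ℕ) : IntegrableOn (fun t => F α t * Lp k t) (Ioi 0) ∧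
    ∫ t in Ioi (0 : ℝ), F α t * Lp k t = lag α k := by
  have e : (fun t : ℝ => F α t * Lp k t) = fun t => ∑ j ∈ Finset.range (k + 1),
      ((-1) ^ j * (k.choose j : ℝ) / (j.factorial : ℝ)) * (t ^ j * F α t) := by
    funext t
    unfold Lp
    rw [Finset.mul_sum]
    exact Finset.sum_congr rfl fun j _ => by ring
  rw [e]
  constructor
  · exact integrable_finsetSum _ fun j _ => (mom_integrable hα j).const_mul _
  · rw [integral_finsetSum _ fun j _ => (mom_integrable hα j).const_mul _]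
    exact Finset.sum_congr rfl fun j _ => by rw [integral_const_mul]; rfl

theorem lag_bessel (hα : 1 < α) (N : ℕ) : ∑ k ∈ Finset.range N, lag α k ^ 2 ≤ BLg α :=
  lc_bessel N (lag α) (BLg_integrable hα) (fun k => (lag_int hα k).1) fun k => (lag_int hα k).2

theorem lag_abs_le (hα : 1 < α) (k : ℕ) : |lag α k| ≤ √(BLg α) := by
  have h1 := lag_bessel hα (k + 1)
  rw [Finset.sum_range_succ] at h1
  have h2 : 0 ≤ ∑ j ∈ Finset.range k, lag α j ^ 2 := Finset.sum_nonneg fun _ _ => sq_nonneg _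
  refine Real.abs_le_sqrt ?_
  linarith

theorem lag_zero (hα : 1 < α) : lag α 0 = 1 := by
  unfold lag
  simp [mom_zero hα]

theorem lag_one (hα : 1 < α) : lag α 1 = 0 := by
  unfold lag
  simp [Finset.sum_range_succ, mom_zero hα, mom_one hα]

/-- power series of `Phi`. -/
theorem Phi_hasSum (hα : 1 < α) {s : ℝ} (hs : 0 ≤ s) :
    Summable (fun j : ℕ => mom α j * s ^ j / ((j.factorial : ℝ) * (j.factorial : ℝ))) ∧
    HasSum (fun j : ℕ => (-1) ^ j * mom α j * s ^ j / ((j.factorial : ℝ) * (j.factorial : ℝ)))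
      (Phi α s) := by
  have hα0 : 0 < α := by linarith
  set f : ℕ → ℝ → ℝ := fun j ρ => ((-1) ^ j * s ^ j / ((j.factorial : ℝ) * (j.factorial : ℝ))) *
    (ρ ^ j * F α ρ) with hf
  have hfi : ∀ j, Integrable (f j) (volume.restrict (Ioi (0 : ℝ))) := fun j =>
    (mom_integrable hα j).const_mul _
  have hnorm : ∀ j, ∫ ρ in Ioi (0 : ℝ), ‖f j ρ‖ =
      mom α j * s ^ j / ((j.factorial : ℝ) * (j.factorial : ℝ)) := by
    intro j
    have e : ∀ ρ ∈ Ioi (0 : ℝ), ‖f j ρ‖ =
        (s ^ j / ((j.factorial : ℝ) * (j.factorial : ℝ))) * (ρ ^ j * F α ρ) := by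
      intro ρ hρ
      have hρ0 : (0 : ℝ) < ρ := hρ
      have h1 := F_pos hα0 ρ
      simp only [hf]
      rw [norm_mul, norm_div, norm_mul, norm_pow, norm_neg, norm_one, one_pow, one_mul,
        Real.norm_of_nonneg (by positivity : 0 ≤ s ^ j),
        Real.norm_of_nonneg (by positivity : (0 : ℝ) ≤ (j.factorial : ℝ) * (j.factorial : ℝ)),
        Real.norm_of_nonneg (by positivity : 0 ≤ ρ ^ j * F α ρ)]
    rw [setIntegral_congr_fun measurableSet_Ioi e, integral_const_mul]
    unfold mom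
    ring
  have hsum : Summable (fun j : ℕ => mom α j * s ^ j /
      ((j.factorial : ℝ) * (j.factorial : ℝ))) := by
    refine summable_of_sum_range_le (c := ∫ ρ in Ioi (0 : ℝ), F α ρ * exp (s * ρ)) ?_ ?_
    · intro j
      have := mom_nonneg hα j
      positivity
    · intro N
      have h1 : ∑ j ∈ Finset.range N, mom α j * s ^ j / ((j.factorial : ℝ) * (j.factorial : ℝ)) =
          ∫ ρ in Ioi (0 : ℝ), ∑ j ∈ Finset.range N,
            (s ^ j / ((j.factorial : ℝ) * (j.factorial : ℝ))) * (ρ ^ j * F α ρ) := by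
        rw [integral_finsetSum _ fun j _ => (mom_integrable hα j).const_mul _]
        refine Finset.sum_congr rfl fun j _ => ?_
        rw [integral_const_mul]
        unfold mom
        ring
      rw [h1]
      refine setIntegral_mono_on (integrable_finsetSum _ fun j _ =>
        (mom_integrable hα j).const_mul _) (F_exp_integrable hα s) measurableSet_Ioi
        fun ρ hρ => ?_
      have hρ0 : (0 : ℝ) < ρ := hρ
      have hF := F_pos hα0 ρ
      have h2 : ∑ j ∈ Finset.range N,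
            (s ^ j / ((j.factorial : ℝ) * (j.factorial : ℝ))) * (ρ ^ j * F α ρ) ≤
          F α ρ * ∑ j ∈ Finset.range N, (s * ρ) ^ j / (j.factorial : ℝ) := by
        rw [Finset.mul_sum]
        refine Finset.sum_le_sum fun j _ => ?_
        have h3 : (1 : ℝ) ≤ (j.factorial : ℝ) := by
          exact_mod_cast Nat.succ_le_of_lt (Nat.factorial_pos _)
        have h4 : (s ^ j / ((j.factorial : ℝ) * (j.factorial : ℝ))) * (ρ ^ j * F α ρ) =
            (F α ρ * ((s * ρ) ^ j / (j.factorial : ℝ))) / (j.factorial : ℝ) := by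
          rw [mul_pow]
          field_simp
        rw [h4]
        exact div_le_self (by positivity) h3
      refine h2.trans (mul_le_mul_of_nonneg_left ?_ hF.le)
      exact Real.sum_le_exp_of_nonneg (by positivity) N
  refine ⟨hsum, ?_⟩
  have h1 := hasSum_integral_of_summable_integral_norm hfi (by
    simp only [hnorm]
    exact hsum)
  have e1 : (fun j => ∫ ρ in Ioi (0 : ℝ), f j ρ) = fun j : ℕ =>
      (-1) ^ j * mom α j * s ^ j / ((j.factorial : ℝ) * (j.factorial : ℝ)) := by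
    funext j
    simp only [hf]
    rw [integral_const_mul]
    unfold mom
    ring
  have e2 : ∫ ρ in Ioi (0 : ℝ), ∑' j, f j ρ = Phi α s := by
    unfold Phi
    refine setIntegral_congr_fun measurableSet_Ioi fun ρ _ => ?_
    simp only [hf]
    unfold K
    rw [← tsum_mul_left]
    refine tsum_congr fun j => ?_
    rw [Nat.add_zero, neg_pow (s * ρ), mul_pow s ρ]
    ring
  rw [e1, e2] at h1
  exact h1

theorem exp_Phi_eq (hα : 1 < α) {s : ℝ} (hs : 0 ≤ s) : exp s * Phi α s = egf (lag α) s := by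
  obtain ⟨h1, h2⟩ := Phi_hasSum hα hs
  have h3 : Summable (fun j : ℕ => ‖(-1) ^ j * mom α j * s ^ j /
      ((j.factorial : ℝ) * (j.factorial : ℝ))‖) := by
    refine h1.congr fun j => ?_
    have := mom_nonneg hα j
    rw [norm_div, norm_mul, norm_mul, norm_pow, norm_neg, norm_one, one_pow, one_mul,
      Real.norm_of_nonneg this, Real.norm_of_nonneg (by positivity : 0 ≤ s ^ j),
      Real.norm_of_nonneg (by positivity : (0 : ℝ) ≤ (j.factorial : ℝ) * (j.factorial : ℝ))]
  have h4 : Summable (fun j : ℕ => ‖s ^ j / (j.factorial : ℝ)‖) := by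
    refine (Real.summable_pow_div_factorial s).congr fun j => ?_
    rw [Real.norm_of_nonneg (by positivity)]
  have h5 := tsum_mul_tsum_eq_tsum_sum_range_of_summable_norm h3 h4
  have h6 : ∑' j : ℕ, s ^ j / (j.factorial : ℝ) = exp s := by
    rw [Real.exp_eq_exp_ℝ, NormedSpace.exp_eq_tsum_div]
  rw [h2.tsum_eq, h6] at h5
  rw [mul_comm, h5]
  unfold egf
  refine tsum_congr fun n => ?_
  unfold lag
  rw [Finset.sum_mul]
  refine Finset.sum_congr rfl fun j hj => ?_
  have hj' : j ≤ n := by have := Finset.mem_range.1 hj; omega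
  have h7 : (n.choose j : ℝ) = (n.factorial : ℝ) / ((j.factorial : ℝ) * ((n - j).factorial : ℝ)) := by
    rw [Nat.cast_choose ℝ hj']
  have h8 : s ^ n = s ^ j * s ^ (n - j) := by rw [← pow_add]; congr 1; omega
  have h9 : (n.factorial : ℝ) ≠ 0 := by exact_mod_cast Nat.factorial_ne_zero _
  have h10 : (j.factorial : ℝ) ≠ 0 := by exact_mod_cast Nat.factorial_ne_zero _
  have h11 : ((n - j).factorial : ℝ) ≠ 0 := by exact_mod_cast Nat.factorial_ne_zero _
  rw [h7, h8]
  field_simp

end LpSec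

end
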