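import Mathlib
import Pool.Agent.Lib.MP_1dbab3_gt.GamX
import Pool.Agent.Lib.MP_1dbab3_gt.WLagA

/-!
# Log-concavity of the main lobe with its modulus (row LC-B)

`Xd α i` is the `i`-th derivative of `exp s * Phi α s`.
-/

open Real MeasureTheory Set Filter Topology

namespace LpSec

variable {α : ℝ}

noncomputable def Xd (α : ℝ) (i : ℕ) : ℝ → ℝ := egf (fun k => lag α (k + i))

noncomputable def k0 (α : ℝ) : ℝ := -lag α 2

noncomputable def k1 (α : ℝ) : ℝ := -lag α 3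

/-- the first zero of `Phi` -/
noncomputable def z1 (α : ℝ) : ℝ := sInf {s : ℝ | 0 ≤ s ∧ Phi α s ≤ 0}

theorem Xd_hasDerivAt (hα : 1 < α) (i : ℕ) (s : ℝ) :
    HasDerivAt (Xd α i) (Xd α (i + 1) s) s := by
  have h := egf_hasDerivAt (c := fun k => lag α (k + i)) (C := √(BLg α))
    (fun k => lag_abs_le hα _) s
  have e : (fun k => lag α (k + 1 + i)) = fun k => lag α (k + (i + 1)) := by
    funext k
    congr 1
    ring
  rw [e] at h
  exact h

theorem Xd_continuous (hα : 1 < α) (i : ℕ) : Continuous (Xd α i) :=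
  continuous_iff_continuousAt.2 fun s => (Xd_hasDerivAt hα i s).continuousAt

theorem Xd_zero (i : ℕ) : Xd α i 0 = lag α i := by
  unfold Xd
  rw [egf_zero, zero_add]

theorem lag_rem (hα : 1 < α) (M N : ℕ) : ∑ k ∈ Finset.range N, lag α (M + k) ^ 2 ≤
    BLg α - ∑ k ∈ Finset.range M, lag α k ^ 2 := by
  have h := lag_bessel hα (M + N)
  rw [Finset.sum_range_add] at h
  linarith

/-- Taylor enclosure of the derivatives of `exp s * Phi`, with `K` terms. -/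
theorem Xd_tail (hα : 1 < α) (i K : ℕ) {s : ℝ} (hs : 0 ≤ s) (hK : s < K + 1) :
    |Xd α i s - ∑ k ∈ Finset.range K, lag α (k + i) * (s ^ k / (k.factorial : ℝ))| ≤
      √((BLg α - ∑ k ∈ Finset.range (K + i), lag α k ^ 2) *
        ((s ^ K / (K.factorial : ℝ)) ^ 2 / (1 - (s / (K + 1)) ^ 2))) := by
  refine egf_tail (c := fun k => lag α (k + i)) (C := √(BLg α)) (fun k => lag_abs_le hα _) hs K hK
    fun N => ?_
  have h := lag_rem hα (K + i) N
  refine le_trans (le_of_eq ?_) h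
  refine Finset.sum_congr rfl fun k _ => ?_
  rw [show K + k + i = K + i + k by ring]

theorem Xd_tail' (hα : 1 < α) (i K : ℕ) {s Z R c : ℝ} (hs : 0 ≤ s) (hsZ : s ≤ Z) (hK : Z < K + 1)
    (hR0 : 0 ≤ R) (hc0 : 0 ≤ c) (hR : BLg α - ∑ k ∈ Finset.range (K + i), lag α k ^ 2 ≤ R ^ 2)
    (hc : 1 ≤ c ^ 2 * (1 - (Z / (K + 1)) ^ 2)) :
    |Xd α i s - ∑ k ∈ Finset.range K, lag α (k + i) * (s ^ k / (k.factorial : ℝ))| ≤
      R * c * (s ^ K / (K.factorial : ℝ)) := by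
  refine (Xd_tail hα i K hs (by linarith)).trans ?_
  refine Real.sqrt_le_iff.2 ⟨by positivity, ?_⟩
  have hK1 : (0 : ℝ) < K + 1 := by positivity
  have h1 : s / (K + 1) ≤ Z / (K + 1) := div_le_div_of_nonneg_right hsZ hK1.le
  have h2 : Z / (K + 1) < 1 := (div_lt_one hK1).2 hK
  have h3 : 0 ≤ s / (K + 1) := by positivity
  have h4 : (s / (K + 1)) ^ 2 ≤ (Z / (K + 1)) ^ 2 := pow_le_pow_left₀ h3 h1 2
  have h5 : 0 < 1 - (s / (K + 1)) ^ 2 := by nlinarith
  have h6 : 1 ≤ c ^ 2 * (1 - (s / (K + 1)) ^ 2) := by nlinarith [sq_nonneg c]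
  rw [← mul_div_assoc, div_le_iff₀ h5]
  have h7 : 0 ≤ (s ^ K / (K.factorial : ℝ)) ^ 2 := sq_nonneg _
  calc (BLg α - ∑ k ∈ Finset.range (K + i), lag α k ^ 2) * (s ^ K / (K.factorial : ℝ)) ^ 2
      ≤ R ^ 2 * (s ^ K / (K.factorial : ℝ)) ^ 2 := mul_le_mul_of_nonneg_right hR h7
    _ ≤ R ^ 2 * (s ^ K / (K.factorial : ℝ)) ^ 2 * (c ^ 2 * (1 - (s / (K + 1)) ^ 2)) :=
        le_mul_of_one_le_right (by positivity) h6
    _ = _ := by ring

theorem k0_pos (hα : 1 < α) : 0 < k0 α := by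
  have h := F_mom2_lt hα
  unfold k0 lag
  simp only [Finset.sum_range_succ, Finset.sum_range_zero, mom_zero hα, mom_one hα]
  have h2 : mom α 2 < 2 := h
  norm_num [Nat.choose, Nat.factorial]
  linarith

/-- (K) on `[0, Z]`. -/
structure KData (α Z : ℝ) : Prop where
  zpos : 0 < Z
  l3 : lag α 3 ≤ 0
  x3 : ∀ s, 0 ≤ s → s ≤ Z → Xd α 3 s ≤ lag α 3

theorem X3_le (_hα : 1 < α) {Z : ℝ} (h : KData α Z) {s : ℝ} (hs : 0 ≤ s) (hsZ : s ≤ Z) :
    Xd α 3 s ≤ lag α 3 := h.x3 s hs hsZ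

theorem X2_le (hα : 1 < α) {Z : ℝ} (h : KData α Z) {s : ℝ} (hs : 0 ≤ s) (hsZ : s ≤ Z) :
    Xd α 2 s ≤ -k0 α - k1 α * s := by
  have hd : ∀ x, HasDerivAt (fun x => Xd α 2 x - lag α 3 * x) (Xd α 3 x - lag α 3) x := by
    intro x
    have h1 := (Xd_hasDerivAt hα 2 x).sub ((hasDerivAt_id x).const_mul (lag α 3))
    exact h1.congr_deriv (by rw [mul_one])
  have hanti : AntitoneOn (fun x => Xd α 2 x - lag α 3 * x) (Icc 0 Z) := by
    refine antitoneOn_of_deriv_nonpos (convex_Icc 0 Z)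
      (fun x _ => (hd x).continuousAt.continuousWithinAt)
      (fun x _ => (hd x).differentiableAt.differentiableWithinAt) fun x hx => ?_
    rw [interior_Icc] at hx
    rw [(hd x).deriv]
    have := X3_le hα h hx.1.le hx.2.le
    linarith
  have h2 := hanti (left_mem_Icc.2 h.zpos.le) ⟨hs, hsZ⟩ hs
  simp only [Xd_zero, mul_zero, sub_zero] at h2
  unfold k0 k1
  linarith

theorem X1_le (hα : 1 < α) {Z : ℝ} (h : KData α Z) {s : ℝ} (hs : 0 ≤ s) (hsZ : s ≤ Z) :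
    Xd α 1 s ≤ -(k0 α * s) - k1 α * s ^ 2 / 2 := by
  have hd : ∀ x, HasDerivAt (fun x => Xd α 1 x + k0 α * x + k1 α * x ^ 2 / 2)
      (Xd α 2 x + k0 α + k1 α * x) x := by
    intro x
    have h1 := ((Xd_hasDerivAt hα 1 x).add ((hasDerivAt_id x).const_mul (k0 α))).add
      (((hasDerivAt_pow 2 x).const_mul (k1 α)).div_const 2)
    refine h1.congr_deriv ?_
    simp only [Nat.cast_ofNat, Nat.add_one_sub_one, pow_one]
    ring
  have hanti : AntitoneOn (fun x => Xd α 1 x + k0 α * x + k1 α * x ^ 2 / 2) (Icc 0 Z) := by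
    refine antitoneOn_of_deriv_nonpos (convex_Icc 0 Z)
      (fun x _ => (hd x).continuousAt.continuousWithinAt)
      (fun x _ => (hd x).differentiableAt.differentiableWithinAt) fun x hx => ?_
    rw [interior_Icc] at hx
    rw [(hd x).deriv]
    have := X2_le hα h hx.1.le hx.2.le
    linarith
  have h2 := hanti (left_mem_Icc.2 h.zpos.le) ⟨hs, hsZ⟩ hs
  simp only [Xd_zero, lag_one hα, mul_zero] at h2
  norm_num at h2
  linarith

theorem X0_le (hα : 1 < α) {Z : ℝ} (h : KData α Z) {s : ℝ} (hs : 0 ≤ s) (hsZ : s ≤ Z) :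
    Xd α 0 s ≤ 1 - k0 α * s ^ 2 / 2 - k1 α * s ^ 3 / 6 := by
  have hd : ∀ x, HasDerivAt (fun x => Xd α 0 x + k0 α * x ^ 2 / 2 + k1 α * x ^ 3 / 6)
      (Xd α 1 x + k0 α * x + k1 α * x ^ 2 / 2) x := by
    intro x
    have h1 := ((Xd_hasDerivAt hα 0 x).add (((hasDerivAt_pow 2 x).const_mul (k0 α)).div_const 2)).add
      (((hasDerivAt_pow 3 x).const_mul (k1 α)).div_const 6)
    refine h1.congr_deriv ?_
    simp only [Nat.cast_ofNat, Nat.add_one_sub_one, pow_one]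
    ring
  have hanti : AntitoneOn (fun x => Xd α 0 x + k0 α * x ^ 2 / 2 + k1 α * x ^ 3 / 6) (Icc 0 Z) := by
    refine antitoneOn_of_deriv_nonpos (convex_Icc 0 Z)
      (fun x _ => (hd x).continuousAt.continuousWithinAt)
      (fun x _ => (hd x).differentiableAt.differentiableWithinAt) fun x hx => ?_
    rw [interior_Icc] at hx
    rw [(hd x).deriv]
    have := X1_le hα h hx.1.le hx.2.le
    linarith
  have h2 := hanti (left_mem_Icc.2 h.zpos.le) ⟨hs, hsZ⟩ hs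
  simp only [Xd_zero, lag_zero hα] at h2
  norm_num at h2
  linarith

theorem k1_nonneg {Z : ℝ} (h : KData α Z) : 0 ≤ k1 α := by
  unfold k1
  linarith [h.l3]

theorem exp_Phi (hα : 1 < α) {s : ℝ} (hs : 0 ≤ s) : exp s * Phi α s = Xd α 0 s := by
  rw [exp_Phi_eq hα hs]
  rfl

theorem Phi_eq_X (hα : 1 < α) {s : ℝ} (hs : 0 ≤ s) : Phi α s = exp (-s) * Xd α 0 s := by
  rw [← exp_Phi hα hs, ← mul_assoc, ← exp_add, neg_add_cancel, exp_zero, one_mul]

theorem Phi1_eq_X (hα : 1 < α) {s : ℝ} (hs : 0 < s) :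
    Phi1 α s = exp (-s) * (Xd α 0 s - Xd α 1 s) := by
  have h1 := Phi_hasDerivAt hα hs
  have h2 : HasDerivAt (fun x => exp (-x) * Xd α 0 x)
      (exp (-s) * (-1) * Xd α 0 s + exp (-s) * Xd α 1 s) s :=
    ((hasDerivAt_neg s).exp).mul (Xd_hasDerivAt hα 0 s)
  have h3 : Phi α =ᶠ[𝓝 s] fun x => exp (-x) * Xd α 0 x := by
    filter_upwards [lt_mem_nhds hs] with x hx
    exact Phi_eq_X hα (le_of_lt hx)
  have h4 := h1.unique (h2.congr_of_eventuallyEq h3)
  linarith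

theorem Phi2_eq_X (hα : 1 < α) {s : ℝ} (hs : 0 < s) :
    Phi2 α s = exp (-s) * (Xd α 0 s - 2 * Xd α 1 s + Xd α 2 s) := by
  have h1 := Phi1_hasDerivAt hα hs
  have h2 : HasDerivAt (fun x => exp (-x) * (Xd α 0 x - Xd α 1 x))
      (exp (-s) * (-1) * (Xd α 0 s - Xd α 1 s) + exp (-s) * (Xd α 1 s - Xd α 2 s)) s :=
    ((hasDerivAt_neg s).exp).mul ((Xd_hasDerivAt hα 0 s).sub (Xd_hasDerivAt hα 1 s))
  have h3 : Phi1 α =ᶠ[𝓝 s] fun x => exp (-x) * (Xd α 0 x - Xd α 1 x) := by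
    filter_upwards [lt_mem_nhds hs] with x hx
    exact Phi1_eq_X hα hx
  have h4 := h1.unique (h2.congr_of_eventuallyEq h3)
  linarith

theorem X0_strictAnti (hα : 1 < α) {Z : ℝ} (h : KData α Z) : StrictAntiOn (Xd α 0) (Icc 0 Z) := by
  refine strictAntiOn_of_deriv_neg (convex_Icc 0 Z) (Xd_continuous hα 0).continuousOn fun x hx => ?_
  rw [interior_Icc] at hx
  rw [(Xd_hasDerivAt hα 0 x).deriv]
  have h1 := X1_le hα h hx.1.le hx.2.le
  have h2 := mul_pos (k0_pos hα) hx.1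
  have h3 : 0 ≤ k1 α * x ^ 2 / 2 := by
    have := k1_nonneg h
    positivity
  linarith

/-- The first zero: position, signs. -/
theorem z1_spec (hα : 1 < α) {Z : ℝ} (h : KData α Z) (hZ : Xd α 0 Z ≤ 0) :
    0 < z1 α ∧ z1 α ≤ Z ∧ Phi α (z1 α) = 0 ∧ (∀ s, 0 ≤ s → s < z1 α → 0 < Phi α s) ∧
      (∀ s, z1 α < s → s ≤ Z → Phi α s < 0) := by
  have hZ0 := h.zpos
  obtain ⟨w, hw, hw0⟩ : ∃ w ∈ Icc 0 Z, Xd α 0 w = 0 := by
    have h1 := intermediate_value_Icc' hZ0.le (Xd_continuous hα 0).continuousOn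
    have h2 : (0 : ℝ) ∈ Icc (Xd α 0 Z) (Xd α 0 0) := by
      rw [Xd_zero, lag_zero hα]
      exact ⟨hZ, zero_le_one⟩
    obtain ⟨w, hw, hw0⟩ := h1 h2
    exact ⟨w, hw, hw0⟩
  have hmono := X0_strictAnti hα h
  have hwpos : 0 < w := by
    rcases eq_or_lt_of_le hw.1 with h1 | h1
    · rw [← h1, Xd_zero, lag_zero hα] at hw0
      norm_num at hw0
    · exact h1
  have hpos : ∀ s, 0 ≤ s → s < w → 0 < Phi α s := by
    intro s hs hsw
    rw [Phi_eq_X hα hs]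
    have h1 := hmono ⟨hs, hsw.le.trans hw.2⟩ hw hsw
    rw [hw0] at h1
    exact mul_pos (exp_pos _) h1
  have hneg : ∀ s, w < s → s ≤ Z → Phi α s < 0 := by
    intro s hs hsZ
    rw [Phi_eq_X hα (by linarith)]
    have h1 := hmono hw ⟨by linarith, hsZ⟩ hs
    rw [hw0] at h1
    exact mul_neg_of_pos_of_neg (exp_pos _) h1
  have hz : z1 α = w := by
    unfold z1
    refine (IsLeast.csInf_eq ⟨⟨hwpos.le, ?_⟩, ?_⟩)
    · rw [Phi_eq_X hα hwpos.le, hw0, mul_zero]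
    · rintro s ⟨hs0, hs⟩
      by_contra hlt
      push Not at hlt
      exact absurd (hpos s hs0 hlt) (not_lt.2 hs)
  rw [hz]
  refine ⟨hwpos, hw.2, ?_, hpos, hneg⟩
  rw [Phi_eq_X hα hwpos.le, hw0, mul_zero]

theorem z1_gt (hα : 1 < α) {Z : ℝ} (h : KData α Z) (hZ : Xd α 0 Z ≤ 0) {y : ℝ} (hy : 0 ≤ y)
    (hyZ : y ≤ Z) (hpos : 0 < Xd α 0 y) : y < z1 α := by
  obtain ⟨h1, h2, h3, h4, h5⟩ := z1_spec hα h hZ
  by_contra hlt
  push Not at hlt
  have h6 : Phi α y ≤ 0 := by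
    rcases eq_or_lt_of_le hlt with h7 | h7
    · rw [← h7, h3]
    · exact (h5 y h7 hyZ).le
  rw [Phi_eq_X hα hy] at h6
  have := mul_pos (exp_pos (-y)) hpos
  linarith

/-- (K): `log Phi + k0 s^2/2 + k1 s^3/6` is concave on the main lobe. -/
theorem K_concave (hα : 1 < α) {Z : ℝ} (h : KData α Z) (hZ : Xd α 0 Z ≤ 0) :
    ConcaveOn ℝ (Ico 0 (z1 α))
      (fun s => log (Phi α s) + k0 α * s ^ 2 / 2 + k1 α * s ^ 3 / 6) := by
  obtain ⟨hz0, hzZ, hzz, hpos, hneg⟩ := z1_spec hα h hZ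
  have hX : ∀ s, 0 ≤ s → s < z1 α → 0 < Xd α 0 s := by
    intro s hs hsz
    have h1 := hpos s hs hsz
    rw [Phi_eq_X hα hs] at h1
    exact (mul_pos_iff_of_pos_left (exp_pos _)).1 h1
  have heq : ∀ s ∈ Ico 0 (z1 α), log (Phi α s) + k0 α * s ^ 2 / 2 + k1 α * s ^ 3 / 6 =
      log (Xd α 0 s) - s + k0 α * s ^ 2 / 2 + k1 α * s ^ 3 / 6 := by
    intro s hs
    rw [Phi_eq_X hα hs.1, log_mul (exp_pos _).ne' (hX s hs.1 hs.2).ne', log_exp]
    ring
  have hconc : ConcaveOn ℝ (Ico 0 (z1 α))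
      (fun s => log (Xd α 0 s) - s + k0 α * s ^ 2 / 2 + k1 α * s ^ 3 / 6) := by
    refine concaveOn_of_hasDerivWithinAt2_nonpos (convex_Ico 0 (z1 α))
      (f' := fun s => Xd α 1 s / Xd α 0 s - 1 + k0 α * s + k1 α * s ^ 2 / 2)
      (f'' := fun s => (Xd α 2 s * Xd α 0 s - Xd α 1 s * Xd α 1 s) / Xd α 0 s ^ 2 +
        k0 α + k1 α * s) ?_ ?_ ?_ ?_
    · refine ContinuousOn.add (ContinuousOn.add (ContinuousOn.sub ?_ continuousOn_id) ?_) ?_
      · exact (Xd_continuous hα 0).continuousOn.log fun s hs => (hX s hs.1 hs.2).ne'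
      · fun_prop
      · fun_prop
    · intro s hs
      rw [interior_Ico] at hs
      have h1 := hX s hs.1.le hs.2
      have h2 := ((((Xd_hasDerivAt hα 0 s).log h1.ne').sub (hasDerivAt_id s)).add
        (((hasDerivAt_pow 2 s).const_mul (k0 α)).div_const 2)).add
        (((hasDerivAt_pow 3 s).const_mul (k1 α)).div_const 6)
      refine HasDerivAt.hasDerivWithinAt (h2.congr_deriv ?_)
      simp only [Nat.cast_ofNat, Nat.add_one_sub_one, pow_one]
      ring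
    · intro s hs
      rw [interior_Ico] at hs
      have h1 := hX s hs.1.le hs.2
      have h2 := ((((Xd_hasDerivAt hα 1 s).div (Xd_hasDerivAt hα 0 s) h1.ne').sub_const 1).add
        ((hasDerivAt_id s).const_mul (k0 α))).add
        (((hasDerivAt_pow 2 s).const_mul (k1 α)).div_const 2)
      refine HasDerivAt.hasDerivWithinAt (h2.congr_deriv ?_)
      simp only [Nat.cast_ofNat, Nat.add_one_sub_one, pow_one]
      ring
    · intro s hs
      rw [interior_Ico] at hs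
      have h1 := hX s hs.1.le hs.2
      have h2 := X2_le hα h hs.1.le (hs.2.le.trans hzZ)
      have h3 := X0_le hα h hs.1.le (hs.2.le.trans hzZ)
      have hk0 := k0_pos hα
      have hk1 := k1_nonneg h
      have hs0 := hs.1
      have h4 : Xd α 0 s ≤ 1 := by
        have : 0 ≤ k0 α * s ^ 2 / 2 := by positivity
        have : 0 ≤ k1 α * s ^ 3 / 6 := by positivity
        linarith
      have h5 : 0 ≤ k0 α + k1 α * s := by positivity
      have h6 : (Xd α 2 s * Xd α 0 s - Xd α 1 s * Xd α 1 s) / Xd α 0 s ^ 2 ≤ Xd α 2 s / Xd α 0 s := by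
        rw [div_le_div_iff₀ (by positivity) h1]
        have : 0 ≤ Xd α 1 s * Xd α 1 s := mul_self_nonneg _
        nlinarith
      have h7 : Xd α 2 s / Xd α 0 s ≤ -(k0 α + k1 α * s) := by
        rw [div_le_iff₀ h1]
        nlinarith
      linarith
  exact hconc.congr fun s hs => (heq s hs).symm

/-- Upper bound on the main lobe (and a little beyond). -/
theorem Phi_le_main (hα : 1 < α) {Z : ℝ} (h : KData α Z) {s : ℝ} (hs : 0 ≤ s) (hsZ : s ≤ Z) :
    Phi α s ≤ exp (-s) * (1 - k0 α * s ^ 2 / 2 - k1 α * s ^ 3 / 6) := by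
  rw [Phi_eq_X hα hs]
  exact mul_le_mul_of_nonneg_left (X0_le hα h hs hsZ) (exp_pos _).le

theorem Phi_le_exp (hα : 1 < α) {Z : ℝ} (h : KData α Z) {s : ℝ} (hs : 0 ≤ s) (hsZ : s ≤ Z) :
    Phi α s ≤ exp (-s) := by
  refine (Phi_le_main hα h hs hsZ).trans ?_
  have h1 := k0_pos hα
  have h2 := k1_nonneg h
  have h3 : 0 ≤ k0 α * s ^ 2 / 2 := by positivity
  have h4 : 0 ≤ k1 α * s ^ 3 / 6 := by positivity
  have h5 := exp_pos (-s)
  nlinarith

/-- `V' = -(log Phi)' = Phi1 / Phi`: its slope on the main lobe. -/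
theorem K_slope (hα : 1 < α) {Z : ℝ} (h : KData α Z) (hZ : Xd α 0 Z ≤ 0) {a b : ℝ} (ha : 0 < a)
    (hab : a ≤ b) (hb : b < z1 α) :
    k0 α * (b - a) + k1 α * (b ^ 2 - a ^ 2) / 2 ≤ Phi1 α b / Phi α b - Phi1 α a / Phi α a := by
  obtain ⟨hz0, hzZ, hzz, hpos, hneg⟩ := z1_spec hα h hZ
  have hX : ∀ s, 0 ≤ s → s < z1 α → 0 < Xd α 0 s := by
    intro s hs hsz
    have h1 := hpos s hs hsz
    rw [Phi_eq_X hα hs] at h1
    exact (mul_pos_iff_of_pos_left (exp_pos _)).1 h1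
  have he : ∀ s, 0 < s → s < z1 α → Phi1 α s / Phi α s = 1 - Xd α 1 s / Xd α 0 s := by
    intro s hs hsz
    rw [Phi1_eq_X hα hs, Phi_eq_X hα hs.le, mul_div_mul_left _ _ (exp_pos _).ne', sub_div,
      div_self (hX s hs.le hsz).ne']
  have hd : ∀ x ∈ Ioo 0 (z1 α), HasDerivAt (fun s => Xd α 1 s / Xd α 0 s + k0 α * s + k1 α * s ^ 2 / 2)
      ((Xd α 2 x * Xd α 0 x - Xd α 1 x * Xd α 1 x) / Xd α 0 x ^ 2 + k0 α + k1 α * x) x := by
    intro x hx
    have h2 := (((Xd_hasDerivAt hα 1 x).div (Xd_hasDerivAt hα 0 x) (hX x hx.1.le hx.2).ne').add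
        ((hasDerivAt_id x).const_mul (k0 α))).add
        (((hasDerivAt_pow 2 x).const_mul (k1 α)).div_const 2)
    refine h2.congr_deriv ?_
    simp only [Nat.cast_ofNat, Nat.add_one_sub_one, pow_one]
    ring
  have hanti : AntitoneOn (fun s => Xd α 1 s / Xd α 0 s + k0 α * s + k1 α * s ^ 2 / 2) (Icc a b) := by
    refine antitoneOn_of_deriv_nonpos (convex_Icc a b)
      (fun x hx => (hd x ⟨ha.trans_le hx.1, hx.2.trans_lt hb⟩).continuousAt.continuousWithinAt)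
      (fun x hx => ?_) fun x hx => ?_
    · rw [interior_Icc] at hx
      exact (hd x ⟨ha.trans hx.1, hx.2.trans hb⟩).differentiableAt.differentiableWithinAt
    · rw [interior_Icc] at hx
      have hx0 : 0 < x := ha.trans hx.1
      have hxz : x < z1 α := hx.2.trans hb
      rw [(hd x ⟨hx0, hxz⟩).deriv]
      have h1 := hX x hx0.le hxz
      have h2 := X2_le hα h hx0.le (hxz.le.trans hzZ)
      have h3 := X0_le hα h hx0.le (hxz.le.trans hzZ)
      have hk0 := k0_pos hα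
      have hk1 := k1_nonneg h
      have h4 : Xd α 0 x ≤ 1 := by
        have : 0 ≤ k0 α * x ^ 2 / 2 := by positivity
        have : 0 ≤ k1 α * x ^ 3 / 6 := by positivity
        linarith
      have h5 : 0 ≤ k0 α + k1 α * x := by positivity
      have h6 : (Xd α 2 x * Xd α 0 x - Xd α 1 x * Xd α 1 x) / Xd α 0 x ^ 2 ≤ Xd α 2 x / Xd α 0 x := by
        rw [div_le_div_iff₀ (by positivity) h1]
        have : 0 ≤ Xd α 1 x * Xd α 1 x := mul_self_nonneg _
        nlinarith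
      have h7 : Xd α 2 x / Xd α 0 x ≤ -(k0 α + k1 α * x) := by
        rw [div_le_iff₀ h1]
        nlinarith
      linarith
  have h8 := hanti (left_mem_Icc.2 hab) (right_mem_Icc.2 hab) hab
  rw [he a ha (hab.trans_lt hb), he b (ha.trans_le hab) hb]
  simp only at h8
  linarith

/-- `Phi1 / Phi ≥ 1 + k0 s + k1 s^2/2` on the main lobe. -/
theorem K_first (hα : 1 < α) {Z : ℝ} (h : KData α Z) (hZ : Xd α 0 Z ≤ 0) {s : ℝ} (hs : 0 < s)
    (hsz : s < z1 α) : 1 + k0 α * s + k1 α * s ^ 2 / 2 ≤ Phi1 α s / Phi α s := by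
  obtain ⟨hz0, hzZ, hzz, hpos, hneg⟩ := z1_spec hα h hZ
  have h1 : 0 < Xd α 0 s := by
    have h1 := hpos s hs.le hsz
    rw [Phi_eq_X hα hs.le] at h1
    exact (mul_pos_iff_of_pos_left (exp_pos _)).1 h1
  rw [Phi1_eq_X hα hs, Phi_eq_X hα hs.le, mul_div_mul_left _ _ (exp_pos _).ne', sub_div,
      div_self h1.ne']
  have h2 := X1_le hα h hs.le (hsz.le.trans hzZ)
  have h3 := X0_le hα h hs.le (hsz.le.trans hzZ)
  have hk0 := k0_pos hα
  have hk1 := k1_nonneg h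
  have h4 : Xd α 0 s ≤ 1 := by
    have : 0 ≤ k0 α * s ^ 2 / 2 := by positivity
    have : 0 ≤ k1 α * s ^ 3 / 6 := by positivity
    linarith
  have h5 : 0 ≤ k0 α * s + k1 α * s ^ 2 / 2 := by positivity
  have h6 : Xd α 1 s / Xd α 0 s ≤ -(k0 α * s + k1 α * s ^ 2 / 2) := by
    rw [div_le_iff₀ h1]
    nlinarith
  linarith

end LpSec
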