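import Mathlib
import Pool.Agent.Lib.MP_1dbab3_gt.C12Fin
import Pool.Agent.Lib.MP_1dbab3_gt.WLagB

/-!
# The window: definitions shared by all files of stage W (`p > 2` arbitrary, all dimensions)

`α = p / 2 > 1`, `u = 1 / α`. Only definitions here; every file of stage W imports this one.
Moments `mom α k = ∫ ρ^k F`, Laguerre coefficients `lag α k`: WLagA.
`k0 α = -lag α 2 = 1 - m₂/2`, `k1 α = -lag α 3 = 2 - 3 m₂/2 + m₃/6`, `z1 α` (first zero): WLagB.
-/

open Real MeasureTheory Set Filter Topology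

namespace LpSec

/-- `T2 α t = ∫_t^∞ Φ²`. -/
noncomputable def T2 (α t : ℝ) : ℝ := ∫ s in Ioi t, Phi α s ^ 2

/-- `vv α n = ∫ Φ(s/n)^n ds`, the value of `J` at the flat point. -/
noncomputable def vv (α : ℝ) (n : ℕ) : ℝ := J α (fun _ : Fin n => 1 / (n : ℝ))

/-- `x = (1/2, 1/2, 0, …)` up to the order. -/
def PairX {n : ℕ} (x : Fin n → ℝ) : Prop := ∃ i j, i ≠ j ∧ x i = 1 / 2 ∧ x j = 1 / 2

/-- The core inequality for `α` in dimension `n`: on the simplex without its vertices, the pair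
points and the flat point, `J` is smaller than the larger one of its values at the latter two. -/
def Core (α : ℝ) (n : ℕ) : Prop :=
  ∀ x : Fin n → ℝ, (∀ i, 0 ≤ x i) → ∑ i, x i = 1 → (∀ i, x i < 1) → ¬ PairX x →
    (x ≠ fun _ => 1 / (n : ℝ)) → J α x < max (AA α) (vv α n)

/-- The facts about the main lobe and the rest (block C). -/
structure Lobe (α : ℝ) : Prop where
  one_lt : 1 < α
  one_le_z1 : 1 ≤ z1 α
  pos : ∀ s, 0 ≤ s → s < z1 α → 0 < Phi α s
  zero : Phi α (z1 α) = 0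
  conc : ConcaveOn ℝ (Ico 0 (z1 α))
    (fun s => log (Phi α s) + k0 α * s ^ 2 / 2 + k1 α * s ^ 3 / 6)
  k0_nonneg : 0 ≤ k0 α
  k1_nonneg : 0 ≤ k1 α
  small : ∀ s, z1 α ≤ s → |Phi α s| ≤ exp (-min (z1 α) 2)
  neg : ∀ s, z1 α ≤ s → s ≤ 6 → Phi α s ≤ 0
  far : ∀ s, 6 ≤ s → Phi α s ≤ 0.091

end LpSec
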