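import Mathlib
import Pool.Agent.Lib.MP_1dbab3_gt.WDefs

/-!
# The window: basic facts and the reduction of the theorem to `Core`
-/

open Real MeasureTheory Set Filter Topology

namespace LpSec

variable {α : ℝ}

theorem Phi_sq_aesm (hα : 1 < α) :
    AEStronglyMeasurable (fun s => Phi α s ^ 2) (volume.restrict (Ioi 0)) :=
  (((Phi_continuousOn hα).pow 2).mono Ioi_subset_Ici_self).aestronglyMeasurable measurableSet_Ioi

theorem Mom_two (hα : 1 < α) : Mom α 2 = ENNReal.ofReal (AA α / 2) := by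
  have h := pair_moment hα
  have h2 : ENNReal.ofReal (AA α) = ENNReal.ofReal 2 * ENNReal.ofReal (AA α / 2) := by
    rw [← ENNReal.ofReal_mul (by norm_num)]
    congr 1
    ring
  rw [h2] at h
  exact (ENNReal.mul_right_inj (by simp) ENNReal.ofReal_ne_top).1 h

theorem AA_pos' (hα : 1 < α) : 0 < AA α := by
  have := DD_pos (α := α) (by linarith)
  unfold AA
  positivity

theorem Phi_sq_lint (hα : 1 < α) :
    ∫⁻ s in Ioi (0 : ℝ), ENNReal.ofReal (Phi α s ^ 2) = ENNReal.ofReal (AA α / 2) := by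
  rw [← Mom_two hα]
  unfold Mom
  refine lintegral_congr fun s => ?_
  rw [rpow_two, sq_abs]

theorem Phi_sq_integrable (hα : 1 < α) : IntegrableOn (fun s => Phi α s ^ 2) (Ioi 0) := by
  refine ⟨Phi_sq_aesm hα, ?_⟩
  rw [hasFiniteIntegral_iff_ofReal (Eventually.of_forall fun s => sq_nonneg _), Phi_sq_lint hα]
  exact ENNReal.ofReal_lt_top

theorem Phi_sq_total (hα : 1 < α) : ∫ s in Ioi (0 : ℝ), Phi α s ^ 2 = AA α / 2 := by
  rw [integral_eq_lintegral_of_nonneg_ae (Eventually.of_forall fun s => sq_nonneg _)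
    (Phi_sq_aesm hα), Phi_sq_lint hα, ENNReal.toReal_ofReal (by have := AA_pos' hα; positivity)]

theorem T2_nonneg (α t : ℝ) : 0 ≤ T2 α t :=
  setIntegral_nonneg measurableSet_Ioi fun _ _ => sq_nonneg _

theorem Phi_sq_integrable_Ioi (hα : 1 < α) {t : ℝ} (ht : 0 ≤ t) :
    IntegrableOn (fun s => Phi α s ^ 2) (Ioi t) :=
  (Phi_sq_integrable hα).mono_set (Ioi_subset_Ioi ht)

theorem T2_zero (hα : 1 < α) : T2 α 0 = AA α / 2 := Phi_sq_total hα

theorem T2_anti (hα : 1 < α) {a b : ℝ} (ha : 0 ≤ a) (hab : a ≤ b) : T2 α b ≤ T2 α a :=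
  setIntegral_mono_set (Phi_sq_integrable_Ioi hα ha)
    (Filter.Eventually.of_forall fun s => sq_nonneg _) (Ioi_subset_Ioi hab).eventuallyLE

theorem T2_sub (hα : 1 < α) {a b : ℝ} (ha : 0 ≤ a) (hab : a ≤ b) :
    ∫ s in a..b, Phi α s ^ 2 = T2 α a - T2 α b := by
  have h := intervalIntegral.integral_Ioi_sub_Ioi (f := fun s => Phi α s ^ 2) (μ := volume)
    (a := a) (b := b) (Phi_sq_integrable_Ioi hα ha) hab
  unfold T2
  rw [← h]

theorem T2_eq (hα : 1 < α) {t : ℝ} (ht : 0 ≤ t) :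
    T2 α t = AA α / 2 - ∫ s in (0 : ℝ)..t, Phi α s ^ 2 := by
  have h := intervalIntegral.integral_interval_add_Ioi (Phi_sq_integrable hα)
    ((Phi_sq_integrable hα).mono_set (Ioi_subset_Ioi ht))
  rw [Phi_sq_total hα] at h
  unfold T2
  linarith

theorem Phi_scale_sq_integrable (hα : 1 < α) {c : ℝ} (hc : 0 < c) :
    IntegrableOn (fun s => Phi α (c * s) ^ 2) (Ioi 0) := by
  have h := (integrableOn_Ioi_comp_mul_left_iff (fun s => Phi α s ^ 2) 0 hc).2
  rw [mul_zero] at h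
  exact h (Phi_sq_integrable hα)

theorem Phi_scale_sq_integral (hα : 1 < α) {c t : ℝ} (hc : 0 < c) :
    ∫ s in Ioi t, Phi α (c * s) ^ 2 = T2 α (c * t) / c := by
  have h := integral_comp_mul_left_Ioi (fun s => Phi α s ^ 2) t hc
  rw [h, smul_eq_mul]
  unfold T2
  ring

theorem prod_abs_le_pair (hα : 1 < α) {n : ℕ} {x : Fin n → ℝ} (hx : ∀ i, 0 ≤ x i) {j k : Fin n}
    (hjk : j ≠ k) {s : ℝ} (hs : 0 ≤ s) :
    |∏ i, Phi α (x i * s)| ≤ |Phi α (x j * s)| * |Phi α (x k * s)| := by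
  rw [Finset.abs_prod]
  have h1 : ∏ i, |Phi α (x i * s)| =
      |Phi α (x j * s)| * (|Phi α (x k * s)| * ∏ i ∈ (Finset.univ.erase j).erase k,
        |Phi α (x i * s)|) := by
    rw [Finset.mul_prod_erase (Finset.univ.erase j) (fun i => |Phi α (x i * s)|)
      (Finset.mem_erase.2 ⟨hjk.symm, Finset.mem_univ _⟩),
      Finset.mul_prod_erase Finset.univ (fun i => |Phi α (x i * s)|) (Finset.mem_univ _)]
  rw [h1]
  refine mul_le_mul_of_nonneg_left ?_ (abs_nonneg _)
  refine mul_le_of_le_one_right (abs_nonneg _) ?_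
  exact Finset.prod_le_one (fun i _ => abs_nonneg _)
    fun i _ => Phi_abs_le_one hα (mul_nonneg (hx i) hs)

theorem prod_integrable_pair (hα : 1 < α) {n : ℕ} {x : Fin n → ℝ} (hx : ∀ i, 0 ≤ x i)
    {j k : Fin n} (hjk : j ≠ k) (hj : 0 < x j) (hk : 0 < x k) :
    IntegrableOn (fun s => ∏ i, Phi α (x i * s)) (Ioi 0) := by
  have hadd : IntegrableOn (fun s => Phi α (x j * s) ^ 2 + Phi α (x k * s) ^ 2) (Ioi 0) :=
    (Phi_scale_sq_integrable hα hj).add (Phi_scale_sq_integrable hα hk)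
  refine Integrable.mono' hadd ?_ ?_
  · exact ((prod_continuousOn hα hx).mono Ioi_subset_Ici_self).aestronglyMeasurable
      measurableSet_Ioi
  · refine (ae_restrict_mem measurableSet_Ioi).mono (fun s hs => ?_)
    rw [norm_eq_abs]
    refine (prod_abs_le_pair hα hx hjk (le_of_lt hs)).trans ?_
    rw [← sq_abs (Phi α (x j * s)), ← sq_abs (Phi α (x k * s))]
    nlinarith [sq_nonneg (|Phi α (x j * s)| - |Phi α (x k * s)|), abs_nonneg (Phi α (x j * s)),
      abs_nonneg (Phi α (x k * s))]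

/-- two coordinates are positive if all are smaller than one -/
theorem exists_two_pos {n : ℕ} {x : Fin n → ℝ} (hx : ∀ i, 0 ≤ x i) (h1 : ∑ i, x i = 1)
    (hlt : ∀ i, x i < 1) : ∃ j k, j ≠ k ∧ 0 < x j ∧ 0 < x k := by
  by_contra hcon
  push Not at hcon
  have hex : ∃ j, 0 < x j := by
    by_contra h
    push Not at h
    have : ∑ i, x i ≤ 0 := Finset.sum_nonpos fun i _ => h i
    linarith
  obtain ⟨j, hj⟩ := hex
  have h0 : ∀ k, k ≠ j → x k = 0 := fun k hk => le_antisymm (hcon j k hk.symm hj) (hx k)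
  have h2 : ∑ i, x i = x j := Finset.sum_eq_single j (fun k _ hk => h0 k hk)
    (fun h => absurd (Finset.mem_univ j) h)
  have := hlt j
  linarith

theorem J_integrable (hα : 1 < α) {n : ℕ} {x : Fin n → ℝ} (hx : ∀ i, 0 ≤ x i)
    (h1 : ∑ i, x i = 1) (hlt : ∀ i, x i < 1) :
    IntegrableOn (fun s => ∏ i, Phi α (x i * s)) (Ioi 0) := by
  obtain ⟨j, k, hjk, hj, hk⟩ := exists_two_pos hx h1 hlt
  exact prod_integrable_pair hα hx hjk hj hk

theorem sec_eq_J (hα : 1 < α) {m : ℕ} (a : EuclideanSpace ℂ (Fin (m + 1))) (ha : ‖a‖ = 1)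
    (hlt : ∀ i, ‖a i‖ ^ 2 < 1) :
    sec α a = ENNReal.ofReal (cst α m * DD α * J α (fun i => ‖a i‖ ^ 2)) := by
  have h := sec_eq hα a ha (J_integrable hα (fun i => by positivity) (asym_sum a ha) hlt)
  rw [← ENNReal.ofReal_toReal (sec_ne_top hα a), h]
  rfl

theorem J_pos (hα : 1 < α) {m : ℕ} (a : EuclideanSpace ℂ (Fin (m + 1))) (ha : ‖a‖ = 1)
    (hlt : ∀ i, ‖a i‖ ^ 2 < 1) : 0 ≤ J α (fun i => ‖a i‖ ^ 2) := by
  have h := sec_eq hα a ha (J_integrable hα (fun i => by positivity) (asym_sum a ha) hlt)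
  have hcD : 0 < cst α m * DD α := mul_pos (cst_pos hα m) (DD_pos (by linarith))
  have h2 : 0 ≤ cst α m * DD α * J α (fun i => ‖a i‖ ^ 2) := by
    change _ = cst α m * DD α * J α (fun i => ‖a i‖ ^ 2) at h
    rw [← h]
    exact ENNReal.toReal_nonneg
  exact nonneg_of_mul_nonneg_right h2 hcD

/-- coordinate hyperplanes are below the pair value -/
theorem sec_coord_lt (hα : 1 < α) {m : ℕ} (hm : 1 ≤ m) (a : EuclideanSpace ℂ (Fin (m + 1)))
    (ha : ‖a‖ = 1) {i : Fin (m + 1)} (hi : ‖a i‖ ^ 2 = 1) :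
    sec α a < ENNReal.ofReal (cst α m * DD α * AA α) := by
  obtain ⟨k, hk⟩ : ∃ k : Fin (m + 1), i ≠ k := by
    have : Nontrivial (Fin (m + 1)) := Fin.nontrivial_iff_two_le.2 (by omega)
    obtain ⟨k, hk⟩ := exists_ne i
    exact ⟨k, hk.symm⟩
  have hai : a i ≠ 0 := by
    intro h
    rw [h] at hi
    norm_num at hi
  refine (sec_le_pair hα a ha i k hk hai).trans_lt ?_
  have hc := cst_pos hα m
  have hD := DD_pos (α := α) (by linarith)
  have hDA : DD α * AA α = 2 ^ (1 - 1 / α) := by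
    unfold AA
    field_simp
  rw [mul_assoc, hDA, ENNReal.ofReal_lt_ofReal_iff (by positivity)]
  refine mul_lt_mul_of_pos_left ?_ hc
  rw [hi, one_rpow]
  have hu : 0 < 1 - 1 / α := by
    rw [sub_pos, div_lt_one (by linarith)]
    exact hα
  have h1 : (1 : ℝ) < 2 ^ (1 - 1 / α) := one_lt_rpow (by norm_num) hu
  refine lt_of_le_of_lt ?_ h1
  have h2 : (1 : ℝ) ≤ 1 + (‖a k‖ ^ 2) ^ α := by
    have : (0 : ℝ) ≤ (‖a k‖ ^ 2) ^ α := by positivity
    linarith
  calc (1 + (‖a k‖ ^ 2) ^ α) ^ (-(1 / α)) ≤ 1 :=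
    rpow_le_one_of_one_le_of_nonpos h2 (by
      have : 0 < α := by linarith
      have : 0 < 1 / α := by positivity
      linarith)

/-- comparison at the level of `sec` -/
theorem sec_max_core (hα : 1 < α) {m : ℕ} (hm : 1 ≤ m) (hcore : Core α (m + 1))
    (a : EuclideanSpace ℂ (Fin (m + 1))) (ha : ‖a‖ = 1) :
    sec α a ≤ max (ENNReal.ofReal (cst α m * DD α * AA α)) (sec α (diagV (m + 1))) ∧
    (sec α a = max (ENNReal.ofReal (cst α m * DD α * AA α)) (sec α (diagV (m + 1))) ↔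
      (PairT a ∧ sec α (diagV (m + 1)) ≤ ENNReal.ofReal (cst α m * DD α * AA α)) ∨
      (FlatT a ∧ ENNReal.ofReal (cst α m * DD α * AA α) ≤ sec α (diagV (m + 1)))) := by
  set P := ENNReal.ofReal (cst α m * DD α * AA α) with hP
  have hcD : 0 < cst α m * DD α := mul_pos (cst_pos hα m) (DD_pos (by linarith))
  have hA := AA_pos' hα
  have hn1 : (1 : ℝ) < ((m + 1 : ℕ) : ℝ) := by exact_mod_cast (by omega : 1 < m + 1)
  have hdn : ‖diagV (m + 1)‖ = 1 := diagV_norm (by omega)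
  have hfl1 : 1 / ((m + 1 : ℕ) : ℝ) < 1 := by
    rw [div_lt_one (by linarith)]
    exact hn1
  have hdlt : ∀ i, ‖diagV (m + 1) i‖ ^ 2 < 1 := fun i => by rw [diagV_apply_sq]; exact hfl1
  have hdJ : sec α (diagV (m + 1)) = ENNReal.ofReal (cst α m * DD α * vv α (m + 1)) := by
    rw [sec_eq_J hα _ hdn hdlt]
    simp only [diagV_apply_sq]
    rfl
  have hflat : FlatT a → sec α a = sec α (diagV (m + 1)) := by
    intro hf
    have hai : ∀ i, ‖a i‖ ^ 2 = 1 / ((m + 1 : ℕ) : ℝ) := congrFun ((flat_iff a).1 hf)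
    rw [sec_eq_J hα a ha (fun i => by rw [hai i]; exact hfl1), hdJ]
    simp only [hai]
    rfl
  by_cases hpair : PairT a
  · obtain ⟨i, j, hij, hi, hj⟩ := hpair
    have hs : sec α a = P :=
      sec_pair hα a ha i j hij ((norm_sq_half a i).2 hi) ((norm_sq_half a j).2 hj)
    rw [hs]
    refine ⟨le_max_left _ _, ⟨fun h => Or.inl ⟨⟨i, j, hij, hi, hj⟩, ?_⟩, ?_⟩⟩
    · rw [h]
      exact le_max_right _ _
    · rintro (⟨-, h⟩ | ⟨hf, h⟩)
      · rw [max_eq_left h]
      · rw [← hs, hflat hf, max_self]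
  by_cases hf : FlatT a
  · rw [hflat hf]
    refine ⟨le_max_right _ _, ⟨fun h => Or.inr ⟨hf, ?_⟩, ?_⟩⟩
    · rw [h]
      exact le_max_left _ _
    · rintro (⟨h, -⟩ | ⟨-, h⟩)
      · exact absurd h hpair
      · rw [max_eq_right h]
  have hlt : sec α a < max P (sec α (diagV (m + 1))) := by
    by_cases hone : ∃ i, ‖a i‖ ^ 2 = 1
    · obtain ⟨i, hi⟩ := hone
      exact lt_of_lt_of_le (sec_coord_lt hα hm a ha hi) (le_max_left _ _)
    · have hsum := asym_sum a ha
      have hlt1 : ∀ i, ‖a i‖ ^ 2 < 1 := fun i => by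
        refine lt_of_le_of_ne ?_ fun h => hone ⟨i, h⟩
        rw [← hsum]
        exact Finset.single_le_sum (f := fun i => ‖a i‖ ^ 2) (fun i _ => by positivity)
          (Finset.mem_univ i)
      have h1 := hcore (fun i => ‖a i‖ ^ 2) (fun i => by positivity) hsum hlt1
        (fun ⟨i, j, hij, hi, hj⟩ =>
          hpair ⟨i, j, hij, (norm_sq_half a i).1 hi, (norm_sq_half a j).1 hj⟩)
        (fun h => hf ((flat_iff a).2 h))
      rw [sec_eq_J hα a ha hlt1, hP, hdJ, ← ENNReal.ofReal_max]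
      rw [ENNReal.ofReal_lt_ofReal_iff (lt_max_of_lt_left (by positivity))]
      rcases lt_max_iff.1 h1 with h | h
      · exact lt_max_of_lt_left (mul_lt_mul_of_pos_left h hcD)
      · exact lt_max_of_lt_right (mul_lt_mul_of_pos_left h hcD)
  refine ⟨hlt.le, ⟨fun h2 => absurd h2 hlt.ne, ?_⟩⟩
  rintro (⟨h, -⟩ | ⟨h, -⟩)
  · exact absurd h hpair
  · exact absurd h hf

/-- the landed `n = 2` theorem in the form `Core` -/
theorem core_two (hα : 1 < α) : Core α 2 := by
  intro x hx h1 hlt hpair hflat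
  set a : EuclideanSpace ℂ (Fin 2) := WithLp.toLp 2 (fun i => ((√(x i) : ℝ) : ℂ)) with haD
  have hai : ∀ i, ‖a i‖ ^ 2 = x i := fun i => by
    have : a i = ((√(x i) : ℝ) : ℂ) := rfl
    rw [this, Complex.norm_real, Real.norm_of_nonneg (Real.sqrt_nonneg _), Real.sq_sqrt (hx i)]
  have ha : ‖a‖ = 1 := by
    rw [EuclideanSpace.norm_eq]
    simp only [hai]
    rw [h1, Real.sqrt_one]
  have hd : ‖diagV 2‖ = 1 := diagV_norm (by norm_num)
  obtain ⟨h2, h3⟩ := sec_two hα a ha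
  have h4 : sec α a < sec α (diagV 2) := by
    refine lt_of_le_of_ne h2 fun h => hflat ?_
    have h5 := (flat_iff a).1 (h3.1 h)
    funext i
    have h6 := congrFun h5 i
    change ‖a i‖ ^ 2 = _ at h6
    rw [hai] at h6
    exact h6
  have hcD : 0 < cst α 1 * DD α := mul_pos (cst_pos hα 1) (DD_pos (by linarith))
  rw [sec_eq_J (m := 1) hα a ha (fun i => by rw [hai i]; exact hlt i), sec_eq_J (m := 1) hα _ hd
    (fun i => by rw [diagV_apply_sq]; norm_num)] at h4
  simp only [hai, diagV_apply_sq] at h4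
  have h5 := (ENNReal.ofReal_lt_ofReal_iff_of_nonneg (by
    have := J_pos (m := 1) hα a ha (fun i => by rw [hai i]; exact hlt i)
    simp only [hai] at this
    positivity)).1 h4
  exact lt_max_of_lt_right (lt_of_mul_lt_mul_left h5 hcD.le)

/-- The complete theorem from `Core` in dimensions at least three. -/
theorem final4 (hcore : ∀ α : ℝ, 1 < α → ∀ n : ℕ, 3 ≤ n → Core α n) :
    ∀ p : ℝ, 2 < p → ∀ n : ℕ, 2 ≤ n →
      secVol p (pairV n) = ENNReal.ofReal (2 ^ (1 - 2 / p)) * volume (ball p (n - 1)) ∧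
      ∀ a : EuclideanSpace ℂ (Fin n), ‖a‖ = 1 →
      secVol p a ≤ max (secVol p (pairV n)) (secVol p (diagV n)) ∧
      (secVol p a = max (secVol p (pairV n)) (secVol p (diagV n)) ↔
        (PairT a ∧ secVol p (diagV n) ≤ secVol p (pairV n)) ∨
        (FlatT a ∧ secVol p (pairV n) ≤ secVol p (diagV n))) := by
  intro p hp2 n hn
  have hα : 1 < p / 2 := by linarith
  -- division by the Gamma factor
  have hG : ∀ m : ℕ, ENNReal.ofReal (Gamma (1 + m / (p / 2))) ≠ 0 := fun m => by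
    have : 0 < Gamma (1 + m / (p / 2)) := Gamma_pos_of_pos (by positivity)
    simpa using this
  have hdle : ∀ (m : ℕ) (x y : ENNReal), x / ENNReal.ofReal (Gamma (1 + m / (p / 2))) ≤
      y / ENNReal.ofReal (Gamma (1 + m / (p / 2))) ↔ x ≤ y := fun m x y => by
    rw [ENNReal.div_le_iff (hG m) ENNReal.ofReal_ne_top,
      ENNReal.div_mul_cancel (hG m) ENNReal.ofReal_ne_top]
  have hpv : ∀ m : ℕ, 1 ≤ m → ‖pairV (m + 1)‖ = 1 ∧
      sec (p / 2) (pairV (m + 1)) = ENNReal.ofReal (cst (p / 2) m * DD (p / 2) * AA (p / 2)) := by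
    intro m hm
    obtain ⟨k, rfl⟩ : ∃ k, m = k + 1 := ⟨m - 1, by omega⟩
    refine ⟨pairV_norm k, ?_⟩
    refine sec_pair hα (pairV (k + 2)) (pairV_norm k) 0 1 ?_ ?_ ?_
    · intro h
      have := congrArg Fin.val h
      simp at this
    · exact (norm_sq_half _ _).2 (pairV_zero k)
    · exact (norm_sq_half _ _).2 (pairV_one k)
  obtain ⟨m, rfl⟩ : ∃ m, n = m + 1 := ⟨n - 1, by omega⟩
  have hm : 1 ≤ m := by omega
  obtain ⟨hpn, hps⟩ := hpv m hm
  have hdn : ‖diagV (m + 1)‖ = 1 := diagV_norm (by omega)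
  have hc2 : Core (p / 2) (m + 1) := by
    rcases Nat.lt_or_ge m 2 with h | h
    · have : m = 1 := by omega
      subst this
      exact core_two hα
    · exact hcore _ hα _ (by omega)
  constructor
  · rw [Nat.add_sub_cancel, secVol_eq hp2 hm _ hpn, hps, ball_vol_eq hp2 hm]
    have hc := cst_pos hα m
    have hD := DD_pos (α := p / 2) (by linarith)
    have hGp : 0 < Gamma (1 + m / (p / 2)) := Gamma_pos_of_pos (by positivity)
    have hDA : DD (p / 2) * AA (p / 2) = 2 ^ (1 - 2 / p) := by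
      unfold AA
      have e1 : 1 / (p / 2) = 2 / p := by field_simp
      rw [e1]
      field_simp
    rw [← ENNReal.ofReal_div_of_pos hGp, ← ENNReal.ofReal_mul (by positivity), mul_assoc, hDA]
    congr 1
    ring
  · intro a ha
    obtain ⟨h1, h2⟩ := sec_max_core hα hm hc2 a ha
    rw [← hps] at h1 h2
    rw [secVol_eq hp2 hm a ha, secVol_eq hp2 hm _ hpn, secVol_eq hp2 hm _ hdn]
    have hmx : max (sec (p / 2) (pairV (m + 1)) / ENNReal.ofReal (Gamma (1 + m / (p / 2))))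
        (sec (p / 2) (diagV (m + 1)) / ENNReal.ofReal (Gamma (1 + m / (p / 2)))) =
        max (sec (p / 2) (pairV (m + 1))) (sec (p / 2) (diagV (m + 1))) /
          ENNReal.ofReal (Gamma (1 + m / (p / 2))) := by
      rcases le_total (sec (p / 2) (pairV (m + 1))) (sec (p / 2) (diagV (m + 1))) with h | h
      · rw [max_eq_right h, max_eq_right ((hdle m _ _).2 h)]
      · rw [max_eq_left h, max_eq_left ((hdle m _ _).2 h)]
    rw [hmx]
    refine ⟨(hdle m _ _).2 h1, ?_⟩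
    rw [hdle, hdle, ← h2]
    constructor
    · intro h
      exact le_antisymm ((hdle m _ _).1 h.le) ((hdle m _ _).1 h.ge)
    · intro h
      rw [h]

end LpSec
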