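import Mathlib
import Pool.Agent.Lib.MP_1dbab3_gt.AsA
import Pool.Agent.Lib.MP_1dbab3_gt.WBase
import Pool.Agent.Lib.MP_1dbab3_gt.C02Tail

/-!
# `n (1 - vv α n) → 1/3` as `α, n → ∞`
-/

open Real MeasureTheory Set Filter Topology

namespace LpSec.AsN

variable {α : ℝ}

theorem pow_exp_int (k : ℕ) {b : ℝ} (hb : 0 < b) :
    IntegrableOn (fun s : ℝ => s ^ k * exp (-(b * s))) (Ioi 0) ∧
      ∫ s in Ioi (0 : ℝ), s ^ k * exp (-(b * s)) = (k.factorial : ℝ) / b ^ (k + 1) := by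
  have h := integral_rpow_mul_exp_neg_mul_Ioi (a := (k : ℝ) + 1) (r := b) (by positivity) hb
  have e : ∀ s : ℝ, s ^ ((k : ℝ) + 1 - 1) * exp (-(b * s)) = s ^ k * exp (-(b * s)) := by
    intro s
    rw [add_sub_cancel_right, rpow_natCast]
  simp only [e] at h
  have h2 : (1 / b) ^ ((k : ℝ) + 1) * Gamma ((k : ℝ) + 1) = (k.factorial : ℝ) / b ^ (k + 1) := by
    rw [Real.Gamma_nat_eq_factorial, show ((k : ℝ) + 1) = ((k + 1 : ℕ) : ℝ) by push_cast; ring,
      rpow_natCast, one_div, inv_pow]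
    field_simp
  refine ⟨?_, h.trans h2⟩
  by_contra hcon
  rw [integral_undef hcon] at h
  have h3 : (0 : ℝ) < (k.factorial : ℝ) / b ^ (k + 1) := by positivity
  rw [← h2, ← h] at h3
  exact lt_irrefl _ h3

theorem exp_int_Ioi {b c : ℝ} (hb : 0 < b) :
    IntegrableOn (fun s : ℝ => exp (-(b * s))) (Ioi c) ∧
      ∫ s in Ioi c, exp (-(b * s)) = exp (-(b * c)) / b := by
  have hb' : -b < 0 := by linarith
  have hi := integrableOn_exp_mul_Ioi hb' c
  have h1 := integral_exp_mul_Ioi hb' c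
  simp only [neg_mul] at hi h1
  refine ⟨hi, h1.trans ?_⟩
  rw [neg_div_neg_eq]

/-- `∫ Phi^n` -/
noncomputable def II (α : ℝ) (n : ℕ) : ℝ := ∫ s in Ioi (0 : ℝ), Phi α s ^ n

theorem pow_int (hα : 1 < α) {n : ℕ} (hn : 2 ≤ n) :
    IntegrableOn (fun s => Phi α s ^ n) (Ioi 0) := by
  refine Integrable.mono' (Phi_sq_integrable hα) ?_ ?_
  · exact (((Phi_continuousOn hα).pow n).mono Ioi_subset_Ici_self).aestronglyMeasurable
      measurableSet_Ioi
  · refine (ae_restrict_iff' measurableSet_Ioi).2 (Eventually.of_forall fun s hs => ?_)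
    have h1 := Phi_abs_le_one hα (le_of_lt hs)
    rw [Real.norm_eq_abs, abs_pow, ← sq_abs]
    exact pow_le_pow_of_le_one (abs_nonneg _) h1 hn

theorem vv_eq (α : ℝ) {n : ℕ} (hn : 0 < n) : vv α n = n * II α n := by
  have hn0 : (0 : ℝ) < n := by exact_mod_cast hn
  unfold vv J II
  simp only [diag_prod]
  rw [integral_comp_mul_left_Ioi (fun s => Phi α s ^ n) 0 (by positivity : (0 : ℝ) < 1 / n),
    mul_zero, smul_eq_mul, one_div, inv_inv]

theorem tail_le (hα : 1 < α) (htail : ∀ s : ℝ, 1.45 ≤ s → |Phi α s| ≤ exp (-2)) {n : ℕ}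
    (hn : 2 ≤ n) {s1 : ℝ} (hs1 : 0 < s1) :
    |∫ s in Ioi s1, Phi α s ^ n| ≤ exp (-(n * s1)) / n + exp (-(2 * ((n : ℝ) - 2))) / 2 := by
  have hn0 : (0 : ℝ) < n := by exact_mod_cast (by omega : 0 < n)
  obtain ⟨e1, e2⟩ := exp_int_Ioi (b := n) (c := s1) hn0
  have q1 := (Phi_sq_integrable_Ioi hα hs1.le).const_mul (exp (-(2 * ((n : ℝ) - 2))))
  rw [← Real.norm_eq_abs]
  refine (norm_integral_le_of_norm_le (e1.add q1) ?_).trans ?_
  · refine (ae_restrict_iff' measurableSet_Ioi).2 (Eventually.of_forall fun s hs => ?_)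
    have hs' : s1 < s := hs
    have hs0 : 0 ≤ s := by linarith
    rw [Real.norm_eq_abs, abs_pow]
    simp only [Pi.add_apply]
    rcases le_or_gt s 1.45 with h | h
    · have h1 := main_lobe hα hs0 (by linarith)
      have h2 : |Phi α s| ^ n ≤ exp (-(n * s)) := by
        calc |Phi α s| ^ n ≤ exp (-s) ^ n := pow_le_pow_left₀ (abs_nonneg _) h1 n
          _ = exp (-(n * s)) := by
              rw [← exp_nat_mul]
              congr 1
              ring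
      have h3 : 0 ≤ exp (-(2 * ((n : ℝ) - 2))) * Phi α s ^ 2 := by positivity
      linarith
    · have h1 := htail s h.le
      have h2 : |Phi α s| ^ n ≤ exp (-(2 * ((n : ℝ) - 2))) * Phi α s ^ 2 := by
        have hn2 : n = (n - 2) + 2 := by omega
        have h3 : |Phi α s| ^ n = |Phi α s| ^ (n - 2) * Phi α s ^ 2 := by
          rw [← sq_abs (Phi α s), ← pow_add]
          congr 1
        rw [h3]
        apply mul_le_mul_of_nonneg_right _ (by positivity)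
        calc |Phi α s| ^ (n - 2) ≤ exp (-2) ^ (n - 2) := pow_le_pow_left₀ (abs_nonneg _) h1 _
          _ = exp (-(2 * ((n : ℝ) - 2))) := by
              rw [← exp_nat_mul]
              congr 1
              rw [Nat.cast_sub hn]
              push_cast
              ring
      have h3 := exp_pos (-((n : ℝ) * s))
      linarith
  · have e3 : ∫ s in Ioi s1, ((fun s => exp (-((n : ℝ) * s))) + fun s =>
        exp (-(2 * ((n : ℝ) - 2))) * Phi α s ^ 2) s = exp (-(n * s1)) / n +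
          exp (-(2 * ((n : ℝ) - 2))) * ∫ s in Ioi s1, Phi α s ^ 2 := by
      simp only [Pi.add_apply]
      rw [integral_add e1 q1, e2, integral_const_mul]
    rw [e3]
    have h1 : ∫ s in Ioi s1, Phi α s ^ 2 ≤ AA α / 2 := by
      rw [← Phi_sq_total hα]
      exact setIntegral_mono_set (Phi_sq_integrable hα)
        (Eventually.of_forall fun s => sq_nonneg _) (Ioi_subset_Ioi hs1.le).eventuallyLE
    have h2 := AA_lt_one hα
    have h3 := exp_pos (-(2 * ((n : ℝ) - 2)))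
    nlinarith

theorem split_int (hα : 1 < α) {n : ℕ} (hn : 2 ≤ n) {s1 : ℝ} (hs1 : 0 < s1) :
    II α n = (∫ s in Ioc (0 : ℝ) s1, Phi α s ^ n) + ∫ s in Ioi s1, Phi α s ^ n := by
  have hi := pow_int hα hn
  unfold II
  rw [← Ioc_union_Ioi_eq_Ioi hs1.le]
  exact setIntegral_union (Ioc_disjoint_Ioi le_rfl) measurableSet_Ioi
    (hi.mono_set Ioc_subset_Ioi_self) (hi.mono_set (Ioi_subset_Ioi hs1.le))

theorem main_up (hα : 1 < α) {n : ℕ} (hn : 2 ≤ n) {s1 κ : ℝ} (hκ : 0 ≤ κ)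
    (h0 : ∀ s ∈ Icc 0 s1, 0 ≤ Phi α s)
    (h : ∀ s ∈ Icc 0 s1, Phi α s ≤ exp (-s - κ * s ^ 2)) :
    n * ∫ s in Ioc (0 : ℝ) s1, Phi α s ^ n ≤ 1 - 2 * κ / n + 12 * κ ^ 2 / n ^ 2 := by
  have hn0 : (0 : ℝ) < n := by exact_mod_cast (by omega : 0 < n)
  obtain ⟨a0, b0⟩ := pow_exp_int 0 hn0
  obtain ⟨a2, b2⟩ := pow_exp_int 2 hn0
  obtain ⟨a4, b4⟩ := pow_exp_int 4 hn0
  have i2 : IntegrableOn (fun s : ℝ => n * κ * (s ^ 2 * exp (-(n * s)))) (Ioi 0) :=
    a2.const_mul _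
  have i4 : IntegrableOn (fun s : ℝ => n ^ 2 * κ ^ 2 / 2 * (s ^ 4 * exp (-(n * s)))) (Ioi 0) :=
    a4.const_mul _
  have i02 : IntegrableOn (fun s : ℝ => s ^ 0 * exp (-(n * s)) -
      n * κ * (s ^ 2 * exp (-(n * s)))) (Ioi 0) := a0.sub i2
  have i024 : IntegrableOn (fun s : ℝ => s ^ 0 * exp (-(n * s)) -
      n * κ * (s ^ 2 * exp (-(n * s))) + n ^ 2 * κ ^ 2 / 2 * (s ^ 4 * exp (-(n * s)))) (Ioi 0) :=
    i02.add i4
  have hnn : ∀ s : ℝ, 0 ≤ s → exp (-(n * s) - n * κ * s ^ 2) ≤ s ^ 0 * exp (-(n * s)) -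
      n * κ * (s ^ 2 * exp (-(n * s))) + n ^ 2 * κ ^ 2 / 2 * (s ^ 4 * exp (-(n * s))) := by
    intro s hs
    have hx : 0 ≤ n * κ * s ^ 2 := by positivity
    have hq : exp (-(n * κ * s ^ 2)) ≤ 1 - n * κ * s ^ 2 + (n * κ * s ^ 2) ^ 2 / 2 := by
      have h1 := quadratic_le_exp_of_nonneg hx
      rw [exp_neg]
      have h2 : 0 < 1 + n * κ * s ^ 2 + (n * κ * s ^ 2) ^ 2 / 2 := by positivity
      refine (inv_anti₀ h2 h1).trans ?_
      rw [inv_le_iff_one_le_mul₀ h2]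
      nlinarith [sq_nonneg ((n * κ * s ^ 2) ^ 2)]
    have he : exp (-(n * s) - n * κ * s ^ 2) = exp (-(n * s)) * exp (-(n * κ * s ^ 2)) := by
      rw [← exp_add]
      ring_nf
    rw [he]
    calc exp (-(n * s)) * exp (-(n * κ * s ^ 2)) ≤
        exp (-(n * s)) * (1 - n * κ * s ^ 2 + (n * κ * s ^ 2) ^ 2 / 2) :=
          mul_le_mul_of_nonneg_left hq (exp_pos _).le
      _ = _ := by ring
  have h1 : ∫ s in Ioc (0 : ℝ) s1, Phi α s ^ n ≤ ∫ s in Ioi (0 : ℝ), (s ^ 0 * exp (-(n * s)) -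
      n * κ * (s ^ 2 * exp (-(n * s))) + n ^ 2 * κ ^ 2 / 2 * (s ^ 4 * exp (-(n * s)))) := by
    calc ∫ s in Ioc (0 : ℝ) s1, Phi α s ^ n ≤ ∫ s in Ioc (0 : ℝ) s1, (s ^ 0 * exp (-(n * s)) -
          n * κ * (s ^ 2 * exp (-(n * s))) +
            n ^ 2 * κ ^ 2 / 2 * (s ^ 4 * exp (-(n * s)))) := by
          refine setIntegral_mono_on ((pow_int hα hn).mono_set Ioc_subset_Ioi_self)
            (i024.mono_set Ioc_subset_Ioi_self) measurableSet_Ioc fun s hs => ?_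
          have hs' : s ∈ Icc 0 s1 := ⟨hs.1.le, hs.2⟩
          refine le_trans ?_ (hnn s hs.1.le)
          calc Phi α s ^ n ≤ exp (-s - κ * s ^ 2) ^ n := pow_le_pow_left₀ (h0 s hs') (h s hs') n
            _ = exp (-(n * s) - n * κ * s ^ 2) := by
                rw [← exp_nat_mul]
                ring_nf
      _ ≤ _ := by
          refine setIntegral_mono_set i024 ?_ Ioc_subset_Ioi_self.eventuallyLE
          refine (ae_restrict_iff' measurableSet_Ioi).2 (Eventually.of_forall fun s hs => ?_)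
          exact (exp_pos _).le.trans (hnn s (le_of_lt hs))
  have e : ∫ s in Ioi (0 : ℝ), (s ^ 0 * exp (-(n * s)) -
      n * κ * (s ^ 2 * exp (-(n * s))) + n ^ 2 * κ ^ 2 / 2 * (s ^ 4 * exp (-(n * s)))) =
      1 / n - n * κ * (2 / n ^ 3) + n ^ 2 * κ ^ 2 / 2 * (24 / n ^ 5) := by
    rw [integral_add i02 i4, integral_sub a0 i2, integral_const_mul, integral_const_mul, b0, b2, b4]
    norm_num [Nat.factorial]
  rw [e] at h1
  calc n * ∫ s in Ioc (0 : ℝ) s1, Phi α s ^ n ≤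
      n * (1 / n - n * κ * (2 / n ^ 3) + n ^ 2 * κ ^ 2 / 2 * (24 / n ^ 5)) :=
        mul_le_mul_of_nonneg_left h1 hn0.le
    _ = _ := by
        field_simp
        ring

theorem main_lo (hα : 1 < α) {n : ℕ} (hn : 2 ≤ n) {s1 κ : ℝ} (hs1 : 0 < s1) (hκ : 0 ≤ κ)
    (h : ∀ s ∈ Icc 0 s1, exp (-s - κ * s ^ 2) ≤ Phi α s) :
    1 - 2 * κ / n - exp (-(n * s1)) ≤ n * ∫ s in Ioc (0 : ℝ) s1, Phi α s ^ n := by
  have hn0 : (0 : ℝ) < n := by exact_mod_cast (by omega : 0 < n)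
  obtain ⟨a0, b0⟩ := pow_exp_int 0 hn0
  obtain ⟨a2, b2⟩ := pow_exp_int 2 hn0
  obtain ⟨e1, e2⟩ := exp_int_Ioi (b := n) (c := s1) hn0
  have i2 : IntegrableOn (fun s : ℝ => n * κ * (s ^ 2 * exp (-(n * s)))) (Ioi 0) :=
    a2.const_mul _
  have i02 : IntegrableOn (fun s : ℝ => s ^ 0 * exp (-(n * s)) -
      n * κ * (s ^ 2 * exp (-(n * s)))) (Ioi 0) := a0.sub i2
  have h1 : ∫ s in Ioc (0 : ℝ) s1, (s ^ 0 * exp (-(n * s)) - n * κ * (s ^ 2 * exp (-(n * s)))) ≤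
      ∫ s in Ioc (0 : ℝ) s1, Phi α s ^ n := by
    refine setIntegral_mono_on (i02.mono_set Ioc_subset_Ioi_self)
      ((pow_int hα hn).mono_set Ioc_subset_Ioi_self) measurableSet_Ioc fun s hs => ?_
    have hs' : s ∈ Icc 0 s1 := ⟨hs.1.le, hs.2⟩
    have hq := add_one_le_exp (-(n * κ * s ^ 2))
    calc s ^ 0 * exp (-(n * s)) - n * κ * (s ^ 2 * exp (-(n * s))) =
        exp (-(n * s)) * (-(n * κ * s ^ 2) + 1) := by ring
      _ ≤ exp (-(n * s)) * exp (-(n * κ * s ^ 2)) :=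
          mul_le_mul_of_nonneg_left hq (exp_pos _).le
      _ = exp (-s - κ * s ^ 2) ^ n := by
          rw [← exp_nat_mul, ← exp_add]
          ring_nf
      _ ≤ Phi α s ^ n := pow_le_pow_left₀ (exp_pos _).le (h s hs') n
  have h2 : ∫ s in Ioi (0 : ℝ), (s ^ 0 * exp (-(n * s)) - n * κ * (s ^ 2 * exp (-(n * s)))) =
      (∫ s in Ioc (0 : ℝ) s1, (s ^ 0 * exp (-(n * s)) - n * κ * (s ^ 2 * exp (-(n * s))))) +
      ∫ s in Ioi s1, (s ^ 0 * exp (-(n * s)) - n * κ * (s ^ 2 * exp (-(n * s)))) := by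
    rw [← Ioc_union_Ioi_eq_Ioi hs1.le]
    exact setIntegral_union (Ioc_disjoint_Ioi le_rfl) measurableSet_Ioi
      (i02.mono_set Ioc_subset_Ioi_self) (i02.mono_set (Ioi_subset_Ioi hs1.le))
  have h3 : ∫ s in Ioi s1, (s ^ 0 * exp (-(n * s)) - n * κ * (s ^ 2 * exp (-(n * s)))) ≤
      exp (-(n * s1)) / n := by
    rw [← e2]
    refine setIntegral_mono_on (i02.mono_set (Ioi_subset_Ioi hs1.le)) e1 measurableSet_Ioi
      fun s hs => ?_
    have : 0 ≤ n * κ * (s ^ 2 * exp (-(n * s))) := by positivity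
    rw [pow_zero, one_mul]
    linarith
  have e : ∫ s in Ioi (0 : ℝ), (s ^ 0 * exp (-(n * s)) - n * κ * (s ^ 2 * exp (-(n * s)))) =
      1 / n - n * κ * (2 / n ^ 3) := by
    rw [integral_sub a0 i2, integral_const_mul, b0, b2]
    norm_num [Nat.factorial]
  rw [e] at h2
  have h4 : 1 / n - n * κ * (2 / n ^ 3) - exp (-(n * s1)) / n ≤
      ∫ s in Ioc (0 : ℝ) s1, Phi α s ^ n := by linarith
  calc 1 - 2 * κ / n - exp (-(n * s1)) =
      n * (1 / n - n * κ * (2 / n ^ 3) - exp (-(n * s1)) / n) := by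
        field_simp
    _ ≤ _ := mul_le_mul_of_nonneg_left h4 hn0.le

theorem two_sided {δ : ℝ} (hδ : 0 < δ) (hδ1 : δ ≤ 1 / 6) : ∀ᶠ α : ℝ in atTop,
    ∀ n : ℕ, 2 ≤ n →
      (n : ℝ) * (1 - vv α n) ≤ 1 / 3 + 2 * δ + 2 * (n * exp (-(n * (δ / 4)))) +
        n ^ 2 * exp (-(2 * ((n : ℝ) - 2))) ∧
      1 / 3 - 2 * δ - 12 / n - 2 * (n * exp (-(n * (δ / 4)))) -
        n ^ 2 * exp (-(2 * ((n : ℝ) - 2))) ≤ n * (1 - vv α n) := by
  filter_upwards [Phi_two hδ hδ1, tail_inf, eventually_gt_atTop 1] with α h1 h2 hα n hn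
  have hn0 : (0 : ℝ) < n := by exact_mod_cast (by omega : 0 < n)
  have hs1 : 0 < δ / 4 := by positivity
  have up := main_up hα hn (κ := 1 / 6 - δ) (s1 := δ / 4) (by linarith)
    (fun s hs => (exp_pos _).le.trans (h1 s hs).1) (fun s hs => (h1 s hs).2)
  have lo := main_lo hα hn (κ := 1 / 6 + δ) hs1 (by linarith) (fun s hs => (h1 s hs).1)
  have tl := tail_le hα h2 hn hs1
  obtain ⟨t1, t2⟩ := abs_le.1 tl
  have hsp : vv α n = (n * ∫ s in Ioc (0 : ℝ) (δ / 4), Phi α s ^ n) +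
      n * ∫ s in Ioi (δ / 4), Phi α s ^ n := by
    rw [vv_eq α (by omega : 0 < n), split_int hα hn hs1]
    ring
  have t1' : -(exp (-(n * (δ / 4))) + n * exp (-(2 * ((n : ℝ) - 2))) / 2) ≤
      n * ∫ s in Ioi (δ / 4), Phi α s ^ n := by
    have := mul_le_mul_of_nonneg_left t1 hn0.le
    refine le_trans (le_of_eq ?_) this
    field_simp
  have t2' : n * ∫ s in Ioi (δ / 4), Phi α s ^ n ≤
      exp (-(n * (δ / 4))) + n * exp (-(2 * ((n : ℝ) - 2))) / 2 := by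
    have := mul_le_mul_of_nonneg_left t2 hn0.le
    refine this.trans (le_of_eq ?_)
    field_simp
  set E1 := exp (-(n * (δ / 4))) with hE1
  set E2 := exp (-(2 * ((n : ℝ) - 2))) with hE2
  have p1 : 0 < E1 := exp_pos _
  have p2 : 0 < E2 := exp_pos _
  constructor
  · have h3 : 1 - vv α n ≤ 2 * (1 / 6 + δ) / n + 2 * E1 + n * E2 / 2 := by
      rw [hsp]; linarith
    have h4 := mul_le_mul_of_nonneg_left h3 hn0.le
    have e : n * (2 * (1 / 6 + δ) / n + 2 * E1 + n * E2 / 2) =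
        1 / 3 + 2 * δ + 2 * (n * E1) + n ^ 2 * E2 / 2 := by
      field_simp
      ring
    rw [e] at h4
    have : 0 ≤ n ^ 2 * E2 := by positivity
    linarith
  · have h3 : 2 * (1 / 6 - δ) / n - 12 * (1 / 6 - δ) ^ 2 / n ^ 2 - E1 - n * E2 / 2 ≤
        1 - vv α n := by
      rw [hsp]; linarith
    have h4 := mul_le_mul_of_nonneg_left h3 hn0.le
    have e : n * (2 * (1 / 6 - δ) / n - 12 * (1 / 6 - δ) ^ 2 / n ^ 2 - E1 - n * E2 / 2) =
        1 / 3 - 2 * δ - 12 * (1 / 6 - δ) ^ 2 / n - n * E1 - n ^ 2 * E2 / 2 := by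
      field_simp
      ring
    rw [e] at h4
    have h5 : 0 ≤ n ^ 2 * E2 := by positivity
    have h6 : 0 ≤ n * E1 := by positivity
    have h7 : 12 * (1 / 6 - δ) ^ 2 / n ≤ 12 / n := by
      apply div_le_div_of_nonneg_right _ hn0.le
      nlinarith
    linarith

/-- `n (1 - vv α n) → 1/3` as `α, n → ∞` -/
theorem vv_lim {ε : ℝ} (hε : 0 < ε) : ∃ n1 : ℕ, ∀ᶠ α : ℝ in atTop, ∀ n : ℕ, n1 ≤ n →
    |(n : ℝ) * (1 - vv α n) - 1 / 3| ≤ ε := by
  set δ : ℝ := min (1 / 6) (ε / 4) with hδd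
  have hδ : 0 < δ := lt_min (by norm_num) (by positivity)
  have hδ1 : δ ≤ 1 / 6 := min_le_left _ _
  have hδ2 : δ ≤ ε / 4 := min_le_right _ _
  have l1 : Tendsto (fun n : ℕ => (n : ℝ) * exp (-(n * (δ / 4)))) atTop (𝓝 0) := by
    have h := (tendsto_pow_mul_exp_neg_atTop_nhds_zero 1).comp
      (tendsto_natCast_atTop_atTop.atTop_mul_const (show 0 < δ / 4 by positivity))
    have h2 := h.const_mul (4 / δ)
    rw [mul_zero] at h2
    refine h2.congr fun n => ?_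
    simp only [Function.comp, pow_one]
    field_simp
  have l2 : Tendsto (fun n : ℕ => (n : ℝ) ^ 2 * exp (-(2 * ((n : ℝ) - 2)))) atTop (𝓝 0) := by
    have h := (tendsto_pow_mul_exp_neg_atTop_nhds_zero 2).comp
      (tendsto_natCast_atTop_atTop.atTop_mul_const (show (0 : ℝ) < 2 by norm_num))
    have h2 := h.const_mul (exp 4 / 4)
    rw [mul_zero] at h2
    refine h2.congr fun n => ?_
    simp only [Function.comp]
    have e : exp (-(2 * ((n : ℝ) - 2))) = exp 4 * exp (-((n : ℝ) * 2)) := by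
      rw [← exp_add]
      ring_nf
    rw [e]
    ring
  have l3 : Tendsto (fun n : ℕ => 12 / (n : ℝ)) atTop (𝓝 0) :=
    tendsto_const_nhds.div_atTop tendsto_natCast_atTop_atTop
  have l : Tendsto (fun n : ℕ => 12 / (n : ℝ) + 2 * ((n : ℝ) * exp (-(n * (δ / 4)))) +
      (n : ℝ) ^ 2 * exp (-(2 * ((n : ℝ) - 2)))) atTop (𝓝 0) := by
    have := (l3.add (l1.const_mul 2)).add l2
    simpa using this
  obtain ⟨n1, hn1⟩ := eventually_atTop.1 ((l.eventually (eventually_le_nhds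
    (show (0 : ℝ) < ε / 2 by positivity))).and (eventually_ge_atTop 2))
  refine ⟨n1, ?_⟩
  filter_upwards [two_sided hδ hδ1] with α h n hn
  obtain ⟨h1, h2⟩ := hn1 n hn
  obtain ⟨h3, h4⟩ := h n h2
  have h5 : 0 ≤ 12 / (n : ℝ) := by positivity
  exact abs_le.2 ⟨by linarith, by linarith⟩

end LpSec.AsN
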