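import Mathlib
import Pool.Agent.Lib.MP_1dbab3_gt.WBase

/-!
# The threshold dimension

`vv α n` (the value of `J` at the flat point of dimension `n`) is compared with `AA α` (the pair
value): the flat point of dimension `n` is a competitor in dimension `n + 1`, so `Core α (n + 1)`
gives `vv α n < max (AA α) (vv α (n + 1))`. Hence the set of all `n ≥ 3` with `AA α ≤ vv α n` is a
final segment on which `vv α` increases strictly.
-/

open Real MeasureTheory Set Filter Topology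

namespace LpSec

variable {α : ℝ}

theorem J_snoc (hα : 1 < α) {n : ℕ} (x : Fin n → ℝ) :
    J α (Fin.snoc (α := fun _ => ℝ) x 0) = J α x := by
  unfold J
  refine setIntegral_congr_fun measurableSet_Ioi fun s _ => ?_
  simp [Fin.prod_univ_castSucc, Phi_zero hα]

theorem vv_succ (hα : 1 < α) {n : ℕ} (hn : 3 ≤ n) (h : Core α (n + 1)) :
    vv α n < max (AA α) (vv α (n + 1)) := by
  have hn0 : (3 : ℝ) ≤ n := by exact_mod_cast hn
  have hinv : 1 / (n : ℝ) ≤ 1 / 3 := one_div_le_one_div_of_le (by norm_num) hn0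
  have hpos : 0 < 1 / (n : ℝ) := by positivity
  set x : Fin (n + 1) → ℝ := Fin.snoc (α := fun _ => ℝ) (fun _ : Fin n => 1 / (n : ℝ)) 0 with hx
  have hc : ∀ i : Fin n, x i.castSucc = 1 / (n : ℝ) := fun i => by
    rw [hx, Fin.snoc_castSucc]
  have hl : x (Fin.last n) = 0 := by rw [hx, Fin.snoc_last]
  have hle : ∀ i, x i ≤ 1 / 3 := by
    intro i
    induction i using Fin.lastCases with
    | last => rw [hl]; norm_num
    | cast i => rw [hc]; exact hinv
  have h0 : ∀ i, 0 ≤ x i := by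
    intro i
    induction i using Fin.lastCases with
    | last => rw [hl]
    | cast i => rw [hc]; exact hpos.le
  have hsum : ∑ i, x i = 1 := by
    rw [Fin.sum_univ_castSucc, hl]
    simp only [hc]
    rw [Finset.sum_const, Finset.card_univ, Fintype.card_fin, nsmul_eq_mul, add_zero]
    field_simp
  have h1 := h x h0 hsum (fun i => by linarith [hle i])
    (fun ⟨i, _, _, hi, _⟩ => by linarith [hle i])
    (fun hf => by
      have h2 := congrFun hf (Fin.last n)
      rw [hl] at h2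
      have : (0 : ℝ) < 1 / ((n + 1 : ℕ) : ℝ) := by positivity
      linarith)
  rwa [hx, J_snoc hα] at h1

theorem diag_sec (hα : 1 < α) {m : ℕ} (hm : 1 ≤ m) :
    sec α (diagV (m + 1)) = ENNReal.ofReal (cst α m * DD α * vv α (m + 1)) := by
  have hn1 : (1 : ℝ) < ((m + 1 : ℕ) : ℝ) := by exact_mod_cast (by omega : 1 < m + 1)
  have hdn : ‖diagV (m + 1)‖ = 1 := diagV_norm (by omega)
  have hfl1 : 1 / ((m + 1 : ℕ) : ℝ) < 1 := by
    rw [div_lt_one (by linarith)]
    exact hn1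
  have hdlt : ∀ i, ‖diagV (m + 1) i‖ ^ 2 < 1 := fun i => by rw [diagV_apply_sq]; exact hfl1
  rw [sec_eq_J hα _ hdn hdlt]
  simp only [diagV_apply_sq]
  rfl

theorem pair_sec (hα : 1 < α) {m : ℕ} (hm : 1 ≤ m) :
    ‖pairV (m + 1)‖ = 1 ∧
      sec α (pairV (m + 1)) = ENNReal.ofReal (cst α m * DD α * AA α) := by
  obtain ⟨k, rfl⟩ : ∃ k, m = k + 1 := ⟨m - 1, by omega⟩
  refine ⟨pairV_norm k, ?_⟩
  refine sec_pair hα (pairV (k + 2)) (pairV_norm k) 0 1 ?_ ?_ ?_
  · intro h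
    have := congrArg Fin.val h
    simp at this
  · exact (norm_sq_half _ _).2 (pairV_zero k)
  · exact (norm_sq_half _ _).2 (pairV_one k)

theorem vv_nonneg (hα : 1 < α) {n : ℕ} (hn : 2 ≤ n) : 0 ≤ vv α n := by
  obtain ⟨m, rfl⟩ : ∃ m, n = m + 1 := ⟨n - 1, by omega⟩
  have hn1 : (1 : ℝ) < ((m + 1 : ℕ) : ℝ) := by exact_mod_cast (by omega : 1 < m + 1)
  have hfl1 : 1 / ((m + 1 : ℕ) : ℝ) < 1 := by
    rw [div_lt_one (by linarith)]
    exact hn1
  have h := J_pos hα (diagV (m + 1)) (diagV_norm (by omega))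
    (fun i => by rw [diagV_apply_sq]; exact hfl1)
  simp only [diagV_apply_sq] at h
  exact h

/-- The volume of the diagonal section. -/
theorem secVol_diag {p : ℝ} (hp : 2 < p) {n : ℕ} (hn : 2 ≤ n) :
    secVol p (diagV n) =
      ENNReal.ofReal (DD (p / 2) * vv (p / 2) n) * volume (ball p (n - 1)) := by
  have hα : 1 < p / 2 := by linarith
  obtain ⟨m, rfl⟩ : ∃ m, n = m + 1 := ⟨n - 1, by omega⟩
  have hm : 1 ≤ m := by omega
  have hG : 0 < Gamma (1 + m / (p / 2)) := Gamma_pos_of_pos (by positivity)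
  have hD := DD_pos (α := p / 2) (by linarith)
  have hv := vv_nonneg hα hn
  rw [Nat.add_sub_cancel, secVol_eq hp hm _ (diagV_norm (by omega)), diag_sec hα hm,
    ball_vol_eq hp hm, ← ENNReal.ofReal_div_of_pos hG, ← ENNReal.ofReal_mul (by positivity)]
  congr 1
  ring

/-- The volume of the pair section. -/
theorem secVol_pair {p : ℝ} (hp : 2 < p) {n : ℕ} (hn : 2 ≤ n) :
    secVol p (pairV n) =
      ENNReal.ofReal (DD (p / 2) * AA (p / 2)) * volume (ball p (n - 1)) := by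
  have hα : 1 < p / 2 := by linarith
  obtain ⟨m, rfl⟩ : ∃ m, n = m + 1 := ⟨n - 1, by omega⟩
  have hm : 1 ≤ m := by omega
  have hG : 0 < Gamma (1 + m / (p / 2)) := Gamma_pos_of_pos (by positivity)
  have hD := DD_pos (α := p / 2) (by linarith)
  have hA := AA_pos' hα
  obtain ⟨h1, h2⟩ := pair_sec hα hm
  rw [Nat.add_sub_cancel, secVol_eq hp hm _ h1, h2,
    ball_vol_eq hp hm, ← ENNReal.ofReal_div_of_pos hG, ← ENNReal.ofReal_mul (by positivity)]
  congr 1
  ring

theorem ball_vol_pos {p : ℝ} (hp : 2 < p) {m : ℕ} (hm : 1 ≤ m) :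
    volume (ball p m) ≠ 0 ∧ volume (ball p m) ≠ ⊤ := by
  have hα : 1 < p / 2 := by linarith
  have hG : 0 < Gamma (1 + m / (p / 2)) := Gamma_pos_of_pos (by positivity)
  have hc := cst_pos hα m
  rw [ball_vol_eq hp hm]
  refine ⟨?_, ENNReal.ofReal_ne_top⟩
  rw [Ne, ENNReal.ofReal_eq_zero, not_le]
  positivity

theorem pair_lt_diag {p : ℝ} (hp : 2 < p) {n : ℕ} (hn : 2 ≤ n) :
    secVol p (pairV n) < secVol p (diagV n) ↔ AA (p / 2) < vv (p / 2) n := by
  have hα : 1 < p / 2 := by linarith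
  obtain ⟨h0, h1⟩ := ball_vol_pos hp (m := n - 1) (by omega)
  have hD := DD_pos (α := p / 2) (by linarith)
  have hA := AA_pos' hα
  rw [secVol_diag hp hn, secVol_pair hp hn, ENNReal.mul_lt_mul_iff_left h0 h1,
    ENNReal.ofReal_lt_ofReal_iff_of_nonneg (by positivity), mul_lt_mul_iff_right₀ hD]

theorem diag_lt_pair {p : ℝ} (hp : 2 < p) {n : ℕ} (hn : 2 ≤ n) :
    secVol p (diagV n) < secVol p (pairV n) ↔ vv (p / 2) n < AA (p / 2) := by
  have hα : 1 < p / 2 := by linarith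
  obtain ⟨h0, h1⟩ := ball_vol_pos hp (m := n - 1) (by omega)
  have hD := DD_pos (α := p / 2) (by linarith)
  have hv := vv_nonneg hα hn
  rw [secVol_diag hp hn, secVol_pair hp hn, ENNReal.mul_lt_mul_iff_left h0 h1,
    ENNReal.ofReal_lt_ofReal_iff_of_nonneg (by positivity), mul_lt_mul_iff_right₀ hD]

/-- for large `n` the diagonal section is the larger one -/
theorem exists_vv_gt {p : ℝ} (hp : 2 < p) : ∃ n : ℕ, 3 ≤ n ∧ AA (p / 2) < vv (p / 2) n := by
  obtain ⟨-, ⟨n0, h⟩, -⟩ := final hp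
  refine ⟨max n0 3, le_max_right _ _, ?_⟩
  have h3 : 3 ≤ max n0 3 := le_max_right _ _
  rw [← pair_lt_diag hp (by omega : 2 ≤ max n0 3)]
  obtain ⟨k, hk⟩ : ∃ k, max n0 3 = k + 2 := ⟨max n0 3 - 2, by omega⟩
  obtain ⟨h1, h2⟩ := h (max n0 3) (le_max_left _ _) (pairV (max n0 3))
    (by rw [hk]; exact pairV_norm k)
  refine lt_of_le_of_ne h1 fun he => ?_
  have h4 := h2.1 he
  have h5 : ‖pairV (max n0 3) ⟨2, by omega⟩‖ = 0 := by
    have : pairV (max n0 3) ⟨2, by omega⟩ = 0 := by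
      change (if (2 : ℕ) < 2 then ((1 / √2 : ℝ) : ℂ) else 0) = 0
      simp
    rw [this, norm_zero]
  rw [h4] at h5
  have h6 : (0 : ℝ) < ((max n0 3 : ℕ) : ℝ) := by exact_mod_cast (by omega : 0 < max n0 3)
  have h7 : 0 < 1 / √((max n0 3 : ℕ) : ℝ) := by positivity
  linarith

/-- The threshold at the level of `vv`. -/
theorem thr_vv (hcore : ∀ a : ℝ, 1 < a → ∀ n : ℕ, 3 ≤ n → Core a n) {p : ℝ} (hp : 2 < p) :
    ∃ N : ℕ, 3 ≤ N ∧ (∀ n : ℕ, 3 ≤ n → n < N → vv (p / 2) n < AA (p / 2)) ∧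
      AA (p / 2) ≤ vv (p / 2) N ∧ (∀ n : ℕ, N < n → AA (p / 2) < vv (p / 2) n) ∧
      ∀ n : ℕ, N ≤ n → vv (p / 2) n < vv (p / 2) (n + 1) := by
  classical
  have hα : 1 < p / 2 := by linarith
  have hex : ∃ n : ℕ, 3 ≤ n ∧ AA (p / 2) ≤ vv (p / 2) n := by
    obtain ⟨n, h3, h⟩ := exists_vv_gt hp
    exact ⟨n, h3, h.le⟩
  set N := Nat.find hex with hN
  obtain ⟨hN3, hNA⟩ := Nat.find_spec hex
  have hstep : ∀ n : ℕ, 3 ≤ n → AA (p / 2) ≤ vv (p / 2) n →
      vv (p / 2) n < vv (p / 2) (n + 1) := by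
    intro n hn h
    have h1 := vv_succ hα hn (hcore _ hα (n + 1) (by omega))
    rcases lt_max_iff.1 h1 with h2 | h2
    · linarith
    · exact h2
  have hall : ∀ n : ℕ, N ≤ n → AA (p / 2) ≤ vv (p / 2) n := by
    intro n hn
    induction n, hn using Nat.le_induction with
    | base => exact hNA
    | succ n hn ih => exact ih.trans (hstep n (hN3.trans hn) ih).le
  refine ⟨N, hN3, fun n h3 hn => ?_, hNA, fun n hn => ?_, fun n hn => ?_⟩
  · have := Nat.find_min hex hn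
    by_contra hcon
    exact this ⟨h3, not_lt.1 hcon⟩
  · obtain ⟨k, rfl⟩ : ∃ k, n = k + 1 := ⟨n - 1, by omega⟩
    have hk : N ≤ k := by omega
    exact (hall k hk).trans_lt (hstep k (hN3.trans hk) (hall k hk))
  · exact hstep n (hN3.trans hn) (hall n hn)

/-- The threshold dimension: below `N` the pair section is the larger one, above `N` the diagonal
section; beyond `N` the volume of the diagonal section, divided by the volume of the ball of
dimension `n - 1`, increases strictly. -/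
theorem thr_strong (hcore : ∀ a : ℝ, 1 < a → ∀ n : ℕ, 3 ≤ n → Core a n) :
    ∀ p : ℝ, 2 < p → ∃ N : ℕ, 3 ≤ N ∧
      (∀ n : ℕ, 3 ≤ n → n < N → secVol p (diagV n) < secVol p (pairV n)) ∧
      secVol p (pairV N) ≤ secVol p (diagV N) ∧
      (∀ n : ℕ, N < n → secVol p (pairV n) < secVol p (diagV n)) ∧
      ∀ n : ℕ, N ≤ n → secVol p (diagV n) / volume (ball p (n - 1)) <
        secVol p (diagV (n + 1)) / volume (ball p n) := by
  intro p hp
  have hα : 1 < p / 2 := by linarith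
  have hD := DD_pos (α := p / 2) (by linarith)
  obtain ⟨N, h3, h1, h2, h4, h5⟩ := thr_vv hcore hp
  refine ⟨N, h3, fun n hn hnN => (diag_lt_pair hp (by omega)).2 (h1 n hn hnN), ?_,
    fun n hn => (pair_lt_diag hp (by omega)).2 (h4 n hn), fun n hn => ?_⟩
  · rw [← not_lt, diag_lt_pair hp (by omega), not_lt]
    exact h2
  · obtain ⟨a0, a1⟩ := ball_vol_pos hp (m := n - 1) (by omega)
    obtain ⟨b0, b1⟩ := ball_vol_pos hp (m := n) (by omega)
    rw [secVol_diag hp (by omega : 2 ≤ n), secVol_diag hp (by omega : 2 ≤ n + 1),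
      Nat.add_sub_cancel, ENNReal.mul_div_cancel_right a0 a1, ENNReal.mul_div_cancel_right b0 b1,
      ENNReal.ofReal_lt_ofReal_iff_of_nonneg
        (mul_nonneg hD.le (vv_nonneg hα (by omega)))]
    exact mul_lt_mul_of_pos_left (h5 n hn) hD

theorem thr (hcore : ∀ a : ℝ, 1 < a → ∀ n : ℕ, 3 ≤ n → Core a n) :
    ∀ p : ℝ, 2 < p → ∃ N : ℕ, 3 ≤ N ∧
      (∀ n : ℕ, 3 ≤ n → n < N → secVol p (diagV n) < secVol p (pairV n)) ∧
      secVol p (pairV N) ≤ secVol p (diagV N) ∧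
      ∀ n : ℕ, N < n → secVol p (pairV n) < secVol p (diagV n) := by
  intro p hp
  obtain ⟨N, h1, h2, h3, h4, -⟩ := thr_strong hcore p hp
  exact ⟨N, h1, h2, h3, h4⟩

end LpSec
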