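import Mathlib
import Pool.Agent.Lib.MP_1dbab3_gt.Thr

/-!
# The final form: explicit values, the maximisers and the threshold dimension

`RR p n = Γ(1+2/p) ∫_0^∞ φ_p(s/n)^n ds` is the volume of the section orthogonal to `(1,…,1)/√n`
and `PP p = 2^(1-2/p)` that of the section orthogonal to `(e_1+e_2)/√2`, both divided by the
volume of the unit ball of dimension `n - 1`.
-/

open Real MeasureTheory Set Filter Topology

namespace LpSec.F5

/-- `J₀(2 √v)`. -/
noncomputable def J0 (v : ℝ) : ℝ := ∑' m : ℕ, (-v) ^ m / (m.factorial : ℝ) ^ 2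

/-- The Fourier transform of the density proportional to `exp (-|z|^p)` at a point of modulus
`2 √s`. -/
noncomputable def phiP (p s : ℝ) : ℝ :=
  (∫ ρ in Ioi (0 : ℝ), exp (-ρ ^ (p / 2)) * J0 (s * ρ)) / Gamma (1 + 2 / p)

/-- The normalised volume of the section orthogonal to `(1,…,1)/√n`. -/
noncomputable def RR (p : ℝ) (n : ℕ) : ℝ :=
  Gamma (1 + 2 / p) * ∫ s in Ioi (0 : ℝ), phiP p (s / n) ^ n

/-- The normalised volume of the section orthogonal to `(e_1+e_2)/√2`. -/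
noncomputable def PP (p : ℝ) : ℝ := 2 ^ (1 - 2 / p)

/-- The sharp constant. -/
noncomputable def CP (p : ℝ) : ℝ := 2 * Gamma (1 + 2 / p) ^ 2 / Gamma (1 + 4 / p)

/-- The threshold dimension. -/
noncomputable def NP (p : ℝ) : ℕ := sInf {n : ℕ | 3 ≤ n ∧ PP p ≤ RR p n}

/-- The maximal volume. -/
noncomputable def MM (p : ℝ) (n : ℕ) : ENNReal :=
  ⨆ a : {a : EuclideanSpace ℂ (Fin n) // ‖a‖ = 1}, secVol p a.1

theorem J0_eq (v : ℝ) : J0 v = K 0 v := by
  unfold J0 K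
  refine tsum_congr fun m => ?_
  rw [add_zero, sq]

theorem two_div_half {p : ℝ} : 1 / (p / 2) = 2 / p := by
  rw [one_div_div]

theorem Phi_eq_phiP {p : ℝ} (hp : 2 < p) (s : ℝ) :
    Phi (p / 2) s = phiP p (s / mu (p / 2)) := by
  have hα : 1 < p / 2 := by linarith
  have hmu := mu_pos (α := p / 2) (by linarith)
  have hG : 0 < Gamma (1 + 2 / p) := Gamma_pos_of_pos (by positivity)
  unfold Phi phiP
  have e : ∀ ρ : ℝ, F (p / 2) ρ * K 0 (s * ρ) =
      (DD (p / 2))⁻¹ * (exp (-(mu (p / 2) * ρ) ^ (p / 2)) *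
        J0 (s / mu (p / 2) * (mu (p / 2) * ρ))) := by
    intro ρ
    have h1 : s / mu (p / 2) * (mu (p / 2) * ρ) = s * ρ := by
      field_simp
    rw [h1, J0_eq, F]
    ring
  simp only [e]
  have h2 := integral_comp_mul_left_Ioi
    (fun x : ℝ => exp (-x ^ (p / 2)) * J0 (s / mu (p / 2) * x)) 0 hmu
  rw [integral_const_mul, h2, mul_zero, smul_eq_mul,
    DD_eq (by linarith : 0 < p / 2), two_div_half]
  field_simp

theorem RR_eq {p : ℝ} (hp : 2 < p) (n : ℕ) : RR p n = DD (p / 2) * vv (p / 2) n := by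
  have hα : 1 < p / 2 := by linarith
  have hmu := mu_pos (α := p / 2) (by linarith)
  have hG : 0 < Gamma (1 + 2 / p) := Gamma_pos_of_pos (by positivity)
  unfold RR vv J
  have e : ∀ s : ℝ, ∏ _i : Fin n, Phi (p / 2) (1 / (n : ℝ) * s) =
      (fun x : ℝ => phiP p (x / n) ^ n) ((mu (p / 2))⁻¹ * s) := by
    intro s
    rw [Finset.prod_const, Finset.card_univ, Fintype.card_fin, Phi_eq_phiP hp]
    simp only
    congr 2
    ring
  simp only [e]
  rw [integral_comp_mul_left_Ioi (fun x : ℝ => phiP p (x / n) ^ n) _ (inv_pos.2 hmu), mul_zero,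
    smul_eq_mul, inv_inv, DD_eq (by linarith : 0 < p / 2), two_div_half]
  field_simp

theorem PP_eq {p : ℝ} (hp : 2 < p) : PP p = DD (p / 2) * AA (p / 2) := by
  have hD := DD_pos (α := p / 2) (by linarith)
  unfold PP AA
  rw [two_div_half]
  field_simp

theorem CP_eq {p : ℝ} (hp : 2 < p) : CP p = DD (p / 2) := by
  unfold CP
  rw [DD_half hp]

theorem ballVol_eq {p : ℝ} (hp : 2 < p) {m : ℕ} (hm : 1 ≤ m) :
    volume (ball p m) =
      ENNReal.ofReal ((π * Gamma (1 + 2 / p)) ^ m / Gamma (1 + 2 * m / p)) := by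
  rw [ball_vol_eq hp hm, cst, two_div_half]
  congr 3
  rw [div_div_eq_mul_div]
  ring

theorem secVol_flatT {p : ℝ} (hp : 2 < p) {n : ℕ} (hn : 2 ≤ n)
    (a : EuclideanSpace ℂ (Fin n)) (ha : ‖a‖ = 1) (hf : FlatT a) :
    secVol p a = ENNReal.ofReal (RR p n) * volume (ball p (n - 1)) := by
  rw [RR_eq hp, ← secVol_diag hp hn]
  obtain ⟨m, rfl⟩ : ∃ m, n = m + 1 := ⟨n - 1, by omega⟩
  have hm : 1 ≤ m := by omega
  have hα : 1 < p / 2 := by linarith
  have hn1 : (1 : ℝ) < ((m + 1 : ℕ) : ℝ) := by exact_mod_cast (by omega : 1 < m + 1)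
  have hsq : ∀ i, ‖a i‖ ^ 2 = 1 / ((m + 1 : ℕ) : ℝ) := by
    intro i
    rw [hf i, div_pow, one_pow, Real.sq_sqrt (by positivity)]
  have hlt : ∀ i, ‖a i‖ ^ 2 < 1 := fun i => by
    rw [hsq, div_lt_one (by linarith)]
    exact hn1
  rw [secVol_eq hp hm a ha, secVol_eq hp hm _ (diagV_norm (by omega)), diag_sec hα hm,
    sec_eq_J hα a ha hlt]
  simp only [hsq]
  rfl

theorem secVol_pairT {p : ℝ} (hp : 2 < p) {n : ℕ} (hn : 2 ≤ n)
    (a : EuclideanSpace ℂ (Fin n)) (ha : ‖a‖ = 1) (hf : PairT a) :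
    secVol p a = ENNReal.ofReal (PP p) * volume (ball p (n - 1)) := by
  rw [PP_eq hp, ← secVol_pair hp hn]
  obtain ⟨m, rfl⟩ : ∃ m, n = m + 1 := ⟨n - 1, by omega⟩
  have hm : 1 ≤ m := by omega
  have hα : 1 < p / 2 := by linarith
  obtain ⟨i, j, hij, hi, hj⟩ := hf
  obtain ⟨h1, h2⟩ := pair_sec hα hm
  rw [secVol_eq hp hm a ha, secVol_eq hp hm _ h1, h2,
    sec_pair hα a ha i j hij ((norm_sq_half a i).2 hi) ((norm_sq_half a j).2 hj)]

theorem pairV_two_flat : FlatT (pairV 2) := by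
  intro i
  have h : pairV 2 i = ((1 / √2 : ℝ) : ℂ) := by
    change (if (i : ℕ) < 2 then ((1 / √2 : ℝ) : ℂ) else 0) = _
    rw [if_pos i.2]
  rw [h, Complex.norm_real, Real.norm_eq_abs, abs_of_nonneg (by positivity)]
  norm_num

theorem pairV_norm' {n : ℕ} (hn : 2 ≤ n) : ‖pairV n‖ = 1 := by
  obtain ⟨k, rfl⟩ : ∃ k, n = k + 2 := ⟨n - 2, by omega⟩
  exact pairV_norm k

theorem pairV_pairT {n : ℕ} (hn : 2 ≤ n) : PairT (pairV n) := by
  obtain ⟨k, rfl⟩ : ∃ k, n = k + 2 := ⟨n - 2, by omega⟩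
  refine ⟨0, 1, ?_, (norm_sq_half _ _).1 ?_, (norm_sq_half _ _).1 ?_⟩
  · intro h
    have := congrArg Fin.val h
    simp at this
  · exact (norm_sq_half _ _).2 (pairV_zero k)
  · exact (norm_sq_half _ _).2 (pairV_one k)

theorem diagV_flatT {n : ℕ} : FlatT (diagV n) := by
  intro i
  have h : diagV n i = ((1 / √(n : ℝ) : ℝ) : ℂ) := rfl
  rw [h, Complex.norm_real, Real.norm_eq_abs, abs_of_nonneg (by positivity)]

theorem ofReal_mul_le {x y : ℝ} (hy : 0 ≤ y) {B : ENNReal} (h0 : B ≠ 0) (h1 : B ≠ ⊤) :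
    ENNReal.ofReal x * B ≤ ENNReal.ofReal y * B ↔ x ≤ y := by
  rw [ENNReal.mul_le_mul_iff_left h0 h1, ENNReal.ofReal_le_ofReal_iff hy]

theorem PP_pos (p : ℝ) : 0 < PP p := by unfold PP; positivity

theorem RR_nonneg {p : ℝ} (hp : 2 < p) {n : ℕ} (hn : 2 ≤ n) : 0 ≤ RR p n := by
  rw [RR_eq hp]
  exact mul_nonneg (DD_pos (by linarith)).le (vv_nonneg (by linarith) hn)

/-- The maximal volume and the maximisers. -/
theorem final5_max (hcore : ∀ a : ℝ, 1 < a → ∀ n : ℕ, 3 ≤ n → Core a n) {p : ℝ} (hp : 2 < p)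
    {n : ℕ} (hn : 2 ≤ n) :
    MM p n = ENNReal.ofReal (max (PP p) (RR p n)) * volume (ball p (n - 1)) ∧
    ∀ a : EuclideanSpace ℂ (Fin n), ‖a‖ = 1 →
      (secVol p a = MM p n ↔ (PairT a ∧ RR p n ≤ PP p) ∨ (FlatT a ∧ PP p ≤ RR p n)) := by
  obtain ⟨-, h⟩ := final4 hcore p hp n hn
  have hP := secVol_pairT hp hn (pairV n) (pairV_norm' hn) (pairV_pairT hn)
  have hR := secVol_flatT hp hn (diagV n) (diagV_norm (by omega)) diagV_flatT
  obtain ⟨b0, b1⟩ := ball_vol_pos hp (m := n - 1) (by omega)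
  have hmax : max (secVol p (pairV n)) (secVol p (diagV n)) =
      ENNReal.ofReal (max (PP p) (RR p n)) * volume (ball p (n - 1)) := by
    rw [hP, hR]
    rcases le_total (PP p) (RR p n) with h1 | h1
    · rw [max_eq_right h1, max_eq_right ((ofReal_mul_le (RR_nonneg hp hn) b0 b1).2 h1)]
    · rw [max_eq_left h1, max_eq_left ((ofReal_mul_le (PP_pos p).le b0 b1).2 h1)]
  have hM : MM p n = max (secVol p (pairV n)) (secVol p (diagV n)) := by
    refine le_antisymm (iSup_le fun a => (h a.1 a.2).1) (max_le ?_ ?_)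
    · exact le_iSup (fun a : {a : EuclideanSpace ℂ (Fin n) // ‖a‖ = 1} => secVol p a.1)
        ⟨pairV n, pairV_norm' hn⟩
    · exact le_iSup (fun a : {a : EuclideanSpace ℂ (Fin n) // ‖a‖ = 1} => secVol p a.1)
        ⟨diagV n, diagV_norm (by omega)⟩
  refine ⟨hM.trans hmax, fun a ha => ?_⟩
  rw [hM, (h a ha).2, hP, hR, ofReal_mul_le (RR_nonneg hp hn) b0 b1,
    ofReal_mul_le (PP_pos p).le b0 b1]

/-- The threshold. -/
theorem final5_thr (hcore : ∀ a : ℝ, 1 < a → ∀ n : ℕ, 3 ≤ n → Core a n) {p : ℝ} (hp : 2 < p) :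
    3 ≤ NP p ∧ RR p 2 = PP p ∧ (∀ n : ℕ, 3 ≤ n → n < NP p → RR p n < PP p) ∧
      PP p ≤ RR p (NP p) ∧ (∀ n : ℕ, NP p < n → PP p < RR p n) ∧
      (∀ n : ℕ, NP p ≤ n → RR p n < RR p (n + 1)) := by
  have hD := DD_pos (α := p / 2) (by linarith)
  obtain ⟨N, h3, h1, h2, h4, h5⟩ := thr_vv hcore hp
  have hmem : N ∈ {n : ℕ | 3 ≤ n ∧ PP p ≤ RR p n} := by
    refine ⟨h3, ?_⟩
    rw [PP_eq hp, RR_eq hp]
    exact mul_le_mul_of_nonneg_left h2 hD.le
  have hN : NP p = N := by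
    refine le_antisymm (Nat.sInf_le hmem) ?_
    have h6 := Nat.sInf_mem ⟨N, hmem⟩
    by_contra hcon
    have h7 := h1 _ h6.1 (not_le.1 hcon)
    have h8 := h6.2
    have h9 : ∀ k : ℕ, vv (p / 2) k < AA (p / 2) → RR p k < PP p := fun k hk => by
      rw [PP_eq hp, RR_eq hp]
      exact mul_lt_mul_of_pos_left hk hD
    exact absurd h8 (not_le.2 (h9 _ h7))
  rw [hN]
  have hR2 : RR p 2 = PP p := by
    have e1 := secVol_flatT hp le_rfl (pairV 2) (pairV_norm' le_rfl) pairV_two_flat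
    have e2 := secVol_pairT hp le_rfl (pairV 2) (pairV_norm' le_rfl) (pairV_pairT le_rfl)
    obtain ⟨b0, b1⟩ := ball_vol_pos hp (m := 2 - 1) (by omega)
    have e3 := e1.symm.trans e2
    exact le_antisymm ((ofReal_mul_le (PP_pos p).le b0 b1).1 e3.le)
      ((ofReal_mul_le (RR_nonneg hp le_rfl) b0 b1).1 e3.ge)
  refine ⟨h3, hR2, fun n hn hnN => ?_, hmem.2, fun n hn => ?_, fun n hn => ?_⟩
  · rw [PP_eq hp, RR_eq hp]
    exact mul_lt_mul_of_pos_left (h1 n hn hnN) hD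
  · rw [PP_eq hp, RR_eq hp]
    exact mul_lt_mul_of_pos_left (h4 n hn) hD
  · rw [RR_eq hp, RR_eq hp]
    exact mul_lt_mul_of_pos_left (h5 n hn) hD

/-- The sharp constant: all values are below `CP p` and `RR p n` tends to it. -/
theorem final5_lim {p : ℝ} (hp : 2 < p) :
    (∀ n : ℕ, 2 ≤ n → RR p n < CP p) ∧ Tendsto (RR p) atTop (𝓝 (CP p)) := by
  obtain ⟨h1, -, h3⟩ := final hp
  have hC : 0 < CP p := by rw [CP_eq hp]; exact DD_pos (by linarith)
  refine ⟨fun n hn => ?_, ?_⟩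
  · obtain ⟨b0, b1⟩ := ball_vol_pos hp (m := n - 1) (by omega)
    have h := h1 n hn (diagV n) (diagV_norm (by omega))
    rw [secVol_flatT hp hn (diagV n) (diagV_norm (by omega)) diagV_flatT] at h
    by_contra hcon
    have := (ofReal_mul_le (RR_nonneg hp hn) b0 b1).2 (not_lt.1 hcon)
    exact absurd (lt_of_le_of_lt this h) (lt_irrefl _)
  · have h4 : Tendsto (fun n : ℕ => ENNReal.ofReal (RR p n)) atTop
        (𝓝 (ENNReal.ofReal (CP p))) := by
      refine h3.congr' ?_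
      filter_upwards [eventually_ge_atTop 2] with n hn
      obtain ⟨b0, b1⟩ := ball_vol_pos hp (m := n - 1) (by omega)
      rw [secVol_flatT hp hn (diagV n) (diagV_norm (by omega)) diagV_flatT,
        ENNReal.mul_div_cancel_right b0 b1]
    have h5 := (ENNReal.tendsto_toReal (ENNReal.ofReal_ne_top)).comp h4
    rw [ENNReal.toReal_ofReal hC.le] at h5
    refine h5.congr' ?_
    filter_upwards [eventually_ge_atTop 2] with n hn
    exact ENNReal.toReal_ofReal (RR_nonneg hp hn)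

/-- Close to `2` the threshold is three. -/
theorem final5_near (hcore : ∀ a : ℝ, 1 < a → ∀ n : ℕ, 3 ≤ n → Core a n) :
    ∃ p1 : ℝ, 2 < p1 ∧ ∀ p : ℝ, 2 < p → p < p1 → NP p = 3 ∧ PP p < RR p 3 := by
  obtain ⟨p1, h1, h⟩ := final2
  refine ⟨p1, h1, fun p hp hpp => ?_⟩
  obtain ⟨b0, b1⟩ := ball_vol_pos hp (m := 3 - 1) (by omega)
  have hP := secVol_pairT hp (by omega : 2 ≤ 3) (pairV 3) (pairV_norm' (by omega))
    (pairV_pairT (by omega))
  have hR := secVol_flatT hp (by omega : 2 ≤ 3) (diagV 3) (diagV_norm (by omega)) diagV_flatT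
  obtain ⟨h2, h3⟩ := h p hp hpp 3 (by omega) (pairV 3) (pairV_norm' (by omega))
  have hne : secVol p (pairV 3) ≠ secVol p (diagV 3) := by
    intro he
    have h4 := h3.1 he ⟨2, by omega⟩
    have h5 : pairV 3 ⟨2, by omega⟩ = 0 := by
      change (if (2 : ℕ) < 2 then ((1 / √2 : ℝ) : ℂ) else 0) = 0
      simp
    rw [h5, norm_zero] at h4
    have h6 : (0 : ℝ) < 1 / √((3 : ℕ) : ℝ) := by positivity
    linarith
  have hlt : PP p < RR p 3 := by
    have h7 := lt_of_le_of_ne h2 hne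
    rw [hP, hR] at h7
    by_contra hcon
    have := (ofReal_mul_le (PP_pos p).le b0 b1).2 (not_lt.1 hcon)
    exact absurd (lt_of_le_of_lt this h7) (lt_irrefl _)
  refine ⟨le_antisymm (Nat.sInf_le ⟨le_rfl, hlt.le⟩) (final5_thr hcore hp).1, hlt⟩

/-- For large `p` the threshold has the order `p`. -/
theorem final5_far (hcore : ∀ a : ℝ, 1 < a → ∀ n : ℕ, 3 ≤ n → Core a n) :
    ∃ p2 : ℝ, 2 < p2 ∧ ∃ c > 0, ∃ C : ℝ, ∀ p : ℝ, p2 ≤ p → c * p ≤ NP p ∧ NP p ≤ C * p := by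
  obtain ⟨p2, hp2, c, hc, C, h⟩ := final3
  refine ⟨p2, hp2, c, hc, max C 0 + 2, fun p hpp => ?_⟩
  have hp : 2 < p := by linarith
  obtain ⟨-, h1, h2⟩ := h p hpp
  obtain ⟨h3, -, h4, h5, -, -⟩ := final5_thr hcore hp
  have key : ∀ n : ℕ, 2 ≤ n →
      (secVol p (diagV n) < secVol p (pairV n) ↔ RR p n < PP p) ∧
      (secVol p (pairV n) < secVol p (diagV n) ↔ PP p < RR p n) := by
    intro n hn
    have hD := DD_pos (α := p / 2) (by linarith)
    rw [diag_lt_pair hp hn, pair_lt_diag hp hn, PP_eq hp, RR_eq hp,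
      mul_lt_mul_iff_right₀ hD, mul_lt_mul_iff_right₀ hD]
    exact ⟨Iff.rfl, Iff.rfl⟩
  constructor
  · by_contra hcon
    have := (key _ (by omega)).1.1 (h1 (NP p) h3 (not_le.1 hcon).le)
    linarith
  · by_contra hcon
    have h6 : (max C 0 + 2) * p < NP p := not_le.1 hcon
    have h7 : 0 ≤ max C 0 := le_max_right _ _
    have h8 : (4 : ℝ) < NP p := by nlinarith
    have h9 : 4 < NP p := by exact_mod_cast h8
    obtain ⟨k, hk⟩ : ∃ k, NP p = k + 1 := ⟨NP p - 1, by omega⟩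
    have h10 : ((NP p : ℕ) : ℝ) = k + 1 := by rw [hk]; push_cast; ring
    have h11 := (key k (by omega)).2.1 (h2 k (by
      have : C * p ≤ max C 0 * p := mul_le_mul_of_nonneg_right (le_max_left _ _) (by linarith)
      nlinarith))
    have h12 := h4 k (by omega) (by omega)
    linarith

end LpSec.F5
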