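import Mathlib
import Pool.Agent.Lib.MP_1dbab3_gt.AsB
import Pool.Agent.Lib.MP_1dbab3_gt.Fin5

/-!
# The threshold dimension `N(p)` satisfies `N(p) / p → 1 / (6 log 2)`
-/

open Real MeasureTheory Set Filter Topology

namespace LpSec.AsN

theorem AA_form {u : ℝ} (hu : 0 < u) :
    AA (1 / u) = (2 : ℝ) ^ (-u) * Gamma (1 + 2 * u) / Gamma (1 + u) ^ 2 := by
  have h1 : 0 < Gamma (1 + 2 * u) := Gamma_pos_of_pos (by positivity)
  have h2 : 0 < Gamma (1 + u) := Gamma_pos_of_pos (by positivity)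
  have e1 : 1 / (1 / u) = u := one_div_one_div u
  have e2 : 2 / (1 / u) = 2 * u := by field_simp
  unfold AA DD
  rw [e1, e2, sub_eq_add_neg, rpow_add (by norm_num), rpow_one]
  field_simp

theorem AA_lim : Tendsto (fun α : ℝ => α * (1 - AA α)) atTop (𝓝 (log 2)) := by
  have hG : DifferentiableAt ℝ Gamma 1 := Real.differentiableAt_Gamma (fun m h => by
    have : (0 : ℝ) ≤ m := by positivity
    linarith)
  have hd := hG.hasDerivAt
  set d := deriv Gamma 1 with hdd
  have g1 : HasDerivAt (fun u : ℝ => Gamma (1 + u)) d 0 := by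
    have h : HasDerivAt Gamma d ((1 : ℝ) + 0) := by rw [add_zero]; exact hd
    have := h.comp (0 : ℝ) ((hasDerivAt_id (0 : ℝ)).const_add 1)
    refine this.congr_deriv ?_
    ring
  have g2 : HasDerivAt (fun u : ℝ => Gamma (1 + 2 * u)) (2 * d) 0 := by
    have h : HasDerivAt Gamma d ((1 : ℝ) + 2 * 0) := by rw [mul_zero, add_zero]; exact hd
    have := h.comp (0 : ℝ) (((hasDerivAt_id (0 : ℝ)).const_mul 2).const_add 1)
    refine this.congr_deriv ?_
    ring
  have g3 : HasDerivAt (fun u : ℝ => (2 : ℝ) ^ (-u)) (-log 2) 0 := by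
    have := (hasDerivAt_id (0 : ℝ)).neg.const_rpow (show (0 : ℝ) < 2 by norm_num)
    refine this.congr_deriv ?_
    simp
  have g : HasDerivAt (fun u : ℝ => (2 : ℝ) ^ (-u) * Gamma (1 + 2 * u) / Gamma (1 + u) ^ 2)
      (-log 2) 0 := by
    have := (g3.mul g2).div (g1.pow 2) (by simp [Gamma_one])
    refine this.congr_deriv ?_
    simp [Gamma_one]
  have hs := hasDerivAt_iff_tendsto_slope.1 g
  have hinv : Tendsto (fun α : ℝ => 1 / α) atTop (𝓝[≠] 0) := by
    refine tendsto_nhdsWithin_iff.2 ⟨?_, ?_⟩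
    · simpa using tendsto_inv_atTop_zero (𝕜 := ℝ)
    · filter_upwards [eventually_gt_atTop (0 : ℝ)] with α hα
      exact (by positivity : (1 : ℝ) / α ≠ 0)
  have h := (hs.comp hinv).neg
  rw [neg_neg] at h
  refine h.congr' ?_
  filter_upwards [eventually_gt_atTop (0 : ℝ)] with α hα
  have e := AA_form (u := 1 / α) (by positivity)
  rw [one_div_one_div] at e
  simp only [Function.comp, slope_def_field]
  rw [← e]
  simp [Gamma_one]
  field_simp
  ring

theorem vv_comp {m : ℝ → ℕ} (hm : Tendsto m atTop atTop) :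
    Tendsto (fun α => (m α : ℝ) * (1 - vv α (m α))) atTop (𝓝 (1 / 3)) := by
  rw [Metric.tendsto_nhds]
  intro ε hε
  obtain ⟨n1, h⟩ := vv_lim (ε := ε / 2) (by positivity)
  filter_upwards [h, hm.eventually (eventually_ge_atTop n1)] with α h1 h2
  rw [Real.dist_eq]
  have := h1 (m α) h2
  linarith

/-- `N(p) ~ p / (6 log 2)` -/
theorem NP_lim (hcore : ∀ a : ℝ, 1 < a → ∀ n : ℕ, 3 ≤ n → Core a n) :
    Tendsto (fun p : ℝ => (F5.NP p : ℝ) / p) atTop (𝓝 (1 / (6 * log 2))) := by
  have hl : 0 < log 2 := log_pos (by norm_num)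
  -- everything as a function of `α = p / 2`
  obtain ⟨p2, hp2, c, hc, C, hfar⟩ := F5.final5_far hcore
  set m : ℝ → ℕ := fun α => F5.NP (2 * α) with hm
  have hmge : ∀ᶠ α : ℝ in atTop, 2 * c * α ≤ (m α : ℝ) := by
    filter_upwards [eventually_ge_atTop p2] with α hα
    have := (hfar (2 * α) (by linarith)).1
    simp only [hm]
    linarith
  have hmR : Tendsto (fun α => (m α : ℝ)) atTop atTop :=
    tendsto_atTop_mono' _ hmge (tendsto_id.const_mul_atTop (by positivity))
  have hmN : Tendsto m atTop atTop := tendsto_natCast_atTop_iff.1 hmR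
  have hmN1 : Tendsto (fun α => m α - 1) atTop atTop :=
    (tendsto_sub_atTop_nat 1).comp hmN
  have t1 := vv_comp hmN
  have t2 := vv_comp hmN1
  have key : ∀ᶠ α : ℝ in atTop, AA α ≤ vv α (m α) ∧ vv α (m α - 1) < AA α := by
    filter_upwards [eventually_gt_atTop (1 : ℝ), hmN.eventually (eventually_ge_atTop 4)]
      with α hα h4
    have hp : 2 < 2 * α := by linarith
    obtain ⟨h3, -, h5, h6, -, -⟩ := F5.final5_thr hcore hp
    have e : 2 * α / 2 = α := by ring
    have hD := DD_pos (α := α) (by linarith)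
    have h7 := h5 (m α - 1) (by omega) (by simp only [hm] at h4 ⊢; omega)
    rw [F5.PP_eq hp, F5.RR_eq hp, e] at h6 h7
    exact ⟨le_of_mul_le_mul_left h6 hD, lt_of_mul_lt_mul_left h7 hD.le⟩
  have lo : Tendsto (fun α => (m α : ℝ) * (1 - vv α (m α)) / (α * (1 - AA α))) atTop
      (𝓝 (1 / 3 / log 2)) := t1.div AA_lim hl.ne'
  have hi : Tendsto (fun α => ((m α - 1 : ℕ) : ℝ) * (1 - vv α (m α - 1)) / (α * (1 - AA α)) +
      1 / α) atTop (𝓝 (1 / 3 / log 2)) := by
    have h1 : Tendsto (fun α : ℝ => 1 / α) atTop (𝓝 0) := by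
      simpa using tendsto_inv_atTop_zero (𝕜 := ℝ)
    have := (t2.div AA_lim hl.ne').add h1
    rwa [add_zero] at this
  have main : Tendsto (fun α => (m α : ℝ) / α) atTop (𝓝 (1 / 3 / log 2)) := by
    refine tendsto_of_tendsto_of_tendsto_of_le_of_le' lo hi ?_ ?_
    · filter_upwards [key, eventually_gt_atTop (1 : ℝ)] with α h1 hα
      have hA := AA_lt_one hα
      have hα0 : 0 < α := by linarith
      have hpos : 0 < α * (1 - AA α) := mul_pos hα0 (by linarith)
      rw [div_le_iff₀ hpos]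
      have : (m α : ℝ) / α * (α * (1 - AA α)) = m α * (1 - AA α) := by
        field_simp
      rw [this]
      exact mul_le_mul_of_nonneg_left (by linarith [h1.1]) (Nat.cast_nonneg _)
    · filter_upwards [key, eventually_gt_atTop (1 : ℝ),
        hmN.eventually (eventually_ge_atTop 4)] with α h1 hα h4
      have hA := AA_lt_one hα
      have hα0 : 0 < α := by linarith
      have hpos : 0 < α * (1 - AA α) := mul_pos hα0 (by linarith)
      have hcast : ((m α - 1 : ℕ) : ℝ) = (m α : ℝ) - 1 := by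
        rw [Nat.cast_sub (by omega)]
        norm_num
      rw [← sub_le_iff_le_add, ← sub_div, ← hcast, le_div_iff₀ hpos]
      have : ((m α - 1 : ℕ) : ℝ) / α * (α * (1 - AA α)) = ((m α - 1 : ℕ) : ℝ) * (1 - AA α) := by
        field_simp
      rw [this]
      exact mul_le_mul_of_nonneg_left (by linarith [h1.2]) (Nat.cast_nonneg _)
  have h2 : Tendsto (fun p : ℝ => p / 2) atTop atTop := tendsto_id.atTop_div_const (by norm_num)
  have h3 := (main.comp h2).div_const 2
  have e : 1 / 3 / log 2 / 2 = 1 / (6 * log 2) := by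
    field_simp
    norm_num
  rw [e] at h3
  refine h3.congr' ?_
  filter_upwards [eventually_gt_atTop (0 : ℝ)] with p hp
  simp only [Function.comp, hm]
  rw [show 2 * (p / 2) = p by ring]
  field_simp

end LpSec.AsN
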