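import Mathlib
import Pool.Agent.Lib.MP_1dbab3_gt.WDefs
import Pool.Agent.Lib.MP_1dbab3_gt.W.Chord

/-!
# Moments in `u`-cells: linear functionals, the tail of the power series, (K) and signs
-/

open Real MeasureTheory Set Filter Topology

namespace LpSec

variable {α : ℝ}

theorem mom_eq_mm (hα : 1 < α) {k : ℕ} (hk : 1 ≤ k) : mom α k = W.mm k (1 / α) := by
  have hα0 : 0 < α := by linarith
  rw [mom_eq hα k]
  unfold W.mm DD mu
  have h1 : 0 < Gamma (1 + 1 / α) := Gamma_pos_of_pos (by positivity)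
  have h2 : 0 < Gamma (1 + 2 / α) := Gamma_pos_of_pos (by positivity)
  have e0 : (1 : ℝ) + 2 * (1 / α) = 1 + 2 / α := by ring
  have e1 : Gamma (1 + ((k : ℝ) + 1) * (1 / α)) = ((k : ℝ) + 1) / α * Gamma (((k : ℝ) + 1) / α) := by
    have h3 : ((k : ℝ) + 1) / α ≠ 0 := by positivity
    rw [← Gamma_add_one h3]
    congr 1
    ring
  have e2 : (Gamma (1 + 2 / α) / (2 * Gamma (1 + 1 / α))) ^ (-((k : ℝ) + 1)) =
      ((2 * Gamma (1 + 1 / α)) / Gamma (1 + 2 / α)) ^ (k + 1) := by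
    rw [rpow_neg (by positivity), ← inv_rpow (by positivity), inv_div]
    rw [show ((k : ℝ) + 1) = ((k + 1 : ℕ) : ℝ) by push_cast; ring, rpow_natCast]
  rw [e0, e1, e2]
  obtain ⟨j, rfl⟩ : ∃ j, k = j + 1 := ⟨k - 1, by omega⟩
  rw [Nat.add_sub_cancel]
  set g1 := Gamma (1 + 1 / α)
  set g2 := Gamma (1 + 2 / α)
  set g3 := Gamma ((((j + 1 : ℕ) : ℝ) + 1) / α)
  have h3 : ((((j + 1 : ℕ) : ℝ)) + 1) ≠ 0 := by positivity
  rw [div_pow, mul_pow]
  field_simp
  ring

namespace W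

theorem mm_one (k : ℕ) : mm k 1 = (k.factorial : ℝ) := by
  unfold mm
  have h1 : Gamma (1 + ((k : ℝ) + 1) * 1) = ((k + 1).factorial : ℝ) := by
    rw [← Real.Gamma_nat_eq_factorial (k + 1)]
    congr 1
    push_cast
    ring
  have h2 : Gamma ((1 : ℝ) + 1) = 1 := by
    rw [show (1 : ℝ) + 1 = 2 by norm_num, Real.Gamma_two]
  have h3 : Gamma ((1 : ℝ) + 2 * 1) = 2 := by
    rw [show (1 : ℝ) + 2 * 1 = ((2 : ℕ) : ℝ) + 1 by norm_num, Real.Gamma_nat_eq_factorial]
    norm_num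
  rw [h1, h2, h3, Nat.factorial_succ, one_pow, mul_one]
  have h4 : ((k : ℝ) + 1) ≠ 0 := by positivity
  push_cast
  field_simp

theorem phk1_step {κ x : ℝ} (hκ : 1 ≤ κ) (hx : 0 ≤ x) : phk1 κ x ≤ phk1 (κ + 1) x := by
  unfold phk1
  have p1 : 0 < 1 + (κ + 1) * x := by positivity
  have p1' : 0 < 1 + (κ + 1 + 1) * x := by positivity
  have p2 : 0 < 1 + 2 * x := by positivity
  have p3 : 0 < 1 + x := by positivity
  -- direct: difference = x [ 1/((1+x)(1+2x)) - 1/((1+(κ+1)x)(1+(κ+2)x)) ] / x^2 * x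
  have key : (κ + 1 + 1) ^ 2 / (1 + (κ + 1 + 1) * x) - (κ + 1) ^ 2 / (1 + (κ + 1) * x) +
      1 / (1 + x) - 4 / (1 + 2 * x) =
      (((1 + (κ + 1) * x) * (1 + (κ + 1 + 1) * x) - (1 + x) * (1 + 2 * x)) /
        ((1 + x) * (1 + 2 * x) * ((1 + (κ + 1) * x) * (1 + (κ + 1 + 1) * x)))) / x ∨ x = 0 := by
    rcases eq_or_lt_of_le hx with h | h
    · right; exact h.symm
    · left
      field_simp
      ring
  rcases key with h | h
  · have hx0 : 0 ≤ (κ + 1 + 1) ^ 2 / (1 + (κ + 1 + 1) * x) - (κ + 1) ^ 2 / (1 + (κ + 1) * x) +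
      1 / (1 + x) - 4 / (1 + 2 * x) := by
      rw [h]
      refine div_nonneg ?_ hx
      have : 0 ≤ (1 + (κ + 1) * x) * (1 + (κ + 1 + 1) * x) - (1 + x) * (1 + 2 * x) := by
        have : (1 + (κ + 1) * x) * (1 + (κ + 1 + 1) * x) - (1 + x) * (1 + 2 * x) =
            2 * κ * x + (κ ^ 2 + 3 * κ) * x ^ 2 := by ring
        rw [this]; positivity
      have h2 : 0 ≤ ((1 + (κ + 1) * x) * (1 + (κ + 1 + 1) * x) - (1 + x) * (1 + 2 * x)) /
        ((1 + x) * (1 + 2 * x) * ((1 + (κ + 1) * x) * (1 + (κ + 1 + 1) * x))) :=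
        div_nonneg this (by positivity)
      linarith
    have h3 := mul_nonneg hx hx0
    have h4 : x * ((κ + 1 + 1) ^ 2 / (1 + (κ + 1 + 1) * x) - (κ + 1) ^ 2 / (1 + (κ + 1) * x) +
      1 / (1 + x) - 4 / (1 + 2 * x)) = ((κ + 1 + 1) * ((κ + 1 + 1) * x / (1 + (κ + 1 + 1) * x)) +
      (κ + 1 - 1) * (x / (1 + x)) - (κ + 1) * (2 * (2 * x / (1 + 2 * x)))) -
      ((κ + 1) * ((κ + 1) * x / (1 + (κ + 1) * x)) + (κ - 1) * (x / (1 + x)) -
      κ * (2 * (2 * x / (1 + 2 * x)))) := by ring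
    linarith
  · rw [h]
    simp

theorem th_step_mono {k : ℕ} (hk : 1 ≤ k) {u v : ℝ} (hu : 0 ≤ u) (huv : u ≤ v) :
    th 0 (k + 1) u - th 0 k u ≤ th 0 (k + 1) v - th 0 k v := by
  have hk1 : (1 : ℝ) ≤ k := by exact_mod_cast hk
  have hv := hu.trans huv
  have hmono : MonotoneOn (fun x => phk ((k : ℝ) + 1) x - phk k x) (Set.Ici 0) := by
    have hd : ∀ x, 0 ≤ x → HasDerivAt (fun x => phk ((k : ℝ) + 1) x - phk k x)
        (phk1 ((k : ℝ) + 1) x - phk1 k x) x := fun x hx =>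
      (phk_hasDerivAt (by linarith) hx).sub (phk_hasDerivAt hk1 hx)
    refine monotoneOn_of_deriv_nonneg (convex_Ici 0) (fun x hx =>
      (hd x hx).continuousAt.continuousWithinAt) (fun x hx => ?_) fun x hx => ?_
    · rw [interior_Ici] at hx
      exact (hd x (le_of_lt hx)).differentiableAt.differentiableWithinAt
    · rw [interior_Ici] at hx
      rw [(hd x (le_of_lt hx)).deriv]
      have := phk1_step hk1 (le_of_lt hx)
      linarith
  have h1 := (th_hasSum 0 (k := k + 1) (by omega) hu).sub (th_hasSum 0 hk hu)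
  have h2 := (th_hasSum 0 (k := k + 1) (by omega) hv).sub (th_hasSum 0 hk hv)
  refine hasSum_le (fun i => ?_) h1 h2
  have p : (0 : ℝ) < ((0 : ℕ) : ℝ) + 1 + i := by positivity
  have h3 := hmono (show u / (((0 : ℕ) : ℝ) + 1 + i) ∈ Set.Ici 0 from div_nonneg hu p.le)
    (show v / (((0 : ℕ) : ℝ) + 1 + i) ∈ Set.Ici 0 from div_nonneg hv p.le)
    (div_le_div_of_nonneg_right huv p.le)
  simp only at h3
  push_cast at h3 ⊢
  exact h3

theorem mm_succ_le {k : ℕ} (hk : 1 ≤ k) {u : ℝ} (hu : 0 ≤ u) (hu1 : u ≤ 1) :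
    mm (k + 1) u ≤ (k + 1) * mm k u := by
  have h1 := th_step_mono hk hu hu1
  have e1 : mm (k + 1) 1 = (k + 1) * mm k 1 := by
    rw [mm_one, mm_one, Nat.factorial_succ]; push_cast; ring
  rw [mm_exp (by omega) zero_le_one, mm_exp hk zero_le_one] at e1
  rw [mm_exp (by omega) hu, mm_exp hk hu]
  have p1 := exp_pos (th 0 (k + 1) 1)
  have p2 := exp_pos (th 0 k 1)
  have p3 := exp_pos (th 0 k u)
  set c1 : ℝ := 2 ^ (k + 1) / ((k + 1 : ℕ) + 1)
  set c0 : ℝ := 2 ^ k / (k + 1)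
  have hc1 : 0 < c1 := by positivity
  have h2 : exp (th 0 (k + 1) u) * exp (th 0 k 1) ≤ exp (th 0 (k + 1) 1) * exp (th 0 k u) := by
    rw [← exp_add, ← exp_add]
    exact exp_le_exp.2 (by linarith)
  have h3 : (c1 * exp (th 0 (k + 1) u)) * exp (th 0 k 1) ≤
      ((k + 1) * (c0 * exp (th 0 k u))) * exp (th 0 k 1) := by
    calc (c1 * exp (th 0 (k + 1) u)) * exp (th 0 k 1) =
        c1 * (exp (th 0 (k + 1) u) * exp (th 0 k 1)) := by ring
      _ ≤ c1 * (exp (th 0 (k + 1) 1) * exp (th 0 k u)) := mul_le_mul_of_nonneg_left h2 hc1.le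
      _ = (c1 * exp (th 0 (k + 1) 1)) * exp (th 0 k u) := by ring
      _ = ((k + 1) * (c0 * exp (th 0 k 1))) * exp (th 0 k u) := by rw [e1]
      _ = _ := by ring
  exact le_of_mul_le_mul_right h3 p2

end W

theorem mom_succ_le (hα : 1 < α) (k : ℕ) : mom α (k + 1) ≤ (k + 1) * mom α k := by
  rcases Nat.eq_zero_or_pos k with h | h
  · subst h
    rw [mom_zero hα, mom_one hα]
    norm_num
  · rw [mom_eq_mm hα (by omega), mom_eq_mm hα h]
    exact W.mm_succ_le h (by positivity) (by rw [div_le_one (by linarith)]; linarith)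

/-- Truncation of the power series of `Phi`. -/
theorem Phi_trunc (hα : 1 < α) {s : ℝ} (hs : 0 ≤ s) (K : ℕ) (hK : s < K + 1) :
    |Phi α s - ∑ k ∈ Finset.range K, (-1) ^ k * mom α k * s ^ k /
      ((k.factorial : ℝ) * (k.factorial : ℝ))| ≤
      mom α K * s ^ K / ((K.factorial : ℝ) * (K.factorial : ℝ)) / (1 - s / (K + 1)) := by
  obtain ⟨h1, h2⟩ := Phi_hasSum hα hs
  have h3 := (hasSum_nat_add_iff' K).2 h2
  have hK1 : (0 : ℝ) < K + 1 := by positivity
  set r : ℝ := s / (K + 1) with hr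
  have hr0 : 0 ≤ r := by positivity
  have hr1 : r < 1 := (div_lt_one hK1).2 hK
  set T : ℝ := mom α K * s ^ K / ((K.factorial : ℝ) * (K.factorial : ℝ)) with hT
  have hm := mom_nonneg hα
  have hT0 : 0 ≤ T := by
    have := hm K
    positivity
  have hterm : ∀ i : ℕ, mom α (i + K) * s ^ (i + K) /
      (((i + K).factorial : ℝ) * ((i + K).factorial : ℝ)) ≤ T * r ^ i := by
    intro i
    induction i with
    | zero => simp [hT]
    | succ i ih =>
      have h4 := mom_succ_le hα (i + K)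
      have e1 : i + 1 + K = (i + K) + 1 := by ring
      have hf : (((i + K) + 1).factorial : ℝ) = (((i + K : ℕ) : ℝ) + 1) * ((i + K).factorial : ℝ) := by
        rw [Nat.factorial_succ]; push_cast; ring
      have hf0 : (0 : ℝ) < ((i + K).factorial : ℝ) := by exact_mod_cast Nat.factorial_pos _
      have hik : (0 : ℝ) < ((i + K : ℕ) : ℝ) + 1 := by positivity
      rw [e1, hf, pow_succ s, pow_succ r]
      have h5 : mom α (i + K + 1) * (s ^ (i + K) * s) /
          ((((i + K : ℕ) : ℝ) + 1) * ((i + K).factorial : ℝ) * ((((i + K : ℕ) : ℝ) + 1) *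
            ((i + K).factorial : ℝ))) ≤
          (mom α (i + K) * s ^ (i + K) / (((i + K).factorial : ℝ) * ((i + K).factorial : ℝ))) *
            (s / (((i + K : ℕ) : ℝ) + 1)) := by
        have e2 : (mom α (i + K) * s ^ (i + K) / (((i + K).factorial : ℝ) *
            ((i + K).factorial : ℝ))) * (s / (((i + K : ℕ) : ℝ) + 1)) =
            ((((i + K : ℕ) : ℝ) + 1) * mom α (i + K)) * (s ^ (i + K) * s) /
            ((((i + K : ℕ) : ℝ) + 1) * ((i + K).factorial : ℝ) * ((((i + K : ℕ) : ℝ) + 1) *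
            ((i + K).factorial : ℝ))) := by
          field_simp
        rw [e2]
        refine div_le_div_of_nonneg_right ?_ (by positivity)
        exact mul_le_mul_of_nonneg_right h4 (by positivity)
      refine h5.trans ?_
      rw [← mul_assoc]
      refine mul_le_mul ih ?_ (by positivity) (by positivity)
      rw [hr]
      refine div_le_div_of_nonneg_left hs hK1 ?_
      push_cast
      have : (0 : ℝ) ≤ i := Nat.cast_nonneg _
      linarith
  have hg := (hasSum_geometric_of_lt_one hr0 hr1).mul_left T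
  have h6 : ‖Phi α s - ∑ k ∈ Finset.range K, (-1) ^ k * mom α k * s ^ k /
      ((k.factorial : ℝ) * (k.factorial : ℝ))‖ ≤ T * (1 - r)⁻¹ := by
    rw [← h3.tsum_eq]
    refine tsum_of_norm_bounded hg fun i => ?_
    have := hm (i + K)
    rw [norm_div, norm_mul, norm_mul, norm_pow, norm_neg, norm_one, one_pow, one_mul,
      Real.norm_of_nonneg this, Real.norm_of_nonneg (by positivity : 0 ≤ s ^ (i + K)),
      Real.norm_of_nonneg (by positivity :
        (0 : ℝ) ≤ ((i + K).factorial : ℝ) * ((i + K).factorial : ℝ))]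
    exact hterm i
  rw [Real.norm_eq_abs] at h6
  rw [div_eq_mul_inv T]
  exact h6

/-- A cell for the moments. -/
structure Box (α : ℝ) (K : ℕ) (A B up lo : ℕ → ℝ) : Prop where
  up_nonneg : ∀ k, k < K → 0 ≤ up k
  lo_nonneg : ∀ k, k < K → 0 ≤ lo k
  ex : ∃ l : ℝ, 0 ≤ l ∧ l ≤ 1 ∧ ∀ k, k < K → (1 - l) * A k + l * B k - lo k ≤ mom α k ∧
    mom α k ≤ (1 - l) * A k + l * B k + up k

/-- linear functionals of the moments in a cell. -/
theorem Box.lin {K : ℕ} {A B up lo : ℕ → ℝ} (h : Box α K A B up lo) (n : ℕ) (hn : n ≤ K)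
    (c : ℕ → ℝ) :
    ∑ k ∈ Finset.range n, c k * mom α k ≤
      max (∑ k ∈ Finset.range n, c k * A k) (∑ k ∈ Finset.range n, c k * B k) +
        ∑ k ∈ Finset.range n, (max (c k) 0 * up k + max (-c k) 0 * lo k) := by
  obtain ⟨l, hl0, hl1, hl⟩ := h.ex
  have h1 : ∀ k ∈ Finset.range n, c k * mom α k ≤ (1 - l) * (c k * A k) + l * (c k * B k) +
      (max (c k) 0 * up k + max (-c k) 0 * lo k) := by
    intro k hk
    have hk' : k < K := lt_of_lt_of_le (Finset.mem_range.1 hk) hn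
    obtain ⟨h2, h3⟩ := hl k hk'
    have hu := h.up_nonneg k hk'
    have hlo := h.lo_nonneg k hk'
    rcases le_total 0 (c k) with hc | hc
    · rw [max_eq_left hc, max_eq_right (by linarith)]
      nlinarith
    · rw [max_eq_right hc, max_eq_left (by linarith)]
      nlinarith
  refine (Finset.sum_le_sum h1).trans ?_
  rw [Finset.sum_add_distrib, Finset.sum_add_distrib, ← Finset.mul_sum, ← Finset.mul_sum]
  have h4 := le_max_left (∑ k ∈ Finset.range n, c k * A k) (∑ k ∈ Finset.range n, c k * B k)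
  have h5 := le_max_right (∑ k ∈ Finset.range n, c k * A k) (∑ k ∈ Finset.range n, c k * B k)
  have h6 : 0 ≤ 1 - l := by linarith
  nlinarith [mul_le_mul_of_nonneg_left h4 h6, mul_le_mul_of_nonneg_left h5 hl0]

end LpSec
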