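import Mathlib
import Pool.Agent.Lib.MP_1dbab3_gt.WDefs

/-!
# `Phi s ≤ 0.091` for `s ≥ 6`, and `BLg ≤ 36`
-/

open Real MeasureTheory Set Filter Topology

namespace LpSec

variable {α : ℝ}

theorem far_split : (fun t : ℝ => t * exp (-t) * kap (6 * t)) = fun t =>
    0.0655 * (t * exp (-t)) + 0.17 * (t * exp (-t) * max (3.16 - 6 * t) 0) +
      0.0705 * (t * exp (-t) * max (2.4 - 6 * t) 0) +
      0.088125 * (t * exp (-t) * max (1.6 - 6 * t) 0) +
      0.108875 * (t * exp (-t) * max (0.8 - 6 * t) 0) := by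
  funext t
  unfold kap
  ring

theorem far_integrable : IntegrableOn (fun t => t * exp (-t) * kap (6 * t)) (Ioi 0) := by
  rw [far_split]
  exact ((((testfn_base.1.const_mul _).add
    ((testfn_int 3.16 6 (by norm_num) (by norm_num)).1.const_mul _)).add
    ((testfn_int 2.4 6 (by norm_num) (by norm_num)).1.const_mul _)).add
    ((testfn_int 1.6 6 (by norm_num) (by norm_num)).1.const_mul _)).add
    ((testfn_int 0.8 6 (by norm_num) (by norm_num)).1.const_mul _)

theorem far_int : ∫ t in Ioi (0 : ℝ), t * exp (-t) * kap (6 * t) ≤ 0.091 := by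
  have i0 := testfn_base
  have i1 := testfn_int 3.16 6 (by norm_num) (by norm_num)
  have i2 := testfn_int 2.4 6 (by norm_num) (by norm_num)
  have i3 := testfn_int 1.6 6 (by norm_num) (by norm_num)
  have i4 := testfn_int 0.8 6 (by norm_num) (by norm_num)
  have e1 : exp (-(3.16 / 6)) ≤ 0.5906 := by
    refine testfn_exp_neg_le _ _ (by norm_num) (by norm_num) ?_
    simp only [Finset.sum_range_succ, Finset.sum_range_zero, Nat.factorial]
    norm_num
  have e2 : exp (-(2.4 / 6)) ≤ 0.67033 := by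
    refine testfn_exp_neg_le _ _ (by norm_num) (by norm_num) ?_
    simp only [Finset.sum_range_succ, Finset.sum_range_zero, Nat.factorial]
    norm_num
  have e3 : exp (-(1.6 / 6)) ≤ 0.76594 := by
    refine testfn_exp_neg_le _ _ (by norm_num) (by norm_num) ?_
    simp only [Finset.sum_range_succ, Finset.sum_range_zero, Nat.factorial]
    norm_num
  have e4 : exp (-(0.8 / 6)) ≤ 0.87518 := by
    refine testfn_exp_neg_le _ _ (by norm_num) (by norm_num) ?_
    simp only [Finset.sum_range_succ, Finset.sum_range_zero, Nat.factorial]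
    norm_num
  have hval : ∫ t in Ioi (0 : ℝ), t * exp (-t) * kap (6 * t) =
      0.0655 * 1 + 0.17 * (6 * ((3.16 / 6 - 2) + (3.16 / 6 + 2) * exp (-(3.16 / 6)))) +
      0.0705 * (6 * ((2.4 / 6 - 2) + (2.4 / 6 + 2) * exp (-(2.4 / 6)))) +
      0.088125 * (6 * ((1.6 / 6 - 2) + (1.6 / 6 + 2) * exp (-(1.6 / 6)))) +
      0.108875 * (6 * ((0.8 / 6 - 2) + (0.8 / 6 + 2) * exp (-(0.8 / 6)))) := by
    rw [far_split, ← i0.2, ← i1.2, ← i2.2, ← i3.2, ← i4.2]
    exact testfn_lin _ _ _ _ _ _ _ _ _ _ i0.1 i1.1 i2.1 i3.1 i4.1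
  rw [hval]
  have f1 : (3.16 / 6 + 2) * exp (-(3.16 / 6)) ≤ (3.16 / 6 + 2) * 0.5906 :=
    mul_le_mul_of_nonneg_left e1 (by norm_num)
  have f2 : (2.4 / 6 + 2) * exp (-(2.4 / 6)) ≤ (2.4 / 6 + 2) * 0.67033 :=
    mul_le_mul_of_nonneg_left e2 (by norm_num)
  have f3 : (1.6 / 6 + 2) * exp (-(1.6 / 6)) ≤ (1.6 / 6 + 2) * 0.76594 :=
    mul_le_mul_of_nonneg_left e3 (by norm_num)
  have f4 : (0.8 / 6 + 2) * exp (-(0.8 / 6)) ≤ (0.8 / 6 + 2) * 0.87518 :=
    mul_le_mul_of_nonneg_left e4 (by norm_num)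
  generalize (3.16 / 6 + 2) * exp (-(3.16 / 6)) = g1 at *
  generalize (2.4 / 6 + 2) * exp (-(2.4 / 6)) = g2 at *
  generalize (1.6 / 6 + 2) * exp (-(1.6 / 6)) = g3 at *
  generalize (0.8 / 6 + 2) * exp (-(0.8 / 6)) = g4 at *
  norm_num at f1 f2 f3 f4 ⊢
  linarith

theorem far_G_kap (hα : 1 < α) : IntegrableOn (fun t => G α t * kap (6 * t)) (Ioi 0) := by
  have h1 : IntegrableOn (fun t => kap (6 * t) * G α t) (Ioi 0) := by
    refine Integrable.bdd_mul (c := 1) (G_integrable hα) ?_ ?_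
    · exact (T11_kap_continuous.comp (continuous_const.mul continuous_id)).aestronglyMeasurable
    · rw [ae_restrict_iff' measurableSet_Ioi]
      refine Filter.Eventually.of_forall fun t ht => ?_
      have ht' : (0 : ℝ) < t := ht
      rw [Real.norm_eq_abs, abs_of_nonneg (T11_kap_nonneg _)]
      exact T11_kap_le (by positivity)
  exact h1.congr (Filter.Eventually.of_forall fun t => mul_comm _ _)

theorem far_comp (h : ConvexOn ℝ univ kap) : ConvexOn ℝ univ (fun t : ℝ => kap (6 * t)) := by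
  refine ⟨convex_univ, fun x _ y _ a b ha hb hab => ?_⟩
  have := h.2 (mem_univ (6 * x)) (mem_univ (6 * y)) ha hb hab
  have e : 6 * (a • x + b • y) = a • (6 * x) + b • (6 * y) := by
    simp only [smul_eq_mul]; ring
  change kap (6 * (a • x + b • y)) ≤ a • kap (6 * x) + b • kap (6 * y)
  rw [e]
  exact this

/-- the field `far` -/
theorem Phi_far (hα : 1 < α) {s : ℝ} (hs : 6 ≤ s) : Phi α s ≤ 0.091 := by
  have hs0 : 0 ≤ s := by linarith
  rw [Phi_eq_G hα hs0]
  calc ∫ t in Ioi (0 : ℝ), G α t * K 1 (s * t)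
      ≤ ∫ t in Ioi (0 : ℝ), G α t * kap (6 * t) := by
        refine setIntegral_mono_on (G_mul_K_integrable hα hs0) (far_G_kap hα)
          measurableSet_Ioi ?_
        intro t ht
        have ht' : (0 : ℝ) < t := ht
        refine mul_le_mul_of_nonneg_left ?_ (G_nonneg (lt_trans one_pos hα) ht')
        exact K1_le_kap (by positivity) (mul_le_mul_of_nonneg_right hs ht'.le)
    _ ≤ ∫ t in Ioi (0 : ℝ), t * exp (-t) * kap (6 * t) :=
        G_convex_le hα (h := fun t => kap (6 * t)) (far_comp kap_convex) (far_G_kap hα)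
          far_integrable
    _ ≤ 0.091 := far_int

theorem exp_two_ge : (0.1353 : ℝ) ≤ exp (-2) := by
  have h1 : exp 1 < 2.7182818286 := Real.exp_one_lt_d9
  have h2 : exp (-2) = (exp 1 * exp 1)⁻¹ := by
    rw [← exp_add, ← exp_neg]; norm_num
  rw [h2]
  have h0 := exp_pos 1
  have h3 : exp 1 * exp 1 ≤ 2.7182818286 * 2.7182818286 :=
    mul_le_mul h1.le h1.le h0.le (by norm_num)
  have h4 : (0 : ℝ) < exp 1 * exp 1 := by positivity
  calc (0.1353 : ℝ) ≤ (2.7182818286 * 2.7182818286)⁻¹ := by norm_num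
    _ ≤ _ := inv_anti₀ h4 h3

theorem BLg_le (hα : 1 < α) : BLg α ≤ 36 := by
  have hα0 : 0 < α := by linarith
  obtain ⟨a, b, ha0, ha1, hb1, hb, h1, h2⟩ := exists_cross hα
  have hD := one_lt_DD hα
  have he : exp (3.55 : ℝ) ≤ 36 := by
    have h3 : exp (3.55 : ℝ) = exp 1 * exp 1 * exp 1 * exp 0.55 := by
      rw [← exp_add, ← exp_add, ← exp_add]; norm_num
    have h4 : exp 1 < 2.7182818286 := Real.exp_one_lt_d9
    have h5 : exp (0.55 : ℝ) ≤ 1.74 := by
      refine (Real.exp_bound' (x := 0.55) (by norm_num) (by norm_num) (n := 8) (by norm_num)).trans ?_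
      simp only [Finset.sum_range_succ, Finset.sum_range_zero, Nat.factorial]
      norm_num
    have h6 := exp_pos 1
    have h7 : exp 1 * exp 1 * exp 1 ≤ 2.7182818286 * 2.7182818286 * 2.7182818286 :=
      mul_le_mul (mul_le_mul h4.le h4.le h6.le (by norm_num)) h4.le h6.le (by norm_num)
    rw [h3]
    calc exp 1 * exp 1 * exp 1 * exp 0.55 ≤ 2.7182818286 * 2.7182818286 * 2.7182818286 * 1.74 :=
        mul_le_mul h7 h5 (exp_pos _).le (by norm_num)
      _ ≤ 36 := by norm_num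
  have h3 : ∫ ρ in Ioi (0 : ℝ), 36 * F α ρ = 36 := by
    rw [integral_const_mul, F_integral hα, mul_one]
  unfold BLg
  rw [← h3]
  refine setIntegral_mono_on (BLg_integrable hα) ((F_integrable hα).const_mul 36)
    measurableSet_Ioi fun ρ hρ => ?_
  have hρ0 : (0 : ℝ) < ρ := hρ
  have hF := F_pos hα0 ρ
  by_cases hab : ρ ∈ Icc a b
  · have h4 : F α ρ ≤ 1 := by
      refine (F_le_inv hα0 hρ0.le).trans ?_
      exact inv_le_one_of_one_le₀ hD.le
    have h5 : exp ρ ≤ 36 := (exp_le_exp.2 (hab.2.trans hb.le)).trans he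
    calc F α ρ ^ 2 * exp ρ = (F α ρ * exp ρ) * F α ρ := by ring
      _ ≤ (1 * 36) * F α ρ := by
          refine mul_le_mul_of_nonneg_right ?_ hF.le
          exact mul_le_mul h4 h5 (exp_pos _).le zero_le_one
      _ = 36 * F α ρ := by ring
  · have h4 := h2 ρ hρ0 hab
    have h5 : F α ρ * exp ρ ≤ 1 := by
      have := mul_le_mul_of_nonneg_right h4 (exp_pos ρ).le
      rwa [← exp_add, neg_add_cancel, exp_zero] at this
    calc F α ρ ^ 2 * exp ρ = (F α ρ * exp ρ) * F α ρ := by ring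
      _ ≤ 36 * F α ρ := by
          refine mul_le_mul_of_nonneg_right ?_ hF.le
          linarith

end LpSec
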