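import Mathlib
import Pool.Agent.Lib.MP_1dbab3_gt.WDefs
import Pool.Agent.Lib.MP_1dbab3_gt.WBox
import Pool.Agent.Lib.MP_1dbab3_gt.WFar

/-!
# `Lobe α` from finitely many numerical inequalities
-/

open Real MeasureTheory Set Filter Topology

namespace LpSec

variable {α : ℝ}

/-- (K) on `[0, Z]` from upper bounds `V i` of `lag (i + 4)`, `i < M`. -/
theorem x3_of (hα : 1 < α) {Z c : ℝ} {M : ℕ} (hM : 1 ≤ M) (hZ0 : 0 < Z) (hZM : Z < M + 2)
    (hc0 : 0 ≤ c) (hc : 1 ≤ c ^ 2 * (1 - (Z / (M + 2)) ^ 2)) (V : ℕ → ℝ)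
    (hV : ∀ i, i < M → lag α (i + 4) ≤ V i) (hV0 : V 0 ≤ 0) (hpos : ∀ i, 2 ≤ i → i < M → 0 ≤ V i)
    (hE : ∑ i ∈ Finset.range M, V i * Z ^ i / ((i + 1).factorial : ℝ) +
      6 * c * Z ^ M / ((M + 1).factorial : ℝ) ≤ 0) {s : ℝ} (hs : 0 ≤ s) (hsZ : s ≤ Z) :
    Xd α 3 s ≤ lag α 3 := by
  have hR : BLg α - ∑ k ∈ Finset.range (M + 1 + 3), lag α k ^ 2 ≤ (6 : ℝ) ^ 2 := by
    have h1 := BLg_le hα
    have h2 : 0 ≤ ∑ k ∈ Finset.range (M + 1 + 3), lag α k ^ 2 :=
      Finset.sum_nonneg fun _ _ => sq_nonneg _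
    norm_num
    linarith
  have e0 : ((M + 1 : ℕ) : ℝ) + 1 = M + 2 := by push_cast; ring
  have h1 := Xd_tail' hα 3 (M + 1) hs hsZ (by rw [e0]; exact hZM) (by norm_num : (0 : ℝ) ≤ 6) hc0 hR
    (by rw [e0]; exact hc)
  have h2 := (abs_le.1 h1).2
  rw [Finset.sum_range_succ'] at h2
  simp only [pow_zero, Nat.factorial_zero, Nat.cast_one, div_one, mul_one, zero_add] at h2
  set r : ℝ := s / Z with hr
  have hr0 : 0 ≤ r := by positivity
  have hr1 : r ≤ 1 := (div_le_one hZ0).2 hsZ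
  have hsr : s = r * Z := by rw [hr]; field_simp
  have hpow : ∀ i, 1 ≤ i → s ^ i ≤ r * Z ^ i := by
    intro i hi
    rw [hsr, mul_pow]
    refine mul_le_mul_of_nonneg_right ?_ (by positivity)
    calc r ^ i ≤ r ^ 1 := pow_le_pow_of_le_one hr0 hr1 hi
      _ = r := pow_one r
  have h3 : ∀ i ∈ Finset.range M, lag α (i + 1 + 3) * (s ^ (i + 1) / ((i + 1).factorial : ℝ)) ≤
      s * (r * (V i * Z ^ i / ((i + 1).factorial : ℝ))) := by
    intro i hi
    have hi' := Finset.mem_range.1 hi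
    have hf : (0 : ℝ) < ((i + 1).factorial : ℝ) := by exact_mod_cast Nat.factorial_pos _
    have h4 : lag α (i + 1 + 3) * (s ^ (i + 1) / ((i + 1).factorial : ℝ)) ≤
        V i * (s ^ (i + 1) / ((i + 1).factorial : ℝ)) := by
      refine mul_le_mul_of_nonneg_right ?_ (by positivity)
      have := hV i hi'
      rwa [show i + 1 + 3 = i + 4 by ring]
    refine h4.trans ?_
    have e1 : V i * (s ^ (i + 1) / ((i + 1).factorial : ℝ)) =
        s / ((i + 1).factorial : ℝ) * (V i * s ^ i) := by rw [pow_succ]; ring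
    have e2 : s * (r * (V i * Z ^ i / ((i + 1).factorial : ℝ))) =
        s / ((i + 1).factorial : ℝ) * (V i * (r * Z ^ i)) := by ring
    rw [e1, e2]
    refine mul_le_mul_of_nonneg_left ?_ (by positivity)
    rcases Nat.lt_or_ge i 2 with h5 | h5
    · interval_cases i
      · simp only [pow_zero, mul_one]
        nlinarith
      · rw [pow_one, pow_one, ← hsr]
    · exact mul_le_mul_of_nonneg_left (hpow i (by omega)) (hpos i h5 hi')
  have h4 : 6 * c * (s ^ (M + 1) / ((M + 1).factorial : ℝ)) ≤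
      s * (r * (6 * c * Z ^ M / ((M + 1).factorial : ℝ))) := by
    have hf : (0 : ℝ) < ((M + 1).factorial : ℝ) := by exact_mod_cast Nat.factorial_pos _
    have e1 : 6 * c * (s ^ (M + 1) / ((M + 1).factorial : ℝ)) =
        s * (6 * c) / ((M + 1).factorial : ℝ) * s ^ M := by rw [pow_succ]; ring
    have e2 : s * (r * (6 * c * Z ^ M / ((M + 1).factorial : ℝ))) =
        s * (6 * c) / ((M + 1).factorial : ℝ) * (r * Z ^ M) := by ring
    rw [e1, e2]
    exact mul_le_mul_of_nonneg_left (hpow M hM) (by positivity)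
  have h5 := Finset.sum_le_sum h3
  rw [← Finset.mul_sum, ← Finset.mul_sum] at h5
  have h6 : s * (r * (∑ i ∈ Finset.range M, V i * Z ^ i / ((i + 1).factorial : ℝ) +
      6 * c * Z ^ M / ((M + 1).factorial : ℝ))) ≤ 0 :=
    mul_nonpos_of_nonneg_of_nonpos hs (mul_nonpos_of_nonneg_of_nonpos hr0 hE)
  have h7 : s * (r * (∑ i ∈ Finset.range M, V i * Z ^ i / ((i + 1).factorial : ℝ) +
      6 * c * Z ^ M / ((M + 1).factorial : ℝ))) =
      s * (r * ∑ i ∈ Finset.range M, V i * Z ^ i / ((i + 1).factorial : ℝ)) +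
      s * (r * (6 * c * Z ^ M / ((M + 1).factorial : ℝ))) := by ring
  linarith

/-- second order interpolation -/
theorem interp_aux {f f1 f2 : ℝ → ℝ} {a b : ℝ} (hab : a ≤ b)
    (h1 : ∀ x ∈ Icc a b, HasDerivAt f (f1 x) x) (h2 : ∀ x ∈ Icc a b, HasDerivAt f1 (f2 x) x)
    (h3 : ∀ x ∈ Icc a b, -1 ≤ f2 x) {d : ℝ} (ha : f a ≤ -d) (hb : f b ≤ -d)
    (hd : (b - a) ^ 2 / 8 ≤ d) {x : ℝ} (hx : x ∈ Icc a b) : f x ≤ 0 := by
  have hconv : ConvexOn ℝ (Icc a b) (fun x => f x + x ^ 2 / 2) := by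
    refine convexOn_of_hasDerivWithinAt2_nonneg (convex_Icc a b) (f' := fun x => f1 x + x)
      (f'' := fun x => f2 x + 1) ?_ ?_ ?_ ?_
    · intro x hx
      exact ((h1 x hx).continuousAt.add (by fun_prop)).continuousWithinAt
    · intro x hx
      have hx' := interior_subset hx
      refine HasDerivAt.hasDerivWithinAt (((h1 x hx').add
        ((hasDerivAt_pow 2 x).div_const 2)).congr_deriv ?_)
      simp only [Nat.cast_ofNat, Nat.add_one_sub_one, pow_one]
      ring
    · intro x hx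
      have hx' := interior_subset hx
      exact HasDerivAt.hasDerivWithinAt ((h2 x hx').add (hasDerivAt_id x))
    · intro x hx
      have := h3 x (interior_subset hx)
      linarith
  rcases eq_or_lt_of_le hab with h | h
  · have : x = a := le_antisymm (h ▸ hx.2) hx.1
    rw [this]
    have h4 : 0 ≤ (b - a) ^ 2 / 8 := by positivity
    linarith
  · set l : ℝ := (x - a) / (b - a) with hl
    have hba : 0 < b - a := by linarith
    have hl0 : 0 ≤ l := div_nonneg (by linarith [hx.1]) hba.le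
    have hl1 : l ≤ 1 := (div_le_one hba).2 (by linarith [hx.2])
    have hxl : x = (1 - l) * a + l * b := by
      rw [hl]; field_simp; ring
    have h4 := hconv.2 (left_mem_Icc.2 hab) (right_mem_Icc.2 hab) (show 0 ≤ 1 - l by linarith) hl0
      (by ring)
    simp only [smul_eq_mul] at h4
    rw [← hxl] at h4
    have e : (1 - l) * (f a + a ^ 2 / 2) + l * (f b + b ^ 2 / 2) - x ^ 2 / 2 =
        (1 - l) * f a + l * f b + l * (1 - l) * (b - a) ^ 2 / 2 := by
      rw [hxl]; ring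
    have h5 : l * (1 - l) ≤ 1 / 4 := by nlinarith [sq_nonneg (l - 1 / 2)]
    have h6 : l * (1 - l) * (b - a) ^ 2 / 2 ≤ (b - a) ^ 2 / 8 := by
      nlinarith [sq_nonneg (b - a)]
    nlinarith

/-- `Phi ≤ 0` on a segment from a grid. -/
theorem neg_grid (hα : 1 < α) {Z : ℝ} (hZ : 0 < Z) (n : ℕ)
    (h : ∀ i, i ≤ n → Phi α (Z + i / 10) ≤ -(1 / 800)) {s : ℝ} (hs : Z ≤ s) (hsn : s ≤ Z + n / 10) :
    Phi α s ≤ 0 := by
  rcases Nat.eq_zero_or_pos n with h0 | h0
  · subst h0
    have : s = Z := by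
      simp only [Nat.cast_zero, zero_div, add_zero] at hsn
      linarith
    have h1 := h 0 le_rfl
    simp only [Nat.cast_zero, zero_div, add_zero] at h1
    rw [this]
    linarith
  · obtain ⟨i, hi, hi1, hi2⟩ : ∃ i : ℕ, i + 1 ≤ n ∧ Z + i / 10 ≤ s ∧ s ≤ Z + ((i + 1 : ℕ) : ℝ) / 10 := by
      set m : ℕ := ⌊(s - Z) * 10⌋₊ with hm
      have hm1 : (m : ℝ) ≤ (s - Z) * 10 := Nat.floor_le (by linarith)
      have hm2 : (s - Z) * 10 < m + 1 := Nat.lt_floor_add_one _
      rcases Nat.lt_or_ge m n with h2 | h2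
      · refine ⟨m, h2, by linarith, ?_⟩
        push_cast
        linarith
      · refine ⟨n - 1, by omega, ?_, ?_⟩
        · have h3 : ((n - 1 : ℕ) : ℝ) = (n : ℝ) - 1 := by
            rw [Nat.cast_sub h0, Nat.cast_one]
          have h4 : (n : ℝ) ≤ m := by exact_mod_cast h2
          rw [h3]
          linarith
        · rw [Nat.sub_add_cancel h0]
          exact hsn
    have hpos : ∀ x ∈ Icc (Z + (i : ℝ) / 10) (Z + ((i + 1 : ℕ) : ℝ) / 10), 0 < x := by
      intro x hx
      have : (0 : ℝ) ≤ (i : ℝ) / 10 := by positivity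
      linarith [hx.1]
    refine interp_aux (f := Phi α) (f1 := fun x => -(Phi1 α x)) (f2 := fun x => Phi2 α x)
      (d := 1 / 800) (by push_cast; linarith) (fun x hx => Phi_hasDerivAt hα (hpos x hx))
      (fun x hx => ?_) (fun x hx => ?_) (h i (by omega)) (h (i + 1) hi) (by push_cast; ring_nf; norm_num)
      ⟨hi1, hi2⟩
    · exact (Phi1_hasDerivAt hα (hpos x hx)).neg.congr_deriv (neg_neg _)
    · have := Phi2_abs_le hα (hpos x hx).le
      exact (abs_le.1 this).1

/-- `Lobe α` from (K) on `[0, Z]` and the signs on a grid. -/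
theorem lobe_of (hα : 1 < α) {Z : ℝ} (hK : KData α Z) (n : ℕ)
    (h : ∀ i, i ≤ n → Phi α (Z + i / 10) ≤ -(1 / 800)) (hn : 6 ≤ Z + n / 10) : Lobe α := by
  have hZ0 := hK.zpos
  have hPZ : Phi α Z ≤ -(1 / 800) := by
    have := h 0 (Nat.zero_le _)
    simpa using this
  have hX : Xd α 0 Z ≤ 0 := by
    rw [← exp_Phi hα hZ0.le]
    have := exp_pos Z
    nlinarith
  obtain ⟨hz0, hzZ, hzz, hpos, hneg⟩ := z1_spec hα hK hX
  have hnegall : ∀ s, z1 α ≤ s → s ≤ 6 → Phi α s ≤ 0 := by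
    intro s hs hs6
    rcases le_total s Z with h1 | h1
    · rcases eq_or_lt_of_le hs with h2 | h2
      · rw [← h2, hzz]
      · exact (hneg s h2 h1).le
    · exact neg_grid hα hZ0 n h h1 (hs6.trans hn)
  refine ⟨hα, ?_, hpos, hzz, K_concave hα hK hX, (k0_pos hα).le, k1_nonneg hK, ?_, hnegall,
    fun s hs => Phi_far hα hs⟩
  · by_contra hlt
    push Not at hlt
    have h1 := Phi_ge hα hz0.le
    rw [hzz] at h1
    linarith
  · intro s hs
    have hs0 : 0 ≤ s := hz0.le.trans hs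
    have h1 : exp (-2) ≤ exp (-min (z1 α) 2) := exp_le_exp.2 (by
      have := min_le_right (z1 α) 2
      linarith)
    have h2 := exp_two_ge
    rw [abs_le]
    constructor
    · have h3 := Phi_lower hα hs0
      linarith
    · rcases le_total s 6 with h3 | h3
      · have := hnegall s hs h3
        have := exp_pos (-min (z1 α) 2)
        linarith
      · have := Phi_far hα h3
        linarith

/-- brackets for the first zero -/
theorem z1_lt_of (h : Lobe α) {y : ℝ} (hy : 0 ≤ y) (hneg : Phi α y < 0) : z1 α < y := by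
  by_contra hlt
  push Not at hlt
  rcases eq_or_lt_of_le hlt with h1 | h1
  · rw [h1, h.zero] at hneg
    exact lt_irrefl _ hneg
  · exact absurd (h.pos y hy h1) (not_lt.2 hneg.le)

theorem lt_z1_of (h : Lobe α) {y : ℝ} (hy6 : y ≤ 6) (hpos : 0 < Phi α y) : y < z1 α := by
  by_contra hlt
  push Not at hlt
  exact absurd (h.neg y hlt hy6) (not_le.2 hpos)

end LpSec
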