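import Mathlib
import Pool.Agent.Lib.MP_1dbab3_gt.WBase

/-!
# W_A1: consequences of the facts about the main lobe
-/

open Real MeasureTheory Set Filter Topology

namespace LpSec

variable {α : ℝ}

namespace Lobe

theorem z1_pos (h : Lobe α) : 0 < z1 α := lt_of_lt_of_le one_pos h.one_le_z1

/-- the sharp upper bound on the main lobe -/
theorem log_le (h : Lobe α) {s : ℝ} (h0 : 0 ≤ s) (h1 : s < z1 α) :
    log (Phi α s) ≤ -s - k0 α * s ^ 2 / 2 - k1 α * s ^ 3 / 6 := by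
  rcases eq_or_lt_of_le h0 with rfl | hs
  · rw [Phi_zero h.one_lt]; simp
  set g : ℝ → ℝ := fun s => log (Phi α s) + k0 α * s ^ 2 / 2 + k1 α * s ^ 3 / 6 with hg
  have g0 : g 0 = 0 := by simp [hg, Phi_zero h.one_lt]
  have key : ∀ t, 0 < t → t < s → t < 1 →
      g s + s ≤ s * (k0 α * t / 2 + k1 α * t ^ 2 / 6) := by
    intro t ht hts ht1
    have hc := h.conc.2 (show (0 : ℝ) ∈ Ico 0 (z1 α) from ⟨le_refl _, h.z1_pos⟩)
      (show s ∈ Ico 0 (z1 α) from ⟨h0, h1⟩) (show 0 ≤ 1 - t / s by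
        rw [sub_nonneg, div_le_one hs]; exact hts.le) (show 0 ≤ t / s by positivity) (by ring)
    have e1 : (1 - t / s) • (0 : ℝ) + (t / s) • s = t := by
      simp only [smul_eq_mul]; field_simp; ring
    rw [e1] at hc
    have hc' : t / s * g s ≤ g t := by
      have : (1 - t / s) • g 0 + (t / s) • g s ≤ g t := hc
      rw [g0] at this
      simpa using this
    have hlog : log (Phi α t) ≤ -t := by
      have hp : 0 < Phi α t := h.pos t ht.le (hts.trans h1)
      rw [← log_exp (-t)]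
      refine log_le_log hp ?_
      exact (le_abs_self _).trans (main_lobe h.one_lt ht.le (by linarith))
    have h2 : g t ≤ -t + k0 α * t ^ 2 / 2 + k1 α * t ^ 3 / 6 := by
      simp only [hg]; linarith
    have h3 : t / s * g s ≤ -t + k0 α * t ^ 2 / 2 + k1 α * t ^ 3 / 6 := hc'.trans h2
    have h4 : g s = s / t * (t / s * g s) := by field_simp
    have h5 : s / t * (t / s * g s) ≤ s / t * (-t + k0 α * t ^ 2 / 2 + k1 α * t ^ 3 / 6) :=
      mul_le_mul_of_nonneg_left h3 (by positivity)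
    have h6 : s / t * (-t + k0 α * t ^ 2 / 2 + k1 α * t ^ 3 / 6) =
        -s + s * (k0 α * t / 2 + k1 α * t ^ 2 / 6) := by
      field_simp
      ring
    linarith
  have hlim : Tendsto (fun t : ℝ => s * (k0 α * t / 2 + k1 α * t ^ 2 / 6)) (𝓝[>] 0) (𝓝 0) := by
    have hc : Continuous (fun t : ℝ => s * (k0 α * t / 2 + k1 α * t ^ 2 / 6)) := by fun_prop
    have := hc.tendsto 0
    simp only [mul_zero, zero_div, ne_eq, OfNat.ofNat_ne_zero, not_false_eq_true, zero_pow,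
      add_zero] at this
    exact this.mono_left nhdsWithin_le_nhds
  have hfin : g s + s ≤ 0 := by
    refine ge_of_tendsto hlim ?_
    have hmin : (0 : ℝ) < min s 1 := lt_min hs one_pos
    filter_upwards [Ioo_mem_nhdsGT hmin] with t ht
    exact key t ht.1 (ht.2.trans_le (min_le_left _ _)) (ht.2.trans_le (min_le_right _ _))
  simp only [hg] at hfin
  linarith

theorem le_exp_cubic (h : Lobe α) {s : ℝ} (h0 : 0 ≤ s) (h1 : s < z1 α) :
    Phi α s ≤ exp (-s - k0 α * s ^ 2 / 2 - k1 α * s ^ 3 / 6) := by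
  rw [← log_le_iff_le_exp (h.pos s h0 h1)]
  exact h.log_le h0 h1

theorem le_exp (h : Lobe α) {s : ℝ} (h0 : 0 ≤ s) (h1 : s ≤ z1 α) : Phi α s ≤ exp (-s) := by
  rcases lt_or_eq_of_le h1 with h1 | rfl
  · refine (h.le_exp_cubic h0 h1).trans (exp_le_exp.2 ?_)
    have := mul_nonneg h.k0_nonneg (sq_nonneg s)
    have := mul_nonneg h.k1_nonneg (pow_nonneg h0 3)
    linarith
  · rw [h.zero]; exact (exp_pos _).le

theorem nonneg (h : Lobe α) {s : ℝ} (h0 : 0 ≤ s) (h1 : s ≤ z1 α) : 0 ≤ Phi α s := by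
  rcases lt_or_eq_of_le h1 with h1 | rfl
  · exact (h.pos s h0 h1).le
  · rw [h.zero]

theorem abs_le (h : Lobe α) {s : ℝ} (h0 : 0 ≤ s) :
    |Phi α s| ≤ exp (-min s (min (z1 α) 2)) := by
  rcases le_total s (z1 α) with h1 | h1
  · rw [abs_of_nonneg (h.nonneg h0 h1)]
    refine (h.le_exp h0 h1).trans (exp_le_exp.2 (neg_le_neg (min_le_left _ _)))
  · refine (h.small s h1).trans (exp_le_exp.2 (neg_le_neg (min_le_right _ _)))

/-- Jensen's inequality on the main lobe with the cubic modulus -/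
theorem prod_le {ι : Type*} (h : Lobe α) (S : Finset ι) (hS : S.Nonempty) (t : ι → ℝ)
    (h0 : ∀ i ∈ S, 0 ≤ t i) (h1 : ∀ i ∈ S, t i < z1 α) {T : ℝ} (hT : ∑ i ∈ S, t i = S.card * T) :
    ∏ i ∈ S, Phi α (t i) ≤ Phi α T ^ S.card *
      exp (-(k0 α * (∑ i ∈ S, t i ^ 2 - S.card * T ^ 2) / 2 +
        k1 α * (∑ i ∈ S, t i ^ 3 - S.card * T ^ 3) / 6)) := by
  have hm : (0 : ℝ) < S.card := by exact_mod_cast hS.card_pos
  have hTm : ∑ i ∈ S, (1 / (S.card : ℝ)) • t i = T := by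
    rw [← Finset.smul_sum, hT, smul_eq_mul]; field_simp
  have hT0 : 0 ≤ T := by
    have : 0 ≤ ∑ i ∈ S, t i := Finset.sum_nonneg h0
    rw [hT] at this
    exact (mul_nonneg_iff_of_pos_left hm).1 this
  have hT1 : T < z1 α := by
    have : ∑ i ∈ S, t i < ∑ _i ∈ S, z1 α := Finset.sum_lt_sum_of_nonempty hS h1
    rw [hT, Finset.sum_const, nsmul_eq_mul] at this
    exact lt_of_mul_lt_mul_left this hm.le
  have hj := h.conc.le_map_sum (t := S) (w := fun _ => 1 / (S.card : ℝ)) (p := t)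
    (fun i _ => by positivity) (by rw [Finset.sum_const, nsmul_eq_mul]; field_simp)
    (fun i hi => ⟨h0 i hi, h1 i hi⟩)
  rw [hTm] at hj
  have hj2 : ∑ i ∈ S, (log (Phi α (t i)) + k0 α * t i ^ 2 / 2 + k1 α * t i ^ 3 / 6) ≤
      S.card * (log (Phi α T) + k0 α * T ^ 2 / 2 + k1 α * T ^ 3 / 6) := by
    rw [← Finset.smul_sum, smul_eq_mul, one_div, inv_mul_le_iff₀ hm] at hj
    exact hj
  rw [Finset.sum_add_distrib, Finset.sum_add_distrib, ← Finset.sum_div, ← Finset.sum_div,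
    ← Finset.mul_sum, ← Finset.mul_sum] at hj2
  have hP : 0 < ∏ i ∈ S, Phi α (t i) := Finset.prod_pos fun i hi => h.pos _ (h0 i hi) (h1 i hi)
  have hlog : log (∏ i ∈ S, Phi α (t i)) = ∑ i ∈ S, log (Phi α (t i)) :=
    log_prod (fun i hi => (h.pos _ (h0 i hi) (h1 i hi)).ne')
  have hPT : 0 < Phi α T := h.pos T hT0 hT1
  rw [← log_le_log_iff hP (by positivity), hlog, log_mul (by positivity) (by positivity), log_pow,
    log_exp]
  linarith

end Lobe

theorem sq_scale_integrable (hα : 1 < α) {y : ℝ} (hy : 0 < y) {a : ℝ} (ha : 0 ≤ a) :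
    IntegrableOn (fun s => Phi α (y * s) ^ 2) (Ioi a) := by
  rw [integrableOn_Ioi_comp_mul_left_iff (fun s => Phi α s ^ 2) a hy]
  exact Phi_sq_integrable_Ioi hα (by positivity)

theorem sq_scale (α : ℝ) {y : ℝ} (hy : 0 < y) (a : ℝ) :
    ∫ s in Ioi a, Phi α (y * s) ^ 2 = T2 α (y * a) / y := by
  rw [integral_comp_mul_left_Ioi (fun s => Phi α s ^ 2) a hy]
  unfold T2
  rw [smul_eq_mul]
  ring

end LpSec
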