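import Mathlib
import Pool.Agent.Lib.MP_1dbab3_gt.WLagB

/-!
# The main lobe: log-concavity with a modulus of order four (no further numerical input)

`log Phi + k0 s^2/2 + k1 s^3/6 + k0^2 s^4/8` is concave on the main lobe.
-/

open Real MeasureTheory Set Filter Topology

namespace LpSec

variable {α : ℝ}

theorem K_concave4 (hα : 1 < α) {Z : ℝ} (h : KData α Z) (hZ : Xd α 0 Z ≤ 0) :
    ConcaveOn ℝ (Ico 0 (z1 α))
      (fun s => log (Phi α s) + k0 α * s ^ 2 / 2 + k1 α * s ^ 3 / 6 + k0 α ^ 2 * s ^ 4 / 8) := by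
  obtain ⟨hz0, hzZ, hzz, hpos, hneg⟩ := z1_spec hα h hZ
  have hX : ∀ s, 0 ≤ s → s < z1 α → 0 < Xd α 0 s := by
    intro s hs hsz
    have h1 := hpos s hs hsz
    rw [Phi_eq_X hα hs] at h1
    exact (mul_pos_iff_of_pos_left (exp_pos _)).1 h1
  have heq : ∀ s ∈ Ico 0 (z1 α), log (Phi α s) + k0 α * s ^ 2 / 2 + k1 α * s ^ 3 / 6 +
      k0 α ^ 2 * s ^ 4 / 8 =
      log (Xd α 0 s) - s + k0 α * s ^ 2 / 2 + k1 α * s ^ 3 / 6 + k0 α ^ 2 * s ^ 4 / 8 := by
    intro s hs
    rw [Phi_eq_X hα hs.1, log_mul (exp_pos _).ne' (hX s hs.1 hs.2).ne', log_exp]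
    ring
  have hconc : ConcaveOn ℝ (Ico 0 (z1 α))
      (fun s => log (Xd α 0 s) - s + k0 α * s ^ 2 / 2 + k1 α * s ^ 3 / 6 +
        k0 α ^ 2 * s ^ 4 / 8) := by
    refine concaveOn_of_hasDerivWithinAt2_nonpos (convex_Ico 0 (z1 α))
      (f' := fun s => Xd α 1 s / Xd α 0 s - 1 + k0 α * s + k1 α * s ^ 2 / 2 +
        k0 α ^ 2 * s ^ 3 / 2)
      (f'' := fun s => (Xd α 2 s * Xd α 0 s - Xd α 1 s * Xd α 1 s) / Xd α 0 s ^ 2 +
        k0 α + k1 α * s + 3 / 2 * k0 α ^ 2 * s ^ 2) ?_ ?_ ?_ ?_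
    · refine ContinuousOn.add (ContinuousOn.add (ContinuousOn.add
        (ContinuousOn.sub ?_ continuousOn_id) ?_) ?_) ?_
      · exact (Xd_continuous hα 0).continuousOn.log fun s hs => (hX s hs.1 hs.2).ne'
      · fun_prop
      · fun_prop
      · fun_prop
    · intro s hs
      rw [interior_Ico] at hs
      have h1 := hX s hs.1.le hs.2
      have h2 := (((((Xd_hasDerivAt hα 0 s).log h1.ne').sub (hasDerivAt_id s)).add
        (((hasDerivAt_pow 2 s).const_mul (k0 α)).div_const 2)).add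
        (((hasDerivAt_pow 3 s).const_mul (k1 α)).div_const 6)).add
        (((hasDerivAt_pow 4 s).const_mul (k0 α ^ 2)).div_const 8)
      refine HasDerivAt.hasDerivWithinAt (h2.congr_deriv ?_)
      simp only [Nat.cast_ofNat, Nat.add_one_sub_one, pow_one]
      ring
    · intro s hs
      rw [interior_Ico] at hs
      have h1 := hX s hs.1.le hs.2
      have h2 := (((((Xd_hasDerivAt hα 1 s).div (Xd_hasDerivAt hα 0 s) h1.ne').sub_const 1).add
        ((hasDerivAt_id s).const_mul (k0 α))).add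
        (((hasDerivAt_pow 2 s).const_mul (k1 α)).div_const 2)).add
        (((hasDerivAt_pow 3 s).const_mul (k0 α ^ 2)).div_const 2)
      refine HasDerivAt.hasDerivWithinAt (h2.congr_deriv ?_)
      simp only [Nat.cast_ofNat, Nat.add_one_sub_one, pow_one]
      ring
    · intro s hs
      rw [interior_Ico] at hs
      have hP := hX s hs.1.le hs.2
      have h2 := X2_le hα h hs.1.le (hs.2.le.trans hzZ)
      have h1 := X1_le hα h hs.1.le (hs.2.le.trans hzZ)
      have h3 := X0_le hα h hs.1.le (hs.2.le.trans hzZ)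
      have hk0 := (k0_pos hα).le
      have hk1 := k1_nonneg h
      have hs0 := hs.1.le
      set P := Xd α 0 s
      set a := k0 α
      set b := k1 α
      have e1 : 0 ≤ b * s ^ 2 / 2 := by positivity
      have e2 : 0 ≤ b * s ^ 3 / 6 := by positivity
      have e3 : 0 ≤ a * s ^ 2 / 2 := by positivity
      have hP1 : P ≤ 1 - a * s ^ 2 / 2 := by linarith
      have hx1 : (a * s) ^ 2 ≤ Xd α 1 s * Xd α 1 s := by
        have h4 : a * s ≤ -Xd α 1 s := by linarith
        have h5 : 0 ≤ a * s := by positivity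
        nlinarith
      have hx2 : Xd α 2 s * P ≤ -(a + b * s) * P := by
        refine mul_le_mul_of_nonneg_right ?_ hP.le
        linarith
      have hdiv : (Xd α 2 s * P - Xd α 1 s * Xd α 1 s) / P ^ 2 ≤
          -(a + b * s + 3 / 2 * a ^ 2 * s ^ 2) := by
        rw [div_le_iff₀ (by positivity)]
        have q1 : 0 ≤ (a + b * s) * P * (1 - P - a * s ^ 2 / 2) := by
          have : 0 ≤ 1 - P - a * s ^ 2 / 2 := by linarith
          positivity
        have q2 : 0 ≤ a ^ 2 * s ^ 2 * ((1 - P) * (1 + 3 / 2 * P)) := by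
          have : 0 ≤ 1 - P := by linarith
          positivity
        have q3 : 0 ≤ b * s * P * (a * s ^ 2 / 2) := by positivity
        nlinarith
      linarith
  exact hconc.congr fun s hs => (heq s hs).symm

end LpSec
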