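import Mathlib
import Pool.Agent.Lib.MP_1dbab3_gt.WBase

/-!
# The assembly: `Core α n` for all `α > 1` and `n ≥ 3` from the blocks
-/

open Real MeasureTheory Set Filter Topology

namespace LpSec

/-- The blocks: dimension three; `n ≥ 4` and `α ≤ 10/9`; `n ≥ 4` and `α ≥ 10/9`. -/
theorem core_all (h3 : ∀ α : ℝ, 1 < α → Core α 3)
    (hN : ∀ (α : ℝ) (n : ℕ), 1 < α → α ≤ 10 / 9 → 4 ≤ n → Core α n)
    (hF : ∀ (α : ℝ) (n : ℕ), 10 / 9 ≤ α → 4 ≤ n → Core α n) :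
    ∀ α : ℝ, 1 < α → ∀ n : ℕ, 3 ≤ n → Core α n := by
  intro α hα n hn
  rcases Nat.lt_or_ge n 4 with h | h
  · obtain rfl : n = 3 := by omega
    exact h3 α hα
  · rcases le_total α (10 / 9) with h' | h'
    · exact hN α n hα h' h
    · exact hF α n h' h

end LpSec
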