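import Mathlib
import Pool.Agent.Lib.MP_1dbab3_gt.WFinal
import Pool.Agent.Lib.MP_1dbab3_gt.Thr
import Pool.Agent.Lib.MP_1dbab3_gt.LS.All
import Pool.Agent.Lib.MP_1dbab3_gt.G.All
import Pool.Agent.Lib.MP_1dbab3_gt.Nr.Fin
import Pool.Agent.Lib.MP_1dbab3_gt.W.RidZZ

/-!
# `Core α n` for all `α > 1` and all `n ≥ 3`
-/

open Real MeasureTheory Set Filter Topology

namespace LpSec

/-- dimension three, all `α > 1` -/
theorem core_three_total {α : ℝ} (hα : 1 < α) : Core α 3 := by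
  rcases le_or_gt α 4 with h | h
  · exact core_three_le_four hα h
  · exact ML.core_three_of_ge_four h.le

/-- dimensions at least four, `α ≥ 10/9` -/
theorem core_ge_four {α : ℝ} (hα : 10 / 9 ≤ α) {n : ℕ} (hn : 4 ≤ n) : Core α n := by
  obtain ⟨h4, h5, h6, h7⟩ := LS.ls_all hα
  exact ML.core_ge_four_of_ls hα ⟨h4, h5, h6, h7⟩ n hn

/-- **everything** -/
theorem core_total : ∀ α : ℝ, 1 < α → ∀ n : ℕ, 3 ≤ n → Core α n :=
  core_all (fun _ h => core_three_total h) (fun _ _ h1 h2 h3 => core_ge4_near h1 h2 h3)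
    (fun _ _ h1 h2 => core_ge_four h1 h2)

end LpSec
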